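import Mathlib

/-!
# Module Selb (about 250 lines, Mathlib only): Selberg weights.

`Q` a finite set of primes, `0 < ν p < 1`, `Π = prod Q`, `ν(d) = prod_{p | d} ν p`,
`g(d) = prod_{p | d} ν p / (1 - ν p)` for `d | Π` (squarefree). `G = sum_{d | Π, d ≤ D} g(d) ≥ g(1) = 1 > 0`.
DEFINITION: `lam d = μ(d) / ν(d) * (sum_{l | Π, l ≤ D, d | l} g(l)) / G` for `d | Π`, `0` otherwise (it vanishes
for `d > D` automatically).
* `lam 1 = 1`.
* `|lam d| ≤ 1`: `sum_{d | l ≤ D} g(l) = g(d) sum_{l' ≤ D/d, (l', d) = 1} g(l')` and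
  `G = sum_{e | d} sum_{l ≤ D, (l, d) = e} g(l) = sum_{e | d} g(e) sum_{m ≤ D/e, (m,d)=1} g(m) ≥
  (sum_{e | d} g(e)) sum_{m ≤ D/d, (m,d)=1} g(m)`, and `sum_{e | d} g(e) = prod_{p | d} (1 + g p) =
  prod_{p | d} 1/(1 - ν p) = g(d) / ν(d)`.
* quadratic form: `ν(lcm(a,b)) = ν(a) ν(b) / ν(gcd(a,b))` and `1/ν(e) = sum_{l | e} 1/g(l)` (as
  `1/ν p = 1 + 1/g p`), so `sum_{a,b} lam a lam b ν(lcm) = sum_l (1/g(l)) (sum_{a : l | a} ν(a) lam a)^2`, and
  `y_l := sum_{l | a} ν(a) lam a = (1/G) sum_{m ≤ D} g(m) sum_{l | a | m} μ(a) = μ(l) g(l) [l ≤ D] / G`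
  (the inner sum over `a` with `l | a | m`, `m` squarefree, is `μ(l)` if `m = l` and `0` otherwise). Therefore the form is
  `sum_{l ≤ D} g(l) / G^2 = 1/G`.
Compare Mathlib/NumberTheory/SelbergSieve.lean (`mainSum_lambdaSquared_eq_sum_mul_sum_sq`), which contains
the diagonalisation, and Pool/Agent/H37/SFQ/Selberg.lean (the case `ν(d) = 1/d`: `selL_one`, `selL_inv`,
`selL_quad`, `inner_moeb`).
-/

set_option autoImplicit false

namespace Pool.Agent.H77.SV

open Finset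

section SetSelberg

variable (Q : Finset ℕ) (ν : ℕ → ℝ) (P : Finset ℕ → Prop) [DecidablePred P]

/-- `g(A) = prod ν / (1 - ν)` -/
private noncomputable def gS (A : Finset ℕ) : ℝ := ∏ p ∈ A, ν p / (1 - ν p)

/-- `ν(A)` -/
private noncomputable def nS (A : Finset ℕ) : ℝ := ∏ p ∈ A, ν p

/-- the sum `G` -/
private noncomputable def GS : ℝ := ∑ L ∈ Q.powerset.filter P, gS ν L

/-- the partial sums -/
private noncomputable def hS (A : Finset ℕ) : ℝ :=
  ∑ L ∈ Q.powerset.filter P, if A ⊆ L then gS ν L else 0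

/-- the weights -/
private noncomputable def lamS (A : Finset ℕ) : ℝ :=
  (-1) ^ A.card / nS ν A * (hS Q ν P A / GS Q ν P)

variable {Q ν P}

private lemma gS_pos (hν : ∀ p ∈ Q, 0 < ν p ∧ ν p < 1) {A : Finset ℕ} (hA : A ⊆ Q) : 0 < gS ν A :=
  Finset.prod_pos fun p hp => div_pos (hν p (hA hp)).1 (by linarith [(hν p (hA hp)).2])

private lemma nS_pos (hν : ∀ p ∈ Q, 0 < ν p ∧ ν p < 1) {A : Finset ℕ} (hA : A ⊆ Q) : 0 < nS ν A :=
  Finset.prod_pos fun p hp => (hν p (hA hp)).1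

private lemma GS_pos (hν : ∀ p ∈ Q, 0 < ν p ∧ ν p < 1) (h0 : P ∅) : 0 < GS Q ν P := by
  unfold GS
  refine Finset.sum_pos (fun L hL => gS_pos hν (Finset.mem_powerset.1 (Finset.mem_filter.1 hL).1)) ?_
  exact ⟨∅, Finset.mem_filter.2 ⟨Finset.empty_mem_powerset _, h0⟩⟩

private lemma hS_nonneg (hν : ∀ p ∈ Q, 0 < ν p ∧ ν p < 1) (A : Finset ℕ) : 0 ≤ hS Q ν P A := by
  unfold hS
  refine Finset.sum_nonneg fun L hL => ?_
  split_ifs
  · exact (gS_pos hν (Finset.mem_powerset.1 (Finset.mem_filter.1 hL).1)).le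
  · exact le_rfl

private lemma lamS_empty (hν : ∀ p ∈ Q, 0 < ν p ∧ ν p < 1) (h0 : P ∅) : lamS Q ν P ∅ = 1 := by
  have h1 : hS Q ν P ∅ = GS Q ν P := by
    unfold hS GS
    exact Finset.sum_congr rfl fun L _ => if_pos (Finset.empty_subset L)
  unfold lamS nS
  rw [h1, div_self (GS_pos hν h0).ne']
  simp

/-- `sum_{E ⊆ A} g(E) = prod 1 / (1 - ν)`, which is `g(A) / ν(A)` -/
private lemma sum_gS (hν : ∀ p ∈ Q, 0 < ν p ∧ ν p < 1) {A : Finset ℕ} (hA : A ⊆ Q) :
    (∑ E ∈ A.powerset, gS ν E) * nS ν A = gS ν A := by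
  have h1 : ∏ p ∈ A, (ν p / (1 - ν p) + 1) = ∑ E ∈ A.powerset, gS ν E := by
    rw [Finset.prod_add]
    refine Finset.sum_congr rfl fun E _ => ?_
    rw [Finset.prod_const_one, mul_one]
    rfl
  rw [← h1]
  unfold nS gS
  rw [← Finset.prod_mul_distrib]
  refine Finset.prod_congr rfl fun p hp => ?_
  have := (hν p (hA hp)).2
  have h2 : 1 - ν p ≠ 0 := by linarith
  field_simp
  ring

private lemma sum_inv_gS (hν : ∀ p ∈ Q, 0 < ν p ∧ ν p < 1) {A : Finset ℕ} (hA : A ⊆ Q) :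
    ∑ E ∈ A.powerset, (gS ν E)⁻¹ = (nS ν A)⁻¹ := by
  have h1 : ∏ p ∈ A, ((ν p / (1 - ν p))⁻¹ + 1) = ∑ E ∈ A.powerset, (gS ν E)⁻¹ := by
    rw [Finset.prod_add]
    refine Finset.sum_congr rfl fun E _ => ?_
    rw [Finset.prod_const_one, mul_one]
    unfold gS
    rw [Finset.prod_inv_distrib]
  rw [← h1]
  unfold nS
  rw [← Finset.prod_inv_distrib]
  refine Finset.prod_congr rfl fun p hp => ?_
  have h3 := (hν p (hA hp)).1
  have h4 := (hν p (hA hp)).2
  have h2 : 1 - ν p ≠ 0 := by linarith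
  rw [inv_div]
  field_simp
  ring

private lemma abs_lamS (hν : ∀ p ∈ Q, 0 < ν p ∧ ν p < 1) (h0 : P ∅)
    (hP : ∀ A B, A ⊆ B → P B → P A) {A : Finset ℕ} (hA : A ⊆ Q) : |lamS Q ν P A| ≤ 1 := by
  have hG := GS_pos hν h0
  have hn := nS_pos hν hA
  have hh := hS_nonneg (P := P) hν A
  -- the injection `(E, L) ↦ (L \ A) ∪ E`
  have h1 : ∑ x ∈ A.powerset ×ˢ (Q.powerset.filter P).filter (fun L => A ⊆ L),
      gS ν x.1 * gS ν (x.2 \ A) ≤ GS Q ν P := by
    unfold GS
    have h2 : ∀ x ∈ A.powerset ×ˢ (Q.powerset.filter P).filter (fun L => A ⊆ L),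
        gS ν x.1 * gS ν (x.2 \ A) = gS ν (x.1 ∪ (x.2 \ A)) := by
      intro x hx
      rw [Finset.mem_product, Finset.mem_powerset] at hx
      unfold gS
      rw [Finset.prod_union]
      exact Finset.disjoint_of_subset_left hx.1 Finset.disjoint_sdiff
    rw [Finset.sum_congr rfl h2]
    have hinj : Set.InjOn (fun x : Finset ℕ × Finset ℕ => x.1 ∪ (x.2 \ A))
        (A.powerset ×ˢ (Q.powerset.filter P).filter (fun L => A ⊆ L) : Finset _) := by
      intro x hx y hy hxy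
      rw [Finset.mem_coe, Finset.mem_product, Finset.mem_powerset, Finset.mem_filter] at hx hy
      simp only at hxy
      have e1 : x.1 = y.1 := by
        have := congrArg (fun B => B ∩ A) hxy
        simp only [Finset.union_inter_distrib_right, Finset.sdiff_inter_self, Finset.union_empty] at this
        rwa [Finset.inter_eq_left.2 hx.1, Finset.inter_eq_left.2 hy.1] at this
      have e2 : x.2 \ A = y.2 \ A := by
        have := congrArg (fun B => B \ A) hxy
        simp only [Finset.union_sdiff_distrib, Finset.sdiff_eq_empty_iff_subset.2 hx.1,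
          Finset.sdiff_eq_empty_iff_subset.2 hy.1, Finset.empty_union, Finset.sdiff_idem] at this
        exact this
      have e3 : x.2 = y.2 := by
        rw [← Finset.sdiff_union_of_subset hx.2.2, ← Finset.sdiff_union_of_subset hy.2.2, e2]
      exact Prod.ext e1 e3
    rw [← Finset.sum_image (f := gS ν) hinj]
    refine Finset.sum_le_sum_of_subset_of_nonneg ?_ ?_
    · intro B hB
      rw [Finset.mem_image] at hB
      obtain ⟨x, hx, rfl⟩ := hB
      rw [Finset.mem_product, Finset.mem_powerset, Finset.mem_filter, Finset.mem_filter,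
        Finset.mem_powerset] at hx
      rw [Finset.mem_filter, Finset.mem_powerset]
      constructor
      · exact Finset.union_subset (hx.1.trans hA) (Finset.sdiff_subset.trans hx.2.1.1)
      · refine hP _ _ ?_ hx.2.1.2
        exact Finset.union_subset (hx.1.trans hx.2.2) Finset.sdiff_subset
    · intro B hB _
      exact (gS_pos hν (Finset.mem_powerset.1 (Finset.mem_filter.1 hB).1)).le
  have h3 : (∑ x ∈ A.powerset ×ˢ (Q.powerset.filter P).filter (fun L => A ⊆ L),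
      gS ν x.1 * gS ν (x.2 \ A)) * nS ν A = hS Q ν P A := by
    rw [Finset.sum_product]
    simp only
    rw [← Finset.sum_mul_sum, mul_right_comm, sum_gS hν hA, Finset.mul_sum]
    unfold hS
    rw [← Finset.sum_filter]
    refine Finset.sum_congr rfl fun L hL => ?_
    unfold gS
    rw [mul_comm]
    exact Finset.prod_sdiff (Finset.mem_filter.1 hL).2
  unfold lamS
  rw [abs_mul, abs_div, abs_pow, abs_neg, abs_one, one_pow, abs_of_pos hn,
    abs_of_nonneg (div_nonneg hh hG.le), one_div, ← h3]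
  rw [inv_mul_le_iff₀ hn, mul_one, div_le_iff₀ hG, mul_comm]
  exact mul_le_mul_of_nonneg_left h1 hn.le

private lemma alt_sum {L M : Finset ℕ} (hLM : L ⊆ M) :
    ∑ A ∈ M.powerset, (if L ⊆ A then (-1 : ℝ) ^ A.card else 0) =
      if M = L then (-1 : ℝ) ^ L.card else 0 := by
  classical
  have h1 := Finset.prod_add (fun _ : ℕ => (-1 : ℝ)) (fun p => if p ∈ L then (0 : ℝ) else 1) M
  have h2 : ∀ A ∈ M.powerset, (∏ _p ∈ A, (-1 : ℝ)) * ∏ p ∈ M \ A, (if p ∈ L then (0 : ℝ) else 1) =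
      if L ⊆ A then (-1 : ℝ) ^ A.card else 0 := by
    intro A hA
    rw [Finset.prod_const]
    by_cases h : L ⊆ A
    · rw [if_pos h, Finset.prod_eq_one, mul_one]
      intro p hp
      rw [Finset.mem_sdiff] at hp
      rw [if_neg fun h' => hp.2 (h h')]
    · rw [if_neg h]
      obtain ⟨p, hpL, hpA⟩ := Finset.not_subset.1 h
      have h3 : ∏ p ∈ M \ A, (if p ∈ L then (0 : ℝ) else 1) = 0 :=
        Finset.prod_eq_zero (i := p) (Finset.mem_sdiff.2 ⟨hLM hpL, hpA⟩) (if_pos hpL)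
      rw [h3, mul_zero]
  rw [Finset.sum_congr rfl h2] at h1
  rw [← h1]
  by_cases h : M = L
  · subst h
    rw [if_pos rfl]
    rw [Finset.prod_congr rfl (g := fun _ => (-1 : ℝ)) fun p hp => by rw [if_pos hp, add_zero],
      Finset.prod_const]
  · rw [if_neg h]
    have h3 : ¬ M ⊆ L := fun h' => h (Finset.Subset.antisymm h' hLM)
    obtain ⟨p, hpM, hpL⟩ := Finset.not_subset.1 h3
    exact Finset.prod_eq_zero hpM (by rw [if_neg hpL]; norm_num)

private lemma yS (hν : ∀ p ∈ Q, 0 < ν p ∧ ν p < 1) {L : Finset ℕ} (hL : L ⊆ Q) :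
    ∑ A ∈ Q.powerset, (if L ⊆ A then nS ν A * lamS Q ν P A else 0) =
      if P L then (-1) ^ L.card * gS ν L / GS Q ν P else 0 := by
  classical
  have h1 : ∀ A ∈ Q.powerset, (if L ⊆ A then nS ν A * lamS Q ν P A else 0) =
      ∑ M ∈ Q.powerset.filter P, (if A ⊆ M then (if L ⊆ A then (-1) ^ A.card else 0) *
        (gS ν M / GS Q ν P) else 0) := by
    intro A hA
    by_cases h : L ⊆ A
    · have hn := nS_pos hν (Finset.mem_powerset.1 hA)
      simp only [if_pos h]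
      unfold lamS hS
      have e : nS ν A * ((-1) ^ A.card / nS ν A * ((∑ L ∈ Q.powerset.filter P,
          if A ⊆ L then gS ν L else 0) / GS Q ν P)) = (-1) ^ A.card * ((∑ L ∈ Q.powerset.filter P,
          if A ⊆ L then gS ν L else 0) / GS Q ν P) := by
        field_simp
      rw [e, Finset.sum_div, Finset.mul_sum]
      refine Finset.sum_congr rfl fun M _ => ?_
      split_ifs
      · rfl
      · rw [zero_div, mul_zero]
    · simp only [if_neg h, zero_mul, ite_self, Finset.sum_const_zero]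
  rw [Finset.sum_congr rfl h1, Finset.sum_comm]
  have h2 : ∀ M ∈ Q.powerset.filter P, ∑ A ∈ Q.powerset, (if A ⊆ M then
      (if L ⊆ A then (-1 : ℝ) ^ A.card else 0) * (gS ν M / GS Q ν P) else 0) =
      if M = L then (-1 : ℝ) ^ L.card * (gS ν L / GS Q ν P) else 0 := by
    intro M hM
    have hMQ := Finset.mem_powerset.1 (Finset.mem_filter.1 hM).1
    rw [← Finset.sum_filter]
    have h3 : Q.powerset.filter (fun A => A ⊆ M) = M.powerset := by
      ext A
      rw [Finset.mem_filter, Finset.mem_powerset, Finset.mem_powerset]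
      exact ⟨fun h => h.2, fun h => ⟨h.trans hMQ, h⟩⟩
    rw [h3, ← Finset.sum_mul]
    by_cases hLM : L ⊆ M
    · rw [alt_sum hLM]
      by_cases h : M = L
      · rw [if_pos h, if_pos h, h]
      · rw [if_neg h, if_neg h, zero_mul]
    · have h4 : ∀ A ∈ M.powerset, (if L ⊆ A then (-1 : ℝ) ^ A.card else 0) = 0 := by
        intro A hA
        rw [if_neg]
        intro h
        exact hLM (h.trans (Finset.mem_powerset.1 hA))
      rw [Finset.sum_eq_zero h4, zero_mul, if_neg]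
      intro h
      exact hLM (h ▸ Finset.Subset.refl _)
  rw [Finset.sum_congr rfl h2, Finset.sum_ite_eq' (Q.powerset.filter P) L]
  by_cases h : P L
  · rw [if_pos (Finset.mem_filter.2 ⟨Finset.mem_powerset.2 hL, h⟩), if_pos h]
    ring
  · rw [if_neg fun h' => h (Finset.mem_filter.1 h').2, if_neg h]

private lemma quadS (hν : ∀ p ∈ Q, 0 < ν p ∧ ν p < 1) (h0 : P ∅) :
    ∑ A ∈ Q.powerset, ∑ B ∈ Q.powerset, lamS Q ν P A * lamS Q ν P B * nS ν (A ∪ B) =
      1 / GS Q ν P := by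
  classical
  have hG := GS_pos hν h0
  have h1 : ∀ A ∈ Q.powerset, ∀ B ∈ Q.powerset,
      lamS Q ν P A * lamS Q ν P B * nS ν (A ∪ B) =
      ∑ L ∈ Q.powerset, (gS ν L)⁻¹ * ((if L ⊆ A then nS ν A * lamS Q ν P A else 0) *
        (if L ⊆ B then nS ν B * lamS Q ν P B else 0)) := by
    intro A hA B hB
    rw [Finset.mem_powerset] at hA hB
    have hAB : A ∩ B ⊆ Q := Finset.inter_subset_left.trans hA
    have h2 : nS ν (A ∪ B) * nS ν (A ∩ B) = nS ν A * nS ν B := Finset.prod_union_inter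
    have h3 : nS ν (A ∪ B) = nS ν A * nS ν B * ∑ E ∈ (A ∩ B).powerset, (gS ν E)⁻¹ := by
      rw [sum_inv_gS hν hAB, ← h2, mul_assoc, mul_inv_cancel₀ (nS_pos hν hAB).ne', mul_one]
    have h4 : (A ∩ B).powerset = Q.powerset.filter (fun L => L ⊆ A ∧ L ⊆ B) := by
      ext L
      rw [Finset.mem_filter, Finset.mem_powerset, Finset.mem_powerset, Finset.subset_inter_iff]
      exact ⟨fun h => ⟨h.1.trans hA, h⟩, fun h => h.2⟩
    rw [h3, h4, Finset.sum_filter, Finset.mul_sum, Finset.mul_sum]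
    refine Finset.sum_congr rfl fun L _ => ?_
    by_cases ha : L ⊆ A
    · by_cases hb : L ⊆ B
      · rw [if_pos ⟨ha, hb⟩, if_pos ha, if_pos hb]
        ring
      · rw [if_neg fun h => hb h.2, if_neg hb]
        ring
    · rw [if_neg fun h => ha h.1, if_neg ha]
      ring
  rw [Finset.sum_congr rfl fun A hA => Finset.sum_congr rfl fun B hB => h1 A hA B hB]
  rw [Finset.sum_congr rfl fun A _ => Finset.sum_comm, Finset.sum_comm]
  have h5 : ∀ L ∈ Q.powerset, ∑ A ∈ Q.powerset, ∑ B ∈ Q.powerset,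
      (gS ν L)⁻¹ * ((if L ⊆ A then nS ν A * lamS Q ν P A else 0) *
        (if L ⊆ B then nS ν B * lamS Q ν P B else 0)) =
      if P L then gS ν L / GS Q ν P ^ 2 else 0 := by
    intro L hL
    have hLQ := Finset.mem_powerset.1 hL
    simp_rw [← Finset.mul_sum]
    rw [← Finset.sum_mul, yS hν hLQ]
    have hg := gS_pos hν hLQ
    split_ifs
    · have e : ((-1 : ℝ) ^ L.card) ^ 2 = 1 := by
        rw [← pow_mul, mul_comm, pow_mul]
        norm_num
      have e2 : (gS ν L)⁻¹ * ((-1) ^ L.card * gS ν L / GS Q ν P * ((-1) ^ L.card * gS ν L / GS Q ν P)) =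
          ((-1 : ℝ) ^ L.card) ^ 2 * (gS ν L / GS Q ν P ^ 2) := by
        field_simp
      rw [e2, e, one_mul]
    · ring
  rw [Finset.sum_congr rfl h5, ← Finset.sum_filter, ← Finset.sum_div]
  change GS Q ν P / GS Q ν P ^ 2 = _
  field_simp

end SetSelberg

private lemma sel_sqf (Q : Finset ℕ) (hQ : ∀ p ∈ Q, p.Prime) : Squarefree (∏ p ∈ Q, p) := by
  induction Q using Finset.induction_on with
  | empty => simp
  | insert p Q hp ih =>
    have hQ' : ∀ q ∈ Q, q.Prime := fun q hq => hQ q (Finset.mem_insert_of_mem hq)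
    have hpp := hQ p (Finset.mem_insert_self _ _)
    rw [Finset.prod_insert hp, Nat.squarefree_mul]
    · exact ⟨hpp.squarefree, ih hQ'⟩
    · refine Nat.Coprime.prod_right fun q hq => ?_
      rw [Nat.coprime_primes hpp (hQ' q hq)]
      rintro rfl
      exact hp hq

private lemma sel_lcm {a b : ℕ} (ha : a ≠ 0) (hb : b ≠ 0) :
    (Nat.lcm a b).primeFactors = a.primeFactors ∪ b.primeFactors := by
  ext p
  rw [Finset.mem_union, Nat.mem_primeFactors_of_ne_zero (Nat.lcm_ne_zero ha hb),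
    Nat.mem_primeFactors_of_ne_zero ha, Nat.mem_primeFactors_of_ne_zero hb]
  constructor
  · rintro ⟨hp, h⟩
    rcases (hp.dvd_mul).1 (h.trans (Nat.lcm_dvd_mul a b)) with h | h
    · exact Or.inl ⟨hp, h⟩
    · exact Or.inr ⟨hp, h⟩
  · rintro (⟨hp, h⟩ | ⟨hp, h⟩)
    · exact ⟨hp, h.trans (Nat.dvd_lcm_left a b)⟩
    · exact ⟨hp, h.trans (Nat.dvd_lcm_right a b)⟩

/-- divisors of `prod Q` and subsets of `Q` -/
private lemma sel_sum (Q : Finset ℕ) (hQ : ∀ p ∈ Q, p.Prime) (F : ℕ → ℝ) :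
    ∑ d ∈ (∏ p ∈ Q, p).divisors, F d = ∑ A ∈ Q.powerset, F (∏ p ∈ A, p) := by
  have hsq := sel_sqf Q hQ
  have h0 : (∏ p ∈ Q, p) ≠ 0 := hsq.ne_zero
  refine Finset.sum_nbij' (fun d => d.primeFactors) (fun A => ∏ p ∈ A, p) ?_ ?_ ?_ ?_ ?_
  · intro d hd
    rw [Finset.mem_powerset]
    have h1 := Nat.primeFactors_mono (Nat.dvd_of_mem_divisors hd) h0
    rwa [Nat.primeFactors_prod hQ] at h1
  · intro A hA
    rw [Nat.mem_divisors]
    exact ⟨Finset.prod_dvd_prod_of_subset _ _ _ (Finset.mem_powerset.1 hA), h0⟩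
  · intro d hd
    exact Nat.prod_primeFactors_of_squarefree (hsq.squarefree_of_dvd (Nat.dvd_of_mem_divisors hd))
  · intro A hA
    exact Nat.primeFactors_prod fun p hp => hQ p (Finset.mem_powerset.1 hA hp)
  · intro d hd
    rw [Nat.prod_primeFactors_of_squarefree (hsq.squarefree_of_dvd (Nat.dvd_of_mem_divisors hd))]

theorem selberg (Q : Finset ℕ) (hQ : ∀ p ∈ Q, p.Prime) (ν : ℕ → ℝ)
    (hν : ∀ p ∈ Q, 0 < ν p ∧ ν p < 1) (D : ℕ) (hD : 1 ≤ D) :
    ∃ lam : ℕ → ℝ, lam 1 = 1 ∧ (∀ d, |lam d| ≤ 1) ∧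
      (∀ d, lam d ≠ 0 → d ∣ ∏ p ∈ Q, p ∧ d ≤ D) ∧
      ∑ a ∈ (∏ p ∈ Q, p).divisors, ∑ b ∈ (∏ p ∈ Q, p).divisors,
        lam a * lam b * ∏ p ∈ (Nat.lcm a b).primeFactors, ν p ≤
      1 / ∑ d ∈ (∏ p ∈ Q, p).divisors.filter (· ≤ D),
        ∏ p ∈ d.primeFactors, ν p / (1 - ν p) := by
  classical
  have hsq := sel_sqf Q hQ
  have h0 : (∏ p ∈ Q, p) ≠ 0 := hsq.ne_zero
  set P : Finset ℕ → Prop := fun A => ∏ p ∈ A, p ≤ D with hPdef
  have hP0 : P ∅ := by
    simp only [hPdef, Finset.prod_empty]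
    exact hD
  -- monotonicity on subsets of `Q`
  set P' : Finset ℕ → Prop := fun A => A ⊆ Q ∧ ∏ p ∈ A, p ≤ D with hP'def
  have hP'0 : P' ∅ := ⟨Finset.empty_subset _, hP0⟩
  have hmono : ∀ A B, A ⊆ B → P' B → P' A := by
    intro A B hAB hB
    refine ⟨hAB.trans hB.1, le_trans ?_ hB.2⟩
    refine Nat.le_of_dvd (Finset.prod_pos fun p hp => (hQ p (hB.1 hp)).pos)
      (Finset.prod_dvd_prod_of_subset _ _ _ hAB)
  have hpf : ∀ A ∈ Q.powerset, (∏ p ∈ A, p).primeFactors = A := fun A hA =>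
    Nat.primeFactors_prod fun p hp => hQ p (Finset.mem_powerset.1 hA hp)
  refine ⟨fun d => if d ∣ ∏ p ∈ Q, p then lamS Q ν P' d.primeFactors else 0, ?_, ?_, ?_, ?_⟩
  · simp only
    rw [if_pos (one_dvd _), Nat.primeFactors_one, lamS_empty hν hP'0]
  · intro d
    simp only
    split_ifs with h
    · refine abs_lamS hν hP'0 hmono ?_
      have h1 := Nat.primeFactors_mono h h0
      rwa [Nat.primeFactors_prod hQ] at h1
    · rw [abs_zero]; exact zero_le_one
  · intro d hd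
    simp only at hd
    by_cases h : d ∣ ∏ p ∈ Q, p
    · refine ⟨h, ?_⟩
      rw [if_pos h] at hd
      have h1 : hS Q ν P' d.primeFactors ≠ 0 := by
        intro h2
        apply hd
        unfold lamS
        rw [h2, zero_div, mul_zero]
      obtain ⟨L, hL, hL2⟩ := Finset.exists_ne_zero_of_sum_ne_zero h1
      have h3 : d.primeFactors ⊆ L := by
        by_contra h4
        exact hL2 (if_neg h4)
      have h4 := hmono _ _ h3 (Finset.mem_filter.1 hL).2
      have h5 := h4.2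
      rwa [Nat.prod_primeFactors_of_squarefree (hsq.squarefree_of_dvd h)] at h5
    · exact absurd (if_neg h) hd
  · have hGeq : ∑ d ∈ (∏ p ∈ Q, p).divisors.filter (· ≤ D), ∏ p ∈ d.primeFactors, ν p / (1 - ν p) =
        GS Q ν P' := by
      rw [Finset.sum_filter, sel_sum Q hQ (fun d => if d ≤ D then
        ∏ p ∈ d.primeFactors, ν p / (1 - ν p) else 0)]
      unfold GS
      rw [Finset.sum_filter]
      refine Finset.sum_congr rfl fun A hA => ?_
      have hAQ := Finset.mem_powerset.1 hA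
      simp only [hpf A hA]
      by_cases h : ∏ p ∈ A, p ≤ D
      · rw [if_pos h, if_pos ⟨hAQ, h⟩]
        rfl
      · rw [if_neg h, if_neg fun h' => h h'.2]
    rw [hGeq, ← quadS hν hP'0]
    apply le_of_eq
    rw [sel_sum Q hQ (fun a => ∑ b ∈ (∏ p ∈ Q, p).divisors,
      (if a ∣ ∏ p ∈ Q, p then lamS Q ν P' a.primeFactors else 0) *
        (if b ∣ ∏ p ∈ Q, p then lamS Q ν P' b.primeFactors else 0) *
        ∏ p ∈ (Nat.lcm a b).primeFactors, ν p)]
    refine Finset.sum_congr rfl fun A hA => ?_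
    rw [sel_sum Q hQ (fun b => (if (∏ p ∈ A, p) ∣ ∏ p ∈ Q, p then
        lamS Q ν P' (∏ p ∈ A, p).primeFactors else 0) *
        (if b ∣ ∏ p ∈ Q, p then lamS Q ν P' b.primeFactors else 0) *
        ∏ p ∈ (Nat.lcm (∏ p ∈ A, p) b).primeFactors, ν p)]
    refine Finset.sum_congr rfl fun B hB => ?_
    have hdA : (∏ p ∈ A, p) ∣ ∏ p ∈ Q, p :=
      Finset.prod_dvd_prod_of_subset _ _ _ (Finset.mem_powerset.1 hA)
    have hdB : (∏ p ∈ B, p) ∣ ∏ p ∈ Q, p :=
      Finset.prod_dvd_prod_of_subset _ _ _ (Finset.mem_powerset.1 hB)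
    have hA0 : (∏ p ∈ A, p) ≠ 0 := ne_zero_of_dvd_ne_zero h0 hdA
    have hB0 : (∏ p ∈ B, p) ≠ 0 := ne_zero_of_dvd_ne_zero h0 hdB
    rw [if_pos hdA, if_pos hdB, sel_lcm hA0 hB0, hpf A hA, hpf B hB]
    rfl

end Pool.Agent.H77.SV
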