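import Pool.Agent.H77.SV.SqCl

/-!
# Module Lc (about 220 lines): the bit `lb p x` of the unit part of a rational number.

`bt p a = 1` iff `jacobiSym a p = -1`, `up p N = N / p^(v_p N)`, `lb p x = bt p (up p (x.num * x.den))`.
PROOFS. `bt_mul`: `jacobiSym.mul_left`, both symbols are `1` or `-1` (`jacobiSym.eq_one_or_neg_one`,
coprime). `bt_congr`: `jacobiSym.mod_left`.
`up`: for `N ≠ 0`: `N = p^v * up p N` and `p ∤ up p N` (`padicValInt` API: `padicValInt_dvd`,
`padicValInt_dvd_iff`); `up p (M N) = up p M * up p N` for `M, N ≠ 0`.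
`lb_intCast`: for an integer `N`: `(N : ℚ).num = N`, `.den = 1`.
`lb_mul`: for integers `M, N ≠ 0`: `bt p (up p (M N)) = bt p (up p M) + bt p (up p N)`, and
`bt p (up p (g^2 M)) = bt p (up p M)` for `g ≠ 0` (`t + t = 0` in `ZMod 2`). For rationals:
`(x y).num * (x y).den * (x.den * y.den)^2 = (x.num x.den) (y.num y.den) * (x y).den^2` (both sides
equal `x y (xy).den^2 (x.den y.den)^2`), so the two integers have the same bit.
`lb_close`: if `x = y` trivial. Otherwise `v(x) < v(x - y)`; then `v(y) = v(x)`. `lb p x + lb p y =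
lb p (x y) = lb p (x/y) = lb p (y/x)` and `t = y / x = 1 - (x-y)/x = 1 + s`, `v(s) > 0`
(or `s = 0`). `t = a/b` lowest terms, `v(t) = 0` so `p ∤ a, b` (at most one of them is divisible by
`p`), and `v((a-b)/b) > 0` gives `p | a - b`, so `a b ≡ a^2 (mod p)`, bit `0`.
`lb_self`: `p = p^1 * 1`. `lb_of_isSquare`: `x y` is a square, `lb (z z) = 0`.
-/

set_option autoImplicit false

namespace Pool.Agent.H77.SV

private lemma lc_pm {p : ℕ} (hp : p.Prime) {a : ℤ} (ha : ¬ (p : ℤ) ∣ a) :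
    jacobiSym a p = 1 ∨ jacobiSym a p = -1 := by
  apply jacobiSym.eq_one_or_neg_one
  have h1 : ¬ p ∣ a.natAbs := fun h => ha (Int.natCast_dvd.2 h)
  have h2 : Nat.Coprime p a.natAbs := (Nat.Prime.coprime_iff_not_dvd hp).2 h1
  rw [Int.gcd_comm]
  simpa [Int.gcd] using h2

private lemma lc_two (t : ZMod 2) : t + t = 0 := CharTwo.add_self_eq_zero t

theorem bt_mul {p : ℕ} (hp : p.Prime) {a b : ℤ} (ha : ¬ (p : ℤ) ∣ a) (hb : ¬ (p : ℤ) ∣ b) :
    bt p (a * b) = bt p a + bt p b := by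
  unfold bt
  rw [jacobiSym.mul_left]
  rcases lc_pm hp ha with h1 | h1 <;> rcases lc_pm hp hb with h2 | h2 <;> rw [h1, h2] <;> rfl

theorem bt_congr {p : ℕ} {a b : ℤ} (h : a ≡ b [ZMOD p]) : bt p a = bt p b := by
  unfold bt
  rw [jacobiSym.mod_left' h]

theorem bt_one (p : ℕ) : bt p 1 = 0 := by
  unfold bt
  rw [jacobiSym.one_left]
  rfl

/-- `(-1)^(bit)` is the Jacobi symbol -/
theorem sg_bt {p : ℕ} (hp : p.Prime) {a : ℤ} (ha : ¬ (p : ℤ) ∣ a) :
    sg (bt p a) = ((jacobiSym a p : ℤ) : ℝ) := by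
  unfold bt sg
  rcases lc_pm hp ha with h1 | h1 <;> rw [h1] <;> simp

theorem up_spec {p : ℕ} (hp : p.Prime) {N : ℤ} (hN : N ≠ 0) :
    N = (p : ℤ) ^ padicValInt p N * up p N ∧ ¬ (p : ℤ) ∣ up p N := by
  have : Fact p.Prime := ⟨hp⟩
  have h1 : (p : ℤ) ^ padicValInt p N ∣ N := padicValInt_dvd N
  have h2 : N = (p : ℤ) ^ padicValInt p N * up p N := (Int.mul_ediv_cancel' h1).symm
  refine ⟨h2, fun h3 => ?_⟩
  have h4 : (p : ℤ) ^ (padicValInt p N + 1) ∣ N := by
    obtain ⟨c, hc⟩ := h3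
    refine ⟨c, ?_⟩
    calc N = (p : ℤ) ^ padicValInt p N * up p N := h2
      _ = (p : ℤ) ^ padicValInt p N * ((p : ℤ) * c) := by rw [hc]
      _ = (p : ℤ) ^ (padicValInt p N + 1) * c := by ring
  rcases (padicValInt_dvd_iff _ _).1 h4 with h5 | h5
  · exact hN h5
  · omega

private lemma lc_up_eq {p : ℕ} (hp : p.Prime) {N u : ℤ} {v : ℕ} (hu : ¬ (p : ℤ) ∣ u)
    (h : N = (p : ℤ) ^ v * u) : up p N = u := by
  have : Fact p.Prime := ⟨hp⟩
  have hpz : (p : ℤ) ≠ 0 := by exact_mod_cast hp.ne_zero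
  have hu0 : u ≠ 0 := fun h0 => hu (h0 ▸ dvd_zero _)
  have hv : padicValInt p N = v := by
    rw [h, padicValInt.mul (pow_ne_zero _ hpz) hu0, padicValInt.eq_zero_of_not_dvd hu, add_zero]
    have h1 : ((p : ℤ) ^ v) = ((p ^ v : ℕ) : ℤ) := by push_cast; rfl
    rw [h1, padicValInt.of_nat]
    exact padicValNat.prime_pow v
  unfold up
  rw [hv, h]
  exact Int.mul_ediv_cancel_left _ (pow_ne_zero _ hpz)

private lemma lc_prime {p : ℕ} (hp : p.Prime) : Prime (p : ℤ) := Nat.prime_iff_prime_int.1 hp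

private lemma lc_up_mul {p : ℕ} (hp : p.Prime) {M N : ℤ} (hM : M ≠ 0) (hN : N ≠ 0) :
    up p (M * N) = up p M * up p N := by
  obtain ⟨h1, h2⟩ := up_spec hp hM
  obtain ⟨h3, h4⟩ := up_spec hp hN
  refine lc_up_eq hp (v := padicValInt p M + padicValInt p N) ?_ ?_
  · intro h
    rcases (lc_prime hp).dvd_or_dvd h with h5 | h5
    · exact h2 h5
    · exact h4 h5
  · calc M * N = ((p : ℤ) ^ padicValInt p M * up p M) * ((p : ℤ) ^ padicValInt p N * up p N) := by
          rw [← h1, ← h3]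
      _ = _ := by ring

private lemma lc_U_mul {p : ℕ} (hp : p.Prime) {M N : ℤ} (hM : M ≠ 0) (hN : N ≠ 0) :
    bt p (up p (M * N)) = bt p (up p M) + bt p (up p N) := by
  rw [lc_up_mul hp hM hN]
  exact bt_mul hp (up_spec hp hM).2 (up_spec hp hN).2

private lemma lc_U_sq {p : ℕ} (hp : p.Prime) {M g : ℤ} (hM : M ≠ 0) (hg : g ≠ 0) :
    bt p (up p (M * g ^ 2)) = bt p (up p M) := by
  rw [lc_U_mul hp hM (pow_ne_zero 2 hg), sq, lc_U_mul hp hg hg, lc_two, add_zero]

theorem lb_intCast {p : ℕ} (N : ℤ) : lb p (N : ℚ) = bt p (up p N) := by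
  unfold lb
  rw [Rat.num_intCast, Rat.den_intCast]
  simp

theorem lb_int {p : ℕ} (hp : p.Prime) {N : ℤ} (hN : ¬ (p : ℤ) ∣ N) :
    lb p (N : ℚ) = bt p N := by
  rw [lb_intCast]
  have h : up p N = N := by
    refine lc_up_eq hp (v := 0) hN ?_
    simp
  rw [h]

theorem vb_int {p : ℕ} (hp : p.Prime) {N : ℤ} (hN : ¬ (p : ℤ) ∣ N) : vb p (N : ℚ) = 0 := by
  unfold vb
  rw [padicValRat.of_int, padicValInt.eq_zero_of_not_dvd hN]
  simp

theorem lb_mul {p : ℕ} (hp : p.Prime) {x y : ℚ} (hx : x ≠ 0) (hy : y ≠ 0) :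
    lb p (x * y) = lb p x + lb p y := by
  have key : ∀ z : ℚ, ((z.num * z.den : ℤ) : ℚ) = z * (z.den : ℚ) ^ 2 := by
    intro z
    have h := Rat.mul_den_eq_num z
    push_cast
    rw [← h]
    ring
  have hne : ∀ z : ℚ, z ≠ 0 → (z.num * z.den : ℤ) ≠ 0 := by
    intro z hz
    have h2 : (z.den : ℤ) ≠ 0 := by exact_mod_cast z.den_nz
    exact mul_ne_zero (Rat.num_ne_zero.2 hz) h2
  have hxy : x * y ≠ 0 := mul_ne_zero hx hy
  have hd : ((x.den : ℤ) * y.den) ≠ 0 := by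
    have h2 : (x.den : ℤ) ≠ 0 := by exact_mod_cast x.den_nz
    have h3 : (y.den : ℤ) ≠ 0 := by exact_mod_cast y.den_nz
    exact mul_ne_zero h2 h3
  have hz : (((x * y).den : ℕ) : ℤ) ≠ 0 := by exact_mod_cast (x * y).den_nz
  have hrel : ((x * y).num * (x * y).den : ℤ) * ((x.den : ℤ) * y.den) ^ 2
      = ((x.num * x.den : ℤ) * (y.num * y.den : ℤ)) * (((x * y).den : ℕ) : ℤ) ^ 2 := by
    have h : ((((x * y).num * (x * y).den : ℤ) * ((x.den : ℤ) * y.den) ^ 2 : ℤ) : ℚ)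
        = ((((x.num * x.den : ℤ) * (y.num * y.den : ℤ)) * (((x * y).den : ℕ) : ℤ) ^ 2 : ℤ) : ℚ) := by
      have k1 := key x
      have k2 := key y
      have k3 := key (x * y)
      push_cast at k1 k2 k3 ⊢
      rw [k1, k2, k3]
      ring
    exact_mod_cast h
  unfold lb
  rw [← lc_U_sq hp (hne _ hxy) hd, hrel,
    lc_U_sq hp (mul_ne_zero (hne _ hx) (hne _ hy)) hz, lc_U_mul hp (hne _ hx) (hne _ hy)]

theorem lb_self {p : ℕ} (hp : p.Prime) : lb p (p : ℚ) = 0 := by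
  have h0 : ((p : ℕ) : ℚ) = ((p : ℤ) : ℚ) := by push_cast; rfl
  rw [h0, lb_intCast]
  have h : up p (p : ℤ) = 1 := by
    refine lc_up_eq hp (v := 1) ?_ (by simp)
    intro h1
    exact (lc_prime hp).not_isUnit (isUnit_of_dvd_one h1)
  rw [h, bt_one]

theorem lb_of_isSquare {p : ℕ} (hp : p.Prime) {x y : ℚ} (hx : x ≠ 0) (hy : y ≠ 0)
    (h : IsSquare (x * y)) : lb p x = lb p y := by
  obtain ⟨z, hz⟩ := h
  have hz0 : z ≠ 0 := by
    intro h0
    rw [h0, mul_zero] at hz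
    exact mul_ne_zero hx hy hz
  have h1 := lb_mul hp hx hy
  rw [hz, lb_mul hp hz0 hz0, lc_two] at h1
  have h2 : lb p x + lb p y + lb p y = 0 + lb p y := by rw [← h1]
  rw [add_assoc, lc_two, add_zero, zero_add] at h2
  exact h2

/-- `p`-adically close numbers have the same class -/
theorem lb_close {p : ℕ} (hp : p.Prime) {x y : ℚ} (hx : x ≠ 0) (hy : y ≠ 0)
    (h : x = y ∨ padicValRat p x < padicValRat p (x - y)) :
    vb p x = vb p y ∧ lb p x = lb p y := by
  have : Fact p.Prime := ⟨hp⟩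
  by_cases hxy : x = y
  · rw [hxy]
    exact ⟨rfl, rfl⟩
  have hlt : padicValRat p x < padicValRat p (x - y) := by
    rcases h with h | h
    · exact absurd h hxy
    · exact h
  have hsub : x - y ≠ 0 := sub_ne_zero.2 hxy
  set t : ℚ := y / x with ht
  have ht0 : t ≠ 0 := div_ne_zero hy hx
  have hyt : y = x * t := by rw [ht]; field_simp
  have hden : (t.den : ℤ) ≠ 0 := by exact_mod_cast t.den_nz
  have hdenq : (t.den : ℚ) ≠ 0 := by exact_mod_cast t.den_nz
  have hnum := Rat.mul_den_eq_num t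
  -- valuation of num - den
  have hab : ((t.den - t.num : ℤ) : ℚ) = (x - y) / x * t.den := by
    push_cast
    rw [← hnum, ht]
    field_simp
  have hab0 : ((t.den - t.num : ℤ) : ℚ) ≠ 0 := by
    rw [hab]
    exact mul_ne_zero (div_ne_zero hsub hx) hdenq
  have hval : 0 < padicValRat p ((t.den - t.num : ℤ) : ℚ) := by
    rw [hab, padicValRat.mul (div_ne_zero hsub hx) hdenq, padicValRat.div hsub hx,
      padicValRat.of_nat]
    have : (0 : ℤ) ≤ (padicValNat p t.den : ℤ) := Int.natCast_nonneg _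
    linarith
  have hdvd : (p : ℤ) ∣ ((t.den : ℤ) - t.num) := by
    rw [padicValRat.of_int] at hval
    have h1 : 1 ≤ padicValInt p ((t.den : ℤ) - t.num) := by exact_mod_cast hval
    have h2 := (padicValInt_dvd_iff 1 ((t.den : ℤ) - t.num)).2 (Or.inr h1)
    rwa [pow_one] at h2
  have hcop : IsCoprime t.num (t.den : ℤ) := by
    rw [Int.isCoprime_iff_gcd_eq_one]
    exact t.reduced
  have hdn : ¬ (p : ℤ) ∣ (t.den : ℤ) := by
    intro h1
    have h2 : (p : ℤ) ∣ t.num := by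
      have := dvd_sub h1 hdvd
      simpa using this
    exact (lc_prime hp).not_isUnit (hcop.isUnit_of_dvd' h2 h1)
  have hnn : ¬ (p : ℤ) ∣ t.num := by
    intro h1
    exact hdn (by simpa using dvd_add hdvd h1)
  have hvt : vb p t = 0 := by
    have h1 : (t : ℚ) = ((t.num : ℤ) : ℚ) / ((t.den : ℤ) : ℚ) := by
      rw [← hnum]
      push_cast
      field_simp
    have h2 : ((t.num : ℤ) : ℚ) ≠ 0 := by exact_mod_cast Rat.num_ne_zero.2 ht0
    have h3 : ((t.den : ℤ) : ℚ) ≠ 0 := by exact_mod_cast t.den_nz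
    unfold vb
    rw [h1, padicValRat.div h2 h3, padicValRat.of_int, padicValRat.of_int,
      padicValInt.eq_zero_of_not_dvd hdn, padicValInt.eq_zero_of_not_dvd hnn]
    simp
  have hlt2 : lb p t = 0 := by
    have h1 : ¬ (p : ℤ) ∣ t.num * t.den := by
      intro h2
      rcases (lc_prime hp).dvd_or_dvd h2 with h3 | h3
      · exact hnn h3
      · exact hdn h3
    have h2 : up p (t.num * t.den) = t.num * t.den := lc_up_eq hp (v := 0) h1 (by simp)
    unfold lb
    rw [h2, bt_mul hp hnn hdn]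
    have h3 : bt p t.num = bt p (t.den : ℤ) := bt_congr (Int.modEq_iff_dvd.2 hdvd)
    rw [h3, lc_two]
  constructor
  · rw [hyt, vb_mul hp hx ht0, hvt, add_zero]
  · rw [hyt, lb_mul hp hx ht0, hlt2, add_zero]

end Pool.Agent.H77.SV
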