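import Pool.Agent.H77.SV.Defs

/-!
# Module Kap (about 180 lines): the descent map is a homomorphism modulo squares.

`W` is `y^2 = (x - e) (x - e') (x - e'')` (`Roots W e e' e''`), `kap e e' e'' (x, y) = x - e`
(`(e - e') (e - e'')` at `(e, 0)`, `1` at `0`).
PROOF of `kap_add`. Cases as in the addition law. Let `f(x) = (x-e)(x-e')(x-e'')`.
If `P = 0` or `Q = 0` the product is `kap Q ^ 2` etc. If `Q = -P`: `kap (-P) = kap P`.
Otherwise `P = (x₁, y₁)`, `Q = (x₂, y₂)`, `P + Q = (x₃, ..)`, with the slope `λ` of Mathlib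
(`W.slope x₁ x₂ y₁ y₂`) and `ν = y₁ - λ x₁`: the polynomial identity
`(X - x₁)(X - x₂)(X - x₃) = f(X) - (λ X + ν)^2` holds (for `x₁ ≠ x₂` it is a cubic
identity which one checks from `y_i = λ x_i + ν`, `f(x_i) = y_i^2`, `x₃ = λ^2 + e + e' + e'' - x₁ - x₂`;
for the doubling `x₁ = x₂`, `y₁ = y₂ ≠ 0` from `λ = f'(x₁) / (2 y₁)`; see
`WeierstrassCurve.Affine.C_addPolynomial_slope` / `addPolynomial_slope` in Mathlib, which is exactly this
factorisation). At `X = e`: `(x₁-e)(x₂-e)(x₃-e) = (λ e + ν)^2`.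
 - no `x_i = e`: done.
 - exactly one `x_i = e`, say `x₁ = e` (then `λ e + ν = 0`, `λ X + ν = λ (X - e)`): divide by `X - e`:
   `(X - x₂)(X - x₃) = (X - e')(X - e'') - λ^2 (X - e)`, at `X = e`:
   `(x₂ - e)(x₃ - e) = (e-e')(e-e'') = kap P`. So the product of the three values is a square.
   If `x₃ = e`: `kap (P+Q) = (e-e')(e-e'') = (x₁-e)(x₂-e)`.
 - two of them equal to `e`: `x₁ = x₂ = e` is `Q = -P` (excluded); `x₁ = x₃ = e`: then
   `(x₂ - e) * 0 = (e - e')(e - e'') ≠ 0` by the identity of the previous case, impossible.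
PROOF of `kap_prod`: for `P = (x,y)`, `y ≠ 0`: the product is `f(x) = y^2`; for `x = e`:
`(e-e')(e-e'') (e-e') (e-e'')`, similarly at `e'`, `e''` (note the signs: at `x = e'`:
`(e'-e) * ((e'-e)(e'-e'')) * (e'-e'')`).
-/

set_option autoImplicit false

namespace Pool.Agent.H77.SV

variable {W : WeierstrassCurve.Affine ℚ} {e e' e'' : ℚ}

/-- the value of the descent map in terms of the first coordinate -/
private def Kap_K (e e' e'' x : ℚ) : ℚ := if x = e then (e - e') * (e - e'') else x - e

private lemma Kap_some (e e' e'' : ℚ) {x y : ℚ} (h : W.Nonsingular x y) :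
    kap e e' e'' (WeierstrassCurve.Affine.Point.some x y h) = Kap_K e e' e'' x := rfl

private lemma Kap_d (h : Roots W e e' e'') : (e - e') * (e - e'') ≠ 0 :=
  mul_ne_zero (sub_ne_zero.2 h.n1) (sub_ne_zero.2 h.n2)

private lemma Kap_eq (h : Roots W e e' e'') {x y : ℚ} (hx : W.Nonsingular x y) :
    y ^ 2 = (x - e) * (x - e') * (x - e'') := by
  have h1 := (WeierstrassCurve.Affine.equation_iff x y).1 hx.1
  rw [h.a1, h.a3, h.a2, h.a4, h.a6] at h1
  linear_combination h1

/-- if one of three collinear points is `(e, 0)` -/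
private lemma Kap_one {a b c l v : ℚ} (ha : a = e)
    (s1 : a + b + c = e + e' + e'' + l ^ 2)
    (s2 : a * b + a * c + b * c = e * e' + e * e'' + e' * e'' - 2 * l * v)
    (s3 : a * b * c = e * e' * e'' + v ^ 2) :
    (b - e) * (c - e) = (e - e') * (e - e'') := by
  subst ha
  have h0 : (l * a + v) ^ 2 = 0 := by
    linear_combination (-a ^ 2) * s1 + a * s2 - s3
  have h1 : v = -(l * a) := by
    have := pow_eq_zero_iff (two_ne_zero) |>.1 h0
    linarith
  subst h1
  linear_combination s2 - 2 * a * s1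

private lemma Kap_three (h : Roots W e e' e'') {a b c l v : ℚ}
    (s1 : a + b + c = e + e' + e'' + l ^ 2)
    (s2 : a * b + a * c + b * c = e * e' + e * e'' + e' * e'' - 2 * l * v)
    (s3 : a * b * c = e * e' * e'' + v ^ 2) :
    IsSquare (Kap_K e e' e'' c * (Kap_K e e' e'' a * Kap_K e e' e'' b)) := by
  have hd := Kap_d h
  have hne : ∀ {x y : ℚ}, (x - e) * (y - e) = (e - e') * (e - e'') → x ≠ e ∧ y ≠ e := by
    intro x y hxy
    constructor
    · rintro rfl
      rw [sub_self, zero_mul] at hxy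
      exact hd hxy.symm
    · rintro rfl
      rw [sub_self, mul_zero] at hxy
      exact hd hxy.symm
  by_cases ha : a = e
  · have h1 := Kap_one ha s1 s2 s3
    obtain ⟨hb, hc⟩ := hne h1
    unfold Kap_K
    rw [if_pos ha, if_neg hb, if_neg hc]
    exact ⟨(e - e') * (e - e''), by linear_combination ((e - e') * (e - e'')) * h1⟩
  by_cases hb : b = e
  · have h1 := Kap_one (a := b) (b := a) (c := c) (e' := e') (e'' := e'') (l := l) (v := v) hb
      (by linear_combination s1) (by linear_combination s2) (by linear_combination s3)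
    obtain ⟨_, hc⟩ := hne h1
    unfold Kap_K
    rw [if_neg ha, if_pos hb, if_neg hc]
    exact ⟨(e - e') * (e - e''), by linear_combination ((e - e') * (e - e'')) * h1⟩
  by_cases hc : c = e
  · have h1 := Kap_one (a := c) (b := a) (c := b) (e' := e') (e'' := e'') (l := l) (v := v) hc
      (by linear_combination s1) (by linear_combination s2) (by linear_combination s3)
    unfold Kap_K
    rw [if_neg ha, if_neg hb, if_pos hc]
    exact ⟨(e - e') * (e - e''), by linear_combination ((e - e') * (e - e'')) * h1⟩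
  · unfold Kap_K
    rw [if_neg ha, if_neg hb, if_neg hc]
    refine ⟨l * e + v, ?_⟩
    linear_combination (e ^ 2) * s1 - e * s2 + s3

theorem kap_ne_zero (h : Roots W e e' e'') (P : W.Point) : kap e e' e'' P ≠ 0 := by
  cases P with
  | zero => exact one_ne_zero
  | some x y hxy =>
    rw [Kap_some]
    unfold Kap_K
    split_ifs with hx
    · exact Kap_d h
    · exact sub_ne_zero.2 hx

theorem kap_neg (h : Roots W e e' e'') (P : W.Point) : kap e e' e'' (-P) = kap e e' e'' P := by
  cases P with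
  | zero => rfl
  | some x y hxy => rfl

theorem kap_add (h : Roots W e e' e'') (P Q : W.Point) :
    IsSquare (kap e e' e'' (P + Q) * (kap e e' e'' P * kap e e' e'' Q)) := by
  rcases P with _ | ⟨x₁, y₁, h₁⟩
  · have e1 : (WeierstrassCurve.Affine.Point.zero : W.Point) + Q = Q := zero_add Q
    rw [e1]
    have e2 : kap e e' e'' (WeierstrassCurve.Affine.Point.zero : W.Point) = 1 := rfl
    rw [e2, one_mul]
    exact ⟨_, rfl⟩
  rcases Q with _ | ⟨x₂, y₂, h₂⟩
  · have e1 : (WeierstrassCurve.Affine.Point.some x₁ y₁ h₁ : W.Point) +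
        WeierstrassCurve.Affine.Point.zero = WeierstrassCurve.Affine.Point.some x₁ y₁ h₁ :=
      add_zero _
    rw [e1]
    have e2 : kap e e' e'' (WeierstrassCurve.Affine.Point.zero : W.Point) = 1 := rfl
    rw [e2, mul_one]
    exact ⟨_, rfl⟩
  by_cases hxy : x₁ = x₂ ∧ y₁ = W.negY x₂ y₂
  · rw [WeierstrassCurve.Affine.Point.add_of_Y_eq hxy.1 hxy.2]
    have e2 : kap e e' e'' (0 : W.Point) = 1 := rfl
    rw [e2, one_mul, Kap_some, Kap_some, hxy.1]
    exact ⟨_, rfl⟩
  · rw [WeierstrassCurve.Affine.Point.add_some hxy, Kap_some, Kap_some, Kap_some]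
    set l := W.slope x₁ x₂ y₁ y₂ with hl
    set x₃ := W.addX x₁ x₂ l with hx₃
    have hp := WeierstrassCurve.Affine.addPolynomial_slope h₁.1 h₂.1 hxy
    rw [WeierstrassCurve.Affine.addPolynomial_eq, neg_inj, ← hl, ← hx₃] at hp
    have key : ∀ X : ℚ, X ^ 3 + (-l ^ 2 + W.a₂) * X ^ 2 +
        (2 * x₁ * l ^ 2 - 2 * y₁ * l + W.a₄) * X +
        (-x₁ ^ 2 * l ^ 2 + 2 * x₁ * y₁ * l - (y₁ ^ 2 - W.a₆)) =
        (X - x₁) * (X - x₂) * (X - x₃) := by
      intro X
      have h1 := congrArg (Polynomial.eval X) hp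
      rw [h.a1, h.a3] at h1
      simp only [Cubic.toPoly, Polynomial.eval_add, Polynomial.eval_mul, Polynomial.eval_C,
        Polynomial.eval_pow, Polynomial.eval_X, Polynomial.eval_sub] at h1
      linear_combination h1
    rw [h.a2, h.a4, h.a6] at key
    have k0 := key 0
    have k1 := key 1
    have k2 := key (-1)
    refine Kap_three h (l := l) (v := y₁ - l * x₁) ?_ ?_ ?_
    · linear_combination (k1 + k2) / 2 - k0
    · linear_combination -(k1 - k2) / 2
    · linear_combination k0

theorem kap_prod (h : Roots W e e' e'') (P : W.Point) :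
    IsSquare (kap e e' e'' P * kap e' e e'' P * kap e'' e e' P) := by
  cases P with
  | zero =>
    refine ⟨1, ?_⟩
    show (1 : ℚ) * 1 * 1 = 1 * 1
    norm_num
  | some x y hxy =>
    rw [Kap_some, Kap_some, Kap_some]
    unfold Kap_K
    by_cases h1 : x = e
    · have h2 : x ≠ e' := fun h3 => h.n1 (h1.symm.trans h3)
      have h3 : x ≠ e'' := fun h4 => h.n2 (h1.symm.trans h4)
      rw [if_pos h1, if_neg h2, if_neg h3, h1]
      exact ⟨(e - e') * (e - e''), by ring⟩
    by_cases h2 : x = e'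
    · have h3 : x ≠ e'' := fun h4 => h.n3 (h2.symm.trans h4)
      rw [if_neg h1, if_pos h2, if_neg h3, h2]
      exact ⟨(e' - e) * (e' - e''), by ring⟩
    by_cases h3 : x = e''
    · rw [if_neg h1, if_neg h2, if_pos h3, h3]
      exact ⟨(e'' - e) * (e'' - e'), by ring⟩
    · rw [if_neg h1, if_neg h2, if_neg h3]
      exact ⟨y, by rw [← Kap_eq h hxy, sq]⟩

end Pool.Agent.H77.SV
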