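import Pool.Agent.H77.SV.Defs

/-!
# Module SqCl (about 110 lines): square classes of rational numbers.

PROOF of `isSquare_of_vb`. Let `x > 0` with all `padicValRat p x` even. Write `x = a / b` in lowest
terms (`a = x.num > 0`, `b = x.den`); for each prime `p` at most one of `v_p(a)`, `v_p(b)` is nonzero and
`padicValRat p x = v_p(a) - v_p(b)` (`padicValRat_def`), so both are even. A natural number `a ≠ 0` all
of whose valuations (`Nat.factorization`) are even is a square (`Nat.factorization_prod_pow_eq_self`: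
`a = prod p ^ (2 m_p) = (prod p ^ m_p)^2`). So `x = (a'/b')^2`.
(`((z : ℤ) : ZMod 2) = 0 ↔ Even z` is `ZMod.intCast_zmod_eq_zero_iff_dvd` / `Int.even_iff_two_dvd`.)
PROOF of `vb_mul`: `padicValRat.mul`, casts. `vb_sq`: valuation of a square is even.
-/

set_option autoImplicit false

namespace Pool.Agent.H77.SV

theorem vb_mul {p : ℕ} (hp : p.Prime) {x y : ℚ} (hx : x ≠ 0) (hy : y ≠ 0) :
    vb p (x * y) = vb p x + vb p y := by
  have : Fact p.Prime := ⟨hp⟩
  unfold vb
  rw [padicValRat.mul hx hy]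
  push_cast
  rfl

theorem vb_eq_zero_iff {p : ℕ} {x : ℚ} : vb p x = 0 ↔ Even (padicValRat p x) := by
  unfold vb
  rw [ZMod.intCast_zmod_eq_zero_iff_dvd, even_iff_two_dvd]
  rfl

/-- equal valuations (mod 2) of `x`, `y` if `x y` is a square -/
theorem vb_of_isSquare {p : ℕ} (hp : p.Prime) {x y : ℚ} (hx : x ≠ 0) (hy : y ≠ 0)
    (h : IsSquare (x * y)) : vb p x = vb p y := by
  have : Fact p.Prime := ⟨hp⟩
  obtain ⟨r, hr⟩ := h
  have hr0 : r ≠ 0 := by
    rintro rfl
    exact (mul_ne_zero hx hy) (by rw [hr, mul_zero])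
  have h1 : vb p (x * y) = 0 := by
    rw [hr, vb_mul hp hr0 hr0]
    exact CharTwo.add_self_eq_zero _
  rw [vb_mul hp hx hy] at h1
  exact CharTwo.add_eq_zero.1 h1

private theorem SqCl_nat {n : ℕ} (hn : n ≠ 0)
    (h : ∀ p : ℕ, p.Prime → Even (padicValNat p n)) : IsSquare n := by
  obtain ⟨a, b, hab, hsq⟩ := Nat.sq_mul_squarefree n
  have ha0 : a ≠ 0 := by
    rintro rfl
    exact hsq.ne_zero rfl
  have hb0 : b ≠ 0 := by
    rintro rfl
    exact hn (by rw [← hab]; simp)
  have ha1 : a = 1 := by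
    by_contra hne
    obtain ⟨p, hp, hpa⟩ := Nat.exists_prime_and_dvd hne
    have : Fact p.Prime := ⟨hp⟩
    have h1 : padicValNat p n = 2 * padicValNat p b + padicValNat p a := by
      rw [← hab, padicValNat.mul (pow_ne_zero 2 hb0) ha0, padicValNat.pow]
    have h2 : padicValNat p a = 1 := by
      have h3 := (Nat.squarefree_iff_factorization_le_one ha0).1 hsq p
      rw [Nat.factorization_def a hp] at h3
      have h4 := one_le_padicValNat_of_dvd ha0 hpa
      omega
    have h5 := h p hp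
    rw [h1, h2] at h5
    rcases h5 with ⟨m, hm⟩
    omega
  subst ha1
  exact ⟨b, by rw [← hab]; ring⟩

theorem isSquare_of_vb {x : ℚ} (hx : 0 < x) (h : ∀ p : ℕ, p.Prime → vb p x = 0) :
    IsSquare x := by
  have hnum : 0 < x.num := Rat.num_pos.2 hx
  obtain ⟨a, ha⟩ : ∃ a : ℕ, x.num = (a : ℤ) := ⟨x.num.toNat, by omega⟩
  have ha0 : a ≠ 0 := by
    rintro rfl
    rw [ha] at hnum
    simp at hnum
  have hcop : Nat.Coprime a x.den := by
    have := x.reduced
    rw [ha] at this
    simpa using this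
  have hkey : ∀ p : ℕ, p.Prime → Even (padicValNat p a) ∧ Even (padicValNat p x.den) := by
    intro p hp
    have : Fact p.Prime := ⟨hp⟩
    have h1 := vb_eq_zero_iff.1 (h p hp)
    rw [padicValRat_def, ha, padicValInt.of_nat] at h1
    by_cases hpa : p ∣ a
    · have h2 : ¬ p ∣ x.den := fun hd => hp.one_lt.ne' (Nat.dvd_one.1 (hcop ▸ Nat.dvd_gcd hpa hd))
      have h3 : padicValNat p x.den = 0 := padicValNat.eq_zero_of_not_dvd h2
      rw [h3] at h1 ⊢
      refine ⟨?_, Even.zero⟩
      have h4 : Even ((padicValNat p a : ℕ) : ℤ) := by simpa using h1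
      exact_mod_cast h4
    · have h3 : padicValNat p a = 0 := padicValNat.eq_zero_of_not_dvd hpa
      rw [h3] at h1 ⊢
      refine ⟨Even.zero, ?_⟩
      have h4 : Even ((padicValNat p x.den : ℕ) : ℤ) := by
        have h5 : Even (-((padicValNat p x.den : ℕ) : ℤ)) := by simpa using h1
        exact even_neg.1 h5
      exact_mod_cast h4
  rw [Rat.isSquare_iff]
  constructor
  · rw [ha]
    obtain ⟨r, hr⟩ := SqCl_nat ha0 (fun p hp => (hkey p hp).1)
    exact ⟨r, by rw [hr]; push_cast; rfl⟩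
  · exact SqCl_nat x.den_nz (fun p hp => (hkey p hp).2)

/-- same sign and same valuations mod 2 -/
theorem isSquare_mul_of_vb {x y : ℚ} (hx : x ≠ 0) (hy : y ≠ 0) (hs : x < 0 ↔ y < 0)
    (h : ∀ p : ℕ, p.Prime → vb p x = vb p y) : IsSquare (x * y) := by
  apply isSquare_of_vb
  · rcases lt_or_gt_of_ne hx with h1 | h1
    · exact mul_pos_of_neg_of_neg h1 (hs.1 h1)
    · have h2 : 0 < y := by
        rcases lt_or_gt_of_ne hy with h3 | h3
        · exact absurd (hs.2 h3) (not_lt.2 h1.le)
        · exact h3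
      exact mul_pos h1 h2
  · intro p hp
    rw [vb_mul hp hx hy, h p hp]
    exact CharTwo.add_self_eq_zero _

end Pool.Agent.H77.SV
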