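import Pool.Agent.H77.SV.Lc

/-!
# Module LcO (about 110 lines): the bit of a rational number from its sign and its odd primes.

PROOF. Let `y = s * prod_{q ∈ O, vb q x = 1} q` with `s = -1` if `x < 0`, `s = 1` otherwise.
Then `x` and `y` have the same sign and the same `vb q` for every prime `q` (`vb q y = 1` exactly if
`q ∈ O` and `vb q x = 1`, and this is the case iff `vb q x = 1` by `hO`), so `x y` is a square
(`isSquare_mul_of_vb`) and `lb p x = lb p y` (`lb_of_isSquare`). By `lb_mul` (induction over the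
product) `lb p y = [s = -1] bt p (-1) + sum_{q} lb p q` and `lb p q = bt p q` for `q ≠ p`
(`lb_int`), `lb p p = 0` (`lb_self`). Elements of `ZMod 2` are `0` or `1`.
-/

set_option autoImplicit false

namespace Pool.Agent.H77.SV

open Finset

private lemma lco_not_dvd_one {p : ℕ} (hp : p.Prime) : ¬ (p : ℤ) ∣ 1 := by
  intro h
  have h1 : (p : ℤ) ∣ ((1 : ℕ) : ℤ) := by exact_mod_cast h
  rw [Int.natCast_dvd_natCast] at h1
  exact hp.one_lt.ne' (Nat.dvd_one.1 h1)

private lemma lco_not_dvd_neg_one {p : ℕ} (hp : p.Prime) : ¬ (p : ℤ) ∣ -1 := by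
  rw [Int.dvd_neg]
  exact lco_not_dvd_one hp

private lemma lco_not_dvd {p q : ℕ} (hp : p.Prime) (hq : q.Prime) (h : q ≠ p) : ¬ (p : ℤ) ∣ (q : ℤ) := by
  rw [Int.natCast_dvd_natCast, Nat.prime_dvd_prime_iff_eq hp hq]
  exact fun h' => h h'.symm

private lemma lco_vb_self {p : ℕ} (hp : p.Prime) : vb p (p : ℚ) = 1 := by
  unfold vb
  rw [padicValRat.self hp.one_lt]
  rfl

private lemma lco_prod_ne {A : Finset ℕ} (hA : ∀ q ∈ A, q.Prime) : (∏ q ∈ A, (q : ℚ)) ≠ 0 :=
  Finset.prod_ne_zero_iff.2 fun q hq => Nat.cast_ne_zero.2 (hA q hq).ne_zero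

private lemma lco_vb_prod {p : ℕ} (hp : p.Prime) (A : Finset ℕ) (hA : ∀ q ∈ A, q.Prime) :
    vb p (∏ q ∈ A, (q : ℚ)) = if p ∈ A then 1 else 0 := by
  induction A using Finset.induction_on with
  | empty =>
    rw [Finset.prod_empty, if_neg (Finset.notMem_empty _)]
    have := vb_int hp (lco_not_dvd_one hp)
    rwa [Int.cast_one] at this
  | insert q A hq ih =>
    have hA' : ∀ r ∈ A, r.Prime := fun r hr => hA r (Finset.mem_insert_of_mem hr)
    have hqp := hA q (Finset.mem_insert_self _ _)
    rw [Finset.prod_insert hq, vb_mul hp (Nat.cast_ne_zero.2 hqp.ne_zero) (lco_prod_ne hA'), ih hA']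
    by_cases h : q = p
    · subst h
      rw [lco_vb_self hp, if_neg hq, if_pos (Finset.mem_insert_self _ _), add_zero]
    · have h1 := vb_int hp (lco_not_dvd hp hqp h)
      rw [Int.cast_natCast] at h1
      rw [h1, zero_add]
      have h2 : p ∈ insert q A ↔ p ∈ A := by
        rw [Finset.mem_insert]
        exact ⟨fun h' => h'.resolve_left fun h'' => h h''.symm, Or.inr⟩
      simp only [h2]

private lemma lco_lb_prod {p : ℕ} (hp : p.Prime) (A : Finset ℕ) (hA : ∀ q ∈ A, q.Prime) :
    lb p (∏ q ∈ A, (q : ℚ)) = ∑ q ∈ A, lb p (q : ℚ) := by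
  induction A using Finset.induction_on with
  | empty =>
    rw [Finset.prod_empty, Finset.sum_empty]
    have := lb_int hp (lco_not_dvd_one hp)
    rwa [Int.cast_one, bt_one] at this
  | insert q A hq ih =>
    have hA' : ∀ r ∈ A, r.Prime := fun r hr => hA r (Finset.mem_insert_of_mem hr)
    have hqp := hA q (Finset.mem_insert_self _ _)
    rw [Finset.prod_insert hq, lb_mul hp (Nat.cast_ne_zero.2 hqp.ne_zero) (lco_prod_ne hA'), ih hA',
      Finset.sum_insert hq]

theorem lb_eq_sum {x : ℚ} (hx : x ≠ 0) (O : Finset ℕ) (hO' : ∀ q ∈ O, q.Prime)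
    (hO : ∀ q : ℕ, q.Prime → q ∉ O → vb q x = 0) {p : ℕ} (hp : p.Prime) :
    lb p x = (if x < 0 then bt p (-1) else 0) + ∑ q ∈ O.erase p, vb q x * bt p q := by
  classical
  have h01 : ∀ t : ZMod 2, t = 0 ∨ t = 1 := by decide
  set A := O.filter (fun q => vb q x = 1) with hA
  have hAp : ∀ q ∈ A, q.Prime := fun q hq => hO' q (Finset.mem_filter.1 hq).1
  set s : ℚ := if x < 0 then -1 else 1 with hs
  have hs0 : s ≠ 0 := by
    rw [hs]; split_ifs <;> norm_num
  have hP0 : (∏ q ∈ A, (q : ℚ)) ≠ 0 := lco_prod_ne hAp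
  have hPpos : 0 < (∏ q ∈ A, (q : ℚ)) :=
    Finset.prod_pos fun q hq => Nat.cast_pos.2 (hAp q hq).pos
  have hy0 : s * ∏ q ∈ A, (q : ℚ) ≠ 0 := mul_ne_zero hs0 hP0
  have hvs : ∀ r : ℕ, r.Prime → vb r s = 0 := by
    intro r hr
    rw [hs]
    split_ifs
    · have := vb_int hr (lco_not_dvd_neg_one hr)
      rwa [Int.cast_neg, Int.cast_one] at this
    · have := vb_int hr (lco_not_dvd_one hr)
      rwa [Int.cast_one] at this
  have hsq : IsSquare (x * (s * ∏ q ∈ A, (q : ℚ))) := by
    refine isSquare_mul_of_vb hx hy0 ?_ ?_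
    · rw [hs]
      split_ifs with h
      · simp only [h, true_iff]
        linarith
      · simp only [h, false_iff, one_mul, not_lt]
        exact hPpos.le
    · intro r hr
      rw [vb_mul hr hs0 hP0, hvs r hr, zero_add, lco_vb_prod hr A hAp]
      by_cases hrO : r ∈ O
      · rcases h01 (vb r x) with h | h
        · have : r ∉ A := by
            rw [hA, Finset.mem_filter]
            rintro ⟨_, h'⟩
            rw [h] at h'
            exact absurd h' (by decide)
          rw [if_neg this, h]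
        · have : r ∈ A := by
            rw [hA, Finset.mem_filter]
            exact ⟨hrO, h⟩
          rw [if_pos this, h]
      · have : r ∉ A := fun h => hrO (Finset.mem_filter.1 h).1
        rw [if_neg this, hO r hr hrO]
  rw [lb_of_isSquare hp hx hy0 hsq, lb_mul hp hs0 hP0, lco_lb_prod hp A hAp]
  congr 1
  · rw [hs]
    split_ifs
    · have := lb_int hp (lco_not_dvd_neg_one hp)
      rwa [Int.cast_neg, Int.cast_one] at this
    · have := lb_int hp (lco_not_dvd_one hp)
      rwa [Int.cast_one, bt_one] at this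
  · rw [hA, Finset.sum_filter]
    have h1 : ∀ q ∈ O, (if vb q x = 1 then lb p (q : ℚ) else 0) =
        if q = p then 0 else vb q x * bt p q := by
      intro q hq
      by_cases hqp : q = p
      · rw [if_pos hqp]
        subst hqp
        rw [lb_self hp]
        simp
      · rw [if_neg hqp]
        have h2 := lb_int hp (lco_not_dvd hp (hO' q hq) hqp)
        rw [Int.cast_natCast] at h2
        rcases h01 (vb q x) with h | h
        · rw [h, zero_mul, if_neg (by decide)]
        · rw [h, one_mul, if_pos rfl, h2]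
    rw [Finset.sum_congr rfl h1]
    rw [← Finset.filter_ne' O p, Finset.sum_filter]
    refine Finset.sum_congr rfl fun q _ => ?_
    by_cases hqp : q = p
    · rw [if_pos hqp, if_neg (by simp [hqp])]
    · rw [if_neg hqp, if_pos hqp]

end Pool.Agent.H77.SV
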