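import Pool.Agent.H77.SV.Defs

/-!
# Module Geo (about 150 lines): elementary facts about the forms.

PROOFS. `p` is a prime `> w`, all the constants have absolute value `≤ w < p` and are nonzero
where needed.
`exists_big`: take the maximum (sum) of everything.
`ndvd_of_le`: `0 < |x| ≤ w < p` implies `p ∤ x` (`Int.le_of_dvd` with `Int.natAbs` or `|x|`).
`exists_rs`: `(r_i, s_i) ≠ (0, 0)` because `k ≥ 2` and `hrs` with some `j ≠ i`; so `p ∤ r_i` or `p ∤ s_i`.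
`unique_idx`: if `p | l_i(m,n)` and `p | l_j(m,n)`, then `s_j l_i - s_i l_j = (r_i s_j - r_j s_i) m` and
`r_i l_j - r_j l_i = (r_i s_j - r_j s_i) n`, so `p | m` and `p | n`, contradiction to `IsCoprime m n`.
`exists_mu`: if `p | r_i m + s_i n`: if `p ∤ r_i` let `r'` be an inverse of `r_i` mod `p` and
`mu = r' n`: `mu r_i ≡ n` and `-s_i mu = -s_i r' n ≡ r' r_i m ≡ m`. If `p ∤ s_i`: `mu = -s' m` with
`s' s_i ≡ 1`: `-s_i mu ≡ m`, `r_i mu = -s' r_i m ≡ s' s_i n ≡ n`. If `p | mu` then `p | m, n`.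
`l_at`: `l_j(m, n) ≡ mu l_j(-s_i, r_i) (mod p)`.
`l_P_ne`: `l_j(-s_i, r_i) = r_i s_j - r_j s_i` is nonzero of absolute value `≤ w`, so prime to `p`.
`dvd_P`: `P = prod l_i`, prime; `exact_iff`: for coprime `(m, n)`: `p || P(m,n)` iff `p || l_i(m, n)`
for `i = idx` (`p` divides no other `l_j`, product over the others is prime to `p`).
-/

set_option autoImplicit false

namespace Pool.Agent.H77.SV

open Finset

variable {k : ℕ} (F : Fam k)

theorem Fam.exists_big : ∃ w, F.Big w := by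
  refine ⟨12 + 24 * (k + 1) ^ 2 + ∑ i, (F.r i).natAbs + ∑ i, (F.s i).natAbs +
    ∑ i, ∑ j, (F.r i * F.s j - F.r j * F.s i).natAbs +
    (F.al.natAbs + F.be.natAbs + F.ga.natAbs), ?_⟩
  have key : ∀ (x : ℤ) (a : ℕ), x.natAbs ≤ a → |x| ≤ (a : ℤ) := by
    intro x a h
    rw [Int.abs_eq_natAbs]
    exact_mod_cast h
  have hr : ∀ i, (F.r i).natAbs ≤ ∑ i, (F.r i).natAbs := fun i =>
    Finset.single_le_sum (f := fun i => (F.r i).natAbs) (fun _ _ => Nat.zero_le _) (mem_univ i)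
  have hs : ∀ i, (F.s i).natAbs ≤ ∑ i, (F.s i).natAbs := fun i =>
    Finset.single_le_sum (f := fun i => (F.s i).natAbs) (fun _ _ => Nat.zero_le _) (mem_univ i)
  have hrs : ∀ i j, (F.r i * F.s j - F.r j * F.s i).natAbs ≤
      ∑ i, ∑ j, (F.r i * F.s j - F.r j * F.s i).natAbs := by
    intro i j
    have h1 : (F.r i * F.s j - F.r j * F.s i).natAbs ≤
        ∑ j, (F.r i * F.s j - F.r j * F.s i).natAbs :=
      Finset.single_le_sum (f := fun j => (F.r i * F.s j - F.r j * F.s i).natAbs)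
        (fun _ _ => Nat.zero_le _) (mem_univ j)
    have h2 : ∑ j, (F.r i * F.s j - F.r j * F.s i).natAbs ≤
        ∑ i, ∑ j, (F.r i * F.s j - F.r j * F.s i).natAbs :=
      Finset.single_le_sum (f := fun i => ∑ j, (F.r i * F.s j - F.r j * F.s i).natAbs)
        (fun _ _ => Nat.zero_le _) (mem_univ i)
    exact h1.trans h2
  constructor
  · omega
  · omega
  · intro i
    apply key
    have := hr i
    omega
  · intro i
    apply key
    have := hs i
    omega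
  · intro i j
    apply key
    have := hrs i j
    omega
  · apply key
    omega
  · apply key
    omega
  · apply key
    omega

variable {F} {w : ℕ}

theorem ndvd_of_le {x : ℤ} (hx : x ≠ 0) (hxw : |x| ≤ (w : ℤ)) {p : ℕ} (hpw : w < p) :
    ¬ (p : ℤ) ∣ x := by
  intro h
  apply hx
  apply Int.eq_zero_of_abs_lt_dvd h
  have : (w : ℤ) < p := by exact_mod_cast hpw
  linarith

theorem exists_rs (hw : F.Big w) {p : ℕ} (hpw : w < p) (i : Fin k) :
    ¬ (p : ℤ) ∣ F.r i ∨ ¬ (p : ℤ) ∣ F.s i := by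
  by_contra hcon
  push Not at hcon
  have hwp : (w : ℤ) < p := by exact_mod_cast hpw
  have h1 : F.r i = 0 := Int.eq_zero_of_abs_lt_dvd hcon.1 ((hw.hr i).trans_lt hwp)
  have h2 : F.s i = 0 := Int.eq_zero_of_abs_lt_dvd hcon.2 ((hw.hs i).trans_lt hwp)
  obtain ⟨j, hj⟩ : ∃ j : Fin k, i ≠ j := by
    have := F.hk
    have : Nontrivial (Fin k) := Fin.nontrivial_iff_two_le.mpr this
    obtain ⟨j, hj⟩ := exists_ne i
    exact ⟨j, hj.symm⟩
  apply F.hrs i j hj
  rw [h1, h2]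
  ring

theorem unique_idx (hw : F.Big w) {p : ℕ} (hp : p.Prime) (hpw : w < p) {m n : ℤ}
    (hc : ¬ ((p : ℤ) ∣ m ∧ (p : ℤ) ∣ n)) {i j : Fin k} (hi : (p : ℤ) ∣ F.l i m n)
    (hj : (p : ℤ) ∣ F.l j m n) : i = j := by
  by_contra hij
  have hpp : Prime (p : ℤ) := Nat.prime_iff_prime_int.mp hp
  have hD : ¬ (p : ℤ) ∣ F.r i * F.s j - F.r j * F.s i :=
    ndvd_of_le (F.hrs i j hij) (hw.hrs i j) hpw
  apply hc
  constructor
  · have h1 : (p : ℤ) ∣ (F.r i * F.s j - F.r j * F.s i) * m := by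
      have h2 : (F.r i * F.s j - F.r j * F.s i) * m = F.s j * F.l i m n - F.s i * F.l j m n := by
        unfold Fam.l
        ring
      rw [h2]
      exact dvd_sub (hi.mul_left _) (hj.mul_left _)
    exact (hpp.dvd_or_dvd h1).resolve_left hD
  · have h1 : (p : ℤ) ∣ (F.r i * F.s j - F.r j * F.s i) * n := by
      have h2 : (F.r i * F.s j - F.r j * F.s i) * n = F.r i * F.l j m n - F.r j * F.l i m n := by
        unfold Fam.l
        ring
      rw [h2]
      exact dvd_sub (hj.mul_left _) (hi.mul_left _)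
    exact (hpp.dvd_or_dvd h1).resolve_left hD

theorem exists_mu (hw : F.Big w) {p : ℕ} (hp : p.Prime) (hpw : w < p) {m n : ℤ}
    (hc : ¬ ((p : ℤ) ∣ m ∧ (p : ℤ) ∣ n)) {i : Fin k} (hi : (p : ℤ) ∣ F.l i m n) :
    ∃ mu : ℤ, ¬ (p : ℤ) ∣ mu ∧ ∀ j, F.l j m n ≡ mu * F.l j (-(F.s i)) (F.r i) [ZMOD p] := by
  have hpp : Prime (p : ℤ) := Nat.prime_iff_prime_int.mp hp
  have key : ∀ mu : ℤ, (p : ℤ) ∣ m + mu * F.s i → (p : ℤ) ∣ n - mu * F.r i →
      ¬ (p : ℤ) ∣ mu ∧ ∀ j, F.l j m n ≡ mu * F.l j (-(F.s i)) (F.r i) [ZMOD p] := by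
    intro mu h1 h2
    refine ⟨?_, ?_⟩
    · intro h
      apply hc
      constructor
      · have h3 := dvd_sub h1 (h.mul_right (F.s i))
        rwa [add_sub_cancel_right] at h3
      · have h3 := dvd_add h2 (h.mul_right (F.r i))
        rwa [sub_add_cancel] at h3
    · intro j
      apply Int.ModEq.symm
      rw [Int.modEq_iff_dvd]
      have h3 : F.l j m n - mu * F.l j (-(F.s i)) (F.r i) =
          F.r j * (m + mu * F.s i) + F.s j * (n - mu * F.r i) := by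
        unfold Fam.l
        ring
      rw [h3]
      exact dvd_add (h1.mul_left _) (h2.mul_left _)
  rcases exists_rs hw hpw i with h | h
  · obtain ⟨a, b, hab⟩ := hpp.coprime_iff_not_dvd.mpr h
    refine ⟨b * n, key (b * n) ?_ ?_⟩
    · have h3 : m + b * n * F.s i = (p : ℤ) * (a * m) + b * F.l i m n := by
        unfold Fam.l
        linear_combination (-m) * hab
      rw [h3]
      exact dvd_add (dvd_mul_right _ _) (hi.mul_left _)
    · have h3 : n - b * n * F.r i = (p : ℤ) * (a * n) := by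
        linear_combination (-n) * hab
      rw [h3]
      exact dvd_mul_right _ _
  · obtain ⟨a, b, hab⟩ := hpp.coprime_iff_not_dvd.mpr h
    refine ⟨-(b * m), key (-(b * m)) ?_ ?_⟩
    · have h3 : m + -(b * m) * F.s i = (p : ℤ) * (a * m) := by
        linear_combination (-m) * hab
      rw [h3]
      exact dvd_mul_right _ _
    · have h3 : n - -(b * m) * F.r i = (p : ℤ) * (a * n) + b * F.l i m n := by
        unfold Fam.l
        linear_combination (-n) * hab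
      rw [h3]
      exact dvd_add (dvd_mul_right _ _) (hi.mul_left _)

theorem l_P_ndvd (hw : F.Big w) {p : ℕ} (hpw : w < p) {i j : Fin k} (hij : j ≠ i) :
    ¬ (p : ℤ) ∣ F.l j (-(F.s i)) (F.r i) := by
  have h : F.l j (-(F.s i)) (F.r i) = F.r i * F.s j - F.r j * F.s i := by
    unfold Fam.l
    ring
  rw [h]
  exact ndvd_of_le (F.hrs i j hij.symm) (hw.hrs i j) hpw

theorem coef_ndvd (hw : F.Big w) {p : ℕ} (hpw : w < p) :
    ¬ (p : ℤ) ∣ F.al ∧ ¬ (p : ℤ) ∣ F.be ∧ ¬ (p : ℤ) ∣ F.ga :=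
  ⟨ndvd_of_le F.hal hw.hal hpw, ndvd_of_le F.hbe hw.hbe hpw, ndvd_of_le F.hga hw.hga hpw⟩

/-- `A - B = C` -/
theorem A_sub_B (m n : ℤ) : F.A m n - F.B m n = F.C m n := F.hid m n

theorem abc_ne_zero {m n : ℤ} (hP : F.P m n ≠ 0) :
    F.A m n ≠ 0 ∧ F.B m n ≠ 0 ∧ F.C m n ≠ 0 ∧ F.A m n ≠ F.B m n := by
  have hl : ∀ i, F.l i m n ≠ 0 := fun i h => hP (Finset.prod_eq_zero (mem_univ i) h)
  have hprod : ∀ e : Fin k → ℕ, ∏ i, F.l i m n ^ e i ≠ 0 := fun e =>
    Finset.prod_ne_zero_iff.mpr fun i _ => pow_ne_zero _ (hl i)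
  have hC : F.C m n ≠ 0 := mul_ne_zero F.hga (hprod _)
  refine ⟨mul_ne_zero F.hal (hprod _), mul_ne_zero F.hbe (hprod _), hC, ?_⟩
  intro h
  apply hC
  rw [← A_sub_B, h, sub_self]

/-- a prime `p > w` dividing `A B (A - B)` divides `P` -/
theorem dvd_P_of_dvd (hw : F.Big w) {p : ℕ} (hp : p.Prime) (hpw : w < p) {m n : ℤ}
    (h : (p : ℤ) ∣ F.A m n * F.B m n * (F.A m n - F.B m n)) : (p : ℤ) ∣ F.P m n := by
  have hpp : Prime (p : ℤ) := Nat.prime_iff_prime_int.mp hp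
  have key : ∀ (g : ℤ) (e : Fin k → ℕ), ¬ (p : ℤ) ∣ g → (p : ℤ) ∣ g * ∏ i, F.l i m n ^ e i →
      (p : ℤ) ∣ F.P m n := by
    intro g e hg h1
    obtain ⟨i, -, hi⟩ := hpp.exists_mem_finset_dvd ((hpp.dvd_or_dvd h1).resolve_left hg)
    exact (hpp.dvd_of_dvd_pow hi).trans (Finset.dvd_prod_of_mem _ (mem_univ i))
  obtain ⟨h1, h2, h3⟩ := coef_ndvd hw hpw
  rw [A_sub_B] at h
  rcases hpp.dvd_or_dvd h with h | h
  · rcases hpp.dvd_or_dvd h with h | h
    · exact key _ _ h1 h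
    · exact key _ _ h2 h
  · exact key _ _ h3 h

/-- the index of a prime divisor of `P(m, n)` -/
theorem idx_dvd {p : ℕ} (hp : p.Prime) {m n : ℤ} (h : (p : ℤ) ∣ F.P m n) :
    (p : ℤ) ∣ F.l (F.idx p m n) m n := by
  have hpp : Prime (p : ℤ) := Nat.prime_iff_prime_int.mp hp
  have h1 : ∃ i, (p : ℤ) ∣ F.l i m n := by
    obtain ⟨i, -, hi⟩ := hpp.exists_mem_finset_dvd h
    exact ⟨i, hi⟩
  unfold Fam.idx
  rw [dif_pos h1]
  exact h1.choose_spec

theorem idx_eq (hw : F.Big w) {p : ℕ} (hp : p.Prime) (hpw : w < p) {m n : ℤ}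
    (hc : ¬ ((p : ℤ) ∣ m ∧ (p : ℤ) ∣ n)) {i : Fin k} (hi : (p : ℤ) ∣ F.l i m n) :
    F.idx p m n = i :=
  unique_idx hw hp hpw hc (idx_dvd hp (hi.trans (Finset.dvd_prod_of_mem _ (mem_univ i)))) hi

/-- `p^2 | P(m,n)` iff `p^2` divides one of the forms -/
theorem sq_dvd_iff (hw : F.Big w) {p : ℕ} (hp : p.Prime) (hpw : w < p) {m n : ℤ}
    (hc : ¬ ((p : ℤ) ∣ m ∧ (p : ℤ) ∣ n)) :
    (p : ℤ) ^ 2 ∣ F.P m n ↔ ∃ i, (p : ℤ) ^ 2 ∣ F.l i m n := by
  have hpp : Prime (p : ℤ) := Nat.prime_iff_prime_int.mp hp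
  constructor
  · intro h
    have h1 : (p : ℤ) ∣ F.P m n := (dvd_pow_self _ two_ne_zero).trans h
    have h2 := idx_dvd hp h1
    refine ⟨F.idx p m n, ?_⟩
    have h3 : F.P m n = F.l (F.idx p m n) m n * ∏ j ∈ univ.erase (F.idx p m n), F.l j m n :=
      (Finset.mul_prod_erase univ (fun j => F.l j m n) (mem_univ _)).symm
    rw [h3] at h
    refine IsCoprime.dvd_of_dvd_mul_right ?_ h
    apply IsCoprime.pow_left
    apply IsCoprime.prod_right
    intro j hj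
    rw [hpp.coprime_iff_not_dvd]
    intro h4
    exact (Finset.ne_of_mem_erase hj) (unique_idx hw hp hpw hc h4 h2)
  · rintro ⟨i, hi⟩
    exact hi.trans (Finset.dvd_prod_of_mem _ (mem_univ i))

end Pool.Agent.H77.SV
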