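import Pool.Agent.H77.SV.Lc
import Pool.Agent.H77.SV.Geo

/-!
# Module Cst (about 130 lines): forms of even degree have constant class at the primes of a fibre.

PROOF. `p || l_i(m, n)`, `(m,n)` not both divisible by `p`, `p > w`. By `exists_mu`:
`l_j(m,n) ≡ mu c_j (mod p)` for `j ≠ i`, `c_j = l_j(-s_i, r_i)`, `p ∤ mu`, `p ∤ c_j`; so `p ∤ l_j(m,n)`.
Write `l_i = p t`, `p ∤ t`. `G = g prod_j l_j^(e_j) = p^(e_i) (t^(e_i) g prod_{j≠i} l_j^(e_j))`, so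
`up p G = t^(e_i) g prod_{j ≠ i} l_j^(e_j)` (uniqueness in `up_spec`), and this is
`≡ t^(e_i) mu^(sum_{j≠i} e_j) g prod_{j≠i} c_j^(e_j) = t^(e_i) mu^(E) kc (mod p)`; `e_i` and
`E = sum_j e_j - e_i` are even, so the bit is `bt p (kc i g e)` (`bt_congr`, `bt_mul`, `t + t = 0`).
Alternatively by `lb_mul` for rationals (products): `lb p (l_i^(e_i)) = 0` (even power) and
`lb p (l_j) = bt p (l_j) = bt p mu + bt p (c_j)`.
`vb_prod`: the valuation of `g prod l_j^(e_j)` at `p` is `e_i`.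
-/

set_option autoImplicit false

namespace Pool.Agent.H77.SV

open Finset

variable {k : ℕ} {F : Fam k} {w : ℕ}

private lemma cst_prime {p : ℕ} (hp : p.Prime) : Prime (p : ℤ) := Nat.prime_iff_prime_int.1 hp

private lemma cst_val {p : ℕ} (hp : p.Prime) {N u : ℤ} {v : ℕ} (hu : ¬ (p : ℤ) ∣ u)
    (h : N = (p : ℤ) ^ v * u) : padicValInt p N = v ∧ up p N = u := by
  have : Fact p.Prime := ⟨hp⟩
  have hpz : (p : ℤ) ≠ 0 := by exact_mod_cast hp.ne_zero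
  have hu0 : u ≠ 0 := fun h0 => hu (h0 ▸ dvd_zero _)
  have hv : padicValInt p N = v := by
    rw [h, padicValInt.mul (pow_ne_zero _ hpz) hu0, padicValInt.eq_zero_of_not_dvd hu, add_zero]
    have h1 : ((p : ℤ) ^ v) = ((p ^ v : ℕ) : ℤ) := by push_cast; rfl
    rw [h1, padicValInt.of_nat]
    exact padicValNat.prime_pow v
  refine ⟨hv, ?_⟩
  unfold up
  rw [hv, h]
  exact Int.mul_ediv_cancel_left _ (pow_ne_zero _ hpz)

private lemma cst_prod {p : ℕ} (hp : p.Prime) {s : Finset (Fin k)} {f : Fin k → ℤ}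
    {e : Fin k → ℕ} (h : ∀ j ∈ s, ¬ (p : ℤ) ∣ f j) : ¬ (p : ℤ) ∣ ∏ j ∈ s, f j ^ e j := by
  intro h1
  obtain ⟨j, hj, h2⟩ := (cst_prime hp).exists_mem_finset_dvd h1
  exact h j hj ((cst_prime hp).dvd_of_dvd_pow h2)

private lemma cst_pow {p : ℕ} (hp : p.Prime) {x : ℤ} (hx : ¬ (p : ℤ) ∣ x) {n : ℕ}
    (hn : Even n) : bt p (x ^ n) = 0 := by
  obtain ⟨r, rfl⟩ := hn
  have h : ¬ (p : ℤ) ∣ x ^ r := fun h => hx ((cst_prime hp).dvd_of_dvd_pow h)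
  rw [pow_add, bt_mul hp h h]
  exact CharTwo.add_self_eq_zero _

private lemma cst_mul {p : ℕ} (hp : p.Prime) {x y : ℤ} (hx : ¬ (p : ℤ) ∣ x)
    (hy : ¬ (p : ℤ) ∣ y) : ¬ (p : ℤ) ∣ x * y := fun h =>
  ((cst_prime hp).dvd_or_dvd h).elim hx hy

/-- the factorisation at `p` -/
private lemma cst_fac (hw : F.Big w) {p : ℕ} (hp : p.Prime) (hpw : w < p) {m n : ℤ}
    (hc : ¬ ((p : ℤ) ∣ m ∧ (p : ℤ) ∣ n)) {i : Fin k} (h1 : (p : ℤ) ∣ F.l i m n)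
    (h2 : ¬ (p : ℤ) ^ 2 ∣ F.l i m n) {g : ℤ} (hg : ¬ (p : ℤ) ∣ g) (e : Fin k → ℕ) :
    ∃ t : ℤ, ¬ (p : ℤ) ∣ t ∧
      ¬ (p : ℤ) ∣ t ^ e i * (g * ∏ j ∈ univ.erase i, F.l j m n ^ e j) ∧
      g * ∏ j, F.l j m n ^ e j
        = (p : ℤ) ^ e i * (t ^ e i * (g * ∏ j ∈ univ.erase i, F.l j m n ^ e j)) := by
  obtain ⟨t, ht⟩ := h1
  have htn : ¬ (p : ℤ) ∣ t := by
    rintro ⟨s, rfl⟩
    exact h2 ⟨s, by rw [ht]; ring⟩
  have hj : ∀ j ∈ univ.erase i, ¬ (p : ℤ) ∣ F.l j m n := by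
    intro j hj h3
    exact (Finset.mem_erase.1 hj).1 (unique_idx hw hp hpw hc h3 ⟨t, ht⟩)
  refine ⟨t, htn, ?_, ?_⟩
  · exact cst_mul hp (fun h => htn ((cst_prime hp).dvd_of_dvd_pow h))
      (cst_mul hp hg (cst_prod hp hj))
  · rw [← Finset.mul_prod_erase univ (fun j => F.l j m n ^ e j) (Finset.mem_univ i)]
    rw [ht, mul_pow]
    ring

theorem val_prod (hw : F.Big w) {p : ℕ} (hp : p.Prime) (hpw : w < p) {m n : ℤ}
    (hc : ¬ ((p : ℤ) ∣ m ∧ (p : ℤ) ∣ n)) {i : Fin k} (h1 : (p : ℤ) ∣ F.l i m n)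
    (h2 : ¬ (p : ℤ) ^ 2 ∣ F.l i m n) {g : ℤ} (hg : ¬ (p : ℤ) ∣ g) (e : Fin k → ℕ) :
    padicValRat p ((g * ∏ j, F.l j m n ^ e j : ℤ) : ℚ) = e i := by
  obtain ⟨t, _, h3, h4⟩ := cst_fac hw hp hpw hc h1 h2 hg e
  rw [padicValRat.of_int, (cst_val hp h3 h4).1]

theorem cst (hw : F.Big w) {p : ℕ} (hp : p.Prime) (hpw : w < p) {m n : ℤ}
    (hc : ¬ ((p : ℤ) ∣ m ∧ (p : ℤ) ∣ n)) {i : Fin k} (h1 : (p : ℤ) ∣ F.l i m n)
    (h2 : ¬ (p : ℤ) ^ 2 ∣ F.l i m n) {g : ℤ} (hg : ¬ (p : ℤ) ∣ g) (e : Fin k → ℕ)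
    (he : Even (∑ j, e j)) (hei : Even (e i)) :
    lb p ((g * ∏ j, F.l j m n ^ e j : ℤ) : ℚ) = bt p (F.kc i g e) := by
  obtain ⟨t, ht, h3, h4⟩ := cst_fac hw hp hpw hc h1 h2 hg e
  rw [lb_intCast, (cst_val hp h3 h4).2]
  obtain ⟨mu, hmu, hm⟩ := exists_mu hw hp hpw hc h1
  have hcj : ∀ j ∈ univ.erase i, ¬ (p : ℤ) ∣ F.l j (-(F.s i)) (F.r i) := fun j hj =>
    l_P_ndvd hw hpw (Finset.mem_erase.1 hj).1
  have hkc : ¬ (p : ℤ) ∣ F.kc i g e := by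
    unfold Fam.kc
    exact cst_mul hp hg (cst_prod hp hcj)
  have hE : Even (∑ j ∈ univ.erase i, e j) := by
    rw [← Finset.add_sum_erase univ e (Finset.mem_univ i)] at he
    exact (Nat.even_add.1 he).1 hei
  have hcong : t ^ e i * (g * ∏ j ∈ univ.erase i, F.l j m n ^ e j)
      ≡ t ^ e i * (mu ^ (∑ j ∈ univ.erase i, e j) * F.kc i g e) [ZMOD p] := by
    rw [← ZMod.intCast_eq_intCast_iff]
    have hz : ∀ j, ((F.l j m n : ℤ) : ZMod p) = (mu : ZMod p) * ((F.l j (-(F.s i)) (F.r i) : ℤ) : ZMod p) := by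
      intro j
      have := (ZMod.intCast_eq_intCast_iff _ _ _).2 (hm j)
      rw [this]
      push_cast
      rfl
    unfold Fam.kc
    rw [Int.cast_mul, Int.cast_mul (t ^ e i), Int.cast_mul g, Int.cast_mul (mu ^ _),
      Int.cast_mul g, Int.cast_prod, Int.cast_prod]
    have h5 : ∏ j ∈ univ.erase i, ((F.l j m n ^ e j : ℤ) : ZMod p)
        = (mu : ZMod p) ^ (∑ j ∈ univ.erase i, e j)
          * ∏ j ∈ univ.erase i, ((F.l j (-(F.s i)) (F.r i) ^ e j : ℤ) : ZMod p) := by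
      rw [← Finset.prod_pow_eq_pow_sum, ← Finset.prod_mul_distrib]
      refine Finset.prod_congr rfl fun j _ => ?_
      rw [Int.cast_pow, hz j, mul_pow, Int.cast_pow]
    rw [h5, Int.cast_pow mu]
    ring
  rw [bt_congr hcong]
  have a1 : ¬ (p : ℤ) ∣ t ^ e i := fun h => ht ((cst_prime hp).dvd_of_dvd_pow h)
  have a2 : ¬ (p : ℤ) ∣ mu ^ (∑ j ∈ univ.erase i, e j) := fun h =>
    hmu ((cst_prime hp).dvd_of_dvd_pow h)
  rw [bt_mul hp a1 (cst_mul hp a2 hkc), bt_mul hp a2 hkc, cst_pow hp ht hei, cst_pow hp hmu hE]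
  simp

end Pool.Agent.H77.SV
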