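import Pool.Agent.H77.SV.LocS
import Pool.Agent.H77.SV.Cst

/-!
# Module MatS (about 200 lines): the local relation at a prime of type `I_n^*`.

PROOF. `a, b, c` = exponents `ea i, eb i, ec i`, `Star a b c`. `val_prod` gives
`v(A) = a`, `v(B) = b`, `v(A - B) = v(C) = c` (`A_sub_B`), so `loc_star` applies: the classes of
`(k1 Q, k2 Q)` are those of `(1,1)`, `(A B, -A)`, `(A, A C)`, `(B, -C)`. Write
`bA = lb p A`, `bB`, `bC`, `ε = lb p (-1) = bt p (-1)`; `vA = vb p A = a mod 2` etc.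
(`lb_mul`, `vb_mul`, `vb p (-1) = 0`.) So `(v, u)` is one of
`(0; 0)`, `((vA+vB, vA); (bA+bB, bA+ε))`, `((vA, vA+vC); (bA, bA+bC))`, `((vB, vC); (bB, bC+ε))`.
The exponents sums: `sum ea = sum eb = sum ec = d` even. `cst` (with products of `A`, `B`, `C` collected:
`A B = (al be) prod l^(ea+eb)` etc.) gives the bits of the constants `kc`:
* `a` even (then `b = c = 1`, `vA = 0`, `vB = vC = 1`, `R = B`, `r = bB`):
  `bA = bt kA`, `bA+bB+bC = bt kABC`, `N = ((bA, bA), (bA+ε, bA+bB+bC))` (`bt p (-kA) = ε + bt p kA`).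
  Check `u = r v + N v`: `v = (1,0)`: `(bB + bA, bA + ε)` ok; `v = (0,1)`: `(bA, bB + bA+bB+bC)` ok;
  `v = (1,1)`: the sum, `(bB, bC + ε)` ok.
* `a` odd, `b` even (`vA = 1, vB = 0, vC = 1`, `R = A`, `r = bA`): `bB = bt kB`,
  `bA + bC = bt kAC`, `N = ((0, bB), (bA+bC, bA+bC+ε))`. `T1 = (1,1)`: `(bA+bB, bA+ε)` ok;
  `T2 = (1,0)`: `(bA, bA+bC)` ok; `T3 = (0,1)`: `(bB, bC+ε)` ok.
* `a, b` odd, `c` even (`vC = 0`): `r = bA`, `N = ((bA+bB, bA+bB), (bC+ε, ε))`; `T1`: `v = (0,1)`: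
  `(bA+bB, bA+ε)`; `T2`: `v = (1,1)`: `(bA, bA+bC)`; `T3`: `v = (1,0)`: `(bB, bC+ε)`. Here
  `bA+bB = bt kAB` (exponents `ea+eb`, even at `i`), `bC = bt kC`.
* all odd: `r = bA`, `N = ((0, bA+bB), (bA+bC, ε))`; `T1`: `v = (0,1)`; `T2`: `v = (1,0)`; `T3 = (1,1)`.
`VV none = univ`, `CC none = univ`, `dot c` is linear, so the relation `u = r v + N v` gives the claim
for all `c`. `F.ty i = none` because all three exponents are positive. All constants `kc` are prime to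
`p` (`coef_ndvd`, `l_P_ndvd`), needed for `bt p (-k) = ε + bt p k` (`bt_mul`).
Finite case analysis over `ZMod 2`: `decide` / `revert; decide` after generalizing the bits.
-/

set_option autoImplicit false

namespace Pool.Agent.H77.SV

open Finset

variable {k : ℕ} {F : Fam k} {w : ℕ}

private lemma ms_nd1 {p : ℕ} (hp : p.Prime) : ¬ (p : ℤ) ∣ 1 := by
  intro h
  exact (Nat.prime_iff_prime_int.1 hp).not_isUnit (isUnit_of_dvd_one h)

private lemma ms_neg {p : ℕ} (hp : p.Prime) {A : ℚ} (hA : A ≠ 0) :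
    vb p (-A) = vb p A ∧ lb p (-A) = bt p (-1) + lb p A := by
  constructor
  · unfold vb
    rw [padicValRat.neg]
  · have h1 := lb_mul hp (x := -1) (y := A) (by norm_num) hA
    have h2 : lb p ((-1 : ℤ) : ℚ) = bt p (-1) :=
      lb_int hp (by rw [Int.dvd_neg]; exact ms_nd1 hp)
    rw [Int.cast_neg, Int.cast_one] at h2
    rw [neg_one_mul] at h1
    rw [h1, h2]

private lemma ms_bits {p : ℕ} (hp : p.Prime) {A B C x y : ℚ} (hA : A ≠ 0) (hB : B ≠ 0)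
    (hC : C ≠ 0) (h : (x = 1 ∧ y = 1) ∨ (x = A * B ∧ y = -A) ∨ (x = A ∧ y = A * C) ∨
      (x = B ∧ y = -C)) :
    (vb p x = 0 ∧ lb p x = 0 ∧ vb p y = 0 ∧ lb p y = 0) ∨
    (vb p x = vb p A + vb p B ∧ lb p x = lb p A + lb p B ∧ vb p y = vb p A ∧
      lb p y = bt p (-1) + lb p A) ∨
    (vb p x = vb p A ∧ lb p x = lb p A ∧ vb p y = vb p A + vb p C ∧
      lb p y = lb p A + lb p C) ∨
    (vb p x = vb p B ∧ lb p x = lb p B ∧ vb p y = vb p C ∧ lb p y = bt p (-1) + lb p C) := by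
  rcases h with ⟨rfl, rfl⟩ | ⟨rfl, rfl⟩ | ⟨rfl, rfl⟩ | ⟨rfl, rfl⟩
  · left
    have h1 := vb_int hp (ms_nd1 hp)
    have h2 := lb_int hp (ms_nd1 hp)
    rw [Int.cast_one] at h1 h2
    rw [bt_one] at h2
    exact ⟨h1, h2, h1, h2⟩
  · right; left
    exact ⟨vb_mul hp hA hB, lb_mul hp hA hB, (ms_neg hp hA).1, (ms_neg hp hA).2⟩
  · right; right; left
    exact ⟨rfl, rfl, vb_mul hp hA hC, lb_mul hp hA hC⟩
  · right; right; right
    exact ⟨rfl, rfl, (ms_neg hp hC).1, (ms_neg hp hC).2⟩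

private lemma ms_kc (hw : F.Big w) {p : ℕ} (hp : p.Prime) (hpw : w < p) (i : Fin k) {g : ℤ}
    (hg : ¬ (p : ℤ) ∣ g) (e : Fin k → ℕ) : ¬ (p : ℤ) ∣ F.kc i g e := by
  unfold Fam.kc
  intro h
  have hp' := Nat.prime_iff_prime_int.1 hp
  rcases hp'.dvd_mul.1 h with h | h
  · exact hg h
  · obtain ⟨j, hj, h⟩ := (hp'.dvd_finsetProd_iff _).1 h
    exact l_P_ndvd hw hpw (Finset.ne_of_mem_erase hj) (hp'.dvd_of_dvd_pow h)

private lemma ms_neg_bt {p : ℕ} (hp : p.Prime) {a : ℤ} (ha : ¬ (p : ℤ) ∣ a) :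
    bt p (-a) = bt p (-1) + bt p a := by
  rw [← bt_mul hp (by rw [Int.dvd_neg]; exact ms_nd1 hp) ha, neg_one_mul]

private lemma ms_prod2 (g g' : ℤ) (e e' : Fin k → ℕ) (m n : ℤ) :
    (g * ∏ j, F.l j m n ^ e j) * (g' * ∏ j, F.l j m n ^ e' j) =
      (g * g') * ∏ j, F.l j m n ^ (e j + e' j) := by
  simp_rw [pow_add]
  rw [Finset.prod_mul_distrib]
  ring

private lemma ms_lin {c u v : V2} {N : V2 × V2} {r : ZMod 2} (h1 : u.1 = r * v.1 + dot N.1 v)
    (h2 : u.2 = r * v.2 + dot N.2 v) : dot c u = r * dot c v + dot c (mat N v) := by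
  unfold mat
  unfold dot at *
  simp only
  rw [h1, h2]
  ring

private lemma ms_fin1 : ∀ bA bB bC t vx lx vy ly : ZMod 2,
    ((vx = 0 ∧ lx = 0 ∧ vy = 0 ∧ ly = 0) ∨ (vx = 0 + 1 ∧ lx = bA + bB ∧ vy = 0 ∧ ly = t + bA) ∨
      (vx = 0 ∧ lx = bA ∧ vy = 0 + 1 ∧ ly = bA + bC) ∨
      (vx = 1 ∧ lx = bB ∧ vy = 1 ∧ ly = t + bC)) →
    lx = bB * vx + (bA * vx + bA * vy) ∧
      ly = bB * vy + ((t + bA) * vx + (bA + bB + bC) * vy) := by
  intro bA bB bC t vx lx vy ly h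
  rcases h with ⟨h1, h2, h3, h4⟩ | ⟨h1, h2, h3, h4⟩ | ⟨h1, h2, h3, h4⟩ | ⟨h1, h2, h3, h4⟩ <;>
    rw [h1, h2, h3, h4] <;> clear h1 h2 h3 h4 vx lx vy ly <;> revert bA bB bC t <;> decide

private lemma ms_fin2 : ∀ bA bB bC t vx lx vy ly : ZMod 2,
    ((vx = 0 ∧ lx = 0 ∧ vy = 0 ∧ ly = 0) ∨ (vx = 1 + 0 ∧ lx = bA + bB ∧ vy = 1 ∧ ly = t + bA) ∨
      (vx = 1 ∧ lx = bA ∧ vy = 1 + 1 ∧ ly = bA + bC) ∨
      (vx = 0 ∧ lx = bB ∧ vy = 1 ∧ ly = t + bC)) →
    lx = bA * vx + (0 * vx + bB * vy) ∧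
      ly = bA * vy + ((bA + bC) * vx + (t + (bA + bC)) * vy) := by
  intro bA bB bC t vx lx vy ly h
  rcases h with ⟨h1, h2, h3, h4⟩ | ⟨h1, h2, h3, h4⟩ | ⟨h1, h2, h3, h4⟩ | ⟨h1, h2, h3, h4⟩ <;>
    rw [h1, h2, h3, h4] <;> clear h1 h2 h3 h4 vx lx vy ly <;> revert bA bB bC t <;> decide

private lemma ms_fin3 : ∀ bA bB bC t vx lx vy ly : ZMod 2,
    ((vx = 0 ∧ lx = 0 ∧ vy = 0 ∧ ly = 0) ∨ (vx = 1 + 1 ∧ lx = bA + bB ∧ vy = 1 ∧ ly = t + bA) ∨
      (vx = 1 ∧ lx = bA ∧ vy = 1 + 0 ∧ ly = bA + bC) ∨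
      (vx = 1 ∧ lx = bB ∧ vy = 0 ∧ ly = t + bC)) →
    lx = bA * vx + ((bA + bB) * vx + (bA + bB) * vy) ∧
      ly = bA * vy + ((t + bC) * vx + t * vy) := by
  intro bA bB bC t vx lx vy ly h
  rcases h with ⟨h1, h2, h3, h4⟩ | ⟨h1, h2, h3, h4⟩ | ⟨h1, h2, h3, h4⟩ | ⟨h1, h2, h3, h4⟩ <;>
    rw [h1, h2, h3, h4] <;> clear h1 h2 h3 h4 vx lx vy ly <;> revert bA bB bC t <;> decide

private lemma ms_fin4 : ∀ bA bB bC t vx lx vy ly : ZMod 2,
    ((vx = 0 ∧ lx = 0 ∧ vy = 0 ∧ ly = 0) ∨ (vx = 1 + 1 ∧ lx = bA + bB ∧ vy = 1 ∧ ly = t + bA) ∨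
      (vx = 1 ∧ lx = bA ∧ vy = 1 + 1 ∧ ly = bA + bC) ∨
      (vx = 1 ∧ lx = bB ∧ vy = 1 ∧ ly = t + bC)) →
    lx = bA * vx + (0 * vx + (bA + bB) * vy) ∧
      ly = bA * vy + ((bA + bC) * vx + t * vy) := by
  intro bA bB bC t vx lx vy ly h
  rcases h with ⟨h1, h2, h3, h4⟩ | ⟨h1, h2, h3, h4⟩ | ⟨h1, h2, h3, h4⟩ | ⟨h1, h2, h3, h4⟩ <;>
    rw [h1, h2, h3, h4] <;> clear h1 h2 h3 h4 vx lx vy ly <;> revert bA bB bC t <;> decide

theorem rel_star (hw : F.Big w) {p : ℕ} (hp : p.Prime) (hpw : w < p) {m n : ℤ}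
    (hc : IsCoprime m n) (hP : F.P m n ≠ 0) {i : Fin k} (h1 : (p : ℤ) ∣ F.l i m n)
    (h2 : ¬ (p : ℤ) ^ 2 ∣ F.l i m n) (hi : Star (F.ea i) (F.eb i) (F.ec i))
    (Q : (F.E m n).Point) :
    (vb p (k1 Q), vb p (k2 Q)) ∈ VV (F.ty i) ∧ ∀ c ∈ CC (F.ty i),
      dot c (lb p (k1 Q), lb p (k2 Q)) =
        lb p ((F.R i m n : ℤ) : ℚ) * dot c (vb p (k1 Q), vb p (k2 Q)) +
        dot c (mat (F.N i p) (vb p (k1 Q), vb p (k2 Q))) := by
  obtain ⟨ga, gb, gc, g4⟩ := hi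
  have hc' : ¬ ((p : ℤ) ∣ m ∧ (p : ℤ) ∣ n) := by
    rintro ⟨a, b⟩
    obtain ⟨u, v, huv⟩ := hc
    exact ms_nd1 hp (huv ▸ dvd_add (Dvd.dvd.mul_left a u) (Dvd.dvd.mul_left b v))
  obtain ⟨nal, nbe, nga⟩ := coef_ndvd hw hpw
  obtain ⟨hA, hB, hC, hAB⟩ := abc_ne_zero (F := F) hP
  have hAq : ((F.A m n : ℤ) : ℚ) ≠ 0 := Int.cast_ne_zero.2 hA
  have hBq : ((F.B m n : ℤ) : ℚ) ≠ 0 := Int.cast_ne_zero.2 hB
  have hCq : ((F.C m n : ℤ) : ℚ) ≠ 0 := Int.cast_ne_zero.2 hC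
  have hABq : ((F.A m n : ℤ) : ℚ) ≠ ((F.B m n : ℤ) : ℚ) := fun h => hAB (Int.cast_injective h)
  have hsub : ((F.A m n : ℤ) : ℚ) - ((F.B m n : ℤ) : ℚ) = ((F.C m n : ℤ) : ℚ) := by
    rw [← A_sub_B, Int.cast_sub]
  have vA : padicValRat p ((F.A m n : ℤ) : ℚ) = F.ea i := val_prod hw hp hpw hc' h1 h2 nal F.ea
  have vB : padicValRat p ((F.B m n : ℤ) : ℚ) = F.eb i := val_prod hw hp hpw hc' h1 h2 nbe F.eb
  have vC : padicValRat p ((F.C m n : ℤ) : ℚ) = F.ec i := val_prod hw hp hpw hc' h1 h2 nga F.ec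
  have hty : F.ty i = none := by
    unfold Fam.ty
    rw [if_neg (by omega), if_neg (by omega), if_neg (by omega)]
  obtain ⟨x, y, hxy, e1, e2, e3, e4⟩ := loc_star hAq hBq hABq hp (by rw [vA]; exact_mod_cast ga)
    (by rw [vB]; exact_mod_cast gb) (by rw [hsub, vC]; exact_mod_cast gc)
    (by rw [hsub, vA, vB, vC]; exact_mod_cast g4) Q
  rw [hsub] at hxy
  have hb := ms_bits hp hAq hBq hCq hxy
  rw [e1, e2, e3, e4, hty]
  have wA : vb p ((F.A m n : ℤ) : ℚ) = (F.ea i : ZMod 2) := by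
    unfold vb
    rw [vA, Int.cast_natCast]
  have wB : vb p ((F.B m n : ℤ) : ℚ) = (F.eb i : ZMod 2) := by
    unfold vb
    rw [vB, Int.cast_natCast]
  have wC : vb p ((F.C m n : ℤ) : ℚ) = (F.ec i : ZMod 2) := by
    unfold vb
    rw [vC, Int.cast_natCast]
  have ev : ∀ {t : ℕ}, Even t → (t : ZMod 2) = 0 := fun h => (ZMod.natCast_eq_zero_iff_even).2 h
  have od : ∀ {t : ℕ}, Odd t → (t : ZMod 2) = 1 := fun h => (ZMod.natCast_eq_one_iff_odd).2 h
  refine ⟨Finset.mem_univ _, fun c _ => ?_⟩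
  have hp' := Nat.prime_iff_prime_int.1 hp
  have nab : ¬ (p : ℤ) ∣ F.al * F.be := fun h => (hp'.dvd_mul.1 h).elim nal nbe
  have nac : ¬ (p : ℤ) ∣ F.al * F.ga := fun h => (hp'.dvd_mul.1 h).elim nal nga
  have nabc : ¬ (p : ℤ) ∣ F.al * F.be * F.ga := fun h => (hp'.dvd_mul.1 h).elim nab nga
  have sAB : Even (∑ j, (F.ea j + F.eb j)) := by
    rw [Finset.sum_add_distrib, F.hea, F.heb]
    exact F.hd.add F.hd
  have sAC : Even (∑ j, (F.ea j + F.ec j)) := by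
    rw [Finset.sum_add_distrib, F.hea, F.hec]
    exact F.hd.add F.hd
  have sABC : Even (∑ j, (F.ea j + F.eb j + F.ec j)) := by
    rw [Finset.sum_add_distrib, Finset.sum_add_distrib, F.hea, F.heb, F.hec]
    exact (F.hd.add F.hd).add F.hd
  have lAB : Even (F.ea i + F.eb i) → lb p ((F.A m n : ℤ) : ℚ) + lb p ((F.B m n : ℤ) : ℚ) =
      bt p (F.kc i (F.al * F.be) (fun j => F.ea j + F.eb j)) := by
    intro h
    rw [← cst hw hp hpw hc' h1 h2 nab _ sAB h, ← lb_mul hp hAq hBq, ← Int.cast_mul, ← ms_prod2]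
    rfl
  have lAC : Even (F.ea i + F.ec i) → lb p ((F.A m n : ℤ) : ℚ) + lb p ((F.C m n : ℤ) : ℚ) =
      bt p (F.kc i (F.al * F.ga) (fun j => F.ea j + F.ec j)) := by
    intro h
    rw [← cst hw hp hpw hc' h1 h2 nac _ sAC h, ← lb_mul hp hAq hCq, ← Int.cast_mul, ← ms_prod2]
    rfl
  by_cases pa : Even (F.ea i)
  · -- `a` even
    have hb1 : F.eb i = 1 := by
      rcases g4 with ⟨h, -⟩ | ⟨h, -⟩ | ⟨h, -⟩
      · rw [h] at pa; exact absurd pa (by decide)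
      · rw [h] at pa; exact absurd pa (by decide)
      · exact h
    have hc1 : F.ec i = 1 := by
      rcases g4 with ⟨h, -⟩ | ⟨h, -⟩ | ⟨-, h⟩
      · rw [h] at pa; exact absurd pa (by decide)
      · rw [h] at pa; exact absurd pa (by decide)
      · exact h
    have hK : F.K i = ((F.kc i F.al F.ea, F.kc i F.al F.ea),
        (-(F.kc i F.al F.ea), F.kc i (F.al * F.be * F.ga)
          (fun j => F.ea j + F.eb j + F.ec j))) := by
      unfold Fam.K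
      rw [hty]
      simp only [if_pos pa]
    have hR : F.R i m n = F.B m n := by
      unfold Fam.R
      rw [if_neg (Nat.not_odd_iff_even.2 pa), if_pos (by rw [hb1]; decide)]
    have lA : lb p ((F.A m n : ℤ) : ℚ) = bt p (F.kc i F.al F.ea) :=
      cst hw hp hpw hc' h1 h2 nal F.ea (by rw [F.hea]; exact F.hd) pa
    have lABC : lb p ((F.A m n : ℤ) : ℚ) + lb p ((F.B m n : ℤ) : ℚ) +
        lb p ((F.C m n : ℤ) : ℚ) =
        bt p (F.kc i (F.al * F.be * F.ga) (fun j => F.ea j + F.eb j + F.ec j)) := by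
      rw [← cst hw hp hpw hc' h1 h2 nabc _ sABC (by
        simp only [hb1, hc1]
        rw [add_assoc]
        exact pa.add (by decide)), ← lb_mul hp hAq hBq, ← lb_mul hp (mul_ne_zero hAq hBq) hCq,
        ← Int.cast_mul, ← Int.cast_mul, ← ms_prod2, ← ms_prod2]
      rfl
    rw [wA, wB, wC, ev pa, hb1, hc1, Nat.cast_one] at hb
    obtain ⟨r1, r2⟩ := ms_fin1 _ _ _ _ _ _ _ _ hb
    refine ms_lin ?_ ?_
    · unfold Fam.N dot
      rw [hK, hR]
      simp only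
      rw [← lA]
      exact r1
    · unfold Fam.N dot
      rw [hK, hR]
      simp only
      rw [ms_neg_bt hp (ms_kc hw hp hpw i nal _), ← lA, ← lABC]
      exact r2
  · have oa := Nat.not_even_iff_odd.1 pa
    have hR : F.R i m n = F.A m n := by
      unfold Fam.R
      rw [if_pos oa]
    by_cases pb : Even (F.eb i)
    · have oc : Odd (F.ec i) := by
        rcases g4 with ⟨-, h⟩ | ⟨-, h⟩ | ⟨h, -⟩
        · rw [h] at pb; exact absurd pb (by decide)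
        · rw [h]; decide
        · rw [h] at pb; exact absurd pb (by decide)
      have hK : F.K i = ((1, F.kc i F.be F.eb),
          (F.kc i (F.al * F.ga) (fun j => F.ea j + F.ec j),
            -(F.kc i (F.al * F.ga) (fun j => F.ea j + F.ec j)))) := by
        unfold Fam.K
        rw [hty]
        simp only [if_neg pa, if_pos pb]
      have lB : lb p ((F.B m n : ℤ) : ℚ) = bt p (F.kc i F.be F.eb) :=
        cst hw hp hpw hc' h1 h2 nbe F.eb (by rw [F.heb]; exact F.hd) pb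
      rw [wA, wB, wC, od oa, ev pb, od oc] at hb
      obtain ⟨r1, r2⟩ := ms_fin2 _ _ _ _ _ _ _ _ hb
      refine ms_lin ?_ ?_
      · unfold Fam.N dot
        rw [hK, hR]
        simp only
        rw [bt_one, ← lB]
        exact r1
      · unfold Fam.N dot
        rw [hK, hR]
        simp only
        rw [ms_neg_bt hp (ms_kc hw hp hpw i nac _), ← lAC (oa.add_odd oc)]
        exact r2
    · have ob := Nat.not_even_iff_odd.1 pb
      by_cases pc : Even (F.ec i)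
      · have hK : F.K i = ((F.kc i (F.al * F.be) (fun j => F.ea j + F.eb j),
            F.kc i (F.al * F.be) (fun j => F.ea j + F.eb j)), (-(F.kc i F.ga F.ec), -1)) := by
          unfold Fam.K
          rw [hty]
          simp only [if_neg pa, if_neg pb, if_pos pc]
        have lC : lb p ((F.C m n : ℤ) : ℚ) = bt p (F.kc i F.ga F.ec) :=
          cst hw hp hpw hc' h1 h2 nga F.ec (by rw [F.hec]; exact F.hd) pc
        rw [wA, wB, wC, od oa, od ob, ev pc] at hb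
        obtain ⟨r1, r2⟩ := ms_fin3 _ _ _ _ _ _ _ _ hb
        refine ms_lin ?_ ?_
        · unfold Fam.N dot
          rw [hK, hR]
          simp only
          rw [← lAB (oa.add_odd ob)]
          exact r1
        · unfold Fam.N dot
          rw [hK, hR]
          simp only
          rw [ms_neg_bt hp (ms_kc hw hp hpw i nga _), ← lC]
          exact r2
      · have oc := Nat.not_even_iff_odd.1 pc
        have hK : F.K i = ((1, F.kc i (F.al * F.be) (fun j => F.ea j + F.eb j)),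
            (F.kc i (F.al * F.ga) (fun j => F.ea j + F.ec j), -1)) := by
          unfold Fam.K
          rw [hty]
          simp only [if_neg pa, if_neg pb, if_neg pc]
        rw [wA, wB, wC, od oa, od ob, od oc] at hb
        obtain ⟨r1, r2⟩ := ms_fin4 _ _ _ _ _ _ _ _ hb
        refine ms_lin ?_ ?_
        · unfold Fam.N dot
          rw [hK, hR]
          simp only
          rw [bt_one, ← lAB (oa.add_odd ob)]
          exact r1
        · unfold Fam.N dot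
          rw [hK, hR]
          simp only
          rw [← lAC (oa.add_odd oc)]
          exact r2

end Pool.Agent.H77.SV
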