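import Pool.Agent.H77.SV.SqCl

/-!
# Module Supp (about 120 lines): the descent values have even valuation outside `A B (A - B)`.

PROOF. `v = padicValRat p`. `A, B, A - B` are integers prime to `p`, so `v(A) = v(B) = v(A-B) = 0`.
`P = 0`: values `1`. `P = (x, y)` with `y^2 = x (x - A)(x - B)`.
* `x = 0`: `k1 = A B` (`(0-A)(0-B)`), `k2 = 0 - A`: valuation `0`. `x = A`: `k1 = A`,
  `k2 = (A - 0)(A - B)`. `x = B`: `k1 = B`, `k2 = B - A`.
* otherwise `y ≠ 0` and `v(x) + v(x-A) + v(x-B) = 2 v(y)` is even. If `v(x) < 0`, all three are equal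
  to `v(x)` (`padicValRat.add_eq_of_lt` or similar), so `3 v(x)` is even and `v(x)` is even.
  If `v(x) ≥ 0`: all three are `≥ 0` and at most one of them is positive (if `v(x - a) > 0` and
  `v(x - b) > 0` then `v(a - b) > 0` for two of the roots `a, b`, contradiction), so the positive one is
  even too.
-/

set_option autoImplicit false

namespace Pool.Agent.H77.SV

private theorem supp_even {p : ℕ} [Fact p.Prime] {a b c y : ℚ} (ha : a ≠ 0) (hb : b ≠ 0)
    (hc : c ≠ 0) (h : y ^ 2 = a * b * c) (hba : b - a ≠ 0) (hca : c - a ≠ 0)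
    (vba : padicValRat p (b - a) = 0) (vca : padicValRat p (c - a) = 0) :
    Even (padicValRat p a) := by
  have hy : y ≠ 0 := by
    rintro rfl
    have h1 : a * b * c ≠ 0 := mul_ne_zero (mul_ne_zero ha hb) hc
    apply h1
    rw [← h]
    ring
  have hv : 2 * padicValRat p y = padicValRat p a + padicValRat p b + padicValRat p c := by
    rw [← padicValRat.mul ha hb, ← padicValRat.mul (mul_ne_zero ha hb) hc, ← h,
      padicValRat.pow]
    push_cast
    ring
  have e1 : a + (b - a) = b := by ring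
  have e2 : a + (c - a) = c := by ring
  have e3 : (b - a) + a = b := by ring
  have e4 : (c - a) + a = c := by ring
  rcases lt_trichotomy (padicValRat p a) 0 with h0 | h0 | h0
  · have hb1 := padicValRat.add_eq_of_lt (p := p) (by rw [e1]; exact hb) ha hba
      (by rw [vba]; exact h0)
    have hc1 := padicValRat.add_eq_of_lt (p := p) (by rw [e2]; exact hc) ha hca
      (by rw [vca]; exact h0)
    rw [e1] at hb1
    rw [e2] at hc1
    rw [hb1, hc1] at hv
    exact ⟨padicValRat p y - padicValRat p a, by linarith⟩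
  · rw [h0]
    exact ⟨0, rfl⟩
  · have hb1 := padicValRat.add_eq_of_lt (p := p) (by rw [e3]; exact hb) hba ha
      (by rw [vba]; exact h0)
    have hc1 := padicValRat.add_eq_of_lt (p := p) (by rw [e4]; exact hc) hca ha
      (by rw [vca]; exact h0)
    rw [e3, vba] at hb1
    rw [e4, vca] at hc1
    rw [hb1, hc1] at hv
    exact ⟨padicValRat p y, by linarith⟩

theorem supp {A B : ℤ} (hA : A ≠ 0) (hB : B ≠ 0) (hAB : A ≠ B) {p : ℕ} (hp : p.Prime)
    (hdiv : ¬ (p : ℤ) ∣ A * B * (A - B)) (P : (EC (A : ℚ) (B : ℚ)).Point) :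
    vb p (k1 P) = 0 ∧ vb p (k2 P) = 0 := by
  have _ : Fact p.Prime := ⟨hp⟩
  rw [vb_eq_zero_iff, vb_eq_zero_iff]
  have hC : A - B ≠ 0 := sub_ne_zero.2 hAB
  have vint : ∀ z : ℤ, z ≠ 0 → z ∣ A * B * (A - B) → padicValRat p (z : ℚ) = 0 := by
    intro z _ hz
    rw [padicValRat.of_int, padicValInt.eq_zero_of_not_dvd fun h => hdiv (h.trans hz)]
    rfl
  have vA : padicValRat p (A : ℚ) = 0 := vint A hA ⟨B * (A - B), by ring⟩
  have vB : padicValRat p (B : ℚ) = 0 := vint B hB ⟨A * (A - B), by ring⟩
  have vC : padicValRat p ((A : ℚ) - B) = 0 := by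
    have h := vint (A - B) hC ⟨A * B, by ring⟩
    push_cast at h
    exact h
  have qA : (A : ℚ) ≠ 0 := Int.cast_ne_zero.2 hA
  have qB : (B : ℚ) ≠ 0 := Int.cast_ne_zero.2 hB
  have qC : (A : ℚ) - B ≠ 0 := by exact_mod_cast hC
  have ev0 : ∀ x : ℚ, padicValRat p x = 0 → Even (padicValRat p x) := fun x h => by
    rw [h]
    exact ⟨0, rfl⟩
  rcases P with _ | ⟨x, y, hxy⟩
  · have e1 : k1 (A := (A : ℚ)) (B := (B : ℚ)) WeierstrassCurve.Affine.Point.zero = 1 := rfl
    have e2 : k2 (A := (A : ℚ)) (B := (B : ℚ)) WeierstrassCurve.Affine.Point.zero = 1 := rfl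
    rw [e1, e2]
    exact ⟨ev0 1 padicValRat.one, ev0 1 padicValRat.one⟩
  · have e1 : k1 (A := (A : ℚ)) (B := (B : ℚ)) (WeierstrassCurve.Affine.Point.some x y hxy) =
        if x = 0 then (0 - (A : ℚ)) * (0 - B) else x - 0 := rfl
    have e2 : k2 (A := (A : ℚ)) (B := (B : ℚ)) (WeierstrassCurve.Affine.Point.some x y hxy) =
        if x = A then ((A : ℚ) - 0) * (A - B) else x - A := rfl
    have heq : y ^ 2 = x * (x - A) * (x - B) := by
      have h := (WeierstrassCurve.Affine.equation_iff x y).1 hxy.1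
      simp only at h
      linear_combination h
    rw [e1, e2]
    by_cases h0 : x = 0
    · subst h0
      rw [if_pos rfl, if_neg (Ne.symm qA)]
      constructor
      · apply ev0
        have e : (0 - (A : ℚ)) * (0 - B) = A * B := by ring
        rw [e, padicValRat.mul qA qB, vA, vB, add_zero]
      · apply ev0
        rw [zero_sub, padicValRat.neg, vA]
    rw [if_neg h0, sub_zero]
    by_cases h1 : x = A
    · subst h1
      rw [if_pos rfl]
      constructor
      · exact ev0 _ vA
      · apply ev0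
        rw [sub_zero, padicValRat.mul qA qC, vA, vC, add_zero]
    rw [if_neg h1]
    by_cases h2 : x = B
    · subst h2
      constructor
      · exact ev0 _ vB
      · apply ev0
        rw [← neg_sub, padicValRat.neg, vC]
    have h1' : x - A ≠ 0 := sub_ne_zero.2 h1
    have h2' : x - B ≠ 0 := sub_ne_zero.2 h2
    constructor
    · refine supp_even h0 h1' h2' heq ?_ ?_ ?_ ?_
      · rw [sub_sub_cancel_left]
        exact neg_ne_zero.2 qA
      · rw [sub_sub_cancel_left]
        exact neg_ne_zero.2 qB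
      · rw [sub_sub_cancel_left, padicValRat.neg, vA]
      · rw [sub_sub_cancel_left, padicValRat.neg, vB]
    · have e3 : x - (x - (A : ℚ)) = A := by ring
      have e4 : x - (B : ℚ) - (x - A) = A - B := by ring
      refine supp_even (y := y) h1' h0 h2' (by rw [heq]; ring) ?_ ?_ ?_ ?_
      · rw [e3]; exact qA
      · rw [e4]; exact qC
      · rw [e3]; exact vA
      · rw [e4]; exact vC

end Pool.Agent.H77.SV
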