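import Mathlib

/-!
# Module Alg (about 120 lines, Mathlib only): rank and `G / 2G`.

PROOF of `index_of_fibres`: the quotient map `G → G ⧸ 2G` restricted to representatives: the map
`f` separates different classes of `G ⧸ 2G` (if `f g = f h` then `g - h = a + a ∈ 2G`), so
`G ⧸ 2G` injects into `V` (choose a representative of each class and apply `f`), hence it is
finite; `AddSubgroup.finiteIndex_of_finite_quotient`.
PROOF of `two_pow_rank_le`: `G ⧸ torsion` is a finitely generated torsion free `ℤ`-module, hence
free of rank `r = finrank ℤ G` (`Module.finrank_quotient_...`, or use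
`Module.Free.chooseBasis`, or `AddCommGroup.equiv_free_prod_directSum_zmod`, which gives
`G ≃+ (Fin n →₀ ℤ) × (finite group)` with `n = finrank`: in the product take the `2^n` elements
`(ε, 0)`, `ε ∈ {0,1}^n`; two of them which differ by an element `a + a` are equal (parity of the
coordinates)). So `f` is injective on these `2^n` elements, with values in `V`.
-/

set_option autoImplicit false

namespace Pool.Agent.H77.SV

theorem index_of_fibres {G : Type*} [AddCommGroup G] {X : Type*} (V : Finset X) (f : G → X)
    (hV : ∀ g, f g ∈ V) (hf : ∀ g h, f g = f h → ∃ a, g - h = a + a) :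
    (nsmulAddMonoidHom (α := G) 2).range.FiniteIndex := by
  set H := (nsmulAddMonoidHom (α := G) 2).range with hH
  have hinj : Function.Injective (fun q : G ⧸ H => (⟨f q.out, hV _⟩ : V)) := by
    intro q q' h
    have h1 : f q.out = f q'.out := congrArg Subtype.val h
    obtain ⟨a, ha⟩ := hf _ _ h1
    rw [← QuotientAddGroup.out_eq' q, ← QuotientAddGroup.out_eq' q', QuotientAddGroup.eq]
    refine ⟨-a, ?_⟩
    rw [nsmulAddMonoidHom_apply, two_nsmul]
    have h2 : -a + -a = -(a + a) := by abel
    rw [h2, ← ha]
    abel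
  have : Finite (G ⧸ H) := Finite.of_injective _ hinj
  exact AddSubgroup.finiteIndex_of_finite_quotient

theorem two_pow_rank_le {G : Type*} [AddCommGroup G] [Module.Finite ℤ G] {X : Type*}
    (V : Finset X) (f : G → X) (hV : ∀ g, f g ∈ V)
    (hf : ∀ g h, f g = f h → ∃ a, g - h = a + a) :
    2 ^ Module.finrank ℤ G ≤ V.card := by
  classical
  have hr : Module.finrank ℤ (G ⧸ Submodule.torsion ℤ G) = Module.finrank ℤ G :=
    finrank_quotient_eq_of_le_torsion le_rfl
  rw [← hr]
  set N := Submodule.torsion ℤ G with hN
  set B := Module.finBasis ℤ (G ⧸ N) with hB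
  choose w hw using fun i => N.mkQ_surjective (B i)
  have key : ∀ (ε : Fin (Module.finrank ℤ (G ⧸ N)) → Bool) i,
      B.repr (N.mkQ (∑ j, (if ε j then (1 : ℤ) else 0) • w j)) i = if ε i then 1 else 0 := by
    intro ε i
    have h1 : N.mkQ (∑ j, (if ε j then (1 : ℤ) else 0) • w j) =
        ∑ j, (if ε j then (1 : ℤ) else 0) • B j := by
      rw [map_sum]
      refine Finset.sum_congr rfl fun j _ => ?_
      rw [map_smul, hw]
    rw [h1, B.repr_sum_self]
  have hinj : Function.Injective (fun ε : Fin (Module.finrank ℤ (G ⧸ N)) → Bool =>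
      (⟨f (∑ j, (if ε j then (1 : ℤ) else 0) • w j), hV _⟩ : V)) := by
    intro ε ε' h
    have h1 : f (∑ j, (if ε j then (1 : ℤ) else 0) • w j) =
        f (∑ j, (if ε' j then (1 : ℤ) else 0) • w j) := congrArg Subtype.val h
    obtain ⟨a, ha⟩ := hf _ _ h1
    funext i
    have h2 := congrArg (fun x => B.repr (N.mkQ x) i) ha
    simp only [map_sub, map_add, Finsupp.sub_apply, Finsupp.add_apply] at h2
    rw [key, key] at h2
    cases h3 : ε i <;> cases h4 : ε' i <;> simp only [h3, h4] at h2 ⊢ <;> simp at h2 <;> omega
  have h5 := Fintype.card_le_of_injective _ hinj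
  rw [Fintype.card_fun, Fintype.card_bool, Fintype.card_fin, Fintype.card_coe] at h5
  exact h5

end Pool.Agent.H77.SV
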