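import Pool.Agent.H77.SV.Kap

/-!
# Module Half (about 150 lines): a point with square descent values is divisible by 2.

PROOF of `two_dvd`. `P = 0`: `Q = 0`. `P = (x₀, y₀)`. There are `z₁, z₂, z₃` with
`x₀ - e = z₁^2`, `x₀ - e' = z₂^2`, `x₀ - e'' = z₃^2`: if `x₀ ≠ e` this is `h1`; if `x₀ = e` take
`z₁ = 0`, same for the others (if `x₀ = e`, `kap e' .. = x₀ - e'`, as `e ≠ e'`).
Then `y₀^2 = (z₁ z₂ z₃)^2`; changing the sign of all three we may assume `y₀ = z₁ z₂ z₃`.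
Put `x = x₀ + z₁ z₂ + z₁ z₃ + z₂ z₃`, `y = (z₁+z₂)(z₁+z₃)(z₂+z₃)`. Then `x - e = (z₁+z₂)(z₁+z₃)`
etc., so `(x, y)` is on the curve; `z₁ + z₂ ≠ 0` because `z₁^2 - z₂^2 = e' - e ≠ 0` etc., so
`y ≠ 0` (and the point is nonsingular). The slope at `Q = (x, y)` is `f'(x) / (2y) = z₁ + z₂ + z₃`
(`f'(x) = (x-e)(x-e') + (x-e)(x-e'') + (x-e')(x-e'')`), the sum `Q + Q` has first coordinate
`(z₁+z₂+z₃)^2 + e + e' + e'' - 2x = x₀` and second coordinate
`-(y + (z₁+z₂+z₃)(x₀ - x)) = z₁ z₂ z₃ = y₀`.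
(`WeierstrassCurve.Affine.Point.add_self_of_Y_ne`, `slope_of_Y_ne`, `Point.some.injEq`.)
PROOF of `diff_two`. Apply `two_dvd` to `P - Q = P + (-Q)`. `kap_add` and `kap_neg`: for the root `e`:
`kap (P - Q) * (kap P * kap Q)` is a square and `kap P * kap Q` is a nonzero square, so
`kap (P-Q)` is a square. Same for `e'` (`Roots W e' e e''` holds too). For `e''` use `kap_prod`.
-/

set_option autoImplicit false

namespace Pool.Agent.H77.SV

variable {W : WeierstrassCurve.Affine ℚ} {e e' e'' : ℚ}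

private theorem half_z {x e a : ℚ} (h : IsSquare (if x = e then a else x - e)) :
    ∃ z : ℚ, e = x - z ^ 2 := by
  by_cases hx : x = e
  · exact ⟨0, by rw [hx]; ring⟩
  · rw [if_neg hx] at h
    obtain ⟨r, hr⟩ := h
    exact ⟨r, by linarith [hr, pow_two r]⟩

theorem two_dvd (h : Roots W e e' e'') (P : W.Point) (h1 : IsSquare (kap e e' e'' P))
    (h2 : IsSquare (kap e' e e'' P)) (h3 : IsSquare (kap e'' e e' P)) :
    ∃ Q : W.Point, Q + Q = P := by
  rcases P with _ | ⟨x₀, y₀, hP⟩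
  · exact ⟨0, by rw [add_zero]; rfl⟩
  obtain ⟨z₁, hz₁⟩ := half_z (x := x₀) (e := e) (a := (e - e') * (e - e'')) h1
  obtain ⟨z₂, hz₂⟩ := half_z (x := x₀) (e := e') (a := (e' - e) * (e' - e'')) h2
  obtain ⟨z₃, hz₃⟩ := half_z (x := x₀) (e := e'') (a := (e'' - e) * (e'' - e')) h3
  have heq := (WeierstrassCurve.Affine.equation_iff x₀ y₀).1 hP.1
  rw [h.a1, h.a2, h.a3, h.a4, h.a6] at heq
  have hy0 : y₀ ^ 2 = (z₁ * z₂ * z₃) ^ 2 := by
    have : y₀ ^ 2 = (x₀ - e) * (x₀ - e') * (x₀ - e'') := by linear_combination heq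
    rw [this, hz₁, hz₂, hz₃]
    ring
  obtain ⟨z₁, z₂, z₃, hz₁, hz₂, hz₃, hy⟩ : ∃ z₁ z₂ z₃ : ℚ, e = x₀ - z₁ ^ 2 ∧ e' = x₀ - z₂ ^ 2 ∧
      e'' = x₀ - z₃ ^ 2 ∧ y₀ = z₁ * z₂ * z₃ := by
    rcases sq_eq_sq_iff_eq_or_eq_neg.1 hy0 with h4 | h4
    · exact ⟨z₁, z₂, z₃, hz₁, hz₂, hz₃, h4⟩
    · refine ⟨-z₁, -z₂, -z₃, ?_, ?_, ?_, ?_⟩
      · rw [hz₁]; ring
      · rw [hz₂]; ring
      · rw [hz₃]; ring
      · rw [h4]; ring
  have n12 : z₁ + z₂ ≠ 0 := by
    intro h5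
    apply h.n1
    have : z₁ = -z₂ := by linarith
    rw [hz₁, hz₂, this]
    ring
  have n13 : z₁ + z₃ ≠ 0 := by
    intro h5
    apply h.n2
    have : z₁ = -z₃ := by linarith
    rw [hz₁, hz₃, this]
    ring
  have n23 : z₂ + z₃ ≠ 0 := by
    intro h5
    apply h.n3
    have : z₂ = -z₃ := by linarith
    rw [hz₂, hz₃, this]
    ring
  obtain ⟨x, hx⟩ : ∃ x, x = x₀ + z₁ * z₂ + z₁ * z₃ + z₂ * z₃ := ⟨_, rfl⟩
  obtain ⟨y, hy'⟩ : ∃ y, y = (z₁ + z₂) * (z₁ + z₃) * (z₂ + z₃) := ⟨_, rfl⟩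
  have hyne : y ≠ 0 := by
    rw [hy']
    exact mul_ne_zero (mul_ne_zero n12 n13) n23
  have hQ : W.Nonsingular x y := by
    rw [WeierstrassCurve.Affine.nonsingular_iff']
    constructor
    · rw [WeierstrassCurve.Affine.equation_iff, h.a1, h.a2, h.a3, h.a4, h.a6, hz₁, hz₂, hz₃, hx,
        hy']
      ring
    · right
      rw [h.a1, h.a3]
      simpa using hyne
  have hneg : W.negY x y = -y := by
    rw [WeierstrassCurve.Affine.negY, h.a1, h.a3]
    ring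
  have hyn : y ≠ W.negY x y := by
    rw [hneg]
    intro h5
    apply hyne
    linarith
  have hs : W.slope x x y y = z₁ + z₂ + z₃ := by
    rw [WeierstrassCurve.Affine.slope_of_Y_ne rfl hyn, hneg, h.a1, h.a2, h.a4]
    rw [div_eq_iff (by intro h5; apply hyne; linarith)]
    rw [hz₁, hz₂, hz₃, hx, hy']
    ring
  have hX : W.addX x x (W.slope x x y y) = x₀ := by
    rw [hs, WeierstrassCurve.Affine.addX, h.a1, h.a2, hz₁, hz₂, hz₃, hx]
    ring
  have hY : W.addY x x y (W.slope x x y y) = y₀ := by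
    rw [WeierstrassCurve.Affine.addY, WeierstrassCurve.Affine.negAddY, hX, hs,
      WeierstrassCurve.Affine.negY, h.a1, h.a3, hx, hy', hy]
    ring
  refine ⟨.some x y hQ, ?_⟩
  rw [WeierstrassCurve.Affine.Point.add_self_of_Y_ne hyn]
  simp only [WeierstrassCurve.Affine.Point.some.injEq]
  exact ⟨hX, hY⟩

private theorem half_swap (h : Roots W e e' e'') : Roots W e' e e'' where
  a1 := h.a1
  a3 := h.a3
  a2 := by rw [h.a2]; ring
  a4 := by rw [h.a4]; ring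
  a6 := by rw [h.a6]; ring
  n1 := h.n1.symm
  n2 := h.n3
  n3 := h.n2

private theorem half_quot {a b : ℚ} (hb : b ≠ 0) (h : IsSquare (a * b)) (hb2 : IsSquare b) :
    IsSquare a := by
  have h1 : a = a * b / b := by field_simp
  rw [h1]
  exact h.div hb2

theorem diff_two (h : Roots W e e' e'') (P Q : W.Point)
    (h1 : IsSquare (kap e e' e'' P * kap e e' e'' Q))
    (h2 : IsSquare (kap e' e e'' P * kap e' e e'' Q)) :
    ∃ R : W.Point, P - Q = R + R := by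
  have s1 : IsSquare (kap e e' e'' (P - Q)) := by
    have h3 := kap_add h P (-Q)
    rw [kap_neg h, ← sub_eq_add_neg] at h3
    exact half_quot (mul_ne_zero (kap_ne_zero h P) (kap_ne_zero h Q)) h3 h1
  have s2 : IsSquare (kap e' e e'' (P - Q)) := by
    have h3 := kap_add (half_swap h) P (-Q)
    rw [kap_neg (half_swap h), ← sub_eq_add_neg] at h3
    exact half_quot (mul_ne_zero (kap_ne_zero (half_swap h) P) (kap_ne_zero (half_swap h) Q)) h3 h2
  have s3 : IsSquare (kap e'' e e' (P - Q)) := by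
    have h3 := kap_prod h (P - Q)
    rw [mul_comm] at h3
    exact half_quot (mul_ne_zero (kap_ne_zero h _) (kap_ne_zero (half_swap h) _)) h3 (s1.mul s2)
  obtain ⟨R, hR⟩ := two_dvd h (P - Q) s1 s2 s3
  exact ⟨R, hR.symm⟩

theorem roots_EC {A B : ℚ} (hA : A ≠ 0) (hB : B ≠ 0) (hAB : A ≠ B) : Roots (EC A B) 0 A B := by
  refine ⟨rfl, rfl, ?_, ?_, ?_, hA.symm, hB.symm, hAB⟩
  · show -(A + B) = _
    ring
  · show A * B = _
    ring
  · show (0 : ℚ) = _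
    ring

theorem diff_two_EC {A B : ℚ} (hA : A ≠ 0) (hB : B ≠ 0) (hAB : A ≠ B) (P Q : (EC A B).Point)
    (h1 : IsSquare (k1 P * k1 Q)) (h2 : IsSquare (k2 P * k2 Q)) :
    ∃ R : (EC A B).Point, P - Q = R + R :=
  diff_two (roots_EC hA hB hAB) P Q h1 h2

end Pool.Agent.H77.SV
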