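import Pool.Agent.H77.SV.LocM
import Pool.Agent.H77.SV.Half
import Pool.Agent.H77.SV.Cst

/-!
# Module MatM (about 180 lines): the local relation at a prime of type `I_{2m}`, `m` odd.

PROOF. `a, b, c` = exponents `ea i, eb i, ec i`; exactly one of them is nonzero, and it is odd.
`val_prod` gives `v(A) = a`, `v(B) = b`, `v(A - B) = v(C) = c` (`A_sub_B`).
`C_i = CC (ty i)` is `{0, c₀}`; for `c = 0` the relation is `0 = 0`; and `c₀ . v = 0` for `v ∈ VV`, so the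
term with `R` vanishes.
* `a` odd (`ty = some 0`): `loc_mult` with `(e, e', e'') = (0, A, B)` (`roots_EC`): `kap 0 A B = k1`,
  `kap A 0 B = k2`, so `vb k1 = vb k2 =: s`, and for `κ'' = kap B 0 A`: `vb κ'' = 0`,
  `lb κ'' = lb (0 - B) s`. By `kap_prod`, `k1 k2 κ''` is a square: `lb k1 + lb k2 = lb κ'' = lb (-B) s`.
  Use `cst` with `g = -be`: `-B = (-be) prod l^(eb)`,
  `kc i (-be) eb = -(kc i be eb)`; this is `N.1.1`. `c₀ = (1,1)`, `v = (s,s)`:
  `c₀ . (N v) = N.1.1 s + (N.1.2 + N.2.1 + N.2.2) s` with `N.1.2 = bt p 1 = 0` etc. OK.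
* `b` odd (`ty = some 1`): `loc_mult` with `(e, e', e'') = (0, B, A)` (roots of the same curve,
  `Roots (EC A B) 0 B A` by commuting): `kap 0 B A = kap 0 A B = k1` (`(0-A)(0-B)` symmetric),
  `κ'' = kap A 0 B = k2`: `vb k2 = 0`, `lb k2 = lb (0 - A) s`, `s = vb k1`. `c₀ = (0,1)`, `v = (s, 0)`,
  `N.2.1 = bt p (-kA)`.
* `c` odd (`ty = some 2`): `(e, e', e'') = (A, B, 0)`: `κ'' = kap 0 A B = k1`: `vb k1 = 0`,
  `lb k1 = lb (A - 0) s`, `s = vb (kap A B 0) = vb k2` (`kap A B 0 = kap A 0 B`). `c₀ = (1,0)`,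
  `v = (0, s)`, `N.1.2 = bt p kA`.
-/

set_option autoImplicit false

namespace Pool.Agent.H77.SV

open Finset

variable {k : ℕ} {F : Fam k} {w : ℕ}

private lemma mm_two (t : ZMod 2) : t + t = 0 := CharTwo.add_self_eq_zero t

private lemma mm_comm {W : WeierstrassCurve.Affine ℚ} (e e' e'' : ℚ) (P : W.Point) :
    kap e e' e'' P = kap e e'' e' P := by
  cases P with
  | zero => rfl
  | some x y h =>
    change (if x = e then (e - e') * (e - e'') else x - e) =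
      (if x = e then (e - e'') * (e - e') else x - e)
    rw [mul_comm]

private lemma mm_kc (F : Fam k) (i : Fin k) (g : ℤ) (e : Fin k → ℕ) :
    F.kc i (-g) e = -(F.kc i g e) := by
  unfold Fam.kc
  rw [neg_mul]

private lemma mm_cop {p : ℕ} (hp : p.Prime) {m n : ℤ} (hc : IsCoprime m n) :
    ¬ ((p : ℤ) ∣ m ∧ (p : ℤ) ∣ n) := by
  rintro ⟨h1, h2⟩
  have h3 := hc.isUnit_of_dvd' h1 h2
  have h4 := Int.isUnit_iff.1 h3
  have h5 := hp.two_le
  omega

theorem rel_mult (hw : F.Big w) {p : ℕ} (hp : p.Prime) (hpw : w < p) {m n : ℤ}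
    (hc : IsCoprime m n) (hP : F.P m n ≠ 0) {i : Fin k} (h1 : (p : ℤ) ∣ F.l i m n)
    (h2 : ¬ (p : ℤ) ^ 2 ∣ F.l i m n) (hi : Mult (F.ea i) (F.eb i) (F.ec i))
    (Q : (F.E m n).Point) :
    (vb p (k1 Q), vb p (k2 Q)) ∈ VV (F.ty i) ∧ ∀ c ∈ CC (F.ty i),
      dot c (lb p (k1 Q), lb p (k2 Q)) =
        lb p ((F.R i m n : ℤ) : ℚ) * dot c (vb p (k1 Q), vb p (k2 Q)) +
        dot c (mat (F.N i p) (vb p (k1 Q), vb p (k2 Q))) := by
  have hcop := mm_cop hp hc
  obtain ⟨hA0, hB0, hC0, hAB⟩ := abc_ne_zero hP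
  obtain ⟨hal, hbe, hga⟩ := coef_ndvd hw hpw
  have vA : padicValRat p ((F.A m n : ℤ) : ℚ) = F.ea i := val_prod hw hp hpw hcop h1 h2 hal F.ea
  have vB : padicValRat p ((F.B m n : ℤ) : ℚ) = F.eb i := val_prod hw hp hpw hcop h1 h2 hbe F.eb
  have vC : padicValRat p ((F.C m n : ℤ) : ℚ) = F.ec i := val_prod hw hp hpw hcop h1 h2 hga F.ec
  have hABC : ((F.A m n : ℤ) : ℚ) - ((F.B m n : ℤ) : ℚ) = ((F.C m n : ℤ) : ℚ) := by
    rw [← A_sub_B]
    push_cast
    ring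
  have hA0' : ((F.A m n : ℤ) : ℚ) ≠ 0 := by exact_mod_cast hA0
  have hB0' : ((F.B m n : ℤ) : ℚ) ≠ 0 := by exact_mod_cast hB0
  have hAB' : ((F.A m n : ℤ) : ℚ) ≠ ((F.B m n : ℤ) : ℚ) := by exact_mod_cast hAB
  have hR := roots_EC hA0' hB0' hAB'
  have ev : Even (∑ j, F.ea j) ∧ Even (∑ j, F.eb j) := by
    rw [F.hea, F.heb]
    exact ⟨F.hd, F.hd⟩
  have hone : bt p 1 = 0 := bt_one p
  -- the last descent value
  have hk1 : k1 Q ≠ 0 := kap_ne_zero hR Q
  have hR2 : Roots (F.E m n) ((F.A m n : ℤ) : ℚ) 0 ((F.B m n : ℤ) : ℚ) :=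
    ⟨hR.a1, hR.a3, by rw [hR.a2]; ring, by rw [hR.a4]; ring, by rw [hR.a6]; ring, hR.n1.symm,
      hR.n3, hR.n2⟩
  have hk2 : k2 Q ≠ 0 := kap_ne_zero hR2 Q
  rcases hi with ⟨ha, hb, hcc⟩ | ⟨ha, hb, hcc⟩ | ⟨ha, hb, hcc⟩
  · have hty : F.ty i = some 0 := by
      unfold Fam.ty
      rw [if_pos ⟨hb, hcc⟩]
    have hN : F.N i p = ((bt p (-(F.kc i F.be F.eb)), 0), (0, 0)) := by
      unfold Fam.N Fam.K
      rw [hty]
      simp only [hone]
    have hpos : 0 < F.ea i := ha.pos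
    obtain ⟨l1, l2, l3⟩ := loc_mult hR hp
      (by rw [zero_sub, padicValRat.neg, vA]; exact_mod_cast hpos)
      (by rw [zero_sub, padicValRat.neg, vA]; exact_mod_cast ha)
      (by rw [zero_sub, padicValRat.neg, vB, hb]; rfl)
      (by rw [hABC, vC, hcc]; rfl) Q
    have hR3 : Roots (F.E m n) ((F.B m n : ℤ) : ℚ) 0 ((F.A m n : ℤ) : ℚ) :=
      ⟨hR.a1, hR.a3, by rw [hR.a2]; ring, by rw [hR.a4]; ring, by rw [hR.a6]; ring, hR.n2.symm,
        hR.n3.symm, hR.n1⟩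
    have hk3 := kap_ne_zero hR3 Q
    have hsq := lb_of_isSquare hp (mul_ne_zero hk1 hk2) hk3 (kap_prod hR Q)
    rw [lb_mul hp hk1 hk2, l2, zero_sub] at hsq
    have hcst : lb p (-((F.B m n : ℤ) : ℚ)) = bt p (-(F.kc i F.be F.eb)) := by
      have h5 := cst hw hp hpw hcop h1 h2 (g := -F.be) (by rwa [dvd_neg]) F.eb ev.2
        (by rw [hb]; exact Even.zero)
      rw [mm_kc] at h5
      rw [← h5]
      congr 1
      unfold Fam.B
      push_cast
      ring
    rw [hcst] at hsq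
    have e1 : vb p (k1 Q) = vb p (k2 Q) := l3
    have hV : VV (some 0) = {(0, 0), (1, 1)} := rfl
    have hCC : CC (some 0) = {(0, 0), (1, 1)} := rfl
    change lb p (k1 Q) + lb p (k2 Q) = _ * vb p (k1 Q) at hsq
    rw [hty, hV, hCC, hN, ← e1]
    generalize vb p (k1 Q) = s at *
    generalize lb p (k1 Q) = x at *
    generalize lb p (k2 Q) = y at *
    generalize bt p (-(F.kc i F.be F.eb)) = z at *
    generalize lb p ((F.R i m n : ℤ) : ℚ) = r at *
    clear * - hsq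
    revert s x y z r
    decide
  · have hb0 : F.eb i ≠ 0 := hb.pos.ne'
    have hty : F.ty i = some 1 := by
      unfold Fam.ty
      rw [if_neg (fun h => hb0 h.1), if_pos ⟨ha, hcc⟩]
    have hN : F.N i p = ((0, 0), (bt p (-(F.kc i F.al F.ea)), 0)) := by
      unfold Fam.N Fam.K
      rw [hty]
      simp only [hone]
    have hpos : 0 < F.eb i := hb.pos
    have hR3 : Roots (F.E m n) 0 ((F.B m n : ℤ) : ℚ) ((F.A m n : ℤ) : ℚ) :=
      ⟨hR.a1, hR.a3, by rw [hR.a2]; ring, by rw [hR.a4]; ring, by rw [hR.a6]; ring, hR.n2,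
        hR.n1, hR.n3.symm⟩
    obtain ⟨l1, l2, l3⟩ := loc_mult hR3 hp
      (by rw [zero_sub, padicValRat.neg, vB]; exact_mod_cast hpos)
      (by rw [zero_sub, padicValRat.neg, vB]; exact_mod_cast hb)
      (by rw [zero_sub, padicValRat.neg, vA, ha]; rfl)
      (by rw [← neg_sub, padicValRat.neg, hABC, vC, hcc]; rfl) Q
    have hcst : lb p (-((F.A m n : ℤ) : ℚ)) = bt p (-(F.kc i F.al F.ea)) := by
      have h5 := cst hw hp hpw hcop h1 h2 (g := -F.al) (by rwa [dvd_neg]) F.ea ev.1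
        (by rw [ha]; exact Even.zero)
      rw [mm_kc] at h5
      rw [← h5]
      congr 1
      unfold Fam.A
      push_cast
      ring
    rw [zero_sub, hcst, mm_comm 0] at l2
    change vb p (k2 Q) = 0 at l1
    change lb p (k2 Q) = _ * vb p (k1 Q) at l2
    have hV : VV (some 1) = {(0, 0), (1, 0)} := rfl
    have hCC : CC (some 1) = {(0, 0), (0, 1)} := rfl
    rw [hty, hV, hCC, hN, l1, l2]
    generalize vb p (k1 Q) = s at *
    generalize lb p (k1 Q) = x at *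
    generalize bt p (-(F.kc i F.al F.ea)) = z at *
    generalize lb p ((F.R i m n : ℤ) : ℚ) = r at *
    clear * -
    revert s x z r
    decide
  · have hc0 : F.ec i ≠ 0 := hcc.pos.ne'
    have hty : F.ty i = some 2 := by
      unfold Fam.ty
      rw [if_neg (fun h => hc0 h.2), if_neg (fun h => hc0 h.2), if_pos ⟨ha, hb⟩]
    have hN : F.N i p = ((0, bt p (F.kc i F.al F.ea)), (0, 0)) := by
      unfold Fam.N Fam.K
      rw [hty]
      simp only [hone]
    have hpos : 0 < F.ec i := hcc.pos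
    have hR3 : Roots (F.E m n) ((F.A m n : ℤ) : ℚ) ((F.B m n : ℤ) : ℚ) 0 :=
      ⟨hR.a1, hR.a3, by rw [hR.a2]; ring, by rw [hR.a4]; ring, by rw [hR.a6]; ring, hR.n3,
        hR.n1.symm, hR.n2.symm⟩
    obtain ⟨l1, l2, l3⟩ := loc_mult hR3 hp
      (by rw [hABC, vC]; exact_mod_cast hpos)
      (by rw [hABC, vC]; exact_mod_cast hcc)
      (by rw [sub_zero, vA, ha]; rfl)
      (by rw [sub_zero, vB, hb]; rfl) Q
    have hcst : lb p ((F.A m n : ℤ) : ℚ) = bt p (F.kc i F.al F.ea) :=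
      cst hw hp hpw hcop h1 h2 hal F.ea ev.1 (by rw [ha]; exact Even.zero)
    rw [sub_zero, hcst, mm_comm ((F.A m n : ℤ) : ℚ)] at l2
    change vb p (k1 Q) = 0 at l1
    change lb p (k1 Q) = _ * vb p (k2 Q) at l2
    have hV : VV (some 2) = {(0, 0), (0, 1)} := rfl
    have hCC : CC (some 2) = {(0, 0), (1, 0)} := rfl
    rw [hty, hV, hCC, hN, l1, l2]
    generalize vb p (k2 Q) = s at *
    generalize lb p (k2 Q) = x at *
    generalize bt p (F.kc i F.al F.ea) = z at *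
    generalize lb p ((F.R i m n : ℤ) : ℚ) = r at *
    clear * -
    revert s x z r
    decide

end Pool.Agent.H77.SV
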