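import Pool.Agent.H77.SV.AddSub
import Mathlib.NumberTheory.Height.EllipticCurve
import Mathlib.NumberTheory.Height.NumberField
import Mathlib.GroupTheory.Descent

/-!
# Module Mw (about 150 lines): Mordell-Weil from the finite index of `2E`.

PROOF. Apply `AddCommGroup.fg_of_descent'` (Mathlib, GroupTheory/Descent) with
`h P = Height.logHeight P.xRep`?  (`P.xRep : Fin 2 → ℚ` is `![x, 1]` for an affine point and
`![1, 0]` for `0`.)
* `0 ≤ h` : `Height.zero_le_logHeight` (or the like).
* parallelogram law: `Height.abs_logHeight_sym2_sub_le ℚ` gives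
  `|logHeight (P.sym2x Q) - (h P + h Q)| ≤ C₁` (`sym2x P Q = ![Px 0 * Qx 0, Px 0 * Qx 1 + Px 1 * Qx 0,
  Px 1 * Qx 1]`), `abs_logHeight_addSubMap_sub_two_mul_logHeight_le (EC A B)` gives
  `|logHeight (F (P.sym2x Q)) - 2 logHeight (P.sym2x Q)| ≤ C₂`, and by `addSub_rel`
  `logHeight (F (P.sym2x Q)) = logHeight ((P+Q).sym2x (P-Q))` (`Height.logHeight_smul_eq_logHeight`,
  scaling by `t ≠ 0`), which is within `C₁` of `h (P+Q) + h (P-Q)`. Add up.
* `Northcott h`: the set of `P` with `h P ≤ c` is finite: the set of `x` with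
  `logHeight₁ x ≤ c` is finite (instance `Northcott (Height.logHeight₁ (K := ℚ))`, Mathlib
  NumberTheory/Height/NumberField), for every `x` there are at most two `y` with
  `y^2 = x (x-A)(x-B)`, plus the point `0`. (`Height.logHeight₁_eq_logHeight` or similar relates
  `logHeight₁ x` and `logHeight ![x, 1]`.)
* `H₁` is the hypothesis.
-/

set_option autoImplicit false

namespace Pool.Agent.H77.SV

open WeierstrassCurve

/-- the naive height -/
private noncomputable def mwH (A B : ℚ) (P : (EC A B).Point) : ℝ := Height.logHeight P.xRep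

private theorem mw_eta (v : Fin 2 → ℚ) : ![v 0, v 1] = v := by
  funext i
  fin_cases i <;> rfl

private theorem mw_northcott (A B : ℚ) : Northcott (mwH A B) where
  finite_le c := by
    set s : Set (Fin 2 → ℚ) := {![1, 0]} ∪
      (fun x : ℚ => ![x, 1]) '' {x : ℚ | Height.logHeight₁ x ≤ c} with hs
    have hsf : s.Finite := by
      refine (Set.finite_singleton _).union (Set.Finite.image _ ?_)
      exact Northcott.finite_le (h := Height.logHeight₁ (K := ℚ)) c
    have hsub : {P : (EC A B).Point | mwH A B P ≤ c} ⊆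
        (fun P : (EC A B).Point => P.xRep) ⁻¹' s := by
      intro P hP
      have hP' : Height.logHeight P.xRep ≤ c := hP
      rcases P with _ | ⟨x, y, h⟩
      · left
        rfl
      · right
        refine ⟨x, ?_, rfl⟩
        change Height.logHeight₁ x ≤ c
        rw [Height.logHeight₁_eq_logHeight]
        exact hP'
    refine Set.Finite.subset (Set.Finite.preimage' hsf fun b _ => ?_) hsub
    by_cases hb : ∃ P : (EC A B).Point, P.xRep = b
    · obtain ⟨P, hP⟩ := hb
      refine Set.Finite.subset (Set.toFinite {P, -P}) fun Q hQ => ?_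
      have hQ' : Q.xRep = b := hQ
      rcases Affine.Point.eq_or_eq_neg_of_xRep_eq_xRep (hQ'.trans hP.symm) with h | h
      · exact Or.inl h
      · exact Or.inr h
    · refine Set.Finite.subset Set.finite_empty fun Q hQ => ?_
      exact hb ⟨Q, hQ⟩

theorem mordell_weil {A B : ℚ} (hA : A ≠ 0) (hB : B ≠ 0) (hAB : A ≠ B)
    (h : (nsmulAddMonoidHom (α := (EC A B).Point) 2).range.FiniteIndex) :
    AddGroup.FG (EC A B).Point := by
  have : WeierstrassCurve.IsElliptic (EC A B) := ec_elliptic hA hB hAB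
  have : Northcott (mwH A B) := mw_northcott A B
  obtain ⟨C₁, hC₁⟩ := Height.abs_logHeight_sym2_sub_le ℚ
  obtain ⟨C₂, hC₂⟩ := abs_logHeight_addSubMap_sub_two_mul_logHeight_le (EC A B)
  have key : ∀ P Q : (EC A B).Point,
      |Height.logHeight (P.sym2x Q) - (mwH A B P + mwH A B Q)| ≤ C₁ := by
    intro P Q
    have h1 := @hC₁ (P.xRep 0) (P.xRep 1) (Q.xRep 0) (Q.xRep 1)
      (by rw [mw_eta]; exact Affine.Point.xRep_ne_zero P)
      (by rw [mw_eta]; exact Affine.Point.xRep_ne_zero Q)
    rw [mw_eta, mw_eta] at h1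
    exact h1
  refine AddCommGroup.fg_of_descent' (h := mwH A B) (C := 3 * C₁ + C₂) h
    (fun P => Height.logHeight_nonneg _) fun P Q => ?_
  obtain ⟨t, ht, hrel⟩ := addSub_rel hA hB hAB P Q
  have h2 := hC₂ (P.sym2x Q)
  rw [hrel, Height.logHeight_smul_eq_logHeight _ ht] at h2
  have h3 := key P Q
  have h4 := key (P + Q) (P - Q)
  rw [abs_le] at h2 h3 h4 ⊢
  obtain ⟨a1, a2⟩ := h2
  obtain ⟨b1, b2⟩ := h3
  obtain ⟨c1, c2⟩ := h4
  constructor <;> linarith

end Pool.Agent.H77.SV
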