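import Pool.Agent.H77.SV.MatS
import Pool.Agent.H77.SV.MatM
import Pool.Agent.H77.SV.Supp
import Pool.Agent.H77.SV.LcO
import Pool.Agent.H77.SV.Mw
import Pool.Agent.H77.SV.Alg

/-!
# Module Ineq (about 250 lines): `2^rank ≤ (2 * 2^#Bad)^2 * #Sel_z(m, n)`.

PROOF. `S = Pr w z`, `Bd = F.Bad w z m n`, `A = F.A m n` etc. (nonzero, `abc_ne_zero`). For a point `Q` let
`f Q = (sgn, b, v)` with `sgn = (k1 Q < 0, k2 Q < 0) : Bool × Bool` (`decide`),
`b : Bd → V2`, `b q = (vb q (k1 Q), vb q (k2 Q))`, and `v : S → V2`, `v p = (vb p (k1 Q), vb p (k2 Q))`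
if the state `(F.st m n p).join` is not `none`, and `v p = 0` otherwise.
(1) If `f Q = f Q'` then `∃ a, Q - Q' = a + a`: by `diff_two_EC` it suffices that `k1 Q * k1 Q'`,
`k2 Q * k2 Q'` are squares, by `isSquare_mul_of_vb` that they have the same sign and the same `vb q` for
all primes `q`: if `q ∈ Bd` by `b`; if `q ∈ S` with exact state by `v`; otherwise `q ∤ A B (A-B)`:
if `q ≤ w` then `q ∈ Pr 0 w ⊆ Bd`; if `q > w` and `q | A B (A - B)` then `q | P` (`dvd_P_of_dvd`), and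
`q > z` or `q^2 | P` gives `q ∈ Bd`, the rest is `q ∈ S` with exact state. By `supp` both `vb` are `0`.
(2) Let `X` be the finite type of all triples, `V = univ.filter (∃ Q, f Q = ·)`. `index_of_fibres` and
`mordell_weil` give `AddGroup.FG`, hence `Module.Finite ℤ` (`Module.Finite.iff_addGroup_fg`), and
`two_pow_rank_le` gives `2^finrank ≤ #V`.
(3) `#V ≤ 2^2 * 4^#Bd * #Sel`: for fixed `(sgn, b)` the set of `v` with `(sgn, b, v) ∈ V` has at most
`#Sel` elements: fix one of them, `v₀` (from `Q₀`); the map `v ↦ v - v₀` sends it injectively into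
`F.SelZ w z m n`. Indeed let `v` come from `Q`. At `p ∈ S` with state `none` (joined): `v p = v₀ p = 0`.
At `p ∈ S` with exact state `some (i, ρ)`, `i = idx`, `ρ = lb p (R i m n)`: `p | l_i` (`idx_dvd`),
`p^2 ∤ l_i` (`sq_dvd_iff`), so `rel_star` / `rel_mult` hold for `Q`. By `lb_eq_sum` for `x = k1 Q`,
`O = Bd ∪ {q ∈ S exact}` (a set of primes containing all primes with `vb ≠ 0`, see (1)):
`lb p (k1 Q) = [k1 Q < 0] bt p (-1) + sum_{q ∈ O, q ≠ p} vb q (k1 Q) bt p q`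
`= (function of sgn, b, p) + (sum_{q ∈ S, q ≠ p} bt p q (v q).1)`, the same for the second coordinates,
i.e. `(lb p (k1 Q), lb p (k2 Q)) = const + lin S v p` with a constant which depends only on
`(sgn, b, p)` (`Bd` and the exact primes of `S` are disjoint; non exact primes of `S` have `v q = 0`).
Subtract the relations for `Q` and `Q₀`: `dot`, `mat`, `lin` are additive in `v`; membership in `VV` is
preserved because `VV t` is closed under addition (and `-x = x`).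
(4) `2^2 * 4^#Bd * #Sel = (2 * 2^#Bd)^2 * #Sel`.
-/

set_option autoImplicit false

namespace Pool.Agent.H77.SV

open Finset

variable {k : ℕ} {F : Fam k} {w : ℕ}

private lemma ineq_dot_sub (c v u : V2) : dot c (v - u) = dot c v - dot c u := by
  simp only [dot, Prod.fst_sub, Prod.snd_sub]; ring

private lemma ineq_dot_add (c v u : V2) : dot c (v + u) = dot c v + dot c u := by
  simp only [dot, Prod.fst_add, Prod.snd_add]; ring

private lemma ineq_mat_sub (N : V2 × V2) (v u : V2) : mat N (v - u) = mat N v - mat N u := by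
  simp only [mat, ineq_dot_sub]; rfl

private lemma ineq_lin_sub (S : Finset ℕ) (v u : S → V2) (p : S) :
    lin S (v - u) p = lin S v p - lin S u p := by
  unfold lin
  rw [← Finset.sum_sub_distrib]
  exact Finset.sum_congr rfl fun q _ => by rw [Pi.sub_apply, smul_sub]

private lemma ineq_VV_sub : ∀ t : Ty, ∀ a ∈ VV t, ∀ b ∈ VV t, a - b ∈ VV t := by
  decide

private lemma ineq_bad_prime {z : ℕ} {m n : ℤ} {q : ℕ} (hq : q ∈ F.Bad w z m n) : q.Prime := by
  unfold Fam.Bad at hq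
  rcases Finset.mem_union.1 hq with h | h
  · exact (Finset.mem_filter.1 h).2
  · exact Nat.prime_of_mem_primeFactors (Finset.mem_filter.1 h).1

private lemma ineq_st {z : ℕ} {m n : ℤ} {q : ℕ} (hP : F.P m n ≠ 0) (hq : q ∈ Pr w z) :
    ((F.st m n q).join ≠ none) ↔ ((q : ℤ) ∣ F.P m n ∧ q ∉ F.Bad w z m n) := by
  have hq1 := Finset.mem_filter.1 hq
  have hq2 := Finset.mem_Ioc.1 hq1.1
  have hbad : q ∈ F.Bad w z m n ↔ ((q : ℤ) ∣ F.P m n ∧ (q : ℤ) ^ 2 ∣ F.P m n) := by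
    unfold Fam.Bad
    rw [Finset.mem_union, Finset.mem_filter, Nat.mem_primeFactors]
    constructor
    · rintro (h | h)
      · have := Finset.mem_Ioc.1 (Finset.mem_filter.1 h).1
        omega
      · rcases h.2 with h' | h'
        · omega
        · exact ⟨dvd_trans (dvd_pow_self _ two_ne_zero) h'.2, h'.2⟩
    · rintro ⟨h1, h2⟩
      refine Or.inr ⟨⟨hq1.2, ?_, Int.natAbs_ne_zero.2 hP⟩, Or.inr ⟨hq2.1, h2⟩⟩
      exact Int.natCast_dvd.1 h1
  rw [hbad]
  unfold Fam.st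
  by_cases h1 : (q : ℤ) ∣ F.P m n
  · by_cases h2 : (q : ℤ) ^ 2 ∣ F.P m n
    · simp [h1, h2]
    · simp [h1, h2]
  · simp [h1]

private lemma ineq_supp (hw : F.Big w) {m n : ℤ} (hP : F.P m n ≠ 0) (z : ℕ)
    (Q : (F.E m n).Point) {q : ℕ} (hq : q.Prime) (h1 : q ∉ F.Bad w z m n)
    (h2 : ¬ (q ∈ Pr w z ∧ (F.st m n q).join ≠ none)) :
    vb q (k1 Q) = 0 ∧ vb q (k2 Q) = 0 := by
  obtain ⟨hA, hB, _, hAB⟩ := abc_ne_zero hP
  refine supp hA hB hAB hq (fun hd => ?_) Q
  by_cases hqw : q ≤ w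
  · refine h1 (Finset.mem_union_left _ (Finset.mem_filter.2 ⟨Finset.mem_Ioc.2 ⟨hq.pos, hqw⟩, hq⟩))
  · push Not at hqw
    have hd' := dvd_P_of_dvd hw hq hqw hd
    have hmem : q ∈ (F.P m n).natAbs.primeFactors :=
      Nat.mem_primeFactors.2 ⟨hq, Int.natCast_dvd.1 hd', Int.natAbs_ne_zero.2 hP⟩
    have h3 : ¬ (z < q ∨ (w < q ∧ (q : ℤ) ^ 2 ∣ F.P m n)) := fun h =>
      h1 (Finset.mem_union_right _ (Finset.mem_filter.2 ⟨hmem, h⟩))
    push Not at h3
    have hS : q ∈ Pr w z := Finset.mem_filter.2 ⟨Finset.mem_Ioc.2 ⟨hqw, h3.1⟩, hq⟩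
    exact h2 ⟨hS, (ineq_st hP hS).2 ⟨hd', h1⟩⟩

/-- the vector of valuations of a point -/
private noncomputable def ineqV (F : Fam k) (w z : ℕ) {m n : ℤ} (Q : (F.E m n).Point) :
    Pr w z → V2 := fun p =>
  if (F.st m n p).join = none then 0 else (vb p (k1 Q), vb p (k2 Q))

/-- the bit of a descent value -/
private lemma ineq_lb {m n : ℤ} (hP : F.P m n ≠ 0) (z : ℕ) {x : ℚ} (hx : x ≠ 0)
    (u : Pr w z → ZMod 2)
    (hu : ∀ p : Pr w z, u p = if (F.st m n p).join = none then 0 else vb p x)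
    (hs : ∀ q : ℕ, q.Prime → q ∉ F.Bad w z m n →
      ¬ (q ∈ Pr w z ∧ (F.st m n q).join ≠ none) → vb q x = 0)
    (p : Pr w z) (hp : (F.st m n p).join ≠ none) :
    lb p x = ((if x < 0 then bt p (-1) else 0) + ∑ q ∈ F.Bad w z m n, vb q x * bt p q) +
      ∑ q ∈ univ.erase p, bt p q * u q := by
  classical
  set T := (Pr w z).filter fun q => (F.st m n q).join ≠ none with hT
  have hpp : (p : ℕ).Prime := (Finset.mem_filter.1 p.2).2
  have hpB : (p : ℕ) ∉ F.Bad w z m n := ((ineq_st hP p.2).1 hp).2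
  have hdisj : Disjoint (F.Bad w z m n) T := by
    rw [Finset.disjoint_left]
    intro q hq hqT
    have h1 := Finset.mem_filter.1 hqT
    exact ((ineq_st hP h1.1).1 h1.2).2 hq
  have h := lb_eq_sum hx (F.Bad w z m n ∪ T) (by
      intro q hq
      rcases Finset.mem_union.1 hq with h | h
      · exact ineq_bad_prime h
      · exact (Finset.mem_filter.1 (Finset.mem_filter.1 h).1).2) (by
      intro q hq hqO
      rw [Finset.mem_union, not_or] at hqO
      exact hs q hq hqO.1 fun h' => hqO.2 (Finset.mem_filter.2 h')) hpp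
  rw [h, add_assoc]
  congr 1
  rw [Finset.erase_union_distrib, Finset.erase_eq_of_notMem hpB,
    Finset.sum_union (Finset.disjoint_of_subset_right (Finset.erase_subset _ _) hdisj)]
  congr 1
  have h2 : ∑ q ∈ T.erase p, vb q x * bt p q = ∑ q ∈ (Pr w z).erase p,
      (if (F.st m n q).join = none then 0 else vb q x * bt p q) := by
    rw [hT, ← Finset.filter_erase, Finset.sum_filter]
    refine Finset.sum_congr rfl fun q _ => ?_
    by_cases h' : (F.st m n q).join = none <;> simp [h']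
  rw [h2]
  have h3 : ∑ q ∈ (univ : Finset (Pr w z)).erase p, bt p q * u q =
      ∑ q ∈ ((univ : Finset (Pr w z)).erase p).map (Function.Embedding.subtype _),
        (if (F.st m n q).join = none then 0 else vb q x * bt p q) := by
    rw [Finset.sum_map]
    refine Finset.sum_congr rfl fun q _ => ?_
    rw [hu q]
    by_cases h' : (F.st m n q).join = none
    · simp [h']
    · simp [h', mul_comm]
  rw [h3]
  refine Finset.sum_congr ?_ fun q _ => rfl
  ext q
  simp only [Finset.mem_erase, Finset.mem_map, Finset.mem_univ, and_true,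
    Function.Embedding.coe_subtype]
  constructor
  · rintro ⟨h4, h5⟩
    exact ⟨⟨q, h5⟩, fun h => h4 (by rw [← h]), rfl⟩
  · rintro ⟨a, h4, rfl⟩
    exact ⟨fun h => h4 (Subtype.ext h), a.2⟩

private lemma ineq_k1 {m n : ℤ} (hP : F.P m n ≠ 0) (Q : (F.E m n).Point) :
    k1 Q ≠ 0 ∧ k2 Q ≠ 0 := by
  obtain ⟨hA, hB, _, hAB⟩ := abc_ne_zero hP
  have hA' : ((F.A m n : ℤ) : ℚ) ≠ 0 := Int.cast_ne_zero.2 hA
  have hB' : ((F.B m n : ℤ) : ℚ) ≠ 0 := Int.cast_ne_zero.2 hB
  have hAB' : ((F.A m n : ℤ) : ℚ) ≠ ((F.B m n : ℤ) : ℚ) := fun h => hAB (Int.cast_injective h)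
  have hr := roots_EC hA' hB' hAB'
  refine ⟨kap_ne_zero hr Q, kap_ne_zero (e := ((F.A m n : ℤ) : ℚ)) (e' := 0)
    (e'' := ((F.B m n : ℤ) : ℚ)) ⟨hr.a1, hr.a3, ?_, ?_, ?_, hr.n1.symm, hr.n3, hr.n2⟩ Q⟩
  · rw [hr.a2]; ring
  · rw [hr.a4]; ring
  · rw [hr.a6]; ring

/-- the relation at a prime with a state -/
private lemma ineq_rel (hw : F.Big w) {m n : ℤ} (hc : IsCoprime m n) (hP : F.P m n ≠ 0) (z : ℕ)
    (Q : (F.E m n).Point) (p : Pr w z) {x : Fin k × ZMod 2} (hx : (F.st m n p).join = some x) :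
    (vb p (k1 Q), vb p (k2 Q)) ∈ VV (F.ty x.1) ∧ ∀ c ∈ CC (F.ty x.1),
      dot c (lb p (k1 Q), lb p (k2 Q)) =
        x.2 * dot c (vb p (k1 Q), vb p (k2 Q)) +
        dot c (mat (F.N x.1 p) (vb p (k1 Q), vb p (k2 Q))) := by
  have hp1 := Finset.mem_filter.1 p.2
  have hpp : (p : ℕ).Prime := hp1.2
  have hpw : w < (p : ℕ) := (Finset.mem_Ioc.1 hp1.1).1
  have hcc : ¬ (((p : ℕ) : ℤ) ∣ m ∧ ((p : ℕ) : ℤ) ∣ n) := by
    rintro ⟨h1, h2⟩
    have h3 := (Int.isCoprime_iff_gcd_eq_one.1 hc)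
    have h4 : ((p : ℕ) : ℤ) ∣ (Int.gcd m n : ℤ) := Int.dvd_coe_gcd h1 h2
    rw [h3] at h4
    have h5 : (p : ℕ) ∣ 1 := by exact_mod_cast h4
    exact hpp.one_lt.ne' (Nat.dvd_one.1 h5)
  have hst : ((p : ℕ) : ℤ) ∣ F.P m n ∧ ¬ ((p : ℕ) : ℤ) ^ 2 ∣ F.P m n ∧
      x = (F.idx p m n, lb p ((F.R (F.idx p m n) m n : ℤ) : ℚ)) := by
    unfold Fam.st at hx
    by_cases h1 : ((p : ℕ) : ℤ) ∣ F.P m n
    · by_cases h2 : ((p : ℕ) : ℤ) ^ 2 ∣ F.P m n
      · simp [h1, h2] at hx
      · rw [if_pos h1, if_neg h2] at hx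
        refine ⟨h1, h2, ?_⟩
        have h3 : (some (some (F.idx p m n, lb p ((F.R (F.idx p m n) m n : ℤ) : ℚ))) :
          Option (Option (Fin k × ZMod 2))).join =
            some (F.idx p m n, lb p ((F.R (F.idx p m n) m n : ℤ) : ℚ)) := rfl
        rw [h3] at hx
        exact (Option.some.inj hx).symm
    · simp [h1] at hx
  obtain ⟨h1, h2, rfl⟩ := hst
  have h3 := idx_dvd hpp h1
  have h4 : ¬ ((p : ℕ) : ℤ) ^ 2 ∣ F.l (F.idx p m n) m n := fun h =>
    h2 ((sq_dvd_iff hw hpp hpw hcc).2 ⟨_, h⟩)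
  rcases F.htype (F.idx p m n) with h | h
  · exact rel_star hw hpp hpw hc hP h3 h4 h Q
  · exact rel_mult hw hpp hpw hc hP h3 h4 h Q

private lemma ineq_sel (hw : F.Big w) {m n : ℤ} (hc : IsCoprime m n) (hP : F.P m n ≠ 0) (z : ℕ)
    (Q Q₀ : (F.E m n).Point) (hs1 : k1 Q < 0 ↔ k1 Q₀ < 0) (hs2 : k2 Q < 0 ↔ k2 Q₀ < 0)
    (hb : ∀ q ∈ F.Bad w z m n, vb q (k1 Q) = vb q (k1 Q₀) ∧ vb q (k2 Q) = vb q (k2 Q₀)) :
    ineqV F w z Q - ineqV F w z Q₀ ∈ F.SelZ w z m n := by
  classical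
  unfold Fam.SelZ Sel
  rw [Finset.mem_filter]
  refine ⟨Finset.mem_univ _, fun p => ?_⟩
  unfold LocC
  rcases hψ : (F.st m n p).join with _ | x
  · simp only [hψ]
    show (ineqV F w z Q - ineqV F w z Q₀) p = 0
    rw [Pi.sub_apply]
    unfold ineqV
    rw [if_pos hψ, if_pos hψ, sub_zero]
  · simp only [hψ]
    show (ineqV F w z Q - ineqV F w z Q₀) p ∈ VV (F.ty x.1) ∧ ∀ c ∈ CC (F.ty x.1),
      dot c (lin (Pr w z) (ineqV F w z Q - ineqV F w z Q₀) p) =
        x.2 * dot c ((ineqV F w z Q - ineqV F w z Q₀) p) +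
        dot c (mat (F.N x.1 p) ((ineqV F w z Q - ineqV F w z Q₀) p))
    have hne : (F.st m n p).join ≠ none := by rw [hψ]; exact Option.some_ne_none x
    have hv : ∀ R : (F.E m n).Point, ineqV F w z R p = (vb p (k1 R), vb p (k2 R)) := by
      intro R
      unfold ineqV
      rw [if_neg hne]
    obtain ⟨r1, r2⟩ := ineq_rel hw hc hP z Q p hψ
    obtain ⟨r1', r2'⟩ := ineq_rel hw hc hP z Q₀ p hψ
    -- the linear part
    have hlin : ∀ R : (F.E m n).Point, ((lb p (k1 R), lb p (k2 R)) : V2) =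
        ((if k1 R < 0 then bt p (-1) else 0) + ∑ q ∈ F.Bad w z m n, vb q (k1 R) * bt p q,
          (if k2 R < 0 then bt p (-1) else 0) + ∑ q ∈ F.Bad w z m n, vb q (k2 R) * bt p q) +
        lin (Pr w z) (ineqV F w z R) p := by
      intro R
      have h1 := ineq_lb (w := w) hP z (ineq_k1 hP R).1 (fun p => (ineqV F w z R p).1)
        (fun p => by
          show (ineqV F w z R p).1 = _
          unfold ineqV
          by_cases h : (F.st m n p).join = none
          · rw [if_pos h, if_pos h]; rfl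
          · rw [if_neg h, if_neg h])
        (fun q hq hq1 hq2 => (ineq_supp hw hP z R hq hq1 hq2).1) p hne
      have h2 := ineq_lb (w := w) hP z (ineq_k1 hP R).2 (fun p => (ineqV F w z R p).2)
        (fun p => by
          show (ineqV F w z R p).2 = _
          unfold ineqV
          by_cases h : (F.st m n p).join = none
          · rw [if_pos h, if_pos h]; rfl
          · rw [if_neg h, if_neg h])
        (fun q hq hq1 hq2 => (ineq_supp hw hP z R hq hq1 hq2).2) p hne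
      refine Prod.ext ?_ ?_
      · show lb p (k1 R) = _ + (lin (Pr w z) (ineqV F w z R) p).1
        rw [h1]
        congr 1
        unfold lin
        rw [Prod.fst_sum]
        rfl
      · show lb p (k2 R) = _ + (lin (Pr w z) (ineqV F w z R) p).2
        rw [h2]
        congr 1
        unfold lin
        rw [Prod.snd_sum]
        rfl
    have hcst : ((if k1 Q < 0 then bt p (-1) else 0) +
          ∑ q ∈ F.Bad w z m n, vb q (k1 Q) * bt p q,
          (if k2 Q < 0 then bt p (-1) else 0) + ∑ q ∈ F.Bad w z m n, vb q (k2 Q) * bt p q) =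
        (((if k1 Q₀ < 0 then bt p (-1) else 0) +
          ∑ q ∈ F.Bad w z m n, vb q (k1 Q₀) * bt p q,
          (if k2 Q₀ < 0 then bt p (-1) else 0) +
            ∑ q ∈ F.Bad w z m n, vb q (k2 Q₀) * bt p q) : V2) := by
      refine Prod.ext ?_ ?_
      · show (if k1 Q < 0 then bt p (-1) else 0) + _ = (if k1 Q₀ < 0 then bt p (-1) else 0) + _
        rw [Finset.sum_congr rfl fun q hq => by rw [(hb q hq).1]]
        simp only [hs1]
      · show (if k2 Q < 0 then bt p (-1) else 0) + _ = (if k2 Q₀ < 0 then bt p (-1) else 0) + _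
        rw [Finset.sum_congr rfl fun q hq => by rw [(hb q hq).2]]
        simp only [hs2]
    rw [Pi.sub_apply, hv, hv]
    refine ⟨ineq_VV_sub _ _ r1 _ r1', fun c hcm => ?_⟩
    have e1 := r2 c hcm
    have e2 := r2' c hcm
    rw [hlin, ineq_dot_add] at e1 e2
    rw [hcst] at e1
    rw [ineq_lin_sub, ineq_dot_sub, ineq_mat_sub, ineq_dot_sub, ineq_dot_sub]
    linear_combination e1 - e2

theorem rank_ineq (hw : F.Big w) {m n : ℤ} (hc : IsCoprime m n) (hP : F.P m n ≠ 0) (z : ℕ)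
    (hz : w ≤ z) :
    Module.Finite ℤ (F.E m n).Point ∧
    2 ^ Module.finrank ℤ (F.E m n).Point ≤
      (2 * 2 ^ (F.Bad w z m n).card) ^ 2 * (F.SelZ w z m n).card := by
  classical
  obtain ⟨hA, hB, _, hAB⟩ := abc_ne_zero hP
  have hA' : ((F.A m n : ℤ) : ℚ) ≠ 0 := Int.cast_ne_zero.2 hA
  have hB' : ((F.B m n : ℤ) : ℚ) ≠ 0 := Int.cast_ne_zero.2 hB
  have hAB' : ((F.A m n : ℤ) : ℚ) ≠ ((F.B m n : ℤ) : ℚ) := fun h => hAB (Int.cast_injective h)
  set Bd := F.Bad w z m n with hBd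
  set f : (F.E m n).Point → ((Bool × Bool) × (Bd → V2)) × (Pr w z → V2) := fun Q =>
    (((decide (k1 Q < 0), decide (k2 Q < 0)), fun q => (vb q (k1 Q), vb q (k2 Q))),
      ineqV F w z Q) with hf
  have hf1 : ∀ Q Q', (f Q).1 = (f Q').1 → (k1 Q < 0 ↔ k1 Q' < 0) ∧ (k2 Q < 0 ↔ k2 Q' < 0) ∧
      ∀ q ∈ Bd, vb q (k1 Q) = vb q (k1 Q') ∧ vb q (k2 Q) = vb q (k2 Q') := by
    intro Q Q' h
    have h1 : decide (k1 Q < 0) = decide (k1 Q' < 0) := congrArg (fun x => x.1.1) h
    have h2 : decide (k2 Q < 0) = decide (k2 Q' < 0) := congrArg (fun x => x.1.2) h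
    refine ⟨decide_eq_decide.1 h1, decide_eq_decide.1 h2, fun q hq => ?_⟩
    have h3 := congrArg (fun x => x.2 ⟨q, hq⟩) h
    exact ⟨congrArg Prod.fst h3, congrArg Prod.snd h3⟩
  set V := (univ : Finset (((Bool × Bool) × (Bd → V2)) × (Pr w z → V2))).filter
    (fun x => ∃ Q, f Q = x) with hV
  have hfV : ∀ Q, f Q ∈ V := fun Q => Finset.mem_filter.2 ⟨Finset.mem_univ _, Q, rfl⟩
  have hff : ∀ Q Q', f Q = f Q' → ∃ a, Q - Q' = a + a := by
    intro Q Q' h
    obtain ⟨h1, h2, h3⟩ := hf1 Q Q' (congrArg Prod.fst h)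
    have h4 : ineqV F w z Q = ineqV F w z Q' := congrArg Prod.snd h
    have key : ∀ q : ℕ, q.Prime → vb q (k1 Q) = vb q (k1 Q') ∧ vb q (k2 Q) = vb q (k2 Q') := by
      intro q hq
      by_cases hqB : q ∈ F.Bad w z m n
      · exact h3 q hqB
      · by_cases hqS : q ∈ Pr w z ∧ (F.st m n q).join ≠ none
        · have h5 := congrFun h4 ⟨q, hqS.1⟩
          unfold ineqV at h5
          rw [if_neg hqS.2, if_neg hqS.2] at h5
          exact ⟨congrArg Prod.fst h5, congrArg Prod.snd h5⟩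
        · obtain ⟨a1, a2⟩ := ineq_supp hw hP z Q hq hqB hqS
          obtain ⟨b1, b2⟩ := ineq_supp hw hP z Q' hq hqB hqS
          exact ⟨by rw [a1, b1], by rw [a2, b2]⟩
    exact diff_two_EC hA' hB' hAB' Q Q'
      (isSquare_mul_of_vb (ineq_k1 hP Q).1 (ineq_k1 hP Q').1 h1 fun q hq => (key q hq).1)
      (isSquare_mul_of_vb (ineq_k1 hP Q).2 (ineq_k1 hP Q').2 h2 fun q hq => (key q hq).2)
  have hfin : Module.Finite ℤ (F.E m n).Point :=
    Module.Finite.iff_addGroup_fg.2 (mordell_weil hA' hB' hAB' (index_of_fibres V f hfV hff))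
  refine ⟨hfin, (two_pow_rank_le V f hfV hff).trans ?_⟩
  have hcard : V.card ≤ (F.SelZ w z m n).card * (V.image Prod.fst).card := by
    refine Finset.card_le_mul_card_image V _ fun a ha => ?_
    obtain ⟨x₀, hx₀, rfl⟩ := Finset.mem_image.1 ha
    obtain ⟨Q₀, rfl⟩ := (Finset.mem_filter.1 hx₀).2
    refine Finset.card_le_card_of_injOn (fun x => x.2 - (f Q₀).2) ?_ ?_
    · intro x hx
      obtain ⟨hx1, hx2⟩ := Finset.mem_filter.1 (Finset.mem_coe.1 hx)
      obtain ⟨Q, rfl⟩ := (Finset.mem_filter.1 hx1).2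
      obtain ⟨h1, h2, h3⟩ := hf1 Q Q₀ hx2
      exact Finset.mem_coe.2 (ineq_sel hw hc hP z Q Q₀ h1 h2 h3)
    · intro x hx y hy hxy
      have hx2 := (Finset.mem_filter.1 (Finset.mem_coe.1 hx)).2
      have hy2 := (Finset.mem_filter.1 (Finset.mem_coe.1 hy)).2
      refine Prod.ext (hx2.trans hy2.symm) ?_
      exact sub_left_inj.1 hxy
  have himg : (V.image Prod.fst).card ≤ 4 * 4 ^ Bd.card := by
    refine (Finset.card_le_univ _).trans ?_
    rw [Fintype.card_prod, Fintype.card_prod, Fintype.card_bool, Fintype.card_fun,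
      Fintype.card_prod, ZMod.card, Fintype.card_coe]
  refine (hcard.trans (Nat.mul_le_mul_left _ himg)).trans (le_of_eq ?_)
  rw [mul_pow, ← pow_mul, mul_comm Bd.card 2, pow_mul]
  norm_num
  ring

end Pool.Agent.H77.SV
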