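import Mathlib
import Pool.Agent.H24.UM.Jac

/-!
# Bounded average rank in elliptic surfaces: definitions

Everything is explained in /team-store/h77_silverman_paper.md.
-/

set_option autoImplicit false

namespace Pool.Agent.H77.SV

open Finset

/-! ## Vectors over `F_2` -/

/-- `F_2^2` -/
abbrev V2 : Type := ZMod 2 × ZMod 2

/-- the standard scalar product -/
def dot (c v : V2) : ZMod 2 := c.1 * v.1 + c.2 * v.2

/-- matrix (rows `N.1`, `N.2`) times vector -/
def mat (N : V2 × V2) (v : V2) : V2 := (dot N.1 v, dot N.2 v)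

/-- `(-1)^t` -/
def sg (t : ZMod 2) : ℝ := if t = 0 then 1 else -1

/-- The type of a linear form: `none` is a fibre of type `I_{2e}^*`; `some 0`, `some 1`, `some 2`
are fibres of type `I_{2e}`, `e` odd, at which `A`, `B`, `A - B` vanishes. -/
abbrev Ty : Type := Option (Fin 3)

/-- possible valuation vectors at a prime of the given type -/
def VV : Ty → Finset V2
  | none => univ
  | some 0 => {(0, 0), (1, 1)}
  | some 1 => {(0, 0), (1, 0)}
  | some 2 => {(0, 0), (0, 1)}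

/-- functionals which give a condition at a prime of the given type -/
def CC : Ty → Finset V2
  | none => univ
  | some 0 => {(0, 0), (1, 1)}
  | some 1 => {(0, 0), (0, 1)}
  | some 2 => {(0, 0), (1, 0)}

/-! ## Local symbols -/

/-- the bit of the Legendre symbol `(a / p)` (`1` iff the symbol is `-1`) -/
def bt (p : ℕ) (a : ℤ) : ZMod 2 := if jacobiSym a p = -1 then 1 else 0

/-- the part of the integer `N` which is prime to `p` -/
def up (p : ℕ) (N : ℤ) : ℤ := N / (p : ℤ) ^ (padicValInt p N)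

/-- parity of the `p`-adic valuation of a rational number -/
def vb (p : ℕ) (x : ℚ) : ZMod 2 := ((padicValRat p x : ℤ) : ZMod 2)

/-- bit of the Legendre symbol of the unit part of a rational number
(`x = num x * den x` up to a square) -/
def lb (p : ℕ) (x : ℚ) : ZMod 2 := bt p (up p (x.num * x.den))

/-! ## The elliptic curves -/

/-- the curve `y^2 = x (x - A) (x - B)` -/
abbrev EC (A B : ℚ) : WeierstrassCurve.Affine ℚ := ⟨0, -(A + B), 0, A * B, 0⟩

/-- `W` is the curve `y^2 = (x - e) (x - e') (x - e'')` with three different roots -/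
structure Roots (W : WeierstrassCurve.Affine ℚ) (e e' e'' : ℚ) : Prop where
  a1 : W.a₁ = 0
  a3 : W.a₃ = 0
  a2 : W.a₂ = -(e + e' + e'')
  a4 : W.a₄ = e * e' + e * e'' + e' * e''
  a6 : W.a₆ = -(e * e' * e'')
  n1 : e ≠ e'
  n2 : e ≠ e''
  n3 : e' ≠ e''

/-- the descent map `x - e`, with value `(e - e') (e - e'')` at the point `(e, 0)` -/
def kap {W : WeierstrassCurve.Affine ℚ} (e e' e'' : ℚ) : W.Point → ℚ
  | .zero => 1
  | .some x _ _ => if x = e then (e - e') * (e - e'') else x - e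

/-- the first coordinate of the descent map of `y^2 = x (x - A) (x - B)` -/
def k1 {A B : ℚ} (P : (EC A B).Point) : ℚ := kap 0 A B P

/-- the second coordinate of the descent map of `y^2 = x (x - A) (x - B)` -/
def k2 {A B : ℚ} (P : (EC A B).Point) : ℚ := kap A 0 B P

/-! ## The data -/

/-- exponents of a linear form in `A`, `B`, `A - B` at a fibre of type `I_{2e}^*` -/
def Star (a b c : ℕ) : Prop :=
  1 ≤ a ∧ 1 ≤ b ∧ 1 ≤ c ∧ ((a = 1 ∧ b = 1) ∨ (a = 1 ∧ c = 1) ∨ (b = 1 ∧ c = 1))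

/-- exponents of a linear form in `A`, `B`, `A - B` at a fibre of type `I_{2e}`, `e` odd -/
def Mult (a b c : ℕ) : Prop :=
  (Odd a ∧ b = 0 ∧ c = 0) ∨ (a = 0 ∧ Odd b ∧ c = 0) ∨ (a = 0 ∧ b = 0 ∧ Odd c)

/-- The data: linear forms `r_i m + s_i n` and exponents such that
`al * prod l_i ^ ea_i - be * prod l_i ^ eb_i = ga * prod l_i ^ ec_i`. -/
structure Fam (k : ℕ) where
  r : Fin k → ℤ
  s : Fin k → ℤ
  al : ℤ
  be : ℤ
  ga : ℤ
  ea : Fin k → ℕ
  eb : Fin k → ℕ
  ec : Fin k → ℕ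
  d : ℕ
  hk : 2 ≤ k
  hrs : ∀ i j, i ≠ j → r i * s j - r j * s i ≠ 0
  hal : al ≠ 0
  hbe : be ≠ 0
  hga : ga ≠ 0
  htype : ∀ i, Star (ea i) (eb i) (ec i) ∨ Mult (ea i) (eb i) (ec i)
  hd : Even d
  hea : ∑ i, ea i = d
  heb : ∑ i, eb i = d
  hec : ∑ i, ec i = d
  hbal1 : #{i | eb i = 0 ∧ ec i = 0} = #{i | ea i = 0 ∧ ec i = 0}
  hbal2 : #{i | eb i = 0 ∧ ec i = 0} = #{i | ea i = 0 ∧ eb i = 0}
  hid : ∀ m n : ℤ, al * ∏ i, (r i * m + s i * n) ^ ea i - be * ∏ i, (r i * m + s i * n) ^ eb i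
    = ga * ∏ i, (r i * m + s i * n) ^ ec i

namespace Fam

variable {k : ℕ} (F : Fam k)

/-- the linear forms -/
def l (i : Fin k) (m n : ℤ) : ℤ := F.r i * m + F.s i * n

/-- their product -/
def P (m n : ℤ) : ℤ := ∏ i, F.l i m n

def A (m n : ℤ) : ℤ := F.al * ∏ i, F.l i m n ^ F.ea i
def B (m n : ℤ) : ℤ := F.be * ∏ i, F.l i m n ^ F.eb i
def C (m n : ℤ) : ℤ := F.ga * ∏ i, F.l i m n ^ F.ec i

/-- the fibre over `[m : n]` -/
abbrev E (m n : ℤ) : WeierstrassCurve.Affine ℚ := EC (F.A m n : ℚ) (F.B m n : ℚ)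

/-- the type of the `i`-th form -/
def ty (i : Fin k) : Ty :=
  if F.eb i = 0 ∧ F.ec i = 0 then some 0 else
  if F.ea i = 0 ∧ F.ec i = 0 then some 1 else
  if F.ea i = 0 ∧ F.eb i = 0 then some 2 else none

/-- `w` is larger than everything -/
structure Big (w : ℕ) : Prop where
  h12 : 12 ≤ w
  hk : 24 * (k + 1) ^ 2 ≤ w
  hr : ∀ i, |F.r i| ≤ w
  hs : ∀ i, |F.s i| ≤ w
  hrs : ∀ i j, |F.r i * F.s j - F.r j * F.s i| ≤ w
  hal : |F.al| ≤ w
  hbe : |F.be| ≤ w
  hga : |F.ga| ≤ w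

/-- the value of `g * prod_(j <> i) l_j ^ e_j` at the point `P_i = (-s_i, r_i)` -/
def kc (i : Fin k) (g : ℤ) (e : Fin k → ℕ) : ℤ :=
  g * ∏ j ∈ univ.erase i, F.l j (-(F.s i)) (F.r i) ^ e j

/-- the constants of the matrix lemma (rows of the matrix) -/
def K (i : Fin k) : (ℤ × ℤ) × (ℤ × ℤ) :=
  match F.ty i with
  | none =>
    if Even (F.ea i) then
      ((F.kc i F.al F.ea, F.kc i F.al F.ea),
        (-(F.kc i F.al F.ea), F.kc i (F.al * F.be * F.ga) (fun j => F.ea j + F.eb j + F.ec j)))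
    else if Even (F.eb i) then
      ((1, F.kc i F.be F.eb), (F.kc i (F.al * F.ga) (fun j => F.ea j + F.ec j),
        -(F.kc i (F.al * F.ga) (fun j => F.ea j + F.ec j))))
    else if Even (F.ec i) then
      ((F.kc i (F.al * F.be) (fun j => F.ea j + F.eb j),
        F.kc i (F.al * F.be) (fun j => F.ea j + F.eb j)), (-(F.kc i F.ga F.ec), -1))
    else
      ((1, F.kc i (F.al * F.be) (fun j => F.ea j + F.eb j)),
        (F.kc i (F.al * F.ga) (fun j => F.ea j + F.ec j), -1))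
  | some 0 => ((-(F.kc i F.be F.eb), 1), (1, 1))
  | some 1 => ((1, 1), (-(F.kc i F.al F.ea), 1))
  | some 2 => ((1, F.kc i F.al F.ea), (1, 1))

/-- the matrix `N_i(p)` -/
def N (i : Fin k) (p : ℕ) : V2 × V2 :=
  ((bt p (F.K i).1.1, bt p (F.K i).1.2), (bt p (F.K i).2.1, bt p (F.K i).2.2))

/-- the integer whose Legendre symbol is the twist bit `r_p` at primes dividing the `i`-th form
(the exponent of `l_i` is odd) -/
def R (i : Fin k) (m n : ℤ) : ℤ :=
  if Odd (F.ea i) then F.A m n else if Odd (F.eb i) then F.B m n else F.C m n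

end Fam

/-! ## States of primes -/

/-- the primes in `(w, z]` -/
def Pr (w z : ℕ) : Finset ℕ := (Ioc w z).filter Nat.Prime

/-- State of a prime at `(m, n)`: `none`: `p` does not divide `P(m,n)`; `some none`: `p^2` divides
`P(m,n)`; `some (some (i, rho))`: `p` divides `P(m,n)` exactly once, it divides `l_i(m,n)`, and
`rho` is the twist bit. -/
abbrev Stt (k : ℕ) : Type := Option (Option (Fin k × ZMod 2))

open Classical in
/-- some index `i` with `p | l_i(m,n)` -/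
noncomputable def Fam.idx {k : ℕ} (F : Fam k) (p : ℕ) (m n : ℤ) : Fin k :=
  if h : ∃ i, (p : ℤ) ∣ F.l i m n then h.choose else ⟨0, by have := F.hk; omega⟩

/-- the state of `p` at `(m, n)` -/
noncomputable def Fam.st {k : ℕ} (F : Fam k) (m n : ℤ) (p : ℕ) : Stt k :=
  if (p : ℤ) ∣ F.P m n then
    if (p : ℤ) ^ 2 ∣ F.P m n then some none
    else some (some (F.idx p m n, lb p ((F.R (F.idx p m n) m n : ℤ) : ℚ)))
  else none

/-! ## Selmer sets -/

section Sel

variable {k : ℕ} (ty : Fin k → Ty) (N : Fin k → ℕ → V2 × V2) (S : Finset ℕ)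

/-- `sum_(q <> p) [q / p] v_q` -/
def lin (v : S → V2) (p : S) : V2 := ∑ q ∈ univ.erase p, bt p q • v q

/-- The local condition at `p` for a vector `v` of valuations. -/
def LocC (ψ : S → Option (Fin k × ZMod 2)) (v : S → V2) (p : S) : Prop :=
  match ψ p with
  | none => v p = 0
  | some x => v p ∈ VV (ty x.1) ∧ ∀ c ∈ CC (ty x.1),
      dot c (lin S v p) = x.2 * dot c (v p) + dot c (mat (N x.1 p) (v p))

open Classical in
/-- The Selmer set of a state: primes with state `none` do not occur. -/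
noncomputable def Sel (ψ : S → Option (Fin k × ZMod 2)) : Finset (S → V2) :=
  univ.filter fun v => ∀ p : S, LocC ty N S ψ v p

end Sel

/-- the Selmer set `Sel_z(m, n)` -/
noncomputable def Fam.SelZ {k : ℕ} (F : Fam k) (w z : ℕ) (m n : ℤ) : Finset (Pr w z → V2) :=
  Sel F.ty F.N (Pr w z) (fun p => (F.st m n p).join)

/-- the bad primes: small ones, large ones dividing `P(m, n)`, and those with `p^2 | P(m,n)` -/
def Fam.Bad {k : ℕ} (F : Fam k) (w z : ℕ) (m n : ℤ) : Finset ℕ :=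
  (Pr 0 w) ∪ (F.P m n).natAbs.primeFactors.filter fun p => z < p ∨ (w < p ∧ (p : ℤ) ^ 2 ∣ F.P m n)

/-! ## The box -/

/-- coprime pairs `(m, n)` with `|m|, |n| ≤ T` and `P(m, n) ≠ 0` -/
noncomputable def Fam.box {k : ℕ} (F : Fam k) (T : ℕ) : Finset (ℤ × ℤ) :=
  ((Icc (-(T : ℤ)) T) ×ˢ (Icc (-(T : ℤ)) T)).filter fun x =>
    IsCoprime x.1 x.2 ∧ F.P x.1 x.2 ≠ 0

/-- the `z`-smooth part of a natural number -/
def sm (z N : ℕ) : ℕ := ∏ p ∈ N.primeFactors.filter (· ≤ z), p ^ N.factorization p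

/-- `(m, n)` is `z`-good for `T`: the `z`-smooth part of `P(m, n)` is at most `T^(1/4)` -/
def Fam.Good {k : ℕ} (F : Fam k) (T z : ℕ) (m n : ℤ) : Prop :=
  sm z (F.P m n).natAbs ^ 4 ≤ T

/-! ## Indices of the character sums -/

/-- states `(i, v, c)` with `v ∈ V_i`, `c ∈ C_i`, `c . v = 0` -/
abbrev Idx {k : ℕ} (ty : Fin k → Ty) : Type :=
  {x : Fin k × V2 × V2 // x.2.1 ∈ VV (ty x.1) ∧ x.2.2 ∈ CC (ty x.1) ∧ dot x.2.2 x.2.1 = 0}

/-- weight `1 / |C_i|` -/
noncomputable def wtI {k : ℕ} (ty : Fin k → Ty) (x : Idx ty) : ℝ := 1 / ((CC (ty x.1.1)).card : ℝ)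

/-- exponent of `(q / p)` for `p` in state `x` and `q` in state `y` -/
def EI {k : ℕ} (ty : Fin k → Ty) (x y : Idx ty) : ZMod 2 := dot x.1.2.2 y.1.2.1

/-- the constant `K_i` of a state -/
def Fam.KI {k : ℕ} (F : Fam k) (x : Idx F.ty) : ℤ :=
  (if x.1.2.2.1 * x.1.2.1.1 = 1 then (F.K x.1.1).1.1 else 1) *
  (if x.1.2.2.1 * x.1.2.1.2 = 1 then (F.K x.1.1).1.2 else 1) *
  ((if x.1.2.2.2 * x.1.2.1.1 = 1 then (F.K x.1.1).2.1 else 1) *
  (if x.1.2.2.2 * x.1.2.1.2 = 1 then (F.K x.1.1).2.2 else 1))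

/-! ## The character sum of Theorem W -/

/-- tuples (indexed by `J`) of pairwise coprime divisors of the product of a set `Q` of primes -/
def tupQ (J : Type) [Fintype J] [DecidableEq J] (Q : Finset ℕ) : Finset (J → ℕ) :=
  (Fintype.piFinset fun _ : J => (∏ p ∈ Q, p).divisors).filter
    fun n => ∀ i j, i ≠ j → (n i).Coprime (n j)

/-- glue a tuple on `U` and a tuple on the complement -/
def glue {I : Type} [DecidableEq I] (U : Finset I) (u : U → ℕ) (v : {i // i ∉ U} → ℕ) : I → ℕ :=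
  fun i => if h : i ∈ U then u ⟨i, h⟩ else v ⟨i, h⟩

/-- real Jacobi symbol -/
def jac (a b : ℕ) : ℝ := ((jacobiSym (a : ℤ) b : ℤ) : ℝ)

/-- The data of Theorem W: states `I`, exponents `E`, constants `K`, weights `wt`. -/
structure WD (I : Type) [Fintype I] [DecidableEq I] where
  E : I → I → ZMod 2
  K : I → ℤ
  wt : I → ℝ
  eta : ℝ
  kappa : ℝ
  w : ℕ
  hE : ∀ i, E i i = 0
  hK : ∀ i, ∀ p : ℕ, p.Prime → w < p → ¬ (p : ℤ) ∣ K i
  hwt0 : ∀ i, 0 < wt i
  hwt1 : ∀ i, wt i ≤ 1 / 2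
  heta : 0 ≤ eta
  hw : 8 * (1 + ∑ i, wt i) * (1 + eta) ≤ w
  hU : ∀ U : Finset I, (∀ i ∈ U, ∀ j ∈ U, E i j = E j i) → ∑ i ∈ U, wt i ≤ kappa

namespace WD

variable {I : Type} [Fintype I] [DecidableEq I] (D : WD I)

/-- the weight of a prime in state `i` -/
noncomputable def f (σ : ℝ) (i : I) (p : ℕ) : ℝ := D.wt i * (1 + D.eta / p) / (p : ℝ) ^ (1 + σ)

/-- the weight of a squarefree number in state `i` -/
noncomputable def ff (σ : ℝ) (i : I) (n : ℕ) : ℝ := ∏ p ∈ n.primeFactors, D.f σ i p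

/-- the tuples of the sum -/
noncomputable def tup (X : ℕ) : Finset (I → ℕ) := tupQ I (Pr D.w X)

/-- the term of a tuple -/
noncomputable def term (σ : ℝ) (n : I → ℕ) : ℝ :=
  (∏ i, (D.ff σ i (n i) * ((jacobiSym (D.K i) (n i) : ℤ) : ℝ))) *
    ∏ i, ∏ j, (if D.E i j = 1 then jac (n j) (n i) else 1)

/-- the sum of Theorem W -/
noncomputable def W (σ : ℝ) (X : ℕ) : ℝ := ∑ n ∈ D.tup X, D.term σ n

/-- `U` is unlinked -/
def Unl (U : Finset I) : Prop := ∀ i ∈ U, ∀ j ∈ U, D.E i j = D.E j i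

/-- `x^* = (-1)^((x-1)/2) x` for odd `x` -/
def _root_.Pool.Agent.H77.SV.st4 (x : ℕ) : ℤ := if x % 4 = 3 then -(x : ℤ) else x

/-- the integer whose Jacobi symbol is the character in the variable `i ∈ U`, when the variables
outside `U` are fixed -/
def NN (U T : Finset I) (v : {i // i ∉ U} → ℕ) (i : I) : ℤ :=
  D.K i * (if i ∈ T then -1 else 1) *
    ∏ j : {j // j ∉ U}, ((if D.E i j = 1 then (v j : ℤ) else 1) *
      (if D.E j i = 1 then st4 (v j) else 1))

/-- primes of `(w, X]` which do not divide the fixed variables -/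
def Qv (X : ℕ) {U : Finset I} (v : {i // i ∉ U} → ℕ) : Finset ℕ :=
  (Pr D.w X).filter fun p => ¬ p ∣ ∏ j, v j

end WD

end Pool.Agent.H77.SV
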