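import Pool.Agent.H77.SV.Geo
import Pool.Agent.H77.SV.Lc

/-!
# Module Cnt (about 250 lines): local counts modulo `p^2`.

`p > w` prime. `Ex F p i ρ x y`: `p || l_i(x,y)`, `(x,y)` not both divisible by `p`, twist bit `ρ`.
PROOF of `ex_per`. If `x ≡ x', y ≡ y' (mod p^2)` then `l_i`, hence `p | l_i` and `p^2 | l_i`, and the
condition mod `p` are the same. For the bit: `R i x y = g prod_j l_j^(e_j)` with `g ∈ {al, be, ga}`, prime to
`p`, and `e_i` odd (`R` is chosen like that; by `htype` one of the three exponents is odd); `p ∤ l_j` for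
`j ≠ i` (`unique_idx`). So `lb p (R i x y) = bt p g + lb p (l_i) + sum_{j≠i} e_j bt p (l_j)` (`lb_mul`,
`lb_int`), `lb p l_i = bt p (l_i / p)`, where `l_i/p` mod `p` is determined by `l_i` mod `p^2`
(`bt_congr`).
PROOF of `ex_count`. Let `u` be an integer which is a quadratic non residue mod `p`. We construct an injection of the
set for `ρ` into the set for `ρ + 1`: this gives `#_0 = #_1`, and `#_0 + #_1 ≤ #{(x,y) ∈ [0,p^2)^2 : p | l_i} =
p^3`. Say `p ∤ r_i` (the other case is symmetric). Send `(x, y)` to `(x', y)` with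
`x' ∈ [0, p^2)`, `r_i x' ≡ u l_i(x,y) - s_i y (mod p^2)`; then `l_i(x', y) ≡ u l_i(x, y) (mod p^2)`, and
`x' ≡ x (mod p)` (both are `≡ -r_i^(-1) s_i y` mod `p` because `p | l_i`), so the other forms do not change mod `p`; the
bit changes by `bt p u = 1`. Injective since `u` is invertible mod `p^2`.
(`#{(x,y) : p | l_i} = p^3`: for each `y` there are exactly `p` values of `x`; only `≤` is needed.)
PROOF of `sq_count`: union over `i` of `{p^2 | l_i(x,y)}`; with `p ∤ r_i` each `y` gives exactly one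
`x` mod `p^2`: `p^2` pairs each.
-/

set_option autoImplicit false

namespace Pool.Agent.H77.SV

open Finset

variable {k : ℕ}

/-- exact divisibility at the `i`-th form, with twist bit `ρ` -/
def Ex (F : Fam k) (p : ℕ) (i : Fin k) (ρ : ZMod 2) (x y : ℤ) : Prop :=
  (p : ℤ) ∣ F.l i x y ∧ ¬ (p : ℤ) ^ 2 ∣ F.l i x y ∧ ¬ ((p : ℤ) ∣ x ∧ (p : ℤ) ∣ y) ∧
    lb p ((F.R i x y : ℤ) : ℚ) = ρ

/-- `p^2` divides one of the forms -/
def Sq (F : Fam k) (p : ℕ) (x y : ℤ) : Prop := ∃ i, (p : ℤ) ^ 2 ∣ F.l i x y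

variable {F : Fam k} {w : ℕ}

private def cnG (F : Fam k) (i : Fin k) : ℤ :=
  if Odd (F.ea i) then F.al else if Odd (F.eb i) then F.be else F.ga

private def cnE (F : Fam k) (i : Fin k) : Fin k → ℕ :=
  if Odd (F.ea i) then F.ea else if Odd (F.eb i) then F.eb else F.ec

private def cnR (F : Fam k) (i : Fin k) (x y : ℤ) : ℤ :=
  cnG F i * ∏ j ∈ univ.erase i, F.l j x y ^ cnE F i j

private lemma cn_R (F : Fam k) (i : Fin k) (x y : ℤ) :
    F.R i x y = F.l i x y ^ cnE F i i * cnR F i x y := by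
  unfold Fam.R cnR cnG cnE Fam.A Fam.B Fam.C
  split_ifs <;> rw [← Finset.mul_prod_erase univ _ (Finset.mem_univ i)] <;> ring

private lemma cn_odd (F : Fam k) (i : Fin k) : Odd (cnE F i i) := by
  unfold cnE
  split_ifs with h1 h2
  · exact h1
  · exact h2
  · have h := F.htype i
    unfold Star Mult at h
    rcases h with h | h | h | h
    · rcases h.2.2.2 with h3 | h3 | h3
      · exact absurd (by rw [h3.1]; decide) h1
      · exact absurd (by rw [h3.1]; decide) h1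
      · exact absurd (by rw [h3.1]; decide) h2
    · exact absurd h.1 h1
    · exact absurd h.2.1 h2
    · exact h.2.2

private lemma cn_ndvd (hw : F.Big w) {p : ℕ} (hp : p.Prime) (hpw : w < p) (i : Fin k)
    {x y : ℤ} (hc : ¬ ((p : ℤ) ∣ x ∧ (p : ℤ) ∣ y)) (h : (p : ℤ) ∣ F.l i x y) :
    ¬ (p : ℤ) ∣ cnR F i x y := by
  have hpp : Prime (p : ℤ) := Nat.prime_iff_prime_int.mp hp
  obtain ⟨h1, h2, h3⟩ := coef_ndvd hw hpw
  intro h4
  unfold cnR at h4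
  rcases hpp.dvd_or_dvd h4 with h5 | h5
  · unfold cnG at h5
    split_ifs at h5
    · exact h1 h5
    · exact h2 h5
    · exact h3 h5
  · rw [hpp.dvd_finsetProd_iff] at h5
    obtain ⟨j, hj, h6⟩ := h5
    have h7 := hpp.dvd_of_dvd_pow h6
    exact (Finset.mem_erase.mp hj).1 (unique_idx hw hp hpw hc h h7).symm

private lemma cn_cong {p : ℕ} (i : Fin k) {x y x' y' : ℤ} (hx : x ≡ x' [ZMOD p])
    (hy : y ≡ y' [ZMOD p]) : cnR F i x y ≡ cnR F i x' y' [ZMOD p] := by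
  rw [← ZMod.intCast_eq_intCast_iff] at hx hy ⊢
  unfold cnR Fam.l
  push_cast
  rw [hx, hy]

private lemma cn_pow {p : ℕ} (hp : p.Prime) {x : ℚ} (hx : x ≠ 0) (n : ℕ) :
    lb p (x ^ n) = n * lb p x := by
  induction n with
  | zero =>
    have h1 : ¬ (p : ℤ) ∣ 1 := by
      intro h
      have h2 : p ∣ 1 := by exact_mod_cast h
      exact hp.one_lt.ne' (Nat.dvd_one.mp h2)
    have h2 := lb_int hp h1
    rw [bt_one] at h2
    simpa using h2
  | succ n ih =>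
    rw [pow_succ, lb_mul hp (pow_ne_zero _ hx) hx, ih]
    push_cast
    ring

private lemma cn_bit (hw : F.Big w) {p : ℕ} (hp : p.Prime) (hpw : w < p) (i : Fin k)
    {x y : ℤ} (hc : ¬ ((p : ℤ) ∣ x ∧ (p : ℤ) ∣ y)) (h2 : ¬ (p : ℤ) ^ 2 ∣ F.l i x y) {t : ℤ}
    (ht : F.l i x y = p * t) :
    ¬ (p : ℤ) ∣ t ∧ lb p ((F.R i x y : ℤ) : ℚ) = bt p t + bt p (cnR F i x y) := by
  have h : (p : ℤ) ∣ F.l i x y := ⟨t, ht⟩
  have hnd := cn_ndvd hw hp hpw i hc h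
  have hpt : ¬ (p : ℤ) ∣ t := by
    rintro ⟨s, hs⟩
    apply h2
    rw [ht, hs]
    exact ⟨s, by ring⟩
  refine ⟨hpt, ?_⟩
  have ht0 : t ≠ 0 := by
    rintro rfl
    exact hpt (dvd_zero _)
  have hr0 : cnR F i x y ≠ 0 := by
    intro h0
    rw [h0] at hnd
    exact hnd (dvd_zero _)
  have hp0 : (p : ℚ) ≠ 0 := by exact_mod_cast hp.ne_zero
  have ht0' : (t : ℚ) ≠ 0 := by exact_mod_cast ht0
  have hr0' : (cnR F i x y : ℚ) ≠ 0 := by exact_mod_cast hr0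
  rw [cn_R, ht]
  push_cast
  rw [lb_mul hp (pow_ne_zero _ (mul_ne_zero hp0 ht0')) hr0', cn_pow hp (mul_ne_zero hp0 ht0'),
    lb_mul hp hp0 ht0', lb_self hp, lb_int hp hpt, lb_int hp hnd]
  obtain ⟨m, hm⟩ := cn_odd F i
  rw [hm]
  push_cast
  have h3 : (2 : ZMod 2) = 0 := rfl
  rw [h3]
  ring

private lemma cn_l {M : ℤ} (i : Fin k) {x y x' y' : ℤ} (hx : x ≡ x' [ZMOD M])
    (hy : y ≡ y' [ZMOD M]) : F.l i x y ≡ F.l i x' y' [ZMOD M] := by
  unfold Fam.l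
  exact (hx.mul_left _).add (hy.mul_left _)

theorem ex_per (hw : F.Big w) {p : ℕ} (hp : p.Prime) (hpw : w < p) (i : Fin k) (ρ : ZMod 2)
    {x y x' y' : ℤ} (hx : x ≡ x' [ZMOD (p : ℤ) ^ 2]) (hy : y ≡ y' [ZMOD (p : ℤ) ^ 2])
    (h : Ex F p i ρ x y) : Ex F p i ρ x' y' := by
  obtain ⟨h1, h2, h3, h4⟩ := h
  have hl := cn_l (F := F) i hx hy
  have hd : (p : ℤ) ∣ (p : ℤ) ^ 2 := Dvd.intro_left _ (by ring)
  have hxp : x ≡ x' [ZMOD p] := hx.of_dvd hd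
  have hyp : y ≡ y' [ZMOD p] := hy.of_dvd hd
  have hp0 : (p : ℤ) ≠ 0 := by exact_mod_cast hp.ne_zero
  have h1' : (p : ℤ) ∣ F.l i x' y' := ((hl.of_dvd hd).dvd_iff).mp h1
  have h2' : ¬ (p : ℤ) ^ 2 ∣ F.l i x' y' := fun h => h2 ((hl.dvd_iff).mpr h)
  have h3' : ¬ ((p : ℤ) ∣ x' ∧ (p : ℤ) ∣ y') := fun h =>
    h3 ⟨(hxp.dvd_iff).mpr h.1, (hyp.dvd_iff).mpr h.2⟩
  refine ⟨h1', h2', h3', ?_⟩
  obtain ⟨t, ht⟩ := h1
  obtain ⟨t', ht'⟩ := h1'
  rw [← h4, (cn_bit hw hp hpw i h3 h2 ht).2, (cn_bit hw hp hpw i h3' h2' ht').2,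
    bt_congr (cn_cong i hxp hyp)]
  congr 1
  apply bt_congr
  rw [ht, ht'] at hl
  have h5 := Int.modEq_iff_dvd.mp hl
  rw [← mul_sub, pow_two] at h5
  exact (Int.modEq_iff_dvd.mpr ((mul_dvd_mul_iff_left hp0).mp h5)).symm

theorem sq_per {p : ℕ} {x y x' y' : ℤ} (hx : x ≡ x' [ZMOD (p : ℤ) ^ 2])
    (hy : y ≡ y' [ZMOD (p : ℤ) ^ 2]) (h : Sq F p x y) : Sq F p x' y' := by
  obtain ⟨i, hi⟩ := h
  exact ⟨i, ((cn_l (F := F) i hx hy).dvd_iff).mp hi⟩

private lemma cn_sol {M r s : ℤ} (h : IsCoprime r M ∨ IsCoprime s M) :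
    ∃ α β : ℤ, r * α + s * β ≡ 1 [ZMOD M] := by
  rcases h with ⟨u, v, h⟩ | ⟨u, v, h⟩
  · refine ⟨u, 0, ?_⟩
    rw [Int.modEq_iff_dvd]
    exact ⟨v, by linarith⟩
  · refine ⟨0, u, ?_⟩
    rw [Int.modEq_iff_dvd]
    exact ⟨v, by linarith⟩

private lemma cn_line {p : ℕ} (hp : p.Prime) (r s : ℤ) (hr : ¬ (p : ℤ) ∣ r) :
    ((Ico (0 : ℤ) ((p : ℤ) ^ 2) ×ˢ Ico (0 : ℤ) ((p : ℤ) ^ 2)).filter
      fun x => (p : ℤ) ∣ r * x.1 + s * x.2).card ≤ p ^ 3 := by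
  have hp0 : (0 : ℤ) < p := by exact_mod_cast hp.pos
  have hpp : Prime (p : ℤ) := Nat.prime_iff_prime_int.mp hp
  have h1 : p ^ 3 = (Ico (0 : ℤ) p ×ˢ Ico (0 : ℤ) ((p : ℤ) ^ 2)).card := by
    rw [Finset.card_product, Int.card_Ico, Int.card_Ico]
    have : ((p : ℤ) ^ 2 - 0).toNat = p ^ 2 := by
      rw [sub_zero]
      exact_mod_cast Int.toNat_natCast (p ^ 2)
    rw [this]
    simp
    ring
  rw [h1]
  apply Finset.card_le_card_of_injOn (fun x => (x.1 / (p : ℤ), x.2))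
  · rintro ⟨x, y⟩ hx
    have hx' := Finset.mem_filter.mp hx
    obtain ⟨h2, h3⟩ := Finset.mem_product.mp hx'.1
    have h4 := Finset.mem_Ico.mp h2
    refine Finset.mem_coe.mpr (Finset.mem_product.mpr ⟨Finset.mem_Ico.mpr ⟨?_, ?_⟩, h3⟩)
    · exact Int.ediv_nonneg h4.1 hp0.le
    · apply Int.ediv_lt_of_lt_mul hp0
      have h5 := h4.2
      rw [pow_two] at h5
      exact h5
  · rintro ⟨x, y⟩ hx ⟨x', y'⟩ hx' hxx
    simp only [Prod.mk.injEq] at hxx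
    obtain ⟨h2, rfl⟩ := hxx
    have h3 := (Finset.mem_filter.mp hx).2
    have h4 := (Finset.mem_filter.mp hx').2
    simp only at h3 h4
    have h5 : (p : ℤ) ∣ r * (x - x') := by
      have := dvd_sub h3 h4
      have e : r * (x - x') = r * x + s * y - (r * x' + s * y) := by ring
      rw [e]
      exact this
    have h6 : (p : ℤ) ∣ x - x' := (hpp.dvd_or_dvd h5).resolve_left hr
    have h7 : x % p = x' % p := (Int.modEq_iff_dvd.mpr h6).symm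
    have h8 := Int.emod_add_mul_ediv x p
    have h9 := Int.emod_add_mul_ediv x' p
    rw [h2, h7] at h8
    have h10 : x = x' := by linarith
    rw [h10]

private lemma cn_swap (r s : ℤ) (M N : ℤ) :
    ((Ico (0 : ℤ) M ×ˢ Ico (0 : ℤ) M).filter fun x => N ∣ r * x.1 + s * x.2).card =
    ((Ico (0 : ℤ) M ×ˢ Ico (0 : ℤ) M).filter fun x => N ∣ s * x.1 + r * x.2).card := by
  refine Finset.card_bij (fun x _ => (x.2, x.1)) ?_ ?_ ?_
  · intro x hx
    rw [Finset.mem_filter, Finset.mem_product] at hx ⊢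
    refine ⟨⟨hx.1.2, hx.1.1⟩, ?_⟩
    simp only
    rw [add_comm]
    exact hx.2
  · rintro ⟨x, y⟩ _ ⟨x', y'⟩ _ h
    simp only [Prod.mk.injEq] at h ⊢
    exact ⟨h.2, h.1⟩
  · rintro ⟨x, y⟩ hx
    refine ⟨(y, x), ?_, rfl⟩
    rw [Finset.mem_filter, Finset.mem_product] at hx ⊢
    refine ⟨⟨hx.1.2, hx.1.1⟩, ?_⟩
    simp only at hx ⊢
    rw [add_comm]
    exact hx.2

private lemma cn_sq {p : ℕ} (hp : p.Prime) (r s : ℤ) (hr : ¬ (p : ℤ) ∣ r) :
    ((Ico (0 : ℤ) ((p : ℤ) ^ 2) ×ˢ Ico (0 : ℤ) ((p : ℤ) ^ 2)).filter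
      fun x => (p : ℤ) ^ 2 ∣ r * x.1 + s * x.2).card ≤ p ^ 2 := by
  have hp0 : (0 : ℤ) < p := by exact_mod_cast hp.pos
  have hpp : Prime (p : ℤ) := Nat.prime_iff_prime_int.mp hp
  have hcop : IsCoprime ((p : ℤ) ^ 2) r := ((Prime.coprime_iff_not_dvd hpp).mpr hr).pow_left
  have h1 : p ^ 2 = (Ico (0 : ℤ) ((p : ℤ) ^ 2)).card := by
    rw [Int.card_Ico, sub_zero]
    exact_mod_cast (Int.toNat_natCast (p ^ 2)).symm
  rw [h1]
  apply Finset.card_le_card_of_injOn (fun x => x.2)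
  · rintro ⟨x, y⟩ hx
    exact (Finset.mem_product.mp (Finset.mem_filter.mp hx).1).2
  · rintro ⟨x, y⟩ hx ⟨x', y'⟩ hx' hxx
    simp only at hxx
    subst hxx
    have hx1 := Finset.mem_filter.mp hx
    have hx2 := Finset.mem_filter.mp hx'
    have h3 := hx1.2
    have h4 := hx2.2
    have h6 := Finset.mem_Ico.mp (Finset.mem_product.mp hx1.1).1
    have h7 := Finset.mem_Ico.mp (Finset.mem_product.mp hx2.1).1
    simp only at h3 h4 h6 h7
    have h5 : (p : ℤ) ^ 2 ∣ r * (x - x') := by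
      have := dvd_sub h3 h4
      have e : r * (x - x') = r * x + s * y - (r * x' + s * y) := by ring
      rw [e]
      exact this
    have h8 : (p : ℤ) ^ 2 ∣ x - x' := hcop.dvd_of_dvd_mul_left h5
    have h9 : x - x' = 0 := Int.eq_zero_of_abs_lt_dvd h8 (by rw [abs_lt]; constructor <;> linarith)
    have h10 : x = x' := by linarith
    rw [h10]

private lemma cn_cc {α : Type} (s : Finset α) (P Q : α → Prop) (hP : DecidablePred P)
    (hQ : DecidablePred Q) (h : ∀ x ∈ s, P x → Q x) :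
    (@Finset.filter α P hP s).card ≤ (@Finset.filter α Q hQ s).card := by
  apply Finset.card_le_card
  intro x hx
  rw [Finset.mem_filter] at hx ⊢
  exact ⟨hx.1, h x hx.1 hx.2⟩

private lemma cn_nonres {p : ℕ} (hp : p.Prime) (hp2 : p ≠ 2) :
    ∃ u : ℤ, ¬ (p : ℤ) ∣ u ∧ bt p u = 1 := by
  have := Fact.mk hp
  obtain ⟨a, ha⟩ := FiniteField.exists_nonsquare (F := ZMod p) (by rwa [ZMod.ringChar_zmod_n])
  have h1 : ((a.val : ℤ) : ZMod p) = a := by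
    push_cast
    exact ZMod.natCast_zmod_val a
  refine ⟨(a.val : ℤ), ?_, ?_⟩
  · intro h
    rw [← ZMod.intCast_zmod_eq_zero_iff_dvd, h1] at h
    apply ha
    rw [h]
    exact ⟨0, by simp⟩
  · unfold bt
    rw [if_pos]
    rw [← jacobiSym.legendreSym.to_jacobiSym, legendreSym.eq_neg_one_iff, h1]
    exact ha

open Classical in
theorem ex_count (hw : F.Big w) {p : ℕ} (hp : p.Prime) (hpw : w < p) (i : Fin k) (ρ : ZMod 2) :
    (((Ico (0 : ℤ) ((p : ℤ) ^ 2) ×ˢ Ico (0 : ℤ) ((p : ℤ) ^ 2)).filter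
      fun x => Ex F p i ρ x.1 x.2).card : ℝ) ≤ (p : ℝ) ^ 3 / 2 := by
  have hp0 : (0 : ℤ) < p := by exact_mod_cast hp.pos
  have hpp : Prime (p : ℤ) := Nat.prime_iff_prime_int.mp hp
  have hp2 : p ≠ 2 := by
    have := hw.h12
    omega
  have hMpos : (0 : ℤ) < (p : ℤ) ^ 2 := by positivity
  have hd : (p : ℤ) ∣ (p : ℤ) ^ 2 := Dvd.intro_left _ (by ring)
  obtain ⟨u, hu, hub⟩ := cn_nonres hp hp2
  have hucop : IsCoprime ((p : ℤ) ^ 2) u := ((Prime.coprime_iff_not_dvd hpp).mpr hu).pow_left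
  have hrs := exists_rs hw hpw i
  obtain ⟨α, β, hαβ⟩ : ∃ α β : ℤ, F.r i * α + F.s i * β ≡ 1 [ZMOD (p : ℤ) ^ 2] := by
    apply cn_sol
    rcases hrs with h | h
    · exact Or.inl (((Prime.coprime_iff_not_dvd hpp).mpr h).pow_left).symm
    · exact Or.inr (((Prime.coprime_iff_not_dvd hpp).mpr h).pow_left).symm
  set S : ZMod 2 → Finset (ℤ × ℤ) := fun ρ =>
    (Ico (0 : ℤ) ((p : ℤ) ^ 2) ×ˢ Ico (0 : ℤ) ((p : ℤ) ^ 2)).filter
      fun x => Ex F p i ρ x.1 x.2 with hS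
  -- the map
  set f : ℤ × ℤ → ℤ × ℤ := fun x =>
    ((x.1 + α * (u - 1) * F.l i x.1 x.2) % (p : ℤ) ^ 2,
      (x.2 + β * (u - 1) * F.l i x.1 x.2) % (p : ℤ) ^ 2) with hf
  have hf1 : ∀ x : ℤ × ℤ, (f x).1 ≡ x.1 + α * (u - 1) * F.l i x.1 x.2 [ZMOD (p : ℤ) ^ 2] :=
    fun x => Int.mod_modEq _ _
  have hf2 : ∀ x : ℤ × ℤ, (f x).2 ≡ x.2 + β * (u - 1) * F.l i x.1 x.2 [ZMOD (p : ℤ) ^ 2] :=
    fun x => Int.mod_modEq _ _
  have hfl : ∀ x : ℤ × ℤ, F.l i (f x).1 (f x).2 ≡ u * F.l i x.1 x.2 [ZMOD (p : ℤ) ^ 2] := by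
    intro x
    refine (cn_l (F := F) i (hf1 x) (hf2 x)).trans ?_
    have h1 : F.l i (x.1 + α * (u - 1) * F.l i x.1 x.2) (x.2 + β * (u - 1) * F.l i x.1 x.2) =
        F.l i x.1 x.2 + (F.r i * α + F.s i * β) * ((u - 1) * F.l i x.1 x.2) := by
      have h2 : F.l i (x.1 + α * (u - 1) * F.l i x.1 x.2) (x.2 + β * (u - 1) * F.l i x.1 x.2) =
        (F.r i * x.1 + F.s i * x.2) +
          (F.r i * α + F.s i * β) * ((u - 1) * F.l i x.1 x.2) := by
        unfold Fam.l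
        ring
      exact h2
    rw [h1]
    have h3 := (hαβ.mul_right ((u - 1) * F.l i x.1 x.2)).add_left (F.l i x.1 x.2)
    refine h3.trans ?_
    have h4 : F.l i x.1 x.2 + 1 * ((u - 1) * F.l i x.1 x.2) = u * F.l i x.1 x.2 := by ring
    rw [h4]
  have hmaps : ∀ ρ, ∀ x ∈ S ρ, f x ∈ S (ρ + 1) := by
    intro ρ x hx
    obtain ⟨hx1, h1, h2, h3, h4⟩ := Finset.mem_filter.mp hx
    rw [hS, Finset.mem_filter]
    refine ⟨Finset.mem_product.mpr ⟨Finset.mem_Ico.mpr ⟨Int.emod_nonneg _ hMpos.ne',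
      Int.emod_lt_of_pos _ hMpos⟩, Finset.mem_Ico.mpr ⟨Int.emod_nonneg _ hMpos.ne',
      Int.emod_lt_of_pos _ hMpos⟩⟩, ?_⟩
    have hl := hfl x
    have hxp : (f x).1 ≡ x.1 [ZMOD p] := by
      refine ((hf1 x).of_dvd hd).trans ?_
      apply Int.ModEq.symm
      rw [Int.modEq_iff_dvd]
      have : x.1 + α * (u - 1) * F.l i x.1 x.2 - x.1 = (α * (u - 1)) * F.l i x.1 x.2 := by ring
      rw [this]
      exact Dvd.dvd.mul_left h1 _
    have hyp : (f x).2 ≡ x.2 [ZMOD p] := by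
      refine ((hf2 x).of_dvd hd).trans ?_
      apply Int.ModEq.symm
      rw [Int.modEq_iff_dvd]
      have : x.2 + β * (u - 1) * F.l i x.1 x.2 - x.2 = (β * (u - 1)) * F.l i x.1 x.2 := by ring
      rw [this]
      exact Dvd.dvd.mul_left h1 _
    have h1' : (p : ℤ) ∣ F.l i (f x).1 (f x).2 :=
      ((hl.of_dvd hd).dvd_iff).mpr (Dvd.dvd.mul_left h1 _)
    have h2' : ¬ (p : ℤ) ^ 2 ∣ F.l i (f x).1 (f x).2 := fun h =>
      h2 (hucop.dvd_of_dvd_mul_left ((hl.dvd_iff).mp h))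
    have h3' : ¬ ((p : ℤ) ∣ (f x).1 ∧ (p : ℤ) ∣ (f x).2) := fun h =>
      h3 ⟨(hxp.dvd_iff).mp h.1, (hyp.dvd_iff).mp h.2⟩
    refine ⟨h1', h2', h3', ?_⟩
    obtain ⟨t, ht⟩ := h1
    obtain ⟨t', ht'⟩ := h1'
    have hb := cn_bit hw hp hpw i h3 h2 ht
    have hb' := cn_bit hw hp hpw i h3' h2' ht'
    rw [← h4, hb.2, hb'.2, bt_congr (cn_cong i hxp hyp)]
    have h5 : t' ≡ u * t [ZMOD p] := by
      rw [ht, ht'] at hl
      have h5 := Int.modEq_iff_dvd.mp hl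
      have e : u * (p * t) - p * t' = p * (u * t - t') := by ring
      rw [e, pow_two] at h5
      exact Int.modEq_iff_dvd.mpr ((mul_dvd_mul_iff_left hp0.ne').mp h5)
    rw [bt_congr h5, bt_mul hp hu hb.1, hub]
    ring
  have hinj : ∀ ρ, Set.InjOn f (S ρ) := by
    rintro ρ ⟨x, y⟩ hx ⟨x', y'⟩ hx' hxx
    have hx1 := Finset.mem_product.mp (Finset.mem_filter.mp hx).1
    have hx2 := Finset.mem_product.mp (Finset.mem_filter.mp hx').1
    have h1 := Finset.mem_Ico.mp hx1.1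
    have h2 := Finset.mem_Ico.mp hx1.2
    have h3 := Finset.mem_Ico.mp hx2.1
    have h4 := Finset.mem_Ico.mp hx2.2
    have hl : u * F.l i x y ≡ u * F.l i x' y' [ZMOD (p : ℤ) ^ 2] := by
      have e1 := hfl (x, y)
      rw [hxx] at e1
      exact e1.symm.trans (hfl (x', y'))
    simp only at h1 h2 h3 h4
    have h5 : F.l i x y ≡ F.l i x' y' [ZMOD (p : ℤ) ^ 2] := by
      have h6 := Int.modEq_iff_dvd.mp hl
      rw [← mul_sub] at h6
      exact Int.modEq_iff_dvd.mpr (hucop.dvd_of_dvd_mul_left h6)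
    have h6 : x + α * (u - 1) * F.l i x y ≡ x' + α * (u - 1) * F.l i x' y' [ZMOD (p : ℤ) ^ 2] := by
      have e1 := hf1 (x, y)
      rw [hxx] at e1
      exact e1.symm.trans (hf1 (x', y'))
    have h7 : y + β * (u - 1) * F.l i x y ≡ y' + β * (u - 1) * F.l i x' y' [ZMOD (p : ℤ) ^ 2] := by
      have e1 := hf2 (x, y)
      rw [hxx] at e1
      exact e1.symm.trans (hf2 (x', y'))
    have h8 : x ≡ x' [ZMOD (p : ℤ) ^ 2] := Int.ModEq.add_right_cancel (h5.mul_left _) h6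
    have h9 : y ≡ y' [ZMOD (p : ℤ) ^ 2] := Int.ModEq.add_right_cancel (h5.mul_left _) h7
    have h10 : x = x' := by
      have := h8
      unfold Int.ModEq at this
      rwa [Int.emod_eq_of_lt h1.1 h1.2, Int.emod_eq_of_lt h3.1 h3.2] at this
    have h11 : y = y' := by
      have := h9
      unfold Int.ModEq at this
      rwa [Int.emod_eq_of_lt h2.1 h2.2, Int.emod_eq_of_lt h4.1 h4.2] at this
    rw [h10, h11]
  have hle : (S ρ).card ≤ (S (ρ + 1)).card :=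
    Finset.card_le_card_of_injOn f (fun x hx => hmaps ρ x hx) (hinj ρ)
  have hdisj : Disjoint (S ρ) (S (ρ + 1)) := by
    rw [Finset.disjoint_left]
    intro x hx hx'
    have h1 := (Finset.mem_filter.mp hx).2.2.2.2
    have h2 := (Finset.mem_filter.mp hx').2.2.2.2
    rw [h1] at h2
    have h3 : ∀ r : ZMod 2, r ≠ r + 1 := by decide
    exact h3 _ h2
  have htot : (S ρ).card + (S (ρ + 1)).card ≤ p ^ 3 := by
    rw [← Finset.card_union_of_disjoint hdisj]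
    have h1 : S ρ ∪ S (ρ + 1) ⊆ (Ico (0 : ℤ) ((p : ℤ) ^ 2) ×ˢ Ico (0 : ℤ) ((p : ℤ) ^ 2)).filter
        fun x => (p : ℤ) ∣ F.r i * x.1 + F.s i * x.2 := by
      intro x hx
      rw [Finset.mem_filter]
      rcases Finset.mem_union.mp hx with h | h
      · exact ⟨(Finset.mem_filter.mp h).1, (Finset.mem_filter.mp h).2.1⟩
      · exact ⟨(Finset.mem_filter.mp h).1, (Finset.mem_filter.mp h).2.1⟩
    refine (Finset.card_le_card h1).trans ?_
    rcases hrs with h | h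
    · exact cn_line hp _ _ h
    · rw [cn_swap]
      exact cn_line hp _ _ h
  have hfin : 2 * (S ρ).card ≤ p ^ 3 := by omega
  have hfin' : (2 : ℝ) * ((S ρ).card : ℝ) ≤ (p : ℝ) ^ 3 := by exact_mod_cast hfin
  have hfin2 : ((S ρ).card : ℝ) ≤ (p : ℝ) ^ 3 / 2 := by linarith
  exact hfin2

open Classical in
theorem sq_count (hw : F.Big w) {p : ℕ} (hp : p.Prime) (hpw : w < p) :
    (((Ico (0 : ℤ) ((p : ℤ) ^ 2) ×ˢ Ico (0 : ℤ) ((p : ℤ) ^ 2)).filter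
      fun x => Sq F p x.1 x.2).card : ℝ) ≤ k * (p : ℝ) ^ 2 := by
  have h1 : ((Ico (0 : ℤ) ((p : ℤ) ^ 2) ×ˢ Ico (0 : ℤ) ((p : ℤ) ^ 2)).filter
      fun x => Sq F p x.1 x.2) ⊆ (univ : Finset (Fin k)).biUnion fun i =>
      (Ico (0 : ℤ) ((p : ℤ) ^ 2) ×ˢ Ico (0 : ℤ) ((p : ℤ) ^ 2)).filter
        fun x => (p : ℤ) ^ 2 ∣ F.r i * x.1 + F.s i * x.2 := by
    intro x hx
    obtain ⟨h2, i, hi⟩ := Finset.mem_filter.mp hx
    exact Finset.mem_biUnion.mpr ⟨i, Finset.mem_univ _, Finset.mem_filter.mpr ⟨h2, hi⟩⟩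
  have h2 : ∀ i : Fin k, ((Ico (0 : ℤ) ((p : ℤ) ^ 2) ×ˢ Ico (0 : ℤ) ((p : ℤ) ^ 2)).filter
        fun x => (p : ℤ) ^ 2 ∣ F.r i * x.1 + F.s i * x.2).card ≤ p ^ 2 := by
    intro i
    rcases exists_rs hw hpw i with h | h
    · exact cn_sq hp _ _ h
    · rw [cn_swap]
      exact cn_sq hp _ _ h
  have h3 : ((Ico (0 : ℤ) ((p : ℤ) ^ 2) ×ˢ Ico (0 : ℤ) ((p : ℤ) ^ 2)).filter
      fun x => Sq F p x.1 x.2).card ≤ k * p ^ 2 := by
    refine (Finset.card_le_card h1).trans (Finset.card_biUnion_le.trans ?_)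
    refine (Finset.sum_le_sum fun i _ => h2 i).trans ?_
    simp
  exact_mod_cast h3

end Pool.Agent.H77.SV
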