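import Pool.Agent.H77.SV.Siev
import Pool.Agent.H77.SV.Cnt

/-!
# Module CntPhi (about 220 lines): number of good pairs with prescribed states.

PROOF. Let `R = {p ∈ Pr w z : φ p ≠ none}`, `q = (prod R)^2`, `σ = 1 / log T`. If the set is empty nothing is to
prove (the right side is `≥ 0`). Otherwise take `x` in it: all `p ∈ R` divide `P(x)` and are `≤ z`, so
`prod R | sm z |P(x)|` and `(prod R)^4 ≤ T` by goodness.
For `x` in the set: for `p ∈ R` with `φ p = some none`: `p^2 | P(x)`, so `Sq F p x` (`sq_dvd_iff`); with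
`φ p = some (some (i, ρ))`: `Ex F p i ρ x` (`idx_dvd`, `sq_dvd_iff`, definition of `F.st`); for `p ∈ Pr w z ∖ R`:
`p ∤ P(x)`. (`x` coprime.) Hence `x` mod `q` lies in the set `𝒞 ⊆ [0,q)^2` of classes satisfying the
local conditions, `#𝒞 = prod_{p ∈ R} c_p` (`crt2` with `e = 2`; `ex_per`, `sq_per`), `c_p ≤ p^3/2` or
`c_p ≤ k p^2` (`ex_count`, `sq_count`), and for each class `sieve` bounds the number by
`C (T/q)^2 (log z)^(-k) prod_R (1 + k/p)`. Total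
`≤ C T^2 (log z)^(-k) prod_{p ∈ R} (c_p / p^4) (1 + k/p)`, and `c_p/p^4 (1 + k/p)` is `≤ (1 + k/p)/(2p)` resp.
`≤ 2k/p^2` (`1 + k/p ≤ 2`).
Rankin: `(prod R)^σ ≤ (T^(1/4))^σ = e^(1/4) ≤ 2`, so we may divide each exact factor by
`p^σ` and multiply the total by `2` (factors `p^(-σ)` only for the exact primes: their product is
`≥ (prod R)^(-σ) ≥ 1/2`).
-/

set_option autoImplicit false

namespace Pool.Agent.H77.SV

open Finset

variable {k : ℕ} {F : Fam k} {w : ℕ}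

/-- weight of a state of `p` -/
noncomputable def wN (k : ℕ) (σ : ℝ) (p : ℕ) : Stt k → ℝ
  | none => 1
  | some none => 2 * k / (p : ℝ) ^ 2
  | some (some _) => (1 + (k : ℝ) / p) / (2 * (p : ℝ) ^ (1 + σ))

/-- the local condition attached to a state -/
private def cphiL (F : Fam k) (s : Stt k) (p : ℕ) (x y : ℤ) : Prop :=
  match s with
  | none => True
  | some none => Sq F p x y
  | some (some a) => Ex F p a.1 a.2 x y

private theorem cphiL_per (hw : F.Big w) {p : ℕ} (hp : p.Prime) (hpw : w < p) (s : Stt k)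
    {x y x' y' : ℤ} (hx : x ≡ x' [ZMOD (p : ℤ) ^ 2]) (hy : y ≡ y' [ZMOD (p : ℤ) ^ 2])
    (h : cphiL F s p x y) : cphiL F s p x' y' := by
  rcases s with _ | _ | a
  · trivial
  · exact sq_per hx hy h
  · exact ex_per hw hp hpw a.1 a.2 hx hy h

private theorem cphi_cop {p : ℕ} (hp : p.Prime) {m n : ℤ} (hc : IsCoprime m n) :
    ¬ ((p : ℤ) ∣ m ∧ (p : ℤ) ∣ n) := by
  rintro ⟨h1, h2⟩
  have h3 := hc.isUnit_of_dvd' h1 h2
  rw [Int.isUnit_iff] at h3
  have h4 := hp.two_le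
  rcases h3 with h3 | h3 <;> omega

private theorem cphiL_st (hw : F.Big w) {p : ℕ} (hp : p.Prime) (hpw : w < p) {m n : ℤ}
    (hc : IsCoprime m n) : cphiL F (F.st m n p) p m n := by
  have hc' := cphi_cop hp hc
  unfold Fam.st
  split_ifs with h1 h2
  · exact (sq_dvd_iff hw hp hpw hc').1 h2
  · exact ⟨idx_dvd hp h1, fun h3 => h2 ((sq_dvd_iff hw hp hpw hc').2 ⟨_, h3⟩), hc', rfl⟩
  · trivial

private theorem cphi_st_none {p : ℕ} {m n : ℤ} : F.st m n p = none ↔ ¬ (p : ℤ) ∣ F.P m n := by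
  unfold Fam.st
  split_ifs with h1 h2 <;> simp [h1]

open Classical in
private theorem cphiL_count (hw : F.Big w) {p : ℕ} (hp : p.Prime) (hpw : w < p) {s : Stt k}
    (hs : s ≠ none) {σ : ℝ} (hσ : 0 ≤ σ) :
    (((Ico (0 : ℤ) ((p : ℤ) ^ 2) ×ˢ Ico (0 : ℤ) ((p : ℤ) ^ 2)).filter
      fun x => cphiL F s p x.1 x.2).card : ℝ) * (1 + (k : ℝ) / p) / (p : ℝ) ^ 4 ≤
      wN k σ p s * (p : ℝ) ^ σ := by
  have hp0 : (0 : ℝ) < p := by exact_mod_cast hp.pos
  have hp1 : (1 : ℝ) ≤ p := by exact_mod_cast hp.one_lt.le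
  have hkp : (k : ℝ) / p ≤ 1 := by
    rw [div_le_one hp0]
    have h1 := hw.hk
    have h2 : k ≤ w := by nlinarith
    exact_mod_cast (h2.trans hpw.le)
  have hk0 : 0 ≤ (k : ℝ) / p := by positivity
  have hpσ : 1 ≤ (p : ℝ) ^ σ := Real.one_le_rpow hp1 hσ
  rcases s with _ | _ | a
  · exact absurd rfl hs
  · have h1 := sq_count hw hp hpw
    have h2 : (((Ico (0 : ℤ) ((p : ℤ) ^ 2) ×ˢ Ico (0 : ℤ) ((p : ℤ) ^ 2)).filter
      fun x => cphiL F (some none) p x.1 x.2).card : ℝ) ≤ k * (p : ℝ) ^ 2 := h1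
    have h3 : wN k σ p (some none) = 2 * k / (p : ℝ) ^ 2 := rfl
    rw [h3]
    have h4 : (0 : ℝ) ≤ 2 * k / (p : ℝ) ^ 2 := by positivity
    calc _ ≤ (k * (p : ℝ) ^ 2) * 2 / (p : ℝ) ^ 4 := by
          gcongr
          linarith
      _ = 2 * k / (p : ℝ) ^ 2 := by
          field_simp
      _ ≤ _ := le_mul_of_one_le_right h4 hpσ
  · have h1 := ex_count hw hp hpw a.1 a.2
    have h2 : (((Ico (0 : ℤ) ((p : ℤ) ^ 2) ×ˢ Ico (0 : ℤ) ((p : ℤ) ^ 2)).filter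
      fun x => cphiL F (some (some a)) p x.1 x.2).card : ℝ) ≤ (p : ℝ) ^ 3 / 2 := h1
    have h3 : wN k σ p (some (some a)) = (1 + (k : ℝ) / p) / (2 * (p : ℝ) ^ (1 + σ)) := rfl
    rw [h3, Real.rpow_add hp0, Real.rpow_one]
    calc _ ≤ ((p : ℝ) ^ 3 / 2) * (1 + (k : ℝ) / p) / (p : ℝ) ^ 4 := by
          gcongr
      _ = _ := by
          have : (p : ℝ) ^ σ ≠ 0 := by positivity
          field_simp

private theorem wN_nonneg (k : ℕ) (σ : ℝ) (p : ℕ) (s : Stt k) : 0 ≤ wN k σ p s := by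
  rcases s with _ | _ | a <;> simp only [wN] <;> positivity

private theorem cphi_sm {z N : ℕ} (hN : N ≠ 0) {R : Finset ℕ}
    (hR : ∀ p ∈ R, p.Prime ∧ p ≤ z ∧ p ∣ N) : ∏ p ∈ R, p ≤ sm z N := by
  unfold sm
  have h1 : R ⊆ N.primeFactors.filter (· ≤ z) := by
    intro p hp
    obtain ⟨h2, h3, h4⟩ := hR p hp
    rw [mem_filter, Nat.mem_primeFactors]
    exact ⟨⟨h2, h4, hN⟩, h3⟩
  have h5 : ∏ p ∈ R, p ≤ ∏ p ∈ R, p ^ N.factorization p := by
    refine Finset.prod_le_prod' fun p hp => ?_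
    obtain ⟨h2, h3, h4⟩ := hR p hp
    have h6 : 1 ≤ N.factorization p := (h2.dvd_iff_one_le_factorization hN).1 h4
    exact Nat.le_self_pow (by omega) p
  refine h5.trans (Finset.prod_le_prod_of_subset_of_one_le' h1 fun p hp _ => ?_)
  have h2 : p.Prime := by
    rw [mem_filter, Nat.mem_primeFactors] at hp
    exact hp.1.1
  exact Nat.one_le_pow _ _ h2.pos

open Classical in
theorem cnt_phi (hw : F.Big w) : ∃ C : ℝ, 0 < C ∧ ∀ (T z : ℕ), w < z → z ^ 24 ≤ T →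
    ∀ φ : Pr w z → Stt k,
    (((F.box T).filter fun x => F.Good T z x.1 x.2 ∧ ∀ p : Pr w z, F.st x.1 x.2 p = φ p).card : ℝ) ≤
      C * (T : ℝ) ^ 2 / Real.log z ^ k * ∏ p : Pr w z, wN k (1 / Real.log T) p (φ p) := by
  obtain ⟨C, hC, hS⟩ := sieve hw
  refine ⟨2 * C, by positivity, fun T z hwz hzT φ => ?_⟩
  set σ : ℝ := 1 / Real.log T with hσd
  have h12 := hw.h12
  have hz12 : 12 < z := by omega
  have hT1 : 12 < T := by
    have h1 : z ≤ z ^ 24 := Nat.le_self_pow (by norm_num) z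
    omega
  have hT1' : (1 : ℝ) < T := by exact_mod_cast (by omega : 1 < T)
  have hlT : 0 < Real.log T := Real.log_pos hT1'
  have hσ : 0 ≤ σ := by positivity
  have hlz : 0 < Real.log z := Real.log_pos (by exact_mod_cast (by omega : 1 < z))
  -- extension of the state function
  let ψ : ℕ → Stt k := fun p => if h : p ∈ Pr w z then φ ⟨p, h⟩ else none
  have hψ : ∀ p : Pr w z, ψ p = φ p := by
    intro p
    simp only [ψ, p.2, dif_pos]
  let R : Finset ℕ := (Pr w z).filter fun p => ψ p ≠ none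
  have hRs : R ⊆ Pr w z := filter_subset _ _
  have hPr : ∀ p ∈ Pr w z, p.Prime ∧ w < p ∧ p ≤ z := by
    intro p hp
    unfold Pr at hp
    rw [mem_filter, mem_Ioc] at hp
    exact ⟨hp.2, hp.1.1, hp.1.2⟩
  have hRp : ∀ p ∈ R, p.Prime ∧ w < p ∧ p ≤ z := fun p hp => hPr p (hRs hp)
  have hRn : ∀ p ∈ R, ψ p ≠ none := fun p hp => (mem_filter.1 hp).2
  have hprod : ∏ p : Pr w z, wN k σ p (φ p) = ∏ p ∈ R, wN k σ p (ψ p) := by
    calc ∏ p : Pr w z, wN k σ p (φ p) = ∏ p : Pr w z, wN k σ p (ψ p) :=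
          Finset.prod_congr rfl fun p _ => by rw [hψ]
      _ = ∏ p ∈ Pr w z, wN k σ p (ψ p) :=
          Finset.prod_coe_sort (Pr w z) (fun p => wN k σ p (ψ p))
      _ = ∏ p ∈ R, wN k σ p (ψ p) := by
          symm
          refine Finset.prod_subset hRs fun p hp hpR => ?_
          have h1 : ψ p = none := by
            by_contra h2
            exact hpR (mem_filter.2 ⟨hp, h2⟩)
          rw [h1]
          rfl
  rw [hprod]
  set S := (F.box T).filter fun x => F.Good T z x.1 x.2 ∧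
    ∀ p : Pr w z, F.st x.1 x.2 p = φ p with hSd
  have hRHS : 0 ≤ 2 * C * (T : ℝ) ^ 2 / Real.log z ^ k * ∏ p ∈ R, wN k σ p (ψ p) :=
    mul_nonneg (by positivity) (Finset.prod_nonneg fun p _ => wN_nonneg k σ p _)
  -- properties of the elements of `S`
  have hx : ∀ x ∈ S, (x ∈ Icc (-(T : ℤ)) T ×ˢ Icc (-(T : ℤ)) T) ∧ IsCoprime x.1 x.2 ∧
      F.P x.1 x.2 ≠ 0 ∧ F.Good T z x.1 x.2 ∧ ∀ p ∈ Pr w z, F.st x.1 x.2 p = ψ p := by
    intro x hx
    rw [hSd, mem_filter, Fam.box, mem_filter] at hx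
    exact ⟨hx.1.1, hx.1.2.1, hx.1.2.2, hx.2.1, fun p hp => by
      rw [hx.2.2 ⟨p, hp⟩, ← hψ]⟩
  rcases S.eq_empty_or_nonempty with hE | ⟨x₀, hx₀⟩
  · rw [hE, card_empty, Nat.cast_zero]
    exact hRHS
  have hq4 : (∏ p ∈ R, p) ^ 4 ≤ T := by
    obtain ⟨_, hc, hP, hG, hst⟩ := hx x₀ hx₀
    refine le_trans (Nat.pow_le_pow_left ?_ 4) hG
    refine cphi_sm (by rwa [Int.natAbs_ne_zero]) fun p hp => ⟨(hRp p hp).1, (hRp p hp).2.2, ?_⟩
    have h1 : F.st x₀.1 x₀.2 p ≠ none := by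
      rw [hst p (hRs hp)]
      exact hRn p hp
    rw [Ne, cphi_st_none, not_not] at h1
    rwa [← Int.natCast_dvd]
  -- the modulus
  set M : ℤ := ∏ p ∈ R, (p : ℤ) ^ 2 with hM
  have hMq : M = ((∏ p ∈ R, p : ℕ) : ℤ) ^ 2 := by
    rw [hM, Nat.cast_prod, Finset.prod_pow]
  have hM0 : 0 < M := Finset.prod_pos fun p hp => by
    have := (hRp p hp).1.pos
    positivity
  have hpM : ∀ p ∈ R, (p : ℤ) ^ 2 ∣ M := fun p hp => Finset.dvd_prod_of_mem _ hp
  set 𝒞 := (Ico (0 : ℤ) M ×ˢ Ico (0 : ℤ) M).filter fun x => ∀ p ∈ R, cphiL F (ψ p) p x.1 x.2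
    with h𝒞
  have hcard : 𝒞.card = ∏ p ∈ R, ((Ico (0 : ℤ) ((p : ℤ) ^ 2) ×ˢ Ico (0 : ℤ) ((p : ℤ) ^ 2)).filter
      fun x => cphiL F (ψ p) p x.1 x.2).card :=
    crt2 R (fun p hp => (hRp p hp).1) (fun _ => 2) (fun p x y => cphiL F (ψ p) p x y)
      (fun p hp x y x' y' h1 h2 h3 => cphiL_per hw (hRp p hp).1 (hRp p hp).2.1 _ h1 h2 h3)
  -- the fibres
  set B : ℝ := C * ((T : ℝ) / ((∏ p ∈ R, p : ℕ) : ℝ) ^ 2) ^ 2 / Real.log z ^ k *
        ∏ p ∈ R, (1 + (k : ℝ) / p) with hB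
  have hmap : ∀ x ∈ S, (x.1 % M, x.2 % M) ∈ 𝒞 := by
    intro x hxS
    obtain ⟨_, hc, hP, hG, hst⟩ := hx x hxS
    rw [h𝒞, mem_filter, mem_product, mem_Ico, mem_Ico]
    refine ⟨⟨⟨Int.emod_nonneg _ hM0.ne', Int.emod_lt_of_pos _ hM0⟩,
      ⟨Int.emod_nonneg _ hM0.ne', Int.emod_lt_of_pos _ hM0⟩⟩, fun p hp => ?_⟩
    have h1 := cphiL_st hw (hRp p hp).1 (hRp p hp).2.1 hc
    rw [hst p (hRs hp)] at h1
    refine cphiL_per hw (hRp p hp).1 (hRp p hp).2.1 _ ?_ ?_ h1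
    · exact ((Int.mod_modEq x.1 M).symm.of_dvd (hpM p hp))
    · exact ((Int.mod_modEq x.2 M).symm.of_dvd (hpM p hp))
  have hfib : ∀ c ∈ 𝒞, ((S.filter fun x => (x.1 % M, x.2 % M) = c).card : ℝ) ≤ B := by
    intro c hc
    refine le_trans ?_ (hS T z R c.1 c.2 hwz hzT hRs hq4)
    norm_cast
    refine card_le_card fun x hx' => ?_
    rw [mem_filter] at hx'
    obtain ⟨hbx, hcx, hP, hG, hst⟩ := hx x hx'.1
    rw [mem_filter]
    refine ⟨hbx, ?_, ?_, fun p hp => ?_⟩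
    · have h1 : x.1 % M = c.1 := congrArg Prod.fst hx'.2
      have h2 := (Int.mod_modEq x.1 M).symm
      rw [h1] at h2
      rw [hMq] at h2
      exact_mod_cast h2
    · have h1 : x.2 % M = c.2 := congrArg Prod.snd hx'.2
      have h2 := (Int.mod_modEq x.2 M).symm
      rw [h1] at h2
      rw [hMq] at h2
      exact_mod_cast h2
    · rw [mem_sdiff] at hp
      have h1 : ψ p = none := by
        by_contra h2
        exact hp.2 (mem_filter.2 ⟨hp.1, h2⟩)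
      rw [← cphi_st_none (F := F), hst p hp.1, h1]
  have hcount : (S.card : ℝ) ≤ 𝒞.card * B := by
    rw [Finset.card_eq_sum_card_fiberwise hmap, Nat.cast_sum]
    calc _ ≤ ∑ _c ∈ 𝒞, B := Finset.sum_le_sum hfib
      _ = 𝒞.card * B := by rw [Finset.sum_const, nsmul_eq_mul]
  -- product of the local factors
  have hprod2 : (𝒞.card : ℝ) * B ≤
      C * (T : ℝ) ^ 2 / Real.log z ^ k * ∏ p ∈ R, (wN k σ p (ψ p) * (p : ℝ) ^ σ) := by
    have h1 : (𝒞.card : ℝ) * B = C * (T : ℝ) ^ 2 / Real.log z ^ k *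
        ∏ p ∈ R, ((((Ico (0 : ℤ) ((p : ℤ) ^ 2) ×ˢ Ico (0 : ℤ) ((p : ℤ) ^ 2)).filter
      fun x => cphiL F (ψ p) p x.1 x.2).card : ℝ) * (1 + (k : ℝ) / p) / (p : ℝ) ^ 4) := by
      rw [Finset.prod_div_distrib, Finset.prod_mul_distrib, ← Nat.cast_prod, ← hcard,
        Finset.prod_pow, ← Nat.cast_prod, hB]
      have h2 : ((∏ p ∈ R, p : ℕ) : ℝ) ≠ 0 := by
        have : 0 < ∏ p ∈ R, p := Finset.prod_pos fun p hp => (hRp p hp).1.pos
        positivity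
      field_simp
    rw [h1]
    refine mul_le_mul_of_nonneg_left (Finset.prod_le_prod (fun p _ => by positivity)
      fun p hp => cphiL_count hw (hRp p hp).1 (hRp p hp).2.1 (hRn p hp) hσ) (by positivity)
  have hrank : ∏ p ∈ R, (p : ℝ) ^ σ ≤ 2 := by
    have h1 : ∏ p ∈ R, (p : ℝ) ^ σ = ((∏ p ∈ R, p : ℕ) : ℝ) ^ σ := by
      rw [Nat.cast_prod, ← Real.finsetProd_rpow _ _ (fun p _ => Nat.cast_nonneg p)]
    rw [h1]
    have h2 : 0 < ∏ p ∈ R, p := Finset.prod_pos fun p hp => (hRp p hp).1.pos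
    have h3 : (0 : ℝ) < ((∏ p ∈ R, p : ℕ) : ℝ) := by exact_mod_cast h2
    rw [Real.rpow_def_of_pos h3]
    have h4 : 4 * Real.log ((∏ p ∈ R, p : ℕ) : ℝ) ≤ Real.log T := by
      have h5 : (((∏ p ∈ R, p : ℕ) : ℝ)) ^ 4 ≤ T := by exact_mod_cast hq4
      have h6 := Real.log_le_log (by positivity) h5
      rwa [Real.log_pow] at h6
    have h7 : Real.log ((∏ p ∈ R, p : ℕ) : ℝ) * σ ≤ 1 / 4 := by
      rw [hσd, mul_one_div, div_le_iff₀ hlT]
      linarith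
    calc Real.exp _ ≤ Real.exp (1 / 4) := Real.exp_le_exp.2 h7
      _ ≤ 2 := by
        have h8 := Real.exp_one_lt_d9
        have h9 : Real.exp (1 / 4) ^ 4 = Real.exp 1 := by
          rw [← Real.exp_nat_mul]; norm_num
        by_contra h10
        rw [not_le] at h10
        have h11 : (2 : ℝ) ^ 4 < Real.exp (1 / 4) ^ 4 := pow_lt_pow_left₀ h10 (by norm_num) (by norm_num)
        rw [h9] at h11
        linarith
  calc (S.card : ℝ) ≤ 𝒞.card * B := hcount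
    _ ≤ C * (T : ℝ) ^ 2 / Real.log z ^ k * ∏ p ∈ R, (wN k σ p (ψ p) * (p : ℝ) ^ σ) := hprod2
    _ = C * (T : ℝ) ^ 2 / Real.log z ^ k * (∏ p ∈ R, wN k σ p (ψ p)) * ∏ p ∈ R, (p : ℝ) ^ σ := by
        rw [Finset.prod_mul_distrib, mul_assoc]
    _ ≤ C * (T : ℝ) ^ 2 / Real.log z ^ k * (∏ p ∈ R, wN k σ p (ψ p)) * 2 :=
        mul_le_mul_of_nonneg_left hrank (mul_nonneg (by positivity)
          (Finset.prod_nonneg fun p _ => wN_nonneg k σ p _))
    _ = _ := by ring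

end Pool.Agent.H77.SV
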