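import Mathlib

/-!
# Module Crt (about 150 lines, Mathlib only): counting pairs of residues with local conditions.

PROOF. Induction on `Q`. For `Q = insert q Q'`, `M' = prod_{Q'} p^(e p)`, `m = q^(e q)`, coprime. The map
`(x, y) ↦ ((x mod m, y mod m), (x mod M', y mod M'))` is a bijection `[0, m M')^2 → [0,m)^2 × [0,M')^2`
(Chinese remainder theorem, `Int.emod_emod_of_dvd`, `Nat.chineseRemainder` / `ZMod.chineseRemainder`,
surjectivity from cardinalities), and the conditions correspond by periodicity: `L p x y` depends only on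
`x, y mod p^(e p)`, and `p^(e p)` divides `m` or `M'`.
(Possibly easier: work with `x : ℤ` and the injectivity of the map plus `Finset.card` of both sides;
`Int.emod_nonneg`, `Int.emod_lt_of_pos`, `Int.ModEq`.)
-/

set_option autoImplicit false

namespace Pool.Agent.H77.SV

open Finset

private theorem crt_bezout {m M : ℤ} (hm : 0 < m) (hM : 0 < M) (h : IsCoprime m M) {a b : ℤ}
    (ha : a ∈ Ico 0 m) (hb : b ∈ Ico 0 M) : ∃ x ∈ Ico 0 (m * M), x % m = a ∧ x % M = b := by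
  obtain ⟨u, v, huv⟩ := h
  rw [mem_Ico] at ha hb
  refine ⟨(a * (v * M) + b * (u * m)) % (m * M), ?_, ?_, ?_⟩
  · rw [mem_Ico]
    exact ⟨Int.emod_nonneg _ (mul_pos hm hM).ne', Int.emod_lt_of_pos _ (mul_pos hm hM)⟩
  · rw [Int.emod_emod_of_dvd _ (dvd_mul_right m M)]
    have e : a * (v * M) + b * (u * m) = a + m * (b * u - a * u) := by
      linear_combination a * huv
    rw [e, Int.add_mul_emod_self_left, Int.emod_eq_of_lt ha.1 ha.2]
  · rw [Int.emod_emod_of_dvd _ (dvd_mul_left M m)]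
    have e : a * (v * M) + b * (u * m) = b + M * (a * v - b * v) := by
      linear_combination b * huv
    rw [e, Int.add_mul_emod_self_left, Int.emod_eq_of_lt hb.1 hb.2]

private theorem crt_inj {m M : ℤ} (hm : 0 < m) (hM : 0 < M) (h : IsCoprime m M) {x y : ℤ}
    (hx : x ∈ Ico 0 (m * M)) (hy : y ∈ Ico 0 (m * M)) (h1 : x % m = y % m) (h2 : x % M = y % M) :
    x = y := by
  rw [mem_Ico] at hx hy
  have d1 : m ∣ x - y := Int.ModEq.dvd (Eq.symm h1)
  have d2 : M ∣ x - y := Int.ModEq.dvd (Eq.symm h2)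
  have d : m * M ∣ x - y := h.mul_dvd d1 d2
  have h3 : y ≡ x [ZMOD (m * M)] := (Int.modEq_iff_dvd).2 d
  have h4 : y % (m * M) = x % (m * M) := h3
  rw [Int.emod_eq_of_lt hx.1 hx.2, Int.emod_eq_of_lt hy.1 hy.2] at h4
  exact h4.symm

open Classical in
private theorem crt_step {m M : ℤ} (hm : 0 < m) (hM : 0 < M) (h : IsCoprime m M)
    (P Q : ℤ → ℤ → Prop)
    (hP : ∀ x y x' y' : ℤ, x ≡ x' [ZMOD m] → y ≡ y' [ZMOD m] → P x y → P x' y')
    (hQ : ∀ x y x' y' : ℤ, x ≡ x' [ZMOD M] → y ≡ y' [ZMOD M] → Q x y → Q x' y') :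
    ((Ico 0 (m * M) ×ˢ Ico 0 (m * M)).filter fun x => P x.1 x.2 ∧ Q x.1 x.2).card =
      ((Ico 0 m ×ˢ Ico 0 m).filter fun x => P x.1 x.2).card *
        ((Ico 0 M ×ˢ Ico 0 M).filter fun x => Q x.1 x.2).card := by
  rw [← Finset.card_product]
  refine Finset.card_bij (fun x _ => ((x.1 % m, x.2 % m), (x.1 % M, x.2 % M))) ?_ ?_ ?_
  · intro x hx
    rw [mem_filter, mem_product] at hx
    rw [mem_product, mem_filter, mem_filter, mem_product, mem_product]
    refine ⟨⟨⟨?_, ?_⟩, ?_⟩, ⟨?_, ?_⟩, ?_⟩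
    · exact mem_Ico.2 ⟨Int.emod_nonneg _ hm.ne', Int.emod_lt_of_pos _ hm⟩
    · exact mem_Ico.2 ⟨Int.emod_nonneg _ hm.ne', Int.emod_lt_of_pos _ hm⟩
    · exact hP _ _ _ _ (Int.mod_modEq _ _).symm (Int.mod_modEq _ _).symm hx.2.1
    · exact mem_Ico.2 ⟨Int.emod_nonneg _ hM.ne', Int.emod_lt_of_pos _ hM⟩
    · exact mem_Ico.2 ⟨Int.emod_nonneg _ hM.ne', Int.emod_lt_of_pos _ hM⟩
    · exact hQ _ _ _ _ (Int.mod_modEq _ _).symm (Int.mod_modEq _ _).symm hx.2.2
  · intro x hx y hy hxy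
    rw [mem_filter, mem_product] at hx hy
    simp only [Prod.mk.injEq] at hxy
    exact Prod.ext (crt_inj hm hM h hx.1.1 hy.1.1 hxy.1.1 hxy.2.1)
      (crt_inj hm hM h hx.1.2 hy.1.2 hxy.1.2 hxy.2.2)
  · rintro ⟨⟨a, b⟩, ⟨c, d⟩⟩ hz
    rw [mem_product, mem_filter, mem_filter, mem_product, mem_product] at hz
    obtain ⟨⟨⟨ha, hb⟩, hPab⟩, ⟨hc, hd⟩, hQcd⟩ := hz
    simp only at ha hb hPab hc hd hQcd
    obtain ⟨x, hx, hx1, hx2⟩ := crt_bezout hm hM h ha hc
    obtain ⟨y, hy, hy1, hy2⟩ := crt_bezout hm hM h hb hd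
    refine ⟨(x, y), ?_, ?_⟩
    · rw [mem_filter, mem_product]
      refine ⟨⟨hx, hy⟩, ?_, ?_⟩
      · refine hP a b x y ?_ ?_ hPab
        · rw [← hx1]; exact Int.mod_modEq _ _
        · rw [← hy1]; exact Int.mod_modEq _ _
      · refine hQ c d x y ?_ ?_ hQcd
        · rw [← hx2]; exact Int.mod_modEq _ _
        · rw [← hy2]; exact Int.mod_modEq _ _
    · simp only [Prod.mk.injEq]
      exact ⟨⟨hx1, hy1⟩, hx2, hy2⟩

open Classical in
theorem crt2 (Q : Finset ℕ) (hQ : ∀ p ∈ Q, p.Prime) (e : ℕ → ℕ) (L : ℕ → ℤ → ℤ → Prop)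
    (hL : ∀ p ∈ Q, ∀ x y x' y' : ℤ, x ≡ x' [ZMOD (p : ℤ) ^ e p] → y ≡ y' [ZMOD (p : ℤ) ^ e p] →
      L p x y → L p x' y') :
    ((Ico (0 : ℤ) (∏ p ∈ Q, (p : ℤ) ^ e p) ×ˢ Ico (0 : ℤ) (∏ p ∈ Q, (p : ℤ) ^ e p)).filter
      fun x => ∀ p ∈ Q, L p x.1 x.2).card =
    ∏ p ∈ Q, ((Ico (0 : ℤ) ((p : ℤ) ^ e p) ×ˢ Ico (0 : ℤ) ((p : ℤ) ^ e p)).filter
      fun x => L p x.1 x.2).card := by
  induction Q using Finset.induction_on with
  | empty => simp
  | insert q Q' hq ih =>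
    have hpos : ∀ p ∈ insert q Q', (0 : ℤ) < (p : ℤ) ^ e p := fun p hp =>
      pow_pos (by exact_mod_cast (hQ p hp).pos) _
    rw [prod_insert hq, prod_insert hq, ← ih (fun p hp => hQ p (mem_insert_of_mem hp))
      (fun p hp => hL p (mem_insert_of_mem hp))]
    have hcop : IsCoprime ((q : ℤ) ^ e q) (∏ p ∈ Q', (p : ℤ) ^ e p) := by
      refine IsCoprime.prod_right fun p hp => ?_
      refine IsCoprime.pow ?_
      rw [Nat.isCoprime_iff_coprime]
      refine (Nat.coprime_primes (hQ q (mem_insert_self _ _)) (hQ p (mem_insert_of_mem hp))).2 ?_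
      rintro rfl
      exact hq hp
    refine Eq.trans ?_ ((crt_step (hpos q (mem_insert_self _ _))
      (prod_pos fun p hp => hpos p (mem_insert_of_mem hp)) hcop (L q)
      (fun x y => ∀ p ∈ Q', L p x y) (hL q (mem_insert_self _ _)) ?_).trans ?_)
    · apply congrArg
      ext x
      simp only [mem_filter, forall_mem_insert]
    · intro x y x' y' hx hy hxy p hp
      have hd : ((p : ℤ) ^ e p) ∣ ∏ p ∈ Q', (p : ℤ) ^ e p :=
        dvd_prod_of_mem (fun p : ℕ => (p : ℤ) ^ e p) hp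
      exact hL p (mem_insert_of_mem hp) x y x' y' (hx.of_dvd hd) (hy.of_dvd hd) (hxy p hp)
    · apply congrArg
      apply congrArg
      ext x
      simp only [mem_filter]

end Pool.Agent.H77.SV
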