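import Pool.Agent.H77.SV.Defs
import Pool.Agent.H24.UM.Rankin

/-!
# Module SmTail (about 220 lines): integers with a large smooth part.

`sm z L = prod_{p | L, p ≤ z} p^(v_p L)`.
CLAIM. `#{L ≤ N : y < sm z L} ≤ C N exp (-log y / log z)` for `z ≥ 2`, real `y ≥ 1`.
PROOF. `η = 1/log z`. `# ≤ y^(-η) sum_{1 ≤ L ≤ N} (sm z L)^η`, `y^(-η) = exp (-log y/log z)`.
Let for a finite set `Q` of primes `S(Q, N) = sum_{1 ≤ L ≤ N} prod_{p ∈ Q} p^(η v_p(L))`.
Induction on `Q`: `S(Q, N) ≤ N prod_{p ∈ Q} c_p`, `c_p = sum_{a ≥ 0} g_p(a) p^(-a)`, `g_p(0) = 1`,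
`g_p(a) = p^(η a) - p^(η (a-1))`. Step: `p^(η v_p(L)) = sum_{a ≤ v_p(L)} g_p(a)`, so
`S(Q ∪ {p}, N) = sum_a g_p(a) sum_{L ≤ N, p^a | L} prod_{q ∈ Q} q^(η v_q(L)) = sum_a g_p(a) S(Q, N / p^a)`
(`v_q(p^a L') = v_q(L')` for `q ≠ p`; finite sums, `a ≤ log_2 N`), `≤ sum_a g_p(a) (N/p^a) prod c_q`.
(To avoid infinite sums take `c_p = 1 + sum_{a=1}^{∞}` as `tsum`, or use an explicit bound:
`sum_{a ≥ 1} (p^(η a) - p^(η(a-1))) p^(-a) = (p^η - 1)/(p - p^η)`.) For `p ≤ z`: `p^η ≤ e`, and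
`p^η - 1 ≤ 2 η log p` (`exp_le_two`, `η log p ≤ 1`), so for `p ≥ 3`, `p - p^η ≥ p - e ≥ p/12`, hence
`c_p ≤ 1 + 24 η log p/p`. For `p = 2`: `p^η = 2^(1/log z)`; if `z ≥ 3` then `2^η ≤ 2^(1/log 3) < 1.9` fine, but
for `z = 2`: `2^η = e > 2` and the series diverges. So use instead `η = 1/(2 log z)`: `p^η ≤ e^(1/2) < 1.65`,
`p - p^η ≥ p/6` for all `p ≥ 2`, `p^η - 1 ≤ 2 η log p`, `c_p ≤ 1 + 12 η log p/p`, and the final bound
becomes `y^(-η) = exp (-log y/(2 log z))`, as stated below.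
`prod_{p ≤ z} c_p ≤ exp (12 η sum_{p ≤ z} log p/p) ≤ exp (12 η (log z + C)) ≤ C'`
(`Pool.Agent.H24.UM.mertens_primes`).
-/

set_option autoImplicit false

namespace Pool.Agent.H77.SV

open Finset

/-- the weight `prod_{p in Q} q(p)^(v_p(L))` -/
private def stW (q : ℕ → ℝ) (Q : Finset ℕ) (L : ℕ) : ℝ := ∏ p ∈ Q, q p ^ L.factorization p

private lemma st_fac {p L : ℕ} (hp : p.Prime) (hL : L ≠ 0) (r : ℕ) :
    (p * L).factorization r = L.factorization r + if p = r then 1 else 0 := by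
  rw [Nat.factorization_mul hp.ne_zero hL, hp.factorization]
  simp only [Finsupp.add_apply, Finsupp.single_apply]
  ring

private lemma stW_mul {q : ℕ → ℝ} {Q : Finset ℕ} {p L : ℕ} (hp : p.Prime) (hL : L ≠ 0)
    (hpQ : p ∉ Q) : stW q Q (p * L) = stW q Q L := by
  unfold stW
  refine prod_congr rfl fun r hr => ?_
  have hne : p ≠ r := fun h => hpQ (h ▸ hr)
  rw [st_fac hp hL, if_neg hne, add_zero]

private lemma stW_nonneg {q : ℕ → ℝ} {Q : Finset ℕ} (hq : ∀ p ∈ Q, 1 ≤ q p) (L : ℕ) :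
    0 ≤ stW q Q L :=
  prod_nonneg fun p hp => pow_nonneg (by linarith [hq p hp]) _

/-- sums over multiples of `p` -/
private lemma st_sum {p : ℕ} (hp : p.Prime) (f : ℕ → ℝ) (hf : ∀ L, ¬ p ∣ L → f L = 0) (N : ℕ) :
    ∑ L ∈ Icc 1 N, f L = ∑ L ∈ Icc 1 (N / p), f (p * L) := by
  rw [← sum_filter_of_ne (p := fun L => p ∣ L) (fun L _ h => by
    by_contra hc
    exact h (hf L hc))]
  symm
  refine sum_bij (fun L _ => p * L) ?_ ?_ ?_ ?_
  · intro L hL
    rw [mem_Icc] at hL
    rw [mem_filter, mem_Icc]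
    refine ⟨⟨Nat.mul_pos hp.pos hL.1, ?_⟩, dvd_mul_right _ _⟩
    have := (Nat.le_div_iff_mul_le hp.pos).mp hL.2
    rwa [mul_comm]
  · intro a _ b _ h
    exact Nat.eq_of_mul_eq_mul_left hp.pos h
  · intro b hb
    rw [mem_filter, mem_Icc] at hb
    obtain ⟨⟨h1, h2⟩, c, rfl⟩ := hb
    refine ⟨c, ?_, rfl⟩
    rw [mem_Icc]
    refine ⟨Nat.pos_of_mul_pos_left h1, ?_⟩
    rw [Nat.le_div_iff_mul_le hp.pos, mul_comm]
    exact h2
  · intro a _
    rfl

private lemma st_step {q : ℕ → ℝ} {Q : Finset ℕ} {p : ℕ} (hp : p.Prime) (hpQ : p ∉ Q)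
    (hq1 : 1 ≤ q p) (hq2 : q p < p) {K : ℝ} (hK : 0 ≤ K)
    (hS : ∀ N : ℕ, ∑ L ∈ Icc 1 N, stW q Q L ≤ K * N) (N : ℕ) :
    ∑ L ∈ Icc 1 N, (q p ^ L.factorization p - 1) * stW q Q L ≤
      (q p - 1) / (p - q p) * K * N := by
  induction N using Nat.strong_induction_on with
  | _ N ih =>
    have hd0 : (0 : ℝ) < p - q p := by linarith
    have hp0 : (0 : ℝ) < p := by exact_mod_cast hp.pos
    rcases Nat.eq_zero_or_pos N with h0 | h0
    · subst h0
      simp
    · rw [st_sum hp _ (fun L hL => by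
        rw [Nat.factorization_eq_zero_of_not_dvd hL]
        simp)]
      have e1 : ∑ L ∈ Icc 1 (N / p), (q p ^ (p * L).factorization p - 1) * stW q Q (p * L) =
          (q p - 1) * ∑ L ∈ Icc 1 (N / p), stW q Q L +
          q p * ∑ L ∈ Icc 1 (N / p), (q p ^ L.factorization p - 1) * stW q Q L := by
        rw [mul_sum, mul_sum, ← sum_add_distrib]
        refine sum_congr rfl fun L hL => ?_
        rw [mem_Icc] at hL
        have hL0 : L ≠ 0 := by omega
        rw [stW_mul hp hL0 hpQ, st_fac hp hL0, if_pos rfl, pow_succ]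
        ring
      rw [e1]
      have h1 := hS (N / p)
      have h2 := ih (N / p) (Nat.div_lt_self h0 hp.one_lt)
      have h3 : ((N / p : ℕ) : ℝ) ≤ N / p := Nat.cast_div_le
      have h4 : K * ((N / p : ℕ) : ℝ) ≤ K * (N / p) := mul_le_mul_of_nonneg_left h3 hK
      have h5 : (q p - 1) / (p - q p) * K * ((N / p : ℕ) : ℝ) ≤
          (q p - 1) / (p - q p) * K * (N / p) :=
        mul_le_mul_of_nonneg_left h3 (mul_nonneg (div_nonneg (by linarith) hd0.le) hK)
      have h6 : (q p - 1) * ∑ L ∈ Icc 1 (N / p), stW q Q L ≤ (q p - 1) * (K * (N / p)) :=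
        mul_le_mul_of_nonneg_left (h1.trans h4) (by linarith)
      have h7 : q p * ∑ L ∈ Icc 1 (N / p), (q p ^ L.factorization p - 1) * stW q Q L ≤
          q p * ((q p - 1) / (p - q p) * K * (N / p)) :=
        mul_le_mul_of_nonneg_left (h2.trans h5) (by linarith)
      refine (add_le_add h6 h7).trans (le_of_eq ?_)
      field_simp
      ring

private lemma st_bound {q : ℕ → ℝ} (Q : Finset ℕ) (hQ : ∀ p ∈ Q, p.Prime ∧ 1 ≤ q p ∧ q p < p)
    (N : ℕ) :
    ∑ L ∈ Icc 1 N, stW q Q L ≤ (∏ p ∈ Q, (1 + (q p - 1) / (p - q p))) * N := by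
  induction Q using Finset.induction_on generalizing N with
  | empty => simp [stW]
  | insert p Q hpQ ih =>
    have hQ' : ∀ r ∈ Q, r.Prime ∧ 1 ≤ q r ∧ q r < r := fun r hr => hQ r (mem_insert_of_mem hr)
    obtain ⟨hp, hq1, hq2⟩ := hQ p (mem_insert_self _ _)
    have hK : 0 ≤ ∏ r ∈ Q, (1 + (q r - 1) / (r - q r)) := by
      refine prod_nonneg fun r hr => ?_
      obtain ⟨_, h1, h2⟩ := hQ' r hr
      have := div_nonneg (show 0 ≤ q r - 1 by linarith) (show 0 ≤ (r : ℝ) - q r by linarith)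
      linarith
    have h1 := st_step hp hpQ hq1 hq2 hK (ih hQ') N
    have h2 := ih hQ' N
    rw [prod_insert hpQ]
    have e1 : ∑ L ∈ Icc 1 N, stW q (insert p Q) L =
        ∑ L ∈ Icc 1 N, stW q Q L + ∑ L ∈ Icc 1 N, (q p ^ L.factorization p - 1) * stW q Q L := by
      rw [← sum_add_distrib]
      refine sum_congr rfl fun L _ => ?_
      have : stW q (insert p Q) L = q p ^ L.factorization p * stW q Q L := by
        unfold stW
        rw [prod_insert hpQ]
      rw [this]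
      ring
    rw [e1]
    refine (add_le_add h2 h1).trans (le_of_eq ?_)
    ring

private lemma st_sqrt : Real.exp (1 / 2) < 1.65 := by
  have h1 : Real.exp (1 / 2) * Real.exp (1 / 2) = Real.exp 1 := by
    rw [← Real.exp_add]
    norm_num
  have h2 := Real.exp_one_lt_d9
  have h3 := Real.exp_pos (1 / 2)
  nlinarith

theorem smooth_tail : ∃ C : ℝ, 0 < C ∧ ∀ (N z : ℕ) (y : ℝ), 2 ≤ z → 1 ≤ y →
    (((Icc 1 N).filter fun L : ℕ => y < (sm z L : ℝ)).card : ℝ) ≤
      C * N * Real.exp (-(Real.log y / (2 * Real.log z))) := by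
  obtain ⟨C0, hC0, hm⟩ := Pool.Agent.H24.UM.mertens_primes
  refine ⟨Real.exp (6 * (1 + C0 / Real.log 2)), Real.exp_pos _, fun N z y hz hy => ?_⟩
  have hz2 : (2 : ℝ) ≤ z := by exact_mod_cast hz
  have hl2 : 0 < Real.log 2 := Real.log_pos (by norm_num)
  have hlz2 : Real.log 2 ≤ Real.log z := Real.log_le_log (by norm_num) hz2
  have hlz : 0 < Real.log z := by linarith
  set η : ℝ := 1 / (2 * Real.log z) with hη
  have hη0 : 0 < η := by positivity
  set q : ℕ → ℝ := fun p => Real.exp (η * Real.log p) with hq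
  set Q : Finset ℕ := (Icc 1 z).filter Nat.Prime with hQdef
  have hQm : ∀ p ∈ Q, p.Prime ∧ p ≤ z := by
    intro p hp
    rw [hQdef, mem_filter, mem_Icc] at hp
    exact ⟨hp.2, hp.1.2⟩
  have hu : ∀ p ∈ Q, 0 ≤ η * Real.log p ∧ η * Real.log p ≤ 1 / 2 := by
    intro p hp
    obtain ⟨hpp, hpz⟩ := hQm p hp
    have hp1 : (1 : ℝ) ≤ p := by exact_mod_cast hpp.one_lt.le
    refine ⟨mul_nonneg hη0.le (Real.log_nonneg hp1), ?_⟩
    have h1 : Real.log p ≤ Real.log z := Real.log_le_log (by linarith) (by exact_mod_cast hpz)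
    have h2 : η * Real.log p ≤ η * Real.log z := mul_le_mul_of_nonneg_left h1 hη0.le
    have h3 : η * Real.log z = 1 / 2 := by
      rw [hη]
      field_simp
    linarith
  have hq1 : ∀ p ∈ Q, 1 ≤ q p ∧ q p < 1.65 ∧ q p ≤ 1 + 2 * (η * Real.log p) := by
    intro p hp
    obtain ⟨h1, h2⟩ := hu p hp
    refine ⟨?_, ?_, ?_⟩
    · rw [hq]
      exact Real.one_le_exp h1
    · exact (Real.exp_le_exp.mpr h2).trans_lt st_sqrt
    · exact Pool.Agent.H24.UM.exp_le_two h1 (by linarith)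
  have hQ : ∀ p ∈ Q, p.Prime ∧ 1 ≤ q p ∧ q p < p := by
    intro p hp
    have hp2 : (2 : ℝ) ≤ p := by exact_mod_cast (hQm p hp).1.two_le
    obtain ⟨h1, h2, _⟩ := hq1 p hp
    exact ⟨(hQm p hp).1, h1, by linarith⟩
  have hmain := st_bound Q hQ N
  -- the product of the constants
  have hprod : ∏ p ∈ Q, (1 + (q p - 1) / (p - q p)) ≤ Real.exp (6 * (1 + C0 / Real.log 2)) := by
    have h1 : ∏ p ∈ Q, (1 + (q p - 1) / (p - q p)) ≤
        ∏ p ∈ Q, Real.exp (12 * η * (Real.log p / p)) := by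
      refine prod_le_prod (fun p hp => ?_) (fun p hp => ?_)
      · obtain ⟨_, a1, a2⟩ := hQ p hp
        have := div_nonneg (show 0 ≤ q p - 1 by linarith) (show 0 ≤ (p : ℝ) - q p by linarith)
        linarith
      · obtain ⟨_, a1, a2⟩ := hQ p hp
        obtain ⟨_, b2, b3⟩ := hq1 p hp
        have hp2 : (2 : ℝ) ≤ p := by exact_mod_cast (hQm p hp).1.two_le
        have h2 : (q p - 1) / (p - q p) ≤ 12 * η * (Real.log p / p) := by
          rw [div_le_iff₀ (by linarith)]
          have h3 : (p : ℝ) / 6 ≤ p - q p := by linarith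
          have h4 : 0 ≤ 12 * η * (Real.log p / p) := by
            have := Real.log_nonneg (show (1 : ℝ) ≤ p by linarith)
            positivity
          have h5 := mul_le_mul_of_nonneg_left h3 h4
          have h6 : 12 * η * (Real.log p / p) * ((p : ℝ) / 6) = 2 * (η * Real.log p) := by
            field_simp
            ring
          linarith
        have h7 := Real.add_one_le_exp (12 * η * (Real.log p / p))
        linarith
    refine h1.trans ?_
    rw [← Real.exp_sum, Real.exp_le_exp, ← mul_sum]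
    have h2 := hm z Q (by omega) hQm
    have h3 := mul_le_mul_of_nonneg_left h2 (show 0 ≤ 12 * η by positivity)
    refine h3.trans ?_
    have h4 : 12 * η * (Real.log z + C0) = 6 * (1 + C0 / Real.log z) := by
      rw [hη]
      field_simp
      ring
    rw [h4]
    have h5 : C0 / Real.log z ≤ C0 / Real.log 2 := div_le_div_of_nonneg_left hC0 hl2 hlz2
    linarith
  -- Rankin
  have hsm : ∀ L ∈ Icc 1 N, Real.exp (η * Real.log (sm z L)) = stW q Q L := by
    intro L hL
    rw [mem_Icc] at hL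
    have hL0 : L ≠ 0 := by omega
    have e1 : stW q Q L = ∏ p ∈ L.primeFactors.filter (· ≤ z), q p ^ L.factorization p := by
      unfold stW
      symm
      refine prod_subset ?_ ?_
      · intro p hp
        rw [mem_filter, Nat.mem_primeFactors] at hp
        rw [hQdef, mem_filter, mem_Icc]
        exact ⟨⟨hp.1.1.pos, hp.2⟩, hp.1.1⟩
      · intro p hp hp'
        obtain ⟨h1, h2⟩ := hQm p hp
        have h3 : ¬ p ∣ L := by
          intro h
          apply hp'
          rw [mem_filter, Nat.mem_primeFactors]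
          exact ⟨⟨h1, h, hL0⟩, h2⟩
        rw [Nat.factorization_eq_zero_of_not_dvd h3, pow_zero]
    rw [e1]
    unfold sm
    rw [Nat.cast_prod, Real.log_prod (fun p hp => by
      rw [mem_filter, Nat.mem_primeFactors] at hp
      have := hp.1.1.pos
      positivity), mul_sum, Real.exp_sum]
    refine prod_congr rfl fun p _ => ?_
    rw [hq]
    simp only
    rw [← Real.exp_nat_mul]
    congr 1
    push_cast
    rw [Real.log_pow]
    ring
  have hfin : (((Icc 1 N).filter fun L : ℕ => y < (sm z L : ℝ)).card : ℝ) *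
      Real.exp (η * Real.log y) ≤ ∑ L ∈ Icc 1 N, stW q Q L := by
    calc (((Icc 1 N).filter fun L : ℕ => y < (sm z L : ℝ)).card : ℝ) *
        Real.exp (η * Real.log y)
        = ∑ _L ∈ (Icc 1 N).filter (fun L : ℕ => y < (sm z L : ℝ)),
            Real.exp (η * Real.log y) := by
          rw [sum_const, nsmul_eq_mul]
      _ ≤ ∑ L ∈ (Icc 1 N).filter (fun L : ℕ => y < (sm z L : ℝ)), stW q Q L := by
          refine sum_le_sum fun L hL => ?_
          rw [mem_filter] at hL
          rw [← hsm L hL.1, Real.exp_le_exp]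
          exact mul_le_mul_of_nonneg_left
            (Real.log_le_log (by linarith) hL.2.le) hη0.le
      _ ≤ ∑ L ∈ Icc 1 N, stW q Q L :=
          sum_le_sum_of_subset_of_nonneg (filter_subset _ _)
            (fun L _ _ => stW_nonneg (fun p hp => (hq1 p hp).1) L)
  have hey : Real.exp (-(Real.log y / (2 * Real.log z))) * Real.exp (η * Real.log y) = 1 := by
    rw [← Real.exp_add, hη]
    have : -(Real.log y / (2 * Real.log z)) + 1 / (2 * Real.log z) * Real.log y = 0 := by ring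
    rw [this, Real.exp_zero]
  have hN0 : (0 : ℝ) ≤ N := Nat.cast_nonneg N
  have h1 : (((Icc 1 N).filter fun L : ℕ => y < (sm z L : ℝ)).card : ℝ) *
      Real.exp (η * Real.log y) ≤ Real.exp (6 * (1 + C0 / Real.log 2)) * N :=
    (hfin.trans hmain).trans (mul_le_mul_of_nonneg_right hprod hN0)
  have h2 := mul_le_mul_of_nonneg_right h1
    (Real.exp_pos (-(Real.log y / (2 * Real.log z)))).le
  calc (((Icc 1 N).filter fun L : ℕ => y < (sm z L : ℝ)).card : ℝ)
      = (((Icc 1 N).filter fun L : ℕ => y < (sm z L : ℝ)).card : ℝ) *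
        (Real.exp (-(Real.log y / (2 * Real.log z))) * Real.exp (η * Real.log y)) := by
        rw [hey, mul_one]
    _ = (((Icc 1 N).filter fun L : ℕ => y < (sm z L : ℝ)).card : ℝ) *
        Real.exp (η * Real.log y) * Real.exp (-(Real.log y / (2 * Real.log z))) := by ring
    _ ≤ _ := h2

end Pool.Agent.H77.SV
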