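import Pool.Agent.H77.SV.Defs

/-!
# Module Bij (about 180 lines, only combinatorics): tuples of coprime divisors = functions on primes.

PROOF of `sum_bij`. The map `φ ↦ (j ↦ prod of the primes p ∈ Q with φ p = some j)` is a bijection from
`Q → Option J` onto `tupQ J Q`: the values are divisors of `prod Q` (squarefree product of a subset),
pairwise coprime (disjoint sets of primes); inverse: `φ p = some j` if `p | n j` (at most one `j`
by coprimality), `none` otherwise; a divisor `n` of the squarefree number `prod Q` is the product of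
the primes `p ∈ Q` dividing it (`Nat.prod_primeFactors_of_squarefree`, prime factors of `prod Q` are the
elements of `Q`). `Finset.sum_bij'` or `Finset.sum_nbij`.
PROOF of `euler`. `sum_bij` turns the left side into
`sum_φ prod_j prod_{p : φ p = some j} a j p = sum_φ prod_p b_p(φ p)` with `b_p(none) = 1`,
`b_p(some j) = a j p`, which is `prod_p (1 + sum_j a j p)` (`Finset.prod_univ_sum` /
`Fintype.sum_option`; swap the two products: every `p` belongs to at most one `j`).
PROOF of `fubini`. `n ↦ (restriction to the complement of U, restriction to U)` is a bijection: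
`n ∈ tupQ I Q` iff `v ∈ tupQ {i // i ∉ U} Q` and `u ∈ tupQ U (primes of Q not dividing prod v)`
(`u i | prod Q` and `u i` coprime to all `v j` iff `u i` divides the product of the primes of `Q` not
dividing `prod v`).
-/

set_option autoImplicit false

namespace Pool.Agent.H77.SV

open Finset

private lemma bj_sqf (Q : Finset ℕ) (hQ : ∀ p ∈ Q, p.Prime) : Squarefree (∏ p ∈ Q, p) := by
  induction Q using Finset.induction_on with
  | empty => simp
  | insert q Q hq ih =>
    rw [Finset.prod_insert hq]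
    have h1 := ih fun p hp => hQ p (Finset.mem_insert_of_mem hp)
    have hqp := hQ q (Finset.mem_insert_self _ _)
    have hcop : Nat.Coprime q (∏ p ∈ Q, p) := by
      apply Nat.Coprime.prod_right
      intro p hp
      refine (Nat.coprime_primes hqp (hQ p (Finset.mem_insert_of_mem hp))).mpr ?_
      rintro rfl
      exact hq hp
    exact (Nat.squarefree_mul hcop).mpr ⟨hqp.squarefree, h1⟩

private lemma bj_iff {J : Type} [Fintype J] [DecidableEq J] {Q : Finset ℕ}
    (hQ : ∀ p ∈ Q, p.Prime) {n : J → ℕ} : n ∈ tupQ J Q ↔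
    (∀ j, n j ≠ 0 ∧ Squarefree (n j) ∧ ∀ p ∈ (n j).primeFactors, p ∈ Q) ∧
      ∀ i j, i ≠ j → (n i).Coprime (n j) := by
  unfold tupQ
  rw [Finset.mem_filter, Fintype.mem_piFinset]
  have hQ0 : ∏ p ∈ Q, p ≠ 0 := Finset.prod_ne_zero_iff.mpr fun p hp => (hQ p hp).ne_zero
  refine and_congr_left fun _ => forall_congr' fun j => ?_
  rw [Nat.mem_divisors]
  constructor
  · rintro ⟨h1, _⟩
    refine ⟨ne_zero_of_dvd_ne_zero hQ0 h1, (bj_sqf Q hQ).squarefree_of_dvd h1, fun p hp => ?_⟩
    have h2 := Nat.primeFactors_mono h1 hQ0 hp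
    rwa [Nat.primeFactors_prod hQ] at h2
  · rintro ⟨h1, h2, h3⟩
    refine ⟨?_, hQ0⟩
    rw [← Nat.prod_primeFactors_of_squarefree h2]
    exact Finset.prod_dvd_prod_of_subset _ _ _ h3

private lemma bj_pf {J : Type} [DecidableEq J] (Q : Finset ℕ)
    (hQ : ∀ p ∈ Q, p.Prime) (φ : Q → Option J) (j : J) {p : ℕ} (hp : p.Prime) :
    p ∣ (∏ q : Q, if φ q = some j then (q : ℕ) else 1) ↔ ∃ h : p ∈ Q, φ ⟨p, h⟩ = some j := by
  rw [hp.prime.dvd_finsetProd_iff]
  constructor
  · rintro ⟨q, _, h⟩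
    split_ifs at h with h2
    · have h3 := (Nat.prime_dvd_prime_iff_eq hp (hQ q q.2)).mp h
      subst h3
      exact ⟨q.2, h2⟩
    · exact absurd (Nat.dvd_one.mp h) hp.one_lt.ne'
  · rintro ⟨h, h2⟩
    refine ⟨⟨p, h⟩, Finset.mem_univ _, ?_⟩
    rw [if_pos h2]

private lemma bj_mem {J : Type} [Fintype J] [DecidableEq J] (Q : Finset ℕ)
    (hQ : ∀ p ∈ Q, p.Prime) (φ : Q → Option J) :
    (fun j => ∏ p : Q, if φ p = some j then (p : ℕ) else 1) ∈ tupQ J Q := by
  unfold tupQ
  rw [Finset.mem_filter, Fintype.mem_piFinset]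
  have hQ0 : ∏ p ∈ Q, p ≠ 0 := Finset.prod_ne_zero_iff.mpr fun p hp => (hQ p hp).ne_zero
  constructor
  · intro j
    rw [Nat.mem_divisors]
    refine ⟨?_, hQ0⟩
    rw [← Finset.prod_coe_sort Q (fun p => p)]
    apply Finset.prod_dvd_prod_of_dvd
    intro p _
    split_ifs
    · exact dvd_refl _
    · exact one_dvd _
  · intro i j hij
    apply Nat.coprime_of_dvd
    intro p hp h1 h2
    obtain ⟨h3, h4⟩ := (bj_pf Q hQ φ i hp).mp h1
    obtain ⟨h5, h6⟩ := (bj_pf Q hQ φ j hp).mp h2
    rw [h4] at h6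
    exact hij (Option.some_injective _ h6)

open Classical in
private noncomputable def bjInv {J : Type} (Q : Finset ℕ) (n : J → ℕ) : Q → Option J := fun p =>
  if h : ∃ j, (p : ℕ) ∣ n j then some h.choose else none

private lemma bjInv_iff {J : Type} [Fintype J] [DecidableEq J] {Q : Finset ℕ}
    (hQ : ∀ p ∈ Q, p.Prime) {n : J → ℕ} (hn : ∀ i j, i ≠ j → (n i).Coprime (n j)) (p : Q) (j : J) :
    bjInv Q n p = some j ↔ (p : ℕ) ∣ n j := by
  unfold bjInv
  constructor
  · intro h
    split_ifs at h with h2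
    have h3 := h2.choose_spec
    rw [Option.some_injective _ h] at h3
    exact h3
  · intro h
    have h2 : ∃ j, (p : ℕ) ∣ n j := ⟨j, h⟩
    rw [dif_pos h2]
    congr 1
    by_contra h3
    have h4 := hn _ _ h3
    exact Nat.not_coprime_of_dvd_of_dvd (hQ p p.2).one_lt h2.choose_spec h h4

theorem sum_bij {J : Type} [Fintype J] [DecidableEq J] (Q : Finset ℕ)
    (hQ : ∀ p ∈ Q, p.Prime) (g : (J → ℕ) → ℝ) :
    ∑ n ∈ tupQ J Q, g n =
      ∑ φ : Q → Option J, g (fun j => ∏ p : Q, if φ p = some j then (p : ℕ) else 1) := by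
  refine Finset.sum_bij' (fun n _ => bjInv Q n)
    (fun φ _ => fun j => ∏ p : Q, if φ p = some j then (p : ℕ) else 1)
    (fun n _ => Finset.mem_univ _) (fun φ _ => bj_mem Q hQ φ) ?_ ?_ ?_
  · intro n hn
    obtain ⟨h1, h2⟩ := (bj_iff hQ).mp hn
    funext j
    have h3 : ∀ p : Q, (if bjInv Q n p = some j then (p : ℕ) else 1) =
        (fun q : ℕ => if q ∣ n j then q else 1) p := by
      intro p
      by_cases h : (p : ℕ) ∣ n j
      · rw [if_pos ((bjInv_iff hQ h2 p j).mpr h)]
        simp only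
        rw [if_pos h]
      · rw [if_neg (fun h4 => h ((bjInv_iff hQ h2 p j).mp h4))]
        simp only
        rw [if_neg h]
    simp only [h3]
    rw [Finset.prod_coe_sort Q (fun q : ℕ => if q ∣ n j then q else 1), ← Finset.prod_filter]
    have h5 : Q.filter (fun q => q ∣ n j) = (n j).primeFactors := by
      ext p
      rw [Finset.mem_filter, Nat.mem_primeFactors]
      constructor
      · rintro ⟨h6, h7⟩
        exact ⟨hQ p h6, h7, (h1 j).1⟩
      · intro h6
        exact ⟨(h1 j).2.2 p (Nat.mem_primeFactors.mpr h6), h6.2.1⟩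
    rw [h5]
    exact Nat.prod_primeFactors_of_squarefree (h1 j).2.1
  · intro φ _
    have hm := bj_mem Q hQ φ
    obtain ⟨h1, h2⟩ := (bj_iff hQ).mp hm
    funext p
    rcases hφ : φ p with _ | j
    · rcases hb : bjInv Q (fun j => ∏ p : Q, if φ p = some j then (p : ℕ) else 1) p with _ | j
      · rfl
      · rw [bjInv_iff hQ h2] at hb
        obtain ⟨_, h4⟩ := (bj_pf Q hQ φ j (hQ p p.2)).mp hb
        rw [hφ] at h4
        exact absurd h4 (by simp)
    · rw [bjInv_iff hQ h2]
      exact (bj_pf Q hQ φ j (hQ p p.2)).mpr ⟨p.2, hφ⟩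
  · intro n hn
    obtain ⟨h1, h2⟩ := (bj_iff hQ).mp hn
    congr 1
    funext j
    have h3 : ∀ p : Q, (if bjInv Q n p = some j then (p : ℕ) else 1) =
        (fun q : ℕ => if q ∣ n j then q else 1) p := by
      intro p
      by_cases h : (p : ℕ) ∣ n j
      · rw [if_pos ((bjInv_iff hQ h2 p j).mpr h)]
        simp only
        rw [if_pos h]
      · rw [if_neg (fun h4 => h ((bjInv_iff hQ h2 p j).mp h4))]
        simp only
        rw [if_neg h]
    simp only [h3]
    rw [Finset.prod_coe_sort Q (fun q : ℕ => if q ∣ n j then q else 1), ← Finset.prod_filter]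
    have h5 : Q.filter (fun q => q ∣ n j) = (n j).primeFactors := by
      ext p
      rw [Finset.mem_filter, Nat.mem_primeFactors]
      constructor
      · rintro ⟨h6, h7⟩
        exact ⟨hQ p h6, h7, (h1 j).1⟩
      · intro h6
        exact ⟨(h1 j).2.2 p (Nat.mem_primeFactors.mpr h6), h6.2.1⟩
    rw [h5]
    exact (Nat.prod_primeFactors_of_squarefree (h1 j).2.1).symm

theorem euler {J : Type} [Fintype J] [DecidableEq J] (Q : Finset ℕ)
    (hQ : ∀ p ∈ Q, p.Prime) (a : J → ℕ → ℝ) :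
    ∑ n ∈ tupQ J Q, ∏ j, ∏ p ∈ (n j).primeFactors, a j p = ∏ p ∈ Q, (1 + ∑ j, a j p) := by
  rw [sum_bij Q hQ (fun n => ∏ j, ∏ p ∈ (n j).primeFactors, a j p)]
  have h1 : ∀ φ : Q → Option J, (∏ j, ∏ p ∈
      (∏ p : Q, if φ p = some j then (p : ℕ) else 1).primeFactors, a j p) =
      ∏ p : Q, (match φ p with | none => (1 : ℝ) | some j => a j p) := by
    intro φ
    have h2 : ∀ j, ∏ p ∈ (∏ p : Q, if φ p = some j then (p : ℕ) else 1).primeFactors, a j p =
        ∏ p : Q, if φ p = some j then a j p else 1 := by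
      intro j
      have hm := ((bj_iff hQ).mp (bj_mem Q hQ φ)).1 j
      have h9 : (∏ p : Q, if φ p = some j then a j p else 1) =
          ∏ p ∈ univ.filter (fun p : Q => φ p = some j), a j p := (Finset.prod_filter _ _).symm
      rw [h9]
      refine (Finset.prod_bij (fun (p : Q) _ => (p : ℕ)) ?_ ?_ ?_ ?_).symm
      · intro p hp
        rw [Nat.mem_primeFactors]
        exact ⟨hQ p p.2, (bj_pf Q hQ φ j (hQ p p.2)).mpr ⟨p.2, (Finset.mem_filter.mp hp).2⟩, hm.1⟩
      · intro p _ q _ hpq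
        exact Subtype.ext hpq
      · intro p hp
        rw [Nat.mem_primeFactors] at hp
        obtain ⟨h3, h4⟩ := (bj_pf Q hQ φ j hp.1).mp hp.2.1
        exact ⟨⟨p, h3⟩, Finset.mem_filter.mpr ⟨Finset.mem_univ _, h4⟩, rfl⟩
      · intro p _
        rfl
    simp only [h2]
    rw [Finset.prod_comm]
    apply Finset.prod_congr rfl
    intro p _
    rcases φ p with _ | j
    · simp
    · simp
  simp only [h1]
  have h3 := Finset.prod_univ_sum (fun _ : Q => (univ : Finset (Option J)))
    (fun (p : Q) (o : Option J) => (match o with | none => (1 : ℝ) | some j => a j p))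
  rw [Fintype.piFinset_univ] at h3
  rw [← h3, ← Finset.prod_coe_sort Q (fun p => 1 + ∑ j, a j p)]
  apply Finset.prod_congr rfl
  intro p _
  rw [Fintype.sum_option]

theorem fubini {I : Type} [Fintype I] [DecidableEq I] (Q : Finset ℕ)
    (hQ : ∀ p ∈ Q, p.Prime) (U : Finset I) (g : (I → ℕ) → ℝ) :
    ∑ n ∈ tupQ I Q, g n =
      ∑ v ∈ tupQ {i // i ∉ U} Q, ∑ u ∈ tupQ U (Q.filter fun p => ¬ p ∣ ∏ j, v j),
        g (glue U u v) := by
  have hQ' : ∀ v : {i // i ∉ U} → ℕ, ∀ p ∈ Q.filter (fun p => ¬ p ∣ ∏ j, v j), p.Prime :=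
    fun v p hp => hQ p (Finset.mem_filter.mp hp).1
  rw [Finset.sum_sigma']
  refine Finset.sum_bij' (fun n _ => (⟨fun i => n i.1, fun i => n i.1⟩ :
    Σ _ : {i // i ∉ U} → ℕ, (U → ℕ))) (fun x _ => glue U x.2 x.1) ?_ ?_ ?_ ?_ ?_
  · intro n hn
    obtain ⟨h1, h2⟩ := (bj_iff hQ).mp hn
    rw [Finset.mem_sigma]
    refine ⟨(bj_iff hQ).mpr ⟨fun j => h1 j.1, fun i j hij => h2 _ _ fun h => hij (Subtype.ext h)⟩,
      (bj_iff (hQ' _)).mpr ⟨fun j => ⟨(h1 j.1).1, (h1 j.1).2.1, fun p hp => ?_⟩,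
        fun i j hij => h2 _ _ fun h => hij (Subtype.ext h)⟩⟩
    rw [Finset.mem_filter]
    refine ⟨(h1 j.1).2.2 p hp, fun h3 => ?_⟩
    have hpp := Nat.prime_of_mem_primeFactors hp
    rw [hpp.prime.dvd_finsetProd_iff] at h3
    obtain ⟨i, _, h4⟩ := h3
    have hij : i.1 ≠ j.1 := fun h => i.2 (h ▸ j.2)
    exact Nat.not_coprime_of_dvd_of_dvd hpp.one_lt h4 (Nat.dvd_of_mem_primeFactors hp) (h2 _ _ hij)
  · rintro ⟨v, u⟩ hx
    rw [Finset.mem_sigma] at hx
    obtain ⟨hv, hu⟩ := hx
    simp only at hv hu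
    obtain ⟨h1, h2⟩ := (bj_iff hQ).mp hv
    obtain ⟨h3, h4⟩ := (bj_iff (hQ' v)).mp hu
    have h5 : ∀ (i : U) (j : {i // i ∉ U}), (u i).Coprime (v j) := by
      intro i j
      apply Nat.coprime_of_dvd
      intro p hp hpu hpv
      have h6 := (h3 i).2.2 p (Nat.mem_primeFactors.mpr ⟨hp, hpu, (h3 i).1⟩)
      exact (Finset.mem_filter.mp h6).2 (hpv.trans (Finset.dvd_prod_of_mem v (Finset.mem_univ j)))
    refine (bj_iff hQ).mpr ⟨?_, ?_⟩
    · intro j
      simp only [glue]
      split_ifs with h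
      · exact ⟨(h3 _).1, (h3 _).2.1, fun p hp => (Finset.mem_filter.mp ((h3 _).2.2 p hp)).1⟩
      · exact h1 _
    · intro i j hij
      simp only [glue]
      split_ifs with h h' h'
      · exact h4 _ _ fun h6 => hij (congrArg Subtype.val h6)
      · exact h5 _ _
      · exact (h5 _ _).symm
      · exact h2 _ _ fun h6 => hij (congrArg Subtype.val h6)
  · intro n _
    funext i
    simp only [glue]
    split_ifs <;> rfl
  · rintro ⟨v, u⟩ _
    have h1 : (fun i : {i // i ∉ U} => glue U u v i.1) = v := by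
      funext i
      simp only [glue]
      rw [dif_neg i.2]
    have h2 : (fun i : U => glue U u v i.1) = u := by
      funext i
      simp only [glue]
      rw [dif_pos i.2]
    exact Sigma.ext h1 (heq_of_eq h2)
  · intro n _
    congr 1
    funext i
    simp only [glue]
    split_ifs <;> rfl

/-- basic properties of tuples -/
theorem mem_tupQ {J : Type} [Fintype J] [DecidableEq J] {Q : Finset ℕ}
    (hQ : ∀ p ∈ Q, p.Prime) {n : J → ℕ} (hn : n ∈ tupQ J Q) :
    (∀ j, n j ≠ 0 ∧ Squarefree (n j) ∧ ∀ p ∈ (n j).primeFactors, p ∈ Q) ∧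
      ∀ i j, i ≠ j → (n i).Coprime (n j) :=
  (bj_iff hQ).mp hn

end Pool.Agent.H77.SV
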