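import Pool.Agent.H77.SV.Defs

/-!
# Module SelSum (about 200 lines): character expansion of the size of the Selmer set and average over
the twist bits.

PROOF. Write `S` for the finite set of primes. For each `p` and each state
`x = (i, ρ)`: `VV`, `CC` of the type are subgroups of `F_2^2`, and for every `u : V2`
`(1 / #C) sum_{c ∈ C} sg (dot c u) = 1` if `dot c u = 0` for all `c ∈ C`, and `= 0` otherwise
(finite check: `decide`-like over the four types; or: `C` is a group of characters).
`sg (s + t) = sg s * sg t`, `sg 0 = 1`, `sum_{ρ : ZMod 2} sg (ρ t) = 2` if `t = 0`, `0` if `t = 1`.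
Hence (`Finset.card_filter`, product over `p` of indicator functions)
`#Sel ψ = sum_{v : S → V2} prod_p L_p(ψ p, v)` where `L_p(none, v) = [v p = 0]` and
`L_p(some (i, ρ), v) = [v p ∈ VV] (1/#CC) sum_{c ∈ CC} sg (dot c (lin S v p) + ρ dot c (v p) +
dot c (mat (N i p) (v p)))`   (in `ZMod 2` the equation `a = b + c` is `a + b + c = 0`).
Multiply by `prod_p (x p if ψ p ≠ none)` and sum over `ψ : S → Option (Fin k × ZMod 2)`: for fixed `v`
the sum over `ψ` of the product over `p` is the product over `p` of sums over the state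
(`Finset.prod_univ_sum` / `Fintype.piFinset_univ`), namely
`M_p(v) = [v p = 0] + x p sum_i [v p ∈ VV_i] (1/#CC_i) sum_{c ∈ CC_i} (sum_ρ sg (ρ dot c (v p)))
  sg (dot c (lin S v p) + dot c (mat (N i p) (v p)))`
`= [v p = 0] + sum over states y = (i, v', c) : Idx ty with v' = v p of 2 x p wtI y
  sg (dot c (lin S v p)) sg (dot c (mat (N i p) v'))`.
So `M_p(v) = sum over Option (Idx ty) ∋ o with (vector of o) = v p` of
`pt o * sg (dot c_o (lin S v p))` (`vector of none = 0`, `pt none = 1`, `c_none = 0`).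
Multiply over `p` and sum over `v`: the pairs (`v`, choice of `o_p` with vector `v p` for each `p`)
correspond to the functions `φ : S → Option (Idx ty)` (`v` is determined by `φ`). Finally
`dot c_p (lin S v p) = sum_{q ≠ p} bt p q * dot c_p (v q)`, so
`sg (...) = prod_{q ≠ p} sg (bt p q * dot c_p (v q))`; for `φ p = none` or `φ q = none` the factor is `1`
(`c = 0` or `v q = 0`), otherwise `dot c_p v_q = EI ty (φ p) (φ q)`.
-/

set_option autoImplicit false

namespace Pool.Agent.H77.SV

open Finset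

variable {k : ℕ} (ty : Fin k → Ty) (N : Fin k → ℕ → V2 × V2) (S : Finset ℕ)

/-- local factor of a state -/
noncomputable def pt (x : ℕ → ℝ) (p : ℕ) : Option (Idx ty) → ℝ
  | none => 1
  | some y => 2 * x p * wtI ty y * sg (dot y.1.2.2 (mat (N y.1.1 p) y.1.2.1))

/-- interaction of the states of two primes -/
noncomputable def pr (p q : ℕ) : Option (Idx ty) → Option (Idx ty) → ℝ
  | some y, some y' => sg (bt p q * EI ty y y')
  | _, _ => 1

private def sgZ (t : ZMod 2) : ℤ := if t = 0 then 1 else -1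

private theorem sg_cast (t : ZMod 2) : sg t = ((sgZ t : ℤ) : ℝ) := by
  unfold sg sgZ; split_ifs <;> simp

private theorem sgZ_add : ∀ s t : ZMod 2, sgZ (s + t) = sgZ s * sgZ t := by decide

private theorem SelSum_sg_add (s t : ZMod 2) : sg (s + t) = sg s * sg t := by
  rw [sg_cast, sg_cast, sg_cast, sgZ_add]; push_cast; ring

private theorem SelSum_sg_zero : sg 0 = 1 := by simp [sg]

private theorem SelSum_sg_sum {ι : Type} (T : Finset ι) (f : ι → ZMod 2) :
    sg (∑ i ∈ T, f i) = ∏ i ∈ T, sg (f i) := by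
  classical
  induction T using Finset.induction_on with
  | empty => simp [SelSum_sg_zero]
  | insert a T ha ih => rw [Finset.sum_insert ha, Finset.prod_insert ha, SelSum_sg_add, ih]

private theorem SelSum_keyZ : ∀ (t : Ty) (V L M : V2),
    ((CC t).card : ℤ) * ∑ ρ : ZMod 2,
      (if (V ∈ VV t ∧ ∀ c ∈ CC t, dot c L = ρ * dot c V + dot c M) then (1 : ℤ) else 0) =
    ∑ c : V2, if (V ∈ VV t ∧ c ∈ CC t ∧ dot c V = 0) then
      2 * (sgZ (dot c M) * sgZ (dot c L)) else 0 := by
  decide +kernel

private theorem SelSum_card_pos : ∀ t : Ty, 0 < (CC t).card := by decide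

private theorem SelSum_key (t : Ty) (V L M : V2) :
    (∑ ρ : ZMod 2,
      (if (V ∈ VV t ∧ ∀ c ∈ CC t, dot c L = ρ * dot c V + dot c M) then (1 : ℝ) else 0)) =
    ∑ c : V2, if (V ∈ VV t ∧ c ∈ CC t ∧ dot c V = 0) then
      2 * (1 / ((CC t).card : ℝ)) * (sg (dot c M) * sg (dot c L)) else 0 := by
  have h := SelSum_keyZ t V L M
  have hc : ((CC t).card : ℝ) ≠ 0 := by
    have := SelSum_card_pos t
    positivity
  have h2 : ((CC t).card : ℝ) * (∑ ρ : ZMod 2,
      (if (V ∈ VV t ∧ ∀ c ∈ CC t, dot c L = ρ * dot c V + dot c M) then (1 : ℝ) else 0)) =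
      ∑ c : V2, if (V ∈ VV t ∧ c ∈ CC t ∧ dot c V = 0) then
      2 * (sg (dot c M) * sg (dot c L)) else 0 := by
    have h3 := congrArg (fun z : ℤ => (z : ℝ)) h
    simp only [Int.cast_mul, Int.cast_natCast, Int.cast_sum, Int.cast_ite, Int.cast_one,
      Int.cast_zero, Int.cast_ofNat] at h3
    simp only [sg_cast]
    exact h3
  have h4 : (∑ c : V2, if (V ∈ VV t ∧ c ∈ CC t ∧ dot c V = 0) then
      2 * (1 / ((CC t).card : ℝ)) * (sg (dot c M) * sg (dot c L)) else 0) =
      (1 / ((CC t).card : ℝ)) * ∑ c : V2, if (V ∈ VV t ∧ c ∈ CC t ∧ dot c V = 0) then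
      2 * (sg (dot c M) * sg (dot c L)) else 0 := by
    rw [Finset.mul_sum]
    refine Finset.sum_congr rfl fun c _ => ?_
    split_ifs
    · ring
    · ring
  rw [h4, ← h2]
  field_simp

/-- local factor of a state of the Selmer condition -/
private noncomputable def gl (x : ℕ → ℝ) (v : S → V2) (p : S) : Option (Fin k × ZMod 2) → ℝ
  | none => if v p = 0 then 1 else 0
  | some y => x p * (if (v p ∈ VV (ty y.1) ∧ ∀ c ∈ CC (ty y.1), dot c (lin S v p) =
      y.2 * dot c (v p) + dot c (mat (N y.1 p) (v p))) then 1 else 0)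

private def vecO : Option (Idx ty) → V2
  | none => 0
  | some y => y.1.2.1

private def cO : Option (Idx ty) → V2
  | none => 0
  | some y => y.1.2.2

private theorem SelSum_step1 (x : ℕ → ℝ) (ψ : S → Option (Fin k × ZMod 2)) :
    (∏ p : S, (if (ψ p).isSome then x p else 1)) * ((Sel ty N S ψ).card : ℝ) =
    ∑ v : S → V2, ∏ p : S, gl ty N S x v p (ψ p) := by
  classical
  unfold Sel
  rw [Finset.natCast_card_filter, Finset.mul_sum]
  refine Finset.sum_congr rfl fun v _ => ?_
  have h1 : ∀ p : S, gl ty N S x v p (ψ p) =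
      if LocC ty N S ψ v p then (if (ψ p).isSome then x p else 1) else 0 := by
    intro p
    unfold LocC
    rcases hψ : ψ p with _ | y
    · simp [gl]
    · simp [gl]
  rw [Finset.prod_congr rfl fun p _ => h1 p, Finset.prod_ite_zero]
  simp only [Finset.mem_univ, forall_true_left]
  split_ifs with h
  · rw [mul_one]
  · rw [mul_zero]

private theorem SelSum_step2 (x : ℕ → ℝ) (v : S → V2) (p : S) :
    ∑ o : Option (Fin k × ZMod 2), gl ty N S x v p o =
    ∑ o : Option (Idx ty), if vecO ty o = v p then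
      pt ty N x p o * sg (dot (cO ty o) (lin S v p)) else 0 := by
  classical
  rw [Fintype.sum_option, Fintype.sum_option]
  congr 1
  · have hd : dot (0 : V2) (lin S v p) = 0 := by simp [dot]
    simp only [gl, vecO, cO, pt, hd, SelSum_sg_zero, mul_one]
    by_cases h : v p = 0
    · rw [if_pos h, if_pos h.symm]
    · rw [if_neg h, if_neg fun h' => h h'.symm]
  · have e1 : (∑ y : Idx ty, if vecO ty (some y) = v p then
        pt ty N x p (some y) * sg (dot (cO ty (some y)) (lin S v p)) else 0) =
        ∑ y : Idx ty, (fun z : Fin k × V2 × V2 => if z.2.1 = v p then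
          2 * x p * (1 / ((CC (ty z.1)).card : ℝ)) * sg (dot z.2.2 (mat (N z.1 p) z.2.1)) *
            sg (dot z.2.2 (lin S v p)) else 0) y.1 := by
      refine Finset.sum_congr rfl fun y _ => ?_
      by_cases hy : y.1.2.1 = v p
      · rw [if_pos (show vecO ty (some y) = v p from hy)]
        simp only [cO, pt, wtI]
        rw [if_pos hy]
      · rw [if_neg (show ¬ vecO ty (some y) = v p from hy)]
        simp only
        rw [if_neg hy]
    rw [e1, ← Finset.sum_subtype (univ.filter fun z : Fin k × V2 × V2 =>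
      z.2.1 ∈ VV (ty z.1) ∧ z.2.2 ∈ CC (ty z.1) ∧ dot z.2.2 z.2.1 = 0) (by simp)
      (fun z : Fin k × V2 × V2 => if z.2.1 = v p then
          2 * x p * (1 / ((CC (ty z.1)).card : ℝ)) * sg (dot z.2.2 (mat (N z.1 p) z.2.1)) *
            sg (dot z.2.2 (lin S v p)) else 0)]
    rw [Finset.sum_filter, Fintype.sum_prod_type, Fintype.sum_prod_type]
    refine Finset.sum_congr rfl fun i _ => ?_
    rw [Fintype.sum_prod_type, Finset.sum_eq_single (v p)]
    · simp only [gl]
      rw [← Finset.mul_sum, SelSum_key, Finset.mul_sum]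
      refine Finset.sum_congr rfl fun c _ => ?_
      by_cases h : v p ∈ VV (ty i) ∧ c ∈ CC (ty i) ∧ dot c (v p) = 0
      · rw [if_pos h, if_pos h, if_pos trivial]
        ring
      · rw [if_neg h, if_neg h, mul_zero]
    · intro V' _ hV'
      refine Finset.sum_eq_zero fun c _ => ?_
      simp only [if_neg hV', ite_self]
    · intro h
      exact absurd (Finset.mem_univ _) h

private theorem SelSum_step3 (φ : S → Option (Idx ty)) (p : S) :
    sg (dot (cO ty (φ p)) (lin S (fun q => vecO ty (φ q)) p)) =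
      ∏ q ∈ univ.erase p, pr ty p q (φ p) (φ q) := by
  classical
  have hd : ∀ (c : V2) (T : Finset S) (f : S → V2), dot c (∑ q ∈ T, f q) = ∑ q ∈ T, dot c (f q) := by
    intro c T f
    unfold dot
    rw [Prod.fst_sum, Prod.snd_sum, Finset.mul_sum, Finset.mul_sum, ← Finset.sum_add_distrib]
  unfold lin
  rw [hd, SelSum_sg_sum]
  refine Finset.prod_congr rfl fun q _ => ?_
  have hs : ∀ (c : V2) (b : ZMod 2) (u : V2), dot c (b • u) = b * dot c u := by
    intro c b u
    simp only [dot, Prod.smul_fst, Prod.smul_snd, smul_eq_mul]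
    ring
  rw [hs]
  show sg (bt p q * dot (cO ty (φ p)) (vecO ty (φ q))) = pr ty p q (φ p) (φ q)
  rcases hp : φ p with _ | y
  · have h0 : dot (cO ty none) (vecO ty (φ q)) = 0 := by simp [dot, cO]
    rw [h0, mul_zero, SelSum_sg_zero]
    rfl
  · rcases hq : φ q with _ | y'
    · have h0 : dot (cO ty (some y)) (vecO ty none) = 0 := by simp [dot, vecO]
      rw [h0, mul_zero, SelSum_sg_zero]
      rfl
    · rfl

theorem sum_sel (x : ℕ → ℝ) :
    ∑ ψ : S → Option (Fin k × ZMod 2),
      (∏ p : S, (if (ψ p).isSome then x p else 1)) * ((Sel ty N S ψ).card : ℝ) =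
    ∑ φ : S → Option (Idx ty), (∏ p : S, pt ty N x p (φ p)) *
      ∏ p : S, ∏ q ∈ univ.erase p, pr ty p q (φ p) (φ q) := by
  classical
  have h1 : (∑ ψ : S → Option (Fin k × ZMod 2),
      (∏ p : S, (if (ψ p).isSome then x p else 1)) * ((Sel ty N S ψ).card : ℝ)) =
      ∑ v : S → V2, ∏ p : S, ∑ o : Option (Fin k × ZMod 2), gl ty N S x v p o := by
    rw [Finset.sum_congr rfl fun ψ _ => SelSum_step1 ty N S x ψ, Finset.sum_comm]
    refine Finset.sum_congr rfl fun v _ => ?_
    rw [Finset.prod_univ_sum, Fintype.piFinset_univ]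
  rw [h1]
  have h2 : (∑ v : S → V2, ∏ p : S, ∑ o : Option (Fin k × ZMod 2), gl ty N S x v p o) =
      ∑ v : S → V2, ∑ φ : S → Option (Idx ty), ∏ p : S, (if vecO ty (φ p) = v p then
        pt ty N x p (φ p) * sg (dot (cO ty (φ p)) (lin S v p)) else 0) := by
    refine Finset.sum_congr rfl fun v _ => ?_
    rw [Finset.prod_congr rfl fun p _ => SelSum_step2 ty N S x v p, Finset.prod_univ_sum,
      Fintype.piFinset_univ]
  rw [h2, Finset.sum_comm]
  refine Finset.sum_congr rfl fun φ _ => ?_
  rw [Finset.sum_eq_single (fun p => vecO ty (φ p))]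
  · rw [← Finset.prod_mul_distrib]
    refine Finset.prod_congr rfl fun p _ => ?_
    rw [if_pos rfl, SelSum_step3 ty S φ p]
  · intro v _ hv
    have : ∃ p, vecO ty (φ p) ≠ v p := by
      by_contra hcon
      push Not at hcon
      exact hv (funext fun p => (hcon p).symm)
    obtain ⟨p, hp⟩ := this
    exact Finset.prod_eq_zero (Finset.mem_univ p) (if_neg hp)
  · intro h
    exact absurd (Finset.mem_univ _) h

end Pool.Agent.H77.SV
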