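import Pool.Agent.H77.SV.Wdf
import Pool.Agent.H77.SV.Bij
import Pool.Agent.H77.SV.SelSum
import Pool.Agent.H77.SV.Lc

/-!
# Module Conn (about 200 lines): the average of the Selmer sizes is the sum of Theorem W.

PROOF. `D = wdf F w hw`, `S = Pr w X` (`D.w = w`, `D.tup X = tupQ _ (Pr w X)`). Apply `sum_sel` with
`x p = (1 + k/p) / (2 p^(1+σ))` and `sum_bij` with `J = Idx F.ty`, `Q = Pr w X`, `g = D.term σ`; compare the
two sums over `φ : S → Option (Idx F.ty)` term by term. Let `n i = prod_{p : φ p = some i} p`.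
* `(n i).primeFactors` is the set of these primes, so `D.ff σ i (n i) = prod_{φ p = some i} D.f σ i p` and
  `2 x p wtI i = D.f σ i p`.
* `jacobiSym (K i) (n i) = prod_{φ p = some i} jacobiSym (K i) p` (multiplicativity in the lower argument;
  `jacobiSym.list_prod_right` or induction with `jacobiSym.mul_right`), and
  `sg (dot c (mat (N i p) v)) = jacobiSym (KI (i,v,c)) p`: `dot c (mat N v) = sum_{x,y} c_x N_xy v_y`, `N_xy = bt p
  (K_xy)`, `sg (s + t) = sg s sg t`, `sg (bt p a) = jacobiSym a p` for `p ∤ a` (`sg_bt`, `K_ndvd`),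
  `jacobiSym.mul_left`. So `prod_i jacobiSym (K i) (n i) = prod_{p} sg (...)`.
* `jac (n j) (n i) = prod_{p | n i} prod_{q | n j} jacobiSym q p`, and for primes `p ≠ q` in `S`,
  `jacobiSym q p = sg (bt p q)`; for `E i j = 1`: `sg (bt p q * 1)`; for `E i j = 0` both factors are `1`.
  `E i i = 0`, so only pairs `i ≠ j` matter and then `p ≠ q`; and for `p ≠ q` with
  `φ p = φ q = some i` the factor `pr` is `sg (bt p q * 0) = 1`.
  So `prod_i prod_j (if E i j = 1 then jac (n j) (n i) else 1) = prod_p prod_{q ≠ p} pr`.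
All primes involved are `> w ≥ 12`, in particular odd.
-/

set_option autoImplicit false

namespace Pool.Agent.H77.SV

open Finset

variable {k : ℕ} {F : Fam k} {w : ℕ}

private theorem conn_pf {Q : Finset ℕ} (hQ : ∀ p ∈ Q, p.Prime) (s : Q → Prop) [DecidablePred s]
    (g : ℕ → ℝ) :
    ∏ p ∈ (∏ p : Q, if s p then (p : ℕ) else 1).primeFactors, g p
      = ∏ p : Q, if s p then g p else 1 := by
  have h1 : (∏ p : Q, if s p then (p : ℕ) else 1)
      = ∏ p ∈ (univ.filter s).map ⟨Subtype.val, Subtype.val_injective⟩, p := by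
    rw [Finset.prod_map, Finset.prod_filter]
    rfl
  rw [h1, Nat.primeFactors_prod, Finset.prod_map, Finset.prod_filter]
  · rfl
  · intro p hp
    rw [Finset.mem_map] at hp
    obtain ⟨q, _, rfl⟩ := hp
    exact hQ q q.2

private theorem conn_jac_right (a : ℤ) {ι : Type*} (s : Finset ι) (f : ι → ℕ)
    (hf : ∀ i ∈ s, f i ≠ 0) :
    jacobiSym a (∏ i ∈ s, f i) = ∏ i ∈ s, jacobiSym a (f i) := by
  classical
  induction s using Finset.induction_on with
  | empty => simp
  | insert x s hx ih =>
    rw [Finset.prod_insert hx, Finset.prod_insert hx]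
    have h1 : f x ≠ 0 := hf x (mem_insert_self x s)
    have h2 : ∏ i ∈ s, f i ≠ 0 := Finset.prod_ne_zero_iff.mpr fun i hi =>
      hf i (mem_insert_of_mem hi)
    have : NeZero (f x) := ⟨h1⟩
    have : NeZero (∏ i ∈ s, f i) := ⟨h2⟩
    rw [jacobiSym.mul_right, ih fun i hi => hf i (mem_insert_of_mem hi)]

private theorem conn_jac_left (b : ℕ) {ι : Type*} (s : Finset ι) (f : ι → ℤ) :
    jacobiSym (∏ i ∈ s, f i) b = ∏ i ∈ s, jacobiSym (f i) b := by
  classical
  induction s using Finset.induction_on with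
  | empty => simp
  | insert x s hx ih =>
    rw [Finset.prod_insert hx, Finset.prod_insert hx, jacobiSym.mul_left, ih]

private theorem conn_jac_K {Q : Finset ℕ} (hQ : ∀ p ∈ Q, p.Prime) (s : Q → Prop)
    [DecidablePred s] (a : ℤ) :
    ((jacobiSym a (∏ p : Q, if s p then (p : ℕ) else 1) : ℤ) : ℝ)
      = ∏ p : Q, if s p then ((jacobiSym a p : ℤ) : ℝ) else 1 := by
  rw [conn_jac_right]
  · push_cast
    refine Finset.prod_congr rfl fun p _ => ?_
    split_ifs
    · rfl
    · simp
  · intro p _
    split_ifs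
    · exact (hQ p p.2).ne_zero
    · exact one_ne_zero

private theorem conn_jac_split {Q : Finset ℕ} (hQ : ∀ p ∈ Q, p.Prime) (s t : Q → Prop)
    [DecidablePred s] [DecidablePred t] :
    jac (∏ q : Q, if t q then (q : ℕ) else 1) (∏ p : Q, if s p then (p : ℕ) else 1)
      = ∏ p : Q, ∏ q : Q, if s p then (if t q then jac q p else 1) else 1 := by
  unfold jac
  rw [conn_jac_K hQ]
  refine Finset.prod_congr rfl fun p _ => ?_
  split_ifs with h
  · push_cast
    rw [conn_jac_left]
    push_cast
    refine Finset.prod_congr rfl fun q _ => ?_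
    split_ifs
    · rfl
    · simp
  · simp

private theorem conn_sg_add (s t : ZMod 2) : sg (s + t) = sg s * sg t := by
  have h : ∀ a : ZMod 2, a = 0 ∨ a = 1 := by decide
  have e : (1 : ZMod 2) + 1 = 0 := by decide
  have e1 : (1 : ZMod 2) ≠ 0 := by decide
  rcases h s with rfl | rfl <;> rcases h t with rfl | rfl <;> simp [sg, e]

private theorem conn_sg_K {p : ℕ} (hp : p.Prime) {a : ℤ} (ha : ¬ (p : ℤ) ∣ a) (c v : ZMod 2) :
    sg (c * v * bt p a) = ((jacobiSym (if c * v = 1 then a else 1) p : ℤ) : ℝ) := by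
  have h : ∀ a : ZMod 2, a = 0 ∨ a = 1 := by decide
  have e1 : (0 : ZMod 2) ≠ 1 := by decide
  rcases h (c * v) with h0 | h0
  · rw [h0, if_neg e1, zero_mul]
    simp [sg]
  · rw [h0, if_pos rfl, one_mul]
    exact sg_bt hp ha

private theorem conn_mem {w X p : ℕ} (h : p ∈ Pr w X) : p.Prime ∧ w < p := by
  unfold Pr at h
  rw [mem_filter, mem_Ioc] at h
  exact ⟨h.2, h.1.1⟩

private theorem conn_sg (hw : F.Big w) {p : ℕ} (hp : p.Prime) (hpw : w < p) (y : Idx F.ty) :
    sg (dot y.1.2.2 (mat (F.N y.1.1 p) y.1.2.1)) = ((jacobiSym (F.KI y) p : ℤ) : ℝ) := by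
  obtain ⟨h11, h12, h21, h22⟩ := K_ndvd hw hp hpw y.1.1
  have e : dot y.1.2.2 (mat (F.N y.1.1 p) y.1.2.1)
      = (y.1.2.2.1 * y.1.2.1.1 * bt p (F.K y.1.1).1.1
          + y.1.2.2.1 * y.1.2.1.2 * bt p (F.K y.1.1).1.2)
        + (y.1.2.2.2 * y.1.2.1.1 * bt p (F.K y.1.1).2.1
          + y.1.2.2.2 * y.1.2.1.2 * bt p (F.K y.1.1).2.2) := by
    unfold dot mat Fam.N dot
    simp only
    ring
  rw [e, conn_sg_add, conn_sg_add, conn_sg_add, conn_sg_K hp h11, conn_sg_K hp h12,
    conn_sg_K hp h21, conn_sg_K hp h22]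
  unfold Fam.KI
  rw [jacobiSym.mul_left, jacobiSym.mul_left, jacobiSym.mul_left]
  push_cast
  ring

private theorem conn_pair {J : Type*} [Fintype J] [DecidableEq J] (a b : Option J) (c : ℝ)
    (E : J → J → ZMod 2) :
    (∏ i : J, ∏ j : J, if E i j = 1 then (if a = some i then (if b = some j then c else 1) else 1)
        else 1)
      = (match a, b with
        | some i, some j => if E i j = 1 then c else 1
        | _, _ => 1) := by
  cases a with
  | none => simp
  | some i0 =>
    cases b with
    | none => simp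
    | some j0 =>
      simp only [Option.some.injEq]
      rw [Finset.prod_eq_single i0]
      · rw [Finset.prod_eq_single j0]
        · simp
        · intro j _ hj
          simp [Ne.symm hj]
        · intro h
          exact absurd (mem_univ _) h
      · intro i _ hi
        simp [Ne.symm hi]
      · intro h
        exact absurd (mem_univ _) h

private theorem conn_single {J : Type*} [Fintype J] [DecidableEq J] (a : Option J)
    (g : J → ℝ) :
    (∏ i : J, if a = some i then g i else 1)
      = (match a with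
        | some i => g i
        | none => 1) := by
  cases a with
  | none => simp
  | some i0 =>
    simp only [Option.some.injEq]
    rw [Finset.prod_ite_eq]
    simp

theorem sum_eq_W (hw : F.Big w) {σ : ℝ} (hσ : 0 < σ) (X : ℕ) :
    ∑ ψ : Pr w X → Option (Fin k × ZMod 2),
      (∏ p : Pr w X, (if (ψ p).isSome then (1 + (k : ℝ) / p) / (2 * (p : ℝ) ^ (1 + σ)) else 1)) *
        ((Sel F.ty F.N (Pr w X) ψ).card : ℝ) = (wdf F w hw).W σ X := by
  classical
  have h1 := sum_sel F.ty F.N (Pr w X) (fun p => (1 + (k : ℝ) / p) / (2 * (p : ℝ) ^ (1 + σ)))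
  refine Eq.trans h1 ?_
  have hQ : ∀ p ∈ Pr w X, p.Prime := fun p hp => (conn_mem hp).1
  have h2 := sum_bij (J := Idx F.ty) (Pr w X) hQ ((wdf F w hw).term σ)
  show _ = ∑ n ∈ tupQ (Idx F.ty) (Pr w X), (wdf F w hw).term σ n
  rw [h2]
  refine Finset.sum_congr rfl fun φ _ => ?_
  symm
  have hterm : (wdf F w hw).term σ (fun j => ∏ p : Pr w X, if φ p = some j then (p : ℕ) else 1)
      = (∏ i, ((wdf F w hw).ff σ i (∏ p : Pr w X, if φ p = some i then (p : ℕ) else 1)
          * ((jacobiSym (F.KI i) (∏ p : Pr w X, if φ p = some i then (p : ℕ) else 1) : ℤ) : ℝ))) *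
        ∏ i, ∏ j, (if EI F.ty i j = 1 then
          jac (∏ p : Pr w X, if φ p = some j then (p : ℕ) else 1)
            (∏ p : Pr w X, if φ p = some i then (p : ℕ) else 1) else 1) := rfl
  rw [hterm]
  congr 1
  · have hi : ∀ i : Idx F.ty,
        ((wdf F w hw).ff σ i (∏ p : Pr w X, if φ p = some i then (p : ℕ) else 1)
          * ((jacobiSym (F.KI i) (∏ p : Pr w X, if φ p = some i then (p : ℕ) else 1) : ℤ) : ℝ))
        = ∏ p : Pr w X, if φ p = some i then
            ((wdf F w hw).f σ i p * ((jacobiSym (F.KI i) p : ℤ) : ℝ)) else 1 := by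
      intro i
      unfold WD.ff
      rw [conn_pf hQ (fun p => φ p = some i), conn_jac_K hQ (fun p => φ p = some i),
        ← Finset.prod_mul_distrib]
      refine Finset.prod_congr rfl fun p _ => ?_
      split_ifs
      · rfl
      · simp
    rw [Finset.prod_congr rfl fun i _ => hi i, Finset.prod_comm]
    refine Finset.prod_congr rfl fun p _ => ?_
    rw [conn_single]
    obtain ⟨hp1, hp2⟩ := conn_mem p.2
    cases hφ : φ p with
    | none => rfl
    | some y =>
      simp only [pt]
      rw [conn_sg hw hp1 hp2 y]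
      unfold WD.f
      show wtI F.ty y * (1 + (k : ℝ) / ((p : ℕ) : ℝ)) / ((p : ℕ) : ℝ) ^ (1 + σ)
        * ((jacobiSym (F.KI y) p : ℤ) : ℝ) = _
      have hpp : (0 : ℝ) < ((p : ℕ) : ℝ) ^ (1 + σ) :=
        Real.rpow_pos_of_pos (by exact_mod_cast hp1.pos) _
      field_simp
  · have hij : ∀ i j : Idx F.ty, (if EI F.ty i j = 1 then
          jac (∏ p : Pr w X, if φ p = some j then (p : ℕ) else 1)
            (∏ p : Pr w X, if φ p = some i then (p : ℕ) else 1) else 1)
        = ∏ p : Pr w X, ∏ q : Pr w X, (if EI F.ty i j = 1 then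
            (if φ p = some i then (if φ q = some j then jac q p else 1) else 1) else 1) := by
      intro i j
      split_ifs with h
      · rw [conn_jac_split hQ (fun p => φ p = some i) (fun p => φ p = some j)]
      · simp
    have h3 : (∏ i, ∏ j, (if EI F.ty i j = 1 then
          jac (∏ p : Pr w X, if φ p = some j then (p : ℕ) else 1)
            (∏ p : Pr w X, if φ p = some i then (p : ℕ) else 1) else 1))
        = ∏ p : Pr w X, ∏ q : Pr w X, ∏ i, ∏ j, (if EI F.ty i j = 1 then
            (if φ p = some i then (if φ q = some j then jac q p else 1) else 1) else 1) := by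
      rw [Finset.prod_congr rfl fun i _ => Finset.prod_congr rfl fun j _ => hij i j]
      rw [Finset.prod_congr rfl fun i _ => Finset.prod_comm]
      rw [Finset.prod_comm]
      refine Finset.prod_congr rfl fun p _ => ?_
      rw [Finset.prod_congr rfl fun i _ => Finset.prod_comm]
      rw [Finset.prod_comm]
    rw [h3]
    refine Finset.prod_congr rfl fun p _ => ?_
    rw [← Finset.mul_prod_erase univ _ (mem_univ p)]
    obtain ⟨hp1, hp2⟩ := conn_mem p.2
    have h4 : (∏ i, ∏ j, (if EI F.ty i j = 1 then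
            (if φ p = some i then (if φ p = some j then jac p p else 1) else 1) else 1)) = 1 := by
      rw [conn_pair]
      cases hφ : φ p with
      | none => rfl
      | some y =>
        have hE : EI F.ty y y = 0 := (wdf F w hw).hE y
        have e1 : (0 : ZMod 2) ≠ 1 := by decide
        simp only [hE]
        rw [if_neg e1]
    rw [h4, one_mul]
    refine Finset.prod_congr rfl fun q hq => ?_
    rw [conn_pair]
    have hqp : q ≠ p := Finset.ne_of_mem_erase hq
    obtain ⟨hq1, hq2⟩ := conn_mem q.2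
    cases hφ : φ p with
    | none => rfl
    | some y =>
      cases hψ : φ q with
      | none => rfl
      | some y' =>
        simp only [pr]
        have hnd : ¬ ((p : ℕ) : ℤ) ∣ ((q : ℕ) : ℤ) := by
          intro hd
          have hd' : (p : ℕ) ∣ (q : ℕ) := by exact_mod_cast hd
          exact hqp (Subtype.ext ((Nat.prime_dvd_prime_iff_eq hp1 hq1).mp hd').symm)
        have h : ∀ a : ZMod 2, a = 0 ∨ a = 1 := by decide
        have e1 : (0 : ZMod 2) ≠ 1 := by decide
        rcases h (EI F.ty y y') with h0 | h0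
        · rw [h0, if_neg e1, mul_zero]
          simp [sg]
        · rw [h0, if_pos rfl, mul_one, sg_bt hp1 hnd]
          rfl

end Pool.Agent.H77.SV
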