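import Pool.Agent.H77.SV.Defs

/-!
# Module Mono (about 130 lines): monotonicity in the set of primes.

PROOF. Extend `ψ : S → Option _` to `S' ⊇ S` by `none` (injective map from the functions on `S` to the
functions on `S'`). The product does not change (the new factors are `1`), and the Selmer sets are in
bijection: `v ∈ Sel S ψ` extends by `0` to `v' ∈ Sel S' ψ'` (condition at the new primes: `v' p = 0`; at
the old primes `lin S' v' p = lin S v p`, because the new terms vanish), and every element of `Sel S' ψ'`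
arises (it vanishes outside `S`). All terms are nonnegative, so the sum over `S'` is larger.
-/

set_option autoImplicit false

namespace Pool.Agent.H77.SV

open Finset

/-- extension of a function on `S` by a default value -/
private def mono_ext {α : Type} (S S' : Finset ℕ) (d : α) (f : S → α) : S' → α :=
  fun p => if h : (p : ℕ) ∈ S then f ⟨p, h⟩ else d

private lemma mono_ext_mem {α : Type} {S S' : Finset ℕ} (h : S ⊆ S') (d : α) (f : S → α) (p : S) :
    mono_ext S S' d f ⟨p, h p.2⟩ = f p := by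
  simp [mono_ext]

private lemma mono_ext_not_mem {α : Type} {S S' : Finset ℕ} (d : α) (f : S → α) (p : S')
    (hp : (p : ℕ) ∉ S) : mono_ext S S' d f p = d := by
  simp [mono_ext, hp]

private lemma mono_ext_inj {α : Type} {S S' : Finset ℕ} (h : S ⊆ S') (d : α) :
    Function.Injective (mono_ext S S' d) := by
  intro f g hfg
  funext p
  have h1 := congrFun hfg ⟨p, h p.2⟩
  rwa [mono_ext_mem h, mono_ext_mem h] at h1

private lemma mono_lin {S S' : Finset ℕ} (h : S ⊆ S') (v : S → V2) (p : S) :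
    lin S' (mono_ext S S' 0 v) ⟨p, h p.2⟩ = lin S v p := by
  unfold lin
  symm
  refine Finset.sum_of_injOn (fun q : S => (⟨q, h q.2⟩ : S')) ?_ ?_ ?_ ?_
  · intro a _ b _ hab
    have h1 : (a : ℕ) = b := congrArg (fun t : S' => (t : ℕ)) hab
    exact Subtype.ext h1
  · intro q hq
    have hq' : q ∈ univ.erase p := hq
    have hne : q ≠ p := (Finset.mem_erase.mp hq').1
    refine Finset.mem_coe.mpr (Finset.mem_erase.mpr ⟨?_, Finset.mem_univ _⟩)
    intro hab
    have h1 : (q : ℕ) = p := congrArg (fun t : S' => (t : ℕ)) hab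
    exact hne (Subtype.ext h1)
  · intro i hi hni
    have hiS : (i : ℕ) ∉ S := by
      intro hiS
      apply hni
      refine ⟨⟨i, hiS⟩, ?_, ?_⟩
      · refine Finset.mem_coe.mpr (Finset.mem_erase.mpr ⟨?_, Finset.mem_univ _⟩)
        intro hab
        apply (Finset.mem_erase.mp hi).1
        have h1 : (i : ℕ) = p := congrArg Subtype.val hab
        exact Subtype.ext h1
      · exact Subtype.ext rfl
    rw [mono_ext_not_mem _ _ _ hiS, smul_zero]
  · intro q _
    rw [mono_ext_mem h]

private lemma mono_sel {k : ℕ} (ty : Fin k → Ty) (N : Fin k → ℕ → V2 × V2) {S S' : Finset ℕ}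
    (h : S ⊆ S') (ψ : S → Option (Fin k × ZMod 2)) :
    (Sel ty N S ψ).card ≤ (Sel ty N S' (mono_ext S S' none ψ)).card := by
  classical
  refine Finset.card_le_card_of_injOn (mono_ext S S' 0) ?_ (mono_ext_inj h 0).injOn
  intro v hv
  have hv' : v ∈ Sel ty N S ψ := hv
  have hv1 : ∀ p : S, LocC ty N S ψ v p := by
    rw [Sel, Finset.mem_filter] at hv'
    exact hv'.2
  refine Finset.mem_coe.mpr ?_
  rw [Sel, Finset.mem_filter]
  refine ⟨Finset.mem_univ _, ?_⟩
  intro p
  by_cases hp : (p : ℕ) ∈ S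
  · have h2 := hv1 ⟨p, hp⟩
    have e1 : mono_ext S S' none ψ p = ψ ⟨p, hp⟩ := mono_ext_mem h none ψ ⟨p, hp⟩
    have e2 : mono_ext S S' 0 v p = v ⟨p, hp⟩ := mono_ext_mem h 0 v ⟨p, hp⟩
    have e3 : lin S' (mono_ext S S' 0 v) p = lin S v ⟨p, hp⟩ := mono_lin h v ⟨p, hp⟩
    unfold LocC at h2 ⊢
    rw [e1, e2, e3]
    exact h2
  · have e1 : mono_ext S S' none ψ p = none := mono_ext_not_mem _ _ _ hp
    have e2 : mono_ext S S' 0 v p = 0 := mono_ext_not_mem _ _ _ hp
    unfold LocC
    rw [e1]
    exact e2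

private lemma mono_prod {k : ℕ} {S S' : Finset ℕ} (h : S ⊆ S') (x : ℕ → ℝ)
    (ψ : S → Option (Fin k × ZMod 2)) :
    ∏ p : S, (if (ψ p).isSome then x p else 1) =
      ∏ p : S', (if (mono_ext S S' none ψ p).isSome then x p else 1) := by
  refine Finset.prod_of_injOn (fun q : S => (⟨q, h q.2⟩ : S')) ?_ ?_ ?_ ?_
  · intro a _ b _ hab
    have h1 : (a : ℕ) = b := congrArg (fun t : S' => (t : ℕ)) hab
    exact Subtype.ext h1
  · intro q _
    exact Finset.mem_coe.mpr (Finset.mem_univ _)
  · intro i _ hni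
    have hiS : (i : ℕ) ∉ S := by
      intro hiS
      apply hni
      exact ⟨⟨i, hiS⟩, Finset.mem_coe.mpr (Finset.mem_univ _), Subtype.ext rfl⟩
    rw [mono_ext_not_mem _ _ _ hiS]
    simp
  · intro q _
    rw [mono_ext_mem h]

theorem sum_sel_mono {k : ℕ} (ty : Fin k → Ty) (N : Fin k → ℕ → V2 × V2) {S S' : Finset ℕ}
    (h : S ⊆ S') (x : ℕ → ℝ) (hx : ∀ p, 0 ≤ x p) :
    ∑ ψ : S → Option (Fin k × ZMod 2),
      (∏ p : S, (if (ψ p).isSome then x p else 1)) * ((Sel ty N S ψ).card : ℝ) ≤
    ∑ ψ : S' → Option (Fin k × ZMod 2),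
      (∏ p : S', (if (ψ p).isSome then x p else 1)) * ((Sel ty N S' ψ).card : ℝ) := by
  have hnn : ∀ ψ : S' → Option (Fin k × ZMod 2),
      0 ≤ (∏ p : S', (if (ψ p).isSome then x p else 1)) * ((Sel ty N S' ψ).card : ℝ) := by
    intro ψ
    refine mul_nonneg (Finset.prod_nonneg fun p _ => ?_) (Nat.cast_nonneg _)
    split_ifs
    · exact hx p
    · exact zero_le_one
  calc ∑ ψ : S → Option (Fin k × ZMod 2),
      (∏ p : S, (if (ψ p).isSome then x p else 1)) * ((Sel ty N S ψ).card : ℝ)
      ≤ ∑ ψ : S → Option (Fin k × ZMod 2),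
        (∏ p : S', (if (mono_ext S S' none ψ p).isSome then x p else 1)) *
          ((Sel ty N S' (mono_ext S S' none ψ)).card : ℝ) := by
        refine Finset.sum_le_sum fun ψ _ => ?_
        rw [mono_prod h x ψ]
        refine mul_le_mul_of_nonneg_left (Nat.cast_le.mpr (mono_sel ty N h ψ)) ?_
        refine Finset.prod_nonneg fun p _ => ?_
        split_ifs
        · exact hx p
        · exact zero_le_one
    _ = ∑ ψ ∈ Finset.univ.image (mono_ext (α := Option (Fin k × ZMod 2)) S S' none),
        (∏ p : S', (if (ψ p).isSome then x p else 1)) * ((Sel ty N S' ψ).card : ℝ) := by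
        rw [Finset.sum_image (mono_ext_inj h none).injOn]
    _ ≤ ∑ ψ : S' → Option (Fin k × ZMod 2),
        (∏ p : S', (if (ψ p).isSome then x p else 1)) * ((Sel ty N S' ψ).card : ℝ) :=
        Finset.sum_le_sum_of_subset_of_nonneg (Finset.subset_univ _) fun ψ _ _ => hnn ψ

end Pool.Agent.H77.SV
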