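import Pool.Agent.H77.SV.ThmW
import Pool.Agent.H77.SV.Conn
import Pool.Agent.H77.SV.Mono

/-!
# Module SelAvg (about 60 lines): the average of the Selmer sizes.

PROOF. Given `σ` and `z` choose `X = max z ⌈exp (1/σ^2)⌉`; `Pr w z ⊆ Pr w X`. `sum_sel_mono`,
`sum_eq_W`, `thmW` for `wdf F w hw` (`kappa = k`). The constant may be taken `≥ 0`.
-/

set_option autoImplicit false

namespace Pool.Agent.H77.SV

open Finset

variable {k : ℕ} {F : Fam k} {w : ℕ}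

theorem sel_avg (hw : F.Big w) : ∃ C : ℝ, 0 < C ∧ ∀ σ : ℝ, 0 < σ → σ ≤ 1 / 2 → ∀ z : ℕ,
    ∑ ψ : Pr w z → Option (Fin k × ZMod 2),
      (∏ p : Pr w z, (if (ψ p).isSome then (1 + (k : ℝ) / p) / (2 * (p : ℝ) ^ (1 + σ)) else 1)) *
        ((Sel F.ty F.N (Pr w z) ψ).card : ℝ) ≤ C * σ ^ (-(k : ℝ)) := by
  classical
  obtain ⟨C, hC⟩ := (wdf F w hw).thmW
  refine ⟨max C 1, by positivity, fun σ hσ hσ1 z => ?_⟩
  set X := max z ⌈Real.exp (1 / σ ^ 2)⌉₊ with hX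
  have hsub : Pr w z ⊆ Pr w X := by
    intro p hp
    unfold Pr at hp ⊢
    rw [mem_filter, mem_Ioc] at hp ⊢
    exact ⟨⟨hp.1.1, hp.1.2.trans (le_max_left _ _)⟩, hp.2⟩
  have h1 := sum_sel_mono F.ty F.N hsub
    (fun p => (1 + (k : ℝ) / p) / (2 * (p : ℝ) ^ (1 + σ))) (fun p => by positivity)
  refine h1.trans ?_
  rw [sum_eq_W hw hσ X]
  have h2 := hC σ hσ hσ1 X ((Nat.le_ceil _).trans (by exact_mod_cast le_max_right _ _))
  refine (le_abs_self _).trans (h2.trans ?_)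
  have h3 : (0:ℝ) ≤ σ ^ (-(k : ℝ)) := Real.rpow_nonneg hσ.le _
  exact mul_le_mul_of_nonneg_right (le_max_left _ _) h3

end Pool.Agent.H77.SV
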