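import Pool.Agent.H77.SV.Defs
import Mathlib.AlgebraicGeometry.EllipticCurve.Affine.AddSubMap

/-!
# Module AddSub (about 150 lines): the map `addSubMap` of Mathlib really is
`(P, Q) ↦ (P + Q, P - Q)` on `x`-coordinates, for the curves `y^2 = x (x - A) (x - B)`.

PROOF. The left side is nonzero (`WeierstrassCurve.addSubMap_ne_zero` with
`WeierstrassCurve.Affine.Point.sym2x_ne_zero`; needs `IsElliptic`: the discriminant of the curve is
`16 A^2 B^2 (A - B)^2`), the right side also (`sym2x_ne_zero`), so it suffices to show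
proportionality, and in each case one can write down `t`. Here `b₂ = -4 (A+B)`, `b₄ = 2 A B`,
`b₆ = 0`, `b₈ = -(A B)^2`.  Write `sym2x P Q = (s, t, u)`; the map is
`F = (s^2 - b₄ s u - b₆ t u - b₈ u^2, 2 t s + b₂ s u + b₄ t u + b₆ u^2, t^2 - 4 s u)`.
* `P = 0`: `sym2x P Q = sym2x 0 Q`, `(P+Q, P-Q) = (Q, -Q)`. For `Q = 0`: `(1,0,0) ↦ (1,0,0)`.
  For `Q = (x, y)`: `(x, 1, 0) ↦ (x^2, 2x, 1)` = `sym2x Q (-Q)`, `t = 1`. Same for `Q = 0`.
* `P = (x, y)`, `Q = (x', y')` with `x ≠ x'`: `P ± Q` are affine, with slopes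
  `(y ∓ y') / (x - x')`; check `F (x x', x + x', 1) = (x - x')^2 • (X₊ X₋, X₊ + X₋, 1)` with
  `X₊ = λ^2 + A + B - x - x'`; use `y^2 = x (x-A)(x-B)`, `y'^2 = ...`
  (`t^2 - 4 s = (x-x')^2`). Multiply out with `field_simp`, then `linear_combination`.
* `x = x'`: then `y' = y` or `y' = -y`. If `y = 0`: `P = Q = -Q`, `P ± Q = 0`,
  `F (x^2, 2x, 1) = (f'(x)^2, 0, 0)` where `f' (x) = 3x^2 - 2(A+B) x + A B ≠ 0` at the root.
  If `y ≠ 0` and `Q = P`: `P + Q = 2P = (X, ..)`, `P - Q = 0`, `sym2x = (X, 1, 0)`,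
  `F (x^2, 2 x, 1) = 4 y^2 • (X, 1, 0)`. If `Q = -P` the same with the order exchanged
  (`sym2x_comm`).
Useful: `WeierstrassCurve.Affine.Point.add_some`, `add_of_X_ne`, `add_self_of_Y_ne`,
`slope_of_X_ne`, `slope_of_Y_ne`, `addX`, `neg_some`; `fin_cases`/`funext` over `Fin 3`.
-/

set_option autoImplicit false

namespace Pool.Agent.H77.SV

open WeierstrassCurve MvPolynomial

private theorem as_eval (A B : ℚ) (v : Fin 3 → ℚ) :
    (fun i => (addSubMap (EC A B) i).eval v) =
      ![(v 0 - A * B * v 2) ^ 2,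
        2 * v 1 * v 0 - 4 * (A + B) * v 0 * v 2 + 2 * (A * B) * v 1 * v 2,
        v 1 ^ 2 - 4 * v 0 * v 2] := by
  have b2 : (EC A B).b₂ = -4 * (A + B) := by
    simp only [WeierstrassCurve.b₂]
    ring
  have b4 : (EC A B).b₄ = 2 * (A * B) := by
    simp only [WeierstrassCurve.b₄]
    ring
  have b6 : (EC A B).b₆ = 0 := by
    simp only [WeierstrassCurve.b₆]
    ring
  have b8 : (EC A B).b₈ = -(A * B) ^ 2 := by
    simp only [WeierstrassCurve.b₈]
    ring
  funext i
  simp only [addSubMap, b2, b4, b6, b8]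
  fin_cases i
  · simp
    ring
  · simp
    ring
  · simp

private theorem as_eqn {A B x y : ℚ} (h : (EC A B).Nonsingular x y) :
    y ^ 2 = x * (x - A) * (x - B) := by
  have h1 := ((EC A B).equation_iff x y).1 h.1
  simp only at h1
  linear_combination h1

private theorem as_negY (A B x y : ℚ) : (EC A B).negY x y = -y := by
  simp [WeierstrassCurve.Affine.negY]

private theorem as_addX (A B x x' l : ℚ) :
    (EC A B).addX x x' l = l ^ 2 + (A + B) - x - x' := by
  simp only [WeierstrassCurve.Affine.addX]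
  ring

/-- `P`, `Q` affine with different `x` -/
private theorem as_ne {A B x y x' y' : ℚ} (h : (EC A B).Nonsingular x y)
    (h' : (EC A B).Nonsingular x' y') (hx : x ≠ x') :
    ∃ t : ℚ, t ≠ 0 ∧ (fun i => (addSubMap (EC A B) i).eval
        ((Affine.Point.some x y h).sym2x (Affine.Point.some x' y' h'))) =
      t • (Affine.Point.some x y h + Affine.Point.some x' y' h').sym2x
        (Affine.Point.some x y h - Affine.Point.some x' y' h') := by
  have hd : x - x' ≠ 0 := sub_ne_zero.2 hx
  refine ⟨(x - x') ^ 2, pow_ne_zero 2 hd, ?_⟩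
  have e1 := as_eqn h
  have e2 := as_eqn h'
  rw [as_eval, sub_eq_add_neg (Affine.Point.some x y h), Affine.Point.neg_some,
    Affine.Point.add_of_X_ne hx,
    Affine.Point.add_of_X_ne hx, Affine.Point.sym2x_some_some, Affine.Point.sym2x_some_some,
    Affine.slope_of_X_ne hx, Affine.slope_of_X_ne hx, as_negY, as_addX, as_addX]
  obtain ⟨l, hl⟩ : ∃ l, l = (y - y') / (x - x') := ⟨_, rfl⟩
  obtain ⟨m, hm⟩ : ∃ m, m = (y - -y') / (x - x') := ⟨_, rfl⟩
  rw [← hl, ← hm]
  have hp : (x - x') * l = y - y' := by rw [hl]; field_simp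
  have hq : (x - x') * m = y + y' := by rw [hm]; field_simp; ring
  have hg : (x - x') * (l * m) = x ^ 2 + x * x' + x' ^ 2 - (A + B) * (x + x') + A * B := by
    have : (x - x') * ((x - x') * (l * m)) =
        (x - x') * (x ^ 2 + x * x' + x' ^ 2 - (A + B) * (x + x') + A * B) := by
      linear_combination (y + y') * hp + (x - x') * l * hq + e1 - e2
    exact mul_left_cancel₀ hd this
  funext i
  fin_cases i
  · simp
    linear_combination (-((x - x') * (l * m)) -
      (x ^ 2 + x * x' + x' ^ 2 - (A + B) * (x + x') + A * B)) * hg -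
      (A + B - x - x') * ((x - x') * l + (y - y')) * hp -
      (A + B - x - x') * ((x - x') * m + (y + y')) * hq -
      2 * (A + B - x - x') * (e1 + e2)
  · simp
    linear_combination -((x - x') * l + (y - y')) * hp -
      ((x - x') * m + (y + y')) * hq - 2 * (e1 + e2)
  · simp
    ring

/-- doubling -/
private theorem as_dbl {A B x y : ℚ} (h : (EC A B).Nonsingular x y) (hy : y ≠ 0) :
    ∃ (X Y : ℚ) (h2 : (EC A B).Nonsingular X Y),
      Affine.Point.some x y h + Affine.Point.some x y h = Affine.Point.some X Y h2 ∧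
      4 * y ^ 2 * X = (x * x - A * B) ^ 2 := by
  have hy2 : y ≠ (EC A B).negY x y := by
    rw [as_negY]
    intro h3
    apply hy
    linarith
  refine ⟨_, _, _, Affine.Point.add_self_of_Y_ne hy2, ?_⟩
  rw [Affine.slope_of_Y_ne rfl hy2, as_addX, as_negY]
  have e1 := as_eqn h
  simp only
  obtain ⟨m, hm⟩ : ∃ m, m = (3 * x ^ 2 + 2 * -(A + B) * x + A * B - 0 * y) / (y - -y) := ⟨_, rfl⟩
  rw [← hm]
  have h2 : 2 * y * m = 3 * x ^ 2 - 2 * (A + B) * x + A * B := by
    rw [hm]
    have : y - -y ≠ 0 := by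
      intro h3
      apply hy
      linarith
    field_simp
    ring
  linear_combination (2 * y * m + (3 * x ^ 2 - 2 * (A + B) * x + A * B)) * h2 +
    4 * (A + B - 2 * x) * e1

private theorem as_eq {A B : ℚ} (hA : A ≠ 0) (hB : B ≠ 0) (hAB : A ≠ B) {x y y' : ℚ}
    (h : (EC A B).Nonsingular x y) (h' : (EC A B).Nonsingular x y') (hyy : y = y') :
    ∃ t : ℚ, t ≠ 0 ∧ (fun i => (addSubMap (EC A B) i).eval
        ((Affine.Point.some x y h).sym2x (Affine.Point.some x y' h'))) =
      t • (Affine.Point.some x y h + Affine.Point.some x y' h').sym2x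
        (Affine.Point.some x y h - Affine.Point.some x y' h') := by
  subst hyy
  have e1 := as_eqn h
  rw [as_eval, sub_self, Affine.Point.sym2x_some_some]
  rcases eq_or_ne y 0 with hy | hy
  · subst hy
    have hs : Affine.Point.some x 0 h + Affine.Point.some x 0 h = 0 :=
      Affine.Point.add_self_of_Y_eq (by rw [as_negY, neg_zero])
    rw [hs, Affine.Point.sym2x_zero_zero]
    have hx : x = 0 ∨ x = A ∨ x = B := by
      have h3 : x * (x - A) * (x - B) = 0 := by rw [← e1]; ring
      rcases mul_eq_zero.1 h3 with h4 | h4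
      · rcases mul_eq_zero.1 h4 with h5 | h5
        · exact Or.inl h5
        · exact Or.inr (Or.inl (sub_eq_zero.1 h5))
      · exact Or.inr (Or.inr (sub_eq_zero.1 h4))
    have hne : x * x - A * B ≠ 0 := by
      rcases hx with rfl | rfl | rfl
      · intro h3
        have : A * B = 0 := by linarith
        rcases mul_eq_zero.1 this with h4 | h4
        · exact hA h4
        · exact hB h4
      · intro h3
        have : x * (x - B) = 0 := by linarith
        rcases mul_eq_zero.1 this with h4 | h4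
        · exact hA h4
        · exact hAB (sub_eq_zero.1 h4)
      · intro h3
        have : x * (x - A) = 0 := by linarith
        rcases mul_eq_zero.1 this with h4 | h4
        · exact hB h4
        · exact hAB (sub_eq_zero.1 h4).symm
    refine ⟨(x * x - A * B) ^ 2, pow_ne_zero 2 hne, ?_⟩
    funext i
    fin_cases i
    · simp
    · simp
      linear_combination -4 * e1
    · simp
      ring
  · obtain ⟨X, Y, h2, h3, h4⟩ := as_dbl h hy
    rw [h3, Affine.Point.sym2x_some_zero]
    refine ⟨4 * y ^ 2, mul_ne_zero (by norm_num) (pow_ne_zero 2 hy), ?_⟩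
    funext i
    fin_cases i
    · simp
      linear_combination -h4
    · simp
      linear_combination -4 * e1
    · simp
      ring

theorem addSub_rel {A B : ℚ} (hA : A ≠ 0) (hB : B ≠ 0) (hAB : A ≠ B) (P Q : (EC A B).Point) :
    ∃ t : ℚ, t ≠ 0 ∧ (fun i => (addSubMap (EC A B) i).eval (P.sym2x Q)) =
      t • (P + Q).sym2x (P - Q) := by
  rcases P with _ | ⟨x, y, h⟩
  · rcases Q with _ | ⟨x', y', h'⟩
    · refine ⟨1, one_ne_zero, ?_⟩
      rw [← Affine.Point.zero_def, add_zero, sub_zero, Affine.Point.sym2x_zero_zero, as_eval]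
      funext i
      fin_cases i <;> simp
    · refine ⟨1, one_ne_zero, ?_⟩
      rw [← Affine.Point.zero_def, zero_add, zero_sub, Affine.Point.sym2x_neg_right,
        Affine.Point.sym2x_zero_some, Affine.Point.sym2x_some_some, as_eval]
      funext i
      fin_cases i
      · simp
        ring
      · simp
        ring
      · simp
  · rcases Q with _ | ⟨x', y', h'⟩
    · refine ⟨1, one_ne_zero, ?_⟩
      rw [← Affine.Point.zero_def, add_zero, sub_zero,
        Affine.Point.sym2x_some_zero, Affine.Point.sym2x_some_some, as_eval]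
      funext i
      fin_cases i
      · simp
        ring
      · simp
        ring
      · simp
    · rcases eq_or_ne x x' with hx | hx
      · subst hx
        rcases Affine.Y_eq_of_X_eq h.1 h'.1 rfl with hy | hy
        · exact as_eq hA hB hAB h h' hy
        · rw [as_negY] at hy
          have hn : Affine.Point.some x y' h' = -Affine.Point.some x y h := by
            rw [Affine.Point.neg_some]
            subst hy
            simp only [as_negY, neg_neg]
          obtain ⟨t, ht, h3⟩ := as_eq hA hB hAB h h rfl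
          refine ⟨t, ht, ?_⟩
          rw [hn, Affine.Point.sym2x_neg_right, h3, sub_neg_eq_add, ← sub_eq_add_neg,
            Affine.Point.sym2x_comm]
      · exact as_ne h h' hx

/-- the curve is elliptic -/
theorem ec_elliptic {A B : ℚ} (hA : A ≠ 0) (hB : B ≠ 0) (hAB : A ≠ B) :
    WeierstrassCurve.IsElliptic (EC A B) := by
  refine ⟨?_⟩
  have h : (EC A B).Δ = 16 * A ^ 2 * B ^ 2 * (A - B) ^ 2 := by
    simp only [WeierstrassCurve.Δ, WeierstrassCurve.b₂, WeierstrassCurve.b₄, WeierstrassCurve.b₆,
      WeierstrassCurve.b₈]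
    ring
  rw [h]
  refine IsUnit.mk0 _ ?_
  have h1 : A - B ≠ 0 := sub_ne_zero.2 hAB
  positivity

end Pool.Agent.H77.SV
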