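import Mathlib

/-!
# Module Refine (about 200 lines, Mathlib only): fourth powers of divisor sums.

PROOF of `refinement`: Schreier refinement for natural numbers. If `x₁ ⋯ x_a = y₁ ⋯ y_b > 0`, there is a
matrix of natural numbers with row products `x_i` and column products `y_j`. Induction on `a`: `x_a`
divides `y₁ ⋯ y_b`, so `x_a = m₁ ⋯ m_b` with `m_j | y_j` (induction on `b` with
`exists_dvd_and_dvd_of_dvd_mul` or `Nat.prod_dvd...`; e.g. `m₁ = gcd(x_a, y₁)`, `x_a / m₁` is coprime to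
`y₁ / m₁` and divides the product of the others times ...), divide and apply the induction hypothesis to
`x₁ ⋯ x_{a-1} = (y₁/m₁) ⋯ (y_b/m_b)`.
PROOF of `sum_sq_le`: `r(J)` = number of `j ∈ [1,B]^4` with product `J`.
`sum_J r(J)^2` = number of pairs `(j, j')` of quadruples in `[1,B]^4` with the same product. By
`refinement` each such pair comes from (at least) one `4 x 4` matrix with positive entries with product
`≤ B^4`; so the number is at most the number of `m : Fin 4 × Fin 4 → ℕ` (positive entries) with product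
`≤ B^4 =: X`. And `#{m ∈ [1,X]^t : prod m ≤ X} ≤ X (1 + log X)^(t-1)`: induction on `t`:
`sum over (m_2..m_t) of floor(X / prod) ≤ X (sum_{n ≤ X} 1/n)^(t-1)`. Here `t = 16`.
-/

set_option autoImplicit false

namespace Pool.Agent.H77.SV

open Finset

private theorem split_dvd : ∀ (b : ℕ) (n : ℕ) (y : Fin b → ℕ), n ∣ ∏ j, y j →
    ∃ m : Fin b → ℕ, (∀ j, m j ∣ y j) ∧ ∏ j, m j = n := by
  intro b
  induction b with
  | zero =>
    intro n y h
    refine ⟨fun _ => 1, fun j => j.elim0, ?_⟩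
    simp at h
    simp [h]
  | succ b ih =>
    intro n y h
    rw [Fin.prod_univ_succ] at h
    obtain ⟨d, e, hd, he, rfl⟩ := exists_dvd_and_dvd_of_dvd_mul h
    obtain ⟨m, hm, hm2⟩ := ih e (fun j => y j.succ) he
    refine ⟨Fin.cons d m, ?_, ?_⟩
    · intro j
      refine Fin.cases ?_ (fun j => ?_) j
      · simpa using hd
      · simpa using hm j
    · rw [Fin.prod_univ_succ]
      simp [hm2]

theorem refinement {a b : ℕ} (x : Fin a → ℕ) (y : Fin b → ℕ) (hx : ∀ i, 0 < x i)
    (hy : ∀ j, 0 < y j) (h : ∏ i, x i = ∏ j, y j) :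
    ∃ M : Fin a → Fin b → ℕ, (∀ i, ∏ j, M i j = x i) ∧ (∀ j, ∏ i, M i j = y j) := by
  induction a generalizing y with
  | zero =>
    refine ⟨fun i => i.elim0, fun i => i.elim0, fun j => ?_⟩
    simp only [univ_eq_empty, prod_empty] at h ⊢
    have h1 : y j ∣ ∏ j, y j := Finset.dvd_prod_of_mem y (mem_univ j)
    rw [← h] at h1
    exact (Nat.dvd_one.mp h1).symm
  | succ a ih =>
    rw [Fin.prod_univ_succ] at h
    have hd : x 0 ∣ ∏ j, y j := ⟨_, h.symm⟩
    obtain ⟨m, hm, hm2⟩ := split_dvd b (x 0) y hd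
    have hmpos : ∀ j, 0 < m j := fun j => Nat.pos_of_dvd_of_pos (hm j) (hy j)
    have hq : ∀ j, m j * (y j / m j) = y j := fun j => Nat.mul_div_cancel' (hm j)
    have hprod : (∏ j, m j) * ∏ j, (y j / m j) = ∏ j, y j := by
      rw [← Finset.prod_mul_distrib]
      exact Finset.prod_congr rfl fun j _ => hq j
    have h3 : ∏ i, x (Fin.succ i) = ∏ j, (y j / m j) := by
      have h4 : x 0 * ∏ i, x (Fin.succ i) = x 0 * ∏ j, (y j / m j) := by
        rw [h, ← hprod, hm2]
      exact Nat.eq_of_mul_eq_mul_left (hx 0) h4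
    obtain ⟨M, hM1, hM2⟩ := ih (fun i => x i.succ) (fun j => y j / m j) (fun i => hx i.succ)
      (fun j => Nat.div_pos (Nat.le_of_dvd (hy j) (hm j)) (hmpos j)) h3
    refine ⟨Fin.cons m M, ?_, ?_⟩
    · intro i
      refine Fin.cases ?_ (fun i => ?_) i
      · simpa using hm2
      · simpa using hM1 i
    · intro j
      rw [Fin.prod_univ_succ]
      simp only [Fin.cons_zero, Fin.cons_succ]
      rw [hM2 j]
      exact hq j

/-- number of quadruples in `[1, B]^4` with product `J` -/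
def r4 (B J : ℕ) : ℕ :=
  ((Fintype.piFinset fun _ : Fin 4 => Icc 1 B).filter fun j => ∏ i, j i = J).card

private theorem refine_harm (X : ℕ) :
    ∑ n ∈ Icc 1 X, ((n : ℝ))⁻¹ ≤ 1 + Real.log X := by
  have h := harmonic_le_one_add_log X
  rw [harmonic_eq_sum_Icc] at h
  push_cast at h
  exact h

private theorem refine_count (t X : ℕ) :
    (((Fintype.piFinset fun _ : Fin (t + 1) => Icc 1 X).filter fun m => ∏ i, m i ≤ X).card : ℝ)
      ≤ (X : ℝ) * (1 + Real.log X) ^ t := by
  classical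
  set S := (Fintype.piFinset fun _ : Fin (t + 1) => Icc 1 X).filter fun m => ∏ i, m i ≤ X with hS
  set T := Fintype.piFinset fun _ : Fin t => Icc 1 X with hT
  have hmaps : ∀ m ∈ S, (fun i => m (Fin.succ i)) ∈ T := by
    intro m hm
    rw [hS, mem_filter, Fintype.mem_piFinset] at hm
    rw [hT, Fintype.mem_piFinset]
    exact fun i => hm.1 i.succ
  have h1 := Finset.card_eq_sum_card_fiberwise (s := S) (t := T)
    (f := fun m => fun i => m (Fin.succ i)) (fun m hm => hmaps m hm)
  have h2 : ∀ u ∈ T, ((S.filter fun m => (fun i => m (Fin.succ i)) = u).card : ℝ)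
      ≤ (X : ℝ) * ∏ i, ((u i : ℝ))⁻¹ := by
    intro u hu
    rw [hT, Fintype.mem_piFinset] at hu
    have hupos : 0 < ∏ i, u i := Finset.prod_pos fun i _ => (mem_Icc.mp (hu i)).1
    have h3 : (S.filter fun m => (fun i => m (Fin.succ i)) = u).card
        ≤ (Icc 1 (X / ∏ i, u i)).card := by
      refine Finset.card_le_card_of_injOn (fun m => m 0) ?_ ?_
      · intro m hm
        have hm := Finset.mem_coe.mp hm
        rw [mem_filter, hS, mem_filter, Fintype.mem_piFinset] at hm
        obtain ⟨⟨hm1, hm2⟩, hm3⟩ := hm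
        rw [Finset.mem_coe, mem_Icc]
        refine ⟨(mem_Icc.mp (hm1 0)).1, ?_⟩
        rw [Nat.le_div_iff_mul_le hupos]
        rw [Fin.prod_univ_succ] at hm2
        rw [← hm3]
        exact hm2
      · intro m hm m' hm' hmm
        have hm := Finset.mem_coe.mp hm
        have hm' := Finset.mem_coe.mp hm'
        rw [mem_filter] at hm hm'
        funext i
        refine Fin.cases hmm (fun i => ?_) i
        have e1 := congrFun hm.2 i
        have e2 := congrFun hm'.2 i
        exact e1.trans e2.symm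
    have h4 : (Icc 1 (X / ∏ i, u i)).card = X / ∏ i, u i := by simp
    rw [h4] at h3
    calc ((S.filter fun m => (fun i => m (Fin.succ i)) = u).card : ℝ)
        ≤ ((X / ∏ i, u i : ℕ) : ℝ) := by exact_mod_cast h3
      _ ≤ (X : ℝ) / ((∏ i, u i : ℕ) : ℝ) := Nat.cast_div_le
      _ = (X : ℝ) * ∏ i, ((u i : ℝ))⁻¹ := by
          rw [Finset.prod_inv_distrib, div_eq_mul_inv]
          push_cast
          rfl
  rw [h1]
  push_cast
  calc ∑ u ∈ T, ((S.filter fun m => (fun i => m (Fin.succ i)) = u).card : ℝ)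
      ≤ ∑ u ∈ T, (X : ℝ) * ∏ i, ((u i : ℝ))⁻¹ := Finset.sum_le_sum h2
    _ = (X : ℝ) * (∑ n ∈ Icc 1 X, ((n : ℝ))⁻¹) ^ t := by
        rw [← Finset.mul_sum, hT]
        rw [← Finset.prod_univ_sum (fun _ : Fin t => Icc 1 X) (fun _ n => ((n : ℝ))⁻¹)]
        rw [Finset.prod_const, Finset.card_univ, Fintype.card_fin]
    _ ≤ (X : ℝ) * (1 + Real.log X) ^ t := by
        refine mul_le_mul_of_nonneg_left ?_ (Nat.cast_nonneg X)
        refine pow_le_pow_left₀ (Finset.sum_nonneg fun n _ => by positivity) (refine_harm X) t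

theorem sum_r4_sq_le (B : ℕ) (hB : 1 ≤ B) :
    ∑ J ∈ Icc 1 (B ^ 4), (r4 B J : ℝ) ^ 2 ≤ (B : ℝ) ^ 4 * (1 + Real.log ((B : ℝ) ^ 4)) ^ 15 := by
  classical
  set Q := Fintype.piFinset fun _ : Fin 4 => Icc 1 B with hQ
  set P := (Q ×ˢ Q).filter fun p => ∏ i, p.1 i = ∏ i, p.2 i with hP
  have hQprod : ∀ j ∈ Q, ∏ i, j i ∈ Icc 1 (B ^ 4) := by
    intro j hj
    rw [hQ, Fintype.mem_piFinset] at hj
    rw [mem_Icc]
    refine ⟨Nat.succ_le_of_lt (Finset.prod_pos fun i _ => (mem_Icc.mp (hj i)).1), ?_⟩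
    calc ∏ i, j i ≤ ∏ _i : Fin 4, B := Finset.prod_le_prod' fun i _ => (mem_Icc.mp (hj i)).2
      _ = B ^ 4 := by simp
  have h1 := Finset.card_eq_sum_card_fiberwise (s := P) (t := Icc 1 (B ^ 4))
    (f := fun p => ∏ i, p.1 i) (by
      intro p hp
      have hp := Finset.mem_coe.mp hp
      rw [hP, mem_filter, mem_product] at hp
      exact hQprod p.1 hp.1.1)
  have h2 : ∀ J ∈ Icc 1 (B ^ 4), (P.filter fun p => ∏ i, p.1 i = J).card = (r4 B J) ^ 2 := by
    intro J _
    have e : (P.filter fun p => ∏ i, p.1 i = J)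
        = (Q.filter fun j => ∏ i, j i = J) ×ˢ (Q.filter fun j => ∏ i, j i = J) := by
      ext p
      rw [mem_filter, hP, mem_filter, mem_product, mem_product, mem_filter, mem_filter]
      constructor
      · rintro ⟨⟨⟨ha, hb⟩, hc⟩, hd⟩
        exact ⟨⟨ha, hd⟩, hb, hc ▸ hd⟩
      · rintro ⟨⟨ha, hb⟩, hc, hd⟩
        exact ⟨⟨⟨ha, hc⟩, hb.trans hd.symm⟩, hb⟩
    rw [e, card_product]
    rw [r4, sq]
  have h3 : ∑ J ∈ Icc 1 (B ^ 4), (r4 B J : ℝ) ^ 2 = (P.card : ℝ) := by
    rw [h1]
    push_cast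
    refine Finset.sum_congr rfl fun J hJ => ?_
    rw [h2 J hJ]
    push_cast
    rfl
  rw [h3]
  set X := B ^ 4 with hX
  set N := (Fintype.piFinset fun _ : Fin (15 + 1) => Icc 1 X).filter fun m => ∏ i, m i ≤ X with hN
  let e : Fin 4 × Fin 4 ≃ Fin (15 + 1) := finProdFinEquiv
  have h4 : P ⊆ N.image fun m => ((fun i => ∏ j, m (e (i, j))), (fun j => ∏ i, m (e (i, j)))) := by
    intro p hp
    rw [hP, mem_filter, mem_product] at hp
    obtain ⟨⟨hp1, hp2⟩, hp3⟩ := hp
    have hx : ∀ i, 0 < p.1 i := fun i => by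
      rw [hQ, Fintype.mem_piFinset] at hp1
      exact (mem_Icc.mp (hp1 i)).1
    have hy : ∀ i, 0 < p.2 i := fun i => by
      rw [hQ, Fintype.mem_piFinset] at hp2
      exact (mem_Icc.mp (hp2 i)).1
    obtain ⟨M, hM1, hM2⟩ := refinement p.1 p.2 hx hy hp3
    have hMpos : ∀ i j, 0 < M i j := by
      intro i j
      rcases Nat.eq_zero_or_pos (M i j) with h0 | h0
      · exfalso
        have := hM1 i
        rw [Finset.prod_eq_zero (mem_univ j) h0] at this
        have := hx i
        omega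
      · exact h0
    have hprodM : ∏ k, (fun k => M (e.symm k).1 (e.symm k).2) k = ∏ i, p.1 i := by
      rw [← Equiv.prod_comp e]
      simp only [Equiv.symm_apply_apply]
      rw [Fintype.prod_prod_type]
      exact Finset.prod_congr rfl fun i _ => hM1 i
    have hle : ∏ k, (fun k => M (e.symm k).1 (e.symm k).2) k ≤ X := by
      rw [hprodM]
      exact (mem_Icc.mp (hQprod p.1 hp1)).2
    rw [mem_image]
    refine ⟨fun k => M (e.symm k).1 (e.symm k).2, ?_, ?_⟩
    · rw [hN, mem_filter, Fintype.mem_piFinset]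
      refine ⟨fun k => ?_, hle⟩
      rw [mem_Icc]
      refine ⟨hMpos _ _, ?_⟩
      refine le_trans ?_ hle
      exact Finset.single_le_prod' (f := fun k => M (e.symm k).1 (e.symm k).2)
        (fun k _ => hMpos _ _) (mem_univ k)
    · refine Prod.ext ?_ ?_
      · funext i
        simp only [Equiv.symm_apply_apply]
        exact hM1 i
      · funext j
        simp only [Equiv.symm_apply_apply]
        exact hM2 j
  have h5 : P.card ≤ N.card := (Finset.card_le_card h4).trans Finset.card_image_le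
  have h6 := refine_count 15 X
  calc (P.card : ℝ) ≤ (N.card : ℝ) := by exact_mod_cast h5
    _ ≤ (X : ℝ) * (1 + Real.log X) ^ 15 := h6
    _ = (B : ℝ) ^ 4 * (1 + Real.log ((B : ℝ) ^ 4)) ^ 15 := by
        rw [hX]
        push_cast
        rfl

end Pool.Agent.H77.SV
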