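import Pool.Agent.H77.SV.Defs
import Pool.Agent.H77.SV.Refine

/-!
# Module BLin (about 250 lines): bilinear bound for Jacobi symbols, first variable shorter.

`jr i j = J(i | j)` for odd `j`, `0` for even `j`; multiplicative in `i` and in `j`.
PROOF. Let `1 ≤ A ≤ B`. `S = sum_{i ≤ A} sum_{j ≤ B} α i β j jr i j`.
`|S| ≤ sum_i |T_i|`, `T_i = sum_j β j jr i j`, so by Cauchy-Schwarz twice
`S^4 ≤ A^3 sum_{i ≤ A} T_i^4`. `T_i^4 = sum_{J ≤ B^4} b_J jr i J` with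
`b_J = sum_{j ∈ [1,B]^4, prod j = J} prod β (j a)`, `|b_J| ≤ r4 B J`. So
`sum_i T_i^4 = sum_J b_J G_J`, `G_J = sum_{i ≤ A} jr i J`.
By Cauchy-Schwarz `(sum_i T_i^4)^2 ≤ (sum_J b_J^2) (sum_{J ≤ B^4} G_J^2)`.
`sum_J b_J^2 ≤ B^4 (1 + log B^4)^15` (`sum_r4_sq_le`).
`sum_{J ≤ B^4} G_J^2 = sum_{i, i' ≤ A} sum_{J ≤ B^4} jr (i i') J`. If `i i'` is a square the inner sum is
`≤ B^4`; there are at most `A (1 + log A)` such pairs (`square_pairs`). Otherwise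
`|sum_J jr (i i') J| ≤ 4 i i' ≤ 4 A^2` (`jr_rchar`, `RChar.sum`). Total `≤ A (1 + log A) B^4 + 4 A^4 ≤
5 A (1 + log A) B^4` as `A ≤ B` (`A^4 ≤ A B^3`... fine).
Hence `S^8 ≤ A^6 (sum T_i^4)^2 ≤ 5 A^7 B^8 (1 + 4 log B)^16 `, `|S| ≤ 5^(1/8) A^(7/8) B (1 + 4 log B)^2`.
PROOF of `square_pairs`: if `i i'` is a square, write `i = g a^2` with `g` squarefree
(`Nat.sq_mul_squarefree`); then `i' = g b^2`. So the number is `≤ sum_{g ≤ A} #{a : g a^2 ≤ A}^2 ≤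
sum_{g ≤ A} A / g ≤ A (1 + log A)`.
-/

set_option autoImplicit false

namespace Pool.Agent.H77.SV

open Finset Pool.Agent.H24.UM

private theorem blin_sqf {g g' s : ℕ} (hg : Squarefree g) (hg' : Squarefree g')
    (h : g * g' = s * s) : g = g' := by
  have hg0 : 0 < g := Nat.pos_of_ne_zero hg.ne_zero
  have h1 : g ∣ s := by
    have h2 : g ∣ s ^ 2 := ⟨g', by rw [sq]; exact h.symm⟩
    exact (hg.dvd_pow_iff_dvd (by norm_num)).mp h2
  obtain ⟨t, rfl⟩ := h1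
  have h3 : g' = g * (t * t) := by
    have h4 : g * g' = g * (g * (t * t)) := by rw [h]; ring
    exact Nat.eq_of_mul_eq_mul_left hg0 h4
  have h5 : t * t ∣ g' := ⟨g, by rw [h3]; ring⟩
  have h6 : IsUnit t := hg' t h5
  rw [Nat.isUnit_iff] at h6
  rw [h3, h6]
  ring

private theorem blin_pair {i i' : ℕ} (hi : 0 < i) (hi' : 0 < i') (h : IsSquare (i * i')) :
    ∃ g a b : ℕ, 0 < g ∧ 0 < a ∧ 0 < b ∧ i = g * a ^ 2 ∧ i' = g * b ^ 2 := by
  obtain ⟨g, a, h1, h2⟩ := Nat.sq_mul_squarefree i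
  obtain ⟨g', b, h3, h4⟩ := Nat.sq_mul_squarefree i'
  obtain ⟨s, hs⟩ := h
  have ha : 0 < a := by
    rcases Nat.eq_zero_or_pos a with h0 | h0
    · rw [h0] at h1; simp at h1; omega
    · exact h0
  have hb : 0 < b := by
    rcases Nat.eq_zero_or_pos b with h0 | h0
    · rw [h0] at h3; simp at h3; omega
    · exact h0
  have hab : 0 < a * b := Nat.mul_pos ha hb
  have h5 : (a * b) ^ 2 * (g * g') = s ^ 2 := by
    calc (a * b) ^ 2 * (g * g') = (a ^ 2 * g) * (b ^ 2 * g') := by ring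
      _ = i * i' := by rw [h1, h3]
      _ = s ^ 2 := by rw [hs, sq]
  have h6 : a * b ∣ s := by
    have : (a * b) ^ 2 ∣ s ^ 2 := ⟨g * g', h5.symm⟩
    exact (Nat.pow_dvd_pow_iff (by norm_num)).mp this
  obtain ⟨t, rfl⟩ := h6
  have h7 : g * g' = t * t := by
    have h8 : (a * b) ^ 2 * (g * g') = (a * b) ^ 2 * (t * t) := by rw [h5]; ring
    exact Nat.eq_of_mul_eq_mul_left (pow_pos hab 2) h8
  have h9 := blin_sqf h2 h4 h7
  refine ⟨g, a, b, Nat.pos_of_ne_zero h2.ne_zero, ha, hb, ?_, ?_⟩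
  · rw [← h1]; ring
  · rw [← h3, ← h9]; ring

theorem square_pairs (A : ℕ) (hA : 1 ≤ A) :
    (((Icc 1 A ×ˢ Icc 1 A).filter fun x : ℕ × ℕ => IsSquare (x.1 * x.2)).card : ℝ) ≤
      A * (1 + Real.log A) := by
  classical
  set S := (Icc 1 A ×ˢ Icc 1 A).filter fun x : ℕ × ℕ => IsSquare (x.1 * x.2) with hS
  have h1 : S ⊆ (Icc 1 A).biUnion fun g =>
      ((Icc 1 (Nat.sqrt (A / g))) ×ˢ (Icc 1 (Nat.sqrt (A / g)))).image
        fun x => (g * x.1 ^ 2, g * x.2 ^ 2) := by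
    intro x hx
    rw [hS, mem_filter, mem_product, mem_Icc, mem_Icc] at hx
    obtain ⟨⟨⟨h1, h2⟩, h3, h4⟩, h5⟩ := hx
    obtain ⟨g, a, b, hg, ha, hb, e1, e2⟩ := blin_pair (by omega) (by omega) h5
    rw [mem_biUnion]
    have hgA : g ≤ A := by
      have : g * 1 ≤ g * a ^ 2 := Nat.mul_le_mul_left g (Nat.one_le_pow _ _ ha)
      omega
    refine ⟨g, mem_Icc.mpr ⟨hg, hgA⟩, ?_⟩
    rw [mem_image]
    refine ⟨(a, b), ?_, ?_⟩
    · rw [mem_product, mem_Icc, mem_Icc]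
      refine ⟨⟨ha, ?_⟩, hb, ?_⟩
      · rw [Nat.le_sqrt', Nat.le_div_iff_mul_le hg]
        calc a ^ 2 * g = g * a ^ 2 := by ring
          _ = x.1 := e1.symm
          _ ≤ A := h2
      · rw [Nat.le_sqrt', Nat.le_div_iff_mul_le hg]
        calc b ^ 2 * g = g * b ^ 2 := by ring
          _ = x.2 := e2.symm
          _ ≤ A := h4
    · exact Prod.ext e1.symm e2.symm
  have h2 : S.card ≤ ∑ g ∈ Icc 1 A, (A / g) := by
    refine (card_le_card h1).trans (card_biUnion_le.trans ?_)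
    refine sum_le_sum fun g _ => ?_
    refine card_image_le.trans ?_
    rw [card_product, Nat.card_Icc]
    simp only [Nat.add_sub_cancel]
    exact Nat.sqrt_le _
  have h3 := harmonic_le_one_add_log A
  rw [harmonic_eq_sum_Icc] at h3
  push_cast at h3
  calc (S.card : ℝ) ≤ ((∑ g ∈ Icc 1 A, (A / g) : ℕ) : ℝ) := by exact_mod_cast h2
    _ = ∑ g ∈ Icc 1 A, ((A / g : ℕ) : ℝ) := by push_cast; rfl
    _ ≤ ∑ g ∈ Icc 1 A, (A : ℝ) * (g : ℝ)⁻¹ := by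
        refine sum_le_sum fun g _ => ?_
        rw [← div_eq_mul_inv]
        exact Nat.cast_div_le
    _ = (A : ℝ) * ∑ g ∈ Icc 1 A, (g : ℝ)⁻¹ := by rw [mul_sum]
    _ ≤ A * (1 + Real.log A) := mul_le_mul_of_nonneg_left h3 (Nat.cast_nonneg A)

private theorem blin_jc_left (a b : ℤ) (n : ℕ) : jc (a * b) n = jc a n * jc b n := by
  unfold jc
  split_ifs
  · exact jacobiSym.mul_left a b n
  · simp

private theorem blin_jr_left (a b : ℤ) (n : ℕ) : jr (a * b) n = jr a n * jr b n := by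
  unfold jr
  rw [blin_jc_left]
  push_cast
  rfl

private theorem blin_jr_mul (a : ℤ) (m n : ℕ) : jr a (m * n) = jr a m * jr a n := by
  unfold jr
  rw [jc_mul]
  push_cast
  rfl

private theorem blin_jr_abs (a : ℤ) (n : ℕ) : |jr a n| ≤ 1 := by
  unfold jr
  rcases jc_val a n with h | h | h <;> rw [h] <;> norm_num

private theorem blin_jr_prod (a : ℤ) (j : Fin 4 → ℕ) : jr a (∏ i, j i) = ∏ i, jr a (j i) := by
  rw [Fin.prod_univ_four, Fin.prod_univ_four, blin_jr_mul, blin_jr_mul, blin_jr_mul]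

/-- the coefficients of the fourth power -/
private noncomputable def bJ (B : ℕ) (β : ℕ → ℝ) (J : ℕ) : ℝ :=
  ∑ j ∈ (Fintype.piFinset fun _ : Fin 4 => Icc 1 B).filter (fun j => ∏ i, j i = J), ∏ i, β (j i)

private theorem blin_bJ_abs (B : ℕ) (β : ℕ → ℝ) (hβ : ∀ j, |β j| ≤ 1) (J : ℕ) :
    |bJ B β J| ≤ r4 B J := by
  unfold bJ r4
  refine (abs_sum_le_sum_abs _ _).trans ?_
  rw [card_eq_sum_ones]
  push_cast
  refine sum_le_sum fun j _ => ?_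
  rw [abs_prod]
  exact prod_le_one (fun i _ => abs_nonneg _) fun i _ => hβ _

private theorem blin_fourth (B : ℕ) (β : ℕ → ℝ) (a : ℤ) :
    (∑ j ∈ Icc 1 B, β j * jr a j) ^ 4 = ∑ J ∈ Icc 1 (B ^ 4), bJ B β J * jr a J := by
  classical
  set Q := Fintype.piFinset fun _ : Fin 4 => Icc 1 B with hQ
  have hQprod : ∀ j ∈ Q, ∏ i, j i ∈ Icc 1 (B ^ 4) := by
    intro j hj
    rw [hQ, Fintype.mem_piFinset] at hj
    rw [mem_Icc]
    refine ⟨Nat.succ_le_of_lt (Finset.prod_pos fun i _ => (mem_Icc.mp (hj i)).1), ?_⟩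
    calc ∏ i, j i ≤ ∏ _i : Fin 4, B := Finset.prod_le_prod' fun i _ => (mem_Icc.mp (hj i)).2
      _ = B ^ 4 := by simp
  have h1 : (∑ j ∈ Icc 1 B, β j * jr a j) ^ 4 =
      ∑ j ∈ Q, ∏ i, (β (j i) * jr a (j i)) := by
    have h2 := Finset.prod_univ_sum (fun _ : Fin 4 => Icc 1 B) (fun _ j => β j * jr a j)
    rw [prod_const, card_univ, Fintype.card_fin] at h2
    exact h2
  rw [h1, ← sum_fiberwise_of_maps_to hQprod]
  refine sum_congr rfl fun J _ => ?_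
  unfold bJ
  rw [sum_mul]
  refine sum_congr rfl fun j hj => ?_
  rw [mem_filter] at hj
  rw [prod_mul_distrib, ← blin_jr_prod, hj.2]

private theorem blin_G (A B : ℕ) (hA : 1 ≤ A) (hAB : A ≤ B) :
    ∑ J ∈ Icc 1 (B ^ 4), (∑ i ∈ Icc 1 A, jr (i : ℤ) J) ^ 2 ≤
      5 * A * (1 + Real.log A) * (B : ℝ) ^ 4 := by
  classical
  have hB : 1 ≤ B := hA.trans hAB
  have hA1 : (1 : ℝ) ≤ A := by exact_mod_cast hA
  have hAB' : (A : ℝ) ≤ B := by exact_mod_cast hAB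
  have hlog : 0 ≤ Real.log A := Real.log_nonneg hA1
  have h1 : ∑ J ∈ Icc 1 (B ^ 4), (∑ i ∈ Icc 1 A, jr (i : ℤ) J) ^ 2 =
      ∑ x ∈ Icc 1 A ×ˢ Icc 1 A, ∑ J ∈ Icc 1 (B ^ 4), jr (((x.1 * x.2 : ℕ) : ℤ)) J := by
    rw [sum_comm]
    refine sum_congr rfl fun J _ => ?_
    rw [sq, sum_mul_sum, ← sum_product']
    refine sum_congr rfl fun x _ => ?_
    rw [← blin_jr_left]
    push_cast
    rfl
  rw [h1]
  have h2 : ∀ x ∈ Icc 1 A ×ˢ Icc 1 A, ∑ J ∈ Icc 1 (B ^ 4), jr (((x.1 * x.2 : ℕ) : ℤ)) J ≤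
      (if IsSquare (x.1 * x.2) then (B : ℝ) ^ 4 else 0) + 4 * (A : ℝ) ^ 2 := by
    intro x hx
    rw [mem_product, mem_Icc, mem_Icc] at hx
    split_ifs with h
    · have h3 : ∑ J ∈ Icc 1 (B ^ 4), jr (((x.1 * x.2 : ℕ) : ℤ)) J ≤ ∑ J ∈ Icc 1 (B ^ 4), (1 : ℝ) :=
        sum_le_sum fun J _ => (le_abs_self _).trans (blin_jr_abs _ _)
      rw [sum_const, Nat.card_Icc, nsmul_eq_mul, mul_one] at h3
      simp only [Nat.add_sub_cancel] at h3
      push_cast at h3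
      push_cast
      nlinarith [sq_nonneg (A : ℝ)]
    · have hns : ¬ IsSquare (((x.1 * x.2 : ℕ) : ℤ)) := by
        intro h'
        apply h
        obtain ⟨t, ht⟩ := h'
        refine ⟨t.natAbs, ?_⟩
        have h3 := congrArg Int.natAbs ht
        rw [Int.natAbs_mul, Int.natAbs_natCast] at h3
        exact h3
      have h3 := (jr_rchar _ hns).sum 1 (B ^ 4 + 1)
      have h4 : Ico 1 (B ^ 4 + 1) = Icc 1 (B ^ 4) := by
        ext y
        rw [mem_Ico, mem_Icc]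
        omega
      rw [h4] at h3
      refine (le_abs_self _).trans (h3.trans ?_)
      rw [zero_add]
      have h5 : 4 * (((x.1 * x.2 : ℕ) : ℤ)).natAbs ≤ 4 * A ^ 2 := by
        rw [Int.natAbs_natCast, sq]
        exact Nat.mul_le_mul_left 4 (Nat.mul_le_mul hx.1.2 hx.2.2)
      exact_mod_cast h5
  refine (sum_le_sum h2).trans ?_
  rw [sum_add_distrib, ← sum_filter, sum_const, sum_const, card_product, Nat.card_Icc,
    nsmul_eq_mul, nsmul_eq_mul]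
  simp only [Nat.add_sub_cancel]
  push_cast
  have h6 := square_pairs A hA
  have hB4 : (0 : ℝ) ≤ (B : ℝ) ^ 4 := by positivity
  have h7 := mul_le_mul_of_nonneg_right h6 hB4
  have h8 : (A : ℝ) * A * (4 * (A : ℝ) ^ 2) ≤ 4 * (A * (1 + Real.log A) * (B : ℝ) ^ 4) := by
    have h9 : (A : ℝ) ^ 3 ≤ (B : ℝ) ^ 3 := pow_le_pow_left₀ (by linarith) hAB' 3
    have h10 : (B : ℝ) ^ 3 ≤ (B : ℝ) ^ 4 := pow_le_pow_right₀ (by linarith) (by norm_num)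
    have h11 : (A : ℝ) * (A : ℝ) ^ 3 ≤ A * (B : ℝ) ^ 4 :=
      mul_le_mul_of_nonneg_left (h9.trans h10) (by linarith)
    have h12 : (A : ℝ) * (B : ℝ) ^ 4 * 1 ≤ A * (B : ℝ) ^ 4 * (1 + Real.log A) :=
      mul_le_mul_of_nonneg_left (by linarith) (by positivity)
    nlinarith
  nlinarith

theorem bilinear_le (A B : ℕ) (hA : 1 ≤ A) (hAB : A ≤ B) (α β : ℕ → ℝ)
    (hα : ∀ i, |α i| ≤ 1) (hβ : ∀ j, |β j| ≤ 1) :
    |∑ i ∈ Icc 1 A, ∑ j ∈ Icc 1 B, α i * β j * jr (i : ℤ) j| ≤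
      2 * (A : ℝ) ^ (7 / 8 : ℝ) * B * (1 + 4 * Real.log B) ^ 2 := by
  have hB : 1 ≤ B := hA.trans hAB
  have hA1 : (1 : ℝ) ≤ A := by exact_mod_cast hA
  have hB1 : (1 : ℝ) ≤ B := by exact_mod_cast hB
  have hAB' : (A : ℝ) ≤ B := by exact_mod_cast hAB
  have hlogA : 0 ≤ Real.log A := Real.log_nonneg hA1
  have hlogB : 0 ≤ Real.log B := Real.log_nonneg hB1
  have hlogAB : Real.log A ≤ Real.log B := Real.log_le_log (by linarith) hAB'
  set T : ℕ → ℝ := fun i => ∑ j ∈ Icc 1 B, β j * jr (i : ℤ) j with hT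
  set S := ∑ i ∈ Icc 1 A, ∑ j ∈ Icc 1 B, α i * β j * jr (i : ℤ) j with hS
  have h1 : |S| ≤ ∑ i ∈ Icc 1 A, |T i| := by
    rw [hS]
    refine (abs_sum_le_sum_abs _ _).trans (sum_le_sum fun i _ => ?_)
    have h2 : ∑ j ∈ Icc 1 B, α i * β j * jr (i : ℤ) j = α i * T i := by
      rw [hT]
      simp only []
      rw [mul_sum]
      exact sum_congr rfl fun j _ => by ring
    rw [h2, abs_mul]
    exact (mul_le_mul_of_nonneg_right (hα i) (abs_nonneg _)).trans (by rw [one_mul])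
  have hcard : ((Icc 1 A).card : ℝ) = A := by rw [Nat.card_Icc]; simp
  have h2 : S ^ 2 ≤ A * ∑ i ∈ Icc 1 A, T i ^ 2 := by
    have h3 := sq_sum_le_card_mul_sum_sq (s := Icc 1 A) (f := fun i => |T i|)
    rw [hcard] at h3
    simp only [sq_abs] at h3
    calc S ^ 2 = |S| ^ 2 := (sq_abs S).symm
      _ ≤ (∑ i ∈ Icc 1 A, |T i|) ^ 2 := pow_le_pow_left₀ (abs_nonneg _) h1 2
      _ ≤ _ := h3
  have h3 : (∑ i ∈ Icc 1 A, T i ^ 2) ^ 2 ≤ A * ∑ i ∈ Icc 1 A, T i ^ 4 := by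
    have h4 := sq_sum_le_card_mul_sum_sq (s := Icc 1 A) (f := fun i => T i ^ 2)
    rw [hcard] at h4
    refine h4.trans (le_of_eq ?_)
    refine congrArg _ (sum_congr rfl fun i _ => by ring)
  have h4 : S ^ 4 ≤ (A : ℝ) ^ 3 * ∑ i ∈ Icc 1 A, T i ^ 4 := by
    calc S ^ 4 = (S ^ 2) ^ 2 := by ring
      _ ≤ (A * ∑ i ∈ Icc 1 A, T i ^ 2) ^ 2 := pow_le_pow_left₀ (sq_nonneg _) h2 2
      _ = (A : ℝ) ^ 2 * (∑ i ∈ Icc 1 A, T i ^ 2) ^ 2 := by ring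
      _ ≤ (A : ℝ) ^ 2 * (A * ∑ i ∈ Icc 1 A, T i ^ 4) :=
          mul_le_mul_of_nonneg_left h3 (by positivity)
      _ = _ := by ring
  set F := ∑ i ∈ Icc 1 A, T i ^ 4 with hF
  have hF0 : 0 ≤ F := sum_nonneg fun i _ => by positivity
  have h5 : F = ∑ J ∈ Icc 1 (B ^ 4), bJ B β J * ∑ i ∈ Icc 1 A, jr (i : ℤ) J := by
    rw [hF]
    simp only [hT, blin_fourth]
    rw [sum_comm]
    exact sum_congr rfl fun J _ => by rw [mul_sum]
  have h6 : F ^ 2 ≤ (∑ J ∈ Icc 1 (B ^ 4), bJ B β J ^ 2) *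
      ∑ J ∈ Icc 1 (B ^ 4), (∑ i ∈ Icc 1 A, jr (i : ℤ) J) ^ 2 := by
    rw [h5]
    exact sum_mul_sq_le_sq_mul_sq _ _ _
  have h7 : ∑ J ∈ Icc 1 (B ^ 4), bJ B β J ^ 2 ≤
      (B : ℝ) ^ 4 * (1 + Real.log ((B : ℝ) ^ 4)) ^ 15 := by
    refine le_trans (sum_le_sum fun J _ => ?_) (sum_r4_sq_le B hB)
    rw [← sq_abs]
    exact pow_le_pow_left₀ (abs_nonneg _) (blin_bJ_abs B β hβ J) 2
  have h8 := blin_G A B hA hAB
  have hlog4 : Real.log ((B : ℝ) ^ 4) = 4 * Real.log B := by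
    rw [Real.log_pow]; norm_num
  rw [hlog4] at h7
  set L := 1 + 4 * Real.log B with hL
  have hL1 : 1 ≤ L := by rw [hL]; linarith
  have h9 : F ^ 2 ≤ ((B : ℝ) ^ 4 * L ^ 15) * (5 * A * L * (B : ℝ) ^ 4) := by
    refine h6.trans (mul_le_mul h7 (h8.trans ?_) ?_ (by positivity))
    · refine mul_le_mul_of_nonneg_right ?_ (by positivity)
      refine mul_le_mul_of_nonneg_left ?_ (by positivity)
      rw [hL]; linarith
    · exact sum_nonneg fun J _ => sq_nonneg _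
  have h10 : S ^ 8 ≤ 5 * (A : ℝ) ^ 7 * (B : ℝ) ^ 8 * L ^ 16 := by
    calc S ^ 8 = (S ^ 4) ^ 2 := by ring
      _ ≤ ((A : ℝ) ^ 3 * F) ^ 2 := pow_le_pow_left₀ (by positivity) h4 2
      _ = (A : ℝ) ^ 6 * F ^ 2 := by ring
      _ ≤ (A : ℝ) ^ 6 * (((B : ℝ) ^ 4 * L ^ 15) * (5 * A * L * (B : ℝ) ^ 4)) :=
          mul_le_mul_of_nonneg_left h9 (by positivity)
      _ = _ := by ring
  have hR0 : 0 ≤ 2 * (A : ℝ) ^ (7 / 8 : ℝ) * B * L ^ 2 := by positivity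
  rw [← pow_le_pow_iff_left₀ (abs_nonneg _) hR0 (show (8 : ℕ) ≠ 0 by norm_num)]
  have h11 : ((A : ℝ) ^ (7 / 8 : ℝ)) ^ 8 = (A : ℝ) ^ 7 := by
    rw [← Real.rpow_natCast, ← Real.rpow_mul (by linarith), ← Real.rpow_natCast]
    congr 1
    norm_num
  calc |S| ^ 8 = S ^ 8 := by
        rw [show (8 : ℕ) = 2 * 4 by norm_num, pow_mul, sq_abs, ← pow_mul]
    _ ≤ 5 * (A : ℝ) ^ 7 * (B : ℝ) ^ 8 * L ^ 16 := h10
    _ ≤ 256 * (A : ℝ) ^ 7 * (B : ℝ) ^ 8 * L ^ 16 := by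
        have : 0 ≤ (A : ℝ) ^ 7 * (B : ℝ) ^ 8 * L ^ 16 := by positivity
        nlinarith
    _ = (2 * (A : ℝ) ^ (7 / 8 : ℝ) * B * L ^ 2) ^ 8 := by
        rw [mul_pow, mul_pow, mul_pow, h11]
        ring

end Pool.Agent.H77.SV
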