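import Pool.Agent.H77.SV.Defs

/-!
# Module Comb (about 200 lines): the weight of an unlinked set of states is at most `k`.

A state `x : Idx ty` is `(i, v, c)`; put `g x = (v, c) ∈ V2 × V2`, `B((v,c),(v',c')) = dot c v' + dot c' v`
(symmetric, alternating). `U` unlinked: `B(g x, g y) = 0` for all `x, y ∈ U`.
Let `G = image g U ⊆ F_2^4`, pairwise orthogonal (including equal elements).
FINITE FACT (F): for every subset `G` of `V2 × V2` with `B(a, b) = 0` for all `a, b ∈ G`: `#G ≤ 4` and
`#(G ∩ P0) + #(G ∩ P1) + #(G ∩ P2) ≤ 6`, where `Pt = VV (some t) ×ˢ CC (some t)`.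
PROOF of (F): `Pt` are three 4-element sets (subgroups) with pairwise intersection `{0}`. The span of `G` is
totally isotropic for the nondegenerate form `B` on `F_2^4`, hence has at most 4 elements: or by
brute force: `G ⊆ {0} ∪ G'`, if `a ≠ b` are nonzero elements of `G` then every element of `G` is orthogonal
to both, and `decide` (over `a, b`, 15 * 14 pairs, 16 candidates) shows that
`{c | B(a,c) = 0, B(b,c) = 0}` has 4 elements `{0, a, b, a+b}` provided `B(a,b) = 0`.
So `G ⊆ {0, a, b, a + b}`. If all of `a, b` are in the same `Pt` then the intersections have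
`≤ 4, 1, 1` elements; otherwise each `Pt` contains at most one of the nonzero elements (if it contains two,
it contains the third): `≤ 2, 2, 2`. If `G` has at most one nonzero element: `#G ≤ 2` and the
intersections are `≤ 2, 2, 2`. (This is again a finite check, `decide` with `Finset` filters over
pairs `(a, b)`.)
For each `i` the fibre `U_i = {x ∈ U | x.1.1 = i}` maps injectively by `g` into `G` (if `ty i = none`) or
`G ∩ Pt` (if `ty i = some t`; `v ∈ VV`, `c ∈ CC`). The weight of `x` is `1/4` for `ty i = none`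
(`#CC none = 4`), `1/2` for `some t`. So
`sum_{x ∈ U} wt ≤ n* #G / 4 + sum_t n_t #(G ∩ Pt) / 2 ≤ n* + n (6/2) = n* + 3 n = k`, where `n*` is the
number of `i` with `ty i = none` and `n = n_0 = n_1 = n_2` the number of `i` with `ty i = some t`
(equal by `hbal1`, `hbal2`: for `Mult`/`Star` exponents, `ty i = some 0` iff `eb i = 0 ∧ ec i = 0` etc.).
-/

set_option autoImplicit false

namespace Pool.Agent.H77.SV

open Finset

variable {k : ℕ}

private def cbP (t : Fin 3) : Finset (V2 × V2) := VV (some t) ×ˢ CC (some t)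

private def cbPerp (a b : V2 × V2) : Finset (V2 × V2) :=
  univ.filter fun c => dot a.2 c.1 = dot c.2 a.1 ∧ dot b.2 c.1 = dot c.2 b.1

private lemma cb_perp : ∀ a b : V2 × V2, a ≠ 0 → b ≠ 0 → a ≠ b → dot a.2 b.1 = dot b.2 a.1 →
    (cbPerp a b).card ≤ 4 ∧ (cbPerp a b ∩ cbP 0).card + (cbPerp a b ∩ cbP 1).card +
      (cbPerp a b ∩ cbP 2).card ≤ 6 := by
  decide +kernel

private lemma cb_F (G : Finset (V2 × V2)) (hG : ∀ a ∈ G, ∀ b ∈ G, dot a.2 b.1 = dot b.2 a.1) :
    G.card ≤ 4 ∧ (G ∩ cbP 0).card + (G ∩ cbP 1).card + (G ∩ cbP 2).card ≤ 6 := by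
  by_cases h : ∃ a ∈ G, ∃ b ∈ G, a ≠ 0 ∧ b ≠ 0 ∧ a ≠ b
  · obtain ⟨a, ha, b, hb, ha0, hb0, hab⟩ := h
    have hsub : G ⊆ cbPerp a b := by
      intro c hc
      exact Finset.mem_filter.mpr ⟨Finset.mem_univ _, hG a ha c hc, hG b hb c hc⟩
    obtain ⟨h1, h2⟩ := cb_perp a b ha0 hb0 hab (hG a ha b hb)
    refine ⟨(Finset.card_le_card hsub).trans h1, le_trans ?_ h2⟩
    have h3 : ∀ t, (G ∩ cbP t).card ≤ (cbPerp a b ∩ cbP t).card := fun t =>
      Finset.card_le_card (Finset.inter_subset_inter_right hsub)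
    have := h3 0
    have := h3 1
    have := h3 2
    omega
  · have h1 : (G.erase 0).card ≤ 1 := by
      rw [Finset.card_le_one]
      intro a ha b hb
      by_contra hab
      exact h ⟨a, Finset.mem_of_mem_erase ha, b, Finset.mem_of_mem_erase hb,
        Finset.ne_of_mem_erase ha, Finset.ne_of_mem_erase hb, hab⟩
    have h2 : G.card ≤ 2 := by
      have := Finset.pred_card_le_card_erase (s := G) (a := 0)
      omega
    have h3 : ∀ t, (G ∩ cbP t).card ≤ 2 := fun t =>
      (Finset.card_le_card Finset.inter_subset_left).trans h2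
    have := h3 0
    have := h3 1
    have := h3 2
    omega

private lemma cb_card (t : Fin 3) : (CC (some t)).card = 2 := by
  fin_cases t <;> rfl

private lemma cb_card_none : (CC none).card = 4 := rfl

theorem unlinked_le (F : Fam k) (U : Finset (Idx F.ty))
    (hU : ∀ x ∈ U, ∀ y ∈ U, EI F.ty x y = EI F.ty y x) : ∑ x ∈ U, wtI F.ty x ≤ k := by
  classical
  set G : Finset (V2 × V2) := U.image fun x => x.1.2 with hGdef
  have hG : ∀ a ∈ G, ∀ b ∈ G, dot a.2 b.1 = dot b.2 a.1 := by
    intro a ha b hb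
    obtain ⟨x, hx, rfl⟩ := Finset.mem_image.mp ha
    obtain ⟨y, hy, rfl⟩ := Finset.mem_image.mp hb
    exact hU x hx y hy
  obtain ⟨hG4, hG6⟩ := cb_F G hG
  -- fibres
  have hfib : ∀ i, (U.filter fun x => x.1.1 = i).card ≤ G.card := by
    intro i
    apply Finset.card_le_card_of_injOn (fun x => x.1.2)
    · intro x hx
      exact Finset.mem_coe.mpr (Finset.mem_image_of_mem _ (Finset.mem_filter.mp hx).1)
    · intro x hx y hy hxy
      have h1 := (Finset.mem_filter.mp hx).2
      have h2 := (Finset.mem_filter.mp hy).2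
      exact Subtype.ext (Prod.ext (h1.trans h2.symm) hxy)
  have hfibt : ∀ i t, F.ty i = some t → (U.filter fun x => x.1.1 = i).card ≤ (G ∩ cbP t).card := by
    intro i t hit
    apply Finset.card_le_card_of_injOn (fun x => x.1.2)
    · intro x hx
      have h1 := (Finset.mem_filter.mp hx).2
      have h2 := x.2.1
      have h3 := x.2.2.1
      rw [h1, hit] at h2 h3
      exact Finset.mem_coe.mpr (Finset.mem_inter.mpr
        ⟨Finset.mem_image_of_mem _ (Finset.mem_filter.mp hx).1, Finset.mem_product.mpr ⟨h2, h3⟩⟩)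
    · intro x hx y hy hxy
      have h1 := (Finset.mem_filter.mp hx).2
      have h2 := (Finset.mem_filter.mp hy).2
      exact Subtype.ext (Prod.ext (h1.trans h2.symm) hxy)
  have hsum : ∑ x ∈ U, wtI F.ty x = ∑ i, ((U.filter fun x => x.1.1 = i).card : ℝ) *
      (1 / ((CC (F.ty i)).card : ℝ)) := by
    rw [← Finset.sum_fiberwise U (fun x => x.1.1)]
    apply Finset.sum_congr rfl
    intro i _
    rw [← nsmul_eq_mul]
    apply Finset.sum_eq_card_nsmul
    intro x hx
    have h1 := (Finset.mem_filter.mp hx).2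
    unfold wtI
    rw [h1]
  have hbd : ∀ i, ((U.filter fun x => x.1.1 = i).card : ℝ) * (1 / ((CC (F.ty i)).card : ℝ)) ≤
      (if F.ty i = none then 1 else 0) +
      ((if F.ty i = some 0 then ((G ∩ cbP 0).card : ℝ) / 2 else 0) +
      (if F.ty i = some 1 then ((G ∩ cbP 1).card : ℝ) / 2 else 0) +
      (if F.ty i = some 2 then ((G ∩ cbP 2).card : ℝ) / 2 else 0)) := by
    intro i
    rcases hi : F.ty i with _ | t
    · rw [cb_card_none]
      have h1 : ((U.filter fun x => x.1.1 = i).card : ℝ) ≤ 4 := by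
        exact_mod_cast (hfib i).trans hG4
      simp
      linarith
    · have h1 : ((U.filter fun x => x.1.1 = i).card : ℝ) ≤ ((G ∩ cbP t).card : ℝ) := by
        exact_mod_cast hfibt i t hi
      rw [cb_card t]
      have ht3 : t = 0 ∨ t = 1 ∨ t = 2 := by
        fin_cases t <;> simp
      rcases ht3 with rfl | rfl | rfl
      · rw [if_neg (by simp), if_pos rfl, if_neg (by simp), if_neg (by simp)]
        push_cast
        linarith
      · rw [if_neg (by simp), if_neg (by simp), if_pos rfl, if_neg (by simp)]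
        push_cast
        linarith
      · rw [if_neg (by simp), if_neg (by simp), if_neg (by simp), if_pos rfl]
        push_cast
        linarith
  have hn0 : #{i | F.ty i = some 0} = #{i | F.eb i = 0 ∧ F.ec i = 0} := by
    congr 1
    ext i
    simp only [Finset.mem_filter, Finset.mem_univ, true_and]
    unfold Fam.ty
    split_ifs <;> simp_all
  have hn1 : #{i | F.ty i = some 1} = #{i | F.ea i = 0 ∧ F.ec i = 0} := by
    congr 1
    ext i
    simp only [Finset.mem_filter, Finset.mem_univ, true_and]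
    unfold Fam.ty
    have h := F.htype i
    unfold Star Mult at h
    constructor
    · intro h2
      split_ifs at h2 with h3 h4 h5
      · simp at h2
      · exact h4
      · simp at h2
    · intro h2
      rw [if_neg, if_pos h2]
      rintro ⟨h3, h4⟩
      rcases h with h | h | h | h
      · omega
      · exact absurd h.1 (by rw [h2.1]; decide)
      · exact absurd h.2.1 (by rw [h3]; decide)
      · exact absurd h.2.2 (by rw [h4]; decide)
  have hn2 : #{i | F.ty i = some 2} = #{i | F.ea i = 0 ∧ F.eb i = 0} := by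
    congr 1
    ext i
    simp only [Finset.mem_filter, Finset.mem_univ, true_and]
    unfold Fam.ty
    have h := F.htype i
    unfold Star Mult at h
    constructor
    · intro h2
      split_ifs at h2 with h3 h4 h5
      · simp at h2
      · simp at h2
      · exact h5
    · intro h2
      rw [if_neg, if_neg, if_pos h2]
      · rintro ⟨h3, h4⟩
        rcases h with h | h | h | h
        · omega
        · exact absurd h.1 (by rw [h3]; decide)
        · exact absurd h.2.1 (by rw [h2.2]; decide)
        · exact absurd h.2.2 (by rw [h4]; decide)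
      · rintro ⟨h3, h4⟩
        rcases h with h | h | h | h
        · omega
        · exact absurd h.1 (by rw [h2.1]; decide)
        · exact absurd h.2.1 (by rw [h3]; decide)
        · exact absurd h.2.2 (by rw [h4]; decide)
  have he1 : #{i | F.ty i = some 1} = #{i | F.ty i = some 0} := by
    rw [hn0, hn1, F.hbal1]
  have he2 : #{i | F.ty i = some 2} = #{i | F.ty i = some 0} := by
    rw [hn0, hn2, F.hbal2]
  have htot : #{i | F.ty i = none} + (#{i | F.ty i = some 0} + #{i | F.ty i = some 1} +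
      #{i | F.ty i = some 2}) = k := by
    have h1 : ∀ i, (if F.ty i = none then 1 else 0) + ((if F.ty i = some 0 then 1 else 0) +
        (if F.ty i = some 1 then 1 else 0) + (if F.ty i = some 2 then 1 else 0)) = 1 := by
      intro i
      rcases F.ty i with _ | t
      · simp
      · fin_cases t <;> simp
    have h2 := Finset.sum_congr (rfl : (univ : Finset (Fin k)) = univ) fun i _ => h1 i
    rw [Finset.sum_add_distrib, Finset.sum_add_distrib, Finset.sum_add_distrib] at h2
    simp only [Finset.sum_boole, Nat.cast_id, Finset.sum_const, Finset.card_univ, Fintype.card_fin,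
      smul_eq_mul, mul_one] at h2
    exact h2
  rw [hsum]
  calc ∑ i, ((U.filter fun x => x.1.1 = i).card : ℝ) * (1 / ((CC (F.ty i)).card : ℝ))
      ≤ ∑ i, ((if F.ty i = none then (1 : ℝ) else 0) +
      ((if F.ty i = some 0 then ((G ∩ cbP 0).card : ℝ) / 2 else 0) +
      (if F.ty i = some 1 then ((G ∩ cbP 1).card : ℝ) / 2 else 0) +
      (if F.ty i = some 2 then ((G ∩ cbP 2).card : ℝ) / 2 else 0))) :=
        Finset.sum_le_sum fun i _ => hbd i
    _ = (#{i | F.ty i = none} : ℝ) + ((#{i | F.ty i = some 0} : ℝ) * (((G ∩ cbP 0).card : ℝ) / 2) +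
        (#{i | F.ty i = some 1} : ℝ) * (((G ∩ cbP 1).card : ℝ) / 2) +
        (#{i | F.ty i = some 2} : ℝ) * (((G ∩ cbP 2).card : ℝ) / 2)) := by
      rw [Finset.sum_add_distrib, Finset.sum_add_distrib, Finset.sum_add_distrib]
      simp only [← Finset.sum_filter, Finset.sum_const, nsmul_eq_mul, mul_one]
    _ ≤ k := by
      rw [he1, he2] at htot ⊢
      have h1 : ((G ∩ cbP 0).card : ℝ) + (G ∩ cbP 1).card + (G ∩ cbP 2).card ≤ 6 := by
        exact_mod_cast hG6
      have h2 : (0 : ℝ) ≤ (#{i | F.ty i = some 0} : ℝ) := Nat.cast_nonneg _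
      have h3 := mul_le_mul_of_nonneg_left h1 h2
      have h4 : (#{i | F.ty i = none} : ℝ) + ((#{i | F.ty i = some 0} : ℝ) +
          (#{i | F.ty i = some 0} : ℝ) + (#{i | F.ty i = some 0} : ℝ)) = k := by
        exact_mod_cast htot
      linarith

/-- total weight of all states -/
theorem sum_wtI_le (ty : Fin k → Ty) : ∑ x : Idx ty, wtI ty x ≤ 5 / 2 * k := by
  classical
  have h1 : ∑ x : Idx ty, wtI ty x = ∑ i : Fin k, ∑ y : V2 × V2,
      (if y.1 ∈ VV (ty i) ∧ y.2 ∈ CC (ty i) ∧ dot y.2 y.1 = 0 then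
        1 / ((CC (ty i)).card : ℝ) else 0) := by
    rw [← Fintype.sum_prod_type' (f := fun (i : Fin k) (y : V2 × V2) =>
      (if y.1 ∈ VV (ty i) ∧ y.2 ∈ CC (ty i) ∧ dot y.2 y.1 = 0 then
        1 / ((CC (ty i)).card : ℝ) else 0)), ← Finset.sum_filter]
    exact (Finset.sum_subtype (univ.filter fun x : Fin k × V2 × V2 =>
      x.2.1 ∈ VV (ty x.1) ∧ x.2.2 ∈ CC (ty x.1) ∧ dot x.2.2 x.2.1 = 0) (by simp)
      (fun x => 1 / ((CC (ty x.1)).card : ℝ))).symm
  rw [h1]
  have h2 : ∀ t : Ty, ((univ.filter fun y : V2 × V2 => y.1 ∈ VV t ∧ y.2 ∈ CC t ∧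
      dot y.2 y.1 = 0).card) * 2 ≤ 5 * (CC t).card := by
    decide +kernel
  have h3 : ∀ t : Ty, 0 < (CC t).card := by decide +kernel
  have h4 : ∀ i : Fin k, ∑ y : V2 × V2,
      (if y.1 ∈ VV (ty i) ∧ y.2 ∈ CC (ty i) ∧ dot y.2 y.1 = 0 then
        1 / ((CC (ty i)).card : ℝ) else 0) ≤ 5 / 2 := by
    intro i
    rw [← Finset.sum_filter, Finset.sum_const, nsmul_eq_mul, mul_one_div]
    have h5 : (0 : ℝ) < ((CC (ty i)).card : ℝ) := by exact_mod_cast h3 (ty i)
    rw [div_le_iff₀ h5]
    have h6 : (((univ.filter fun y : V2 × V2 => y.1 ∈ VV (ty i) ∧ y.2 ∈ CC (ty i) ∧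
      dot y.2 y.1 = 0).card : ℝ)) * 2 ≤ 5 * ((CC (ty i)).card : ℝ) := by exact_mod_cast h2 (ty i)
    linarith
  calc _ ≤ ∑ _i : Fin k, (5 / 2 : ℝ) := Finset.sum_le_sum fun i _ => h4 i
    _ = 5 / 2 * k := by simp [mul_comm]

theorem wtI_pos (ty : Fin k → Ty) (x : Idx ty) : 0 < wtI ty x := by
  have h3 : ∀ t : Ty, 0 < (CC t).card := by decide +kernel
  unfold wtI
  have := h3 (ty x.1.1)
  positivity

theorem wtI_le (ty : Fin k → Ty) (x : Idx ty) : wtI ty x ≤ 1 / 2 := by
  have h3 : ∀ t : Ty, 2 ≤ (CC t).card := by decide +kernel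
  unfold wtI
  apply one_div_le_one_div_of_le (by norm_num)
  exact_mod_cast h3 (ty x.1.1)

end Pool.Agent.H77.SV
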