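import Pool.Agent.H77.SV.Small

/-!
# Module Inner (about 250 lines): the sum over the variables of an unlinked set, the others fixed.

`jr N n = J(N | n)` for odd `n`, `0` for even `n` (Pool.Agent.H24.UM). All entries of the tuples are odd
(products of primes `> w ≥ 8`), squarefree.
PROOF of `st4_rec`: quadratic reciprocity for coprime odd `a, b`
(`jacobiSym.quadratic_reciprocity`, `..._one_mod_four`, `..._three_mod_four`): for `b ≡ 1 (mod 4)`:
`J(a | b) = J(b | a)`; for `b ≡ 3`: `J(a | b) = J(-1 | a) J(b | a) = J(-b | a)`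
(`jacobiSym.at_neg_one`, `ZMod.χ₄`). If `a, b` are not coprime both sides are `0`
(`jacobiSym.eq_zero_iff_not_coprime`).
PROOF of `inner`. Fix `v`. For `u ∈ tupQ U (D.Qv X v)` split the product `term σ (glue U u v)`:
`prod_{i ∈ U} ff σ i (u i) J(K i | u i)` times `prod_{j ∉ U} ff σ j (v j) J(K j | v j)` times the symbols:
 - `(j, j')` both outside `U`: independent of `u`, absolute value `≤ 1`;
 - `i ∈ U`, `j ∉ U`: `J(v j | u i)` if `E i j = 1`, and `J(u i | v j) = J(st4 (v j) | u i)` if `E j i = 1`;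
 - `i, i' ∈ U`: `E i i' = E i' i`, `E i i = 0`; for the unordered pairs `{i, i'}` with `E = 1` the
   product `J(u i' | u i) J(u i | u i') = ρ(u i, u i')`, which for coprime odd numbers is `-1` if both are
   `≡ 3 (mod 4)` and `1` otherwise.
So `term = c0 * prod_{j ∉ U} ff σ j (v j) * prod_{i ∈ U} (ff σ i (u i) J(M i | u i)) * G(ε(u))` with
`|c0| ≤ 1`, `M i = NN U ∅ v i`, `ε(u) ∈ F_2^U` the vector of the classes mod 4, and
`G : (U → ZMod 2) → {1, -1}`. Expand `G` in characters of `F_2^U`: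
`G(ε) = sum_{T ⊆ U} g_T prod_{i ∈ T} (-1)^(ε i)`, `g_T = 2^(-#U) sum_ε G(ε) prod_{i ∈ T} (-1)^(ε i)`,
`|g_T| ≤ 1` (orthogonality: `sum_T prod_{i ∈ T} (-1)^(ε i + δ i) = 2^#U [ε = δ]`, by
`Finset.prod_one_add`). And `(-1)^(ε i) = J(-1 | u i)`, `J(-1|·) J(M i|·) = J(NN U T v i |·)` for
`i ∈ T` (`jacobiSym.mul_left`). Therefore
`|sum_u term| ≤ prod_{j ∉ U} ff σ j (v j) * sum_T |sum_u prod_{i ∈ U} (ff σ i (u i) jr (NN U T v i) (u i))|`.
The inner sum is `prod_{p ∈ Qv} (1 + sum_{i ∈ U} f σ i p jr (NN U T v i) p)` by `euler` (`J = U`,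
`jr` is multiplicative and `u i` is the product of its primes), and every factor is `≥ 0` because
`|sum_i f jr| ≤ sum_i f ≤ 1/8`.
-/

set_option autoImplicit false

namespace Pool.Agent.H77.SV

open Finset Pool.Agent.H24.UM

variable {I : Type} [Fintype I] [DecidableEq I] (D : WD I)

private lemma st4_eq {b : ℕ} (hb : Odd b) : st4 b = ZMod.χ₄ (b : ZMod 4) * (b : ℤ) := by
  unfold st4
  rcases Nat.odd_mod_four_iff.mp (Nat.odd_iff.mp hb) with h | h
  · rw [if_neg (by omega), ZMod.χ₄_nat_one_mod_four h, one_mul]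
  · rw [if_pos h, ZMod.χ₄_nat_three_mod_four h]; ring

theorem st4_rec {a b : ℕ} (ha : Odd a) (hb : Odd b) :
    jacobiSym (a : ℤ) b = jacobiSym (st4 b) a := by
  rw [jacobiSym.quadratic_reciprocity' ha hb, st4_eq hb, jacobiSym.mul_left, qrSign]

private noncomputable def jh (n : ℕ) : ℤ →* ℝ where
  toFun a := ((jacobiSym a n : ℤ) : ℝ)
  map_one' := by rw [jacobiSym.one_left]; norm_num
  map_mul' a b := by rw [jacobiSym.mul_left]; push_cast; rfl

private lemma jh_apply (n : ℕ) (a : ℤ) : jh n a = ((jacobiSym a n : ℤ) : ℝ) := rfl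

private lemma jh_abs (n : ℕ) (a : ℤ) : |jh n a| ≤ 1 := by
  rw [jh_apply]
  rcases jacobiSym.trichotomy a n with h | h | h <;> rw [h] <;> norm_num

private lemma jac_eq (a b : ℕ) : jac a b = jh b (a : ℤ) := rfl

private lemma jac_st4 {a b : ℕ} (ha : Odd a) (hb : Odd b) : jac a b = jh a (st4 b) := by
  rw [jac_eq, jh_apply, jh_apply, st4_rec ha hb]

private lemma jh_neg_one {a : ℕ} (ha : Odd a) : jh a (-1) = if a % 4 = 3 then -1 else 1 := by
  rw [jh_apply, jacobiSym.at_neg_one ha]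
  rcases Nat.odd_mod_four_iff.mp (Nat.odd_iff.mp ha) with h | h
  · rw [if_neg (by omega), ZMod.χ₄_nat_one_mod_four h]; norm_num
  · rw [if_pos h, ZMod.χ₄_nat_three_mod_four h]; norm_num

private lemma pair_val {a b : ℕ} (ha : Odd a) (hb : Odd b) (h : a.Coprime b) :
    jac b a * jac a b = if a % 4 = 3 ∧ b % 4 = 3 then -1 else 1 := by
  have h2 : jac b a * jac b a = 1 := by
    have h3 : (jacobiSym (b : ℤ) a) ^ 2 = 1 := by
      apply jacobiSym.sq_one
      rw [Int.gcd_natCast_natCast]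
      exact h.symm
    rw [← sq]
    unfold jac
    exact_mod_cast h3
  rw [jac_st4 ha hb]
  unfold st4
  by_cases hb3 : b % 4 = 3
  · rw [if_pos hb3, neg_eq_neg_one_mul, map_mul, ← jac_eq, mul_comm (jh a (-1)), ← mul_assoc, h2,
      one_mul, jh_neg_one ha]
    by_cases ha3 : a % 4 = 3
    · rw [if_pos ha3, if_pos ⟨ha3, hb3⟩]
    · rw [if_neg ha3, if_neg (fun h => ha3 h.1)]
  · rw [if_neg hb3, ← jac_eq, h2, if_neg (fun h => hb3 h.2)]

private lemma exists_G (E : I → I → ZMod 2) (hE : ∀ i, E i i = 0) (U : Finset I)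
    (hU : ∀ i ∈ U, ∀ j ∈ U, E i j = E j i) (S : Finset I) :
    S ⊆ U → ∃ G : Finset I → ℝ, (∀ A, |G A| ≤ 1) ∧ ∀ n : I → ℕ, (∀ i, Odd (n i)) →
      (∀ i ∈ U, ∀ j ∈ U, i ≠ j → (n i).Coprime (n j)) →
        ∏ i ∈ S, ∏ j ∈ S, (if E i j = 1 then jac (n j) (n i) else 1) =
          G (U.filter fun i => n i % 4 = 3) := by
  induction S using Finset.induction_on with
  | empty =>
    intro _
    exact ⟨fun _ => 1, by simp, by intro n _ _; simp⟩
  | insert a S ha ih =>
    intro hS
    obtain ⟨G, hG1, hG⟩ := ih (fun i hi => hS (mem_insert_of_mem hi))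
    have haU : a ∈ U := hS (mem_insert_self _ _)
    refine ⟨fun A => (∏ j ∈ S, (if E a j = 1 then (if a ∈ A ∧ j ∈ A then (-1 : ℝ) else 1) else 1))
      * G A, ?_, ?_⟩
    · intro A
      rw [abs_mul, abs_prod]
      refine mul_le_one₀ ?_ (abs_nonneg _) (hG1 A)
      refine prod_le_one (fun _ _ => abs_nonneg _) ?_
      intro j _
      split_ifs <;> norm_num
    · intro n hn hc
      have h1 : ∀ j ∈ S, (if E a j = 1 then jac (n j) (n a) else 1) *
          (if E j a = 1 then jac (n a) (n j) else 1) =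
          (if E a j = 1 then (if a ∈ U.filter (fun i => n i % 4 = 3) ∧
            j ∈ U.filter (fun i => n i % 4 = 3) then (-1 : ℝ) else 1) else 1) := by
        intro j hj
        have hjU : j ∈ U := hS (mem_insert_of_mem hj)
        have haj : a ≠ j := by rintro rfl; exact ha hj
        rw [hU j hjU a haU]
        by_cases h : E a j = 1
        · rw [if_pos h, if_pos h, if_pos h, pair_val (hn a) (hn j) (hc a haU j hjU haj)]
          simp [haU, hjU]
        · rw [if_neg h, if_neg h, if_neg h, one_mul]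
      rw [prod_insert ha, prod_insert ha]
      have h2 : ∀ i ∈ S, ∏ j ∈ insert a S, (if E i j = 1 then jac (n j) (n i) else 1) =
          (if E i a = 1 then jac (n a) (n i) else 1) *
            ∏ j ∈ S, (if E i j = 1 then jac (n j) (n i) else 1) := by
        intro i _
        rw [prod_insert ha]
      rw [prod_congr rfl h2, prod_mul_distrib, hG n hn hc, hE a, if_neg (by decide), one_mul,
        ← mul_assoc, ← prod_mul_distrib, prod_congr rfl h1]

private lemma fourier (U : Finset I) : ∀ (G : Finset I → ℝ), (∀ A, |G A| ≤ 1) →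
    ∃ g : Finset I → ℝ, (∀ T, |g T| ≤ 1) ∧ ∀ A : Finset I, A ⊆ U →
      G A = ∑ T ∈ U.powerset, g T * ∏ i ∈ T, (if i ∈ A then (-1 : ℝ) else 1) := by
  induction U using Finset.induction_on with
  | empty =>
    intro G hG
    refine ⟨fun _ => G ∅, fun _ => hG ∅, ?_⟩
    intro A hA
    rw [subset_empty.mp hA]
    simp
  | insert a U ha ih =>
    intro G hG
    obtain ⟨g0, h01, h02⟩ := ih (fun A => (G A + G (insert a A)) / 2) (by
      intro A
      have h1 := abs_le.mp (hG A)
      have h2 := abs_le.mp (hG (insert a A))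
      rw [abs_le]; constructor <;> linarith [h1.1, h1.2, h2.1, h2.2])
    obtain ⟨g1, h11, h12⟩ := ih (fun A => (G A - G (insert a A)) / 2) (by
      intro A
      have h1 := abs_le.mp (hG A)
      have h2 := abs_le.mp (hG (insert a A))
      rw [abs_le]; constructor <;> linarith [h1.1, h1.2, h2.1, h2.2])
    refine ⟨fun T => if a ∈ T then g1 (T.erase a) else g0 T, ?_, ?_⟩
    · intro T
      by_cases h : a ∈ T
      · simpa only [if_pos h] using h11 _
      · simpa only [if_neg h] using h01 _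
    · intro A hA
      have hB : A.erase a ⊆ U := by
        intro i hi
        rw [mem_erase] at hi
        rcases mem_insert.mp (hA hi.2) with h | h
        · exact absurd h hi.1
        · exact h
      rw [sum_powerset_insert ha]
      have e1 : ∀ t ∈ U.powerset, (if a ∈ t then g1 (t.erase a) else g0 t) *
          ∏ i ∈ t, (if i ∈ A then (-1 : ℝ) else 1) =
          g0 t * ∏ i ∈ t, (if i ∈ A.erase a then (-1 : ℝ) else 1) := by
        intro t ht
        have hat : a ∉ t := fun h => ha (mem_powerset.mp ht h)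
        rw [if_neg hat]
        congr 1
        refine prod_congr rfl fun i hi => ?_
        have : i ≠ a := by rintro rfl; exact hat hi
        simp [this]
      have e2 : ∀ t ∈ U.powerset, (if a ∈ insert a t then g1 ((insert a t).erase a)
          else g0 (insert a t)) * ∏ i ∈ insert a t, (if i ∈ A then (-1 : ℝ) else 1) =
          (if a ∈ A then (-1 : ℝ) else 1) *
          (g1 t * ∏ i ∈ t, (if i ∈ A.erase a then (-1 : ℝ) else 1)) := by
        intro t ht
        have hat : a ∉ t := fun h => ha (mem_powerset.mp ht h)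
        rw [if_pos (mem_insert_self _ _), erase_insert hat, prod_insert hat]
        have : ∏ i ∈ t, (if i ∈ A then (-1 : ℝ) else 1) =
            ∏ i ∈ t, (if i ∈ A.erase a then (-1 : ℝ) else 1) := by
          refine prod_congr rfl fun i hi => ?_
          have : i ≠ a := by rintro rfl; exact hat hi
          simp [this]
        rw [this]; ring
      rw [sum_congr rfl e1, sum_congr rfl e2, ← mul_sum, ← h02 _ hB, ← h12 _ hB]
      by_cases h : a ∈ A
      · rw [if_pos h, insert_erase h]; ring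
      · rw [if_neg h, erase_eq_of_notMem h]; ring

private lemma prod_split (U : Finset I) (f : I → ℝ) :
    ∏ i, f i = (∏ i ∈ U, f i) * ∏ j : {i // i ∉ U}, f j := by
  rw [← Finset.prod_mul_prod_compl U f]
  congr 1
  exact Finset.prod_subtype _ (by simp) f

private noncomputable def c0 (U : Finset I) (n : I → ℕ) : ℝ :=
  (∏ j : {i // i ∉ U}, jh (n j) (D.K j)) *
    ∏ j : {i // i ∉ U}, ∏ j' : {i // i ∉ U}, (if D.E j j' = 1 then jac (n j') (n j) else 1)

private lemma c0_abs (U : Finset I) (n : I → ℕ) : |c0 D U n| ≤ 1 := by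
  unfold c0
  rw [abs_mul]
  refine mul_le_one₀ ?_ (abs_nonneg _) ?_
  · rw [abs_prod]
    exact prod_le_one (fun _ _ => abs_nonneg _) fun _ _ => jh_abs _ _
  · rw [abs_prod]
    refine prod_le_one (fun _ _ => abs_nonneg _) fun _ _ => ?_
    rw [abs_prod]
    refine prod_le_one (fun _ _ => abs_nonneg _) fun _ _ => ?_
    split_ifs
    · rw [jac_eq]; exact jh_abs _ _
    · norm_num

private lemma jh_NN (U T : Finset I) (n : I → ℕ) (hn : ∀ i, Odd (n i)) (i : I) :
    jh (n i) (D.NN U T (fun j => n j) i) =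
      (if i ∈ T then (if n i % 4 = 3 then (-1 : ℝ) else 1) else 1) * (jh (n i) (D.K i) *
        ((∏ j : {j // j ∉ U}, (if D.E i j = 1 then jac (n j) (n i) else 1)) *
          ∏ j : {j // j ∉ U}, (if D.E j i = 1 then jac (n i) (n j) else 1))) := by
  unfold WD.NN
  rw [map_mul, map_mul, map_prod, ← prod_mul_distrib]
  have h1 : ∀ j : {j // j ∉ U}, jh (n i) ((if D.E i j = 1 then ((n j : ℕ) : ℤ) else 1) *
      (if D.E j i = 1 then st4 (n j) else 1)) = (if D.E i j = 1 then jac (n j) (n i) else 1) *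
        (if D.E j i = 1 then jac (n i) (n j) else 1) := by
    intro j
    rw [map_mul]
    congr 1
    · split_ifs
      · rw [jac_eq]
      · rw [map_one]
    · split_ifs
      · rw [jac_st4 (hn i) (hn j)]
      · rw [map_one]
  rw [prod_congr rfl fun j _ => h1 j]
  have h2 : jh (n i) (if i ∈ T then -1 else 1) =
      (if i ∈ T then (if n i % 4 = 3 then (-1 : ℝ) else 1) else 1) := by
    by_cases h : i ∈ T
    · rw [if_pos h, if_pos h, jh_neg_one (hn i)]
    · rw [if_neg h, if_neg h, map_one]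
  rw [h2]; ring

private lemma term_eq (σ : ℝ) (U : Finset I) (hU : D.Unl U) :
    ∃ g : Finset I → ℝ, (∀ T, |g T| ≤ 1) ∧ ∀ n : I → ℕ, (∀ i, Odd (n i)) →
      (∀ i ∈ U, ∀ j ∈ U, i ≠ j → (n i).Coprime (n j)) →
        D.term σ n = c0 D U n * (∏ j : {i // i ∉ U}, D.ff σ j (n j)) *
          ∑ T ∈ U.powerset, g T * ∏ i ∈ U, (D.ff σ i (n i) *
            jh (n i) (D.NN U T (fun j => n j) i)) := by
  obtain ⟨G, hG1, hG⟩ := exists_G D.E D.hE U hU U subset_rfl
  obtain ⟨g, hg1, hg⟩ := fourier U G hG1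
  refine ⟨g, hg1, ?_⟩
  intro n hn hc
  have hA : U.filter (fun i => n i % 4 = 3) ⊆ U := filter_subset _ _
  have h1 : ∀ T ∈ U.powerset, ∏ i ∈ U, (D.ff σ i (n i) *
      jh (n i) (D.NN U T (fun j => n j) i)) =
      (∏ i ∈ T, (if i ∈ U.filter (fun i => n i % 4 = 3) then (-1 : ℝ) else 1)) *
      ((∏ i ∈ U, (D.ff σ i (n i) * jh (n i) (D.K i))) *
        ((∏ i ∈ U, ∏ j : {j // j ∉ U}, (if D.E i j = 1 then jac (n j) (n i) else 1)) *
          ∏ i ∈ U, ∏ j : {j // j ∉ U}, (if D.E j i = 1 then jac (n i) (n j) else 1))) := by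
    intro T hT
    have hTU := mem_powerset.mp hT
    have h2 : ∏ i ∈ T, (if i ∈ U.filter (fun i => n i % 4 = 3) then (-1 : ℝ) else 1) =
        ∏ i ∈ U, (if i ∈ T then (if n i % 4 = 3 then (-1 : ℝ) else 1) else 1) := by
      rw [prod_ite_mem U T (fun i => if n i % 4 = 3 then (-1 : ℝ) else 1),
        inter_eq_right.mpr hTU]
      refine prod_congr rfl fun i hi => ?_
      simp [hTU hi]
    rw [h2, ← prod_mul_distrib, ← prod_mul_distrib, ← prod_mul_distrib]
    refine prod_congr rfl fun i _ => ?_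
    rw [jh_NN D U T n hn i]; ring
  have h3 : ∑ T ∈ U.powerset, g T * ∏ i ∈ U, (D.ff σ i (n i) *
      jh (n i) (D.NN U T (fun j => n j) i)) =
      G (U.filter (fun i => n i % 4 = 3)) * ((∏ i ∈ U, (D.ff σ i (n i) * jh (n i) (D.K i))) *
        ((∏ i ∈ U, ∏ j : {j // j ∉ U}, (if D.E i j = 1 then jac (n j) (n i) else 1)) *
          ∏ i ∈ U, ∏ j : {j // j ∉ U}, (if D.E j i = 1 then jac (n i) (n j) else 1))) := by
    rw [hg _ hA, sum_mul]
    refine sum_congr rfl fun T hT => ?_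
    rw [h1 T hT]; ring
  rw [h3, ← hG n hn hc]
  unfold WD.term c0
  rw [prod_split U (fun i => D.ff σ i (n i) * ((jacobiSym (D.K i) (n i) : ℤ) : ℝ)),
    prod_split U (fun i => ∏ j, (if D.E i j = 1 then jac (n j) (n i) else 1))]
  have h4 : ∀ i, ∏ j, (if D.E i j = 1 then jac (n j) (n i) else 1) =
      (∏ j ∈ U, (if D.E i j = 1 then jac (n j) (n i) else 1)) *
        ∏ j : {j // j ∉ U}, (if D.E i j = 1 then jac (n j) (n i) else 1) := fun i =>
    prod_split U (fun j => if D.E i j = 1 then jac (n j) (n i) else 1)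
  simp_rw [h4, prod_mul_distrib]
  have h5 : ∏ j : {i // i ∉ U}, ∏ i ∈ U, (if D.E j i = 1 then jac (n i) (n j) else 1) =
      ∏ i ∈ U, ∏ j : {j // j ∉ U}, (if D.E j i = 1 then jac (n i) (n j) else 1) := prod_comm
  rw [h5]
  simp_rw [jh_apply]
  ring

private lemma jr_prod (N : ℤ) (n : ℕ) (hn : Odd n) (hs : Squarefree n) :
    jh n N = ∏ p ∈ n.primeFactors, jr N p := by
  have h1 : jr N n = jh n N := by
    unfold jr jc
    rw [if_pos hn, jh_apply]
  let φ : ℕ →* ℝ :=
    { toFun := jr N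
      map_one' := by unfold jr; rw [jc_one]; norm_num
      map_mul' := fun a b => by unfold jr; rw [jc_mul]; push_cast; rfl }
  have h2 : φ (∏ p ∈ n.primeFactors, p) = ∏ p ∈ n.primeFactors, φ p := map_prod φ _ _
  rw [Nat.prod_primeFactors_of_squarefree hs] at h2
  rw [← h1]
  exact h2

private lemma w8 : (8 : ℕ) ≤ D.w := by
  have h1 := D.hw
  have h2 : 0 ≤ ∑ i, D.wt i := sum_nonneg fun i _ => (D.hwt0 i).le
  have h3 := D.heta
  have h4 : (8 : ℝ) ≤ D.w := by nlinarith [mul_nonneg h2 h3]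
  exact_mod_cast h4

private lemma odd_of {n : ℕ} {X : ℕ} (h : ∀ p ∈ n.primeFactors, p ∈ Pr D.w X) (h0 : n ≠ 0) :
    Odd n := by
  rw [← Nat.not_even_iff_odd]
  intro he
  have h2 : 2 ∈ n.primeFactors := by
    rw [Nat.mem_primeFactors]
    exact ⟨Nat.prime_two, he.two_dvd, h0⟩
  have h3 := h 2 h2
  unfold Pr at h3
  rw [mem_filter, mem_Ioc] at h3
  have := w8 D
  omega

theorem WD.inner {σ : ℝ} (hσ : 0 < σ) (X : ℕ) (U : Finset I) (hU : D.Unl U)
    (v : {i // i ∉ U} → ℕ) (hv : v ∈ tupQ {i // i ∉ U} (Pr D.w X)) :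
    |∑ u ∈ tupQ U (D.Qv X v), D.term σ (glue U u v)| ≤
      (∏ j : {i // i ∉ U}, D.ff σ j (v j)) * ∑ T ∈ U.powerset,
        ∏ p ∈ D.Qv X v, (1 + ∑ i ∈ U, D.f σ i p * jr (D.NN U T v i) p) := by
  have hQ : ∀ p ∈ Pr D.w X, p.Prime := fun p hp => (mem_filter.mp hp).2
  have hQw : ∀ p ∈ Pr D.w X, D.w < p := fun p hp => (mem_Ioc.mp (mem_filter.mp hp).1).1
  have hQvs : ∀ p ∈ D.Qv X v, p ∈ Pr D.w X := fun p hp => (mem_filter.mp hp).1
  have hQv : ∀ p ∈ D.Qv X v, p.Prime := fun p hp => hQ p (hQvs p hp)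
  obtain ⟨hv1, hv2⟩ := mem_tupQ hQ hv
  obtain ⟨g, hg1, hg⟩ := term_eq D σ U hU
  have key : ∀ u ∈ tupQ U (D.Qv X v), D.term σ (glue U u v) =
      c0 D U (glue U (fun _ => 1) v) * (∏ j : {i // i ∉ U}, D.ff σ j (v j)) *
        ∑ T ∈ U.powerset, g T * ∏ i : U, ∏ p ∈ (u i).primeFactors,
          (D.f σ i p * jr (D.NN U T v i) p) := by
    intro u hu
    obtain ⟨hu1, hu2⟩ := mem_tupQ hQv hu
    have hgv : ∀ (u' : U → ℕ) (j : {i // i ∉ U}), glue U u' v j = v j := by
      intro u' j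
      unfold glue
      rw [dif_neg j.2]
    have hgu : ∀ i : U, glue U u v i = u i := by
      intro i
      unfold glue
      rw [dif_pos i.2]
    have hodd : ∀ i, Odd (glue U u v i) := by
      intro i
      by_cases h : i ∈ U
      · rw [hgu ⟨i, h⟩]
        exact odd_of D (X := X) (fun p hp => hQvs p ((hu1 ⟨i, h⟩).2.2 p hp)) (hu1 ⟨i, h⟩).1
      · rw [hgv u ⟨i, h⟩]
        exact odd_of D (X := X) (fun p hp => (hv1 ⟨i, h⟩).2.2 p hp) (hv1 ⟨i, h⟩).1
    have hcop : ∀ i ∈ U, ∀ j ∈ U, i ≠ j → (glue U u v i).Coprime (glue U u v j) := by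
      intro i hi j hj hij
      rw [hgu ⟨i, hi⟩, hgu ⟨j, hj⟩]
      exact hu2 _ _ (fun h => hij (congrArg Subtype.val h))
    rw [hg _ hodd hcop]
    have e1 : (fun j : {i // i ∉ U} => glue U u v j) = v := funext (hgv u)
    have e2 : c0 D U (glue U u v) = c0 D U (glue U (fun _ => 1) v) := by
      unfold c0
      simp_rw [hgv]
    rw [e2, e1]
    simp_rw [hgv]
    congr 1
    refine sum_congr rfl fun T _ => ?_
    congr 1
    rw [← Finset.prod_coe_sort]
    refine prod_congr rfl fun i _ => ?_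
    rw [prod_mul_distrib, ← jr_prod _ _ ?_ (hu1 i).2.1, hgu i]
    · rfl
    · have := hodd i
      rwa [hgu i] at this
  rw [sum_congr rfl key, ← mul_sum, sum_comm]
  simp_rw [← mul_sum]
  have h2 : ∀ T ∈ U.powerset, ∑ u ∈ tupQ U (D.Qv X v), ∏ i : U, ∏ p ∈ (u i).primeFactors,
      (D.f σ i p * jr (D.NN U T v i) p) =
      ∏ p ∈ D.Qv X v, (1 + ∑ i ∈ U, D.f σ i p * jr (D.NN U T v i) p) := by
    intro T _
    rw [euler (D.Qv X v) hQv (fun (i : U) p => D.f σ i p * jr (D.NN U T v i) p)]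
    refine prod_congr rfl fun p _ => ?_
    congr 1
    exact Finset.sum_coe_sort U (fun i => D.f σ i p * jr (D.NN U T v i) p)
  have h3 : ∀ T ∈ U.powerset, 0 ≤
      ∏ p ∈ D.Qv X v, (1 + ∑ i ∈ U, D.f σ i p * jr (D.NN U T v i) p) := by
    intro T _
    refine prod_nonneg fun p hp => ?_
    have h4 : |∑ i ∈ U, D.f σ i p * jr (D.NN U T v i) p| ≤ 1 / 8 := by
      refine (abs_sum_le_sum_abs _ _).trans ?_
      refine le_trans (sum_le_sum (g := fun i => D.f σ i p) fun i _ => ?_) ?_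
      · rw [abs_mul, abs_of_nonneg (D.f_nonneg σ i p)]
        refine mul_le_of_le_one_right (D.f_nonneg σ i p) ?_
        unfold jr
        rcases jc_val (D.NN U T v i) p with h | h | h <;> rw [h] <;> norm_num
      · refine le_trans (sum_le_sum_of_subset_of_nonneg (subset_univ U)
          fun i _ _ => D.f_nonneg σ i p) ?_
        exact D.sum_f_le hσ (hQv p hp) (hQw p (hQvs p hp))
    have := (abs_le.mp h4).1
    linarith
  have hF : 0 ≤ ∏ j : {i // i ∉ U}, D.ff σ j (v j) := prod_nonneg fun j _ => D.ff_nonneg σ j _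
  have h5 : |∑ T ∈ U.powerset, g T * ∑ u ∈ tupQ U (D.Qv X v), ∏ i : U,
      ∏ p ∈ (u i).primeFactors, (D.f σ i p * jr (D.NN U T v i) p)| ≤
      ∑ T ∈ U.powerset, ∏ p ∈ D.Qv X v, (1 + ∑ i ∈ U, D.f σ i p * jr (D.NN U T v i) p) := by
    refine (abs_sum_le_sum_abs _ _).trans (sum_le_sum fun T hT => ?_)
    rw [h2 T hT, abs_mul, abs_of_nonneg (h3 T hT)]
    exact mul_le_of_le_one_left (h3 T hT) (hg1 T)
  rw [abs_mul, abs_mul, abs_of_nonneg hF]
  calc |c0 D U (glue U (fun _ => 1) v)| * (∏ j : {i // i ∉ U}, D.ff σ j (v j)) * _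
      ≤ 1 * (∏ j : {i // i ∉ U}, D.ff σ j (v j)) * _ := by
        refine mul_le_mul_of_nonneg_right (mul_le_mul_of_nonneg_right (c0_abs D U _) hF)
          (abs_nonneg _)
    _ ≤ _ := by
        rw [one_mul]
        exact mul_le_mul_of_nonneg_left h5 hF

end Pool.Agent.H77.SV
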