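import Pool.Agent.H77.SV.BLin
import Pool.Agent.H77.SV.Inner

/-!
# Module Dyad (about 220 lines): the bilinear sum over large variables.

PROOF. STEP 1 (symmetric bilinear bound). For `A, B ≥ 1` arbitrary and `α, β` bounded by `1`, with
`α i = 0` for even `i`: `|sum_{i ≤ A, j ≤ B} α i β j jr i j| ≤ 8 A B min(A,B)^(-1/8) (1 + 4 log (max A B))^2`.
For `A ≤ B` this is `bilinear_le`. For `A > B` use reciprocity: for odd `i, j`:
`J(i | j) = J(st4 j | i)` (`st4_rec`); split `j` into the classes `1, 3` mod 4: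
for `j ≡ 1 (mod 4)`, `jr i j = jr j i`; for `j ≡ 3`: `jr i j = J(-1|i) jr j i`, and
`J(-1 | i)` can be absorbed into `α i`. So the sum is a sum of two sums
`sum_j sum_i β' j α' i jr j i` with the roles exchanged (`β'` supported on one class), `bilinear_le`.
STEP 2 (dyadic). Let `α, β : ℕ → ℝ` with `|α n|, |β n| ≤ n^(-1-σ)`, `α n = 0` for even `n` (and for
`n = 0`), `β` the same. For `a, b ≥ 0` the block `2^a < i ≤ 2^(a+1)`, `2^b < j ≤ 2^(b+1)`: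
apply STEP 1 with `A = 2^(a+1)`, `B = 2^(b+1)` to
`2^a α i [2^a < i ≤ 2^(a+1), i > Y, i ≤ M]` times `2^(a σ)`: precisely `α'_i = 2^(a (1+σ)) α i [..]` is bounded
by `1`. The block is at most
`2^(-(a+b)(1+σ)) 8 2^(a+b+2) min(2^(a+1), 2^(b+1))^(-1/8) (1 + 4 log 2^(a+b+1))^2`.
It vanishes unless `2^(a+1) > Y` and `2^(b+1) > Y`, so the minimum is `≥ Y` and the block is at most
`32 Y^(-1/8) 2^(-σ(a+b)) (4 + 4 (a + b))^2`.
STEP 3. `sum_{a,b ≥ 0} 2^(-σ(a+b)) (4+4(a+b))^2 ≤ 16 sum_{t ≥ 0} (t+1)^3 2^(-σ t) ≤ C σ^(-4)`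
(e.g. `(t+1)^3 ≤ 6 C(t+3, 3)` and `sum_t C(t+3,3) x^t = (1-x)^(-4)`, `1 - 2^(-σ) ≥ σ/2` for `0 < σ ≤ 1`;
finite partial sums suffice: `a, b ≤ M`). The number `1` (`i = 1`, `2^0 < i` fails) does not occur because
`i > Y ≥ 1`.
-/

set_option autoImplicit false

namespace Pool.Agent.H77.SV

open Finset Pool.Agent.H24.UM

private theorem dyad_jr_odd {i : ℤ} {j : ℕ} (hj : Odd j) : jr i j = ((jacobiSym i j : ℤ) : ℝ) := by
  unfold jr jc
  rw [if_pos hj]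

private theorem dyad_jac (a : ℤ) (b : ℕ) : |((jacobiSym a b : ℤ) : ℝ)| ≤ 1 := by
  rcases jacobiSym.trichotomy a b with h | h | h <;> rw [h] <;> norm_num

private theorem dyad_rpow {x : ℝ} (hx : 0 < x) : x ^ (7 / 8 : ℝ) = x * x ^ (-(1 / 8) : ℝ) := by
  nth_rewrite 2 [← Real.rpow_one x]
  rw [← Real.rpow_add hx]
  norm_num

private theorem dyad_sym (A B : ℕ) (hA : 1 ≤ A) (hB : 1 ≤ B) (α β : ℕ → ℝ)
    (hα : ∀ i, |α i| ≤ 1) (hβ : ∀ j, |β j| ≤ 1) (hα0 : ∀ i, ¬ Odd i → α i = 0)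
    (hβ0 : ∀ i, ¬ Odd i → β i = 0) :
    |∑ i ∈ Icc 1 A, ∑ j ∈ Icc 1 B, α i * β j * jr (i : ℤ) j| ≤
      4 * A * B * ((min A B : ℕ) : ℝ) ^ (-(1 / 8) : ℝ) *
        (1 + 4 * Real.log ((max A B : ℕ) : ℝ)) ^ 2 := by
  have hA0 : (0 : ℝ) < A := by exact_mod_cast hA
  have hB0 : (0 : ℝ) < B := by exact_mod_cast hB
  rcases le_total A B with hAB | hAB
  · have h1 := bilinear_le A B hA hAB α β hα hβ
    rw [min_eq_left hAB, max_eq_right hAB]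
    rw [dyad_rpow hA0] at h1
    have h2 : 0 ≤ (A : ℝ) * B * (A : ℝ) ^ (-(1 / 8) : ℝ) * (1 + 4 * Real.log B) ^ 2 := by positivity
    linarith
  · rw [min_eq_right hAB, max_eq_left hAB]
    set β₁ : ℕ → ℝ := fun j => if j % 4 = 3 then 0 else β j with hβ₁
    set β₃ : ℕ → ℝ := fun j => if j % 4 = 3 then β j else 0 with hβ₃
    set α' : ℕ → ℝ := fun i => α i * ((jacobiSym (-1) i : ℤ) : ℝ) with hα'
    have b1 : ∀ j, |β₁ j| ≤ 1 := by
      intro j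
      simp only [hβ₁]
      split_ifs
      · simp
      · exact hβ j
    have b3 : ∀ j, |β₃ j| ≤ 1 := by
      intro j
      simp only [hβ₃]
      split_ifs
      · exact hβ j
      · simp
    have a3 : ∀ i, |α' i| ≤ 1 := by
      intro i
      simp only [hα']
      rw [abs_mul]
      exact mul_le_one₀ (hα i) (abs_nonneg _) (dyad_jac _ _)
    have hpt : ∀ i j : ℕ, α i * β j * jr (i : ℤ) j =
        β₁ j * α i * jr (j : ℤ) i + β₃ j * α' i * jr (j : ℤ) i := by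
      intro i j
      by_cases hi : Odd i
      · by_cases hj : Odd j
        · rw [dyad_jr_odd hj, dyad_jr_odd hi, st4_rec hi hj]
          unfold st4
          by_cases h3 : j % 4 = 3
          · simp only [hβ₁, hβ₃, hα', h3, if_true]
            rw [neg_eq_neg_one_mul, jacobiSym.mul_left]
            push_cast
            ring
          · simp only [hβ₁, hβ₃, h3, if_false]
            ring
        · have h0 := hβ0 j hj
          simp only [hβ₁, hβ₃, h0]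
          simp
      · have h0 := hα0 i hi
        simp only [hα', h0]
        ring
    have hsum : ∑ i ∈ Icc 1 A, ∑ j ∈ Icc 1 B, α i * β j * jr (i : ℤ) j =
        ∑ j ∈ Icc 1 B, ∑ i ∈ Icc 1 A, β₁ j * α i * jr (j : ℤ) i +
          ∑ j ∈ Icc 1 B, ∑ i ∈ Icc 1 A, β₃ j * α' i * jr (j : ℤ) i := by
      rw [Finset.sum_comm, ← Finset.sum_add_distrib]
      refine Finset.sum_congr rfl fun j _ => ?_
      rw [← Finset.sum_add_distrib]
      exact Finset.sum_congr rfl fun i _ => hpt i j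
    rw [hsum]
    have h1 := bilinear_le B A hB hAB β₁ α b1 hα
    have h2 := bilinear_le B A hB hAB β₃ α' b3 a3
    rw [dyad_rpow hB0] at h1 h2
    refine (abs_add_le _ _).trans ?_
    calc _ ≤ 2 * ((B : ℝ) * (B : ℝ) ^ (-(1 / 8) : ℝ)) * A * (1 + 4 * Real.log A) ^ 2 +
          2 * ((B : ℝ) * (B : ℝ) ^ (-(1 / 8) : ℝ)) * A * (1 + 4 * Real.log A) ^ 2 :=
        add_le_add h1 h2
      _ = _ := by ring

private theorem dyad_geo {x : ℝ} (hx0 : 0 ≤ x) (hx1 : x < 1) (M : ℕ) :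
    ∑ a ∈ range M, x ^ a ≤ 1 / (1 - x) := by
  have h := hasSum_geometric_of_lt_one hx0 hx1
  have h2 := sum_le_hasSum (range M) (fun a _ => pow_nonneg hx0 a) h
  rwa [one_div]

private theorem dyad_geo2 {x : ℝ} (hx0 : 0 ≤ x) (hx1 : x < 1) (M : ℕ) :
    ∑ a ∈ range M, (1 + (a : ℝ)) ^ 2 * x ^ a ≤ 2 / (1 - x) ^ 3 := by
  have hn : ‖x‖ < 1 := by rwa [Real.norm_eq_abs, abs_of_nonneg hx0]
  have h := hasSum_choose_mul_geometric_of_norm_lt_one 2 hn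
  have h2 := sum_le_hasSum (range M)
    (fun a _ => mul_nonneg (Nat.cast_nonneg _) (pow_nonneg hx0 a)) h
  have h3 : ∑ a ∈ range M, (1 + (a : ℝ)) ^ 2 * x ^ a ≤
      2 * ∑ a ∈ range M, ((a + 2).choose 2 : ℝ) * x ^ a := by
    rw [Finset.mul_sum]
    refine Finset.sum_le_sum fun a _ => ?_
    rw [← mul_assoc]
    refine mul_le_mul_of_nonneg_right ?_ (pow_nonneg hx0 a)
    rw [Nat.cast_choose_two]
    push_cast
    have : (0 : ℝ) ≤ a := Nat.cast_nonneg a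
    nlinarith
  calc _ ≤ 2 * (1 / (1 - x) ^ (2 + 1)) := h3.trans (by linarith)
    _ = _ := by ring

private theorem dyad_x {σ : ℝ} (hσ : 0 < σ) (hσ1 : σ ≤ 1 / 2) :
    σ / 2 ≤ 1 - (2 : ℝ) ^ (-σ) := by
  have hl := Real.log_two_gt_d9
  have hu := Real.log_two_lt_d9
  set y := σ * Real.log 2 with hy
  have hy0 : 0 < y := by positivity
  have h1 : (2 : ℝ) ^ (-σ) = (Real.exp y)⁻¹ := by
    rw [Real.rpow_def_of_pos (by norm_num : (0 : ℝ) < 2), ← Real.exp_neg, hy]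
    congr 1; ring
  have h2 : 1 + y ≤ Real.exp y := by linarith [Real.add_one_le_exp y]
  have h3 : (Real.exp y)⁻¹ ≤ (1 + y)⁻¹ := inv_anti₀ (by linarith) h2
  have h4 : σ / 2 ≤ 1 - (1 + y)⁻¹ := by
    have h5 : 1 - (1 + y)⁻¹ = y / (1 + y) := by field_simp; ring
    rw [h5, le_div_iff₀ (by linarith)]
    have h6 : y ≤ 1 / 2 * Real.log 2 := by
      rw [hy]; exact mul_le_mul_of_nonneg_right hσ1 (by linarith)
    have h7 : σ / 2 * (1 + y) ≤ σ / 2 * (1 + 1 / 2 * Real.log 2) :=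
      mul_le_mul_of_nonneg_left (by linarith) (by linarith)
    have h8 : σ / 2 * (1 + 1 / 2 * Real.log 2) ≤ σ * Real.log 2 := by nlinarith
    linarith
  rw [h1]
  linarith

private theorem dyad_block {σ : ℝ} (hσ : 0 < σ) {Y : ℝ} (hY : 1 ≤ Y) (S : Finset ℕ)
    (α β : ℕ → ℝ) (hS : ∀ n ∈ S, Odd n)
    (hα : ∀ n ∈ S, |α n| ≤ (n : ℝ) ^ (-(1 + σ))) (hβ : ∀ n ∈ S, |β n| ≤ (n : ℝ) ^ (-(1 + σ)))
    (hSY : ∀ n ∈ S, Y < (n : ℝ)) (a b : ℕ) :
    |∑ i ∈ S with Nat.log 2 i = a, ∑ j ∈ S with Nat.log 2 j = b, α i * β j * jr (i : ℤ) j| ≤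
      400 * Y ^ (-(1 / 8) : ℝ) *
        (((1 + (a : ℝ)) ^ 2 + (1 + (b : ℝ)) ^ 2) *
          (((2 : ℝ) ^ (-σ)) ^ a * ((2 : ℝ) ^ (-σ)) ^ b)) := by
  have hY0 : 0 < Y := by linarith
  have hrhs : 0 ≤ 400 * Y ^ (-(1 / 8) : ℝ) *
        (((1 + (a : ℝ)) ^ 2 + (1 + (b : ℝ)) ^ 2) *
          (((2 : ℝ) ^ (-σ)) ^ a * ((2 : ℝ) ^ (-σ)) ^ b)) := by positivity
  rcases (S.filter (fun i => Nat.log 2 i = a)).eq_empty_or_nonempty with he | ⟨i₀, hi₀⟩
  · rw [he]; simpa using hrhs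
  rcases (S.filter (fun i => Nat.log 2 i = b)).eq_empty_or_nonempty with he | ⟨j₀, hj₀⟩
  · rw [he]; simpa using hrhs
  have hbd : ∀ n ∈ S, ∀ c : ℕ, Nat.log 2 n = c → 2 ^ c ≤ n ∧ n < 2 ^ (c + 1) := by
    intro n hn c hc
    have hn0 : n ≠ 0 := by
      have := (hS n hn).pos
      omega
    rw [← hc]
    exact ⟨Nat.pow_log_le_self 2 hn0, Nat.lt_pow_succ_log_self (by norm_num) n⟩
  rw [Finset.mem_filter] at hi₀ hj₀
  -- the bounded coefficients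
  set pa : ℝ := ((2 : ℝ) ^ a) ^ (1 + σ) with hpa
  set pb : ℝ := ((2 : ℝ) ^ b) ^ (1 + σ) with hpb
  have hpa0 : 0 < pa := by positivity
  have hpb0 : 0 < pb := by positivity
  have hcoef : ∀ (γ : ℕ → ℝ) (c : ℕ), (∀ n ∈ S, |γ n| ≤ (n : ℝ) ^ (-(1 + σ))) → ∀ n,
      |(if n ∈ S.filter (fun i => Nat.log 2 i = c) then ((2 : ℝ) ^ c) ^ (1 + σ) * γ n else 0)| ≤
        1 := by
    intro γ c hγ n
    split_ifs with hn
    · rw [Finset.mem_filter] at hn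
      have h1 := (hbd n hn.1 c hn.2).1
      have h2 : ((2 : ℝ) ^ c) ≤ n := by exact_mod_cast h1
      have h3 : (n : ℝ) ^ (-(1 + σ)) ≤ ((2 : ℝ) ^ c) ^ (-(1 + σ)) :=
        Real.rpow_le_rpow_of_nonpos (by positivity) h2 (by linarith)
      have h4 := (hγ n hn.1).trans h3
      rw [abs_mul, abs_of_pos (by positivity : (0 : ℝ) < ((2 : ℝ) ^ c) ^ (1 + σ))]
      calc ((2 : ℝ) ^ c) ^ (1 + σ) * |γ n| ≤
          ((2 : ℝ) ^ c) ^ (1 + σ) * ((2 : ℝ) ^ c) ^ (-(1 + σ)) :=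
            mul_le_mul_of_nonneg_left h4 (by positivity)
        _ = 1 := by
          rw [← Real.rpow_add (by positivity)]
          simp
    · simp
  have hpar : ∀ (γ : ℕ → ℝ) (c : ℕ) (n : ℕ), ¬ Odd n →
      (if n ∈ S.filter (fun i => Nat.log 2 i = c) then ((2 : ℝ) ^ c) ^ (1 + σ) * γ n else 0) =
        0 := by
    intro γ c n hn
    rw [if_neg]
    intro h
    exact hn (hS n (Finset.mem_filter.1 h).1)
  have hsub : ∀ c : ℕ, S.filter (fun i => Nat.log 2 i = c) ⊆ Icc 1 (2 ^ (c + 1)) := by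
    intro c n hn
    rw [Finset.mem_filter] at hn
    have h1 := hbd n hn.1 c hn.2
    have h2 := (hS n hn.1).pos
    exact Finset.mem_Icc.2 ⟨h2, h1.2.le⟩
  have hA1 : 1 ≤ 2 ^ (a + 1) := Nat.one_le_two_pow
  have hB1 : 1 ≤ 2 ^ (b + 1) := Nat.one_le_two_pow
  have main := dyad_sym (2 ^ (a + 1)) (2 ^ (b + 1)) hA1 hB1
    (fun n => if n ∈ S.filter (fun i => Nat.log 2 i = a) then ((2 : ℝ) ^ a) ^ (1 + σ) * α n else 0)
    (fun n => if n ∈ S.filter (fun i => Nat.log 2 i = b) then ((2 : ℝ) ^ b) ^ (1 + σ) * β n else 0)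
    (hcoef α a hα) (hcoef β b hβ) (hpar α a) (hpar β b)
  have hid : ∑ i ∈ Icc 1 (2 ^ (a + 1)), ∑ j ∈ Icc 1 (2 ^ (b + 1)),
      (if i ∈ S.filter (fun i => Nat.log 2 i = a) then ((2 : ℝ) ^ a) ^ (1 + σ) * α i else 0) *
        (if j ∈ S.filter (fun i => Nat.log 2 i = b) then ((2 : ℝ) ^ b) ^ (1 + σ) * β j else 0) *
          jr (i : ℤ) j =
      (pa * pb) * ∑ i ∈ S with Nat.log 2 i = a, ∑ j ∈ S with Nat.log 2 j = b,
        α i * β j * jr (i : ℤ) j := by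
    rw [← Finset.sum_subset (hsub a)]
    · rw [Finset.mul_sum]
      refine Finset.sum_congr rfl fun i hi => ?_
      rw [← Finset.sum_subset (hsub b)]
      · rw [Finset.mul_sum]
        refine Finset.sum_congr rfl fun j hj => ?_
        rw [if_pos hi, if_pos hj]
        ring
      · intro j _ hj
        rw [if_neg hj]; ring
    · intro i _ hi
      refine Finset.sum_eq_zero fun j _ => ?_
      rw [if_neg hi]; ring
  rw [hid, abs_mul, abs_of_pos (mul_pos hpa0 hpb0)] at main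
  -- sizes
  have hminY : Y ≤ ((min (2 ^ (a + 1)) (2 ^ (b + 1)) : ℕ) : ℝ) := by
    have h1 : Y < (2 : ℝ) ^ (a + 1) := by
      have := (hbd i₀ hi₀.1 a hi₀.2).2
      have h2 : (i₀ : ℝ) < (2 : ℝ) ^ (a + 1) := by exact_mod_cast this
      exact (hSY i₀ hi₀.1).trans h2
    have h2 : Y < (2 : ℝ) ^ (b + 1) := by
      have := (hbd j₀ hj₀.1 b hj₀.2).2
      have h2 : (j₀ : ℝ) < (2 : ℝ) ^ (b + 1) := by exact_mod_cast this
      exact (hSY j₀ hj₀.1).trans h2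
    push_cast
    exact le_min h1.le h2.le
  have hmin : ((min (2 ^ (a + 1)) (2 ^ (b + 1)) : ℕ) : ℝ) ^ (-(1 / 8) : ℝ) ≤
      Y ^ (-(1 / 8) : ℝ) :=
    Real.rpow_le_rpow_of_nonpos hY0 hminY (by norm_num)
  have hl2 : Real.log 2 ≤ 1 := by linarith [Real.log_two_lt_d9]
  have hl0 : 0 ≤ Real.log 2 := by linarith [Real.log_two_gt_d9]
  have ha0 : (0 : ℝ) ≤ a := Nat.cast_nonneg a
  have hb0 : (0 : ℝ) ≤ b := Nat.cast_nonneg b
  have hlogp : ∀ c : ℕ, 0 ≤ Real.log (((2 ^ (c + 1) : ℕ)) : ℝ) ∧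
      Real.log (((2 ^ (c + 1) : ℕ)) : ℝ) ≤ c + 1 := by
    intro c
    push_cast
    rw [Real.log_pow]
    push_cast
    have hc : (0 : ℝ) ≤ (c : ℝ) + 1 := by positivity
    exact ⟨mul_nonneg hc hl0, by nlinarith⟩
  have hsq : (1 + 4 * Real.log ((max (2 ^ (a + 1)) (2 ^ (b + 1)) : ℕ) : ℝ)) ^ 2 ≤
      25 * ((1 + (a : ℝ)) ^ 2 + (1 + (b : ℝ)) ^ 2) := by
    rcases max_choice (2 ^ (a + 1)) (2 ^ (b + 1)) with h | h
    · rw [h]
      obtain ⟨h1, h2⟩ := hlogp a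
      nlinarith [sq_nonneg (1 + (b : ℝ))]
    · rw [h]
      obtain ⟨h1, h2⟩ := hlogp b
      nlinarith [sq_nonneg (1 + (a : ℝ))]
  have main2 : pa * pb * |∑ i ∈ S with Nat.log 2 i = a, ∑ j ∈ S with Nat.log 2 j = b,
        α i * β j * jr (i : ℤ) j| ≤
      4 * ((2 ^ (a + 1) : ℕ) : ℝ) * ((2 ^ (b + 1) : ℕ) : ℝ) * Y ^ (-(1 / 8) : ℝ) *
        (25 * ((1 + (a : ℝ)) ^ 2 + (1 + (b : ℝ)) ^ 2)) := by
    refine main.trans ?_
    refine mul_le_mul ?_ hsq (sq_nonneg _) (by positivity)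
    exact mul_le_mul_of_nonneg_left hmin (by positivity)
  have hpp : ∀ c : ℕ, ((2 : ℝ) ^ c) = ((2 : ℝ) ^ c) ^ (1 + σ) * ((2 : ℝ) ^ (-σ)) ^ c := by
    intro c
    have h1 : ((2 : ℝ) ^ (-σ)) ^ c = ((2 : ℝ) ^ c) ^ (-σ) := by
      rw [← Real.rpow_natCast, ← Real.rpow_mul (by norm_num), mul_comm,
        Real.rpow_mul (by norm_num), Real.rpow_natCast]
    rw [h1, ← Real.rpow_add (by positivity)]
    simp
  have main3 : pa * pb * |∑ i ∈ S with Nat.log 2 i = a, ∑ j ∈ S with Nat.log 2 j = b,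
        α i * β j * jr (i : ℤ) j| ≤
      pa * pb * (400 * Y ^ (-(1 / 8) : ℝ) *
        (((1 + (a : ℝ)) ^ 2 + (1 + (b : ℝ)) ^ 2) *
          (((2 : ℝ) ^ (-σ)) ^ a * ((2 : ℝ) ^ (-σ)) ^ b))) := by
    refine main2.trans (le_of_eq ?_)
    push_cast
    rw [pow_succ, pow_succ]
    nth_rewrite 1 [hpp a]
    nth_rewrite 1 [hpp b]
    rw [hpa, hpb]
    ring
  exact le_of_mul_le_mul_left main3 (mul_pos hpa0 hpb0)

/-- bilinear sum over large variables -/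
theorem dyadic_bound : ∃ C : ℝ, 0 < C ∧ ∀ σ : ℝ, 0 < σ → σ ≤ 1 / 2 → ∀ Y : ℝ, 1 ≤ Y →
    ∀ (S : Finset ℕ) (α β : ℕ → ℝ), (∀ n ∈ S, Odd n) →
    (∀ n ∈ S, |α n| ≤ (n : ℝ) ^ (-(1 + σ))) → (∀ n ∈ S, |β n| ≤ (n : ℝ) ^ (-(1 + σ))) →
    |∑ i ∈ S.filter (fun n : ℕ => Y < (n : ℝ)), ∑ j ∈ S.filter (fun n : ℕ => Y < (n : ℝ)),
        α i * β j * jr (i : ℤ) j| ≤ C * Y ^ (-(1 / 8) : ℝ) * σ ^ (-(4 : ℝ)) := by
  refine ⟨25600, by norm_num, fun σ hσ hσ1 Y hY S₀ α β hS₀ hα₀ hβ₀ => ?_⟩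
  set S := S₀.filter (fun n : ℕ => Y < (n : ℝ)) with hSdef
  have hmem : ∀ n ∈ S, n ∈ S₀ := fun n hn => (Finset.mem_filter.1 hn).1
  have hY0 : 0 < Y := by linarith
  set M := S.sup id + 1 with hM
  have hmaps : ∀ n ∈ S, Nat.log 2 n ∈ range M := by
    intro n hn
    rw [Finset.mem_range, hM]
    have h1 : n ≤ S.sup id := Finset.le_sup (f := id) hn
    have h2 := Nat.log_le_self 2 n
    omega
  set x : ℝ := (2 : ℝ) ^ (-σ) with hx
  have hx0 : 0 ≤ x := by positivity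
  have hxs := dyad_x hσ hσ1
  rw [← hx] at hxs
  have hx1 : x < 1 := by linarith
  have hsplit : ∑ i ∈ S, ∑ j ∈ S, α i * β j * jr (i : ℤ) j =
      ∑ a ∈ range M, ∑ b ∈ range M, ∑ i ∈ S with Nat.log 2 i = a,
        ∑ j ∈ S with Nat.log 2 j = b, α i * β j * jr (i : ℤ) j := by
    rw [← Finset.sum_fiberwise_of_maps_to hmaps (fun i => ∑ j ∈ S, α i * β j * jr (i : ℤ) j)]
    refine Finset.sum_congr rfl fun a _ => ?_
    conv_rhs => rw [Finset.sum_comm]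
    refine Finset.sum_congr rfl fun i _ => ?_
    exact (Finset.sum_fiberwise_of_maps_to hmaps (fun j => α i * β j * jr (i : ℤ) j)).symm
  rw [hsplit]
  have hblock : ∀ a b : ℕ, |∑ i ∈ S with Nat.log 2 i = a,
        ∑ j ∈ S with Nat.log 2 j = b, α i * β j * jr (i : ℤ) j| ≤
      400 * Y ^ (-(1 / 8) : ℝ) *
        (((1 + (a : ℝ)) ^ 2 + (1 + (b : ℝ)) ^ 2) * (x ^ a * x ^ b)) :=
    fun a b => dyad_block hσ hY S α β (fun n hn => hS₀ n (hmem n hn))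
      (fun n hn => hα₀ n (hmem n hn)) (fun n hn => hβ₀ n (hmem n hn))
      (fun n hn => (Finset.mem_filter.1 hn).2) a b
  have h1 : |∑ a ∈ range M, ∑ b ∈ range M, ∑ i ∈ S with Nat.log 2 i = a,
        ∑ j ∈ S with Nat.log 2 j = b, α i * β j * jr (i : ℤ) j| ≤
      ∑ a ∈ range M, ∑ b ∈ range M, 400 * Y ^ (-(1 / 8) : ℝ) *
        (((1 + (a : ℝ)) ^ 2 + (1 + (b : ℝ)) ^ 2) * (x ^ a * x ^ b)) := by
    refine (Finset.abs_sum_le_sum_abs _ _).trans (Finset.sum_le_sum fun a _ => ?_)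
    refine (Finset.abs_sum_le_sum_abs _ _).trans (Finset.sum_le_sum fun b _ => ?_)
    exact hblock a b
  have h2 : ∑ a ∈ range M, ∑ b ∈ range M, 400 * Y ^ (-(1 / 8) : ℝ) *
        (((1 + (a : ℝ)) ^ 2 + (1 + (b : ℝ)) ^ 2) * (x ^ a * x ^ b)) =
      400 * Y ^ (-(1 / 8) : ℝ) * (2 * ((∑ a ∈ range M, (1 + (a : ℝ)) ^ 2 * x ^ a) *
        ∑ b ∈ range M, x ^ b)) := by
    have e1 : ∀ a b : ℕ, 400 * Y ^ (-(1 / 8) : ℝ) *
        (((1 + (a : ℝ)) ^ 2 + (1 + (b : ℝ)) ^ 2) * (x ^ a * x ^ b)) =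
        400 * Y ^ (-(1 / 8) : ℝ) * (((1 + (a : ℝ)) ^ 2 * x ^ a) * x ^ b +
          x ^ a * ((1 + (b : ℝ)) ^ 2 * x ^ b)) := fun a b => by ring
    simp only [e1, ← Finset.mul_sum, Finset.sum_add_distrib, ← Finset.sum_mul]
    ring
  rw [h2] at h1
  have h3 := dyad_geo hx0 hx1 M
  have h4 := dyad_geo2 hx0 hx1 M
  have hd : 0 < 1 - x := by linarith
  have h5 : (∑ a ∈ range M, (1 + (a : ℝ)) ^ 2 * x ^ a) * ∑ b ∈ range M, x ^ b ≤
      2 / (1 - x) ^ 3 * (1 / (1 - x)) :=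
    mul_le_mul h4 h3 (Finset.sum_nonneg fun b _ => pow_nonneg hx0 b) (by positivity)
  have h6 : 2 / (1 - x) ^ 3 * (1 / (1 - x)) = 2 / (1 - x) ^ 4 := by
    field_simp
  have h7 : 2 / (1 - x) ^ 4 ≤ 2 / (σ / 2) ^ 4 := by
    refine div_le_div_of_nonneg_left (by norm_num) (by positivity) ?_
    exact pow_le_pow_left₀ (by positivity) hxs 4
  have h8 : 2 / (σ / 2) ^ 4 = 32 * σ ^ (-(4 : ℝ)) := by
    rw [Real.rpow_neg hσ.le]
    have : σ ^ (4 : ℝ) = σ ^ 4 := by exact_mod_cast Real.rpow_natCast σ 4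
    rw [this]
    field_simp
    norm_num
  refine h1.trans ?_
  have hYp : 0 ≤ Y ^ (-(1 / 8) : ℝ) := by positivity
  calc 400 * Y ^ (-(1 / 8) : ℝ) * (2 * ((∑ a ∈ range M, (1 + (a : ℝ)) ^ 2 * x ^ a) *
        ∑ b ∈ range M, x ^ b)) ≤ 400 * Y ^ (-(1 / 8) : ℝ) * (2 * (32 * σ ^ (-(4 : ℝ)))) := by
        refine mul_le_mul_of_nonneg_left ?_ (by positivity)
        have : (∑ a ∈ range M, (1 + (a : ℝ)) ^ 2 * x ^ a) * ∑ b ∈ range M, x ^ b ≤
            32 * σ ^ (-(4 : ℝ)) := by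
          rw [← h8]
          exact h5.trans (h6.le.trans h7)
        linarith
    _ = 25600 * Y ^ (-(1 / 8) : ℝ) * σ ^ (-(4 : ℝ)) := by ring

end Pool.Agent.H77.SV
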