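import Pool.Agent.H77.SV.Geo

/-!
# Module SqSum (about 180 lines): square divisors and large prime divisors.

PROOF of `sq_sum`. Exchange the sums: for a prime `p > w` the number of `x` in the box with
`p^2 | P(x)` is `≤ sum_i #{x : p^2 | l_i(x)}` (`sq_dvd_iff`; `x` coprime), `l_i(x) ≠ 0`, `|l_i(x)| ≤ 2 w T`. So only
`p^2 ≤ 2wT` matters, `p ≤ 2 w T`. If `p ∤ r_i` then for each `n` the `m` with `p^2 | l_i(m,n)` form one class mod
`p^2`: at most `(2T+1)/p^2 + 1` values; total `≤ (2T+1)((2T+1)/p^2 + 1) ≤ 9T^2/p^2 + 3T`. Same if `p ∤ s_i`.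
Sum over `p ≤ 2wT`: `≤ k (9 T^2 sum 1/p^2 + 3 T 2 w T) ≤ C T^2`.
PROOF of `large_primes`. The product of the primes `p > z` dividing `P(x) ≠ 0` divides `P(x)`, and is
`≥ z^(number)`; `|P(x)| ≤ (2 w T)^k`. So number `≤ k log (2wT)/log z ≤ C log T / log z`, for `T ≥ 2`.
PROOF of `bad_card`: `Bad` is the union of `Pr 0 w` (at most `w` elements), the primes `> z` and the
primes `> w` with `p^2 | P`.
-/

set_option autoImplicit false

namespace Pool.Agent.H77.SV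

open Finset

variable {k : ℕ} {F : Fam k} {w : ℕ}

/-- number of primes `p > w` with `p^2 | P(m, n)` -/
def sqn (F : Fam k) (w : ℕ) (x : ℤ × ℤ) : ℕ :=
  ((F.P x.1 x.2).natAbs.primeFactors.filter fun p => w < p ∧ (p : ℤ) ^ 2 ∣ F.P x.1 x.2).card

private theorem class_card (T : ℕ) (q : ℤ) (hq : 0 < q) (v : ℤ) :
    ((((Icc (-(T : ℤ)) T).filter fun m => m ≡ v [ZMOD q]).card : ℕ) : ℝ) ≤
      (2 * T + 1) / (q : ℝ) + 1 := by
  have e : Icc (-(T : ℤ)) T = Ioc (-(T : ℤ) - 1) T := by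
    ext x
    simp only [mem_Icc, mem_Ioc]
    omega
  rw [e]
  have h := Int.Ioc_filter_modEq_card (-(T : ℤ) - 1) T hq v
  have hqr : (0 : ℚ) < (q : ℚ) := by exact_mod_cast hq
  have h1 : (((((Ioc (-(T : ℤ) - 1) T).filter fun m => m ≡ v [ZMOD q]).card : ℕ) : ℤ) : ℚ) ≤
      (2 * T + 1) / (q : ℚ) + 1 := by
    rw [h]
    rcases le_total (⌊(((T : ℤ) : ℚ) - v) / (q : ℚ)⌋ - ⌊(((-(T : ℤ) - 1 : ℤ) : ℚ) - v) / (q : ℚ)⌋) 0
      with h0 | h0
    · rw [max_eq_right h0]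
      have : (0 : ℚ) ≤ (2 * T + 1) / (q : ℚ) := by positivity
      push_cast
      linarith
    · rw [max_eq_left h0]
      push_cast
      have h2 := Int.floor_le ((((T : ℤ) : ℚ) - v) / (q : ℚ))
      have h3 := Int.lt_floor_add_one ((((-(T : ℤ) - 1 : ℤ) : ℚ) - v) / (q : ℚ))
      push_cast at h2 h3
      have h4 : ((T : ℚ) - v) / (q : ℚ) - ((-(T : ℚ) - 1) - v) / (q : ℚ) = (2 * T + 1) / (q : ℚ) := by
        ring
      linarith
  have h5 : ((((Ioc (-(T : ℤ) - 1) T).filter fun m => m ≡ v [ZMOD q]).card : ℕ) : ℚ) ≤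
      (2 * T + 1) / (q : ℚ) + 1 := by
    simpa using h1
  have h6 : (((((Ioc (-(T : ℤ) - 1) T).filter fun m => m ≡ v [ZMOD q]).card : ℕ) : ℚ) : ℝ) ≤
      (((2 * T + 1) / (q : ℚ) + 1 : ℚ) : ℝ) := by exact_mod_cast h5
  push_cast at h6
  exact h6

private theorem line_card (T : ℕ) (p : ℕ) (hp : p.Prime) (r s n : ℤ) (hr : ¬ (p : ℤ) ∣ r) :
    ((((Icc (-(T : ℤ)) T).filter fun m => (p : ℤ) ^ 2 ∣ r * m + s * n).card : ℕ) : ℝ) ≤
      (2 * T + 1) / (p : ℝ) ^ 2 + 1 := by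
  have hp0 : (0 : ℤ) < (p : ℤ) ^ 2 := by have := hp.pos; positivity
  have hpos : (0 : ℝ) ≤ (2 * T + 1) / (p : ℝ) ^ 2 + 1 := by positivity
  rcases ((Icc (-(T : ℤ)) T).filter fun m => (p : ℤ) ^ 2 ∣ r * m + s * n).eq_empty_or_nonempty
    with h | ⟨m0, hm0⟩
  · rw [h, card_empty]
    simpa using hpos
  · rw [mem_filter] at hm0
    have hsub : ((Icc (-(T : ℤ)) T).filter fun m => (p : ℤ) ^ 2 ∣ r * m + s * n) ⊆
        (Icc (-(T : ℤ)) T).filter fun m => m ≡ m0 [ZMOD (p : ℤ) ^ 2] := by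
      intro m hm
      rw [mem_filter] at hm ⊢
      refine ⟨hm.1, ?_⟩
      have h1 : (p : ℤ) ^ 2 ∣ r * (m0 - m) := by
        have := dvd_sub hm0.2 hm.2
        have e : r * m0 + s * n - (r * m + s * n) = r * (m0 - m) := by ring
        rwa [e] at this
      have hco : IsCoprime ((p : ℤ) ^ 2) r := by
        refine IsCoprime.pow_left ?_
        exact (Nat.prime_iff_prime_int.mp hp).coprime_iff_not_dvd.mpr hr
      exact (Int.modEq_iff_dvd).mpr (hco.dvd_of_dvd_mul_left h1)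
    have h2 := class_card T ((p : ℤ) ^ 2) hp0 m0
    push_cast at h2
    exact (Nat.cast_le.mpr (card_le_card hsub)).trans h2

private theorem l_abs (hw : F.Big w) {T : ℕ} {x : ℤ × ℤ} (hx : x ∈ F.box T) (i : Fin k) :
    |F.l i x.1 x.2| ≤ 2 * w * T := by
  rw [Fam.box, mem_filter, mem_product, mem_Icc, mem_Icc] at hx
  have h1 : |x.1| ≤ (T : ℤ) := abs_le.mpr hx.1.1
  have h2 : |x.2| ≤ (T : ℤ) := abs_le.mpr hx.1.2
  have h3 : |F.r i * x.1| ≤ w * T := by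
    rw [abs_mul]
    exact mul_le_mul (hw.hr i) h1 (abs_nonneg _) (by positivity)
  have h4 : |F.s i * x.2| ≤ w * T := by
    rw [abs_mul]
    exact mul_le_mul (hw.hs i) h2 (abs_nonneg _) (by positivity)
  have h5 := abs_add_le (F.r i * x.1) (F.s i * x.2)
  rw [Fam.l]
  linarith

private theorem l_ne {T : ℕ} {x : ℤ × ℤ} (hx : x ∈ F.box T) (i : Fin k) :
    F.l i x.1 x.2 ≠ 0 := by
  rw [Fam.box, mem_filter] at hx
  have h := hx.2.2
  rw [Fam.P, prod_ne_zero_iff] at h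
  exact h i (mem_univ i)

private theorem hc_of (T : ℕ) {x : ℤ × ℤ} (hx : x ∈ F.box T) {p : ℕ} (hp : p.Prime) :
    ¬ ((p : ℤ) ∣ x.1 ∧ (p : ℤ) ∣ x.2) := by
  rintro ⟨h1, h2⟩
  rw [Fam.box, mem_filter] at hx
  have h3 := hx.2.1.isUnit_of_dvd' h1 h2
  exact (Nat.prime_iff_prime_int.mp hp).not_isUnit h3

private theorem box_line (hw : F.Big w) {T : ℕ} (hT : 1 ≤ T) {p : ℕ} (hp : p.Prime) (hpw : w < p)
    (i : Fin k) :
    ((((F.box T).filter fun x => (p : ℤ) ^ 2 ∣ F.l i x.1 x.2).card : ℕ) : ℝ) ≤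
      9 * (T : ℝ) ^ 2 * ((p : ℝ) ^ 2)⁻¹ + 3 * T := by
  have hTr : (1 : ℝ) ≤ T := by exact_mod_cast hT
  have hp0 : (0 : ℝ) < (p : ℝ) ^ 2 := by have := hp.pos; positivity
  have hcardI : (((Icc (-(T : ℤ)) T).card : ℕ) : ℝ) = 2 * T + 1 := by
    rw [Int.card_Icc]
    have : ((T : ℤ) + 1 - -(T : ℤ)).toNat = 2 * T + 1 := by omega
    rw [this]
    push_cast
    ring
  have hfin : (2 * (T : ℝ) + 1) * ((2 * T + 1) / (p : ℝ) ^ 2 + 1) ≤
      9 * (T : ℝ) ^ 2 * ((p : ℝ) ^ 2)⁻¹ + 3 * T := by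
    rw [div_eq_mul_inv]
    have h1 : (2 * (T : ℝ) + 1) ≤ 3 * T := by linarith
    have h2 : (2 * (T : ℝ) + 1) * (2 * T + 1) ≤ 9 * (T : ℝ) ^ 2 := by nlinarith
    have h3 : 0 ≤ ((p : ℝ) ^ 2)⁻¹ := by positivity
    have h4 := mul_le_mul_of_nonneg_right h2 h3
    nlinarith
  refine le_trans ?_ hfin
  rcases exists_rs hw hpw i with hr | hr
  · have hsub : ((F.box T).filter fun x => (p : ℤ) ^ 2 ∣ F.l i x.1 x.2) ⊆
        (Icc (-(T : ℤ)) T).biUnion fun n =>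
          ((Icc (-(T : ℤ)) T).filter fun m => (p : ℤ) ^ 2 ∣ F.r i * m + F.s i * n).image
            fun m => (m, n) := by
      intro x hx
      rw [mem_filter, Fam.box, mem_filter, mem_product] at hx
      rw [mem_biUnion]
      refine ⟨x.2, hx.1.1.2, ?_⟩
      rw [mem_image]
      exact ⟨x.1, mem_filter.mpr ⟨hx.1.1.1, hx.2⟩, rfl⟩
    calc ((((F.box T).filter fun x => (p : ℤ) ^ 2 ∣ F.l i x.1 x.2).card : ℕ) : ℝ)
        ≤ ∑ n ∈ Icc (-(T : ℤ)) T, (((((Icc (-(T : ℤ)) T).filter fun m =>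
            (p : ℤ) ^ 2 ∣ F.r i * m + F.s i * n).image fun m => (m, n)).card : ℕ) : ℝ) := by
          have := (card_le_card hsub).trans card_biUnion_le
          exact_mod_cast this
      _ ≤ ∑ n ∈ Icc (-(T : ℤ)) T, ((2 * (T : ℝ) + 1) / (p : ℝ) ^ 2 + 1) := by
          refine sum_le_sum fun n _ => ?_
          refine le_trans ?_ (line_card T p hp (F.r i) (F.s i) n hr)
          exact_mod_cast card_image_le
      _ = (2 * (T : ℝ) + 1) * ((2 * T + 1) / (p : ℝ) ^ 2 + 1) := by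
          rw [sum_const, nsmul_eq_mul, hcardI]
  · have hsub : ((F.box T).filter fun x => (p : ℤ) ^ 2 ∣ F.l i x.1 x.2) ⊆
        (Icc (-(T : ℤ)) T).biUnion fun m =>
          ((Icc (-(T : ℤ)) T).filter fun n => (p : ℤ) ^ 2 ∣ F.s i * n + F.r i * m).image
            fun n => (m, n) := by
      intro x hx
      rw [mem_filter, Fam.box, mem_filter, mem_product] at hx
      rw [mem_biUnion]
      refine ⟨x.1, hx.1.1.1, ?_⟩
      rw [mem_image]
      refine ⟨x.2, mem_filter.mpr ⟨hx.1.1.2, ?_⟩, rfl⟩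
      have h := hx.2
      rw [Fam.l] at h
      rwa [add_comm]
    calc ((((F.box T).filter fun x => (p : ℤ) ^ 2 ∣ F.l i x.1 x.2).card : ℕ) : ℝ)
        ≤ ∑ m ∈ Icc (-(T : ℤ)) T, (((((Icc (-(T : ℤ)) T).filter fun n =>
            (p : ℤ) ^ 2 ∣ F.s i * n + F.r i * m).image fun n => (m, n)).card : ℕ) : ℝ) := by
          have := (card_le_card hsub).trans card_biUnion_le
          exact_mod_cast this
      _ ≤ ∑ m ∈ Icc (-(T : ℤ)) T, ((2 * (T : ℝ) + 1) / (p : ℝ) ^ 2 + 1) := by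
          refine sum_le_sum fun m _ => ?_
          refine le_trans ?_ (line_card T p hp (F.s i) (F.r i) m hr)
          exact_mod_cast card_image_le
      _ = (2 * (T : ℝ) + 1) * ((2 * T + 1) / (p : ℝ) ^ 2 + 1) := by
          rw [sum_const, nsmul_eq_mul, hcardI]

private theorem sqn_le (hw : F.Big w) {T : ℕ} (hT : 1 ≤ T) {x : ℤ × ℤ} (hx : x ∈ F.box T) :
    (sqn F w x : ℝ) ≤ ∑ p ∈ (Ioc w (2 * w * T)).filter Nat.Prime, ∑ i : Fin k,
      if (p : ℤ) ^ 2 ∣ F.l i x.1 x.2 then (1 : ℝ) else 0 := by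
  have hP : F.P x.1 x.2 ≠ 0 := by
    rw [Fam.box, mem_filter] at hx
    exact hx.2.2
  have hex : ∀ p ∈ ((F.P x.1 x.2).natAbs.primeFactors.filter fun p =>
      w < p ∧ (p : ℤ) ^ 2 ∣ F.P x.1 x.2), p ∈ (Ioc w (2 * w * T)).filter Nat.Prime ∧
        ∃ i, (p : ℤ) ^ 2 ∣ F.l i x.1 x.2 := by
    intro p hp
    rw [mem_filter, Nat.mem_primeFactors] at hp
    obtain ⟨⟨hpp, _, _⟩, hpw, hp2⟩ := hp
    obtain ⟨i, hi⟩ := (sq_dvd_iff hw hpp hpw (hc_of T hx hpp)).mp hp2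
    refine ⟨?_, i, hi⟩
    rw [mem_filter, mem_Ioc]
    refine ⟨⟨hpw, ?_⟩, hpp⟩
    have h1 : (p : ℤ) ^ 2 ≤ |F.l i x.1 x.2| :=
      Int.le_of_dvd (abs_pos.mpr (l_ne hx i)) ((dvd_abs _ _).mpr hi)
    have h2 := l_abs hw hx i
    have h3 : (p : ℤ) ^ 2 ≤ 2 * w * T := h1.trans h2
    have h4 : p ^ 2 ≤ 2 * w * T := by exact_mod_cast h3
    nlinarith [hpp.two_le]
  have hsub : ((F.P x.1 x.2).natAbs.primeFactors.filter fun p =>
      w < p ∧ (p : ℤ) ^ 2 ∣ F.P x.1 x.2) ⊆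
        ((Ioc w (2 * w * T)).filter Nat.Prime).filter fun p : ℕ =>
          ∃ i, (p : ℤ) ^ 2 ∣ F.l i x.1 x.2 := fun p hp => mem_filter.mpr (hex p hp)
  have h1 : (sqn F w x : ℝ) ≤ ((((Ioc w (2 * w * T)).filter Nat.Prime).filter fun p : ℕ =>
      ∃ i, (p : ℤ) ^ 2 ∣ F.l i x.1 x.2).card : ℝ) := by
    rw [sqn]
    exact_mod_cast card_le_card hsub
  refine h1.trans ?_
  rw [card_filter]
  push_cast
  refine sum_le_sum fun p _ => ?_
  by_cases h : ∃ i, (p : ℤ) ^ 2 ∣ F.l i x.1 x.2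
  · rw [if_pos h]
    obtain ⟨i, hi⟩ := h
    have h2 : (if (p : ℤ) ^ 2 ∣ F.l i x.1 x.2 then (1 : ℝ) else 0) = 1 := if_pos hi
    refine h2.symm.le.trans ?_
    refine single_le_sum (f := fun i => if (p : ℤ) ^ 2 ∣ F.l i x.1 x.2 then (1 : ℝ) else 0)
      (fun j _ => ?_) (mem_univ i)
    by_cases hj : (p : ℤ) ^ 2 ∣ F.l j x.1 x.2
    · simp [hj]
    · simp [hj]
  · rw [if_neg h]
    refine sum_nonneg fun j _ => ?_
    by_cases hj : (p : ℤ) ^ 2 ∣ F.l j x.1 x.2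
    · simp [hj]
    · simp [hj]

theorem sq_sum (hw : F.Big w) : ∃ C : ℝ, 0 < C ∧ ∀ T : ℕ, 1 ≤ T →
    ∑ x ∈ F.box T, (sqn F w x : ℝ) ≤ C * (T : ℝ) ^ 2 := by
  refine ⟨k * (9 + 6 * w) + 1, by positivity, fun T hT => ?_⟩
  have hTr : (1 : ℝ) ≤ T := by exact_mod_cast hT
  have hw12 : (12 : ℝ) ≤ w := by exact_mod_cast hw.h12
  have h1 : ∑ x ∈ F.box T, (sqn F w x : ℝ) ≤ ∑ x ∈ F.box T,
      ∑ p ∈ (Ioc w (2 * w * T)).filter Nat.Prime, ∑ i : Fin k,
        if (p : ℤ) ^ 2 ∣ F.l i x.1 x.2 then (1 : ℝ) else 0 :=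
    sum_le_sum fun x hx => sqn_le hw hT hx
  have h2 : ∑ x ∈ F.box T, ∑ p ∈ (Ioc w (2 * w * T)).filter Nat.Prime, ∑ i : Fin k,
        (if (p : ℤ) ^ 2 ∣ F.l i x.1 x.2 then (1 : ℝ) else 0) =
      ∑ p ∈ (Ioc w (2 * w * T)).filter Nat.Prime, ∑ i : Fin k,
        ((((F.box T).filter fun x => (p : ℤ) ^ 2 ∣ F.l i x.1 x.2).card : ℕ) : ℝ) := by
    rw [sum_comm]
    refine sum_congr rfl fun p _ => ?_
    rw [sum_comm]
    refine sum_congr rfl fun i _ => ?_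
    rw [card_filter]
    push_cast
    rfl
  have h3 : ∑ p ∈ (Ioc w (2 * w * T)).filter Nat.Prime, ∑ i : Fin k,
        ((((F.box T).filter fun x => (p : ℤ) ^ 2 ∣ F.l i x.1 x.2).card : ℕ) : ℝ) ≤
      ∑ p ∈ (Ioc w (2 * w * T)).filter Nat.Prime,
        (k : ℝ) * (9 * (T : ℝ) ^ 2 * ((p : ℝ) ^ 2)⁻¹ + 3 * T) := by
    refine sum_le_sum fun p hp => ?_
    rw [mem_filter, mem_Ioc] at hp
    calc ∑ i : Fin k, ((((F.box T).filter fun x => (p : ℤ) ^ 2 ∣ F.l i x.1 x.2).card : ℕ) : ℝ)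
        ≤ ∑ _i : Fin k, (9 * (T : ℝ) ^ 2 * ((p : ℝ) ^ 2)⁻¹ + 3 * T) :=
          sum_le_sum fun i _ => box_line hw hT hp.2 hp.1.1 i
      _ = (k : ℝ) * (9 * (T : ℝ) ^ 2 * ((p : ℝ) ^ 2)⁻¹ + 3 * T) := by
          rw [sum_const, nsmul_eq_mul, card_univ, Fintype.card_fin]
  have h4 : ∑ p ∈ (Ioc w (2 * w * T)).filter Nat.Prime,
        (k : ℝ) * (9 * (T : ℝ) ^ 2 * ((p : ℝ) ^ 2)⁻¹ + 3 * T) ≤
      ∑ p ∈ Ioc w (2 * w * T), (k : ℝ) * (9 * (T : ℝ) ^ 2 * ((p : ℝ) ^ 2)⁻¹ + 3 * T) :=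
    sum_le_sum_of_subset_of_nonneg (filter_subset _ _) fun p _ _ => by positivity
  have h5 : ∑ p ∈ Ioc w (2 * w * T), (k : ℝ) * (9 * (T : ℝ) ^ 2 * ((p : ℝ) ^ 2)⁻¹ + 3 * T) =
      (k : ℝ) * (9 * (T : ℝ) ^ 2 * (∑ p ∈ Ioc w (2 * w * T), ((p : ℝ) ^ 2)⁻¹) +
        3 * T * ((Ioc w (2 * w * T)).card : ℝ)) := by
    rw [← mul_sum, sum_add_distrib, ← mul_sum, sum_const, nsmul_eq_mul]
    ring
  have hle : w ≤ 2 * w * T := by nlinarith
  have h6 : ∑ p ∈ Ioc w (2 * w * T), ((p : ℝ) ^ 2)⁻¹ ≤ 1 := by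
    have hb := sum_Ioc_inv_sq_le_sub (α := ℝ) (k := w) (n := 2 * w * T)
      (by have := hw.h12; omega) hle
    have hb1 : ((w : ℝ))⁻¹ ≤ 1 := by
      rw [inv_le_one₀ (by linarith)]
      linarith
    have hb2 : 0 ≤ (((2 * w * T : ℕ)) : ℝ)⁻¹ := by positivity
    linarith
  have h7 : ((Ioc w (2 * w * T)).card : ℝ) ≤ 2 * w * T := by
    rw [Nat.card_Ioc]
    have : 2 * w * T - w ≤ 2 * w * T := Nat.sub_le _ _
    exact_mod_cast this
  have h8 : (k : ℝ) * (9 * (T : ℝ) ^ 2 * (∑ p ∈ Ioc w (2 * w * T), ((p : ℝ) ^ 2)⁻¹) +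
        3 * T * ((Ioc w (2 * w * T)).card : ℝ)) ≤ (k : ℝ) * (9 * (T : ℝ) ^ 2 * 1 + 3 * T * (2 * w * T)) := by
    refine mul_le_mul_of_nonneg_left (add_le_add ?_ ?_) (by positivity)
    · exact mul_le_mul_of_nonneg_left h6 (by positivity)
    · exact mul_le_mul_of_nonneg_left h7 (by positivity)
  calc ∑ x ∈ F.box T, (sqn F w x : ℝ)
      ≤ (k : ℝ) * (9 * (T : ℝ) ^ 2 * 1 + 3 * T * (2 * w * T)) := by
        refine h1.trans ?_
        rw [h2]
        refine h3.trans (h4.trans ?_)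
        rw [h5]
        exact h8
    _ = (k * (9 + 6 * w)) * (T : ℝ) ^ 2 := by ring
    _ ≤ (k * (9 + 6 * w) + 1) * (T : ℝ) ^ 2 := by
        refine mul_le_mul_of_nonneg_right (by linarith) (by positivity)

theorem large_primes (hw : F.Big w) : ∃ C : ℝ, 0 < C ∧ ∀ T z : ℕ, 2 ≤ T → 2 ≤ z →
    ∀ x ∈ F.box T,
    (((F.P x.1 x.2).natAbs.primeFactors.filter fun p => z < p).card : ℝ) ≤
      C * (Real.log T / Real.log z) := by
  have hw12 : (12 : ℝ) ≤ w := by exact_mod_cast hw.h12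
  have hlog2 : 0 < Real.log 2 := Real.log_pos (by norm_num)
  have hlw : 0 < Real.log (2 * w) := Real.log_pos (by linarith)
  refine ⟨k * (Real.log (2 * w) / Real.log 2 + 1) + 1, by positivity, fun T z hT hz x hx => ?_⟩
  have hTr : (2 : ℝ) ≤ T := by exact_mod_cast hT
  have hzr : (2 : ℝ) ≤ z := by exact_mod_cast hz
  have hlz : 0 < Real.log z := Real.log_pos (by linarith)
  have hlT : Real.log 2 ≤ Real.log T := Real.log_le_log (by norm_num) hTr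
  have hP : F.P x.1 x.2 ≠ 0 := by
    rw [Fam.box, mem_filter] at hx
    exact hx.2.2
  obtain ⟨c, hc⟩ : ∃ c, c = ((F.P x.1 x.2).natAbs.primeFactors.filter fun p => z < p).card :=
    ⟨_, rfl⟩
  rw [← hc]
  have h1 : z ^ c ≤ (F.P x.1 x.2).natAbs := by
    calc z ^ c = ∏ _p ∈ (F.P x.1 x.2).natAbs.primeFactors.filter fun p => z < p, z := by
          rw [prod_const, hc]
      _ ≤ ∏ p ∈ (F.P x.1 x.2).natAbs.primeFactors.filter fun p => z < p, p :=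
          prod_le_prod' fun p hp => (mem_filter.mp hp).2.le
      _ ≤ (F.P x.1 x.2).natAbs := by
          refine Nat.le_of_dvd (Int.natAbs_pos.mpr hP) ?_
          exact (prod_dvd_prod_of_subset _ _ _ (filter_subset _ _)).trans
            (Nat.prod_primeFactors_dvd _)
  have h2 : ((F.P x.1 x.2).natAbs : ℝ) ≤ (2 * w * T) ^ k := by
    have e : (((F.P x.1 x.2).natAbs : ℕ) : ℝ) = |((F.P x.1 x.2 : ℤ) : ℝ)| := by
      rw [Nat.cast_natAbs]
      push_cast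
      rfl
    rw [e, Fam.P]
    push_cast
    rw [abs_prod]
    calc ∏ i : Fin k, |((F.l i x.1 x.2 : ℤ) : ℝ)| ≤ ∏ _i : Fin k, (2 * (w : ℝ) * T) := by
          refine prod_le_prod (fun i _ => abs_nonneg _) fun i _ => ?_
          have := l_abs hw hx i
          exact_mod_cast this
      _ = (2 * w * T) ^ k := by
          rw [prod_const, card_univ, Fintype.card_fin]
  have h3 : (z : ℝ) ^ c ≤ (2 * w * T) ^ k := by
    refine le_trans ?_ h2
    exact_mod_cast h1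
  have h4 : (c : ℝ) * Real.log z ≤ k * (Real.log (2 * w) + Real.log T) := by
    have := Real.log_le_log (by positivity) h3
    rw [Real.log_pow, Real.log_pow, Real.log_mul (by positivity) (by positivity)] at this
    exact this
  have h5 : Real.log (2 * w) ≤ Real.log (2 * w) / Real.log 2 * Real.log T := by
    calc Real.log (2 * w) = Real.log (2 * w) / Real.log 2 * Real.log 2 := by
          rw [div_mul_cancel₀ _ hlog2.ne']
      _ ≤ Real.log (2 * w) / Real.log 2 * Real.log T :=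
          mul_le_mul_of_nonneg_left hlT (by positivity)
  have h6 : (k : ℝ) * (Real.log (2 * w) + Real.log T) ≤
      (k * (Real.log (2 * w) / Real.log 2 + 1) + 1) * Real.log T := by
    have h7 : (k : ℝ) * (Real.log (2 * w) + Real.log T) ≤
        k * (Real.log (2 * w) / Real.log 2 * Real.log T + Real.log T) :=
      mul_le_mul_of_nonneg_left (by linarith) (by positivity)
    nlinarith
  rw [← mul_div_assoc, le_div_iff₀ hlz]
  linarith

theorem bad_card (z : ℕ) (x : ℤ × ℤ) : (F.Bad w z x.1 x.2).card ≤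
    w + ((F.P x.1 x.2).natAbs.primeFactors.filter fun p => z < p).card + sqn F w x := by
  have e : F.Bad w z x.1 x.2 = Pr 0 w ∪
      (((F.P x.1 x.2).natAbs.primeFactors.filter fun p => z < p) ∪
      ((F.P x.1 x.2).natAbs.primeFactors.filter fun p => w < p ∧ (p : ℤ) ^ 2 ∣ F.P x.1 x.2)) := by
    rw [Fam.Bad, filter_or]
  rw [e, sqn]
  have h1 : (Pr 0 w).card ≤ w := by
    rw [Pr]
    refine (card_filter_le _ _).trans ?_
    simp
  have h2 := card_union_le (Pr 0 w)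
    (((F.P x.1 x.2).natAbs.primeFactors.filter fun p => z < p) ∪
      ((F.P x.1 x.2).natAbs.primeFactors.filter fun p => w < p ∧ (p : ℤ) ^ 2 ∣ F.P x.1 x.2))
  have h3 := card_union_le ((F.P x.1 x.2).natAbs.primeFactors.filter fun p => z < p)
      ((F.P x.1 x.2).natAbs.primeFactors.filter fun p => w < p ∧ (p : ℤ) ^ 2 ∣ F.P x.1 x.2)
  omega

/-- the box has at most `9 T^2` elements -/
theorem box_card (T : ℕ) (hT : 1 ≤ T) : ((F.box T).card : ℝ) ≤ 9 * (T : ℝ) ^ 2 := by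
  have h1 : (F.box T).card ≤ (2 * T + 1) * (2 * T + 1) := by
    rw [Fam.box]
    refine (card_filter_le _ _).trans ?_
    rw [card_product, Int.card_Icc]
    have : ((T : ℤ) + 1 - -(T : ℤ)).toNat = 2 * T + 1 := by omega
    rw [this]
  have h2 : ((F.box T).card : ℝ) ≤ (2 * T + 1) * (2 * T + 1) := by exact_mod_cast h1
  have hTr : (1 : ℝ) ≤ T := by exact_mod_cast hT
  nlinarith

end Pool.Agent.H77.SV
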