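import Pool.Agent.H77.SV.SumGood
import Pool.Agent.H77.SV.Tail
import Pool.Agent.H77.SV.SqSum
import Pool.Agent.H77.SV.Ineq

/-!
# Module Final (about 250 lines): summation over all levels.

PROOF of `point_bound` (one pair, one level): `rank_ineq` and `log2`: with `S = #SelZ`,
`2^rank ≤ (2 2^B)^2 S`, so `rank ≤ 2 + 2 B + log2 S`, and `log2 S ≤ λ + 2^(-λ) S` for every real `λ ≥ 0`
(`log2 t ≤ t` for `t = S/2^λ > 0`).
PROOF of `main`. Let `z_j = ⌊exp (log T / (24 2^j))⌋`, so `z_j^24 ≤ T` and, if `z_j ≥ 2`,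
`log z_j ≥ log T/(48 2^j)`. Let `J` be the largest `j` with `z_j > w` (if there is none, `T ≤ (w+1)^24` is
bounded and the sum is at most `#box * max`; for finitely many `T` take the maximum, or use the trivial level below).
Trivial level: `z = w`: `Pr w w = ∅`, `#SelZ = 1`, `rank ≤ 2 + 2 #Bad`, `#Bad ≤ w + C log T/log w + sqn`.
For `x ∈ box T` let `j(x)` be the smallest `j ≤ J` such that `x` is `z_j`-good, if there is one.
Then `sum rank ≤ sum_{j ≤ J} sum_{j(x) = j} (2 + 2 #Bad_j + λ_j + 2^(-λ_j) #Sel_{z_j}) + sum_{no j} (2 + 2 #Bad_w)`,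
`λ_j = (k+1) j`.
* `#Bad_j ≤ w + C log T/log z_j + sqn ≤ w + 48 C 2^j + sqn` (`bad_card`, `large_primes`).
* `#{j(x) = j} ≤ #{not z_(j-1)-good} ≤ C T^2 exp (-c 2^(j-1))` for `j ≥ 1`, `c = 24/(8k) = 3/k`
  (`tail_bound`, `log T/log z_(j-1) ≥ 24 2^(j-1)`), `≤ 9 T^2` for `j = 0`.
* `sum_{j(x)=j} 2^(-λ_j) #Sel ≤ 2^(-(k+1)j) C T^2 (48 2^j)^k = C' 2^(-j) T^2` (`sum_good`).
* `#{no j} ≤ #{not z_J-good} ≤ C T^2 exp (-log T/(8k log z_J))` and `log z_J ≤ log T/(24 2^J)`,
  `z_(J+1) ≤ w` gives `log T/(48 2^J) ≤ log (w+1)`, so `log z_J ≤ 2 log (w+1)` and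
  `exp (..) ≤ T^(-c')`, `c' = 1/(16 k log (w+1))`; `T^(-c') log T ≤ C`.
* the total contribution of `2 sqn` is `≤ 2 sum sqn ≤ C T^2` (`sq_sum`; each `x` is counted once).
* `sum_j (2 + 2w + 96 C 2^j + (k+1) j) exp (-c 2^(j-1)) < ∞`, `sum_j 2^(-j) ≤ 2`.
Total `≤ C T^2`.
-/

set_option autoImplicit false

namespace Pool.Agent.H77.SV

open Finset

variable {k : ℕ} {F : Fam k} {w : ℕ}

private lemma log_le_mul_log_two {t : ℝ} (ht : 0 < t) : Real.log t ≤ t * Real.log 2 := by
  have h2 : (0.6931471803 : ℝ) < Real.log 2 := Real.log_two_gt_d9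
  have h3 : 0 < Real.log 2 := by linarith
  have h1 : Real.log (t * Real.log 2) ≤ t * Real.log 2 - 1 :=
    Real.log_le_sub_one_of_pos (by positivity)
  rw [Real.log_mul ht.ne' h3.ne'] at h1
  have h4 : -1 ≤ Real.log (Real.log 2) := by
    rw [Real.le_log_iff_exp_le h3]
    have := Real.exp_neg_one_lt_d9
    linarith
  linarith

theorem point_bound (hw : F.Big w) {m n : ℤ} (hc : IsCoprime m n) (hP : F.P m n ≠ 0) (z : ℕ)
    (hz : w ≤ z) (lam : ℝ) (_hlam : 0 ≤ lam) :
    (Module.finrank ℤ (F.E m n).Point : ℝ) ≤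
      2 + 2 * (F.Bad w z m n).card + lam + (2 : ℝ) ^ (-lam) * (F.SelZ w z m n).card := by
  have h := (rank_ineq hw hc hP z hz).2
  set r := Module.finrank ℤ (F.E m n).Point
  set B := (F.Bad w z m n).card
  set S := (F.SelZ w z m n).card
  have h0 : (2:ℝ) ^ r ≤ (2 * 2 ^ B) ^ 2 * S := by exact_mod_cast h
  have hS : (0:ℝ) < S := by
    by_contra hcon
    have : (S:ℝ) = 0 := le_antisymm (not_lt.1 hcon) (Nat.cast_nonneg _)
    rw [this, mul_zero] at h0
    have : (0:ℝ) < 2 ^ r := by positivity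
    linarith
  have hl2 : 0 < Real.log 2 := Real.log_pos (by norm_num)
  have h1 := Real.log_le_log (by positivity) h0
  rw [Real.log_mul (by positivity) hS.ne', Real.log_pow, Real.log_pow,
    Real.log_mul (by norm_num) (by positivity), Real.log_pow] at h1
  have h2 : Real.log S ≤ (lam + (2:ℝ) ^ (-lam) * S) * Real.log 2 := by
    have h3 := log_le_mul_log_two (t := (2:ℝ) ^ (-lam) * S) (by positivity)
    rw [Real.log_mul (by positivity) hS.ne', Real.log_rpow (by norm_num)] at h3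
    linarith
  have h4 : (r:ℝ) * Real.log 2 ≤
      (2 + 2 * B + lam + (2 : ℝ) ^ (-lam) * S) * Real.log 2 := by
    push_cast at h1
    linarith
  exact le_of_mul_le_mul_right h4 hl2

/-- the levels -/
private noncomputable def zz (T j : ℕ) : ℕ := ⌊Real.exp (Real.log T / (24 * 2 ^ j))⌋₊

private lemma zz_le (T j : ℕ) : (zz T j : ℝ) ≤ Real.exp (Real.log T / (24 * 2 ^ j)) :=
  Nat.floor_le (Real.exp_pos _).le

private lemma zz_pow {T : ℕ} (j : ℕ) (hT : 1 ≤ T) : zz T j ^ 24 ≤ T := by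
  have hT0 : (0:ℝ) < T := by exact_mod_cast hT
  have hl : 0 ≤ Real.log T := Real.log_nonneg (by exact_mod_cast hT)
  have h1 : ((zz T j : ℝ)) ^ 24 ≤ T := by
    refine (pow_le_pow_left₀ (Nat.cast_nonneg _) (zz_le T j) 24).trans ?_
    rw [← Real.exp_nat_mul]
    conv_rhs => rw [← Real.exp_log hT0]
    refine Real.exp_le_exp.2 ?_
    have h2 : (1:ℝ) ≤ 2 ^ j := one_le_pow₀ (by norm_num)
    have h3 : ((24:ℕ):ℝ) * (Real.log T / (24 * 2 ^ j)) = Real.log T / 2 ^ j := by
      push_cast; field_simp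
    rw [h3]
    exact div_le_self hl h2
  exact_mod_cast h1

private lemma zz_log {T j : ℕ} (h12 : 12 ≤ w) (h : w < zz T j) :
    Real.log (zz T j) ≤ Real.log T / (24 * 2 ^ j) ∧
      Real.log T / (48 * 2 ^ j) ≤ Real.log (zz T j) := by
  have hz : (12:ℝ) < zz T j := by exact_mod_cast lt_of_le_of_lt h12 h
  have hz0 : (0:ℝ) < zz T j := by linarith
  constructor
  · rw [Real.log_le_iff_le_exp hz0]
    exact zz_le T j
  · have h1 : Real.exp (Real.log T / (24 * 2 ^ j)) < zz T j + 1 := Nat.lt_floor_add_one _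
    have h2 : (zz T j : ℝ) + 1 ≤ (zz T j : ℝ) ^ 2 := by nlinarith
    have h3 : Real.log T / (24 * 2 ^ j) ≤ 2 * Real.log (zz T j) := by
      have h4 := Real.log_le_log (Real.exp_pos _) (h1.le.trans h2)
      rw [Real.log_exp, Real.log_pow] at h4
      exact_mod_cast h4
    have h5 : Real.log T / (48 * 2 ^ j) = (Real.log T / (24 * 2 ^ j)) / 2 := by
      rw [div_div]; congr 1; ring
    rw [h5]; linarith

private lemma exp_neg_le {t : ℝ} (ht : 0 < t) : Real.exp (-t) ≤ 2 / t ^ 2 := by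
  have h := Real.quadratic_le_exp_of_nonneg ht.le
  rw [Real.exp_neg, inv_eq_one_div, div_le_div_iff₀ (Real.exp_pos _) (by positivity)]
  nlinarith

private lemma zz_small (T : ℕ) {w : ℕ} (h12 : 12 ≤ w) : ∃ j, zz T j ≤ w := by
  obtain ⟨j, hj⟩ := exists_nat_gt (Real.log T)
  refine ⟨j, ?_⟩
  have h1 : Real.log T / (24 * 2 ^ j) < 1 := by
    have h2 : (j:ℝ) < 2 ^ j := by exact_mod_cast Nat.lt_two_pow_self
    rw [div_lt_one (by positivity)]
    linarith
  have h3 : (zz T j : ℝ) < 3 := by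
    refine (zz_le T j).trans_lt ((Real.exp_lt_exp.2 h1).trans ?_)
    have := Real.exp_one_lt_d9
    linarith
  have h4 : zz T j < 3 := by exact_mod_cast h3
  omega

private lemma selz_ww (x : ℤ × ℤ) : ((F.SelZ w w x.1 x.2).card : ℝ) ≤ 1 := by
  have hE : IsEmpty (Pr w w) := by
    constructor
    rintro ⟨p, hp⟩
    unfold Pr at hp
    rw [mem_filter, mem_Ioc] at hp
    omega
  have h1 : (F.SelZ w w x.1 x.2).card ≤ Fintype.card (Pr w w → V2) := Finset.card_le_univ _
  have h2 : Fintype.card (Pr w w → V2) = 1 := Fintype.card_unique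
  exact_mod_cast h1.trans h2.le

open Classical in
theorem main_bound (F : Fam k) : ∃ C : ℝ, ∀ T : ℕ, 1 ≤ T →
    ∑ x ∈ F.box T, (Module.finrank ℤ (F.E x.1 x.2).Point : ℝ) ≤ C * (T : ℝ) ^ 2 := by
  obtain ⟨w, hw⟩ := F.exists_big
  obtain ⟨C1, hC1, hgood⟩ := sum_good hw
  obtain ⟨C2, hC2, htail⟩ := tail_bound hw
  obtain ⟨C3, hC3, hsq⟩ := sq_sum hw
  obtain ⟨C4, hC4, hlarge⟩ := large_primes hw
  have h12 := hw.h12
  have hk0 : (0:ℝ) < k := by have := F.hk; exact_mod_cast (by omega : 0 < k)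
  have hw12 : (12:ℝ) ≤ w := by exact_mod_cast h12
  have hlw : 0 < Real.log w := Real.log_pos (by linarith)
  have hlw1 : 0 < Real.log (w + 1) := Real.log_pos (by linarith)
  set C5 : ℝ := 2 + 2 * w + 96 * C4 + (k + 1) with hC5
  set D : ℝ := 9 + C2 * (8 * k ^ 2 / 9) with hD
  have hD0 : 0 < D := by positivity
  have hC50 : 0 < C5 := by positivity
  -- constant for the last level
  set c1 : ℝ := 1 / (16 * k * Real.log (w + 1)) with hc1
  have hc10 : 0 < c1 := by positivity
  set C6 : ℝ := 9 * (3 + 2 * w + 2 * C4 * (24 * Real.log (w + 1) / Real.log w)) +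
    C2 * (3 + 2 * w + 2 * C4 * (1 / c1 / Real.log w)) with hC6
  have hC60 : 0 ≤ C6 := by positivity
  set S1 : ℝ := ∑ x ∈ F.box 1, (Module.finrank ℤ (F.E x.1 x.2).Point : ℝ) with hS1
  have hS10 : 0 ≤ S1 := sum_nonneg fun _ _ => Nat.cast_nonneg _
  refine ⟨2 * C3 + 2 * C5 * D + 2 * C1 * 48 ^ k + C6 + S1, fun T hT => ?_⟩
  have hT0 : (0:ℝ) < T := by exact_mod_cast hT
  rcases Nat.eq_or_lt_of_le hT with hT1 | hT2
  · subst hT1
    rw [← hS1]
    have : 0 ≤ 2 * C3 + 2 * C5 * D + 2 * C1 * 48 ^ k + C6 := by positivity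
    push_cast
    nlinarith
  have hT2' : 2 ≤ T := hT2
  have hlT : 0 < Real.log T := Real.log_pos (by exact_mod_cast hT2)
  obtain ⟨J, hJ, hJ'⟩ : ∃ J, zz T J ≤ w ∧ ∀ j < J, w < zz T j := by
    refine ⟨Nat.find (zz_small T h12), Nat.find_spec (zz_small T h12), fun j hj => ?_⟩
    exact not_le.1 (Nat.find_min (zz_small T h12) hj)
  set G : ℕ → ℤ × ℤ → Prop := fun j x => F.Good T (zz T j) x.1 x.2 with hG
  obtain ⟨H, hH⟩ : ∃ H : ℕ → ℤ × ℤ → Prop, ∀ j x, H j x ↔ (G j x ∧ ∀ i < j, ¬ G i x) :=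
    ⟨_, fun _ _ => Iff.rfl⟩
  obtain ⟨H', hH'⟩ : ∃ H' : ℤ × ℤ → Prop, ∀ x, H' x ↔ (∀ j < J, ¬ G j x) :=
    ⟨_, fun _ => Iff.rfl⟩
  set cc : ℕ → ℝ := fun j => 2 + 2 * w + 96 * C4 * 2 ^ j + (k + 1) * j with hcc
  set cinf : ℝ := 3 + 2 * w + 2 * C4 * (Real.log T / Real.log w) with hcinf
  have hcinf0 : 0 ≤ cinf := by positivity
  -- ratio of logs
  have hratio : ∀ j < J, Real.log T / Real.log (zz T j) ≤ 48 * 2 ^ j := by
    intro j hj
    have h := (zz_log h12 (hJ' j hj)).2
    have hz : 0 < Real.log (zz T j) := lt_of_lt_of_le (by positivity) h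
    rw [div_le_iff₀ hz]
    rw [div_le_iff₀ (by positivity)] at h
    linarith
  -- pointwise bound
  have hpt : ∀ x ∈ F.box T, (Module.finrank ℤ (F.E x.1 x.2).Point : ℝ) ≤
      2 * sqn F w x + ∑ j ∈ range J, (if H j x then
        cc j + (2:ℝ) ^ (-(((k:ℝ) + 1) * j)) * (F.SelZ w (zz T j) x.1 x.2).card else 0) +
      (if H' x then cinf else 0) := by
    intro x hx
    have hx' := hx
    unfold Fam.box at hx'
    rw [mem_filter] at hx'
    obtain ⟨_, hcop, hP⟩ := hx'
    have hnn : ∀ j ∈ range J, (0:ℝ) ≤ (if H j x then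
        cc j + (2:ℝ) ^ (-(((k:ℝ) + 1) * j)) * (F.SelZ w (zz T j) x.1 x.2).card else 0) := by
      intro j _
      split_ifs
      · positivity
      · exact le_rfl
    by_cases hall : ∀ j < J, ¬ G j x
    · rw [if_pos ((hH' x).2 hall)]
      have h1 := point_bound hw hcop hP w le_rfl 0 le_rfl
      have h2 := selz_ww (F := F) (w := w) x
      have h3 : ((F.Bad w w x.1 x.2).card : ℝ) ≤ w +
          ((F.P x.1 x.2).natAbs.primeFactors.filter fun p => w < p).card + sqn F w x := by
        exact_mod_cast bad_card (F := F) (w := w) w x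
      have h4 := hlarge T w hT2' (by omega) x hx
      have h5 := sum_nonneg hnn
      rw [neg_zero, Real.rpow_zero, one_mul] at h1
      rw [hcinf]
      linarith
    · rw [if_neg (fun h => hall ((hH' x).1 h))]
      push Not at hall
      obtain ⟨j0, hj0, hj0G⟩ := hall
      have hex : ∃ j, G j x := ⟨j0, hj0G⟩
      set j := Nat.find hex with hj
      have hjG : G j x := Nat.find_spec hex
      have hjmin : ∀ i < j, ¬ G i x := fun i hi => Nat.find_min hex hi
      have hjJ : j < J := lt_of_le_of_lt (Nat.find_min' hex hj0G) hj0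
      have hwz := hJ' j hjJ
      have h1 := point_bound hw hcop hP (zz T j) hwz.le (((k:ℝ) + 1) * j) (by positivity)
      have h3 : ((F.Bad w (zz T j) x.1 x.2).card : ℝ) ≤ w +
          ((F.P x.1 x.2).natAbs.primeFactors.filter fun p => zz T j < p).card + sqn F w x := by
        exact_mod_cast bad_card (F := F) (w := w) (zz T j) x
      have h4 := hlarge T (zz T j) hT2' (by omega) x hx
      have h4' : C4 * (Real.log T / Real.log (zz T j)) ≤ C4 * (48 * 2 ^ j) :=
        mul_le_mul_of_nonneg_left (hratio j hjJ) hC4.le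
      have h5 := single_le_sum hnn (mem_range.2 hjJ)
      rw [if_pos ((hH j x).2 ⟨hjG, hjmin⟩)] at h5
      have h6 : cc j = 2 + 2 * w + 96 * C4 * 2 ^ j + (k + 1) * j := rfl
      linarith
  -- number of elements of a level
  have hNj : ∀ j < J, (((F.box T).filter fun x => H j x).card : ℝ) ≤
      D * (T:ℝ) ^ 2 / 4 ^ j := by
    intro j hj
    rcases Nat.eq_zero_or_pos j with h0 | h0
    · subst h0
      have h1 : (((F.box T).filter fun x => H 0 x).card : ℝ) ≤
          9 * (T:ℝ) ^ 2 := by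
        refine le_trans ?_ (box_card (F := F) T hT)
        exact_mod_cast card_filter_le _ _
      rw [pow_zero, div_one]
      refine h1.trans (mul_le_mul_of_nonneg_right ?_ (by positivity))
      rw [hD]
      have : 0 ≤ C2 * (8 * (k:ℝ) ^ 2 / 9) := by positivity
      linarith
    · obtain ⟨i, rfl⟩ : ∃ i, j = i + 1 := ⟨j - 1, by omega⟩
      have hi : i < J := by omega
      have hz := zz_log h12 (hJ' i hi)
      have hz0 : 0 < Real.log (zz T i) := lt_of_lt_of_le (by positivity) hz.2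
      have h1 : (((F.box T).filter fun x => H (i+1) x).card : ℝ) ≤
          (((F.box T).filter fun x => ¬ F.Good T (zz T i) x.1 x.2).card : ℝ) := by
        have : ((F.box T).filter fun x => H (i+1) x) ⊆
            ((F.box T).filter fun x => ¬ F.Good T (zz T i) x.1 x.2) := by
          intro x hx
          rw [mem_filter] at hx ⊢
          exact ⟨hx.1, ((hH _ _).1 hx.2).2 i (by omega)⟩
        exact_mod_cast card_le_card this
      have h2 := htail T (zz T i) hT (by have := hJ' i hi; omega)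
      refine h1.trans (h2.trans ?_)
      have h3 : (3 / k * 2 ^ i : ℝ) ≤ Real.log T / (8 * k * Real.log (zz T i)) := by
        rw [le_div_iff₀ (by positivity)]
        have h4 := hz.1
        rw [le_div_iff₀ (by positivity)] at h4
        have h5 : 3 / (k:ℝ) * 2 ^ i * (8 * k * Real.log (zz T i)) =
            Real.log (zz T i) * (24 * 2 ^ i) := by
          field_simp; ring
        rw [h5]; exact h4
      have h6 : Real.exp (-(Real.log T / (8 * k * Real.log (zz T i)))) ≤
          2 / (3 / k * 2 ^ i : ℝ) ^ 2 :=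
        (Real.exp_le_exp.2 (neg_le_neg h3)).trans (exp_neg_le (by positivity))
      have h7 : (2 / (3 / k * 2 ^ i : ℝ) ^ 2) = (8 * k ^ 2 / 9) / 4 ^ (i + 1) := by
        have : (4:ℝ) ^ (i+1) = 4 * (2 ^ i) ^ 2 := by
          rw [pow_succ, ← pow_mul, mul_comm i 2, pow_mul]; norm_num; ring
        rw [this]; field_simp; ring
      rw [h7] at h6
      calc C2 * (T:ℝ) ^ 2 * Real.exp (-(Real.log T / (8 * k * Real.log (zz T i))))
          ≤ C2 * (T:ℝ) ^ 2 * ((8 * k ^ 2 / 9) / 4 ^ (i + 1)) :=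
            mul_le_mul_of_nonneg_left h6 (by positivity)
        _ = (C2 * (8 * k ^ 2 / 9)) * (T:ℝ) ^ 2 / 4 ^ (i+1) := by ring
        _ ≤ D * (T:ℝ) ^ 2 / 4 ^ (i+1) := by
            refine div_le_div_of_nonneg_right (mul_le_mul_of_nonneg_right ?_ (by positivity))
              (by positivity)
            rw [hD]; linarith
  -- last level
  have hinf : (((F.box T).filter fun x => H' x).card : ℝ) * cinf ≤ C6 * (T:ℝ) ^ 2 := by
    have hlast : Real.log T / (24 * 2 ^ J) ≤ Real.log (w + 1) := by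
      have h1 : Real.exp (Real.log T / (24 * 2 ^ J)) < zz T J + 1 := Nat.lt_floor_add_one _
      have h2 : (zz T J : ℝ) + 1 ≤ w + 1 := by
        have : (zz T J : ℝ) ≤ w := by exact_mod_cast hJ
        linarith
      have h3 := Real.log_le_log (Real.exp_pos _) (h1.le.trans h2)
      rwa [Real.log_exp] at h3
    rcases Nat.eq_zero_or_pos J with h0 | h0
    · have h1 : (((F.box T).filter fun x => H' x).card : ℝ) ≤ 9 * (T:ℝ) ^ 2 := by
        refine le_trans ?_ (box_card (F := F) T hT)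
        exact_mod_cast card_filter_le _ _
      have h2 : Real.log T ≤ 24 * Real.log (w + 1) := by
        rw [h0, pow_zero, mul_one, div_le_iff₀ (by norm_num)] at hlast
        linarith
      have h3 : cinf ≤ 3 + 2 * w + 2 * C4 * (24 * Real.log (w + 1) / Real.log w) := by
        rw [hcinf]
        have : Real.log T / Real.log w ≤ 24 * Real.log (w + 1) / Real.log w :=
          div_le_div_of_nonneg_right h2 hlw.le
        have := mul_le_mul_of_nonneg_left this (by positivity : 0 ≤ 2 * C4)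
        linarith
      calc _ ≤ (9 * (T:ℝ) ^ 2) * (3 + 2 * w + 2 * C4 * (24 * Real.log (w + 1) / Real.log w)) :=
            mul_le_mul h1 h3 hcinf0 (by positivity)
        _ = (9 * (3 + 2 * w + 2 * C4 * (24 * Real.log (w + 1) / Real.log w))) * (T:ℝ) ^ 2 := by
            ring
        _ ≤ C6 * (T:ℝ) ^ 2 := by
            refine mul_le_mul_of_nonneg_right ?_ (by positivity)
            rw [hC6]
            have : 0 ≤ C2 * (3 + 2 * w + 2 * C4 * (1 / c1 / Real.log w)) := by positivity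
            linarith
    · obtain ⟨i, rfl⟩ : ∃ i, J = i + 1 := ⟨J - 1, by omega⟩
      have hi : i < i + 1 := by omega
      have hz := zz_log h12 (hJ' i hi)
      have hz0 : 0 < Real.log (zz T i) := lt_of_lt_of_le (by positivity) hz.2
      have h1 : (((F.box T).filter fun x => H' x).card : ℝ) ≤
          (((F.box T).filter fun x => ¬ F.Good T (zz T i) x.1 x.2).card : ℝ) := by
        have : ((F.box T).filter fun x => H' x) ⊆
            ((F.box T).filter fun x => ¬ F.Good T (zz T i) x.1 x.2) := by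
          intro x hx
          rw [mem_filter] at hx ⊢
          exact ⟨hx.1, (hH' _).1 hx.2 i hi⟩
        exact_mod_cast card_le_card this
      have h2 := htail T (zz T i) hT (by have := hJ' i hi; omega)
      have h3 : Real.log (zz T i) ≤ 2 * Real.log (w + 1) := by
        have h4 : Real.log T / (24 * 2 ^ i) = 2 * (Real.log T / (24 * 2 ^ (i + 1))) := by
          rw [pow_succ]; field_simp
        linarith [hz.1]
      have h5 : c1 * Real.log T ≤ Real.log T / (8 * k * Real.log (zz T i)) := by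
        rw [hc1, div_mul_eq_mul_div, one_mul]
        refine div_le_div_of_nonneg_left hlT.le (by positivity) ?_
        calc 8 * k * Real.log (zz T i) ≤ 8 * k * (2 * Real.log (w + 1)) :=
              mul_le_mul_of_nonneg_left h3 (by positivity)
          _ = 16 * k * Real.log (w + 1) := by ring
      have h6 : Real.exp (-(Real.log T / (8 * k * Real.log (zz T i)))) ≤
          Real.exp (-(c1 * Real.log T)) := Real.exp_le_exp.2 (neg_le_neg h5)
      set t : ℝ := c1 * Real.log T with ht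
      have ht0 : 0 < t := by positivity
      have h7 : Real.exp (-t) ≤ 1 := Real.exp_le_one_iff.2 (by linarith)
      have h8 : t * Real.exp (-t) ≤ 1 := by
        have h9 := Real.add_one_le_exp t
        rw [Real.exp_neg, ← div_eq_mul_inv, div_le_one (Real.exp_pos _)]
        linarith
      have h9 : cinf * Real.exp (-t) ≤ 3 + 2 * w + 2 * C4 * (1 / c1 / Real.log w) := by
        have h10 : cinf = 3 + 2 * w + 2 * C4 * (1 / c1 / Real.log w) * t := by
          rw [hcinf, ht]; field_simp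
        rw [h10, add_mul, mul_assoc]
        have h11 : (3 + 2 * (w:ℝ)) * Real.exp (-t) ≤ (3 + 2 * w) * 1 :=
          mul_le_mul_of_nonneg_left h7 (by positivity)
        have h12 : 2 * C4 * (1 / c1 / Real.log w) * (t * Real.exp (-t)) ≤
            2 * C4 * (1 / c1 / Real.log w) * 1 :=
          mul_le_mul_of_nonneg_left h8 (by positivity)
        linarith
      calc _ ≤ (C2 * (T:ℝ) ^ 2 * Real.exp (-t)) * cinf :=
            mul_le_mul_of_nonneg_right (h1.trans (h2.trans
              (mul_le_mul_of_nonneg_left h6 (by positivity)))) hcinf0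
        _ = C2 * (T:ℝ) ^ 2 * (cinf * Real.exp (-t)) := by ring
        _ ≤ C2 * (T:ℝ) ^ 2 * (3 + 2 * w + 2 * C4 * (1 / c1 / Real.log w)) :=
            mul_le_mul_of_nonneg_left h9 (by positivity)
        _ = (C2 * (3 + 2 * w + 2 * C4 * (1 / c1 / Real.log w))) * (T:ℝ) ^ 2 := by ring
        _ ≤ C6 * (T:ℝ) ^ 2 := by
            refine mul_le_mul_of_nonneg_right ?_ (by positivity)
            rw [hC6]
            have : 0 ≤ 9 * (3 + 2 * w + 2 * C4 * (24 * Real.log (w + 1) / Real.log w)) := by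
              positivity
            linarith
  have hgeo : ∀ n : ℕ, ∑ j ∈ range n, (1:ℝ) / 2 ^ j ≤ 2 := by
    intro n
    have h1 := Finset.sum_le_sum_of_subset_of_nonneg (s := range n) (t := range n) (f := fun j => (1:ℝ) / 2 ^ j) (Subset.refl _) (fun _ _ _ => by positivity)
    have h2 : ∑ j ∈ range n, (1:ℝ) / 2 ^ j = 2 - 2 / 2 ^ n := by
      clear h1
      induction n with
      | zero => norm_num
      | succ n ih => rw [sum_range_succ, ih, pow_succ]; field_simp; ring
    rw [h2]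
    have : (0:ℝ) ≤ 2 / 2 ^ n := by positivity
    linarith
  have hsum := sum_le_sum hpt
  refine hsum.trans ?_
  rw [sum_add_distrib, sum_add_distrib, ← mul_sum, sum_comm]
  have hA := hsq T hT
  have hB : ∑ j ∈ range J, ∑ x ∈ F.box T, (if H j x then
        cc j + (2:ℝ) ^ (-(((k:ℝ) + 1) * j)) * (F.SelZ w (zz T j) x.1 x.2).card else 0) ≤
      (2 * C5 * D + 2 * C1 * 48 ^ k) * (T:ℝ) ^ 2 := by
    have hterm : ∀ j ∈ range J, ∑ x ∈ F.box T, (if H j x then
        cc j + (2:ℝ) ^ (-(((k:ℝ) + 1) * j)) * (F.SelZ w (zz T j) x.1 x.2).card else 0) ≤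
        (C5 * D + C1 * 48 ^ k) * (T:ℝ) ^ 2 * (1 / 2 ^ j) := by
      intro j hj
      have hjJ := mem_range.1 hj
      have hwz := hJ' j hjJ
      rw [← sum_filter, sum_add_distrib, sum_const, nsmul_eq_mul, ← mul_sum]
      have hcj : cc j ≤ C5 * 2 ^ j := by
        have h2 : (1:ℝ) ≤ 2 ^ j := one_le_pow₀ (by norm_num)
        have h3 : (j:ℝ) ≤ 2 ^ j := by exact_mod_cast Nat.lt_two_pow_self.le
        have h4 : (2 + 2 * (w:ℝ)) * 1 ≤ (2 + 2 * w) * 2 ^ j :=
          mul_le_mul_of_nonneg_left h2 (by positivity)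
        have h5 : ((k:ℝ) + 1) * j ≤ (k + 1) * 2 ^ j :=
          mul_le_mul_of_nonneg_left h3 (by positivity)
        calc cc j = 2 + 2 * w + 96 * C4 * 2 ^ j + (k + 1) * j := rfl
          _ ≤ C5 * 2 ^ j := by rw [hC5]; linarith
      have hcj0 : 0 ≤ cc j := by
        change (0:ℝ) ≤ 2 + 2 * w + 96 * C4 * 2 ^ j + (k + 1) * j
        positivity
      have h1 : (((F.box T).filter fun x => H j x).card : ℝ) * cc j ≤
          C5 * D * (T:ℝ) ^ 2 * (1 / 2 ^ j) := by
        calc (((F.box T).filter fun x => H j x).card : ℝ) * cc j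
            ≤ (D * (T:ℝ) ^ 2 / 4 ^ j) * (C5 * 2 ^ j) :=
              mul_le_mul (hNj j hjJ) hcj hcj0 (by positivity)
          _ = C5 * D * (T:ℝ) ^ 2 * (1 / 2 ^ j) := by
              have : (4:ℝ) ^ j = 2 ^ j * 2 ^ j := by rw [← mul_pow]; norm_num
              rw [this]; field_simp
      have h2 : ∑ x ∈ (F.box T).filter (fun x => H j x),
          ((F.SelZ w (zz T j) x.1 x.2).card : ℝ) ≤ C1 * (T:ℝ) ^ 2 * (48 * 2 ^ j) ^ k := by
        have h3 := hgood T (zz T j) hwz (zz_pow j hT)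
        refine le_trans ?_ (h3.trans ?_)
        · refine sum_le_sum_of_subset_of_nonneg ?_ (fun _ _ _ => Nat.cast_nonneg _)
          intro x hx
          rw [mem_filter] at hx ⊢
          exact ⟨hx.1, ((hH _ _).1 hx.2).1⟩
        · refine mul_le_mul_of_nonneg_left (pow_le_pow_left₀ ?_ (hratio j hjJ) k) (by positivity)
          have := (zz_log h12 hwz).2
          have hz : 0 < Real.log (zz T j) := lt_of_lt_of_le (by positivity) this
          positivity
      have h4 : (2:ℝ) ^ (-(((k:ℝ) + 1) * j)) * ∑ x ∈ (F.box T).filter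
          (fun x => H j x), ((F.SelZ w (zz T j) x.1 x.2).card : ℝ) ≤
          C1 * 48 ^ k * (T:ℝ) ^ 2 * (1 / 2 ^ j) := by
        refine (mul_le_mul_of_nonneg_left h2 (by positivity)).trans (le_of_eq ?_)
        have h5 : (2:ℝ) ^ (-(((k:ℝ) + 1) * j)) = 1 / (2 ^ j * (2 ^ j) ^ k) := by
          rw [Real.rpow_neg (by norm_num), one_div]
          congr 1
          rw [show ((k:ℝ) + 1) * j = (((k + 1) * j : ℕ) : ℝ) by push_cast; ring, Real.rpow_natCast]
          rw [← pow_succ', ← pow_mul, mul_comm j (k+1)]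
        rw [h5, mul_pow]
        field_simp
      calc _ ≤ C5 * D * (T:ℝ) ^ 2 * (1 / 2 ^ j) + C1 * 48 ^ k * (T:ℝ) ^ 2 * (1 / 2 ^ j) :=
            add_le_add h1 h4
        _ = _ := by ring
    refine (sum_le_sum hterm).trans ?_
    rw [← mul_sum]
    calc (C5 * D + C1 * 48 ^ k) * (T:ℝ) ^ 2 * ∑ j ∈ range J, 1 / 2 ^ j
        ≤ (C5 * D + C1 * 48 ^ k) * (T:ℝ) ^ 2 * 2 :=
          mul_le_mul_of_nonneg_left (hgeo J) (by positivity)
      _ = _ := by ring
  have hCc : ∑ x ∈ F.box T, (if H' x then cinf else 0) ≤ C6 * (T:ℝ) ^ 2 := by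
    rw [← sum_filter, sum_const, nsmul_eq_mul]
    exact hinf
  have : 0 ≤ S1 * (T:ℝ) ^ 2 := by positivity
  linarith

end Pool.Agent.H77.SV
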