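import Pool.Agent.H77.SV.Defs
import Pool.Agent.H24.UM.Rankin
import Pool.Agent.H12.Mertens

/-!
# Module GLow (about 220 lines): lower bound for the Selberg denominator (Rankin's trick).

CLAIM. `1 ≤ k ≤ w`. There is `c > 0` (depending on `k, w`) such that for all `z > w` and every set `R` of primes in
`(w, z]`: `sum_{d | prod(Pr w z ∖ R), d ≤ z} prod_{p | d} k/p ≥ c (log z)^k / prod_{p ∈ R} (1 + k/p)`.
PROOF. Let `s` be a large integer (depending on `k`), `y` the largest integer with `y^s ≤ z`, `T` = primes of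
`Pr w z ∖ R` which are `≤ y`. All terms are `≥ 0`, so restrict to `d | prod T`:
`sum_{d | prod T} k^ω(d)/d = prod_{p ∈ T} (1 + k/p) =: V`, and by Rankin with `η = 1/log y`
`sum_{d | prod T, d > z} k^ω/d ≤ z^(-η) prod_{p ∈ T} (1 + k p^η/p) ≤ e^(-s) V exp (sum_{p ≤ y} k (p^η - 1)/p)`,
where `p^η - 1 ≤ 2 η log p` (`η log p ≤ 1`, `exp_le_two`) and `sum_{p ≤ y} log p/p ≤ log y + C`
(`Pool.Agent.H24.UM.mertens_primes`), so the exponent is `≤ 2 k (1 + C/log y)`. If `y ≥ 3` the tail is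
`≤ e^(-s + 2k(1+C)) V ≤ V/2` for `s ≥ 2k(1+C) + 1`. So the sum is `≥ V/2`, and
`V ≥ prod_{p ∈ Pr w y} (1 + k/p) / prod_{p ∈ R} (1 + k/p)`,
`prod_{w < p ≤ y} (1 + k/p) ≥ exp (sum k/p - k^2/p^2)` and
`log (y+1) ≤ prod_{p ≤ y} (1 - 1/p)^(-1) ≤ exp (sum_{p ≤ y} 1/p + 2/p^2)` (`Pool.Agent.H12.prod_primes_le`),
while the primes `≤ w` contribute a constant. Finally `log z ≤ s log (y+1)`. If `y < 3` then
`log z ≤ s log 3` is bounded and the sum is `≥ 1` (the term `d = 1`).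
-/

set_option autoImplicit false

namespace Pool.Agent.H77.SV

open Finset

private theorem glow_sqf (T : Finset ℕ) (hT : ∀ p ∈ T, p.Prime) : Squarefree (∏ p ∈ T, p) := by
  refine Finset.squarefree_prod_of_pairwise_isCoprime (fun p hp q hq hpq => ?_)
    fun p hp => (hT p hp).squarefree
  simp only [← Nat.coprime_iff_isRelPrime]
  exact (Nat.coprime_primes (hT p hp) (hT q hq)).mpr hpq

private theorem glow_expand (T : Finset ℕ) (hT : ∀ p ∈ T, p.Prime) (g : ℕ → ℝ) :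
    ∑ d ∈ (∏ p ∈ T, p).divisors, ∏ p ∈ d.primeFactors, g p = ∏ p ∈ T, (1 + g p) := by
  have h1 := (ArithmeticFunction.IsMultiplicative.prodPrimeFactors g
    ).prodPrimeFactors_one_add_of_squarefree (glow_sqf T hT)
  rw [Nat.primeFactors_prod hT] at h1
  have h2 : ∏ p ∈ T, (1 + ArithmeticFunction.prodPrimeFactors g p) = ∏ p ∈ T, (1 + g p) := by
    refine prod_congr rfl fun p hp => ?_
    rw [ArithmeticFunction.prodPrimeFactors_apply (hT p hp).ne_zero, (hT p hp).primeFactors,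
      prod_singleton]
  rw [← h2, h1]
  refine sum_congr rfl fun d hd => ?_
  rw [ArithmeticFunction.prodPrimeFactors_apply (Nat.pos_of_mem_divisors hd).ne']

private theorem glow_exp_le {x : ℝ} (h0 : 0 ≤ x) : Real.exp (x - x ^ 2) ≤ 1 + x := by
  have h1 : 0 < 1 + x := by linarith
  have h2 : x - x ^ 2 ≤ x / (1 + x) := by
    rw [le_div_iff₀ h1]
    nlinarith [pow_nonneg h0 3]
  have h3 := Real.add_one_le_exp (-(x / (1 + x)))
  have h4 : -(x / (1 + x)) + 1 = 1 / (1 + x) := by field_simp; ring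
  rw [h4, Real.exp_neg] at h3
  have h5 : Real.exp (x / (1 + x)) ≤ 1 + x := by
    have h6 := Real.exp_pos (x / (1 + x))
    rw [div_le_iff₀ h1] at h3
    have h7 : Real.exp (x / (1 + x)) * 1 ≤
        Real.exp (x / (1 + x)) * ((Real.exp (x / (1 + x)))⁻¹ * (1 + x)) :=
      mul_le_mul_of_nonneg_left h3 h6.le
    rw [← mul_assoc, mul_inv_cancel₀ h6.ne', one_mul, mul_one] at h7
    exact h7
  exact (Real.exp_le_exp.mpr h2).trans h5

private theorem glow_inv_le {u : ℝ} (h0 : 0 ≤ u) (h1 : u ≤ 1 / 2) :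
    (1 - u)⁻¹ ≤ Real.exp (u + 2 * u ^ 2) := by
  have h2 : 0 < 1 - u := by linarith
  have h3 : (1 - u)⁻¹ ≤ 1 + (u + 2 * u ^ 2) := by
    rw [inv_le_iff_one_le_mul₀ h2]
    nlinarith [pow_nonneg h0 2, pow_nonneg h0 3]
  have h4 := Real.add_one_le_exp (u + 2 * u ^ 2)
  linarith

private theorem glow_sq_sum (S : Finset ℕ) (hS : ∀ p ∈ S, 2 ≤ p) :
    ∑ p ∈ S, ((p : ℝ) ^ 2)⁻¹ ≤ 1 := by
  set N := S.sup id + 1 with hN
  have h1 : S ⊆ Ioc 1 N := by
    intro p hp
    rw [mem_Ioc]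
    have h2 : p ≤ S.sup id := Finset.le_sup (f := id) hp
    have := hS p hp
    omega
  have h2 : ∑ p ∈ S, ((p : ℝ) ^ 2)⁻¹ ≤ ∑ p ∈ Ioc 1 N, ((p : ℝ) ^ 2)⁻¹ :=
    sum_le_sum_of_subset_of_nonneg h1 fun p _ _ => by positivity
  have h3 := sum_Ioc_inv_sq_le_sub (α := ℝ) (k := 1) (n := N) (by norm_num) (by omega)
  have h4 : (0 : ℝ) ≤ (N : ℝ)⁻¹ := by positivity
  have h5 : (((1 : ℕ) : ℝ))⁻¹ = 1 := by norm_num
  linarith

/-- lower bound for the product over `(w, y]` -/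
private theorem glow_prod (k w : ℕ) (hk : 1 ≤ k) (y : ℕ) (hy : 1 ≤ y) :
    Real.log ((y + 1 : ℕ) : ℝ) ^ k ≤
      Real.exp (2 * k + k * w + k ^ 2) * ∏ p ∈ Pr w y, (1 + (k : ℝ) / p) := by
  classical
  set Q := (y + 1).primesBelow with hQ
  have hQp : ∀ p ∈ Q, p.Prime := fun p hp => Nat.prime_of_mem_primesBelow hp
  have hy2 : (1 : ℝ) < ((y + 1 : ℕ) : ℝ) := by exact_mod_cast (by omega : 1 < y + 1)
  have hlog : 0 < Real.log ((y + 1 : ℕ) : ℝ) := Real.log_pos hy2
  have h1 := Pool.Agent.H12.prod_primes_le (y + 1) (by omega)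
  have hpos : 0 < ∏ p ∈ Q, (1 - 1 / (p : ℝ)) := by
    refine prod_pos fun p hp => ?_
    have h2 : (2 : ℝ) ≤ p := by exact_mod_cast (hQp p hp).two_le
    have h3 : 1 / (p : ℝ) ≤ 1 / 2 := one_div_le_one_div_of_le (by norm_num) h2
    linarith
  have h2 : Real.log ((y + 1 : ℕ) : ℝ) ≤ ∏ p ∈ Q, (1 - 1 / (p : ℝ))⁻¹ := by
    rw [prod_inv_distrib, le_inv_comm₀ hlog hpos]
    rw [one_div] at h1
    exact h1
  have h3 : ∏ p ∈ Q, (1 - 1 / (p : ℝ))⁻¹ ≤
      Real.exp (∑ p ∈ Q, (1 / (p : ℝ)) + 2) := by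
    have h4 : ∏ p ∈ Q, (1 - 1 / (p : ℝ))⁻¹ ≤
        ∏ p ∈ Q, Real.exp (1 / (p : ℝ) + 2 * (1 / (p : ℝ)) ^ 2) := by
      refine prod_le_prod (fun p hp => ?_) (fun p hp => ?_)
      · have h2 : (2 : ℝ) ≤ p := by exact_mod_cast (hQp p hp).two_le
        have h3 : 1 / (p : ℝ) ≤ 1 / 2 := one_div_le_one_div_of_le (by norm_num) h2
        exact inv_nonneg.mpr (by linarith)
      · have h2 : (2 : ℝ) ≤ p := by exact_mod_cast (hQp p hp).two_le
        have h3 : 1 / (p : ℝ) ≤ 1 / 2 := one_div_le_one_div_of_le (by norm_num) h2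
        exact glow_inv_le (by positivity) h3
    refine h4.trans ?_
    rw [← Real.exp_sum, Real.exp_le_exp, sum_add_distrib, ← mul_sum]
    have h5 := glow_sq_sum Q fun p hp => (hQp p hp).two_le
    have h6 : ∑ p ∈ Q, (1 / (p : ℝ)) ^ 2 = ∑ p ∈ Q, ((p : ℝ) ^ 2)⁻¹ :=
      sum_congr rfl fun p _ => by rw [one_div, inv_pow]
    rw [h6]
    linarith
  have h4 : ∑ p ∈ Q, (1 / (p : ℝ)) ≤ w + ∑ p ∈ Pr w y, (1 / (p : ℝ)) := by
    have h5 : Q ⊆ Icc 1 w ∪ Pr w y := by
      intro p hp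
      have hp' := hQp p hp
      have hlt := Nat.lt_of_mem_primesBelow hp
      rw [mem_union, mem_Icc, Pr, mem_filter, mem_Ioc]
      have := hp'.one_lt
      by_cases h : p ≤ w
      · left; omega
      · right; exact ⟨⟨by omega, by omega⟩, hp'⟩
    refine (sum_le_sum_of_subset_of_nonneg h5 fun p _ _ => by positivity).trans ?_
    have h6' : ∑ p ∈ Icc 1 w ∪ Pr w y, (1 / (p : ℝ)) ≤
        ∑ p ∈ Icc 1 w, (1 / (p : ℝ)) + ∑ p ∈ Pr w y, (1 / (p : ℝ)) := by
      rw [← sum_union_inter]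
      have : 0 ≤ ∑ p ∈ Icc 1 w ∩ Pr w y, (1 / (p : ℝ)) := sum_nonneg fun p _ => by positivity
      linarith
    refine h6'.trans (add_le_add ?_ le_rfl)
    have h6 : ∑ p ∈ Icc 1 w, (1 / (p : ℝ)) ≤ ∑ p ∈ Icc 1 w, (1 : ℝ) := by
      refine sum_le_sum fun p hp => ?_
      have : (1 : ℝ) ≤ p := by exact_mod_cast (mem_Icc.mp hp).1
      rw [div_le_one (by linarith)]
      exact this
    refine h6.trans (le_of_eq ?_)
    rw [sum_const, Nat.card_Icc]
    simp
  have h5 : Real.exp (k * ∑ p ∈ Pr w y, (1 / (p : ℝ)) - k ^ 2) ≤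
      ∏ p ∈ Pr w y, (1 + (k : ℝ) / p) := by
    have h6 : ∏ p ∈ Pr w y, Real.exp ((k : ℝ) / p - ((k : ℝ) / p) ^ 2) ≤
        ∏ p ∈ Pr w y, (1 + (k : ℝ) / p) :=
      prod_le_prod (fun p _ => (Real.exp_pos _).le) fun p _ => glow_exp_le (by positivity)
    refine le_trans ?_ h6
    rw [← Real.exp_sum, Real.exp_le_exp, sum_sub_distrib, mul_sum]
    have h7 := glow_sq_sum (Pr w y) fun p hp => by
      rw [Pr, mem_filter] at hp
      exact hp.2.two_le
    have h8 : ∑ p ∈ Pr w y, ((k : ℝ) / p) ^ 2 = (k : ℝ) ^ 2 * ∑ p ∈ Pr w y, ((p : ℝ) ^ 2)⁻¹ := by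
      rw [mul_sum]
      exact sum_congr rfl fun p _ => by rw [div_pow, div_eq_mul_inv]
    have h9 : ∑ p ∈ Pr w y, (k : ℝ) * (1 / (p : ℝ)) = ∑ p ∈ Pr w y, (k : ℝ) / p :=
      sum_congr rfl fun p _ => by rw [mul_one_div]
    rw [h8, h9]
    have h10 : (k : ℝ) ^ 2 * ∑ p ∈ Pr w y, ((p : ℝ) ^ 2)⁻¹ ≤ (k : ℝ) ^ 2 * 1 :=
      mul_le_mul_of_nonneg_left h7 (by positivity)
    linarith
  calc Real.log ((y + 1 : ℕ) : ℝ) ^ k
      ≤ (Real.exp (w + ∑ p ∈ Pr w y, (1 / (p : ℝ)) + 2)) ^ k := by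
        refine pow_le_pow_left₀ hlog.le ?_ k
        refine (h2.trans h3).trans (Real.exp_le_exp.mpr ?_)
        linarith
    _ = Real.exp (2 * k + k * w + k ^ 2) *
          Real.exp (k * ∑ p ∈ Pr w y, (1 / (p : ℝ)) - k ^ 2) := by
        rw [← Real.exp_nat_mul, ← Real.exp_add]
        congr 1
        ring
    _ ≤ _ := mul_le_mul_of_nonneg_left h5 (Real.exp_pos _).le

/-- Rankin: the tail -/
private theorem glow_tail (k : ℕ) (C : ℝ) (hC : 0 ≤ C)
    (hM : ∀ (y : ℕ) (P : Finset ℕ), 1 ≤ y → (∀ p ∈ P, p.Prime ∧ p ≤ y) →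
      ∑ p ∈ P, Real.log p / p ≤ Real.log y + C)
    (s y z : ℕ) (hs : 2 * (k : ℝ) * (1 + C) + 1 ≤ s) (hy : 3 ≤ y) (hyz : y ^ s ≤ z)
    (T : Finset ℕ) (hT : ∀ p ∈ T, p.Prime ∧ p ≤ y) :
    ∑ d ∈ (∏ p ∈ T, p).divisors.filter (fun d => ¬ d ≤ z), ∏ p ∈ d.primeFactors, (k : ℝ) / p ≤
      (1 / 2) * ∏ p ∈ T, (1 + (k : ℝ) / p) := by
  classical
  have hT' : ∀ p ∈ T, p.Prime := fun p hp => (hT p hp).1
  have hy3 : (3 : ℝ) ≤ y := by exact_mod_cast hy
  have hlogy : 1 ≤ Real.log y := by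
    rw [Real.le_log_iff_exp_le (by linarith)]
    exact (Real.exp_one_lt_d9.le.trans (by norm_num)).trans hy3
  set η := (Real.log y)⁻¹ with hη
  have hη0 : 0 < η := by positivity
  have hηl : η * Real.log y = 1 := inv_mul_cancel₀ (by linarith)
  have hz0 : 0 < z := lt_of_lt_of_le (pow_pos (by omega) s) hyz
  have hzR : (0 : ℝ) < z := by exact_mod_cast hz0
  have hlogz : s * Real.log y ≤ Real.log z := by
    rw [← Real.log_pow]
    refine Real.log_le_log (by positivity) ?_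
    exact_mod_cast hyz
  -- step 1
  have h1 : ∑ d ∈ (∏ p ∈ T, p).divisors.filter (fun d => ¬ d ≤ z),
      ∏ p ∈ d.primeFactors, (k : ℝ) / p ≤
      Real.exp (-(η * Real.log z)) *
        ∑ d ∈ (∏ p ∈ T, p).divisors, ∏ p ∈ d.primeFactors, ((k : ℝ) / p * Real.exp (η * Real.log p)) := by
    rw [mul_sum]
    refine le_trans (sum_le_sum fun d hd => ?_)
      (sum_le_sum_of_subset_of_nonneg (filter_subset _ _) fun d _ _ => by positivity)
    rw [mem_filter] at hd
    have hd0 : 0 < d := Nat.pos_of_mem_divisors hd.1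
    have hsq : Squarefree d := (glow_sqf T hT').squarefree_of_dvd (Nat.dvd_of_mem_divisors hd.1)
    rw [prod_mul_distrib, ← Real.exp_sum, ← mul_sum]
    have h2 : ∑ p ∈ d.primeFactors, Real.log p = Real.log d := by
      rw [← Real.log_prod]
      · congr 1
        have h := Nat.prod_primeFactors_of_squarefree hsq
        rw [← Nat.cast_prod, h]
      · intro p hp
        have := (Nat.prime_of_mem_primeFactors hp).ne_zero
        exact_mod_cast this
    rw [h2]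
    have h3 : Real.log z ≤ Real.log d := by
      refine Real.log_le_log hzR ?_
      exact_mod_cast (by omega : z ≤ d)
    have h4 : (1 : ℝ) ≤ Real.exp (-(η * Real.log z)) * Real.exp (η * Real.log d) := by
      rw [← Real.exp_add]
      refine Real.one_le_exp ?_
      have := mul_le_mul_of_nonneg_left h3 hη0.le
      linarith
    have h5 : 0 ≤ ∏ p ∈ d.primeFactors, (k : ℝ) / p := prod_nonneg fun p _ => by positivity
    calc ∏ p ∈ d.primeFactors, (k : ℝ) / p
        = (∏ p ∈ d.primeFactors, (k : ℝ) / p) * 1 := by rw [mul_one]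
      _ ≤ (∏ p ∈ d.primeFactors, (k : ℝ) / p) *
          (Real.exp (-(η * Real.log z)) * Real.exp (η * Real.log d)) :=
          mul_le_mul_of_nonneg_left h4 h5
      _ = _ := by ring
  rw [glow_expand T hT' (fun p => (k : ℝ) / p * Real.exp (η * Real.log p))] at h1
  -- step 2
  have h2 : ∏ p ∈ T, (1 + (k : ℝ) / p * Real.exp (η * Real.log p)) ≤
      (∏ p ∈ T, (1 + (k : ℝ) / p)) * Real.exp (2 * k * (1 + C)) := by
    have h3 : ∀ p ∈ T, 1 + (k : ℝ) / p * Real.exp (η * Real.log p) ≤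
        (1 + (k : ℝ) / p) * Real.exp (2 * k * η * (Real.log p / p)) := by
      intro p hp
      have hp0 : (0 : ℝ) < p := by exact_mod_cast (hT' p hp).pos
      have hp1 : (1 : ℝ) ≤ p := by exact_mod_cast (hT' p hp).one_le
      have hlp : 0 ≤ Real.log p := Real.log_nonneg hp1
      have hlp2 : Real.log p ≤ Real.log y := Real.log_le_log hp0 (by exact_mod_cast (hT p hp).2)
      have hu : η * Real.log p ≤ 1 := by
        rw [← hηl]
        exact mul_le_mul_of_nonneg_left hlp2 hη0.le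
      have h4 := Pool.Agent.H24.UM.exp_le_two (mul_nonneg hη0.le hlp) hu
      have hkp : 0 ≤ (k : ℝ) / p := by positivity
      have h5 := mul_le_mul_of_nonneg_left h4 hkp
      have h6 := Real.add_one_le_exp (2 * k * η * (Real.log p / p))
      have h7 : 0 ≤ 2 * (k : ℝ) * η * (Real.log p / p) := by positivity
      have h8 : (k : ℝ) / p * (2 * (η * Real.log p)) = 2 * k * η * (Real.log p / p) := by
        field_simp
      calc 1 + (k : ℝ) / p * Real.exp (η * Real.log p)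
          ≤ 1 + (k : ℝ) / p * (1 + 2 * (η * Real.log p)) := by linarith
        _ = 1 + (k : ℝ) / p + 2 * k * η * (Real.log p / p) := by rw [← h8]; ring
        _ ≤ (1 + (k : ℝ) / p) * (2 * k * η * (Real.log p / p) + 1) := by nlinarith
        _ ≤ _ := mul_le_mul_of_nonneg_left h6 (by positivity)
    refine (prod_le_prod (fun p _ => by positivity) h3).trans ?_
    rw [prod_mul_distrib, ← Real.exp_sum, ← mul_sum]
    refine mul_le_mul_of_nonneg_left (Real.exp_le_exp.mpr ?_) (prod_nonneg fun p _ => by positivity)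
    have h4 := hM y T (by omega) hT
    have h5 : 2 * (k : ℝ) * η * ∑ p ∈ T, Real.log p / p ≤ 2 * (k : ℝ) * η * (Real.log y + C) :=
      mul_le_mul_of_nonneg_left h4 (by positivity)
    refine h5.trans ?_
    have h6 : 2 * (k : ℝ) * η * (Real.log y + C) = 2 * k * (η * Real.log y + η * C) := by ring
    rw [h6, hηl]
    have h7 : η ≤ 1 := by
      rw [hη]
      exact inv_le_one_of_one_le₀ hlogy
    have h8 : η * C ≤ 1 * C := mul_le_mul_of_nonneg_right h7 hC
    refine mul_le_mul_of_nonneg_left (by linarith) (by positivity)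
  have h3 : Real.exp (-(η * Real.log z)) ≤ Real.exp (-s) := by
    refine Real.exp_le_exp.mpr ?_
    have h4 := mul_le_mul_of_nonneg_left hlogz hη0.le
    have h5 : η * (s * Real.log y) = s := by
      calc η * (s * Real.log y) = s * (η * Real.log y) := by ring
        _ = s := by rw [hηl, mul_one]
    linarith
  have h4 : 0 ≤ ∏ p ∈ T, (1 + (k : ℝ) / p) := prod_nonneg fun p _ => by positivity
  have h5 : Real.exp (-s) * Real.exp (2 * k * (1 + C)) ≤ 1 / 2 := by
    rw [← Real.exp_add]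
    have h6 : -(s : ℝ) + 2 * k * (1 + C) ≤ -1 := by linarith
    refine (Real.exp_le_exp.mpr h6).trans ?_
    have h7 := Real.exp_one_gt_d9
    rw [Real.exp_neg]
    have h8 : (2 : ℝ) ≤ Real.exp 1 := by linarith
    have h9 := inv_anti₀ (by norm_num : (0 : ℝ) < 2) h8
    linarith
  calc _ ≤ _ := h1
    _ ≤ Real.exp (-s) * ((∏ p ∈ T, (1 + (k : ℝ) / p)) * Real.exp (2 * k * (1 + C))) :=
        mul_le_mul h3 h2 (prod_nonneg fun p _ => by positivity) (Real.exp_pos _).le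
    _ = (Real.exp (-s) * Real.exp (2 * k * (1 + C))) * ∏ p ∈ T, (1 + (k : ℝ) / p) := by ring
    _ ≤ (1 / 2) * ∏ p ∈ T, (1 + (k : ℝ) / p) := mul_le_mul_of_nonneg_right h5 h4

theorem G_lower (k w : ℕ) (hk : 1 ≤ k) (hkw : k ≤ w) : ∃ c : ℝ, 0 < c ∧ ∀ (z : ℕ) (R : Finset ℕ),
    w < z → R ⊆ Pr w z →
    c * Real.log z ^ k / ∏ p ∈ R, (1 + (k : ℝ) / p) ≤
      ∑ d ∈ (∏ p ∈ Pr w z \ R, p).divisors.filter (· ≤ z), ∏ p ∈ d.primeFactors, (k : ℝ) / p := by
  classical
  obtain ⟨C, hC, hM⟩ := Pool.Agent.H24.UM.mertens_primes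
  obtain ⟨s, hs⟩ := exists_nat_ge (2 * (k : ℝ) * (1 + C) + 1)
  have hs1 : (1 : ℝ) ≤ s := by
    have : 0 ≤ 2 * (k : ℝ) * (1 + C) := by positivity
    linarith
  have hs0 : 1 ≤ s := by exact_mod_cast hs1
  set M := Real.exp (2 * k + k * w + k ^ 2) with hMdef
  have hM0 : 0 < M := Real.exp_pos _
  have hc0 : 0 < 1 / (2 * (s : ℝ) ^ k * M) := by positivity
  refine ⟨1 / (2 * (s : ℝ) ^ k * M), hc0, ?_⟩
  intro z R hwz hR
  have hz1 : 1 ≤ z := by omega
  have hzR : (1 : ℝ) ≤ z := by exact_mod_cast hz1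
  have hlogz : 0 ≤ Real.log z := Real.log_nonneg hzR
  -- the number y
  set y := Nat.findGreatest (fun y => y ^ s ≤ z) z with hy
  have hy1 : y ^ s ≤ z := by
    have := Nat.findGreatest_spec (P := fun y => y ^ s ≤ z) (m := 1) (n := z) hz1 (by simpa using hz1)
    exact this
  have hyz : y ≤ z := Nat.findGreatest_le z
  have hy1' : 1 ≤ y := Nat.le_findGreatest hz1 (by simpa using hz1)
  have hy2 : z < (y + 1) ^ s := by
    by_cases h : y + 1 ≤ z
    · have h1 := Nat.findGreatest_is_greatest (P := fun y => y ^ s ≤ z) (n := z) (k := y + 1)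
        (by omega) h
      exact not_le.mp h1
    · have h1 : z < y + 1 := by omega
      calc z < y + 1 := h1
        _ = (y + 1) ^ 1 := (pow_one _).symm
        _ ≤ (y + 1) ^ s := Nat.pow_le_pow_right (by omega) hs0
  have hlz : Real.log z ≤ s * Real.log ((y + 1 : ℕ) : ℝ) := by
    rw [← Real.log_pow]
    refine Real.log_le_log (by linarith) ?_
    exact_mod_cast hy2.le
  have hR0 : 1 ≤ ∏ p ∈ R, (1 + (k : ℝ) / p) := by
    have h1 : ∏ p ∈ R, (1 : ℝ) ≤ ∏ p ∈ R, (1 + (k : ℝ) / p) := by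
      refine prod_le_prod (fun p _ => zero_le_one) fun p _ => ?_
      have : (0 : ℝ) ≤ (k : ℝ) / p := by positivity
      linarith
    rwa [prod_const_one] at h1
  have hRpos : 0 < ∏ p ∈ R, (1 + (k : ℝ) / p) := by linarith
  rw [div_le_iff₀ hRpos]
  set Sm := ∑ d ∈ (∏ p ∈ Pr w z \ R, p).divisors.filter (· ≤ z),
    ∏ p ∈ d.primeFactors, (k : ℝ) / p with hSm
  have hPrp : ∀ p ∈ Pr w z \ R, p.Prime := by
    intro p hp
    rw [mem_sdiff, Pr, mem_filter] at hp
    exact hp.1.2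
  have hprod0 : ∏ p ∈ Pr w z \ R, p ≠ 0 := prod_ne_zero_iff.mpr fun p hp => (hPrp p hp).ne_zero
  have hpow : Real.log z ^ k ≤ (s : ℝ) ^ k * Real.log ((y + 1 : ℕ) : ℝ) ^ k := by
    rw [← mul_pow]
    exact pow_le_pow_left₀ hlogz hlz k
  by_cases hy3 : 3 ≤ y
  · -- main case
    set T := (Pr w z \ R).filter (· ≤ y) with hT
    have hTp : ∀ p ∈ T, p.Prime ∧ p ≤ y := by
      intro p hp
      rw [hT, mem_filter] at hp
      exact ⟨hPrp p hp.1, hp.2⟩
    have hdvd : (∏ p ∈ T, p) ∣ ∏ p ∈ Pr w z \ R, p := prod_dvd_prod_of_subset _ _ _ (filter_subset _ _)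
    have h1 : ∑ d ∈ (∏ p ∈ T, p).divisors.filter (· ≤ z), ∏ p ∈ d.primeFactors, (k : ℝ) / p ≤ Sm := by
      refine sum_le_sum_of_subset_of_nonneg ?_ fun d _ _ => prod_nonneg fun p _ => by positivity
      exact filter_subset_filter _ (Nat.divisors_subset_of_dvd hprod0 hdvd)
    have h2 := glow_tail k C hC hM s y z hs hy3 hy1 T hTp
    have h3 := glow_expand T (fun p hp => (hTp p hp).1) (fun p => (k : ℝ) / p)
    rw [← sum_filter_add_sum_filter_not _ (· ≤ z)] at h3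
    have h4 : (1 / 2) * ∏ p ∈ T, (1 + (k : ℝ) / p) ≤ Sm := by linarith
    have h5 : ∏ p ∈ Pr w y, (1 + (k : ℝ) / p) ≤
        (∏ p ∈ T, (1 + (k : ℝ) / p)) * ∏ p ∈ R, (1 + (k : ℝ) / p) := by
      have h6 : Pr w y ⊆ T ∪ R := by
        intro p hp
        rw [Pr, mem_filter, mem_Ioc] at hp
        rw [mem_union]
        by_cases h : p ∈ R
        · right; exact h
        · left
          rw [hT, mem_filter, mem_sdiff, Pr, mem_filter, mem_Ioc]
          exact ⟨⟨⟨⟨hp.1.1, hp.1.2.trans hyz⟩, hp.2⟩, h⟩, hp.1.2⟩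
      have h7 : Disjoint T R := by
        rw [Finset.disjoint_left]
        intro p hp hp2
        rw [hT, mem_filter, mem_sdiff] at hp
        exact hp.1.2 hp2
      rw [← prod_union h7]
      refine prod_le_prod_of_subset_of_one_le h6 ?_ ?_
      · intro p _
        positivity
      · intro p _ _
        have : (0 : ℝ) ≤ (k : ℝ) / p := by positivity
        linarith
    have h6 := glow_prod k w hk y hy1'
    rw [← hMdef] at h6
    rw [div_mul_eq_mul_div, one_mul, div_le_iff₀ (by positivity)]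
    calc Real.log z ^ k ≤ (s : ℝ) ^ k * Real.log ((y + 1 : ℕ) : ℝ) ^ k := hpow
      _ ≤ (s : ℝ) ^ k * (M * ((∏ p ∈ T, (1 + (k : ℝ) / p)) * ∏ p ∈ R, (1 + (k : ℝ) / p))) := by
          refine mul_le_mul_of_nonneg_left (h6.trans ?_) (by positivity)
          exact mul_le_mul_of_nonneg_left h5 hM0.le
      _ ≤ (s : ℝ) ^ k * (M * ((2 * Sm) * ∏ p ∈ R, (1 + (k : ℝ) / p))) := by
          refine mul_le_mul_of_nonneg_left ?_ (by positivity)
          refine mul_le_mul_of_nonneg_left ?_ hM0.le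
          refine mul_le_mul_of_nonneg_right (by linarith) hRpos.le
      _ = Sm * (∏ p ∈ R, (1 + (k : ℝ) / p)) * (2 * (s : ℝ) ^ k * M) := by ring
  · -- small case
    have hy4 : y + 1 ≤ 3 := by omega
    have h1 : (1 : ℝ) ≤ Sm := by
      have h2 : (1 : ℕ) ∈ (∏ p ∈ Pr w z \ R, p).divisors.filter (· ≤ z) := by
        rw [mem_filter, Nat.mem_divisors]
        exact ⟨⟨one_dvd _, hprod0⟩, hz1⟩
      have h3 := single_le_sum (f := fun d : ℕ => ∏ p ∈ d.primeFactors, (k : ℝ) / p)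
        (fun d _ => prod_nonneg fun p _ => by positivity) h2
      have h4 : ∏ p ∈ (1 : ℕ).primeFactors, (k : ℝ) / p = 1 := by simp
      simp only [h4] at h3
      exact h3
    have h2 : Real.log ((y + 1 : ℕ) : ℝ) ≤ 2 := by
      have h3 : Real.log ((y + 1 : ℕ) : ℝ) ≤ Real.log 3 := by
        refine Real.log_le_log (by positivity) ?_
        exact_mod_cast hy4
      have h4 : Real.log 3 ≤ 3 - 1 := Real.log_le_sub_one_of_pos (by norm_num)
      linarith
    have h3 : Real.log ((y + 1 : ℕ) : ℝ) ^ k ≤ M := by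
      have h5 : 0 ≤ Real.log ((y + 1 : ℕ) : ℝ) := Real.log_natCast_nonneg _
      refine (pow_le_pow_left₀ h5 h2 k).trans ?_
      have h6 : (2 : ℝ) ≤ Real.exp 1 := by
        have := Real.exp_one_gt_d9
        linarith
      refine (pow_le_pow_left₀ (by norm_num) h6 k).trans ?_
      rw [← Real.exp_nat_mul, hMdef]
      refine Real.exp_le_exp.mpr ?_
      have h7 : (0 : ℝ) ≤ k := Nat.cast_nonneg k
      have h8 : (0 : ℝ) ≤ w := Nat.cast_nonneg w
      nlinarith [mul_nonneg h7 h8]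
    have h4 : 1 / (2 * (s : ℝ) ^ k * M) * Real.log z ^ k ≤ 1 := by
      rw [div_mul_eq_mul_div, one_mul, div_le_one (by positivity)]
      have h5 : 0 < (s : ℝ) ^ k := by positivity
      have h6 : (s : ℝ) ^ k * Real.log ((y + 1 : ℕ) : ℝ) ^ k ≤ (s : ℝ) ^ k * M :=
        mul_le_mul_of_nonneg_left h3 h5.le
      have h7 : 0 < (s : ℝ) ^ k * M := by positivity
      nlinarith
    nlinarith

end Pool.Agent.H77.SV
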