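import Pool.Agent.H77.SV.Theta
import Pool.Agent.H77.SV.Bij

/-!
# Module Small (about 180 lines): bounds for the weights of Theorem W.

PROOFS. `p ∈ Pr D.w X` is a prime `> w ≥ 8 (1 + sum wt)(1 + eta)`.
`f_nonneg`, `f_le`: `0 ≤ f σ i p ≤ wt i (1 + eta) / p`. `sum_f_le`: `sum_i f σ i p ≤ (sum wt)(1+eta)/p ≤ 1/8`.
`ff_le`: for `n` squarefree: `ff σ i n = prod_{p | n} f ≤ prod 1/p^(1+σ) = n^(-1-σ)` as
`wt i (1 + eta/p) ≤ (1/2)(1 + eta/w) ≤ 1`; `ff_nonneg`.
`sum_f_prin`: `f σ i p ≤ wt i / p^(1+σ) + eta / p^2`, `sum 1/p^2 ≤ sum_{n > w} 1/n^2 ≤ 1/w` and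
`eta ≤ w`, so `sum_p f ≤ wt i (log (1/σ) + 1) + 1 ≤ wt i log (1/σ) + 2`.
`sum_f_theta`: `θ p f ≤ wt i θ p / p^(1+σ) + eta/p^2`.
`total_ff`: `sum_{n | prod Q} ff σ i n = prod_{p ∈ Q} (1 + f σ i p) ≤ exp (sum f) ≤ e^2 σ^(-wt i)`
(`euler` with `J = Unit`, or `Finset.prod_one_add`, `Nat.sum_divisors...`; the divisors of a squarefree
product of primes). `small_ff`: for real `Y ≥ 1`: `sum_{n | prod Q, n ≤ Y} ff σ i n 2^(ω n) ≤
sum_{n ≤ Y squarefree} d(n)/n ≤ (sum_{m ≤ Y} 1/m)^2 ≤ (1 + log Y)^2` (`2^(ω n) = #divisors` for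
squarefree `n`; `sum_{n ≤ Y} d(n)/n = sum_{ab ≤ Y} 1/(ab)`).
-/

set_option autoImplicit false

namespace Pool.Agent.H77.SV

open Finset Pool.Agent.H24.UM

variable {I : Type} [Fintype I] [DecidableEq I] (D : WD I)

private theorem Small_w8 : (8 : ℝ) ≤ D.w := by
  have h := D.hw
  have h1 : 0 ≤ ∑ i, D.wt i := Finset.sum_nonneg fun i _ => (D.hwt0 i).le
  have h2 := D.heta
  nlinarith [mul_nonneg h1 h2]

private theorem Small_eta : D.eta ≤ D.w := by
  have h := D.hw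
  have h1 : 0 ≤ ∑ i, D.wt i := Finset.sum_nonneg fun i _ => (D.hwt0 i).le
  have h2 := D.heta
  nlinarith [mul_nonneg h1 h2]

private theorem Small_sum : (∑ i, D.wt i) * (1 + D.eta) ≤ D.w / 8 := by
  have h := D.hw
  have h1 : 0 ≤ ∑ i, D.wt i := Finset.sum_nonneg fun i _ => (D.hwt0 i).le
  have h2 := D.heta
  nlinarith [mul_nonneg h1 h2]

private theorem Small_pge {σ : ℝ} (hσ : 0 < σ) {p : ℕ} (hp : 1 ≤ p) :
    (p : ℝ) ≤ (p : ℝ) ^ (1 + σ) := by
  have h1 : (1 : ℝ) ≤ p := by exact_mod_cast hp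
  calc (p : ℝ) = (p : ℝ) ^ (1 : ℝ) := (Real.rpow_one _).symm
    _ ≤ (p : ℝ) ^ (1 + σ) := Real.rpow_le_rpow_of_exponent_le h1 (by linarith)

private theorem Small_invsq (w X : ℕ) (hw : 1 ≤ w) :
    ∑ p ∈ Pr w X, 1 / (p : ℝ) ^ 2 ≤ 1 / (w : ℝ) := by
  have hw' : (0 : ℝ) < w := by exact_mod_cast hw
  rcases le_or_gt w X with hX | hX
  · calc ∑ p ∈ Pr w X, 1 / (p : ℝ) ^ 2 ≤ ∑ p ∈ Ioc w X, 1 / (p : ℝ) ^ 2 := by
          apply Finset.sum_le_sum_of_subset_of_nonneg (Finset.filter_subset _ _)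
          intro p _ _
          positivity
      _ = ∑ p ∈ Ioc w X, ((p : ℝ) ^ 2)⁻¹ := by simp only [one_div]
      _ ≤ (w : ℝ)⁻¹ - (X : ℝ)⁻¹ := sum_Ioc_inv_sq_le_sub (by omega) hX
      _ ≤ 1 / (w : ℝ) := by
          rw [one_div]
          have : 0 ≤ (X : ℝ)⁻¹ := by positivity
          linarith
  · have : Pr w X = ∅ := by
      rw [Pr, Finset.Ioc_eq_empty (by omega), Finset.filter_empty]
    rw [this, Finset.sum_empty]
    positivity

private theorem Small_f_split {σ : ℝ} (hσ : 0 < σ) (i : I) {p : ℕ} (hp : 1 ≤ p) (t : ℝ)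
    (ht : t ≤ 1) :
    D.f σ i p * t ≤ D.wt i * (t / (p : ℝ) ^ (1 + σ)) + D.wt i * D.eta * (1 / (p : ℝ) ^ 2) := by
  have hp' : (0 : ℝ) < p := by exact_mod_cast hp
  have hq : (0 : ℝ) < (p : ℝ) ^ (1 + σ) := Real.rpow_pos_of_pos hp' _
  have e : D.f σ i p * t = D.wt i * (t / (p : ℝ) ^ (1 + σ)) +
      D.wt i * D.eta * (t / ((p : ℝ) * (p : ℝ) ^ (1 + σ))) := by
    unfold WD.f
    field_simp
  rw [e]
  have h1 : t / ((p : ℝ) * (p : ℝ) ^ (1 + σ)) ≤ 1 / (p : ℝ) ^ 2 := by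
    calc t / ((p : ℝ) * (p : ℝ) ^ (1 + σ)) ≤ 1 / ((p : ℝ) * (p : ℝ) ^ (1 + σ)) :=
          div_le_div_of_nonneg_right ht (by positivity)
      _ ≤ 1 / (p : ℝ) ^ 2 := by
          apply one_div_le_one_div_of_le (by positivity)
          rw [sq]
          exact mul_le_mul_of_nonneg_left (Small_pge hσ hp) hp'.le
  have h2 : 0 ≤ D.wt i * D.eta := mul_nonneg (D.hwt0 i).le D.heta
  have h3 := mul_le_mul_of_nonneg_left h1 h2
  linarith

private theorem Small_etaw (i : I) : D.wt i * D.eta * (1 / (D.w : ℝ)) ≤ 1 / 2 := by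
  have h8 := Small_w8 D
  have he := Small_eta D
  have h1 : D.eta * (1 / (D.w : ℝ)) ≤ 1 := by
    rw [mul_one_div, div_le_one (by linarith)]
    exact he
  have h2 : 0 ≤ D.eta * (1 / (D.w : ℝ)) := mul_nonneg D.heta (by positivity)
  calc D.wt i * D.eta * (1 / (D.w : ℝ)) = D.wt i * (D.eta * (1 / (D.w : ℝ))) := by ring
    _ ≤ (1 / 2) * 1 := mul_le_mul (D.hwt1 i) h1 h2 (by norm_num)
    _ = 1 / 2 := by norm_num

private theorem Small_mem {w X p : ℕ} (h : p ∈ Pr w X) : w < p ∧ p.Prime := by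
  rw [Pr, Finset.mem_filter, Finset.mem_Ioc] at h
  exact ⟨h.1.1, h.2⟩

theorem WD.f_nonneg (σ : ℝ) (i : I) (p : ℕ) : 0 ≤ D.f σ i p := by
  have h1 := (D.hwt0 i).le
  have h2 := D.heta
  have h3 : 0 ≤ (p : ℝ) ^ (1 + σ) := Real.rpow_nonneg (Nat.cast_nonneg p) _
  unfold WD.f
  positivity

theorem WD.sum_f_le {σ : ℝ} (hσ : 0 < σ) {p : ℕ} (hp : p.Prime) (hpw : D.w < p) :
    ∑ i, D.f σ i p ≤ 1 / 8 := by
  have hp1 : 1 ≤ p := hp.one_le
  have hp' : (1 : ℝ) ≤ p := by exact_mod_cast hp1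
  have h8 := Small_w8 D
  have hwp : (D.w : ℝ) < p := by exact_mod_cast hpw
  have h1 : ∀ i, D.f σ i p ≤ D.wt i * (1 + D.eta) / p := by
    intro i
    unfold WD.f
    have ha : D.eta / p ≤ D.eta := div_le_self D.heta hp'
    apply div_le_div₀ (mul_nonneg (D.hwt0 i).le (by linarith [D.heta]))
      (mul_le_mul_of_nonneg_left (by linarith) (D.hwt0 i).le) (by linarith) (Small_pge hσ hp1)
  calc ∑ i, D.f σ i p ≤ ∑ i, D.wt i * (1 + D.eta) / p := Finset.sum_le_sum fun i _ => h1 i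
    _ = (∑ i, D.wt i) * (1 + D.eta) / p := by rw [Finset.sum_mul, Finset.sum_div]
    _ ≤ (D.w / 8) / p := div_le_div_of_nonneg_right (Small_sum D) (by linarith)
    _ ≤ 1 / 8 := by
        rw [div_div, div_le_div_iff₀ (by positivity) (by norm_num)]
        linarith

theorem WD.ff_nonneg (σ : ℝ) (i : I) (n : ℕ) : 0 ≤ D.ff σ i n :=
  Finset.prod_nonneg fun p _ => D.f_nonneg σ i p

theorem WD.ff_le {σ : ℝ} (hσ : 0 < σ) (i : I) {n : ℕ} (hn : Squarefree n)
    (h : ∀ p ∈ n.primeFactors, D.w < p) : D.ff σ i n ≤ (n : ℝ) ^ (-(1 + σ)) := by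
  have h8 := Small_w8 D
  have he := Small_eta D
  have h1 : ∀ p ∈ n.primeFactors, D.f σ i p ≤ (p : ℝ) ^ (-(1 + σ)) := by
    intro p hp
    have hpp := Nat.prime_of_mem_primeFactors hp
    have hwp : (D.w : ℝ) < p := by exact_mod_cast h p hp
    have hp0 : (0 : ℝ) < p := by linarith
    have hq : (0 : ℝ) < (p : ℝ) ^ (1 + σ) := Real.rpow_pos_of_pos hp0 _
    unfold WD.f
    rw [Real.rpow_neg hp0.le, ← one_div]
    apply div_le_div_of_nonneg_right _ hq.le
    have h2 : D.eta / p ≤ 1 := by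
      rw [div_le_one hp0]; linarith
    have h3 : 0 ≤ D.eta / p := div_nonneg D.heta hp0.le
    calc D.wt i * (1 + D.eta / p) ≤ (1 / 2) * 2 :=
          mul_le_mul (D.hwt1 i) (by linarith) (by linarith) (by norm_num)
      _ = 1 := by norm_num
  calc D.ff σ i n ≤ ∏ p ∈ n.primeFactors, (p : ℝ) ^ (-(1 + σ)) :=
        Finset.prod_le_prod (fun p _ => D.f_nonneg σ i p) h1
    _ = (∏ p ∈ n.primeFactors, (p : ℝ)) ^ (-(1 + σ)) :=
        Real.finsetProd_rpow _ _ (fun p _ => Nat.cast_nonneg p) _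
    _ = (n : ℝ) ^ (-(1 + σ)) := by
        rw [← Nat.cast_prod, Nat.prod_primeFactors_of_squarefree hn]

theorem WD.sum_f_prin {σ : ℝ} (hσ : 0 < σ) (hσ1 : σ ≤ 1 / 2) (i : I) (X : ℕ) :
    ∑ p ∈ Pr D.w X, D.f σ i p ≤ D.wt i * Real.log (1 / σ) + 2 := by
  have h8 := Small_w8 D
  have hw1 : 1 ≤ D.w := by
    have : (1 : ℝ) ≤ D.w := by linarith
    exact_mod_cast this
  calc ∑ p ∈ Pr D.w X, D.f σ i p
      ≤ ∑ p ∈ Pr D.w X, (D.wt i * (1 / (p : ℝ) ^ (1 + σ)) +
          D.wt i * D.eta * (1 / (p : ℝ) ^ 2)) := by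
        apply Finset.sum_le_sum
        intro p hp
        have h := Small_f_split D hσ i (Small_mem hp).2.one_le 1 le_rfl
        rwa [mul_one] at h
    _ = D.wt i * ∑ p ∈ Pr D.w X, 1 / (p : ℝ) ^ (1 + σ) +
          D.wt i * D.eta * ∑ p ∈ Pr D.w X, 1 / (p : ℝ) ^ 2 := by
        rw [Finset.sum_add_distrib, Finset.mul_sum, Finset.mul_sum]
    _ ≤ D.wt i * (Real.log (1 / σ) + 1) + D.wt i * D.eta * (1 / (D.w : ℝ)) := by
        have h1 := mul_le_mul_of_nonneg_left (sum_prin hσ hσ1 D.w X) (D.hwt0 i).le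
        have h2 := mul_le_mul_of_nonneg_left (Small_invsq D.w X hw1)
          (mul_nonneg (D.hwt0 i).le D.heta)
        linarith
    _ ≤ D.wt i * Real.log (1 / σ) + 2 := by
        have h1 := Small_etaw D i
        have h2 := D.hwt1 i
        linarith

theorem WD.sum_f_theta {θ : ℕ → ℝ} {M : ℝ} (h : RChar θ M) {σ : ℝ} (hσ : 0 < σ)
    (hσ1 : σ ≤ 1 / 2) (i : I) (X : ℕ) (hX : Real.exp (1 / σ ^ 2) ≤ X) :
    ∑ p ∈ Pr D.w X, D.f σ i p * θ p ≤
      D.wt i * Real.log (Real.log M + 3) + (D.w + 3) := by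
  have h8 := Small_w8 D
  have hw1 : 1 ≤ D.w := by
    have : (1 : ℝ) ≤ D.w := by linarith
    exact_mod_cast this
  calc ∑ p ∈ Pr D.w X, D.f σ i p * θ p
      ≤ ∑ p ∈ Pr D.w X, (D.wt i * (θ p / (p : ℝ) ^ (1 + σ)) +
          D.wt i * D.eta * (1 / (p : ℝ) ^ 2)) := by
        apply Finset.sum_le_sum
        intro p hp
        refine Small_f_split D hσ i (Small_mem hp).2.one_le (θ p) ?_
        rcases h.val p with h0 | h0 | h0 <;> rw [h0] <;> norm_num
    _ = D.wt i * ∑ p ∈ Pr D.w X, θ p / (p : ℝ) ^ (1 + σ) +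
          D.wt i * D.eta * ∑ p ∈ Pr D.w X, 1 / (p : ℝ) ^ 2 := by
        rw [Finset.sum_add_distrib, Finset.mul_sum, Finset.mul_sum]
    _ ≤ D.wt i * (Real.log (Real.log M + 3) + (D.w + 1)) +
          D.wt i * D.eta * (1 / (D.w : ℝ)) := by
        have h1 := mul_le_mul_of_nonneg_left (sum_theta h hσ hσ1 D.w X hX) (D.hwt0 i).le
        have h2 := mul_le_mul_of_nonneg_left (Small_invsq D.w X hw1)
          (mul_nonneg (D.hwt0 i).le D.heta)
        linarith
    _ ≤ D.wt i * Real.log (Real.log M + 3) + (D.w + 3) := by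
        have h1 := Small_etaw D i
        have h2 := mul_le_mul_of_nonneg_right (D.hwt1 i)
          (by linarith : (0 : ℝ) ≤ (D.w : ℝ) + 1)
        nlinarith

private theorem Small_sqf (w X : ℕ) : Squarefree (∏ p ∈ Pr w X, p) := by
  apply Finset.squarefree_prod_of_pairwise_isCoprime
  · intro p hp q hq hpq
    exact Nat.coprime_iff_isRelPrime.1
      ((Nat.coprime_primes (Small_mem hp).2 (Small_mem hq).2).2 hpq)
  · intro p hp
    exact (Small_mem hp).2.prime.squarefree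

private theorem Small_pf (w X : ℕ) : (∏ p ∈ Pr w X, p).primeFactors = Pr w X :=
  Nat.primeFactors_prod fun p hp => (Small_mem hp).2

/-- total mass -/
theorem WD.total_ff {σ : ℝ} (hσ : 0 < σ) (hσ1 : σ ≤ 1 / 2) (i : I) (X : ℕ) :
    ∑ n ∈ (∏ p ∈ Pr D.w X, p).divisors, D.ff σ i n ≤ Real.exp 2 * σ ^ (-(D.wt i)) := by
  have hm : (ArithmeticFunction.prodPrimeFactors (D.f σ i)).IsMultiplicative :=
    ArithmeticFunction.IsMultiplicative.prodPrimeFactors _
  have h := hm.prodPrimeFactors_one_add_of_squarefree (Small_sqf D.w X)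
  rw [Small_pf] at h
  have e1 : ∑ n ∈ (∏ p ∈ Pr D.w X, p).divisors, D.ff σ i n =
      ∏ p ∈ Pr D.w X, (1 + D.f σ i p) := by
    rw [Finset.sum_congr rfl (fun n hn => ?_), ← h]
    · apply Finset.prod_congr rfl
      intro p hp
      have hpp := (Small_mem hp).2
      rw [ArithmeticFunction.prodPrimeFactors_apply hpp.ne_zero, hpp.primeFactors,
        Finset.prod_singleton]
    · rw [ArithmeticFunction.prodPrimeFactors_apply (Nat.pos_of_mem_divisors hn).ne']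
      rfl
  rw [e1]
  calc ∏ p ∈ Pr D.w X, (1 + D.f σ i p) ≤ ∏ p ∈ Pr D.w X, Real.exp (D.f σ i p) := by
        apply Finset.prod_le_prod
        · intro p _
          linarith [D.f_nonneg σ i p]
        · intro p _
          linarith [Real.add_one_le_exp (D.f σ i p)]
    _ = Real.exp (∑ p ∈ Pr D.w X, D.f σ i p) := (Real.exp_sum _ _).symm
    _ ≤ Real.exp (D.wt i * Real.log (1 / σ) + 2) := Real.exp_le_exp.2 (D.sum_f_prin hσ hσ1 i X)
    _ = Real.exp 2 * σ ^ (-(D.wt i)) := by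
        rw [Real.exp_add, Real.rpow_def_of_pos hσ, one_div, Real.log_inv, mul_comm]
        congr 1
        congr 1
        ring

/-- mass of the small numbers -/
theorem WD.small_ff {σ : ℝ} (hσ : 0 < σ) (i : I) (X : ℕ) {Y : ℝ} (hY : 1 ≤ Y) :
    ∑ n ∈ (∏ p ∈ Pr D.w X, p).divisors.filter (fun n : ℕ => (n : ℝ) ≤ Y),
      D.ff σ i n * 2 ^ n.primeFactors.card ≤ (1 + Real.log Y) ^ 2 := by
  set N := ⌊Y⌋₊ with hN
  set P : Finset (ℕ × ℕ) := Icc 1 N ×ˢ Icc 1 N with hP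
  set S := (∏ p ∈ Pr D.w X, p).divisors.filter (fun n : ℕ => (n : ℝ) ≤ Y) with hS
  have hY0 : 0 ≤ Y := by linarith
  have key : ∀ n ∈ S, D.ff σ i n * 2 ^ n.primeFactors.card ≤
      ∑ x ∈ P with x.1 * x.2 = n, (1 / (x.1 : ℝ)) * (1 / (x.2 : ℝ)) := by
    intro n hn
    rw [hS, Finset.mem_filter] at hn
    obtain ⟨hd, hnY⟩ := hn
    have hn0 : 0 < n := Nat.pos_of_mem_divisors hd
    have hdv := Nat.dvd_of_mem_divisors hd
    have hsq : Squarefree n := (Small_sqf D.w X).squarefree_of_dvd hdv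
    have hpf : ∀ p ∈ n.primeFactors, D.w < p := by
      intro p hp
      have := Nat.primeFactors_mono hdv (Small_sqf D.w X).ne_zero hp
      rw [Small_pf] at this
      exact (Small_mem this).1
    have hn1 : (1 : ℝ) ≤ n := by exact_mod_cast hn0
    have hle : D.ff σ i n ≤ 1 / (n : ℝ) := by
      refine (D.ff_le hσ i hsq hpf).trans ?_
      rw [Real.rpow_neg (by linarith), ← one_div]
      exact one_div_le_one_div_of_le (by linarith) (Small_pge hσ hn0)
    have hcard : 2 ^ n.primeFactors.card ≤ n.divisors.card := by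
      rw [Nat.card_divisors hn0.ne']
      apply Finset.pow_card_le_prod
      intro p hp
      have := Nat.Prime.factorization_pos_of_dvd (Nat.prime_of_mem_primeFactors hp) hn0.ne'
        (Nat.dvd_of_mem_primeFactors hp)
      omega
    have hsub : n.divisorsAntidiagonal ⊆ P.filter (fun x => x.1 * x.2 = n) := by
      intro x hx
      have hx' := Nat.mem_divisorsAntidiagonal.1 hx
      have hnN : n ≤ N := Nat.le_floor hnY
      have h1 : 0 < x.1 := Nat.pos_of_ne_zero fun h => by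
        rw [h, zero_mul] at hx'; omega
      have h2 : 0 < x.2 := Nat.pos_of_ne_zero fun h => by
        rw [h, mul_zero] at hx'; omega
      rw [Finset.mem_filter, hP, Finset.mem_product, Finset.mem_Icc, Finset.mem_Icc]
      refine ⟨⟨⟨h1, ?_⟩, ⟨h2, ?_⟩⟩, hx'.1⟩
      · exact (Nat.le_mul_of_pos_right _ h2).trans (hx'.1.le.trans hnN)
      · exact (Nat.le_mul_of_pos_left _ h1).trans (hx'.1.le.trans hnN)
    calc D.ff σ i n * 2 ^ n.primeFactors.card ≤ (1 / (n : ℝ)) * n.divisors.card := by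
          apply mul_le_mul hle _ (by positivity) (by positivity)
          exact_mod_cast hcard
      _ = ∑ x ∈ n.divisorsAntidiagonal, (1 / (x.1 : ℝ)) * (1 / (x.2 : ℝ)) := by
          rw [Finset.sum_congr rfl (g := fun _ => 1 / (n : ℝ)) (fun x hx => ?_)]
          · rw [Finset.sum_const, nsmul_eq_mul, mul_comm]
            congr 2
            rw [← Nat.map_div_right_divisors, Finset.card_map]
          · have hx' := (Nat.mem_divisorsAntidiagonal.1 hx).1
            rw [one_div_mul_one_div, ← Nat.cast_mul, hx']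
      _ ≤ _ := Finset.sum_le_sum_of_subset_of_nonneg hsub (fun x _ _ => by positivity)
  calc ∑ n ∈ S, D.ff σ i n * 2 ^ n.primeFactors.card
      ≤ ∑ n ∈ S, ∑ x ∈ P with x.1 * x.2 = n, (1 / (x.1 : ℝ)) * (1 / (x.2 : ℝ)) :=
        Finset.sum_le_sum key
    _ ≤ ∑ x ∈ P, (1 / (x.1 : ℝ)) * (1 / (x.2 : ℝ)) := by
        apply Finset.sum_fiberwise_le_sum_of_sum_fiber_nonneg
        intro y _
        exact Finset.sum_nonneg fun x _ => by positivity
    _ = (∑ a ∈ Icc 1 N, 1 / (a : ℝ)) * (∑ b ∈ Icc 1 N, 1 / (b : ℝ)) := by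
        rw [hP, Finset.sum_product, Finset.sum_mul_sum]
    _ ≤ (1 + Real.log Y) ^ 2 := by
        have hh : ∑ a ∈ Icc 1 N, 1 / (a : ℝ) ≤ 1 + Real.log Y := by
          have := harmonic_floor_le_one_add_log Y hY
          rw [harmonic_eq_sum_Icc] at this
          push_cast at this
          simpa only [one_div] using this
        have h0 : 0 ≤ ∑ a ∈ Icc 1 N, 1 / (a : ℝ) := Finset.sum_nonneg fun a _ => by positivity
        rw [sq]
        exact mul_le_mul hh hh h0 (h0.trans hh)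

end Pool.Agent.H77.SV
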