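import Pool.Agent.H77.SV.Dyad
import Pool.Agent.H77.SV.Small

/-!
# Module Large (about 220 lines): tuples with two linked large variables.

`U` is not unlinked: there are `i₁, i₂ ∈ U` with `E i₁ i₂ ≠ E i₂ i₁`, so `i₁ ≠ i₂` and exactly one of the two
exponents is `1`; exchanging the names we may assume `E i₂ i₁ = 1`, `E i₁ i₂ = 0`: the symbol
`jac (n i₁) (n i₂) = J(n i₁ | n i₂)` occurs in the term and `J(n i₂ | n i₁)` does not.
CLAIM: for every `Y ≥ 1`:
`|sum over n ∈ tup X with (Y < n i ↔ i ∈ U) of term| ≤ C Y^(-1/8) σ^(-4 - sum wt)`.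
PROOF. Write `I' = I ∖ {i₁, i₂}`. Fix the other variables `n' = (n i)_{i ∈ I'}` (divisors of the product
of the primes in `(w, X]`, pairwise coprime, each satisfying its size condition). The sum over
`(a, b) = (n i₁, n i₂)` runs over pairs of divisors, both `> Y`, coprime to all `n'` and to each other. The
term is `prod_{i ∈ I'} ff σ i (n' i) * (constant of absolute value ≤ 1) * α a * β b * jr a b` with
`α a = ff σ i₁ a J(K i₁ | a) (symbols between a and the n' i) [a coprime to the n' i]`,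
`β b` similarly; `jr a b = J(a | b)` (`b` odd) vanishes unless `a, b` are coprime, so the condition
`gcd(a, b) = 1` may be dropped. By `ff_le`, `|α a| ≤ a^(-1-σ)` etc. `dyadic_bound` with
`S = divisors of the product` (all odd) bounds the inner sum by `C Y^(-1/8) σ^(-4)`.
Sum over `n'`: `sum_{n'} prod ff σ i (n' i) ≤ prod_{i ∈ I'} total_ff ≤ C σ^(-sum wt)` (all terms are
nonnegative, the conditions are dropped; `0 < σ ≤ 1`).
(Technically: `Fintype.piFinset` over `I`, `n = update (update n' i₁ a) i₂ b`; or use `fubini` of module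
Bij with the set `{i₁, i₂}` and then unfold the sum over `tupQ {i₁, i₂}`; or sum over
`Fintype.piFinset` with an indicator for coprimality and use `Fintype.sum_equiv` for
`(I → ℕ) ≃ ({i₁,i₂} → ℕ) × (rest → ℕ)`.)
Then with `Y = σ^(-K)`, `K = 8 (4 + ceil (sum wt))` (and one more): `Y^(-1/8) σ^(-4 - sum wt) ≤ 1`.
-/

set_option autoImplicit false

namespace Pool.Agent.H77.SV

open Finset Pool.Agent.H24.UM

variable {I : Type} [Fintype I] [DecidableEq I] (D : WD I)

/-! ### Averages over one coordinate -/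

private theorem large_avg (S : Finset ℕ) (i₀ : I) (g : (I → ℕ) → ℝ) :
    ∑ n ∈ Fintype.piFinset (fun _ : I => S), ∑ a ∈ S, g (Function.update n i₀ a) =
      (S.card : ℝ) * ∑ n ∈ Fintype.piFinset (fun _ : I => S), g n := by
  have h1 : ∑ x ∈ (Fintype.piFinset (fun _ : I => S)) ×ˢ S, g (Function.update x.1 i₀ x.2) =
      ∑ x ∈ (Fintype.piFinset (fun _ : I => S)) ×ˢ S, g x.1 := by
    have hmap : ∀ x ∈ (Fintype.piFinset (fun _ : I => S)) ×ˢ S,
        (Function.update x.1 i₀ x.2, x.1 i₀) ∈ (Fintype.piFinset (fun _ : I => S)) ×ˢ S := by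
      intro x hx
      rw [Finset.mem_product, Fintype.mem_piFinset] at hx ⊢
      refine ⟨fun j => ?_, hx.1 i₀⟩
      by_cases hj : j = i₀
      · subst hj
        simpa using hx.2
      · simpa [Function.update_of_ne hj] using hx.1 j
    have hinv : ∀ x : (I → ℕ) × ℕ,
        (Function.update (Function.update x.1 i₀ x.2) i₀ (x.1 i₀),
          (Function.update x.1 i₀ x.2) i₀) = x := by
      intro x
      rw [Function.update_idem, Function.update_eq_self, Function.update_self]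
    refine Finset.sum_nbij' (fun x => (Function.update x.1 i₀ x.2, x.1 i₀))
      (fun x => (Function.update x.1 i₀ x.2, x.1 i₀)) hmap hmap (fun x _ => hinv x)
      (fun x _ => hinv x) (fun x _ => rfl)
  rw [Finset.sum_product, Finset.sum_product] at h1
  rw [h1, Finset.mul_sum]
  refine Finset.sum_congr rfl fun n _ => ?_
  show ∑ _y ∈ S, g n = _
  rw [Finset.sum_const, nsmul_eq_mul]

private theorem large_split {i₁ i₂ : I} (h : i₁ ≠ i₂) (F : I → ℝ) :
    ∏ i, F i = F i₁ * (F i₂ * ∏ i ∈ (univ.erase i₁).erase i₂, F i) := by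
  rw [Finset.mul_prod_erase _ F (Finset.mem_erase.2 ⟨h.symm, Finset.mem_univ i₂⟩),
    Finset.mul_prod_erase _ F (Finset.mem_univ i₁)]

private theorem large_mass {i₁ i₂ : I} (h : i₁ ≠ i₂) (S : Finset ℕ) (f : I → ℕ → ℝ) :
    ∑ m ∈ Fintype.piFinset (fun _ : I => S), ∏ i ∈ (univ.erase i₁).erase i₂, f i (m i) =
      (S.card : ℝ) * ((S.card : ℝ) * ∏ i ∈ (univ.erase i₁).erase i₂, ∑ x ∈ S, f i x) := by
  set R := (univ.erase i₁).erase i₂ with hR
  have h1 : ∀ m : I → ℕ, ∏ i ∈ R, f i (m i) = ∏ i, (if i ∈ R then f i (m i) else 1) := by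
    intro m
    rw [Finset.prod_ite_mem, Finset.univ_inter]
  simp only [h1]
  rw [← Finset.prod_univ_sum (fun _ : I => S) (fun i x => if i ∈ R then f i x else 1),
    large_split h]
  have h2 : i₁ ∉ R := by simp [hR]
  have h3 : i₂ ∉ R := by simp [hR]
  simp only [h2, h3, if_false, Finset.sum_const, nsmul_eq_mul, mul_one, ← hR]
  congr 2
  refine Finset.prod_congr rfl fun i hi => ?_
  simp only [hi, if_true]

/-! ### The factors of the term -/

private theorem large_jac (a b : ℕ) : |jac a b| ≤ 1 := by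
  unfold jac
  rcases jacobiSym.trichotomy (a : ℤ) b with h | h | h <;> rw [h] <;> norm_num

private theorem large_jac' (a : ℤ) (b : ℕ) : |((jacobiSym a b : ℤ) : ℝ)| ≤ 1 := by
  rcases jacobiSym.trichotomy a b with h | h | h <;> rw [h] <;> norm_num

private theorem large_prod {J : Type} (R : Finset J) (x : J → ℝ) (h : ∀ j ∈ R, |x j| ≤ 1) :
    |∏ j ∈ R, x j| ≤ 1 := by
  rw [Finset.abs_prod]
  exact Finset.prod_le_one (fun j _ => abs_nonneg _) h

private theorem large_ite {c : Prop} [Decidable c] {x : ℝ} (h : |x| ≤ 1) :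
    |(if c then x else 1)| ≤ 1 := by
  split_ifs
  · exact h
  · simp

private noncomputable def largeC (σ : ℝ) (R : Finset I) (m : I → ℕ) : ℝ :=
  (∏ i ∈ R, (D.ff σ i (m i) * ((jacobiSym (D.K i) (m i) : ℤ) : ℝ))) *
    ∏ i ∈ R, ∏ j ∈ R, (if D.E i j = 1 then jac (m j) (m i) else 1)

private noncomputable def largeV (σ : ℝ) (R : Finset I) (m : I → ℕ) (i₀ : I) (a : ℕ) : ℝ :=
  D.ff σ i₀ a * ((jacobiSym (D.K i₀) a : ℤ) : ℝ) *
    ((∏ j ∈ R, (if D.E i₀ j = 1 then jac (m j) a else 1)) *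
      ∏ j ∈ R, (if D.E j i₀ = 1 then jac a (m j) else 1))

private theorem largeC_le (σ : ℝ) (R : Finset I) (m : I → ℕ) :
    |largeC D σ R m| ≤ ∏ i ∈ R, D.ff σ i (m i) := by
  unfold largeC
  rw [abs_mul]
  have h1 : |∏ i ∈ R, ∏ j ∈ R, (if D.E i j = 1 then jac (m j) (m i) else 1)| ≤ 1 :=
    large_prod _ _ fun i _ => large_prod _ _ fun j _ => large_ite (large_jac _ _)
  have h2 : |∏ i ∈ R, (D.ff σ i (m i) * ((jacobiSym (D.K i) (m i) : ℤ) : ℝ))| ≤
      ∏ i ∈ R, D.ff σ i (m i) := by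
    rw [Finset.abs_prod]
    refine Finset.prod_le_prod (fun i _ => abs_nonneg _) fun i _ => ?_
    rw [abs_mul, abs_of_nonneg (D.ff_nonneg σ i (m i))]
    exact mul_le_of_le_one_right (D.ff_nonneg σ i (m i)) (large_jac' _ _)
  calc _ ≤ (∏ i ∈ R, D.ff σ i (m i)) * 1 :=
        mul_le_mul h2 h1 (abs_nonneg _) (Finset.prod_nonneg fun i _ => D.ff_nonneg σ i (m i))
    _ = _ := mul_one _

private theorem largeV_le (σ : ℝ) (R : Finset I) (m : I → ℕ) (i₀ : I) (a : ℕ) :
    |largeV D σ R m i₀ a| ≤ D.ff σ i₀ a := by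
  unfold largeV
  have h0 := D.ff_nonneg σ i₀ a
  rw [abs_mul, abs_mul, abs_mul, abs_of_nonneg h0]
  have h1 : |∏ j ∈ R, (if D.E i₀ j = 1 then jac (m j) a else 1)| ≤ 1 :=
    large_prod _ _ fun j _ => large_ite (large_jac _ _)
  have h2 : |∏ j ∈ R, (if D.E j i₀ = 1 then jac a (m j) else 1)| ≤ 1 :=
    large_prod _ _ fun j _ => large_ite (large_jac _ _)
  have h3 := large_jac' (D.K i₀) a
  have h4 : |∏ j ∈ R, (if D.E i₀ j = 1 then jac (m j) a else 1)| *
      |∏ j ∈ R, (if D.E j i₀ = 1 then jac a (m j) else 1)| ≤ 1 :=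
    mul_le_one₀ h1 (abs_nonneg _) h2
  calc _ ≤ (D.ff σ i₀ a * 1) * 1 := by
        refine mul_le_mul (mul_le_mul_of_nonneg_left h3 h0) h4
          (mul_nonneg (abs_nonneg _) (abs_nonneg _)) (by simpa using h0)
    _ = _ := by ring

private theorem large_term {i₁ i₂ : I} (h : i₁ ≠ i₂) (h21 : D.E i₂ i₁ = 1) (h12 : D.E i₁ i₂ ≠ 1)
    (σ : ℝ) (m N : I → ℕ) (a b : ℕ) (hN1 : N i₁ = a) (hN2 : N i₂ = b)
    (hNR : ∀ i ∈ (univ.erase i₁).erase i₂, N i = m i) :
    D.term σ N = largeC D σ ((univ.erase i₁).erase i₂) m *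
      (largeV D σ ((univ.erase i₁).erase i₂) m i₁ a *
        largeV D σ ((univ.erase i₁).erase i₂) m i₂ b * jac a b) := by
  set R := (univ.erase i₁).erase i₂ with hR
  have e1 : ∏ i, (D.ff σ i (N i) * ((jacobiSym (D.K i) (N i) : ℤ) : ℝ)) =
      (D.ff σ i₁ a * ((jacobiSym (D.K i₁) a : ℤ) : ℝ)) *
        ((D.ff σ i₂ b * ((jacobiSym (D.K i₂) b : ℤ) : ℝ)) *
          ∏ i ∈ R, (D.ff σ i (m i) * ((jacobiSym (D.K i) (m i) : ℤ) : ℝ))) := by
    rw [large_split h, hN1, hN2]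
    congr 2
    refine Finset.prod_congr rfl fun i hi => ?_
    rw [hNR i hi]
  have hE1 : D.E i₁ i₁ ≠ 1 := by rw [D.hE]; decide
  have hE2 : D.E i₂ i₂ ≠ 1 := by rw [D.hE]; decide
  have e2 : ∏ j, (if D.E i₁ j = 1 then jac (N j) (N i₁) else 1) =
      ∏ j ∈ R, (if D.E i₁ j = 1 then jac (m j) a else 1) := by
    rw [large_split h, if_neg hE1, if_neg h12, one_mul, one_mul, hN1]
    refine Finset.prod_congr rfl fun i hi => ?_
    rw [hNR i hi]
  have e3 : ∏ j, (if D.E i₂ j = 1 then jac (N j) (N i₂) else 1) =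
      jac a b * ∏ j ∈ R, (if D.E i₂ j = 1 then jac (m j) b else 1) := by
    rw [large_split h, if_pos h21, if_neg hE2, one_mul, hN1, hN2]
    congr 1
    refine Finset.prod_congr rfl fun i hi => ?_
    rw [hNR i hi]
  have e4 : ∏ i ∈ R, ∏ j, (if D.E i j = 1 then jac (N j) (N i) else 1) =
      (∏ i ∈ R, (if D.E i i₁ = 1 then jac a (m i) else 1)) *
        ((∏ i ∈ R, (if D.E i i₂ = 1 then jac b (m i) else 1)) *
          ∏ i ∈ R, ∏ j ∈ R, (if D.E i j = 1 then jac (m j) (m i) else 1)) := by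
    rw [← Finset.prod_mul_distrib, ← Finset.prod_mul_distrib]
    refine Finset.prod_congr rfl fun i hi => ?_
    rw [large_split h, hN1, hN2, hNR i hi]
    congr 2
    refine Finset.prod_congr rfl fun j hj => ?_
    rw [hNR j hj]
  unfold WD.term
  rw [e1, large_split h (fun i => ∏ j, (if D.E i j = 1 then jac (N j) (N i) else 1)), e2, e3, e4]
  unfold largeC largeV
  ring

/-! ### The divisors -/

private theorem large_div {X : ℕ} {x : ℕ} (hx : x ∈ (∏ p ∈ Pr D.w X, p).divisors) :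
    x ≠ 0 ∧ Squarefree x ∧ (∀ p ∈ x.primeFactors, D.w < p) ∧ Odd x := by
  have hQ : ∀ p ∈ Pr D.w X, p.Prime := fun p hp => (Finset.mem_filter.1 hp).2
  have h1 : (fun _ : Unit => x) ∈ tupQ Unit (Pr D.w X) := by
    unfold tupQ
    rw [Finset.mem_filter, Fintype.mem_piFinset]
    exact ⟨fun _ => hx, fun i j hij => absurd (Subsingleton.elim i j) hij⟩
  obtain ⟨h2, h3, h4⟩ := (mem_tupQ hQ h1).1 ()
  have h5 : ∀ p ∈ x.primeFactors, D.w < p := by
    intro p hp
    have h6 := Finset.mem_filter.1 (h4 p hp)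
    exact (Finset.mem_Ioc.1 h6.1).1
  refine ⟨h2, h3, h5, ?_⟩
  rw [← Nat.not_even_iff_odd]
  intro hev
  have h7 : 2 ∈ x.primeFactors :=
    Nat.mem_primeFactors.2 ⟨Nat.prime_two, hev.two_dvd, h2⟩
  have h8 := h5 2 h7
  have h9 := D.hw
  have h10 : (0 : ℝ) ≤ ∑ i, D.wt i := Finset.sum_nonneg fun i _ => (D.hwt0 i).le
  have h11 := D.heta
  have h12 : (8 : ℝ) ≤ D.w := by nlinarith [mul_nonneg h10 h11]
  have h13 : (D.w : ℝ) < 2 := by exact_mod_cast h8
  linarith

/-! ### The sum over the two large variables -/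

open Classical in
private theorem large_inner {i₁ i₂ : I} (h : i₁ ≠ i₂) (h21 : D.E i₂ i₁ = 1)
    (h12 : D.E i₁ i₂ ≠ 1) (U : Finset I) (hi1 : i₁ ∈ U) (hi2 : i₂ ∈ U) {C₀ : ℝ}
    {σ : ℝ} (hσ : 0 < σ) (Y : ℝ)
    (hdy : ∀ (S : Finset ℕ) (α β : ℕ → ℝ), (∀ n ∈ S, Odd n) →
      (∀ n ∈ S, |α n| ≤ (n : ℝ) ^ (-(1 + σ))) → (∀ n ∈ S, |β n| ≤ (n : ℝ) ^ (-(1 + σ))) →
      |∑ i ∈ S.filter (fun n : ℕ => Y < (n : ℝ)), ∑ j ∈ S.filter (fun n : ℕ => Y < (n : ℝ)),
        α i * β j * jr (i : ℤ) j| ≤ C₀) (X : ℕ) (m : I → ℕ) :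
    |∑ a ∈ (∏ p ∈ Pr D.w X, p).divisors, ∑ b ∈ (∏ p ∈ Pr D.w X, p).divisors,
      (fun N : I → ℕ => if (∀ i j, i ≠ j → (N i).Coprime (N j)) ∧
        (∀ i, (Y < (N i : ℝ) ↔ i ∈ U)) then D.term σ N else 0)
        (Function.update (Function.update m i₁ a) i₂ b)| ≤
      (∏ i ∈ (univ.erase i₁).erase i₂, D.ff σ i (m i)) * C₀ := by
  set R := (univ.erase i₁).erase i₂ with hR
  set S := (∏ p ∈ Pr D.w X, p).divisors with hS
  have hcase : ∀ i : I, i = i₁ ∨ i = i₂ ∨ i ∈ R := by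
    intro i
    by_cases h1 : i = i₁
    · exact Or.inl h1
    · by_cases h2 : i = i₂
      · exact Or.inr (Or.inl h2)
      · exact Or.inr (Or.inr (by simp [hR, h1, h2]))
  set cm : Prop := (∀ i ∈ R, ∀ j ∈ R, i ≠ j → (m i).Coprime (m j)) ∧
    (∀ i ∈ R, (Y < (m i : ℝ) ↔ i ∈ U)) with hcm
  set va : ℕ → Prop := fun a => Y < (a : ℝ) ∧ ∀ j ∈ R, a.Coprime (m j) with hva
  have hpt : ∀ a ∈ S, ∀ b ∈ S,
      (fun N : I → ℕ => if (∀ i j, i ≠ j → (N i).Coprime (N j)) ∧
        (∀ i, (Y < (N i : ℝ) ↔ i ∈ U)) then D.term σ N else 0)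
        (Function.update (Function.update m i₁ a) i₂ b) =
      (if cm then largeC D σ R m else 0) * ((if va a then largeV D σ R m i₁ a else 0) *
        (if va b then largeV D σ R m i₂ b else 0) * jr (a : ℤ) b) := by
    intro a ha b hb
    set N := Function.update (Function.update m i₁ a) i₂ b with hN
    have hN1 : N i₁ = a := by
      rw [hN, Function.update_of_ne h, Function.update_self]
    have hN2 : N i₂ = b := by rw [hN, Function.update_self]
    have hNR : ∀ i ∈ R, N i = m i := by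
      intro i hi
      have h1 : i ≠ i₂ := Finset.ne_of_mem_erase hi
      have h2 : i ≠ i₁ := Finset.ne_of_mem_erase (Finset.mem_of_mem_erase hi)
      rw [hN, Function.update_of_ne h1, Function.update_of_ne h2]
    have hR1 : ∀ i ∈ R, i ≠ i₁ := fun i hi =>
      Finset.ne_of_mem_erase (Finset.mem_of_mem_erase hi)
    have hR2 : ∀ i ∈ R, i ≠ i₂ := fun i hi => Finset.ne_of_mem_erase hi
    obtain ⟨hb0, -, -, hbo⟩ := large_div D hb
    have hjr : jr (a : ℤ) b = jac a b := by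
      unfold jr jc jac
      rw [if_pos hbo]
    have hiff : ((∀ i j, i ≠ j → (N i).Coprime (N j)) ∧ (∀ i, (Y < (N i : ℝ) ↔ i ∈ U))) ↔
        (cm ∧ va a ∧ va b ∧ a.Coprime b) := by
      constructor
      · rintro ⟨h1, h2⟩
        refine ⟨⟨fun i hi j hj hij => ?_, fun i hi => ?_⟩, ⟨?_, fun j hj => ?_⟩,
          ⟨?_, fun j hj => ?_⟩, ?_⟩
        · rw [← hNR i hi, ← hNR j hj]; exact h1 i j hij
        · rw [← hNR i hi]; exact h2 i
        · rw [← hN1]; exact (h2 i₁).2 hi1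
        · rw [← hN1, ← hNR j hj]; exact h1 i₁ j (hR1 j hj).symm
        · rw [← hN2]; exact (h2 i₂).2 hi2
        · rw [← hN2, ← hNR j hj]; exact h1 i₂ j (hR2 j hj).symm
        · rw [← hN1, ← hN2]; exact h1 i₁ i₂ h
      · rintro ⟨⟨h1, h2⟩, ⟨h3, h4⟩, ⟨h5, h6⟩, h7⟩
        refine ⟨fun i j hij => ?_, fun i => ?_⟩
        · rcases hcase i with hi | hi | hi <;> rcases hcase j with hj | hj | hj
          · exact absurd (hi.trans hj.symm) hij
          · rw [hi, hj, hN1, hN2]; exact h7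
          · rw [hi, hN1, hNR j hj]; exact h4 j hj
          · rw [hi, hj, hN1, hN2]; exact h7.symm
          · exact absurd (hi.trans hj.symm) hij
          · rw [hi, hN2, hNR j hj]; exact h6 j hj
          · rw [hj, hN1, hNR i hi]; exact (h4 i hi).symm
          · rw [hj, hN2, hNR i hi]; exact (h6 i hi).symm
          · rw [hNR i hi, hNR j hj]; exact h1 i hi j hj hij
        · rcases hcase i with hi | hi | hi
          · rw [hi, hN1]; exact ⟨fun _ => hi1, fun _ => h3⟩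
          · rw [hi, hN2]; exact ⟨fun _ => hi2, fun _ => h5⟩
          · rw [hNR i hi]; exact h2 i hi
    show (if (∀ i j, i ≠ j → (N i).Coprime (N j)) ∧
        (∀ i, (Y < (N i : ℝ) ↔ i ∈ U)) then D.term σ N else 0) = _
    rw [hjr]
    by_cases hP : (∀ i j, i ≠ j → (N i).Coprime (N j)) ∧ (∀ i, (Y < (N i : ℝ) ↔ i ∈ U))
    · obtain ⟨k1, k2, k3, -⟩ := hiff.1 hP
      rw [if_pos hP, if_pos k1, if_pos k2, if_pos k3]
      exact large_term D h h21 h12 σ m N a b hN1 hN2 hNR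
    · rw [if_neg hP]
      by_cases k1 : cm
      · by_cases k2 : va a
        · by_cases k3 : va b
          · have k4 : ¬ a.Coprime b := fun k4 => hP (hiff.2 ⟨k1, k2, k3, k4⟩)
            have k5 : jac a b = 0 := by
              unfold jac
              have : NeZero b := ⟨hb0⟩
              have h1 : jacobiSym (a : ℤ) b = 0 := by
                rw [jacobiSym.eq_zero_iff_not_coprime]
                simpa [Int.gcd_natCast_natCast, Nat.Coprime] using k4
              rw [h1]; norm_num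
            rw [k5]; ring
          · rw [if_neg k3]; ring
        · rw [if_neg k2]; ring
      · rw [if_neg k1]; ring
  have hsum : ∑ a ∈ S, ∑ b ∈ S,
      (fun N : I → ℕ => if (∀ i j, i ≠ j → (N i).Coprime (N j)) ∧
        (∀ i, (Y < (N i : ℝ) ↔ i ∈ U)) then D.term σ N else 0)
        (Function.update (Function.update m i₁ a) i₂ b) =
      (if cm then largeC D σ R m else 0) *
        ∑ a ∈ S.filter (fun n : ℕ => Y < (n : ℝ)), ∑ b ∈ S.filter (fun n : ℕ => Y < (n : ℝ)),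
          (if va a then largeV D σ R m i₁ a else 0) *
            (if va b then largeV D σ R m i₂ b else 0) * jr (a : ℤ) b := by
    rw [Finset.sum_congr rfl fun a ha => Finset.sum_congr rfl fun b hb => hpt a ha b hb]
    simp only [← Finset.mul_sum]
    congr 1
    symm
    have hfil : ∀ F : ℕ → ℝ, (∀ a : ℕ, ¬ Y < (a : ℝ) → F a = 0) →
        ∑ a ∈ S.filter (fun n : ℕ => Y < (n : ℝ)), F a = ∑ a ∈ S, F a := by
      intro F hF
      refine Finset.sum_subset (Finset.filter_subset _ _) fun a ha ha' => hF a fun hY => ha' ?_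
      exact Finset.mem_filter.2 ⟨ha, hY⟩
    rw [hfil]
    · refine Finset.sum_congr rfl fun a _ => ?_
      refine hfil _ fun b hb => ?_
      rw [if_neg (fun k : va b => hb k.1)]; ring
    · intro a ha
      refine Finset.sum_eq_zero fun b _ => ?_
      rw [if_neg (fun k : va a => ha k.1)]; ring
  rw [hsum, abs_mul]
  have hC : |(if cm then largeC D σ R m else 0)| ≤ ∏ i ∈ R, D.ff σ i (m i) := by
    split_ifs
    · exact largeC_le D σ R m
    · rw [abs_zero]
      exact Finset.prod_nonneg fun i _ => D.ff_nonneg σ i (m i)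
  have hV : ∀ i₀ : I, ∀ n ∈ S, |(if va n then largeV D σ R m i₀ n else 0)| ≤
      (n : ℝ) ^ (-(1 + σ)) := by
    intro i₀ n hn
    obtain ⟨h1, h2, h3, -⟩ := large_div D hn
    have h4 := D.ff_le hσ i₀ h2 h3
    split_ifs
    · exact (largeV_le D σ R m i₀ n).trans h4
    · rw [abs_zero]
      exact (D.ff_nonneg σ i₀ n).trans h4
  refine mul_le_mul hC ?_ (abs_nonneg _) (Finset.prod_nonneg fun i _ => D.ff_nonneg σ i (m i))
  exact hdy S (fun a => if va a then largeV D σ R m i₁ a else 0)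
    (fun b => if va b then largeV D σ R m i₂ b else 0) (fun n hn => (large_div D hn).2.2.2)
    (hV i₁) (hV i₂)

open Classical in
private theorem large_pair {i₁ i₂ : I} (h : i₁ ≠ i₂) (h21 : D.E i₂ i₁ = 1)
    (h12 : D.E i₁ i₂ ≠ 1) (U : Finset I) (hi1 : i₁ ∈ U) (hi2 : i₂ ∈ U) {C₀ : ℝ} (hC₀ : 0 ≤ C₀)
    {σ : ℝ} (hσ : 0 < σ) (hσ1 : σ ≤ 1 / 2) (Y : ℝ)
    (hdy : ∀ (S : Finset ℕ) (α β : ℕ → ℝ), (∀ n ∈ S, Odd n) →
      (∀ n ∈ S, |α n| ≤ (n : ℝ) ^ (-(1 + σ))) → (∀ n ∈ S, |β n| ≤ (n : ℝ) ^ (-(1 + σ))) →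
      |∑ i ∈ S.filter (fun n : ℕ => Y < (n : ℝ)), ∑ j ∈ S.filter (fun n : ℕ => Y < (n : ℝ)),
        α i * β j * jr (i : ℤ) j| ≤ C₀) (X : ℕ) :
    |∑ n ∈ (D.tup X).filter (fun n => ∀ i, (Y < (n i : ℝ) ↔ i ∈ U)), D.term σ n| ≤
      (Real.exp 2 * σ⁻¹) ^ Fintype.card I * C₀ := by
  set S := (∏ p ∈ Pr D.w X, p).divisors with hS
  set g : (I → ℕ) → ℝ := fun N => if (∀ i j, i ≠ j → (N i).Coprime (N j)) ∧
        (∀ i, (Y < (N i : ℝ) ↔ i ∈ U)) then D.term σ N else 0 with hg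
  have h1 : ∑ n ∈ (D.tup X).filter (fun n => ∀ i, (Y < (n i : ℝ) ↔ i ∈ U)), D.term σ n =
      ∑ n ∈ Fintype.piFinset (fun _ : I => S), g n := by
    unfold WD.tup tupQ
    rw [Finset.filter_filter, Finset.sum_filter]
  rw [h1]
  have hcard : 0 < (S.card : ℝ) := by
    have h2 : 1 ∈ S := by
      rw [hS, Nat.mem_divisors]
      refine ⟨one_dvd _, ?_⟩
      rw [Finset.prod_ne_zero_iff]
      intro p hp
      exact (Finset.mem_filter.1 hp).2.ne_zero
    exact_mod_cast Finset.card_pos.2 ⟨1, h2⟩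
  have h2 : (S.card : ℝ) * ((S.card : ℝ) * ∑ n ∈ Fintype.piFinset (fun _ : I => S), g n) =
      ∑ m ∈ Fintype.piFinset (fun _ : I => S), ∑ a ∈ S, ∑ b ∈ S,
        g (Function.update (Function.update m i₁ a) i₂ b) := by
    rw [← large_avg S i₂ g, ← large_avg S i₁ (fun n => ∑ b ∈ S, g (Function.update n i₂ b))]
  have h3 : |∑ m ∈ Fintype.piFinset (fun _ : I => S), ∑ a ∈ S, ∑ b ∈ S,
        g (Function.update (Function.update m i₁ a) i₂ b)| ≤
      (S.card : ℝ) * ((S.card : ℝ) * ((Real.exp 2 * σ⁻¹) ^ Fintype.card I * C₀)) := by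
    calc _ ≤ ∑ m ∈ Fintype.piFinset (fun _ : I => S),
          |∑ a ∈ S, ∑ b ∈ S, g (Function.update (Function.update m i₁ a) i₂ b)| :=
        Finset.abs_sum_le_sum_abs _ _
      _ ≤ ∑ m ∈ Fintype.piFinset (fun _ : I => S),
          (∏ i ∈ (univ.erase i₁).erase i₂, D.ff σ i (m i)) * C₀ :=
        Finset.sum_le_sum fun m _ =>
          large_inner D h h21 h12 U hi1 hi2 hσ Y hdy X m
      _ = ((S.card : ℝ) * ((S.card : ℝ) *
          ∏ i ∈ (univ.erase i₁).erase i₂, ∑ x ∈ S, D.ff σ i x)) * C₀ := by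
        rw [← Finset.sum_mul, large_mass h S (fun i x => D.ff σ i x)]
      _ = (S.card : ℝ) * ((S.card : ℝ) *
          ((∏ i ∈ (univ.erase i₁).erase i₂, ∑ x ∈ S, D.ff σ i x) * C₀)) := by ring
      _ ≤ _ := by
        refine mul_le_mul_of_nonneg_left (mul_le_mul_of_nonneg_left
          (mul_le_mul_of_nonneg_right ?_ hC₀) hcard.le) hcard.le
        have hb1 : (1 : ℝ) ≤ Real.exp 2 * σ⁻¹ := by
          have h4 : (1 : ℝ) ≤ Real.exp 2 := Real.one_le_exp (by norm_num)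
          have h5 : (1 : ℝ) ≤ σ⁻¹ := (one_le_inv₀ hσ).2 (by linarith)
          nlinarith
        calc ∏ i ∈ (univ.erase i₁).erase i₂, ∑ x ∈ S, D.ff σ i x ≤
            ∏ _i ∈ (univ.erase i₁).erase i₂, (Real.exp 2 * σ⁻¹) := by
              refine Finset.prod_le_prod
                (fun i _ => Finset.sum_nonneg fun x _ => D.ff_nonneg σ i x) fun i _ => ?_
              refine (D.total_ff hσ hσ1 i X).trans ?_
              refine mul_le_mul_of_nonneg_left ?_ (Real.exp_pos 2).le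
              rw [← Real.rpow_neg_one σ]
              refine Real.rpow_le_rpow_of_exponent_ge hσ (by linarith) ?_
              have := D.hwt1 i
              linarith
          _ = (Real.exp 2 * σ⁻¹) ^ ((univ.erase i₁).erase i₂).card := by
              rw [Finset.prod_const]
          _ ≤ (Real.exp 2 * σ⁻¹) ^ Fintype.card I := by
              refine pow_le_pow_right₀ hb1 ?_
              rw [← Finset.card_univ]
              exact Finset.card_le_card ((Finset.erase_subset _ _).trans (Finset.erase_subset _ _))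
  rw [← h2, abs_mul, abs_mul, abs_of_pos hcard] at h3
  exact le_of_mul_le_mul_left (le_of_mul_le_mul_left h3 hcard) hcard

open Classical in
theorem WD.large_bound : ∃ (K : ℕ) (C : ℝ), ∀ (U : Finset I), ¬ D.Unl U →
    ∀ σ : ℝ, 0 < σ → σ ≤ 1 / 2 → ∀ X : ℕ,
      |∑ n ∈ (D.tup X).filter (fun n => ∀ i, (σ ^ (-(K : ℝ)) < (n i : ℝ) ↔ i ∈ U)),
        D.term σ n| ≤ C := by
  obtain ⟨C₀, hC₀, hdy⟩ := dyadic_bound
  refine ⟨8 * (4 + Fintype.card I), Real.exp 2 ^ Fintype.card I * C₀, fun U hU σ hσ hσ1 X => ?_⟩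
  set Y : ℝ := σ ^ (-((8 * (4 + Fintype.card I) : ℕ) : ℝ)) with hY
  have hY1 : 1 ≤ Y := by
    refine Real.one_le_rpow_of_pos_of_le_one_of_nonpos hσ (by linarith) ?_
    rw [neg_nonpos]
    exact Nat.cast_nonneg _
  set B : ℝ := C₀ * Y ^ (-(1 / 8) : ℝ) * σ ^ (-(4 : ℝ)) with hB
  have hBv : B = C₀ * σ ^ (Fintype.card I : ℝ) := by
    rw [hB, hY, ← Real.rpow_mul hσ.le, mul_assoc, ← Real.rpow_add hσ]
    congr 2
    push_cast
    ring
  have hB0 : 0 ≤ B := by
    rw [hBv]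
    exact mul_nonneg hC₀.le (Real.rpow_nonneg hσ.le _)
  have hfin : (Real.exp 2 * σ⁻¹) ^ Fintype.card I * B = Real.exp 2 ^ Fintype.card I * C₀ := by
    rw [hBv, Real.rpow_natCast, mul_pow, inv_pow]
    have : σ ^ Fintype.card I ≠ 0 := pow_ne_zero _ hσ.ne'
    field_simp
  have hdy' := hdy σ hσ hσ1 Y hY1
  unfold WD.Unl at hU
  push Not at hU
  obtain ⟨i, hi, j, hj, hij⟩ := hU
  have hne : i ≠ j := fun h => hij (by rw [h])
  have hz : ∀ x y : ZMod 2, x ≠ y → (y = 1 ∧ x ≠ 1) ∨ (x = 1 ∧ y ≠ 1) := by decide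
  rw [← hfin]
  rcases hz _ _ hij with ⟨h1, h2⟩ | ⟨h1, h2⟩
  · exact large_pair D hne h1 h2 U hi hj hB0 hσ hσ1 Y hdy' X
  · exact large_pair D hne.symm h1 h2 U hj hi hB0 hσ hσ1 Y hdy' X

end Pool.Agent.H77.SV
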