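import Pool.Agent.H77.SV.Crt
import Pool.Agent.H77.SV.Geo

/-!
# Module Latt (about 220 lines): pairs in the box with `d | P(m, n)` in a residue class.

PROOF of `box_class`: the number of integers in `[-T, T]` congruent to `a` mod `M` is
`(2T+1)/M + θ`, `|θ| ≤ 1` (`Int.Ioc_filter_modEq_card` or `Int.count_modEq_card`, floors).
So for pairs in one class mod `M` with `M ≤ T`: `u = (2T+1)/M`, the count `N = (u + θ)(u + θ')` satisfies
`|N - u^2| ≤ 2u + 1 ≤ 8 T/M` (`2T + 1 ≤ 3T`, `1 ≤ T/M`).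
PROOF of `lattice`. `d` squarefree, product of the primes of a set `Q` (all `> w`), coprime to `q`, `d q ≤ T`.
`d | P(m,n)` iff `(m, n)` mod `d` lies in the set `C` of classes `(x, y) ∈ [0, d)^2` with `d | P(x,y)`, i.e.
`p | P(x, y)` for all `p ∈ Q`. By `crt2` (`e = 1`) `#C = prod_{p ∈ Q} rho F p`, `rho F p ≤ p^2`. For every class
in `C` the pair of conditions mod `q` and mod `d` is one class mod `dq` (CRT), so the number of
`(m,n)` is `((2T+1)/(dq))^2 + O(8 T/(dq))`. Sum over `C`: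
`#C (2T+1)^2/(dq)^2 + O(#C 8T/(dq))`, `#C ≤ d^2`.
PROOF of `rho_bounds`. For `p > w`: `{(x, y) ∈ [0,p)^2 : p | P(x,y)}` is the union of the `k` lines
`p | l_i(x,y)`, each has exactly `p` elements (`p ∤ r_i` or `p ∤ s_i`), two different lines meet only in
`(0,0)` (`unique_idx`). So `k (p-1) + 1 ≤ rho` (in fact equality) and `rho ≤ k (p - 1) + 1`.
Then with `ν p = rho/p^2`: `0 < ν p < 1` (`p > k`) and `ν/(1-ν) = rho/(p^2 - rho) ≥ k/p`: it is
`(k(p-1)+1)/((p-1)(p-k+1)) ≥ k/(p-k+1) ≥ k/p`.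
-/

set_option autoImplicit false

namespace Pool.Agent.H77.SV

open Finset

variable {k : ℕ}

/-- number of pairs mod `p` with `p | P(x, y)` -/
noncomputable def rho (F : Fam k) (p : ℕ) : ℕ :=
  ((Ico (0 : ℤ) p ×ˢ Ico (0 : ℤ) p).filter fun x => (p : ℤ) ∣ F.P x.1 x.2).card

theorem box_class (T M : ℕ) (hM : 1 ≤ M) (a : ℤ) :
    |(((Icc (-(T : ℤ)) T).filter fun m => m ≡ a [ZMOD M]).card : ℝ) - (2 * T + 1) / M| ≤ 1 := by
  have h1 : Icc (-(T : ℤ)) T = Ioc (-(T : ℤ) - 1) T := by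
    ext x
    simp only [Finset.mem_Icc, Finset.mem_Ioc]
    omega
  have hM' : (0 : ℤ) < M := by omega
  have h2 := Int.Ioc_filter_modEq_card (-(T : ℤ) - 1) T hM' a
  rw [← h1] at h2
  set N := #{x ∈ Icc (-(T : ℤ)) T | x ≡ a [ZMOD M]} with hN
  have hMq : (0 : ℚ) < ((M : ℤ) : ℚ) := by exact_mod_cast hM'
  set u : ℚ := (((T : ℤ) : ℚ) - a) / ((M : ℤ) : ℚ) with hu
  set v : ℚ := ((((-(T : ℤ) - 1 : ℤ)) : ℚ) - a) / ((M : ℤ) : ℚ) with hv
  have huv : u - v = (2 * T + 1) / M := by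
    rw [hu, hv]
    push_cast
    field_simp
    ring
  have huv0 : v ≤ u := by
    have : (0 : ℚ) ≤ (2 * T + 1) / M := by positivity
    linarith
  have hfl : ⌊v⌋ ≤ ⌊u⌋ := Int.floor_le_floor huv0
  rw [max_eq_left (by omega)] at h2
  have h3 : (N : ℚ) = (⌊u⌋ : ℚ) - (⌊v⌋ : ℚ) := by
    have : ((N : ℤ) : ℚ) = ((⌊u⌋ - ⌊v⌋ : ℤ) : ℚ) := by rw [h2]
    push_cast at this
    exact this
  have h4 : |(N : ℚ) - (2 * T + 1) / M| ≤ 1 := by
    rw [← huv, h3, abs_le]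
    have := Int.floor_le u
    have := Int.lt_floor_add_one u
    have := Int.floor_le v
    have := Int.lt_floor_add_one v
    constructor <;> linarith
  have h5 : ((|(N : ℚ) - (2 * T + 1) / M| : ℚ) : ℝ) ≤ ((1 : ℚ) : ℝ) := Rat.cast_le.mpr h4
  push_cast at h5
  exact h5

private lemma la_line {p : ℕ} (hp : p.Prime) (r s : ℤ) (hr : ¬ (p : ℤ) ∣ r) :
    ((Ico (0 : ℤ) p ×ˢ Ico (0 : ℤ) p).filter fun x => (p : ℤ) ∣ r * x.1 + s * x.2).card = p := by
  have hp0 : (0 : ℤ) < p := by exact_mod_cast hp.pos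
  have hpp : Prime (p : ℤ) := Nat.prime_iff_prime_int.mp hp
  have hcop : IsCoprime r (p : ℤ) := ((Prime.coprime_iff_not_dvd hpp).mpr hr).symm
  obtain ⟨u, v, huv⟩ := hcop
  have h1 : ((Ico (0 : ℤ) p ×ˢ Ico (0 : ℤ) p).filter fun x => (p : ℤ) ∣ r * x.1 + s * x.2).card =
      (Ico (0 : ℤ) p).card := by
    refine Finset.card_bij (fun x _ => x.2) ?_ ?_ ?_
    · intro x hx
      exact (Finset.mem_product.mp (Finset.mem_filter.mp hx).1).2
    · rintro ⟨x, y⟩ hx ⟨x', y'⟩ hx' hyy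
      simp only at hyy
      subst hyy
      rw [Finset.mem_filter, Finset.mem_product] at hx hx'
      simp only [Finset.mem_Ico] at hx hx'
      have h2 : (p : ℤ) ∣ r * (x - x') := by
        have := dvd_sub hx.2 hx'.2
        have e : r * (x - x') = r * x + s * y - (r * x' + s * y) := by ring
        rw [e]
        exact this
      have h3 : (p : ℤ) ∣ x - x' := (hpp.dvd_or_dvd h2).resolve_left hr
      have h4 : x - x' = 0 := Int.eq_zero_of_abs_lt_dvd h3 (by rw [abs_lt]; omega)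
      have h5 : x = x' := by omega
      rw [h5]
    · intro y hy
      refine ⟨((-(u * (s * y))) % p, y), ?_, rfl⟩
      rw [Finset.mem_filter, Finset.mem_product]
      refine ⟨⟨Finset.mem_Ico.mpr ⟨Int.emod_nonneg _ hp0.ne', Int.emod_lt_of_pos _ hp0⟩, hy⟩, ?_⟩
      simp only
      have h2 : (p : ℤ) ∣ (-(u * (s * y))) - (-(u * (s * y))) % p := Int.dvd_self_sub_emod
      obtain ⟨t, ht⟩ := h2
      have h3 : (-(u * (s * y))) % p = -(u * (s * y)) - p * t := by linarith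
      rw [h3]
      refine ⟨v * (s * y) - r * t, ?_⟩
      have h4 : u * r = 1 - v * p := by linarith
      calc r * (-(u * (s * y)) - p * t) + s * y = -(u * r) * (s * y) - r * p * t + s * y := by ring
        _ = _ := by rw [h4]; ring
  rw [h1]
  simp

private lemma la_line' {p : ℕ} (hp : p.Prime) (r s : ℤ)
    (hr : ¬ (p : ℤ) ∣ r ∨ ¬ (p : ℤ) ∣ s) :
    ((Ico (0 : ℤ) p ×ˢ Ico (0 : ℤ) p).filter fun x => (p : ℤ) ∣ r * x.1 + s * x.2).card = p := by
  rcases hr with hr | hs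
  · exact la_line hp r s hr
  · refine (Finset.card_bij (fun x _ => (x.2, x.1)) ?_ ?_ ?_).trans (la_line hp s r hs)
    · intro x hx
      rw [Finset.mem_filter, Finset.mem_product] at hx ⊢
      refine ⟨⟨hx.1.2, hx.1.1⟩, ?_⟩
      simp only
      rw [add_comm]
      exact hx.2
    · rintro ⟨x, y⟩ _ ⟨x', y'⟩ _ h
      simp only [Prod.mk.injEq] at h ⊢
      exact ⟨h.2, h.1⟩
    · rintro ⟨x, y⟩ hx
      refine ⟨(y, x), ?_, rfl⟩
      rw [Finset.mem_filter, Finset.mem_product] at hx ⊢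
      refine ⟨⟨hx.1.2, hx.1.1⟩, ?_⟩
      simp only at hx ⊢
      rw [add_comm]
      exact hx.2

variable {F : Fam k} {w : ℕ}

private lemma la_rho (hw : F.Big w) {p : ℕ} (hp : p.Prime) (hpw : w < p) :
    rho F p = k * (p - 1) + 1 := by
  classical
  have hp0 : (0 : ℤ) < p := by exact_mod_cast hp.pos
  have hpp : Prime (p : ℤ) := Nat.prime_iff_prime_int.mp hp
  set L : Fin k → Finset (ℤ × ℤ) := fun i =>
    ((Ico (0 : ℤ) p ×ˢ Ico (0 : ℤ) p).filter fun x => (p : ℤ) ∣ F.r i * x.1 + F.s i * x.2) with hL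
  have hLc : ∀ i, (L i).card = p := fun i => la_line' hp _ _ (exists_rs hw hpw i)
  have h0 : ∀ i, ((0, 0) : ℤ × ℤ) ∈ L i := by
    intro i
    simp [hL, hp.pos]
  have hLe : ∀ i, ((L i).erase (0, 0)).card = p - 1 := by
    intro i
    rw [Finset.card_erase_of_mem (h0 i), hLc]
  have hdisj : ∀ i ∈ (univ : Finset (Fin k)), ∀ j ∈ (univ : Finset (Fin k)), i ≠ j →
      Disjoint ((L i).erase (0, 0)) ((L j).erase (0, 0)) := by
    intro i _ j _ hij
    rw [Finset.disjoint_left]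
    rintro ⟨x, y⟩ hx hx'
    rw [Finset.mem_erase, hL] at hx hx'
    simp only [Finset.mem_filter, Finset.mem_product, Finset.mem_Ico] at hx hx'
    apply hij
    refine unique_idx hw hp hpw (m := x) (n := y) ?_ hx.2.2 hx'.2.2
    rintro ⟨h1, h2⟩
    apply hx.1
    have h3 : x = 0 := Int.eq_zero_of_abs_lt_dvd h1 (by rw [abs_lt]; omega)
    have h4 : y = 0 := Int.eq_zero_of_abs_lt_dvd h2 (by rw [abs_lt]; omega)
    rw [h3, h4]
  have hEq : ((Ico (0 : ℤ) p ×ˢ Ico (0 : ℤ) p).filter fun x => (p : ℤ) ∣ F.P x.1 x.2) =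
      insert ((0, 0) : ℤ × ℤ) ((univ : Finset (Fin k)).biUnion fun i => (L i).erase (0, 0)) := by
    ext x
    rw [Finset.mem_filter, Finset.mem_insert, Finset.mem_biUnion]
    constructor
    · rintro ⟨h1, h2⟩
      unfold Fam.P at h2
      rw [hpp.dvd_finsetProd_iff] at h2
      obtain ⟨i, _, h3⟩ := h2
      by_cases hx : x = (0, 0)
      · exact Or.inl hx
      · right
        exact ⟨i, Finset.mem_univ _, Finset.mem_erase.mpr ⟨hx, Finset.mem_filter.mpr ⟨h1, h3⟩⟩⟩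
    · have h4 : ∀ i, ∀ x ∈ L i, x ∈ Ico (0 : ℤ) p ×ˢ Ico (0 : ℤ) p ∧ (p : ℤ) ∣ F.P x.1 x.2 := by
        intro i x hx
        rw [hL] at hx
        obtain ⟨h5, h6⟩ := Finset.mem_filter.mp hx
        refine ⟨h5, ?_⟩
        unfold Fam.P
        exact Dvd.dvd.trans h6 (Finset.dvd_prod_of_mem (fun i => F.l i x.1 x.2) (Finset.mem_univ i))
      rintro (rfl | ⟨i, _, h1⟩)
      · exact h4 ⟨0, by have := F.hk; omega⟩ _ (h0 _)
      · exact h4 i x (Finset.mem_of_mem_erase h1)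
  unfold rho
  rw [hEq, Finset.card_insert_of_notMem, Finset.card_biUnion hdisj]
  · simp only [hLe, Finset.sum_const, Finset.card_univ, Fintype.card_fin, smul_eq_mul]
  · rw [Finset.mem_biUnion]
    rintro ⟨i, _, h⟩
    exact (Finset.mem_erase.mp h).1 rfl

theorem rho_bounds (hw : F.Big w) {p : ℕ} (hp : p.Prime) (hpw : w < p) :
    0 < (rho F p : ℝ) / (p : ℝ) ^ 2 ∧ (rho F p : ℝ) / (p : ℝ) ^ 2 < 1 ∧
    (k : ℝ) / p ≤ ((rho F p : ℝ) / (p : ℝ) ^ 2) / (1 - (rho F p : ℝ) / (p : ℝ) ^ 2) := by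
  have h1 := la_rho hw hp hpw
  have hp1 : 1 ≤ p := hp.one_lt.le
  have hr : (rho F p : ℝ) = k * (p - 1) + 1 := by
    rw [h1]
    push_cast [Nat.cast_sub hp1]
    ring
  have hk2 : (2 : ℝ) ≤ k := by exact_mod_cast F.hk
  have hkw : (24 : ℝ) * ((k : ℝ) + 1) ^ 2 ≤ w := by exact_mod_cast hw.hk
  have hwp : (w : ℝ) + 1 ≤ p := by exact_mod_cast hpw
  have hkp : (k : ℝ) + 1 ≤ p := by nlinarith
  have hp0 : (0 : ℝ) < p := by linarith
  have hrp : 0 < (rho F p : ℝ) := by rw [h1]; positivity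
  have hlt : (rho F p : ℝ) < (p : ℝ) ^ 2 := by
    rw [hr]
    nlinarith
  refine ⟨by positivity, (div_lt_one (by positivity)).mpr hlt, ?_⟩
  have h2 : ((rho F p : ℝ) / (p : ℝ) ^ 2) / (1 - (rho F p : ℝ) / (p : ℝ) ^ 2) =
      (rho F p : ℝ) / ((p : ℝ) ^ 2 - rho F p) := by
    rw [div_eq_div_iff]
    · field_simp
    · have := (div_lt_one (by positivity : (0 : ℝ) < (p : ℝ) ^ 2)).mpr hlt
      linarith
    · linarith
  rw [h2, div_le_div_iff₀ hp0 (by linarith), hr]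
  nlinarith

private lemma la_cc {α : Type} (s : Finset α) (P Q : α → Prop) (hP : DecidablePred P)
    (hQ : DecidablePred Q) (h : ∀ x ∈ s, P x ↔ Q x) :
    (@Finset.filter α P hP s).card = (@Finset.filter α Q hQ s).card := by
  congr 1
  exact Finset.filter_congr h

private lemma la_P {p : ℕ} {x y x' y' : ℤ} (hx : x ≡ x' [ZMOD p]) (hy : y ≡ y' [ZMOD p])
    (h : (p : ℤ) ∣ F.P x y) : (p : ℤ) ∣ F.P x' y' := by
  rw [← ZMod.intCast_zmod_eq_zero_iff_dvd] at h ⊢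
  rw [← h]
  have hx2 := (ZMod.intCast_eq_intCast_iff _ _ _).mpr hx
  have hy2 := (ZMod.intCast_eq_intCast_iff _ _ _).mpr hy
  unfold Fam.P Fam.l
  push_cast
  rw [hx2, hy2]

private lemma la_class (T q d : ℕ) (hq : 1 ≤ q) (hd : 1 ≤ d) (hqd : Nat.Coprime q d) (a x : ℤ)
    (hx0 : 0 ≤ x) (hxd : x < d) :
    |(((Icc (-(T : ℤ)) T).filter fun m => m ≡ a [ZMOD q] ∧ m % d = x).card : ℝ) -
      (2 * T + 1) / (d * q)| ≤ 1 := by
  obtain ⟨u, v, huv⟩ := Nat.isCoprime_iff_coprime.mpr hqd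
  set c : ℤ := a * (v * d) + x * (u * q) with hc
  have hcq : c ≡ a [ZMOD q] := by
    apply Int.ModEq.symm
    rw [Int.modEq_iff_dvd]
    refine ⟨u * x - u * a, ?_⟩
    have : v * (d : ℤ) = 1 - u * q := by linarith
    rw [hc, this]
    ring
  have hcd : c ≡ x [ZMOD d] := by
    apply Int.ModEq.symm
    rw [Int.modEq_iff_dvd]
    refine ⟨v * a - v * x, ?_⟩
    have : u * (q : ℤ) = 1 - v * d := by linarith
    rw [hc, this]
    ring
  have h1 : ((Icc (-(T : ℤ)) T).filter fun m => m ≡ a [ZMOD q] ∧ m % d = x) =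
      ((Icc (-(T : ℤ)) T).filter fun m => m ≡ c [ZMOD ((q * d : ℕ) : ℤ)]) := by
    apply Finset.filter_congr
    intro m _
    have h2 : m % d = x ↔ m ≡ x [ZMOD d] := by
      unfold Int.ModEq
      rw [Int.emod_eq_of_lt hx0 hxd]
    rw [h2]
    push_cast
    rw [← Int.modEq_and_modEq_iff_modEq_mul (by simpa using hqd)]
    constructor
    · rintro ⟨h3, h4⟩
      exact ⟨h3.trans hcq.symm, h4.trans hcd.symm⟩
    · rintro ⟨h3, h4⟩
      exact ⟨h3.trans hcq, h4.trans hcd⟩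
  rw [h1]
  have h2 := box_class T (q * d) (Nat.mul_pos hq hd) c
  push_cast at h2
  rw [mul_comm (d : ℝ) (q : ℝ)]
  push_cast
  exact h2

theorem lattice (hw : F.Big w) (T q : ℕ) (hq : 1 ≤ q) (a b : ℤ) (Q : Finset ℕ)
    (hQ : ∀ p ∈ Q, p.Prime ∧ w < p ∧ ¬ p ∣ q) (hT : (∏ p ∈ Q, p) * q ≤ T) :
    |(((Icc (-(T : ℤ)) T ×ˢ Icc (-(T : ℤ)) T).filter fun x : ℤ × ℤ =>
        x.1 ≡ a [ZMOD q] ∧ x.2 ≡ b [ZMOD q] ∧ ((∏ p ∈ Q, p : ℕ) : ℤ) ∣ F.P x.1 x.2).card : ℝ) -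
      (∏ p ∈ Q, (rho F p : ℝ) / (p : ℝ) ^ 2) * ((2 * T + 1) / q) ^ 2| ≤
    8 * ((∏ p ∈ Q, p : ℕ) : ℝ) * T / q := by
  classical
  have hQp : ∀ p ∈ Q, p.Prime := fun p hp => (hQ p hp).1
  have hdpos : 0 < ∏ p ∈ Q, p := Finset.prod_pos fun p hp => (hQp p hp).pos
  have hcop : Nat.Coprime q (∏ p ∈ Q, p) := by
    apply Nat.Coprime.prod_right
    intro p hp
    exact ((Nat.Prime.coprime_iff_not_dvd (hQp p hp)).mpr (hQ p hp).2.2).symm
  -- divisibility by the product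
  have hdvd : ∀ N : ℤ, ((∏ p ∈ Q, p : ℕ) : ℤ) ∣ N ↔ ∀ p ∈ Q, (p : ℤ) ∣ N := by
    intro N
    constructor
    · intro h p hp
      exact Dvd.dvd.trans (by exact_mod_cast Finset.dvd_prod_of_mem (fun p => p) hp) h
    · intro h
      rw [Int.natCast_dvd]
      apply Finset.prod_primes_dvd
      · intro p hp
        exact (hQp p hp).prime
      · intro p hp
        exact Int.natCast_dvd.mp (h p hp)
  -- the set of classes
  set d : ℕ := ∏ p ∈ Q, p with hd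
  set C : Finset (ℤ × ℤ) := (Ico (0 : ℤ) d ×ˢ Ico (0 : ℤ) d).filter
    fun x => (d : ℤ) ∣ F.P x.1 x.2 with hC
  have hCcard : C.card = ∏ p ∈ Q, rho F p := by
    have h1 := crt2 Q hQp (fun _ => 1) (fun p x y => (p : ℤ) ∣ F.P x y) (by
      intro p _ x y x' y' hx hy h
      rw [pow_one] at hx hy
      exact la_P hx hy h)
    simp only [pow_one] at h1
    have h2 : (∏ p ∈ Q, (p : ℤ)) = (d : ℤ) := by rw [hd]; push_cast; rfl
    rw [h2] at h1
    unfold rho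
    refine ((la_cc _ _ _ _ _ fun x _ => hdvd _).trans h1).trans ?_
    exact Finset.prod_congr rfl fun p _ => la_cc _ _ _ _ _ fun x _ => Iff.rfl
  have hd0 : (0 : ℤ) < d := by exact_mod_cast hdpos
  have hCle : (C.card : ℝ) ≤ (d : ℝ) ^ 2 := by
    have h1 : C.card ≤ d * d := by
      refine (Finset.card_filter_le _ _).trans ?_
      rw [Finset.card_product]
      simp
    have h2 : (C.card : ℝ) ≤ (d : ℝ) * d := by exact_mod_cast h1
    rw [pow_two]
    exact h2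
  -- periodicity
  have hper : ∀ x y : ℤ, (d : ℤ) ∣ F.P x y ↔ (d : ℤ) ∣ F.P (x % d) (y % d) := by
    intro x y
    rw [hdvd, hdvd]
    have hx : ∀ z : ℤ, ∀ p ∈ Q, z ≡ z % d [ZMOD p] := by
      intro z p hp
      have h1 : z ≡ z % d [ZMOD d] := (Int.mod_modEq z d).symm
      exact h1.of_dvd (by exact_mod_cast Finset.dvd_prod_of_mem (fun p => p) hp)
    constructor
    · intro h p hp
      exact la_P (hx x p hp) (hx y p hp) (h p hp)
    · intro h p hp
      exact la_P (hx x p hp).symm (hx y p hp).symm (h p hp)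
  set A : ℤ → ℤ → Finset ℤ := fun a x =>
    (Icc (-(T : ℤ)) T).filter fun m => m ≡ a [ZMOD q] ∧ m % d = x with hA
  set B := ((Icc (-(T : ℤ)) T ×ˢ Icc (-(T : ℤ)) T).filter fun x : ℤ × ℤ =>
        x.1 ≡ a [ZMOD q] ∧ x.2 ≡ b [ZMOD q] ∧ (d : ℤ) ∣ F.P x.1 x.2) with hB
  have hcount : B.card = ∑ x ∈ C, (A a x.1).card * (A b x.2).card := by
    have hmap : ∀ x ∈ B, ((x.1 % (d : ℤ), x.2 % (d : ℤ)) : ℤ × ℤ) ∈ C := by
      intro x hx
      rw [hB, Finset.mem_filter] at hx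
      rw [hC, Finset.mem_filter, Finset.mem_product]
      refine ⟨⟨Finset.mem_Ico.mpr ⟨Int.emod_nonneg _ hd0.ne', Int.emod_lt_of_pos _ hd0⟩,
        Finset.mem_Ico.mpr ⟨Int.emod_nonneg _ hd0.ne', Int.emod_lt_of_pos _ hd0⟩⟩, ?_⟩
      exact (hper _ _).mp hx.2.2.2
    rw [Finset.card_eq_sum_card_fiberwise (f := fun x : ℤ × ℤ => (x.1 % (d : ℤ), x.2 % (d : ℤ)))
      (t := C) (fun x hx => hmap x hx)]
    apply Finset.sum_congr rfl
    intro x hx
    rw [← Finset.card_product]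
    congr 1
    ext y
    rw [hC, Finset.mem_filter] at hx
    simp only [hB, hA, Finset.mem_filter, Finset.mem_product]
    constructor
    · rintro ⟨⟨⟨h1, h2⟩, h3, h4, h5⟩, h6⟩
      rw [Prod.ext_iff] at h6
      exact ⟨⟨h1, h3, h6.1⟩, ⟨h2, h4, h6.2⟩⟩
    · rintro ⟨⟨h1, h3, h6⟩, ⟨h2, h4, h7⟩⟩
      refine ⟨⟨⟨h1, h2⟩, h3, h4, ?_⟩, Prod.ext h6 h7⟩
      rw [hper, h6, h7]
      exact hx.2
  have hq0 : (0 : ℝ) < q := by exact_mod_cast hq
  have hdr : (0 : ℝ) < d := by exact_mod_cast hdpos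
  set u : ℝ := (2 * T + 1) / (d * q) with hu
  have hu0 : 0 ≤ u := by rw [hu]; positivity
  have hTr : (d : ℝ) * q ≤ T := by exact_mod_cast hT
  have hdq1 : (1 : ℝ) ≤ (d : ℝ) * q := by
    have : 1 ≤ d * q := Nat.mul_pos hdpos hq
    exact_mod_cast this
  have herr : 2 * u + 1 ≤ 8 * T / (d * q) := by
    rw [hu, ← sub_nonneg]
    have h1 : 8 * (T : ℝ) / (d * q) - (2 * ((2 * T + 1) / (d * q)) + 1) =
        (4 * T - 2 - d * q) / (d * q) := by
      field_simp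
      ring
    rw [h1]
    apply div_nonneg _ (by positivity)
    linarith
  have hpair : ∀ x ∈ C, |((A a x.1).card : ℝ) * ((A b x.2).card : ℝ) - u ^ 2| ≤
      8 * T / (d * q) := by
    intro x hx
    rw [hC, Finset.mem_filter, Finset.mem_product] at hx
    have hx1 := Finset.mem_Ico.mp hx.1.1
    have hx2 := Finset.mem_Ico.mp hx.1.2
    have h1 := la_class T q d hq hdpos hcop a x.1 hx1.1 hx1.2
    have h2 := la_class T q d hq hdpos hcop b x.2 hx2.1 hx2.2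
    have h3 : |((A a x.1).card : ℝ) - u| ≤ 1 := h1
    have h4 : |((A b x.2).card : ℝ) - u| ≤ 1 := h2
    set N1 : ℝ := ((A a x.1).card : ℝ)
    set N2 : ℝ := ((A b x.2).card : ℝ)
    have h5 : N1 * N2 - u ^ 2 = (N1 - u) * (N2 - u) + u * (N1 - u) + u * (N2 - u) := by ring
    have h6 : |N1 * N2 - u ^ 2| ≤ 1 + u * 1 + u * 1 := by
      rw [h5]
      refine (abs_add_le _ _).trans (add_le_add ((abs_add_le _ _).trans (add_le_add ?_ ?_)) ?_)
      · rw [abs_mul]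
        exact mul_le_one₀ h3 (abs_nonneg _) h4
      · rw [abs_mul, abs_of_nonneg hu0]
        exact mul_le_mul_of_nonneg_left h3 hu0
      · rw [abs_mul, abs_of_nonneg hu0]
        exact mul_le_mul_of_nonneg_left h4 hu0
    linarith
  have hmain : (∏ p ∈ Q, (rho F p : ℝ) / (p : ℝ) ^ 2) * ((2 * T + 1) / q) ^ 2 =
      ∑ _x ∈ C, u ^ 2 := by
    rw [Finset.sum_const, nsmul_eq_mul, hCcard, Finset.prod_div_distrib, hu]
    have h1 : ∏ p ∈ Q, ((p : ℝ)) ^ 2 = (d : ℝ) ^ 2 := by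
      rw [Finset.prod_pow, hd]
      push_cast
      rfl
    rw [h1]
    push_cast
    field_simp
  rw [hmain, hcount]
  push_cast
  rw [← Finset.sum_sub_distrib]
  calc |∑ x ∈ C, (((A a x.1).card : ℝ) * ((A b x.2).card : ℝ) - u ^ 2)|
      ≤ ∑ x ∈ C, |((A a x.1).card : ℝ) * ((A b x.2).card : ℝ) - u ^ 2| :=
        Finset.abs_sum_le_sum_abs _ _
    _ ≤ ∑ _x ∈ C, 8 * (T : ℝ) / (d * q) := Finset.sum_le_sum hpair
    _ = (C.card : ℝ) * (8 * T / (d * q)) := by rw [Finset.sum_const, nsmul_eq_mul]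
    _ ≤ (d : ℝ) ^ 2 * (8 * T / (d * q)) := by
        apply mul_le_mul_of_nonneg_right hCle
        positivity
    _ = 8 * (d : ℝ) * T / q := by
        field_simp

end Pool.Agent.H77.SV
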