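import Pool.Agent.H77.SV.Lc
import Pool.Agent.H77.SV.Kap

/-!
# Module LocM (about 180 lines): local image at a prime of type `I_{2m}`, `m` odd.

`W` is `y^2 = (x-e)(x-e')(x-e'')`, `v = padicValRat p`, `v(e - e')` is odd and positive,
`v(e - e'') = v(e' - e'') = 0`.
CLAIM: `vb κ'' = 0`, `lb κ'' = lb (e - e'') * vb κ`, `vb κ = vb κ'`, where `κ, κ', κ''` are
the descent values for `e, e', e''`.
PROOF. `P = 0`: trivial (all classes `0`). `P = (x, y)`, `X = x - e`, `X' = x - e'`, `X'' = x - e''`.
* `x = e`: `κ = (e-e')(e-e'')` (vb `1`), `κ' = e - e'` (vb `1`), `κ'' = e - e''`. OK.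
* `x = e'`: `κ = e' - e` (vb `1`), `κ' = (e'-e)(e'-e'')` (vb `1`), `κ'' = e' - e''`, which is close to
  `e - e''` (`lb_close`, difference `e - e'` of positive valuation).
* `x = e''`: `κ = e'' - e` (vb `0`), `κ' = e'' - e'`, `κ'' = (e''-e)(e''-e')`; `e''-e'` is close to
  `e''-e`, so `lb κ'' = 2 lb = 0`.
* otherwise `X X' X'' = y^2 ≠ 0`, so the sums of the three `vb`, of the three `lb` are `0`.
  - `v(X) < 0`: `X', X''` are close to `X`, all classes are equal, so `0` (`3 t = t`).
  - `v(X) ≥ 0`, `v(X'') > 0`: then `X = X'' + (e''-e)` is close to `e''-e`, `X'` is close to `e''-e'`, which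
    is close to `e''-e`; so `X`, `X'` have the same class with `vb = 0`, and the class of `X''` is `0`.
  - `v(X) = 0`, `v(X'') ≤ 0` (so `= 0`): `X'` is close to `X` (difference `e - e'`), so the class of `X''`
    is `0` and `vb X = vb X' = 0`.
  - `v(X) > 0`: `X'' = X + (e - e'')` is close to `e - e''`: `vb X'' = 0`, `lb X'' = lb (e-e'')`,
    `vb X = vb X'`. If `vb X = 1`: done. If `vb X = 0`: `v(X)`, `v(X')` are even and
    `X' - X = e - e'` has odd valuation `m`. If `v(X) ≠ v(X')` then `m = min(v X, v X')` is even,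
    contradiction. So `v(X) = v(X')` and `m ≥ v(X)`, odd, hence `m > v(X)`, `X'` is close to `X` and the
    class of `X''` is `0`: `lb (e - e'') = 0`. OK.
(If `X` or `X'` is such that valuations are compared, use `padicValRat.add_eq_min` /
`padicValRat.le_padicValRat_add_of_le`; valuations of negatives: `padicValRat.neg`.)
-/

set_option autoImplicit false

namespace Pool.Agent.H77.SV

private lemma lm_two (t : ZMod 2) : t + t = 0 := CharTwo.add_self_eq_zero t

private lemma lm_eq {s t : ZMod 2} (h : s + t = 0) : s = t := by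
  have h1 := lm_two t
  calc s = s + (t + t) := by rw [h1, add_zero]
    _ = (s + t) + t := by ring
    _ = t := by rw [h, zero_add]

private lemma lm_neg (p : ℕ) (x : ℚ) : vb p (-x) = vb p x := by
  unfold vb
  rw [padicValRat.neg]

private lemma lm_odd {p : ℕ} {x : ℚ} (h : Odd (padicValRat p x)) : vb p x = 1 := by
  obtain ⟨k, hk⟩ := h
  unfold vb
  rw [hk]
  push_cast
  have h2 : (2 : ZMod 2) = 0 := rfl
  rw [h2, zero_mul, zero_add]

private lemma lm_zero {p : ℕ} {x : ℚ} (h : padicValRat p x = 0) : vb p x = 0 := by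
  unfold vb
  rw [h]
  simp

private lemma lm_dich (t : ZMod 2) : t = 0 ∨ t = 1 := by
  revert t
  decide

private lemma lm_sub {p : ℕ} {x y z : ℚ} (h : x - y = z ∨ x - y = -z)
    (hv : padicValRat p x < padicValRat p z) : padicValRat p x < padicValRat p (x - y) := by
  rcases h with h | h
  · rwa [h]
  · rwa [h, padicValRat.neg]

theorem loc_mult {W : WeierstrassCurve.Affine ℚ} {e e' e'' : ℚ} (h : Roots W e e' e'')
    {p : ℕ} (hp : p.Prime) (h1 : 0 < padicValRat p (e - e')) (h2 : Odd (padicValRat p (e - e')))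
    (h3 : padicValRat p (e - e'') = 0) (h4 : padicValRat p (e' - e'') = 0) (P : W.Point) :
    vb p (kap e'' e e' P) = 0 ∧
    lb p (kap e'' e e' P) = lb p (e - e'') * vb p (kap e e' e'' P) ∧
    vb p (kap e e' e'' P) = vb p (kap e' e e'' P) := by
  have : Fact p.Prime := ⟨hp⟩
  obtain ⟨a1, a3, a2, a4, a6, n1, n2, n3⟩ := h
  have d1 : e - e' ≠ 0 := sub_ne_zero.2 n1
  have d2 : e - e'' ≠ 0 := sub_ne_zero.2 n2
  have d3 : e' - e'' ≠ 0 := sub_ne_zero.2 n3
  have d1' : e' - e ≠ 0 := sub_ne_zero.2 n1.symm
  have d2' : e'' - e ≠ 0 := sub_ne_zero.2 n2.symm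
  have d3' : e'' - e' ≠ 0 := sub_ne_zero.2 n3.symm
  have hv1 : vb p (e - e') = 1 := lm_odd h2
  have hv2 : vb p (e - e'') = 0 := lm_zero h3
  have hv3 : vb p (e' - e'') = 0 := lm_zero h4
  have hv1' : vb p (e' - e) = 1 := by rw [← neg_sub e e', lm_neg, hv1]
  have hv2' : vb p (e'' - e) = 0 := by rw [← neg_sub e e'', lm_neg, hv2]
  have hv3' : vb p (e'' - e') = 0 := by rw [← neg_sub e' e'', lm_neg, hv3]
  -- the third root is equally far from the two close roots
  have hc1 : lb p (e - e'') = lb p (e' - e'') :=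
    (lb_close hp d2 d3 (Or.inr (lm_sub (z := e - e') (Or.inl (by ring)) (by rw [h3]; exact h1)))).2
  have hc2 : lb p (e'' - e) = lb p (e'' - e') := by
    refine (lb_close hp d2' d3' (Or.inr (lm_sub (z := e - e') (Or.inr (by ring)) ?_))).2
    rw [← neg_sub e e'', padicValRat.neg, h3]
    exact h1
  cases P with
  | zero =>
    have hl : lb p (1 : ℚ) = 0 := by
      have h5 := lb_int hp (N := 1) (fun hd => by
        have h6 := Int.isUnit_iff.1 (isUnit_of_dvd_one hd)
        have h7 := hp.two_le
        omega)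
      rw [Int.cast_one] at h5
      rw [h5, bt_one]
    have hb : vb p (1 : ℚ) = 0 := lm_zero (by simp)
    change vb p 1 = 0 ∧ lb p 1 = lb p (e - e'') * vb p 1 ∧ vb p 1 = vb p 1
    rw [hl, hb, mul_zero]
    exact ⟨rfl, rfl, rfl⟩
  | some x y hns =>
    have heq : y ^ 2 = (x - e) * (x - e') * (x - e'') := by
      have h5 := (W.equation_iff x y).1 hns.1
      rw [a1, a3, a2, a4, a6] at h5
      linear_combination h5
    change vb p (if x = e'' then (e'' - e) * (e'' - e') else x - e'') = 0 ∧
      lb p (if x = e'' then (e'' - e) * (e'' - e') else x - e'')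
        = lb p (e - e'') * vb p (if x = e then (e - e') * (e - e'') else x - e) ∧
      vb p (if x = e then (e - e') * (e - e'') else x - e)
        = vb p (if x = e' then (e' - e) * (e' - e'') else x - e')
    by_cases hxe : x = e
    · subst hxe
      rw [if_neg n2, if_pos rfl, if_neg n1, vb_mul hp d1 d2, hv1, hv2, add_zero, mul_one]
      exact ⟨rfl, rfl, rfl⟩
    by_cases hxe' : x = e'
    · subst hxe'
      rw [if_neg n3, if_neg hxe, if_pos rfl, vb_mul hp d1' d3, hv1', hv3, add_zero, mul_one]
      exact ⟨rfl, hc1.symm, rfl⟩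
    by_cases hxe'' : x = e''
    · subst hxe''
      rw [if_pos rfl, if_neg hxe, if_neg hxe', vb_mul hp d2' d3', lb_mul hp d2' d3', hv2', hv3',
        hc2, mul_zero]
      exact ⟨add_zero _, lm_two _, rfl⟩
    rw [if_neg hxe, if_neg hxe', if_neg hxe'']
    have hX : x - e ≠ 0 := sub_ne_zero.2 hxe
    have hX' : x - e' ≠ 0 := sub_ne_zero.2 hxe'
    have hX'' : x - e'' ≠ 0 := sub_ne_zero.2 hxe''
    have hsq : IsSquare ((x - e) * (x - e') * (x - e'')) := ⟨y, by rw [← heq, sq]⟩
    have hvs := vb_of_isSquare hp (mul_ne_zero hX hX') hX'' hsq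
    have hls := lb_of_isSquare hp (mul_ne_zero hX hX') hX'' hsq
    rw [vb_mul hp hX hX'] at hvs
    rw [lb_mul hp hX hX'] at hls
    rcases lt_trichotomy (padicValRat p (x - e)) 0 with hv | hv | hv
    · -- negative valuation
      obtain ⟨c1, c2⟩ := lb_close hp hX hX'
        (Or.inr (lm_sub (z := e - e') (Or.inr (by ring)) (by omega)))
      obtain ⟨c3, c4⟩ := lb_close hp hX hX''
        (Or.inr (lm_sub (z := e - e'') (Or.inr (by ring)) (by omega)))
      rw [← c1, lm_two] at hvs
      rw [← c2, lm_two] at hls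
      rw [← hvs, ← hls, ← c1, c3, ← hvs, mul_zero]
      exact ⟨rfl, rfl, rfl⟩
    · -- valuation zero
      obtain ⟨c1, c2⟩ := lb_close hp hX hX'
        (Or.inr (lm_sub (z := e - e') (Or.inr (by ring)) (by omega)))
      rw [← c1, lm_two] at hvs
      rw [← c2, lm_two] at hls
      rw [← hvs, ← hls, ← c1, lm_zero hv, mul_zero]
      exact ⟨rfl, rfl, rfl⟩
    · -- positive valuation
      obtain ⟨c1, c2⟩ := lb_close hp d2 hX''
        (Or.inr (lm_sub (z := x - e) (Or.inr (by ring)) (by omega)))
      rw [← c1, hv2] at hvs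
      have hvv : vb p (x - e) = vb p (x - e') := lm_eq hvs
      rw [← c1, ← c2, hv2]
      refine ⟨rfl, ?_, hvv⟩
      rcases lm_dich (vb p (x - e)) with h0 | h0
      · have hev : Even (padicValRat p (x - e)) := vb_eq_zero_iff.1 h0
        have hev' : Even (padicValRat p (x - e')) := vb_eq_zero_iff.1 (hvv ▸ h0)
        have hdiff : (x - e') + -(x - e) = e - e' := by ring
        have hvn : padicValRat p (-(x - e)) = padicValRat p (x - e) := padicValRat.neg _
        have hlt : padicValRat p (x - e) < padicValRat p (e - e') := by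
          by_cases hne : padicValRat p (x - e') = padicValRat p (x - e)
          · have h5 : min (padicValRat p (x - e')) (padicValRat p (-(x - e)))
                ≤ padicValRat p (x - e' + -(x - e)) :=
              padicValRat.min_le_padicValRat_add (by rw [hdiff]; exact d1)
            rw [hdiff, hvn, hne, min_self] at h5
            refine lt_of_le_of_ne h5 fun h6 => ?_
            rw [h6] at hev
            exact (Int.not_even_iff_odd.2 h2) hev
          · exfalso
            have h5 := padicValRat.add_eq_min (p := p) (q := x - e') (r := -(x - e))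
              (by rw [hdiff]; exact d1) hX' (neg_ne_zero.2 hX) (by rw [hvn]; exact hne)
            rw [hdiff, hvn] at h5
            refine (Int.not_even_iff_odd.2 h2) ?_
            rw [h5]
            rcases min_choice (padicValRat p (x - e')) (padicValRat p (x - e)) with h6 | h6
            · rwa [h6]
            · rwa [h6]
        obtain ⟨-, c4⟩ := lb_close hp hX hX'
          (Or.inr (lm_sub (z := e - e') (Or.inr (by ring)) hlt))
        rw [← c4, lm_two] at hls
        rw [h0, mul_zero, c2, ← hls]
      · rw [h0, mul_one]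

end Pool.Agent.H77.SV
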