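import Pool.Agent.H77.SV.Lc
import Pool.Agent.H77.SV.Kap

/-!
# Module LocS (about 200 lines): local image at a prime of type `I_n^*`.

`v = padicValRat p`. `A, B, A - B` have valuations `≥ 1`, at most one of them is `≥ 2`.
CLAIM: the classes (`vb`, `lb`) of `(k1 P, k2 P)` are those of one of the four points
`0, (0,0), (A,0), (B,0)`, i.e. of `(1, 1)`, `(A B, -A)`, `(A, A (A-B))`, `(B, B-A)`.
PROOF. `P = 0`, `x = 0`, `x = A`, `x = B`: equality (`kap` unfolded: at `x = 0`:
`k1 = (0-A)(0-B)`, `k2 = 0 - A`; at `x = A`: `k1 = A - 0`, `k2 = (A-0)(A-B)`; at `x = B`: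
`k1 = B - 0`, `k2 = B - A`). Otherwise put `X₁ = x`, `X₂ = x - A`, `X₃ = x - B`, all nonzero,
`y^2 = X₁ X₂ X₃`, so `vb X₁ + vb X₂ + vb X₃ = 0`, same for `lb` (`lb_mul`, `vb_mul`, `lb (y y) = 0`).
* `v(x) ≤ 0`: `lb_close` (`x - X₂ = A` has valuation `≥ 1 > v(x)`) shows that `X₁, X₂, X₃` have
  the same `vb`, `lb`; three times the value is `0`, so all are `0` (`3 t = t` in `ZMod 2`).
* `v(x) ≥ 1`: then `v(X_i) ≥ 1` for all `i` (`padicValRat.min_le_padicValRat_add` or
  `padicValRat.le_padicValRat_add_of_le`). CLAIM: for some `i` one has `v(X_i) > v(e_i - e_j)` for both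
  `j ≠ i` (`e = (0, A, B)`, `X_i - X_j = e_j - e_i`). There is `c` with `v(e_c - e_a) = v(e_c - e_b) = 1`
  (two of the three differences have valuation 1 and they share an index). If `v(X_c) ≥ 2` take
  `i = c`. Else `v(X_c) = 1`, and since `v(X_a) + v(X_b) + v(X_c)` is even, `v(X_a) ≠ v(X_b)`, say
  `v(X_a) > v(X_b)` (the other case is symmetric); then `v(e_a - e_b) = v(X_b) < v(X_a)`
  and `v(X_a) ≥ 2 > 1 = v(e_a - e_c)`: take `i = a`.
  Given `i`: for `j ≠ i`, `X_j = X_i + (e_i - e_j)` is close to `e_i - e_j` (`lb_close` with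
  `x := e_i - e_j`, `y := X_j`: `x - y = -X_i`), so `X_j` has the class of `e_i - e_j`, and `X_i` has the
  class of the product `(e_i - e_j)(e_i - e_k)` (from `X₁ X₂ X₃ = y^2`). These are the classes of the
  point `(e_i, 0)`.
A good way to organise it: a lemma for general `e₁, e₂, e₃`, `X_i = x - e_i`, in the situation
`v(X_i) > v(e_i - e_j), v(e_i - e_k)`, used three times.
-/

set_option autoImplicit false

namespace Pool.Agent.H77.SV

private lemma locS_three {p : ℕ} (hp : p.Prime) {X Y Z y : ℚ} (hX : X ≠ 0) (hY : Y ≠ 0)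
    (hZ : Z ≠ 0) (h : y ^ 2 = X * Y * Z) :
    vb p X = vb p Y + vb p Z ∧ lb p X = lb p Y + lb p Z := by
  have hXYZ : X * Y * Z ≠ 0 := mul_ne_zero (mul_ne_zero hX hY) hZ
  have hy : y ≠ 0 := by
    intro hy
    rw [hy] at h
    exact hXYZ (by rw [← h]; norm_num)
  have h1 : vb p (y ^ 2) = 0 := by
    rw [pow_two, vb_mul hp hy hy, CharTwo.add_self_eq_zero]
  have h2 : lb p (y ^ 2) = 0 := by
    rw [pow_two, lb_mul hp hy hy, CharTwo.add_self_eq_zero]
  rw [h, mul_assoc, vb_mul hp hX (mul_ne_zero hY hZ), vb_mul hp hY hZ] at h1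
  rw [h, mul_assoc, lb_mul hp hX (mul_ne_zero hY hZ), lb_mul hp hY hZ] at h2
  exact ⟨by rw [CharTwo.add_eq_zero] at h1; exact h1, by rw [CharTwo.add_eq_zero] at h2; exact h2⟩

private lemma locS_close {p : ℕ} (hp : p.Prime) {e₁ e₂ x : ℚ} (h12 : e₁ - e₂ ≠ 0)
    (hx2 : x - e₂ ≠ 0) (h : padicValRat p (e₁ - e₂) < padicValRat p (x - e₁)) :
    vb p (x - e₂) = vb p (e₁ - e₂) ∧ lb p (x - e₂) = lb p (e₁ - e₂) := by
  have h1 : padicValRat p (e₁ - e₂) < padicValRat p ((e₁ - e₂) - (x - e₂)) := by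
    have : (e₁ - e₂) - (x - e₂) = -(x - e₁) := by ring
    rw [this, padicValRat.neg]
    exact h
  have h2 := lb_close hp h12 hx2 (Or.inr h1)
  exact ⟨h2.1.symm, h2.2.symm⟩

private lemma locS_main {p : ℕ} (hp : p.Prime) {e₁ e₂ e₃ x y : ℚ} (h12 : e₁ - e₂ ≠ 0)
    (h13 : e₁ - e₃ ≠ 0) (hx1 : x - e₁ ≠ 0) (hx2 : x - e₂ ≠ 0) (hx3 : x - e₃ ≠ 0)
    (h : y ^ 2 = (x - e₁) * (x - e₂) * (x - e₃))
    (hv2 : padicValRat p (e₁ - e₂) < padicValRat p (x - e₁))
    (hv3 : padicValRat p (e₁ - e₃) < padicValRat p (x - e₁)) :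
    vb p (x - e₁) = vb p ((e₁ - e₂) * (e₁ - e₃)) ∧
      lb p (x - e₁) = lb p ((e₁ - e₂) * (e₁ - e₃)) := by
  obtain ⟨h1, h2⟩ := locS_three hp hx1 hx2 hx3 h
  obtain ⟨a1, a2⟩ := locS_close hp h12 hx2 hv2
  obtain ⟨b1, b2⟩ := locS_close hp h13 hx3 hv3
  rw [vb_mul hp h12 h13, lb_mul hp h12 h13, h1, h2, a1, a2, b1, b2]
  exact ⟨rfl, rfl⟩

/-- the ultrametric inequality for `X - Y = Z` -/
private lemma locS_ultra {p : ℕ} (hp : p.Prime) {X Y Z : ℚ} (hX : X ≠ 0) (hY : Y ≠ 0) (hZ : Z ≠ 0)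
    (h : X - Y = Z) :
    (padicValRat p X < padicValRat p Y → padicValRat p Z = padicValRat p X) ∧
    (padicValRat p Y < padicValRat p X → padicValRat p Z = padicValRat p Y) ∧
    (padicValRat p X ≤ padicValRat p Z ∨ padicValRat p Y ≤ padicValRat p Z) := by
  have := Fact.mk hp
  have hsum : X + -Y = Z := by rw [← sub_eq_add_neg, h]
  have hne : X + -Y ≠ 0 := by rw [hsum]; exact hZ
  refine ⟨fun h1 => ?_, fun h1 => ?_, ?_⟩
  · have h2 := padicValRat.add_eq_of_lt (p := p) hne hX (neg_ne_zero.2 hY)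
      (by rw [padicValRat.neg]; exact h1)
    rw [hsum] at h2
    exact h2
  · have h2 := padicValRat.add_eq_of_lt (p := p) (q := -Y) (r := X) (by rw [add_comm]; exact hne)
      (neg_ne_zero.2 hY) hX (by rw [padicValRat.neg]; exact h1)
    rw [add_comm, hsum, padicValRat.neg] at h2
    exact h2
  · have h2 := padicValRat.min_le_padicValRat_add (p := p) hne
    rw [hsum, padicValRat.neg] at h2
    exact min_le_iff.1 h2

theorem loc_star {A B : ℚ} (hA : A ≠ 0) (hB : B ≠ 0) (hAB : A ≠ B) {p : ℕ} (hp : p.Prime)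
    (h1 : 1 ≤ padicValRat p A) (h2 : 1 ≤ padicValRat p B) (h3 : 1 ≤ padicValRat p (A - B))
    (h4 : (padicValRat p A = 1 ∧ padicValRat p B = 1) ∨
      (padicValRat p A = 1 ∧ padicValRat p (A - B) = 1) ∨
      (padicValRat p B = 1 ∧ padicValRat p (A - B) = 1)) (P : (EC A B).Point) :
    ∃ x y : ℚ, ((x = 1 ∧ y = 1) ∨ (x = A * B ∧ y = -A) ∨ (x = A ∧ y = A * (A - B)) ∨
        (x = B ∧ y = -(A - B))) ∧
      vb p (k1 P) = vb p x ∧ lb p (k1 P) = lb p x ∧ vb p (k2 P) = vb p y ∧
      lb p (k2 P) = lb p y := by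
  have := Fact.mk hp
  have hAB' : A - B ≠ 0 := sub_ne_zero.2 hAB
  have hBA' : B - A ≠ 0 := sub_ne_zero.2 (Ne.symm hAB)
  match P with
  | .zero => exact ⟨1, 1, Or.inl ⟨rfl, rfl⟩, rfl, rfl, rfl, rfl⟩
  | .some x y hxy =>
    have hk1 : k1 (A := A) (B := B) (.some x y hxy) =
        if x = 0 then (0 - A) * (0 - B) else x - 0 := rfl
    have hk2 : k2 (A := A) (B := B) (.some x y hxy) =
        if x = A then (A - 0) * (A - B) else x - A := rfl
    rw [hk1, hk2]
    by_cases hx0 : x = 0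
    · rw [if_pos hx0, if_neg (by rw [hx0]; exact Ne.symm hA), hx0]
      exact ⟨A * B, -A, Or.inr (Or.inl ⟨rfl, rfl⟩), by ring_nf, by ring_nf, by ring_nf,
        by ring_nf⟩
    by_cases hxA : x = A
    · rw [if_neg hx0, if_pos hxA, hxA]
      exact ⟨A, A * (A - B), Or.inr (Or.inr (Or.inl ⟨rfl, rfl⟩)), by ring_nf, by ring_nf,
        by ring_nf, by ring_nf⟩
    by_cases hxB : x = B
    · rw [if_neg hx0, if_neg hxA, hxB]
      exact ⟨B, -(A - B), Or.inr (Or.inr (Or.inr ⟨rfl, rfl⟩)), by ring_nf, by ring_nf,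
        by ring_nf, by ring_nf⟩
    rw [if_neg hx0, if_neg hxA, sub_zero]
    have heq : y ^ 2 = x * (x - A) * (x - B) := by
      have h5 := (WeierstrassCurve.Affine.equation_iff _ _).1 hxy.1
      simp only at h5
      linear_combination h5
    have hXA : x - A ≠ 0 := sub_ne_zero.2 hxA
    have hXB : x - B ≠ 0 := sub_ne_zero.2 hxB
    by_cases hv : padicValRat p x ≤ 0
    · -- not integral
      obtain ⟨a1, a2⟩ := lb_close hp hx0 hXA (Or.inr (by
        rw [sub_sub_cancel]; linarith))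
      obtain ⟨b1, b2⟩ := lb_close hp hx0 hXB (Or.inr (by
        rw [sub_sub_cancel]; linarith))
      obtain ⟨c1, c2⟩ := locS_three hp hx0 hXA hXB heq
      rw [← a1, ← b1, CharTwo.add_self_eq_zero] at c1
      rw [← a2, ← b2, CharTwo.add_self_eq_zero] at c2
      have o1 : vb p 1 = 0 := by
        have := vb_mul hp (one_ne_zero (α := ℚ)) (one_ne_zero (α := ℚ))
        rw [mul_one, CharTwo.add_self_eq_zero] at this
        exact this
      have o2 : lb p 1 = 0 := by
        have := lb_mul hp (one_ne_zero (α := ℚ)) (one_ne_zero (α := ℚ))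
        rw [mul_one, CharTwo.add_self_eq_zero] at this
        exact this
      exact ⟨1, 1, Or.inl ⟨rfl, rfl⟩, by rw [c1, o1], by rw [c2, o2], by rw [← a1, c1, o1],
        by rw [← a2, c2, o2]⟩
    · have hv1 : 1 ≤ padicValRat p x := by omega
      obtain ⟨u1, u2, u3⟩ := locS_ultra hp hx0 hXA hA (by ring : x - (x - A) = A)
      obtain ⟨w1, w2, w3⟩ := locS_ultra hp hx0 hXB hB (by ring : x - (x - B) = B)
      obtain ⟨t1, t2, t3⟩ := locS_ultra hp hXB hXA hAB' (by ring : (x - B) - (x - A) = A - B)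
      have hy : y ≠ 0 := by
        intro hy
        rw [hy] at heq
        exact mul_ne_zero (mul_ne_zero hx0 hXA) hXB (by rw [← heq]; norm_num)
      have hpar : 2 * padicValRat p y =
          padicValRat p x + padicValRat p (x - A) + padicValRat p (x - B) := by
        have h5 := congrArg (padicValRat p) heq
        rw [pow_two, padicValRat.mul hy hy, padicValRat.mul (mul_ne_zero hx0 hXA) hXB,
          padicValRat.mul hx0 hXA] at h5
        linarith
      have hex : (padicValRat p A < padicValRat p x ∧ padicValRat p B < padicValRat p x) ∨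
          (padicValRat p A < padicValRat p (x - A) ∧
            padicValRat p (A - B) < padicValRat p (x - A)) ∨
          (padicValRat p B < padicValRat p (x - B) ∧
            padicValRat p (A - B) < padicValRat p (x - B)) := by
        generalize padicValRat p x = v1 at *
        generalize padicValRat p (x - A) = v2 at *
        generalize padicValRat p (x - B) = v3 at *
        generalize padicValRat p A = a at *
        generalize padicValRat p B = b at *
        generalize padicValRat p (A - B) = c at *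
        generalize padicValRat p y = z at *
        omega
      have nA : padicValRat p (0 - A) = padicValRat p A := by rw [zero_sub, padicValRat.neg]
      have nB : padicValRat p (0 - B) = padicValRat p B := by rw [zero_sub, padicValRat.neg]
      have nBA : padicValRat p (B - A) = padicValRat p (A - B) := by
        rw [← neg_sub, padicValRat.neg]
      rcases hex with ⟨i1, i2⟩ | ⟨i1, i2⟩ | ⟨i1, i2⟩
      · have h0A : (0 : ℚ) - A ≠ 0 := by rw [zero_sub]; exact neg_ne_zero.2 hA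
        have h0B : (0 : ℚ) - B ≠ 0 := by rw [zero_sub]; exact neg_ne_zero.2 hB
        obtain ⟨m1, m2⟩ := locS_main hp (e₁ := 0) (e₂ := A) (e₃ := B) (x := x) (y := y) h0A h0B
          (by rw [sub_zero]; exact hx0) hXA hXB (by rw [sub_zero]; exact heq)
          (by rw [sub_zero, nA]; exact i1) (by rw [sub_zero, nB]; exact i2)
        obtain ⟨n1, n2⟩ := locS_close hp (e₁ := 0) (e₂ := A) (x := x) h0A hXA
          (by rw [sub_zero, nA]; exact i1)
        rw [sub_zero] at m1 m2
        have e1 : (0 - A) * (0 - B) = A * B := by ring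
        rw [e1] at m1 m2
        rw [zero_sub] at n1 n2
        exact ⟨A * B, -A, Or.inr (Or.inl ⟨rfl, rfl⟩), m1, m2, n1, n2⟩
      · have hA0 : A - 0 ≠ 0 := by rw [sub_zero]; exact hA
        have hx00 : x - 0 ≠ 0 := by rw [sub_zero]; exact hx0
        obtain ⟨m1, m2⟩ := locS_main hp (e₁ := A) (e₂ := 0) (e₃ := B) (x := x) (y := y) hA0 hAB'
          hXA hx00 hXB (by rw [sub_zero, heq]; ring)
          (by rw [sub_zero]; exact i1) i2
        obtain ⟨n1, n2⟩ := locS_close hp (e₁ := A) (e₂ := 0) (x := x) hA0 hx00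
          (by rw [sub_zero]; exact i1)
        rw [sub_zero] at m1 m2
        rw [sub_zero, sub_zero] at n1 n2
        exact ⟨A, A * (A - B), Or.inr (Or.inr (Or.inl ⟨rfl, rfl⟩)), n1, n2, m1, m2⟩
      · have hB0 : B - 0 ≠ 0 := by rw [sub_zero]; exact hB
        have hx00 : x - 0 ≠ 0 := by rw [sub_zero]; exact hx0
        obtain ⟨m1, m2⟩ := locS_close hp (e₁ := B) (e₂ := 0) (x := x) hB0 hx00
          (by rw [sub_zero]; exact i1)
        obtain ⟨n1, n2⟩ := locS_close hp (e₁ := B) (e₂ := A) (x := x) hBA' hXA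
          (by rw [nBA]; exact i2)
        rw [sub_zero, sub_zero] at m1 m2
        rw [← neg_sub A B] at n1 n2
        exact ⟨B, -(A - B), Or.inr (Or.inr (Or.inr ⟨rfl, rfl⟩)), m1, m2, n1, n2⟩

end Pool.Agent.H77.SV
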