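import Pool.Agent.H77.SV.SqSum

/-!
# Module SqExp (about 220 lines): exponential moments of the number of square divisors.

PROOF of `sq_exp`. For `i < k` let `s_i(x)` be the number of primes `p > w` with `p^2 | l_i(x)`. For `x` in
the box (coprime) `sqn x ≤ sum_i s_i(x)` (`sq_dvd_iff`), so
`B^(sqn x) ≤ prod_i B^(s_i) ≤ sum_i B^(k s_i)` (the largest factor to the power `k`). Put `B' = B^k ≥ 1`.
For fixed `i` the number of `x` in the box with `|l_i(x)| = L` is `≤ 2 (2T+1) ≤ 6 T` for every `L ≥ 1`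
(as `r_i ≠ 0` or `s_i ≠ 0`, see Tail), and `1 ≤ |l_i(x)| ≤ 2wT =: N`. Hence
`sum_x B'^(s_i(x)) ≤ 6 T sum_{L ≤ N} B'^(s(L))`, `s(L) = #{p : p^2 | L}`, and
`B'^(s(L)) = sum_{S ⊆ {p : p^2 | L}} (B' - 1)^#S` (`Finset.prod_one_add` / binomial), so
`sum_{L ≤ N} B'^(s(L)) ≤ sum_{S ⊆ primes ≤ N} (B'-1)^#S #{L ≤ N : prod_{p ∈ S} p^2 | L} ≤
 N sum_S prod_{p ∈ S} (B'-1)/p^2 = N prod_{p ≤ N} (1 + (B'-1)/p^2) ≤ N exp (2 (B' - 1))`.
(`sum_{n ≤ N} 1/n^2 ≤ 2`.) Total `≤ k 6 T 2 w T exp (2 B')`.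
PROOF of `large_primes'`. As `large_primes` in SqSum: `z^(number) ≤ |P(x)| ≤ (2 w T)^k`.
-/

set_option autoImplicit false

namespace Pool.Agent.H77.SV

open Finset

variable {k : ℕ} {F : Fam k} {w : ℕ}

/-- points of the square on a line -/
private lemma SqExp_line (T : ℕ) (r s c : ℤ) (h : r ≠ 0 ∨ s ≠ 0) :
    (((Icc (-(T : ℤ)) T) ×ˢ (Icc (-(T : ℤ)) T)).filter fun x => r * x.1 + s * x.2 = c).card
      ≤ 2 * T + 1 := by
  have hI : (Icc (-(T : ℤ)) T).card = 2 * T + 1 := by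
    rw [Int.card_Icc]
    omega
  rw [← hI]
  rcases h with h | h
  · refine Finset.card_le_card_of_injOn (fun x => x.2) (fun x hx => ?_) ?_
    · simp only [Finset.coe_filter, Finset.mem_product, Set.mem_ofPred_eq] at hx
      exact hx.1.2
    · rintro ⟨a, b⟩ hx ⟨a', b'⟩ hx' hb
      simp only [Finset.coe_filter, Finset.mem_product, Set.mem_ofPred_eq] at hx hx' hb
      subst hb
      have h1 : r * (a - a') = 0 := by linear_combination hx.2 - hx'.2
      rcases mul_eq_zero.1 h1 with h2 | h2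
      · exact absurd h2 h
      · rw [sub_eq_zero.1 h2]
  · refine Finset.card_le_card_of_injOn (fun x => x.1) (fun x hx => ?_) ?_
    · simp only [Finset.coe_filter, Finset.mem_product, Set.mem_ofPred_eq] at hx
      exact hx.1.1
    · rintro ⟨a, b⟩ hx ⟨a', b'⟩ hx' hb
      simp only [Finset.coe_filter, Finset.mem_product, Set.mem_ofPred_eq] at hx hx' hb
      subst hb
      have h1 : s * (b - b') = 0 := by linear_combination hx.2 - hx'.2
      rcases mul_eq_zero.1 h1 with h2 | h2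
      · exact absurd h2 h
      · rw [sub_eq_zero.1 h2]

private lemma SqExp_rs (hw : F.Big w) (i : Fin k) : F.r i ≠ 0 ∨ F.s i ≠ 0 := by
  rcases exists_rs hw (lt_add_one w) i with h | h
  · exact Or.inl fun h0 => h (by rw [h0]; exact dvd_zero _)
  · exact Or.inr fun h0 => h (by rw [h0]; exact dvd_zero _)

private lemma SqExp_level (hw : F.Big w) {T : ℕ} (hT : 1 ≤ T) (i : Fin k) (L : ℕ) :
    (((Icc (-(T : ℤ)) T) ×ˢ (Icc (-(T : ℤ)) T)).filter
      fun x => (F.l i x.1 x.2).natAbs = L).card ≤ 6 * T := by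
  have h1 := SqExp_line T (F.r i) (F.s i) (L : ℤ) (SqExp_rs hw i)
  have h2 := SqExp_line T (F.r i) (F.s i) (-(L : ℤ)) (SqExp_rs hw i)
  have h3 : ((Icc (-(T : ℤ)) T) ×ˢ (Icc (-(T : ℤ)) T)).filter
      (fun x => (F.l i x.1 x.2).natAbs = L) ⊆
      (((Icc (-(T : ℤ)) T) ×ˢ (Icc (-(T : ℤ)) T)).filter
        fun x => F.r i * x.1 + F.s i * x.2 = (L : ℤ)) ∪
      (((Icc (-(T : ℤ)) T) ×ˢ (Icc (-(T : ℤ)) T)).filter
        fun x => F.r i * x.1 + F.s i * x.2 = -(L : ℤ)) := by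
    intro x hx
    rw [Finset.mem_filter] at hx
    rw [Finset.mem_union, Finset.mem_filter, Finset.mem_filter]
    have h4 := hx.2
    unfold Fam.l at h4
    rcases Int.natAbs_eq (F.r i * x.1 + F.s i * x.2) with h5 | h5
    · exact Or.inl ⟨hx.1, by rw [h5, h4]⟩
    · exact Or.inr ⟨hx.1, by rw [h5, h4]⟩
  have h4 := (Finset.card_le_card h3).trans (Finset.card_union_le _ _)
  omega

private theorem SqExp_abs (hw : F.Big w) {T : ℕ} {x : ℤ × ℤ} (hx : x ∈ F.box T) (i : Fin k) :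
    |F.l i x.1 x.2| ≤ 2 * w * T := by
  rw [Fam.box, mem_filter, mem_product, mem_Icc, mem_Icc] at hx
  have h1 : |x.1| ≤ (T : ℤ) := abs_le.mpr hx.1.1
  have h2 : |x.2| ≤ (T : ℤ) := abs_le.mpr hx.1.2
  have h3 : |F.r i * x.1| ≤ w * T := by
    rw [abs_mul]
    exact mul_le_mul (hw.hr i) h1 (abs_nonneg _) (by positivity)
  have h4 : |F.s i * x.2| ≤ w * T := by
    rw [abs_mul]
    exact mul_le_mul (hw.hs i) h2 (abs_nonneg _) (by positivity)
  have h5 := abs_add_le (F.r i * x.1) (F.s i * x.2)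
  rw [Fam.l]
  linarith

private theorem SqExp_ne {T : ℕ} {x : ℤ × ℤ} (hx : x ∈ F.box T) (i : Fin k) :
    F.l i x.1 x.2 ≠ 0 := by
  rw [Fam.box, mem_filter] at hx
  have h := hx.2.2
  rw [Fam.P, prod_ne_zero_iff] at h
  exact h i (mem_univ i)

private theorem SqExp_hc (T : ℕ) {x : ℤ × ℤ} (hx : x ∈ F.box T) {p : ℕ} (hp : p.Prime) :
    ¬ ((p : ℤ) ∣ x.1 ∧ (p : ℤ) ∣ x.2) := by
  rintro ⟨h1, h2⟩
  rw [Fam.box, mem_filter] at hx
  have h3 := hx.2.1.isUnit_of_dvd' h1 h2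
  exact (Nat.prime_iff_prime_int.mp hp).not_isUnit h3

/-- number of primes `p > w` with `p^2 | L` -/
private def sN (w L : ℕ) : ℕ := (L.primeFactors.filter fun p => w < p ∧ p ^ 2 ∣ L).card

private theorem SqExp_sqn (hw : F.Big w) {T : ℕ} {x : ℤ × ℤ} (hx : x ∈ F.box T) :
    sqn F w x ≤ ∑ i : Fin k, sN w (F.l i x.1 x.2).natAbs := by
  have hsub : ((F.P x.1 x.2).natAbs.primeFactors.filter fun p =>
      w < p ∧ (p : ℤ) ^ 2 ∣ F.P x.1 x.2) ⊆ (univ : Finset (Fin k)).biUnion fun i =>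
        (F.l i x.1 x.2).natAbs.primeFactors.filter fun p =>
          w < p ∧ p ^ 2 ∣ (F.l i x.1 x.2).natAbs := by
    intro p hp
    rw [mem_filter, Nat.mem_primeFactors] at hp
    obtain ⟨⟨hpp, -, -⟩, hpw, hp2⟩ := hp
    obtain ⟨i, hi⟩ := (sq_dvd_iff hw hpp hpw (SqExp_hc T hx hpp)).mp hp2
    have h1 : p ^ 2 ∣ (F.l i x.1 x.2).natAbs := by
      have h2 : ((p ^ 2 : ℕ) : ℤ) ∣ F.l i x.1 x.2 := by
        push_cast
        exact hi
      exact Int.natCast_dvd.mp h2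
    rw [mem_biUnion]
    refine ⟨i, mem_univ i, ?_⟩
    rw [mem_filter, Nat.mem_primeFactors]
    exact ⟨⟨hpp, (dvd_pow_self p two_ne_zero).trans h1, Int.natAbs_ne_zero.mpr (SqExp_ne hx i)⟩,
      hpw, h1⟩
  exact (card_le_card hsub).trans card_biUnion_le

private theorem SqExp_pow (hw : F.Big w) {T : ℕ} {x : ℤ × ℤ} (hx : x ∈ F.box T) {B : ℝ}
    (hB : 1 ≤ B) : B ^ (sqn F w x) ≤ ∑ i : Fin k, (B ^ k) ^ (sN w (F.l i x.1 x.2).natAbs) := by
  have hk : 0 < k := by have := F.hk; omega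
  obtain ⟨i₀, -, hi₀⟩ := exists_max_image (univ : Finset (Fin k))
    (fun i => sN w (F.l i x.1 x.2).natAbs) ⟨⟨0, hk⟩, mem_univ _⟩
  have h1 : sqn F w x ≤ k * sN w (F.l i₀ x.1 x.2).natAbs := by
    refine (SqExp_sqn hw hx).trans ?_
    refine (sum_le_sum fun i _ => hi₀ i (mem_univ i)).trans ?_
    rw [sum_const, card_univ, Fintype.card_fin, smul_eq_mul]
  have hB0 : 0 ≤ B := by linarith
  calc B ^ (sqn F w x) ≤ B ^ (k * sN w (F.l i₀ x.1 x.2).natAbs) := pow_le_pow_right₀ hB h1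
    _ = (B ^ k) ^ sN w (F.l i₀ x.1 x.2).natAbs := pow_mul _ _ _
    _ ≤ _ := single_le_sum (f := fun i : Fin k => (B ^ k) ^ (sN w (F.l i x.1 x.2).natAbs))
        (fun i _ => by positivity) (mem_univ i₀)

private theorem SqExp_dvd {U : Finset ℕ} {L : ℕ} (hU : ∀ p ∈ U, p.Prime ∧ p ^ 2 ∣ L) :
    ∏ p ∈ U, p ^ 2 ∣ L := by
  refine prod_dvd_of_isRelPrime ?_ fun p hp => (hU p hp).2
  intro p hp q hq hpq
  change IsRelPrime (p ^ 2) (q ^ 2)
  rw [← Nat.coprime_iff_isRelPrime]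
  exact Nat.Coprime.pow 2 2 ((Nat.coprime_primes (hU p hp).1 (hU q hq).1).mpr hpq)

/-- exponential moments of the number of square divisors of the numbers up to `N` -/
private theorem SqExp_sum (w N : ℕ) (hN : 1 ≤ N) {β : ℝ} (hβ : 0 ≤ β) :
    ∑ L ∈ Ioc 0 N, (1 + β) ^ (sN w L) ≤ N * Real.exp β := by
  obtain ⟨Q, hQ⟩ : ∃ Q : Finset ℕ, Q = (Ioc 1 N).filter Nat.Prime := ⟨_, rfl⟩
  have h1 : ∀ L ∈ Ioc 0 N, (1 + β) ^ (sN w L) ≤
      ∑ U ∈ Q.powerset, if (∏ p ∈ U, p ^ 2) ∣ L then β ^ U.card else 0 := by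
    intro L hL
    rw [mem_Ioc] at hL
    have e1 : (1 + β) ^ (sN w L) =
        ∑ U ∈ (L.primeFactors.filter fun p => w < p ∧ p ^ 2 ∣ L).powerset, β ^ U.card := by
      have h2 := prod_one_add (f := fun _ : ℕ => β)
        (L.primeFactors.filter fun p => w < p ∧ p ^ 2 ∣ L)
      rw [prod_const] at h2
      unfold sN
      rw [h2]
      exact sum_congr rfl fun U _ => prod_const _
    rw [e1, ← sum_filter]
    refine sum_le_sum_of_subset_of_nonneg ?_ fun U _ _ => by positivity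
    intro U hU
    rw [mem_powerset] at hU
    have h2 : ∀ p ∈ U, p.Prime ∧ p ^ 2 ∣ L := fun p hp => by
      have h3 := hU hp
      rw [mem_filter, Nat.mem_primeFactors] at h3
      exact ⟨h3.1.1, h3.2.2⟩
    rw [mem_filter, mem_powerset]
    refine ⟨fun p hp => ?_, SqExp_dvd h2⟩
    rw [hQ, mem_filter, mem_Ioc]
    obtain ⟨h3, h4⟩ := h2 p hp
    refine ⟨⟨h3.one_lt, ?_⟩, h3⟩
    exact (Nat.le_of_dvd hL.1 ((dvd_pow_self p two_ne_zero).trans h4)).trans hL.2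
  refine (sum_le_sum h1).trans ?_
  rw [sum_comm]
  have h2 : ∀ U ∈ Q.powerset, (∑ L ∈ Ioc 0 N, if (∏ p ∈ U, p ^ 2) ∣ L then β ^ U.card else 0) ≤
      N * ∏ p ∈ U, (β * ((p : ℝ) ^ 2)⁻¹) := by
    intro U hU
    rw [← sum_filter, sum_const, Nat.Ioc_filter_dvd_card_eq_div, nsmul_eq_mul, prod_mul_distrib,
      prod_const, prod_inv_distrib]
    have h3 : (((N / ∏ p ∈ U, p ^ 2 : ℕ)) : ℝ) ≤ (N : ℝ) * (∏ p ∈ U, (p : ℝ) ^ 2)⁻¹ := by
      refine (Nat.cast_div_le).trans ?_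
      rw [div_eq_mul_inv]
      push_cast
      exact le_rfl
    calc (((N / ∏ p ∈ U, p ^ 2 : ℕ)) : ℝ) * β ^ U.card ≤
        (N : ℝ) * (∏ p ∈ U, (p : ℝ) ^ 2)⁻¹ * β ^ U.card := by gcongr
      _ = _ := by ring
  refine (sum_le_sum h2).trans ?_
  rw [← mul_sum, ← prod_one_add]
  have h3 : ∏ p ∈ Q, (1 + β * ((p : ℝ) ^ 2)⁻¹) ≤ Real.exp (β * ∑ p ∈ Q, ((p : ℝ) ^ 2)⁻¹) := by
    rw [mul_sum, Real.exp_sum]
    refine prod_le_prod (fun p _ => by positivity) fun p _ => ?_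
    rw [add_comm]
    exact Real.add_one_le_exp _
  have h4 : ∑ p ∈ Q, ((p : ℝ) ^ 2)⁻¹ ≤ 1 := by
    have hb := sum_Ioc_inv_sq_le_sub (α := ℝ) (k := 1) (n := N) one_ne_zero hN
    have hb2 : 0 ≤ ((N : ℕ) : ℝ)⁻¹ := by positivity
    rw [hQ]
    refine (sum_le_sum_of_subset_of_nonneg (filter_subset _ _) fun p _ _ => by positivity).trans ?_
    rw [Nat.cast_one, inv_one] at hb
    linarith
  have h5 : Real.exp (β * ∑ p ∈ Q, ((p : ℝ) ^ 2)⁻¹) ≤ Real.exp β := by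
    refine Real.exp_le_exp.mpr ?_
    calc β * ∑ p ∈ Q, ((p : ℝ) ^ 2)⁻¹ ≤ β * 1 := by gcongr
      _ = β := mul_one _
  exact mul_le_mul_of_nonneg_left (h3.trans h5) (Nat.cast_nonneg N)

theorem sq_exp (hw : F.Big w) (B : ℝ) (hB : 1 ≤ B) : ∃ C : ℝ, 0 < C ∧ ∀ T : ℕ, 1 ≤ T →
    ∑ x ∈ F.box T, B ^ (sqn F w x) ≤ C * (T : ℝ) ^ 2 := by
  have hkN : 0 < k := by have := F.hk; omega
  have hk : (0 : ℝ) < k := by exact_mod_cast hkN
  have hw0 : 0 < w := by have := hw.h12; omega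
  have hwR : (0 : ℝ) < w := by exact_mod_cast hw0
  refine ⟨k * (12 * w * Real.exp (B ^ k - 1)), by positivity, fun T hT => ?_⟩
  have hBk : 1 ≤ B ^ k := one_le_pow₀ hB
  refine (sum_le_sum fun x hx => SqExp_pow hw hx hB).trans ?_
  rw [sum_comm]
  have h1 : ∀ i : Fin k, ∑ x ∈ F.box T, (B ^ k) ^ (sN w (F.l i x.1 x.2).natAbs) ≤
      12 * w * Real.exp (B ^ k - 1) * (T : ℝ) ^ 2 := by
    intro i
    have hmap : ∀ x ∈ F.box T, (F.l i x.1 x.2).natAbs ∈ Ioc 0 (2 * w * T) := by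
      intro x hx
      rw [mem_Ioc]
      refine ⟨Int.natAbs_pos.mpr (SqExp_ne hx i), ?_⟩
      have h2 := SqExp_abs hw hx i
      have h3 : ((F.l i x.1 x.2).natAbs : ℤ) ≤ ((2 * w * T : ℕ) : ℤ) := by
        rw [Int.natCast_natAbs]
        push_cast
        exact h2
      exact_mod_cast h3
    rw [← sum_fiberwise_of_maps_to hmap]
    have h2 : ∀ L ∈ Ioc 0 (2 * w * T),
        ∑ x ∈ (F.box T).filter (fun x => (F.l i x.1 x.2).natAbs = L),
          (B ^ k) ^ (sN w (F.l i x.1 x.2).natAbs) ≤ 6 * T * (1 + (B ^ k - 1)) ^ (sN w L) := by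
      intro L _
      have e1 : ∑ x ∈ (F.box T).filter (fun x => (F.l i x.1 x.2).natAbs = L),
          (B ^ k) ^ (sN w (F.l i x.1 x.2).natAbs) =
          (((F.box T).filter (fun x => (F.l i x.1 x.2).natAbs = L)).card : ℝ) *
            (B ^ k) ^ (sN w L) := by
        rw [← nsmul_eq_mul, ← sum_const]
        refine sum_congr rfl fun x hx => ?_
        rw [(mem_filter.mp hx).2]
      have e2 : ((F.box T).filter (fun x => (F.l i x.1 x.2).natAbs = L)).card ≤ 6 * T := by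
        refine (card_le_card ?_).trans (SqExp_level hw hT i L)
        intro x hx
        rw [mem_filter] at hx ⊢
        refine ⟨?_, hx.2⟩
        have h3 := hx.1
        unfold Fam.box at h3
        exact (mem_filter.mp h3).1
      have e3 : (((F.box T).filter (fun x => (F.l i x.1 x.2).natAbs = L)).card : ℝ) ≤ 6 * T := by
        exact_mod_cast e2
      rw [e1, add_sub_cancel]
      gcongr
    refine (sum_le_sum h2).trans ?_
    rw [← mul_sum]
    have hN : 1 ≤ 2 * w * T := by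
      have : 0 < 2 * w * T := by positivity
      omega
    have h3 := SqExp_sum w (2 * w * T) hN (β := B ^ k - 1) (by linarith)
    calc 6 * (T : ℝ) * ∑ L ∈ Ioc 0 (2 * w * T), (1 + (B ^ k - 1)) ^ (sN w L) ≤
        6 * (T : ℝ) * (((2 * w * T : ℕ) : ℝ) * Real.exp (B ^ k - 1)) := by gcongr
      _ = _ := by
        push_cast
        ring
  refine (sum_le_sum fun i _ => h1 i).trans (le_of_eq ?_)
  rw [sum_const, card_univ, Fintype.card_fin, nsmul_eq_mul]
  ring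

theorem large_primes' (hw : F.Big w) {T z : ℕ} (hT : 1 ≤ T) (hz : 2 ≤ z) {x : ℤ × ℤ}
    (hx : x ∈ F.box T) :
    (((F.P x.1 x.2).natAbs.primeFactors.filter fun p => z < p).card : ℝ) ≤
      k * (Real.log (2 * w * T) / Real.log z) := by
  have hw12 : (12 : ℝ) ≤ w := by exact_mod_cast hw.h12
  have hTr : (1 : ℝ) ≤ T := by exact_mod_cast hT
  have hzr : (2 : ℝ) ≤ z := by exact_mod_cast hz
  have hlz : 0 < Real.log z := Real.log_pos (by linarith)
  have hP : F.P x.1 x.2 ≠ 0 := by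
    rw [Fam.box, mem_filter] at hx
    exact hx.2.2
  obtain ⟨c, hc⟩ : ∃ c, c = ((F.P x.1 x.2).natAbs.primeFactors.filter fun p => z < p).card :=
    ⟨_, rfl⟩
  rw [← hc]
  have h1 : z ^ c ≤ (F.P x.1 x.2).natAbs := by
    calc z ^ c = ∏ _p ∈ (F.P x.1 x.2).natAbs.primeFactors.filter fun p => z < p, z := by
          rw [prod_const, hc]
      _ ≤ ∏ p ∈ (F.P x.1 x.2).natAbs.primeFactors.filter fun p => z < p, p :=
          prod_le_prod' fun p hp => (mem_filter.mp hp).2.le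
      _ ≤ (F.P x.1 x.2).natAbs := by
          refine Nat.le_of_dvd (Int.natAbs_pos.mpr hP) ?_
          exact (prod_dvd_prod_of_subset _ _ _ (filter_subset _ _)).trans
            (Nat.prod_primeFactors_dvd _)
  have h2 : ((F.P x.1 x.2).natAbs : ℝ) ≤ (2 * w * T) ^ k := by
    have e : (((F.P x.1 x.2).natAbs : ℕ) : ℝ) = |((F.P x.1 x.2 : ℤ) : ℝ)| := by
      rw [Nat.cast_natAbs]
      push_cast
      rfl
    rw [e, Fam.P]
    push_cast
    rw [abs_prod]
    calc ∏ i : Fin k, |((F.l i x.1 x.2 : ℤ) : ℝ)| ≤ ∏ _i : Fin k, (2 * (w : ℝ) * T) := by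
          refine prod_le_prod (fun i _ => abs_nonneg _) fun i _ => ?_
          have := SqExp_abs hw hx i
          exact_mod_cast this
      _ = (2 * w * T) ^ k := by
          rw [prod_const, card_univ, Fintype.card_fin]
  have h3 : (z : ℝ) ^ c ≤ (2 * w * T) ^ k := by
    refine le_trans ?_ h2
    exact_mod_cast h1
  have h4 : (c : ℝ) * Real.log z ≤ k * Real.log (2 * w * T) := by
    have := Real.log_le_log (by positivity) h3
    rwa [Real.log_pow, Real.log_pow] at this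
  rw [← mul_div_assoc, le_div_iff₀ hlz]
  exact h4

end Pool.Agent.H77.SV
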