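import Pool.Agent.H77.SV.SmTailA
import Pool.Agent.H77.SV.Geo

/-!
# Module TailA (about 180 lines; adapt Tail.lean of helper85): few pairs are not good, arbitrary
exponent.

PROOF. Exactly as in Tail, with `smooth_tailA` instead of `smooth_tail`:
`N = 2wT`, `y = T^(1/(4k))`, `A log y / log z = A log T / (4 k log z)`.
-/

set_option autoImplicit false

namespace Pool.Agent.H77.SV

open Finset

variable {k : ℕ} {F : Fam k} {w : ℕ}

private lemma tailA_sm_eq (z N : ℕ) :
    sm z N = ∏ p ∈ (range (z + 1)).filter Nat.Prime, p ^ N.factorization p := by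
  unfold sm
  refine Finset.prod_subset (fun p hp => ?_) (fun p hp hp2 => ?_)
  · rw [Finset.mem_filter] at hp
    rw [Finset.mem_filter, Finset.mem_range]
    exact ⟨by have := hp.2; omega, Nat.prime_of_mem_primeFactors hp.1⟩
  · rw [Finset.mem_filter, Finset.mem_range] at hp
    have h1 : p ∉ N.primeFactors := fun h => hp2 (Finset.mem_filter.2 ⟨h, by have := hp.1; omega⟩)
    have h2 : N.factorization p = 0 := by
      rw [← Finsupp.notMem_support_iff, Nat.support_factorization]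
      exact h1
    rw [h2, pow_zero]

private lemma tailA_sm_mul (z : ℕ) {a b : ℕ} (ha : a ≠ 0) (hb : b ≠ 0) :
    sm z (a * b) = sm z a * sm z b := by
  rw [tailA_sm_eq, tailA_sm_eq, tailA_sm_eq, ← Finset.prod_mul_distrib]
  refine Finset.prod_congr rfl fun p _ => ?_
  rw [Nat.factorization_mul ha hb, Finsupp.add_apply, pow_add]

private lemma tailA_sm_one (z : ℕ) : sm z 1 = 1 := by
  unfold sm
  simp

private lemma tailA_sm_prod (z : ℕ) {J : Type} (S : Finset J) (f : J → ℕ) (h : ∀ j ∈ S, f j ≠ 0) :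
    sm z (∏ j ∈ S, f j) = ∏ j ∈ S, sm z (f j) := by
  classical
  induction S using Finset.induction_on with
  | empty => simp [tailA_sm_one]
  | insert a S ha ih =>
    rw [Finset.prod_insert ha, Finset.prod_insert ha,
      tailA_sm_mul z (h a (Finset.mem_insert_self a S))
        (Finset.prod_ne_zero_iff.2 fun j hj => h j (Finset.mem_insert_of_mem hj)),
      ih fun j hj => h j (Finset.mem_insert_of_mem hj)]

/-- points of the square on a line -/
private lemma tailA_line_card (T : ℕ) (r s c : ℤ) (h : r ≠ 0 ∨ s ≠ 0) :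
    (((Icc (-(T : ℤ)) T) ×ˢ (Icc (-(T : ℤ)) T)).filter fun x => r * x.1 + s * x.2 = c).card
      ≤ 2 * T + 1 := by
  have hI : (Icc (-(T : ℤ)) T).card = 2 * T + 1 := by
    rw [Int.card_Icc]
    omega
  rw [← hI]
  rcases h with h | h
  · refine Finset.card_le_card_of_injOn (fun x => x.2) (fun x hx => ?_) ?_
    · simp only [Finset.coe_filter, Finset.mem_product, Set.mem_ofPred_eq] at hx
      exact hx.1.2
    · rintro ⟨a, b⟩ hx ⟨a', b'⟩ hx' hb
      simp only [Finset.coe_filter, Finset.mem_product, Set.mem_ofPred_eq] at hx hx' hb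
      subst hb
      have h1 : r * (a - a') = 0 := by linear_combination hx.2 - hx'.2
      rcases mul_eq_zero.1 h1 with h2 | h2
      · exact absurd h2 h
      · rw [sub_eq_zero.1 h2]
  · refine Finset.card_le_card_of_injOn (fun x => x.1) (fun x hx => ?_) ?_
    · simp only [Finset.coe_filter, Finset.mem_product, Set.mem_ofPred_eq] at hx
      exact hx.1.1
    · rintro ⟨a, b⟩ hx ⟨a', b'⟩ hx' hb
      simp only [Finset.coe_filter, Finset.mem_product, Set.mem_ofPred_eq] at hx hx' hb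
      subst hb
      have h1 : s * (b - b') = 0 := by linear_combination hx.2 - hx'.2
      rcases mul_eq_zero.1 h1 with h2 | h2
      · exact absurd h2 h
      · rw [sub_eq_zero.1 h2]

private lemma tailA_rs_ne (hw : F.Big w) (i : Fin k) : F.r i ≠ 0 ∨ F.s i ≠ 0 := by
  rcases exists_rs hw (lt_add_one w) i with h | h
  · exact Or.inl fun h0 => h (by rw [h0]; exact dvd_zero _)
  · exact Or.inr fun h0 => h (by rw [h0]; exact dvd_zero _)

private lemma tailA_level_card (hw : F.Big w) {T : ℕ} (hT : 1 ≤ T) (i : Fin k) (L : ℕ) :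
    (((Icc (-(T : ℤ)) T) ×ˢ (Icc (-(T : ℤ)) T)).filter
      fun x => (F.l i x.1 x.2).natAbs = L).card ≤ 6 * T := by
  have h1 := tailA_line_card T (F.r i) (F.s i) (L : ℤ) (tailA_rs_ne hw i)
  have h2 := tailA_line_card T (F.r i) (F.s i) (-(L : ℤ)) (tailA_rs_ne hw i)
  have h3 : ((Icc (-(T : ℤ)) T) ×ˢ (Icc (-(T : ℤ)) T)).filter
      (fun x => (F.l i x.1 x.2).natAbs = L) ⊆
      (((Icc (-(T : ℤ)) T) ×ˢ (Icc (-(T : ℤ)) T)).filter
        fun x => F.r i * x.1 + F.s i * x.2 = (L : ℤ)) ∪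
      (((Icc (-(T : ℤ)) T) ×ˢ (Icc (-(T : ℤ)) T)).filter
        fun x => F.r i * x.1 + F.s i * x.2 = -(L : ℤ)) := by
    intro x hx
    rw [Finset.mem_filter] at hx
    rw [Finset.mem_union, Finset.mem_filter, Finset.mem_filter]
    have h4 := hx.2
    unfold Fam.l at h4
    rcases Int.natAbs_eq (F.r i * x.1 + F.s i * x.2) with h5 | h5
    · exact Or.inl ⟨hx.1, by rw [h5, h4]⟩
    · exact Or.inr ⟨hx.1, by rw [h5, h4]⟩
  have h4 := (Finset.card_le_card h3).trans (Finset.card_union_le _ _)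
  omega

open Classical in
theorem tail_boundA (hw : F.Big w) (A : ℝ) (hA : 1 ≤ A) : ∃ C : ℝ, 0 < C ∧ ∀ (T z : ℕ), 1 ≤ T →
    Real.exp (8 * A) ≤ z →
    (((F.box T).filter fun x => ¬ F.Good T z x.1 x.2).card : ℝ) ≤
      C * (T : ℝ) ^ 2 * Real.exp (-(A * Real.log T / (4 * k * Real.log z))) := by
  obtain ⟨C0, hC0, hC⟩ := smooth_tailA A hA
  have hkN : 0 < k := by have := F.hk; omega
  have hk : (0 : ℝ) < k := by exact_mod_cast hkN
  have hwR : (0 : ℝ) < w := by
    have := hw.h12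
    exact_mod_cast (by omega : 0 < w)
  refine ⟨12 * k * w * C0, by positivity, fun T z hT hz => ?_⟩
  have hTR : (0 : ℝ) < T := by exact_mod_cast hT
  obtain ⟨y, hy⟩ : ∃ y : ℝ, y = (T : ℝ) ^ (1 / (4 * (k : ℝ))) := ⟨_, rfl⟩
  have hy1 : 1 ≤ y := by
    rw [hy]
    exact Real.one_le_rpow (by exact_mod_cast hT) (by positivity)
  have hlog : Real.log y = Real.log T / (4 * k) := by
    rw [hy, Real.log_rpow hTR]
    ring
  have hyT : (y ^ k) ^ 4 = T := by
    rw [← pow_mul, hy, ← Real.rpow_natCast, ← Real.rpow_mul hTR.le]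
    have : 1 / (4 * (k : ℝ)) * ((k * 4 : ℕ) : ℝ) = 1 := by
      push_cast
      field_simp
    rw [this, Real.rpow_one]
  have hsub : ((F.box T).filter fun x => ¬ F.Good T z x.1 x.2) ⊆
      (univ : Finset (Fin k)).biUnion fun i =>
        ((Icc 1 (2 * w * T)).filter fun L : ℕ => y < (sm z L : ℝ)).biUnion fun L =>
          ((Icc (-(T : ℤ)) T) ×ˢ (Icc (-(T : ℤ)) T)).filter
            fun x => (F.l i x.1 x.2).natAbs = L := by
    intro x hx
    rw [Finset.mem_filter] at hx
    obtain ⟨hx1, hx2⟩ := hx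
    unfold Fam.box at hx1
    rw [Finset.mem_filter] at hx1
    obtain ⟨hx1, -, hP⟩ := hx1
    unfold Fam.Good at hx2
    rw [not_le] at hx2
    have hl : ∀ i, F.l i x.1 x.2 ≠ 0 := fun i => by
      unfold Fam.P at hP
      exact Finset.prod_ne_zero_iff.1 hP i (Finset.mem_univ i)
    have hPn : (F.P x.1 x.2).natAbs = ∏ i, (F.l i x.1 x.2).natAbs := by
      unfold Fam.P
      exact map_prod Int.natAbsHom _ _
    rw [hPn, tailA_sm_prod z _ _ (fun i _ => Int.natAbs_ne_zero.2 (hl i))] at hx2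
    have hex : ∃ i, y < (sm z (F.l i x.1 x.2).natAbs : ℝ) := by
      by_contra hne
      push Not at hne
      have h1 : (∏ i, (sm z (F.l i x.1 x.2).natAbs : ℝ)) ≤ y ^ k := by
        refine (Finset.prod_le_prod (fun i _ => Nat.cast_nonneg _) fun i _ => hne i).trans ?_
        rw [Finset.prod_const, Finset.card_univ, Fintype.card_fin]
      have h2 : (T : ℝ) < (∏ i, (sm z (F.l i x.1 x.2).natAbs : ℝ)) ^ 4 := by exact_mod_cast hx2
      have h3 : (∏ i, (sm z (F.l i x.1 x.2).natAbs : ℝ)) ^ 4 ≤ (y ^ k) ^ 4 :=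
        pow_le_pow_left₀ (Finset.prod_nonneg fun i _ => Nat.cast_nonneg _) h1 4
      rw [hyT] at h3
      linarith
    obtain ⟨i, hi⟩ := hex
    rw [Finset.mem_biUnion]
    refine ⟨i, Finset.mem_univ i, ?_⟩
    rw [Finset.mem_biUnion]
    refine ⟨(F.l i x.1 x.2).natAbs, ?_, ?_⟩
    · rw [Finset.mem_filter, Finset.mem_Icc]
      refine ⟨⟨Nat.one_le_iff_ne_zero.2 (Int.natAbs_ne_zero.2 (hl i)), ?_⟩, hi⟩
      rw [Finset.mem_product, Finset.mem_Icc, Finset.mem_Icc] at hx1
      obtain ⟨⟨ha, hb⟩, hc, hd⟩ := hx1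
      have h1 : |F.l i x.1 x.2| ≤ w * T + w * T := by
        unfold Fam.l
        refine (abs_add_le _ _).trans ?_
        rw [abs_mul, abs_mul]
        exact add_le_add
          (mul_le_mul (hw.hr i) (abs_le.2 ⟨ha, hb⟩) (abs_nonneg _) (Int.natCast_nonneg w))
          (mul_le_mul (hw.hs i) (abs_le.2 ⟨hc, hd⟩) (abs_nonneg _) (Int.natCast_nonneg w))
      have h2 : ((F.l i x.1 x.2).natAbs : ℤ) ≤ ((2 * w * T : ℕ) : ℤ) := by
        rw [Int.natCast_natAbs]
        push_cast
        linarith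
      exact_mod_cast h2
    · rw [Finset.mem_filter]
      exact ⟨hx1, rfl⟩
  have hcard : ((F.box T).filter fun x => ¬ F.Good T z x.1 x.2).card ≤
      ∑ _i : Fin k, ((Icc 1 (2 * w * T)).filter fun L : ℕ => y < (sm z L : ℝ)).card * (6 * T) := by
    refine (Finset.card_le_card hsub).trans (Finset.card_biUnion_le.trans ?_)
    refine Finset.sum_le_sum fun i _ => ?_
    refine Finset.card_biUnion_le.trans ?_
    refine (Finset.sum_le_sum fun L _ => tailA_level_card hw hT i L).trans ?_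
    rw [Finset.sum_const, smul_eq_mul]
  rw [Finset.sum_const, Finset.card_univ, Fintype.card_fin, smul_eq_mul] at hcard
  have hcR : (((F.box T).filter fun x => ¬ F.Good T z x.1 x.2).card : ℝ) ≤
      k * ((((Icc 1 (2 * w * T)).filter fun L : ℕ => y < (sm z L : ℝ)).card : ℝ) * (6 * T)) := by
    exact_mod_cast hcard
  have h1 := hC (2 * w * T) z y hz hy1
  have h2 : A * Real.log y / Real.log z = A * Real.log T / (4 * k * Real.log z) := by
    rw [hlog]
    field_simp
  rw [h2] at h1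
  refine hcR.trans ?_
  have h3 : (((Icc 1 (2 * w * T)).filter fun L : ℕ => y < (sm z L : ℝ)).card : ℝ) * (6 * T) ≤
      (C0 * ((2 * w * T : ℕ) : ℝ) * Real.exp (-(A * Real.log T / (4 * k * Real.log z)))) * (6 * T) :=
    mul_le_mul_of_nonneg_right h1 (by positivity)
  refine (mul_le_mul_of_nonneg_left h3 hk.le).trans (le_of_eq ?_)
  push_cast
  ring

end Pool.Agent.H77.SV
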