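import Pool.Agent.H77.SV.SumGood
import Pool.Agent.H77.SV.TailA
import Pool.Agent.H77.SV.SqExp
import Pool.Agent.H77.SV.Ineq

/-!
# Module Moment: exponential moments, summation over all levels.

As Final, but with `c^rank`, `1 < c < 2`, `c = 2^s`: by `rank_ineq` and the weighted inequality between
the geometric and the arithmetic mean `c^rank ≤ 4^(t(1+#Bad)) θ^(-t) + θ #Sel`, `t = s/(1-s)`.
-/

set_option autoImplicit false

namespace Pool.Agent.H77.SV

open Finset

variable {k : ℕ} {F : Fam k} {w : ℕ}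

private lemma point_boundA (hw : F.Big w) {m n : ℤ} (hc : IsCoprime m n) (hP : F.P m n ≠ 0)
    (z : ℕ) (hz : w ≤ z) {s t θ : ℝ} (hs : 0 < s) (hs1 : s < 1) (ht : t = s / (1 - s))
    (hθ : 0 < θ) :
    ((2:ℝ) ^ s) ^ (Module.finrank ℤ (F.E m n).Point) ≤
      (4:ℝ) ^ (t * (1 + (F.Bad w z m n).card)) * θ ^ (-t) + θ * (F.SelZ w z m n).card := by
  have h := (rank_ineq hw hc hP z hz).2
  set r := Module.finrank ℤ (F.E m n).Point
  set B := (F.Bad w z m n).card
  set S := (F.SelZ w z m n).card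
  have h0 : (2:ℝ) ^ r ≤ (2 * 2 ^ B) ^ 2 * S := by exact_mod_cast h
  have h4 : (2 * (2:ℝ) ^ B) ^ 2 = (4:ℝ) ^ ((1:ℝ) + B) := by
    rw [Real.rpow_add (by norm_num), Real.rpow_one, Real.rpow_natCast, mul_pow, ← pow_mul,
      mul_comm B 2, pow_mul]
    norm_num
  rw [h4] at h0
  have hS0 : (0:ℝ) ≤ S := Nat.cast_nonneg _
  have h1s : 0 < 1 - s := by linarith
  set u : ℝ := (4:ℝ) ^ (t * (1 + B)) * θ ^ (-t) with hu
  have hu0 : 0 < u := by positivity
  have h5 : ((2:ℝ) ^ s) ^ r = ((2:ℝ) ^ r) ^ s := by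
    rw [← Real.rpow_natCast, ← Real.rpow_mul (by norm_num), mul_comm,
      Real.rpow_mul (by norm_num), Real.rpow_natCast]
  have hts : t * (1 - s) = s := by rw [ht]; field_simp
  have h6 : u ^ (1 - s) = ((4:ℝ) ^ ((1:ℝ) + B)) ^ s * θ ^ (-s) := by
    rw [hu, Real.mul_rpow (by positivity) (by positivity), ← Real.rpow_mul (by norm_num),
      ← Real.rpow_mul hθ.le, ← Real.rpow_mul (by norm_num)]
    congr 2
    · rw [mul_right_comm, hts]; ring
    · rw [neg_mul, hts]
  have h7 : ((2:ℝ) ^ r) ^ s ≤ u ^ (1 - s) * (θ * S) ^ s := by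
    rw [h6, Real.mul_rpow hθ.le hS0]
    have h8 : θ ^ (-s) * θ ^ s = 1 := by
      rw [← Real.rpow_add hθ]; simp
    calc ((2:ℝ) ^ r) ^ s ≤ ((4:ℝ) ^ ((1:ℝ) + B) * S) ^ s :=
          Real.rpow_le_rpow (by positivity) h0 hs.le
      _ = ((4:ℝ) ^ ((1:ℝ) + B)) ^ s * (S:ℝ) ^ s :=
          Real.mul_rpow (by positivity) hS0
      _ = ((4:ℝ) ^ ((1:ℝ) + B)) ^ s * (θ ^ (-s) * θ ^ s) * (S:ℝ) ^ s := by rw [h8, mul_one]
      _ = ((4:ℝ) ^ ((1:ℝ) + B)) ^ s * θ ^ (-s) * (θ ^ s * (S:ℝ) ^ s) := by ring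
  have h9 := Real.geom_mean_le_arith_mean2_weighted h1s.le hs.le hu0.le
    (mul_nonneg hθ.le hS0) (by ring)
  rw [h5]
  refine h7.trans (h9.trans ?_)
  have h10 : (1 - s) * u ≤ 1 * u := mul_le_mul_of_nonneg_right (by linarith) hu0.le
  have h11 : s * (θ * S) ≤ 1 * (θ * S) :=
    mul_le_mul_of_nonneg_right hs1.le (mul_nonneg hθ.le hS0)
  linarith

/-- the levels -/
private noncomputable def zz (T j : ℕ) : ℕ := ⌊Real.exp (Real.log T / (24 * 2 ^ j))⌋₊

private lemma zz_le (T j : ℕ) : (zz T j : ℝ) ≤ Real.exp (Real.log T / (24 * 2 ^ j)) :=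
  Nat.floor_le (Real.exp_pos _).le

private lemma zz_pow {T : ℕ} (j : ℕ) (hT : 1 ≤ T) : zz T j ^ 24 ≤ T := by
  have hT0 : (0:ℝ) < T := by exact_mod_cast hT
  have hl : 0 ≤ Real.log T := Real.log_nonneg (by exact_mod_cast hT)
  have h1 : ((zz T j : ℝ)) ^ 24 ≤ T := by
    refine (pow_le_pow_left₀ (Nat.cast_nonneg _) (zz_le T j) 24).trans ?_
    rw [← Real.exp_nat_mul]
    conv_rhs => rw [← Real.exp_log hT0]
    refine Real.exp_le_exp.2 ?_
    have h2 : (1:ℝ) ≤ 2 ^ j := one_le_pow₀ (by norm_num)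
    have h3 : ((24:ℕ):ℝ) * (Real.log T / (24 * 2 ^ j)) = Real.log T / 2 ^ j := by
      push_cast; field_simp
    rw [h3]
    exact div_le_self hl h2
  exact_mod_cast h1

private lemma zz_log {T j : ℕ} (h12 : 12 ≤ w) (h : w < zz T j) :
    Real.log (zz T j) ≤ Real.log T / (24 * 2 ^ j) ∧
      Real.log T / (48 * 2 ^ j) ≤ Real.log (zz T j) := by
  have hz : (12:ℝ) < zz T j := by exact_mod_cast lt_of_le_of_lt h12 h
  have hz0 : (0:ℝ) < zz T j := by linarith
  constructor
  · rw [Real.log_le_iff_le_exp hz0]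
    exact zz_le T j
  · have h1 : Real.exp (Real.log T / (24 * 2 ^ j)) < zz T j + 1 := Nat.lt_floor_add_one _
    have h2 : (zz T j : ℝ) + 1 ≤ (zz T j : ℝ) ^ 2 := by nlinarith
    have h3 : Real.log T / (24 * 2 ^ j) ≤ 2 * Real.log (zz T j) := by
      have h4 := Real.log_le_log (Real.exp_pos _) (h1.le.trans h2)
      rw [Real.log_exp, Real.log_pow] at h4
      exact_mod_cast h4
    have h5 : Real.log T / (48 * 2 ^ j) = (Real.log T / (24 * 2 ^ j)) / 2 := by
      rw [div_div]; congr 1; ring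
    rw [h5]; linarith

private lemma zz_small (T : ℕ) {w : ℕ} (h12 : 12 ≤ w) : ∃ j, zz T j ≤ w := by
  obtain ⟨j, hj⟩ := exists_nat_gt (Real.log T)
  refine ⟨j, ?_⟩
  have h1 : Real.log T / (24 * 2 ^ j) < 1 := by
    have h2 : (j:ℝ) < 2 ^ j := by exact_mod_cast Nat.lt_two_pow_self
    rw [div_lt_one (by positivity)]
    linarith
  have h3 : (zz T j : ℝ) < 3 := by
    refine (zz_le T j).trans_lt ((Real.exp_lt_exp.2 h1).trans ?_)
    have := Real.exp_one_lt_d9
    linarith
  have h4 : zz T j < 3 := by exact_mod_cast h3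
  omega

private lemma selz_ww (x : ℤ × ℤ) : ((F.SelZ w w x.1 x.2).card : ℝ) ≤ 1 := by
  have hE : IsEmpty (Pr w w) := by
    constructor
    rintro ⟨p, hp⟩
    unfold Pr at hp
    rw [mem_filter, mem_Ioc] at hp
    omega
  have h1 : (F.SelZ w w x.1 x.2).card ≤ Fintype.card (Pr w w → V2) := Finset.card_le_univ _
  have h2 : Fintype.card (Pr w w → V2) = 1 := Fintype.card_unique
  exact_mod_cast h1.trans h2.le

private lemma big_mono {w w' : ℕ} (hw : F.Big w) (h : w ≤ w') : F.Big w' := by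
  have h' : (w:ℤ) ≤ w' := by exact_mod_cast h
  exact ⟨hw.h12.trans h, hw.hk.trans h, fun i => (hw.hr i).trans h', fun i => (hw.hs i).trans h',
    fun i j => (hw.hrs i j).trans h', hw.hal.trans h', hw.hbe.trans h', hw.hga.trans h'⟩

open Classical in
private theorem moment_aux (F : Fam k) {s : ℝ} (hs : 0 < s) (hs1 : s < 1) :
    ∃ C : ℝ, ∀ T : ℕ, 1 ≤ T →
    ∑ x ∈ F.box T, ((2:ℝ) ^ s) ^ (Module.finrank ℤ (F.E x.1 x.2).Point) ≤ C * (T : ℝ) ^ 2 := by
  obtain ⟨w0, hw0⟩ := F.exists_big
  have hk0 : (0:ℝ) < k := by have := F.hk; exact_mod_cast (by omega : 0 < k)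
  set t : ℝ := s / (1 - s) with ht
  have ht0 : 0 < t := div_pos hs (by linarith)
  set g : ℝ := t * (96 * k * Real.log 4 + (k + 1) * Real.log 2) with hg
  have hl4 : 0 < Real.log 4 := Real.log_pos (by norm_num)
  have hl2 : 0 < Real.log 2 := Real.log_pos (by norm_num)
  have hg0 : 0 < g := by positivity
  set A : ℝ := 1 + k * (3 * g + 1) + 70 * k ^ 2 * t with hA
  have hA1 : 1 ≤ A := by
    have : 0 ≤ (k:ℝ) * (3 * g + 1) + 70 * k ^ 2 * t := by positivity
    linarith
  obtain ⟨w1, hw1⟩ := exists_nat_ge (Real.exp (8 * A))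
  set w : ℕ := max w0 w1 with hwdef
  have hw : F.Big w := big_mono hw0 (le_max_left _ _)
  have hwA : Real.exp (8 * A) ≤ w := hw1.trans (by exact_mod_cast le_max_right _ _)
  obtain ⟨C1, hC1, hgood⟩ := sum_good hw
  obtain ⟨C2, hC2, htail⟩ := tail_boundA hw A hA1
  have h12 := hw.h12
  have hw12 : (12:ℝ) ≤ w := by exact_mod_cast h12
  have hw0' : (0:ℝ) < w := by linarith
  have hlw : 0 < Real.log w := Real.log_pos (by linarith)
  have hlw1 : 0 < Real.log (w + 1) := Real.log_pos (by linarith)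
  have hlww : Real.log (w + 1) ≤ 2 * Real.log w := by
    have h1 : Real.log (w + 1) ≤ Real.log ((w:ℝ) ^ 2) :=
      Real.log_le_log (by linarith) (by nlinarith)
    rw [Real.log_pow] at h1
    exact_mod_cast h1
  set Bt : ℝ := (4:ℝ) ^ t with hBt
  have hBt1 : 1 ≤ Bt := Real.one_le_rpow (by norm_num) ht0.le
  have hBt0 : 0 < Bt := by linarith
  obtain ⟨C3, hC3, hsq⟩ := sq_exp hw (Bt ^ 2) (one_le_pow₀ hBt1)
  set G : ℝ := (4:ℝ) ^ (t * (1 + w)) with hG
  have hG0 : 0 < G := by positivity
  set b : ℝ := t * k * Real.log 4 / Real.log w with hb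
  have hb0 : 0 < b := by positivity
  set C6 : ℝ := 9 * (G * (2 * w * (w + 1) ^ 24) ^ (3 * b) + 1) +
    C2 * (G * (2 * w) ^ (3 * b) + 1) with hC6
  set D : ℝ := 9 * (G * Real.exp (3 * g)) + G * C2 with hD
  refine ⟨G * C3 + (2 * D + 2 * C1 * 48 ^ k) + C6, fun T hT => ?_⟩
  have hT0 : (0:ℝ) < T := by exact_mod_cast hT
  have hT1 : (1:ℝ) ≤ T := by exact_mod_cast hT
  have hlT : 0 ≤ Real.log T := Real.log_nonneg hT1
  obtain ⟨J, hJ, hJ'⟩ : ∃ J, zz T J ≤ w ∧ ∀ j < J, w < zz T j := by
    refine ⟨Nat.find (zz_small T h12), Nat.find_spec (zz_small T h12), fun j hj => ?_⟩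
    exact not_le.1 (Nat.find_min (zz_small T h12) hj)
  have hTw : ∀ j < J, (2 * w : ℝ) ≤ T := by
    intro j hj
    have h1 := zz_pow j hT
    have h2 := hJ' j hj
    have h3 : w ^ 24 ≤ T := (Nat.pow_le_pow_left h2.le 24).trans h1
    have h4 : 2 * w ≤ w ^ 24 := by
      calc 2 * w ≤ w * w := Nat.mul_le_mul_right w (by omega)
        _ = w ^ 2 := (sq w).symm
        _ ≤ w ^ 24 := Nat.pow_le_pow_right (by omega) (by norm_num)
    exact_mod_cast h4.trans h3
  set Gd : ℕ → ℤ × ℤ → Prop := fun j x => F.Good T (zz T j) x.1 x.2 with hGd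
  obtain ⟨H, hH⟩ : ∃ H : ℕ → ℤ × ℤ → Prop, ∀ j x, H j x ↔ (Gd j x ∧ ∀ i < j, ¬ Gd i x) :=
    ⟨_, fun _ _ => Iff.rfl⟩
  obtain ⟨H', hH'⟩ : ∃ H' : ℤ × ℤ → Prop, ∀ x, H' x ↔ (∀ j < J, ¬ Gd j x) :=
    ⟨_, fun _ => Iff.rfl⟩
  -- ratio of logs
  have hratio : ∀ j < J, Real.log T / Real.log (zz T j) ≤ 48 * 2 ^ j := by
    intro j hj
    have h := (zz_log h12 (hJ' j hj)).2
    have hz : 0 < Real.log (zz T j) :=
      Real.log_pos (by exact_mod_cast (by have := hJ' j hj; omega : 1 < zz T j))
    rw [div_le_iff₀ hz]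
    rw [div_le_iff₀ (by positivity)] at h
    linarith
  set cinf : ℝ := G * (2 * w * T) ^ (3 * b) + 1 with hcinf
  have hcinf0 : 0 ≤ cinf := by positivity
  set ee : ℕ → ℝ := fun j => G * Real.exp (g * 2 ^ j) ^ 3 with hee
  -- elementary inequality
  have hEQ : ∀ E Q : ℝ, 1 ≤ E → 0 ≤ Q → E * Q ≤ E ^ 3 + Q ^ 2 := by
    intro E Q hE hQ
    have h1 : 0 ≤ (E ^ 2 - Q) ^ 2 := sq_nonneg _
    have h2 : E * (E * Q) ≤ E * (E ^ 3 + Q ^ 2) := by
      have h3 : 0 ≤ Q ^ 2 * (E - 1) := mul_nonneg (sq_nonneg _) (by linarith)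
      nlinarith [mul_nonneg (mul_nonneg (sq_nonneg E) hQ) zero_le_one]
    exact le_of_mul_le_mul_left h2 (by linarith)
  have hQQ : ∀ n : ℕ, (4:ℝ) ^ (t * n) = Bt ^ n := by
    intro n; rw [hBt, Real.rpow_mul (by norm_num), Real.rpow_natCast]
  -- pointwise bound
  have hpt : ∀ x ∈ F.box T, ((2:ℝ) ^ s) ^ (Module.finrank ℤ (F.E x.1 x.2).Point) ≤
      G * (Bt ^ 2) ^ (sqn F w x) + ∑ j ∈ range J, (if H j x then
        ee j + (2:ℝ) ^ (-(((k:ℝ) + 1) * j)) * (F.SelZ w (zz T j) x.1 x.2).card else 0) +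
      (if H' x then cinf else 0) := by
    intro x hx
    have hx' := hx
    unfold Fam.box at hx'
    rw [mem_filter] at hx'
    obtain ⟨_, hcop, hP⟩ := hx'
    have hnn : ∀ j ∈ range J, (0:ℝ) ≤ (if H j x then
        ee j + (2:ℝ) ^ (-(((k:ℝ) + 1) * j)) * (F.SelZ w (zz T j) x.1 x.2).card else 0) := by
      intro j _
      split_ifs
      · have : 0 ≤ ee j := by rw [hee]; positivity
        positivity
      · exact le_rfl
    have hbase : (1:ℝ) < 4 := by norm_num
    have hsqq : (Bt ^ (sqn F w x)) ^ 2 = (Bt ^ 2) ^ (sqn F w x) := by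
      rw [← pow_mul, ← pow_mul, mul_comm]
    by_cases hall : ∀ j < J, ¬ Gd j x
    · rw [if_pos ((hH' x).2 hall)]
      have h1 := point_boundA hw hcop hP w le_rfl hs hs1 ht one_pos
      have h2 := selz_ww (F := F) (w := w) x
      have h3 : ((F.Bad w w x.1 x.2).card : ℝ) ≤ w +
          ((F.P x.1 x.2).natAbs.primeFactors.filter fun p => w < p).card + sqn F w x := by
        exact_mod_cast bad_card (F := F) (w := w) w x
      have h4 := large_primes' hw hT (by omega : 2 ≤ w) hx
      have h5 := sum_nonneg hnn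
      rw [Real.one_rpow, mul_one, one_mul] at h1
      have h6 : (4:ℝ) ^ (t * (1 + (F.Bad w w x.1 x.2).card)) ≤
          G * ((2 * w * T) ^ b * Bt ^ (sqn F w x)) := by
        have h7 : t * (1 + ((F.Bad w w x.1 x.2).card : ℝ)) ≤ t * (1 + w) +
            (t * (k * (Real.log (2 * w * T) / Real.log w)) + t * (sqn F w x)) := by
          have : 1 + ((F.Bad w w x.1 x.2).card : ℝ) ≤ (1 + w) +
            (k * (Real.log (2 * w * T) / Real.log w) + sqn F w x) := by linarith
          calc _ ≤ t * ((1 + w) + (k * (Real.log (2 * w * T) / Real.log w) + sqn F w x)) :=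
                mul_le_mul_of_nonneg_left this ht0.le
            _ = _ := by ring
        refine (Real.rpow_le_rpow_of_exponent_le hbase.le h7).trans (le_of_eq ?_)
        rw [Real.rpow_add (by norm_num), Real.rpow_add (by norm_num), hQQ]
        congr 2
        rw [Real.rpow_def_of_pos (by norm_num), Real.rpow_def_of_pos (by positivity), hb]
        congr 1
        field_simp
      have h8 : (2 * w * T : ℝ) ^ b * Bt ^ (sqn F w x) ≤
          ((2 * w * T : ℝ) ^ b) ^ 3 + (Bt ^ (sqn F w x)) ^ 2 := by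
        refine hEQ _ _ (Real.one_le_rpow ?_ hb0.le) (by positivity)
        nlinarith
      have h9 : ((2 * w * T : ℝ) ^ b) ^ 3 = (2 * w * T : ℝ) ^ (3 * b) := by
        rw [← Real.rpow_natCast, ← Real.rpow_mul (by positivity)]
        congr 1; push_cast; ring
      rw [h9, hsqq] at h8
      have h10 := mul_le_mul_of_nonneg_left h8 hG0.le
      rw [hcinf]
      linarith
    · rw [if_neg (fun h => hall ((hH' x).1 h))]
      push Not at hall
      obtain ⟨j0, hj0, hj0G⟩ := hall
      have hex : ∃ j, Gd j x := ⟨j0, hj0G⟩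
      set j := Nat.find hex with hj
      have hjG : Gd j x := Nat.find_spec hex
      have hjmin : ∀ i < j, ¬ Gd i x := fun i hi => Nat.find_min hex hi
      have hjJ : j < J := lt_of_le_of_lt (Nat.find_min' hex hj0G) hj0
      have hwz := hJ' j hjJ
      have h1 := point_boundA hw hcop hP (zz T j) hwz.le hs hs1 ht
        (θ := (2:ℝ) ^ (-(((k:ℝ) + 1) * j))) (by positivity)
      have h3 : ((F.Bad w (zz T j) x.1 x.2).card : ℝ) ≤ w +
          ((F.P x.1 x.2).natAbs.primeFactors.filter fun p => zz T j < p).card + sqn F w x := by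
        exact_mod_cast bad_card (F := F) (w := w) (zz T j) x
      have h4 := large_primes' hw hT (by omega : 2 ≤ zz T j) hx
      have hlz : 0 < Real.log (zz T j) := Real.log_pos (by exact_mod_cast (by omega : 1 < zz T j))
      have h4' : (k:ℝ) * (Real.log (2 * w * T) / Real.log (zz T j)) ≤ 96 * k * 2 ^ j := by
        have h5 : Real.log (2 * w * T) ≤ 2 * Real.log T := by
          rw [Real.log_mul (by positivity) hT0.ne']
          have := Real.log_le_log (by positivity) (hTw j hjJ)
          linarith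
        have h6 : Real.log (2 * w * T) / Real.log (zz T j) ≤ 96 * 2 ^ j := by
          calc Real.log (2 * w * T) / Real.log (zz T j) ≤ 2 * Real.log T / Real.log (zz T j) :=
                div_le_div_of_nonneg_right h5 hlz.le
            _ = 2 * (Real.log T / Real.log (zz T j)) := by ring
            _ ≤ 2 * (48 * 2 ^ j) := by linarith [hratio j hjJ]
            _ = _ := by ring
        calc _ ≤ (k:ℝ) * (96 * 2 ^ j) := mul_le_mul_of_nonneg_left h6 hk0.le
          _ = _ := by ring
      have h5 := single_le_sum hnn (mem_range.2 hjJ)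
      rw [if_pos ((hH j x).2 ⟨hjG, hjmin⟩)] at h5
      have h6 : (4:ℝ) ^ (t * (1 + (F.Bad w (zz T j) x.1 x.2).card)) *
          ((2:ℝ) ^ (-(((k:ℝ) + 1) * j))) ^ (-t) ≤
          G * (Real.exp (g * 2 ^ j) * Bt ^ (sqn F w x)) := by
        have h7 : t * (1 + ((F.Bad w (zz T j) x.1 x.2).card : ℝ)) ≤ t * (1 + w) +
            (t * (96 * k * 2 ^ j) + t * (sqn F w x)) := by
          have : 1 + ((F.Bad w (zz T j) x.1 x.2).card : ℝ) ≤ (1 + w) +
            (96 * k * 2 ^ j + sqn F w x) := by linarith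
          calc _ ≤ t * ((1 + w) + (96 * k * 2 ^ j + sqn F w x)) :=
                mul_le_mul_of_nonneg_left this ht0.le
            _ = _ := by ring
        have h8 : (4:ℝ) ^ (t * (1 + (F.Bad w (zz T j) x.1 x.2).card)) ≤
            G * ((4:ℝ) ^ (t * (96 * k * 2 ^ j)) * Bt ^ (sqn F w x)) := by
          refine (Real.rpow_le_rpow_of_exponent_le hbase.le h7).trans (le_of_eq ?_)
          rw [Real.rpow_add (by norm_num), Real.rpow_add (by norm_num), hQQ]
        have h9 : ((2:ℝ) ^ (-(((k:ℝ) + 1) * j))) ^ (-t) = (2:ℝ) ^ (t * ((k + 1) * j)) := by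
          rw [← Real.rpow_mul (by norm_num)]; congr 1; ring
        have h10 : (4:ℝ) ^ (t * (96 * k * 2 ^ j)) * (2:ℝ) ^ (t * ((k + 1) * j)) ≤
            Real.exp (g * 2 ^ j) := by
          rw [Real.rpow_def_of_pos (by norm_num : (0:ℝ) < 4),
            Real.rpow_def_of_pos (by norm_num : (0:ℝ) < 2), ← Real.exp_add]
          refine Real.exp_le_exp.2 ?_
          have h11 : (j:ℝ) ≤ 2 ^ j := by exact_mod_cast Nat.lt_two_pow_self.le
          have h12 : Real.log 2 * (t * ((k + 1) * j)) ≤ Real.log 2 * (t * ((k + 1) * 2 ^ j)) := by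
            refine mul_le_mul_of_nonneg_left (mul_le_mul_of_nonneg_left
              (mul_le_mul_of_nonneg_left h11 (by positivity)) ht0.le) hl2.le
          have h13 : g * 2 ^ j = Real.log 4 * (t * (96 * k * 2 ^ j)) +
              Real.log 2 * (t * ((k + 1) * 2 ^ j)) := by rw [hg]; ring
          rw [h13]; linarith
        rw [h9]
        calc _ ≤ G * ((4:ℝ) ^ (t * (96 * k * 2 ^ j)) * Bt ^ (sqn F w x)) *
              (2:ℝ) ^ (t * ((k + 1) * j)) := mul_le_mul_of_nonneg_right h8 (by positivity)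
          _ = G * (((4:ℝ) ^ (t * (96 * k * 2 ^ j)) * (2:ℝ) ^ (t * ((k + 1) * j))) *
                Bt ^ (sqn F w x)) := by ring
          _ ≤ _ := mul_le_mul_of_nonneg_left
              (mul_le_mul_of_nonneg_right h10 (by positivity)) hG0.le
      have h14 := hEQ (Real.exp (g * 2 ^ j)) (Bt ^ (sqn F w x))
        (Real.one_le_exp (by positivity)) (by positivity)
      rw [hsqq] at h14
      have h15 := mul_le_mul_of_nonneg_left h14 hG0.le
      have h16 : ee j = G * Real.exp (g * 2 ^ j) ^ 3 := rfl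
      linarith
  -- number of elements of a level
  have hNj : ∀ j < J, (((F.box T).filter fun x => H j x).card : ℝ) * ee j ≤
      D * (T:ℝ) ^ 2 * (1 / 2 ^ j) := by
    intro j hj
    have hee0 : 0 ≤ ee j := by rw [hee]; positivity
    rcases Nat.eq_zero_or_pos j with h0 | h0
    · subst h0
      have h1 : (((F.box T).filter fun x => H 0 x).card : ℝ) ≤ 9 * (T:ℝ) ^ 2 := by
        refine le_trans ?_ (box_card (F := F) T hT)
        exact_mod_cast card_filter_le _ _
      have h2 : ee 0 = G * Real.exp (3 * g) := by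
        rw [hee]; dsimp only; rw [pow_zero, mul_one, ← Real.exp_nat_mul]; norm_num
      rw [h2, pow_zero, div_one, mul_one]
      calc _ ≤ 9 * (T:ℝ) ^ 2 * (G * Real.exp (3 * g)) :=
            mul_le_mul_of_nonneg_right h1 (by positivity)
        _ = (9 * (G * Real.exp (3 * g))) * (T:ℝ) ^ 2 := by ring
        _ ≤ _ := by
            refine mul_le_mul_of_nonneg_right ?_ (by positivity)
            rw [hD]
            have : 0 ≤ G * C2 := by positivity
            linarith
    · obtain ⟨i, rfl⟩ : ∃ i, j = i + 1 := ⟨j - 1, by omega⟩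
      have hi : i < J := by omega
      have hz := zz_log h12 (hJ' i hi)
      have hz0 : 0 < Real.log (zz T i) :=
        Real.log_pos (by exact_mod_cast (by have := hJ' i hi; omega : 1 < zz T i))
      have h1 : (((F.box T).filter fun x => H (i+1) x).card : ℝ) ≤
          (((F.box T).filter fun x => ¬ F.Good T (zz T i) x.1 x.2).card : ℝ) := by
        have : ((F.box T).filter fun x => H (i+1) x) ⊆
            ((F.box T).filter fun x => ¬ F.Good T (zz T i) x.1 x.2) := by
          intro x hx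
          rw [mem_filter] at hx ⊢
          exact ⟨hx.1, ((hH _ _).1 hx.2).2 i (by omega)⟩
        exact_mod_cast card_le_card this
      have h2 := htail T (zz T i) hT (hwA.trans (by exact_mod_cast (hJ' i hi).le))
      have h3 : (3 * g + 1) * 2 ^ (i + 1) ≤ A * Real.log T / (4 * k * Real.log (zz T i)) := by
        rw [le_div_iff₀ (by positivity)]
        have h4 := hz.1
        rw [le_div_iff₀ (by positivity)] at h4
        have h5 : (k:ℝ) * (3 * g + 1) ≤ A := by
          have : 0 ≤ 70 * (k:ℝ) ^ 2 * t := by positivity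
          rw [hA]; linarith
        calc (3 * g + 1) * 2 ^ (i + 1) * (4 * k * Real.log (zz T i))
            = (k * (3 * g + 1)) * ((Real.log (zz T i) * (24 * 2 ^ i)) / 3) := by
              rw [pow_succ]; ring
          _ ≤ (k * (3 * g + 1)) * (Real.log T / 3) :=
              mul_le_mul_of_nonneg_left (by linarith) (by positivity)
          _ ≤ A * (Real.log T / 3) := mul_le_mul_of_nonneg_right h5 (by positivity)
          _ ≤ A * Real.log T := mul_le_mul_of_nonneg_left (by linarith) (by linarith)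
      have h6 : Real.exp (-(A * Real.log T / (4 * k * Real.log (zz T i)))) *
          Real.exp (g * 2 ^ (i+1)) ^ 3 ≤ 1 / 2 ^ (i + 1) := by
        rw [← Real.exp_nat_mul, ← Real.exp_add]
        have h7 : -(A * Real.log T / (4 * k * Real.log (zz T i))) +
            ((3:ℕ):ℝ) * (g * 2 ^ (i+1)) ≤ -(2 ^ (i+1)) := by
          push_cast
          linarith
        refine (Real.exp_le_exp.2 h7).trans ?_
        rw [Real.exp_neg, one_div]
        refine inv_anti₀ (by positivity) ?_
        have := Real.add_one_le_exp ((2:ℝ) ^ (i+1))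
        linarith
      calc (((F.box T).filter fun x => H (i+1) x).card : ℝ) * ee (i+1)
          ≤ (C2 * (T:ℝ) ^ 2 * Real.exp (-(A * Real.log T / (4 * k * Real.log (zz T i))))) *
              (G * Real.exp (g * 2 ^ (i+1)) ^ 3) :=
            mul_le_mul_of_nonneg_right (h1.trans h2) hee0
        _ = (G * C2) * (T:ℝ) ^ 2 * (Real.exp (-(A * Real.log T / (4 * k * Real.log (zz T i)))) *
              Real.exp (g * 2 ^ (i+1)) ^ 3) := by ring
        _ ≤ (G * C2) * (T:ℝ) ^ 2 * (1 / 2 ^ (i+1)) :=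
            mul_le_mul_of_nonneg_left h6 (by positivity)
        _ ≤ D * (T:ℝ) ^ 2 * (1 / 2 ^ (i+1)) := by
            refine mul_le_mul_of_nonneg_right (mul_le_mul_of_nonneg_right ?_ (by positivity))
              (by positivity)
            rw [hD]
            have : 0 ≤ 9 * (G * Real.exp (3 * g)) := by positivity
            linarith
  -- last level
  have hinf : (((F.box T).filter fun x => H' x).card : ℝ) * cinf ≤ C6 * (T:ℝ) ^ 2 := by
    have hlast : Real.log T / (24 * 2 ^ J) ≤ Real.log (w + 1) := by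
      have h1 : Real.exp (Real.log T / (24 * 2 ^ J)) < zz T J + 1 := Nat.lt_floor_add_one _
      have h2 : (zz T J : ℝ) + 1 ≤ w + 1 := by
        have : (zz T J : ℝ) ≤ w := by exact_mod_cast hJ
        linarith
      have h3 := Real.log_le_log (Real.exp_pos _) (h1.le.trans h2)
      rwa [Real.log_exp] at h3
    rcases Nat.eq_zero_or_pos J with h0 | h0
    · have h1 : (((F.box T).filter fun x => H' x).card : ℝ) ≤ 9 * (T:ℝ) ^ 2 := by
        refine le_trans ?_ (box_card (F := F) T hT)
        exact_mod_cast card_filter_le _ _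
      have h2 : (T:ℝ) ≤ (w + 1) ^ 24 := by
        rw [h0, pow_zero, mul_one, div_le_iff₀ (by norm_num)] at hlast
        have h3 : Real.log T ≤ Real.log (((w:ℝ) + 1) ^ 24) := by
          rw [Real.log_pow]; push_cast; linarith
        exact (Real.log_le_log_iff hT0 (by positivity)).1 h3
      have h3 : cinf ≤ G * (2 * w * (w + 1) ^ 24) ^ (3 * b) + 1 := by
        rw [hcinf]
        have h4 : (2 * w * T : ℝ) ^ (3 * b) ≤ (2 * w * (w + 1) ^ 24) ^ (3 * b) :=
          Real.rpow_le_rpow (by positivity) (mul_le_mul_of_nonneg_left h2 (by positivity))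
            (by positivity)
        have := mul_le_mul_of_nonneg_left h4 hG0.le
        linarith
      calc _ ≤ (9 * (T:ℝ) ^ 2) * (G * (2 * w * (w + 1) ^ 24) ^ (3 * b) + 1) :=
            mul_le_mul h1 h3 hcinf0 (by positivity)
        _ = (9 * (G * (2 * w * (w + 1) ^ 24) ^ (3 * b) + 1)) * (T:ℝ) ^ 2 := by
            ring
        _ ≤ C6 * (T:ℝ) ^ 2 := by
            refine mul_le_mul_of_nonneg_right ?_ (by positivity)
            rw [hC6]
            have : 0 ≤ C2 * (G * (2 * w) ^ (3 * b) + 1) := by positivity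
            linarith
    · obtain ⟨i, rfl⟩ : ∃ i, J = i + 1 := ⟨J - 1, by omega⟩
      have hi : i < i + 1 := by omega
      have hz := zz_log h12 (hJ' i hi)
      have hz0 : 0 < Real.log (zz T i) :=
        Real.log_pos (by exact_mod_cast (by have := hJ' i hi; omega : 1 < zz T i))
      have h1 : (((F.box T).filter fun x => H' x).card : ℝ) ≤
          (((F.box T).filter fun x => ¬ F.Good T (zz T i) x.1 x.2).card : ℝ) := by
        have : ((F.box T).filter fun x => H' x) ⊆
            ((F.box T).filter fun x => ¬ F.Good T (zz T i) x.1 x.2) := by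
          intro x hx
          rw [mem_filter] at hx ⊢
          exact ⟨hx.1, (hH' _).1 hx.2 i hi⟩
        exact_mod_cast card_le_card this
      have h2 := htail T (zz T i) hT (hwA.trans (by exact_mod_cast (hJ' i hi).le))
      have h3 : Real.log (zz T i) ≤ 2 * Real.log (w + 1) := by
        have h4 : Real.log T / (24 * 2 ^ i) = 2 * (Real.log T / (24 * 2 ^ (i + 1))) := by
          rw [pow_succ]; field_simp
        linarith [hz.1]
      have h5 : 3 * b * Real.log T ≤ A * Real.log T / (4 * k * Real.log (zz T i)) := by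
        rw [le_div_iff₀ (by positivity)]
        have h6 : 70 * (k:ℝ) ^ 2 * t ≤ A := by
          have : 0 ≤ (k:ℝ) * (3 * g + 1) := by positivity
          rw [hA]; linarith
        have h7 : Real.log 4 ≤ 1.4 := by
          have : Real.log 4 = 2 * Real.log 2 := by
            rw [show (4:ℝ) = 2 ^ 2 by norm_num, Real.log_pow]; norm_num
          have := Real.log_two_lt_d9
          linarith
        have h8 : 3 * b * (4 * k * Real.log (zz T i)) ≤ A := by
          have h9 : Real.log (zz T i) ≤ 4 * Real.log w := by linarith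
          calc 3 * b * (4 * k * Real.log (zz T i)) ≤ 3 * b * (4 * k * (4 * Real.log w)) :=
                mul_le_mul_of_nonneg_left (mul_le_mul_of_nonneg_left h9 (by positivity))
                  (by positivity)
            _ = 48 * k ^ 2 * t * Real.log 4 := by rw [hb]; field_simp; ring
            _ ≤ 48 * k ^ 2 * t * 1.4 := mul_le_mul_of_nonneg_left h7 (by positivity)
            _ ≤ 70 * (k:ℝ) ^ 2 * t := by nlinarith [mul_pos (sq_pos_of_pos hk0) ht0]
            _ ≤ A := h6
        calc 3 * b * Real.log T * (4 * k * Real.log (zz T i))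
            = (3 * b * (4 * k * Real.log (zz T i))) * Real.log T := by ring
          _ ≤ A * Real.log T := mul_le_mul_of_nonneg_right h8 hlT
      have h10 : Real.exp (-(A * Real.log T / (4 * k * Real.log (zz T i)))) * cinf ≤
          G * (2 * w) ^ (3 * b) + 1 := by
        rw [hcinf, mul_add, mul_one]
        have h11 : Real.exp (-(A * Real.log T / (4 * k * Real.log (zz T i)))) ≤ 1 := by
          refine Real.exp_le_one_iff.2 ?_
          have : 0 ≤ 3 * b * Real.log T := by positivity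
          linarith
        have h12 : Real.exp (-(A * Real.log T / (4 * k * Real.log (zz T i)))) *
            (G * (2 * w * T) ^ (3 * b)) ≤ G * (2 * w) ^ (3 * b) := by
          have h13 : (2 * w * T : ℝ) ^ (3 * b) = (2 * w : ℝ) ^ (3 * b) *
              Real.exp (3 * b * Real.log T) := by
            rw [Real.mul_rpow (by positivity) hT0.le, Real.rpow_def_of_pos hT0,
              mul_comm (Real.log T)]
          rw [h13]
          calc _ = G * (2 * w : ℝ) ^ (3 * b) *
                (Real.exp (-(A * Real.log T / (4 * k * Real.log (zz T i)))) *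
                  Real.exp (3 * b * Real.log T)) := by ring
            _ ≤ G * (2 * w : ℝ) ^ (3 * b) * 1 := by
                refine mul_le_mul_of_nonneg_left ?_ (by positivity)
                rw [← Real.exp_add]
                refine Real.exp_le_one_iff.2 (by linarith)
            _ = _ := mul_one _
        linarith
      calc _ ≤ (C2 * (T:ℝ) ^ 2 * Real.exp (-(A * Real.log T / (4 * k * Real.log (zz T i))))) *
            cinf := mul_le_mul_of_nonneg_right (h1.trans h2) hcinf0
        _ = C2 * (T:ℝ) ^ 2 * (Real.exp (-(A * Real.log T / (4 * k * Real.log (zz T i)))) *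
            cinf) := by ring
        _ ≤ C2 * (T:ℝ) ^ 2 * (G * (2 * w) ^ (3 * b) + 1) :=
            mul_le_mul_of_nonneg_left h10 (by positivity)
        _ = (C2 * (G * (2 * w) ^ (3 * b) + 1)) * (T:ℝ) ^ 2 := by ring
        _ ≤ C6 * (T:ℝ) ^ 2 := by
            refine mul_le_mul_of_nonneg_right ?_ (by positivity)
            rw [hC6]
            have : 0 ≤ 9 * (G * (2 * w * (w + 1) ^ 24) ^ (3 * b) + 1) := by
              positivity
            linarith
  have hgeo : ∀ n : ℕ, ∑ j ∈ range n, (1:ℝ) / 2 ^ j ≤ 2 := by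
    intro n
    have h2 : ∑ j ∈ range n, (1:ℝ) / 2 ^ j = 2 - 2 / 2 ^ n := by
      induction n with
      | zero => norm_num
      | succ n ih => rw [sum_range_succ, ih, pow_succ]; field_simp; ring
    rw [h2]
    have : (0:ℝ) ≤ 2 / 2 ^ n := by positivity
    linarith
  have hsum := sum_le_sum hpt
  refine hsum.trans ?_
  rw [sum_add_distrib, sum_add_distrib, ← mul_sum, sum_comm]
  have hA' := mul_le_mul_of_nonneg_left (hsq T hT) hG0.le
  have hB : ∑ j ∈ range J, ∑ x ∈ F.box T, (if H j x then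
        ee j + (2:ℝ) ^ (-(((k:ℝ) + 1) * j)) * (F.SelZ w (zz T j) x.1 x.2).card else 0) ≤
      (2 * D + 2 * C1 * 48 ^ k) * (T:ℝ) ^ 2 := by
    have hterm : ∀ j ∈ range J, ∑ x ∈ F.box T, (if H j x then
        ee j + (2:ℝ) ^ (-(((k:ℝ) + 1) * j)) * (F.SelZ w (zz T j) x.1 x.2).card else 0) ≤
        (D + C1 * 48 ^ k) * (T:ℝ) ^ 2 * (1 / 2 ^ j) := by
      intro j hj
      have hjJ := mem_range.1 hj
      have hwz := hJ' j hjJ
      rw [← sum_filter, sum_add_distrib, sum_const, nsmul_eq_mul, ← mul_sum]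
      have h1 := hNj j hjJ
      have h2 : ∑ x ∈ (F.box T).filter (fun x => H j x),
          ((F.SelZ w (zz T j) x.1 x.2).card : ℝ) ≤ C1 * (T:ℝ) ^ 2 * (48 * 2 ^ j) ^ k := by
        have h3 := hgood T (zz T j) hwz (zz_pow j hT)
        refine le_trans ?_ (h3.trans ?_)
        · refine sum_le_sum_of_subset_of_nonneg ?_ (fun _ _ _ => Nat.cast_nonneg _)
          intro x hx
          rw [mem_filter] at hx ⊢
          exact ⟨hx.1, ((hH _ _).1 hx.2).1⟩
        · refine mul_le_mul_of_nonneg_left (pow_le_pow_left₀ ?_ (hratio j hjJ) k) (by positivity)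
          have hz : 0 < Real.log (zz T j) :=
            Real.log_pos (by exact_mod_cast (by omega : 1 < zz T j))
          positivity
      have h4 : (2:ℝ) ^ (-(((k:ℝ) + 1) * j)) * ∑ x ∈ (F.box T).filter
          (fun x => H j x), ((F.SelZ w (zz T j) x.1 x.2).card : ℝ) ≤
          C1 * 48 ^ k * (T:ℝ) ^ 2 * (1 / 2 ^ j) := by
        refine (mul_le_mul_of_nonneg_left h2 (by positivity)).trans (le_of_eq ?_)
        have h5 : (2:ℝ) ^ (-(((k:ℝ) + 1) * j)) = 1 / (2 ^ j * (2 ^ j) ^ k) := by
          rw [Real.rpow_neg (by norm_num), one_div]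
          congr 1
          rw [show ((k:ℝ) + 1) * j = (((k + 1) * j : ℕ) : ℝ) by push_cast; ring, Real.rpow_natCast]
          rw [← pow_succ', ← pow_mul, mul_comm j (k+1)]
        rw [h5, mul_pow]
        field_simp
      calc _ ≤ D * (T:ℝ) ^ 2 * (1 / 2 ^ j) + C1 * 48 ^ k * (T:ℝ) ^ 2 * (1 / 2 ^ j) :=
            add_le_add h1 h4
        _ = _ := by ring
    refine (sum_le_sum hterm).trans ?_
    rw [← mul_sum]
    have hD0 : 0 ≤ D := by positivity
    calc (D + C1 * 48 ^ k) * (T:ℝ) ^ 2 * ∑ j ∈ range J, 1 / 2 ^ j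
        ≤ (D + C1 * 48 ^ k) * (T:ℝ) ^ 2 * 2 :=
          mul_le_mul_of_nonneg_left (hgeo J) (by positivity)
      _ = _ := by ring
  have hCc : ∑ x ∈ F.box T, (if H' x then cinf else 0) ≤ C6 * (T:ℝ) ^ 2 := by
    rw [← sum_filter, sum_const, nsmul_eq_mul]
    exact hinf
  linarith

/-- exponential moments of the ranks of the fibres -/
theorem exp_moment (F : Fam k) {c : ℝ} (hc : 0 ≤ c) (hc2 : c < 2) : ∃ C : ℝ, ∀ T : ℕ, 1 ≤ T →
    ∑ x ∈ F.box T, c ^ (Module.finrank ℤ (F.E x.1 x.2).Point) ≤ C * (T : ℝ) ^ 2 := by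
  set c' : ℝ := max c (3 / 2) with hc'
  have h1 : 3 / 2 ≤ c' := le_max_right _ _
  have h2 : c' < 2 := max_lt hc2 (by norm_num)
  have hl2 : 0 < Real.log 2 := Real.log_pos (by norm_num)
  set s : ℝ := Real.log c' / Real.log 2 with hs
  have hs0 : 0 < s := div_pos (Real.log_pos (by linarith)) hl2
  have hs1 : s < 1 := by
    rw [hs, div_lt_one hl2]
    exact Real.log_lt_log (by linarith) h2
  have h3 : (2:ℝ) ^ s = c' := by
    rw [Real.rpow_def_of_pos (by norm_num), hs]
    rw [mul_div_cancel₀ _ hl2.ne', Real.exp_log (by linarith)]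
  obtain ⟨C, hC⟩ := moment_aux F hs0 hs1
  refine ⟨C, fun T hT => le_trans (sum_le_sum fun x _ => ?_) (hC T hT)⟩
  rw [h3]
  exact pow_le_pow_left₀ hc (le_max_left _ _) _

end Pool.Agent.H77.SV
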