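import Pool.Agent.H77.SV.Selb
import Pool.Agent.H77.SV.GLow
import Pool.Agent.H77.SV.Latt

/-!
# Module Siev (about 200 lines): the sieve in the plane.

PROOF. `q = (prod R)^2`, `q^2 ≤ T` (so `q ≤ T^(1/2)`), `Q = Pr w z ∖ R`, `ν p = rho F p / p^2`
(`rho_bounds`), `D = z`, `lam` from `selberg Q ν`. For `x = (m, n)` in the set to be counted no `p ∈ Q` divides
`P(x)`, so `(sum_{d | prod Q, d | P(x)} lam d)^2 = (lam 1)^2 = 1`; for all other `x` in the class it is `≥ 0`. Hence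
`# ≤ sum_{x in the class} (sum_{d | P(x)} lam d)^2 = sum_{a, b} lam a lam b #{x : lcm(a,b) | P(x)}`
and by `lattice` (with the set of primes of `lcm(a,b)`; `lcm(a,b) q ≤ z^2 T^(1/2) ≤ T`, as `z^24 ≤ T`; the primes of
`Q` do not divide `q`)
`= ((2T+1)/q)^2 sum lam a lam b ν(lcm(a,b)) + error`, `|error| ≤ sum_{a,b ≤ z} 8 z^2 T/q ≤ 8 z^4 T/q` (only
`a, b ≤ z` occur). Main term: `≤ ((2T+1)/q)^2 / G`, and `G ≥ sum_{d | prod Q, d ≤ z} prod_{p|d} k/p ≥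
c (log z)^k / prod_R (1 + k/p)` (`rho_bounds`, `G_lower`). Error term:
`8 z^4 T/q = 8 (T/q)^2 z^4 q/T ≤ 8 (T/q)^2 T^(1/6 - 1/2)`, and `(log z)^k ≤ C_k z ≤ C_k T^(1/24)`, so it is
`≤ C (T/q)^2 (log z)^(-k)`; `prod_R (1 + k/p) ≥ 1`. (`2T + 1 ≤ 3T`.)
-/

set_option autoImplicit false

namespace Pool.Agent.H77.SV

open Finset

variable {k : ℕ} {F : Fam k} {w : ℕ}

private theorem siev_mem {Q : Finset ℕ} (hQ : ∀ p ∈ Q, p.Prime) {d : ℕ} (hd : d ∣ ∏ p ∈ Q, p) :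
    ∀ p ∈ d.primeFactors, p ∈ Q := by
  intro p hp
  have hpp := Nat.prime_of_mem_primeFactors hp
  have h1 : p ∣ ∏ p ∈ Q, p := (Nat.dvd_of_mem_primeFactors hp).trans hd
  obtain ⟨r, hr, hpr⟩ := (hpp.prime.dvd_finsetProd_iff _).1 h1
  have : p = r := (Nat.prime_dvd_prime_iff_eq hpp (hQ r hr)).1 hpr
  rwa [this]

private theorem siev_sqf {Q : Finset ℕ} (hQ : ∀ p ∈ Q, p.Prime) {d : ℕ} (hd : d ∣ ∏ p ∈ Q, p) :
    Squarefree d := by
  have h : Squarefree (∏ p ∈ Q, p) := by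
    refine Finset.squarefree_prod_of_pairwise_isCoprime (fun p hp q hq hpq ↦ ?_)
      fun p hp ↦ (hQ p hp).squarefree
    simp only [Function.onFun, ← Nat.coprime_iff_isRelPrime]
    exact (Nat.coprime_primes (hQ p hp) (hQ q hq)).mpr hpq
  exact h.squarefree_of_dvd hd

/-- the combinatorial half of the sieve: for arbitrary weights -/
private theorem siev_comb {ι : Type*} (X Y : Finset ι) (P : ι → ℤ) (Q : Finset ℕ)
    (hQ : ∀ p ∈ Q, p.Prime) (lam : ℕ → ℝ) (h1 : lam 1 = 1) (hYX : Y ⊆ X)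
    (hY : ∀ x ∈ Y, ∀ p ∈ Q, ¬ (p : ℤ) ∣ P x) :
    (Y.card : ℝ) ≤ ∑ a ∈ (∏ p ∈ Q, p).divisors, ∑ b ∈ (∏ p ∈ Q, p).divisors,
      lam a * lam b * ((X.filter fun x => ((Nat.lcm a b : ℕ) : ℤ) ∣ P x).card : ℝ) := by
  have hne : (∏ p ∈ Q, p) ≠ 0 := Finset.prod_ne_zero_iff.2 fun p hp => (hQ p hp).ne_zero
  set Dv := (∏ p ∈ Q, p).divisors with hDv
  set S : ι → ℝ := fun x => ∑ d ∈ Dv, if (d : ℤ) ∣ P x then lam d else 0 with hS
  have hSY : ∀ x ∈ Y, S x = 1 := by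
    intro x hx
    have h1m : 1 ∈ Dv := Nat.one_mem_divisors.2 hne
    rw [hS]
    simp only
    rw [Finset.sum_eq_single_of_mem 1 h1m]
    · simp [h1]
    · intro d hd hd1
      rw [if_neg]
      intro hdvd
      obtain ⟨p, hp⟩ := Nat.exists_prime_and_dvd hd1
      have hd0 : d ≠ 0 := (Nat.pos_of_mem_divisors hd).ne'
      have hpQ := siev_mem hQ (Nat.dvd_of_mem_divisors hd) p
        (Nat.mem_primeFactors.2 ⟨hp.1, hp.2, hd0⟩)
      exact hY x hx p hpQ ((Int.natCast_dvd_natCast.2 hp.2).trans hdvd)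
  have hc : (Y.card : ℝ) ≤ ∑ x ∈ X, S x ^ 2 := by
    calc (Y.card : ℝ) = ∑ x ∈ Y, S x ^ 2 := by
          rw [Finset.sum_congr rfl fun x hx => by rw [hSY x hx, one_pow]]
          simp
      _ ≤ ∑ x ∈ X, S x ^ 2 :=
          Finset.sum_le_sum_of_subset_of_nonneg hYX fun x _ _ => sq_nonneg _
  refine hc.trans (le_of_eq ?_)
  have hsq : ∀ x, S x ^ 2 = ∑ a ∈ Dv, ∑ b ∈ Dv,
      if ((Nat.lcm a b : ℕ) : ℤ) ∣ P x then lam a * lam b else 0 := by
    intro x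
    rw [sq, hS]
    simp only
    rw [Finset.sum_mul_sum]
    refine Finset.sum_congr rfl fun a _ => Finset.sum_congr rfl fun b _ => ?_
    have hiff : ((Nat.lcm a b : ℕ) : ℤ) ∣ P x ↔ (a : ℤ) ∣ P x ∧ (b : ℤ) ∣ P x := by
      rw [Int.natCast_dvd, Int.natCast_dvd, Int.natCast_dvd]
      exact Nat.lcm_dvd_iff
    by_cases ha : (a : ℤ) ∣ P x <;> by_cases hb : (b : ℤ) ∣ P x <;> simp [hiff, ha, hb]
  simp only [hsq]
  rw [Finset.sum_comm]
  refine Finset.sum_congr rfl fun a _ => ?_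
  rw [Finset.sum_comm]
  refine Finset.sum_congr rfl fun b _ => ?_
  rw [← Finset.sum_filter, Finset.sum_const, nsmul_eq_mul]
  ring

theorem sieve (hw : F.Big w) : ∃ C : ℝ, 0 < C ∧ ∀ (T z : ℕ) (R : Finset ℕ) (a b : ℤ),
    w < z → z ^ 24 ≤ T → R ⊆ Pr w z → (∏ p ∈ R, p) ^ 4 ≤ T →
    (((Icc (-(T : ℤ)) T ×ˢ Icc (-(T : ℤ)) T).filter fun x : ℤ × ℤ =>
        x.1 ≡ a [ZMOD ((∏ p ∈ R, p : ℕ) : ℤ) ^ 2] ∧ x.2 ≡ b [ZMOD ((∏ p ∈ R, p : ℕ) : ℤ) ^ 2] ∧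
        ∀ p ∈ Pr w z \ R, ¬ (p : ℤ) ∣ F.P x.1 x.2).card : ℝ) ≤
      C * ((T : ℝ) / ((∏ p ∈ R, p : ℕ) : ℝ) ^ 2) ^ 2 / Real.log z ^ k *
        ∏ p ∈ R, (1 + (k : ℝ) / p) := by
  have hk1 : 1 ≤ k := le_trans (by norm_num) F.hk
  have hkw : k ≤ w := by
    have := hw.hk
    nlinarith
  obtain ⟨c, hc, hG⟩ := G_lower k w hk1 hkw
  refine ⟨9 / c + 8 * (k.factorial : ℝ), by positivity, ?_⟩
  intro T z R a b hwz hzT hR hRT
  have hz12 : 12 < z := lt_of_le_of_lt hw.h12 hwz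
  have hPrm : ∀ p ∈ Pr w z, p.Prime ∧ w < p := by
    intro p hp
    rw [Pr, Finset.mem_filter, Finset.mem_Ioc] at hp
    exact ⟨hp.2, hp.1.1⟩
  set PR : ℕ := ∏ p ∈ R, p with hPR
  have hPRpos : 0 < PR := Finset.prod_pos fun p hp => (hPrm p (hR hp)).1.pos
  set q : ℕ := PR ^ 2 with hq
  have hq1 : 1 ≤ q := Nat.one_le_iff_ne_zero.2 (by positivity)
  have hqT : q ^ 2 ≤ T := by
    calc q ^ 2 = PR ^ 4 := by rw [hq]; ring
      _ ≤ T := hRT
  set Q : Finset ℕ := Pr w z \ R with hQdef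
  have hQp : ∀ p ∈ Q, p.Prime ∧ w < p := fun p hp => hPrm p (Finset.mem_sdiff.1 hp).1
  have hQ1 : ∀ p ∈ Q, p.Prime := fun p hp => (hQp p hp).1
  have hQq : ∀ p ∈ Q, ¬ p ∣ q := by
    intro p hp hpq
    have h1 : p ∣ PR := (hQ1 p hp).dvd_of_dvd_pow hpq
    obtain ⟨r, hr, hpr⟩ := ((hQ1 p hp).prime.dvd_finsetProd_iff _).1 h1
    have : p = r := (Nat.prime_dvd_prime_iff_eq (hQ1 p hp) (hPrm r (hR hr)).1).1 hpr
    exact (Finset.mem_sdiff.1 hp).2 (this ▸ hr)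
  have hne : (∏ p ∈ Q, p) ≠ 0 := Finset.prod_ne_zero_iff.2 fun p hp => (hQ1 p hp).ne_zero
  set ν : ℕ → ℝ := fun p => (rho F p : ℝ) / (p : ℝ) ^ 2 with hν
  have hνb : ∀ p ∈ Q, 0 < ν p ∧ ν p < 1 := fun p hp =>
    ⟨(rho_bounds hw (hQp p hp).1 (hQp p hp).2).1, (rho_bounds hw (hQp p hp).1 (hQp p hp).2).2.1⟩
  obtain ⟨lam, h1, habs, hsup, hquad⟩ := selberg Q hQ1 ν hνb z (by omega)
  set X : Finset (ℤ × ℤ) := (Icc (-(T : ℤ)) T ×ˢ Icc (-(T : ℤ)) T).filter fun x : ℤ × ℤ =>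
    x.1 ≡ a [ZMOD q] ∧ x.2 ≡ b [ZMOD q] with hX
  have hqc : ((PR : ℕ) : ℤ) ^ 2 = (q : ℤ) := by rw [hq]; push_cast; ring
  have hcomb := siev_comb X ((Icc (-(T : ℤ)) T ×ˢ Icc (-(T : ℤ)) T).filter fun x : ℤ × ℤ =>
        x.1 ≡ a [ZMOD ((PR : ℕ) : ℤ) ^ 2] ∧ x.2 ≡ b [ZMOD ((PR : ℕ) : ℤ) ^ 2] ∧
        ∀ p ∈ Q, ¬ (p : ℤ) ∣ F.P x.1 x.2) (fun x => F.P x.1 x.2) Q hQ1 lam h1
    (by
      intro x hx
      rw [Finset.mem_filter] at hx
      rw [hX, Finset.mem_filter]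
      rw [hqc] at hx
      exact ⟨hx.1, hx.2.1, hx.2.2.1⟩)
    (by
      intro x hx
      rw [Finset.mem_filter] at hx
      exact hx.2.2.2)
  refine hcomb.trans ?_
  -- sizes
  have hT0 : 0 < T := by
    have : 0 < z ^ 24 := by positivity
    omega
  have hTR : (0 : ℝ) < T := by exact_mod_cast hT0
  have hqR : (0 : ℝ) < q := by exact_mod_cast hq1
  have hzR : (12 : ℝ) < z := by exact_mod_cast hz12
  have hz4 : z ^ 4 ≤ T := le_trans (Nat.pow_le_pow_right (by omega) (by norm_num)) hzT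
  have hz10 : z ^ 10 ≤ T := le_trans (Nat.pow_le_pow_right (by omega) (by norm_num)) hzT
  have hz2q : z ^ 2 * q ≤ T := by
    have : (z ^ 2 * q) ^ 2 ≤ T ^ 2 := by
      calc (z ^ 2 * q) ^ 2 = z ^ 4 * q ^ 2 := by ring
        _ ≤ T * T := Nat.mul_le_mul hz4 hqT
        _ = T ^ 2 := by ring
    exact (Nat.pow_le_pow_iff_left (by norm_num)).1 this
  have hz5q : z ^ 5 * q ≤ T := by
    have : (z ^ 5 * q) ^ 2 ≤ T ^ 2 := by
      calc (z ^ 5 * q) ^ 2 = z ^ 10 * q ^ 2 := by ring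
        _ ≤ T * T := Nat.mul_le_mul hz10 hqT
        _ = T ^ 2 := by ring
    exact (Nat.pow_le_pow_iff_left (by norm_num)).1 this
  -- each term
  set M : ℝ := ((2 * T + 1) / q) ^ 2 with hM
  have hterm : ∀ a' ∈ (∏ p ∈ Q, p).divisors, ∀ b' ∈ (∏ p ∈ Q, p).divisors,
      lam a' * lam b' * ((X.filter fun x => ((Nat.lcm a' b' : ℕ) : ℤ) ∣ F.P x.1 x.2).card : ℝ) ≤
      M * (lam a' * lam b' * ∏ p ∈ (Nat.lcm a' b').primeFactors, ν p) +
        (if a' ≤ z then (if b' ≤ z then 8 * (z : ℝ) ^ 2 * T / q else 0) else 0) := by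
    intro a' ha' b' hb'
    by_cases hzero : lam a' * lam b' = 0
    · rw [hzero]
      have : (0 : ℝ) ≤ (if a' ≤ z then (if b' ≤ z then 8 * (z : ℝ) ^ 2 * T / q else 0) else 0) := by
        split_ifs <;> positivity
      simpa using this
    have hla : lam a' ≠ 0 := left_ne_zero_of_mul hzero
    have hlb : lam b' ≠ 0 := right_ne_zero_of_mul hzero
    have haz := (hsup a' hla).2
    have hbz := (hsup b' hlb).2
    rw [if_pos haz, if_pos hbz]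
    have hlcm : Nat.lcm a' b' ∣ ∏ p ∈ Q, p :=
      Nat.lcm_dvd (Nat.dvd_of_mem_divisors ha') (Nat.dvd_of_mem_divisors hb')
    have hprod : ∏ p ∈ (Nat.lcm a' b').primeFactors, p = Nat.lcm a' b' :=
      Nat.prod_primeFactors_of_squarefree (siev_sqf hQ1 hlcm)
    have hmem := siev_mem hQ1 hlcm
    have ha0 : 0 < a' := Nat.pos_of_mem_divisors ha'
    have hb0 : 0 < b' := Nat.pos_of_mem_divisors hb'
    have hle : Nat.lcm a' b' ≤ z ^ 2 := by
      calc Nat.lcm a' b' ≤ a' * b' := Nat.le_of_dvd (Nat.mul_pos ha0 hb0) (Nat.lcm_dvd_mul a' b')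
        _ ≤ z * z := Nat.mul_le_mul haz hbz
        _ = z ^ 2 := by ring
    have hlat := lattice hw T q hq1 a b (Nat.lcm a' b').primeFactors
      (fun p hp => ⟨(hQp p (hmem p hp)).1, (hQp p (hmem p hp)).2, hQq p (hmem p hp)⟩)
      (by
        rw [hprod]
        exact le_trans (Nat.mul_le_mul_right q hle) hz2q)
    rw [hprod] at hlat
    have hfe : (X.filter fun x => ((Nat.lcm a' b' : ℕ) : ℤ) ∣ F.P x.1 x.2) =
        (Icc (-(T : ℤ)) T ×ˢ Icc (-(T : ℤ)) T).filter fun x : ℤ × ℤ =>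
        x.1 ≡ a [ZMOD q] ∧ x.2 ≡ b [ZMOD q] ∧ ((Nat.lcm a' b' : ℕ) : ℤ) ∣ F.P x.1 x.2 := by
      rw [hX, Finset.filter_filter]
      refine Finset.filter_congr fun x _ => ?_
      rw [and_assoc]
    rw [hfe]
    set N : ℝ := (((Icc (-(T : ℤ)) T ×ˢ Icc (-(T : ℤ)) T).filter fun x : ℤ × ℤ =>
        x.1 ≡ a [ZMOD q] ∧ x.2 ≡ b [ZMOD q] ∧ ((Nat.lcm a' b' : ℕ) : ℤ) ∣ F.P x.1 x.2).card : ℝ)
    have herr : 8 * ((Nat.lcm a' b' : ℕ) : ℝ) * T / q ≤ 8 * (z : ℝ) ^ 2 * T / q := by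
      have : ((Nat.lcm a' b' : ℕ) : ℝ) ≤ (z : ℝ) ^ 2 := by exact_mod_cast hle
      gcongr
    have hab1 : |lam a' * lam b'| ≤ 1 := by
      rw [abs_mul]
      exact mul_le_one₀ (habs a') (abs_nonneg _) (habs b')
    have hdiff : lam a' * lam b' * (N - (∏ p ∈ (Nat.lcm a' b').primeFactors, ν p) * M) ≤
        8 * (z : ℝ) ^ 2 * T / q := by
      calc lam a' * lam b' * (N - (∏ p ∈ (Nat.lcm a' b').primeFactors, ν p) * M)
          ≤ |lam a' * lam b' * (N - (∏ p ∈ (Nat.lcm a' b').primeFactors, ν p) * M)| := le_abs_self _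
        _ = |lam a' * lam b'| * |N - (∏ p ∈ (Nat.lcm a' b').primeFactors, ν p) * M| := abs_mul _ _
        _ ≤ 1 * (8 * (z : ℝ) ^ 2 * T / q) := by
            refine mul_le_mul hab1 (hlat.trans herr) (abs_nonneg _) zero_le_one
        _ = _ := one_mul _
    nlinarith [hdiff]
  have hsum := Finset.sum_le_sum fun a' ha' => Finset.sum_le_sum (hterm a' ha')
  refine hsum.trans ?_
  simp only [Finset.sum_add_distrib]
  -- the error
  have herrsum : ∑ a' ∈ (∏ p ∈ Q, p).divisors, ∑ b' ∈ (∏ p ∈ Q, p).divisors,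
      (if a' ≤ z then (if b' ≤ z then 8 * (z : ℝ) ^ 2 * T / q else 0) else 0) ≤
      8 * (z : ℝ) ^ 4 * T / q := by
    have hcard : (((∏ p ∈ Q, p).divisors.filter (· ≤ z)).card : ℝ) ≤ z := by
      have : ((∏ p ∈ Q, p).divisors.filter (· ≤ z)).card ≤ z := by
        calc _ ≤ (Finset.Icc 1 z).card := Finset.card_le_card (by
              intro d hd
              rw [Finset.mem_filter] at hd
              exact Finset.mem_Icc.2 ⟨Nat.pos_of_mem_divisors hd.1, hd.2⟩)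
          _ = z := by simp
      exact_mod_cast this
    have e1 : ∀ a' : ℕ, ∑ b' ∈ (∏ p ∈ Q, p).divisors,
        (if a' ≤ z then (if b' ≤ z then 8 * (z : ℝ) ^ 2 * T / q else 0) else 0) =
        if a' ≤ z then (((∏ p ∈ Q, p).divisors.filter (· ≤ z)).card : ℝ) *
          (8 * (z : ℝ) ^ 2 * T / q) else 0 := by
      intro a'
      split_ifs with h
      · rw [← Finset.sum_filter, Finset.sum_const, nsmul_eq_mul]
      · simp
    simp only [e1]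
    rw [← Finset.sum_filter, Finset.sum_const, nsmul_eq_mul]
    set n : ℝ := (((∏ p ∈ Q, p).divisors.filter (· ≤ z)).card : ℝ) with hn
    have hn0 : 0 ≤ n := by positivity
    have hE : (0 : ℝ) ≤ 8 * (z : ℝ) ^ 2 * T / q := by positivity
    calc n * (n * (8 * (z : ℝ) ^ 2 * T / q)) ≤ z * (z * (8 * (z : ℝ) ^ 2 * T / q)) := by gcongr
      _ = 8 * (z : ℝ) ^ 4 * T / q := by ring
  have hlog : 0 < Real.log z := Real.log_pos (by linarith)
  have hlogk : 0 < Real.log z ^ k := by positivity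
  set V : ℝ := ∏ p ∈ R, (1 + (k : ℝ) / p) with hV
  have hV1 : 1 ≤ V := by
    rw [hV]
    calc (1 : ℝ) = ∏ _p ∈ R, (1 : ℝ) := by simp
      _ ≤ ∏ p ∈ R, (1 + (k : ℝ) / p) := Finset.prod_le_prod (fun _ _ => zero_le_one) fun p _ => by
        have : (0 : ℝ) ≤ (k : ℝ) / p := by positivity
        linarith
  have hV0 : 0 < V := by linarith
  -- main term
  set G : ℝ := ∑ d ∈ (∏ p ∈ Q, p).divisors.filter (· ≤ z),
        ∏ p ∈ d.primeFactors, ν p / (1 - ν p) with hGdef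
  have hGl : c * Real.log z ^ k / V ≤ G := by
    refine (hG z R hwz hR).trans ?_
    refine Finset.sum_le_sum fun d hd => ?_
    rw [Finset.mem_filter] at hd
    refine Finset.prod_le_prod (fun p _ => by positivity) fun p hp => ?_
    have hpQ := siev_mem hQ1 (Nat.dvd_of_mem_divisors hd.1) p hp
    exact (rho_bounds hw (hQp p hpQ).1 (hQp p hpQ).2).2.2
  have hG0 : 0 < c * Real.log z ^ k / V := by positivity
  have hmain : ∑ a' ∈ (∏ p ∈ Q, p).divisors, ∑ b' ∈ (∏ p ∈ Q, p).divisors,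
      M * (lam a' * lam b' * ∏ p ∈ (Nat.lcm a' b').primeFactors, ν p) ≤
      9 * ((T : ℝ) / q) ^ 2 * (V / (c * Real.log z ^ k)) := by
    have hM0 : 0 ≤ M := sq_nonneg _
    have hM9 : M ≤ 9 * ((T : ℝ) / q) ^ 2 := by
      have h1T : (1 : ℝ) ≤ T := by exact_mod_cast hT0
      have : (2 * (T : ℝ) + 1) / q ≤ 3 * (T / q) := by
        rw [← mul_div_assoc]
        gcongr
        linarith
      calc M = ((2 * (T : ℝ) + 1) / q) ^ 2 := hM
        _ ≤ (3 * ((T : ℝ) / q)) ^ 2 := by gcongr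
        _ = _ := by ring
    have hrw : ∑ a' ∈ (∏ p ∈ Q, p).divisors, ∑ b' ∈ (∏ p ∈ Q, p).divisors,
        M * (lam a' * lam b' * ∏ p ∈ (Nat.lcm a' b').primeFactors, ν p) =
        M * ∑ a' ∈ (∏ p ∈ Q, p).divisors, ∑ b' ∈ (∏ p ∈ Q, p).divisors,
          lam a' * lam b' * ∏ p ∈ (Nat.lcm a' b').primeFactors, ν p := by
      simp only [Finset.mul_sum]
    rw [hrw]
    have hinv : 1 / G ≤ V / (c * Real.log z ^ k) := by
      have h1 := one_div_le_one_div_of_le hG0 hGl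
      rwa [one_div_div] at h1
    calc M * _ ≤ M * (1 / G) := mul_le_mul_of_nonneg_left hquad hM0
      _ ≤ M * (V / (c * Real.log z ^ k)) := mul_le_mul_of_nonneg_left hinv hM0
      _ ≤ _ := mul_le_mul_of_nonneg_right hM9 (by positivity)
  have herr2 : 8 * (z : ℝ) ^ 4 * T / q ≤
      8 * (k.factorial : ℝ) * ((T : ℝ) / q) ^ 2 / Real.log z ^ k * V := by
    have hfact : Real.log z ^ k ≤ (k.factorial : ℝ) * z := by
      have h2 := Real.pow_div_factorial_le_exp (Real.log z) hlog.le k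
      rw [Real.exp_log (by linarith), div_le_iff₀ (by positivity)] at h2
      linarith
    have hzq : (z : ℝ) ^ 5 * q ≤ T := by exact_mod_cast hz5q
    have hkey : (z : ℝ) ^ 4 * q * Real.log z ^ k ≤ (k.factorial : ℝ) * T := by
      calc (z : ℝ) ^ 4 * q * Real.log z ^ k ≤ (z : ℝ) ^ 4 * q * ((k.factorial : ℝ) * z) := by gcongr
        _ = (k.factorial : ℝ) * ((z : ℝ) ^ 5 * q) := by ring
        _ ≤ (k.factorial : ℝ) * T := by gcongr
    have hkey2 : 8 * (z : ℝ) ^ 4 * T / q ≤ 8 * (k.factorial : ℝ) * ((T : ℝ) / q) ^ 2 / Real.log z ^ k := by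
      rw [le_div_iff₀ hlogk, div_pow, ← mul_div_assoc, div_mul_eq_mul_div,
        div_le_div_iff₀ hqR (by positivity)]
      nlinarith [mul_le_mul_of_nonneg_left hkey (by positivity : (0 : ℝ) ≤ 8 * T * q)]
    calc 8 * (z : ℝ) ^ 4 * T / q ≤ 8 * (k.factorial : ℝ) * ((T : ℝ) / q) ^ 2 / Real.log z ^ k := hkey2
      _ ≤ _ := le_mul_of_one_le_right (by positivity) hV1
  have hqcR : ((PR : ℕ) : ℝ) ^ 2 = (q : ℝ) := by rw [hq]; push_cast; ring
  rw [hqcR]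
  calc _ ≤ 9 * ((T : ℝ) / q) ^ 2 * (V / (c * Real.log z ^ k)) + 8 * (z : ℝ) ^ 4 * T / q :=
        add_le_add hmain herrsum
    _ ≤ 9 * ((T : ℝ) / q) ^ 2 * (V / (c * Real.log z ^ k)) +
        8 * (k.factorial : ℝ) * ((T : ℝ) / q) ^ 2 / Real.log z ^ k * V := by gcongr
    _ = _ := by
        field_simp

end Pool.Agent.H77.SV
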