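import Pool.Agent.H77.SV.Defs
import Pool.Agent.H24.UM.Rankin

/-!
# Module SmTailA (about 220 lines; adapt SmTail.lean of helper52, which is the case `A = 1/2`):
integers with a large smooth part, arbitrary exponent.

CLAIM. For `A ≥ 1`: `#{L ≤ N : y < sm z L} ≤ C N exp (-A log y / log z)` for `z ≥ exp (8 A)`, `y ≥ 1`.
PROOF. As in SmTail with `η = A/log z ≤ 1/8`. For `2 ≤ p ≤ z`: `p^η ≤ e^A`,
`p^η - 1 ≤ η log p e^A` (`e^u - 1 ≤ u e^u`, `u = η log p ≤ A`), and `p^η ≤ p^(1/8)`, so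
`p - p^η ≥ p (1 - 2^(-7/8)) ≥ p/3`. Hence `c_p = 1 + (p^η - 1)/(p - p^η) ≤ 1 + 3 e^A η log p/p` and
`prod_{p ≤ z} c_p ≤ exp (3 e^A η (log z + C0)) ≤ exp (3 e^A A (1 + C0))` (`log z ≥ 1`).
-/

set_option autoImplicit false

namespace Pool.Agent.H77.SV

open Finset

/-- the weight `prod_{p in Q} q(p)^(v_p(L))` -/
private def stW (q : ℕ → ℝ) (Q : Finset ℕ) (L : ℕ) : ℝ := ∏ p ∈ Q, q p ^ L.factorization p

private lemma st_fac {p L : ℕ} (hp : p.Prime) (hL : L ≠ 0) (r : ℕ) :
    (p * L).factorization r = L.factorization r + if p = r then 1 else 0 := by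
  rw [Nat.factorization_mul hp.ne_zero hL, hp.factorization]
  simp only [Finsupp.add_apply, Finsupp.single_apply]
  ring

private lemma stW_mul {q : ℕ → ℝ} {Q : Finset ℕ} {p L : ℕ} (hp : p.Prime) (hL : L ≠ 0)
    (hpQ : p ∉ Q) : stW q Q (p * L) = stW q Q L := by
  unfold stW
  refine prod_congr rfl fun r hr => ?_
  have hne : p ≠ r := fun h => hpQ (h ▸ hr)
  rw [st_fac hp hL, if_neg hne, add_zero]

private lemma stW_nonneg {q : ℕ → ℝ} {Q : Finset ℕ} (hq : ∀ p ∈ Q, 1 ≤ q p) (L : ℕ) :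
    0 ≤ stW q Q L :=
  prod_nonneg fun p hp => pow_nonneg (by linarith [hq p hp]) _

/-- sums over multiples of `p` -/
private lemma st_sum {p : ℕ} (hp : p.Prime) (f : ℕ → ℝ) (hf : ∀ L, ¬ p ∣ L → f L = 0) (N : ℕ) :
    ∑ L ∈ Icc 1 N, f L = ∑ L ∈ Icc 1 (N / p), f (p * L) := by
  rw [← sum_filter_of_ne (p := fun L => p ∣ L) (fun L _ h => by
    by_contra hc
    exact h (hf L hc))]
  symm
  refine sum_bij (fun L _ => p * L) ?_ ?_ ?_ ?_
  · intro L hL
    rw [mem_Icc] at hL
    rw [mem_filter, mem_Icc]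
    refine ⟨⟨Nat.mul_pos hp.pos hL.1, ?_⟩, dvd_mul_right _ _⟩
    have := (Nat.le_div_iff_mul_le hp.pos).mp hL.2
    rwa [mul_comm]
  · intro a _ b _ h
    exact Nat.eq_of_mul_eq_mul_left hp.pos h
  · intro b hb
    rw [mem_filter, mem_Icc] at hb
    obtain ⟨⟨h1, h2⟩, c, rfl⟩ := hb
    refine ⟨c, ?_, rfl⟩
    rw [mem_Icc]
    refine ⟨Nat.pos_of_mul_pos_left h1, ?_⟩
    rw [Nat.le_div_iff_mul_le hp.pos, mul_comm]
    exact h2
  · intro a _
    rfl

private lemma st_step {q : ℕ → ℝ} {Q : Finset ℕ} {p : ℕ} (hp : p.Prime) (hpQ : p ∉ Q)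
    (hq1 : 1 ≤ q p) (hq2 : q p < p) {K : ℝ} (hK : 0 ≤ K)
    (hS : ∀ N : ℕ, ∑ L ∈ Icc 1 N, stW q Q L ≤ K * N) (N : ℕ) :
    ∑ L ∈ Icc 1 N, (q p ^ L.factorization p - 1) * stW q Q L ≤
      (q p - 1) / (p - q p) * K * N := by
  induction N using Nat.strong_induction_on with
  | _ N ih =>
    have hd0 : (0 : ℝ) < p - q p := by linarith
    have hp0 : (0 : ℝ) < p := by exact_mod_cast hp.pos
    rcases Nat.eq_zero_or_pos N with h0 | h0
    · subst h0
      simp
    · rw [st_sum hp _ (fun L hL => by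
        rw [Nat.factorization_eq_zero_of_not_dvd hL]
        simp)]
      have e1 : ∑ L ∈ Icc 1 (N / p), (q p ^ (p * L).factorization p - 1) * stW q Q (p * L) =
          (q p - 1) * ∑ L ∈ Icc 1 (N / p), stW q Q L +
          q p * ∑ L ∈ Icc 1 (N / p), (q p ^ L.factorization p - 1) * stW q Q L := by
        rw [mul_sum, mul_sum, ← sum_add_distrib]
        refine sum_congr rfl fun L hL => ?_
        rw [mem_Icc] at hL
        have hL0 : L ≠ 0 := by omega
        rw [stW_mul hp hL0 hpQ, st_fac hp hL0, if_pos rfl, pow_succ]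
        ring
      rw [e1]
      have h1 := hS (N / p)
      have h2 := ih (N / p) (Nat.div_lt_self h0 hp.one_lt)
      have h3 : ((N / p : ℕ) : ℝ) ≤ N / p := Nat.cast_div_le
      have h4 : K * ((N / p : ℕ) : ℝ) ≤ K * (N / p) := mul_le_mul_of_nonneg_left h3 hK
      have h5 : (q p - 1) / (p - q p) * K * ((N / p : ℕ) : ℝ) ≤
          (q p - 1) / (p - q p) * K * (N / p) :=
        mul_le_mul_of_nonneg_left h3 (mul_nonneg (div_nonneg (by linarith) hd0.le) hK)
      have h6 : (q p - 1) * ∑ L ∈ Icc 1 (N / p), stW q Q L ≤ (q p - 1) * (K * (N / p)) :=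
        mul_le_mul_of_nonneg_left (h1.trans h4) (by linarith)
      have h7 : q p * ∑ L ∈ Icc 1 (N / p), (q p ^ L.factorization p - 1) * stW q Q L ≤
          q p * ((q p - 1) / (p - q p) * K * (N / p)) :=
        mul_le_mul_of_nonneg_left (h2.trans h5) (by linarith)
      refine (add_le_add h6 h7).trans (le_of_eq ?_)
      field_simp
      ring

private lemma st_bound {q : ℕ → ℝ} (Q : Finset ℕ) (hQ : ∀ p ∈ Q, p.Prime ∧ 1 ≤ q p ∧ q p < p)
    (N : ℕ) :
    ∑ L ∈ Icc 1 N, stW q Q L ≤ (∏ p ∈ Q, (1 + (q p - 1) / (p - q p))) * N := by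
  induction Q using Finset.induction_on generalizing N with
  | empty => simp [stW]
  | insert p Q hpQ ih =>
    have hQ' : ∀ r ∈ Q, r.Prime ∧ 1 ≤ q r ∧ q r < r := fun r hr => hQ r (mem_insert_of_mem hr)
    obtain ⟨hp, hq1, hq2⟩ := hQ p (mem_insert_self _ _)
    have hK : 0 ≤ ∏ r ∈ Q, (1 + (q r - 1) / (r - q r)) := by
      refine prod_nonneg fun r hr => ?_
      obtain ⟨_, h1, h2⟩ := hQ' r hr
      have := div_nonneg (show 0 ≤ q r - 1 by linarith) (show 0 ≤ (r : ℝ) - q r by linarith)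
      linarith
    have h1 := st_step hp hpQ hq1 hq2 hK (ih hQ') N
    have h2 := ih hQ' N
    rw [prod_insert hpQ]
    have e1 : ∑ L ∈ Icc 1 N, stW q (insert p Q) L =
        ∑ L ∈ Icc 1 N, stW q Q L + ∑ L ∈ Icc 1 N, (q p ^ L.factorization p - 1) * stW q Q L := by
      rw [← sum_add_distrib]
      refine sum_congr rfl fun L _ => ?_
      have : stW q (insert p Q) L = q p ^ L.factorization p * stW q Q L := by
        unfold stW
        rw [prod_insert hpQ]
      rw [this]
      ring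
    rw [e1]
    refine (add_le_add h2 h1).trans (le_of_eq ?_)
    ring

/-- `e^u - 1 ≤ u e^u` -/
private lemma st_expm (u : ℝ) : Real.exp u - 1 ≤ u * Real.exp u := by
  have h1 := Real.add_one_le_exp (-u)
  have h2 := mul_le_mul_of_nonneg_right h1 (Real.exp_pos u).le
  rw [← Real.exp_add, neg_add_cancel, Real.exp_zero] at h2
  nlinarith

/-- `exp (log p / 8) ≤ (2/3) p` for `p ≥ 2` -/
private lemma st_eighth {p : ℝ} (hp : 2 ≤ p) : Real.exp (Real.log p / 8) ≤ 2 / 3 * p := by
  have hp0 : 0 < p := by linarith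
  have h1 : Real.exp (Real.log p / 8) ^ 8 = p := by
    rw [← Real.exp_nat_mul]
    have : ((8 : ℕ) : ℝ) * (Real.log p / 8) = Real.log p := by
      push_cast
      ring
    rw [this, Real.exp_log hp0]
  have h2 : p ≤ (2 / 3 * p) ^ 8 := by
    have h3 : (2 : ℝ) ^ 7 ≤ p ^ 7 := pow_le_pow_left₀ (by norm_num) hp 7
    have h4 : (2 / 3 * p) ^ 8 = (2 / 3 : ℝ) ^ 8 * p ^ 7 * p := by ring
    rw [h4]
    have h5 : (1 : ℝ) ≤ (2 / 3 : ℝ) ^ 8 * p ^ 7 := by
      have h6 := mul_le_mul_of_nonneg_left h3 (show (0 : ℝ) ≤ (2 / 3 : ℝ) ^ 8 by positivity)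
      have h7 : (1 : ℝ) ≤ (2 / 3 : ℝ) ^ 8 * (2 : ℝ) ^ 7 := by norm_num
      linarith
    nlinarith
  have h3 : Real.exp (Real.log p / 8) ^ 8 ≤ (2 / 3 * p) ^ 8 := by rw [h1]; exact h2
  exact le_of_pow_le_pow_left₀ (by norm_num) (by positivity) h3

theorem smooth_tailA (A : ℝ) (hA : 1 ≤ A) : ∃ C : ℝ, 0 < C ∧ ∀ (N z : ℕ) (y : ℝ),
    Real.exp (8 * A) ≤ z → 1 ≤ y →
    (((Icc 1 N).filter fun L : ℕ => y < (sm z L : ℝ)).card : ℝ) ≤
      C * N * Real.exp (-(A * Real.log y / Real.log z)) := by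
  obtain ⟨C0, hC0, hm⟩ := Pool.Agent.H24.UM.mertens_primes
  refine ⟨Real.exp (3 * Real.exp A * A * (1 + C0)), Real.exp_pos _, fun N z y hz hy => ?_⟩
  have hz0 : (0 : ℝ) < z := (Real.exp_pos _).trans_le hz
  have hlz8 : 8 * A ≤ Real.log z := (Real.le_log_iff_exp_le hz0).mpr hz
  have hlz : 0 < Real.log z := by linarith
  have hlz1 : 1 ≤ Real.log z := by linarith
  have hz1 : 1 ≤ z := by
    have : 0 < z := by exact_mod_cast hz0
    omega
  set η : ℝ := A / Real.log z with hη
  have hη0 : 0 < η := by positivity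
  have hη8 : η ≤ 1 / 8 := by
    rw [hη, div_le_iff₀ hlz]
    linarith
  set q : ℕ → ℝ := fun p => Real.exp (η * Real.log p) with hq
  set Q : Finset ℕ := (Icc 1 z).filter Nat.Prime with hQdef
  have hQm : ∀ p ∈ Q, p.Prime ∧ p ≤ z := by
    intro p hp
    rw [hQdef, mem_filter, mem_Icc] at hp
    exact ⟨hp.2, hp.1.2⟩
  have hu : ∀ p ∈ Q, 0 ≤ η * Real.log p ∧ η * Real.log p ≤ A ∧
      η * Real.log p ≤ Real.log p / 8 := by
    intro p hp
    obtain ⟨hpp, hpz⟩ := hQm p hp
    have hp1 : (1 : ℝ) ≤ p := by exact_mod_cast hpp.one_lt.le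
    have hlp := Real.log_nonneg hp1
    refine ⟨mul_nonneg hη0.le hlp, ?_, ?_⟩
    · have h1 : Real.log p ≤ Real.log z := Real.log_le_log (by linarith) (by exact_mod_cast hpz)
      have h2 : η * Real.log p ≤ η * Real.log z := mul_le_mul_of_nonneg_left h1 hη0.le
      have h3 : η * Real.log z = A := by
        rw [hη]
        field_simp
      linarith
    · have := mul_le_mul_of_nonneg_right hη8 hlp
      linarith
  have hq1 : ∀ p ∈ Q, 1 ≤ q p ∧ q p ≤ 2 / 3 * p ∧ q p - 1 ≤ Real.exp A * (η * Real.log p) := by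
    intro p hp
    obtain ⟨h1, h2, h3⟩ := hu p hp
    have hp2 : (2 : ℝ) ≤ p := by exact_mod_cast (hQm p hp).1.two_le
    refine ⟨?_, ?_, ?_⟩
    · rw [hq]
      exact Real.one_le_exp h1
    · exact (Real.exp_le_exp.mpr h3).trans (st_eighth hp2)
    · have h4 := st_expm (η * Real.log p)
      have h5 := mul_le_mul_of_nonneg_left (Real.exp_le_exp.mpr h2) h1
      have h6 : q p = Real.exp (η * Real.log p) := rfl
      rw [h6]
      linarith
  have hQ : ∀ p ∈ Q, p.Prime ∧ 1 ≤ q p ∧ q p < p := by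
    intro p hp
    have hp2 : (2 : ℝ) ≤ p := by exact_mod_cast (hQm p hp).1.two_le
    obtain ⟨h1, h2, _⟩ := hq1 p hp
    exact ⟨(hQm p hp).1, h1, by linarith⟩
  have hmain := st_bound Q hQ N
  -- the product of the constants
  have hprod : ∏ p ∈ Q, (1 + (q p - 1) / (p - q p)) ≤
      Real.exp (3 * Real.exp A * A * (1 + C0)) := by
    have hEA := Real.exp_pos A
    have h1 : ∏ p ∈ Q, (1 + (q p - 1) / (p - q p)) ≤
        ∏ p ∈ Q, Real.exp (3 * Real.exp A * η * (Real.log p / p)) := by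
      refine prod_le_prod (fun p hp => ?_) (fun p hp => ?_)
      · obtain ⟨_, a1, a2⟩ := hQ p hp
        have := div_nonneg (show 0 ≤ q p - 1 by linarith) (show 0 ≤ (p : ℝ) - q p by linarith)
        linarith
      · obtain ⟨_, a1, a2⟩ := hQ p hp
        obtain ⟨_, b2, b3⟩ := hq1 p hp
        have hp2 : (2 : ℝ) ≤ p := by exact_mod_cast (hQm p hp).1.two_le
        have h2 : (q p - 1) / (p - q p) ≤ 3 * Real.exp A * η * (Real.log p / p) := by
          rw [div_le_iff₀ (by linarith)]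
          have h3 : (p : ℝ) / 3 ≤ p - q p := by linarith
          have h4 : 0 ≤ 3 * Real.exp A * η * (Real.log p / p) := by
            have := Real.log_nonneg (show (1 : ℝ) ≤ p by linarith)
            positivity
          have h5 := mul_le_mul_of_nonneg_left h3 h4
          have h6 : 3 * Real.exp A * η * (Real.log p / p) * ((p : ℝ) / 3) =
              Real.exp A * (η * Real.log p) := by
            field_simp
          linarith
        have h7 := Real.add_one_le_exp (3 * Real.exp A * η * (Real.log p / p))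
        linarith
    refine h1.trans ?_
    rw [← Real.exp_sum, Real.exp_le_exp, ← mul_sum]
    have h2 := hm z Q hz1 hQm
    have h3 := mul_le_mul_of_nonneg_left h2 (show 0 ≤ 3 * Real.exp A * η by positivity)
    refine h3.trans ?_
    have h4 : 3 * Real.exp A * η * (Real.log z + C0) =
        3 * Real.exp A * A * (1 + C0 / Real.log z) := by
      rw [hη]
      field_simp
    rw [h4]
    have h5 : C0 / Real.log z ≤ C0 := div_le_self hC0 hlz1
    exact mul_le_mul_of_nonneg_left (by linarith) (by positivity)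
  -- Rankin
  have hsm : ∀ L ∈ Icc 1 N, Real.exp (η * Real.log (sm z L)) = stW q Q L := by
    intro L hL
    rw [mem_Icc] at hL
    have hL0 : L ≠ 0 := by omega
    have e1 : stW q Q L = ∏ p ∈ L.primeFactors.filter (· ≤ z), q p ^ L.factorization p := by
      unfold stW
      symm
      refine prod_subset ?_ ?_
      · intro p hp
        rw [mem_filter, Nat.mem_primeFactors] at hp
        rw [hQdef, mem_filter, mem_Icc]
        exact ⟨⟨hp.1.1.pos, hp.2⟩, hp.1.1⟩
      · intro p hp hp'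
        obtain ⟨h1, h2⟩ := hQm p hp
        have h3 : ¬ p ∣ L := by
          intro h
          apply hp'
          rw [mem_filter, Nat.mem_primeFactors]
          exact ⟨⟨h1, h, hL0⟩, h2⟩
        rw [Nat.factorization_eq_zero_of_not_dvd h3, pow_zero]
    rw [e1]
    unfold sm
    rw [Nat.cast_prod, Real.log_prod (fun p hp => by
      rw [mem_filter, Nat.mem_primeFactors] at hp
      have := hp.1.1.pos
      positivity), mul_sum, Real.exp_sum]
    refine prod_congr rfl fun p _ => ?_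
    rw [hq]
    simp only
    rw [← Real.exp_nat_mul]
    congr 1
    push_cast
    rw [Real.log_pow]
    ring
  have hfin : (((Icc 1 N).filter fun L : ℕ => y < (sm z L : ℝ)).card : ℝ) *
      Real.exp (η * Real.log y) ≤ ∑ L ∈ Icc 1 N, stW q Q L := by
    calc (((Icc 1 N).filter fun L : ℕ => y < (sm z L : ℝ)).card : ℝ) *
        Real.exp (η * Real.log y)
        = ∑ _L ∈ (Icc 1 N).filter (fun L : ℕ => y < (sm z L : ℝ)),
            Real.exp (η * Real.log y) := by
          rw [sum_const, nsmul_eq_mul]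
      _ ≤ ∑ L ∈ (Icc 1 N).filter (fun L : ℕ => y < (sm z L : ℝ)), stW q Q L := by
          refine sum_le_sum fun L hL => ?_
          rw [mem_filter] at hL
          rw [← hsm L hL.1, Real.exp_le_exp]
          exact mul_le_mul_of_nonneg_left
            (Real.log_le_log (by linarith) hL.2.le) hη0.le
      _ ≤ ∑ L ∈ Icc 1 N, stW q Q L :=
          sum_le_sum_of_subset_of_nonneg (filter_subset _ _)
            (fun L _ _ => stW_nonneg (fun p hp => (hq1 p hp).1) L)
  have hey : Real.exp (-(A * Real.log y / Real.log z)) * Real.exp (η * Real.log y) = 1 := by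
    rw [← Real.exp_add, hη]
    have : -(A * Real.log y / Real.log z) + A / Real.log z * Real.log y = 0 := by ring
    rw [this, Real.exp_zero]
  have hN0 : (0 : ℝ) ≤ N := Nat.cast_nonneg N
  have h1 : (((Icc 1 N).filter fun L : ℕ => y < (sm z L : ℝ)).card : ℝ) *
      Real.exp (η * Real.log y) ≤ Real.exp (3 * Real.exp A * A * (1 + C0)) * N :=
    (hfin.trans hmain).trans (mul_le_mul_of_nonneg_right hprod hN0)
  have h2 := mul_le_mul_of_nonneg_right h1
    (Real.exp_pos (-(A * Real.log y / Real.log z))).le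
  calc (((Icc 1 N).filter fun L : ℕ => y < (sm z L : ℝ)).card : ℝ)
      = (((Icc 1 N).filter fun L : ℕ => y < (sm z L : ℝ)).card : ℝ) *
        (Real.exp (-(A * Real.log y / Real.log z)) * Real.exp (η * Real.log y)) := by
        rw [hey, mul_one]
    _ = (((Icc 1 N).filter fun L : ℕ => y < (sm z L : ℝ)).card : ℝ) *
        Real.exp (η * Real.log y) * Real.exp (-(A * Real.log y / Real.log z)) := by ring
    _ ≤ _ := h2

end Pool.Agent.H77.SV
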