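import Pool.Agent.H77.SV.CntPhi
import Pool.Agent.H77.SV.SelAvg

/-!
# Module SumGood (about 180 lines): sum of the Selmer sizes over the good pairs.

PROOF. Group the good `x` by their states `φ p = F.st x p`, `p ∈ Pr w z` (`Finset.sum_fiberwise` /
`sum_comp`): `#SelZ` depends only on `ψ = join ∘ φ`. So the sum is
`≤ sum_φ cnt(φ) #Sel(join φ) ≤ C T^2 (log z)^(-k) sum_φ prod_p wN(φ p) #Sel(join φ)`, `σ = 1/log T`.
For fixed `ψ : Pr w z → Option (Fin k × ZMod 2)` the `φ` with `join φ = ψ` are: at `p` with `ψ p = some x` only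
`some (some x)`; at `p` with `ψ p = none` either `none` or `some none`. So
`sum_{φ : join φ = ψ} prod wN = prod_{ψ p ≠ none} (1 + k/p)/(2 p^(1+σ)) prod_{ψ p = none} (1 + 2k/p^2) ≤
 (prod_{p} (1 + 2k/p^2)) prod_{p, ψ p ≠ none} ..`, and `prod_p (1 + 2k/p^2) ≤ exp (2k sum 1/n^2) ≤ exp (4k)`.
Then `sel_avg` with `σ = 1/log T ≤ 1/2` (`T ≥ z^24 ≥ 12^24`): `≤ C (log T)^k`.
-/

set_option autoImplicit false

namespace Pool.Agent.H77.SV

open Finset

variable {k : ℕ} {F : Fam k} {w : ℕ}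

private lemma wN_nonneg (σ : ℝ) (p : ℕ) (s : Stt k) : 0 ≤ wN k σ p s := by
  rcases s with _ | _ | _
  · exact zero_le_one
  · unfold wN; positivity
  · unfold wN; positivity

open Classical in
private lemma local_sum (σ : ℝ) (p : ℕ) (t : Option (Fin k × ZMod 2)) :
    ∑ s : Stt k, (if s.join = t then wN k σ p s else 0) ≤
      (1 + 2 * k / (p:ℝ) ^ 2) *
        (if t.isSome then (1 + (k : ℝ) / p) / (2 * (p : ℝ) ^ (1 + σ)) else 1) := by
  rw [Fintype.sum_option, Fintype.sum_option]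
  rcases t with _ | a
  · have h1 : ∑ x : Fin k × ZMod 2, (if (some (some x) : Stt k).join = none then
        wN k σ p (some (some x)) else 0) = 0 := by
      refine sum_eq_zero fun x _ => ?_
      rw [if_neg (by simp)]
    rw [h1]
    simp only [Option.join_none, Option.join_some, if_true, Option.isSome_none, wN]
    simp
  · have h1 : ∑ x : Fin k × ZMod 2, (if (some (some x) : Stt k).join = some a then
        wN k σ p (some (some x)) else 0) = wN k σ p (some (some a)) := by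
      rw [sum_eq_single a]
      · simp
      · intro b _ hb
        rw [if_neg]
        simp only [Option.join_some, Option.some.injEq]
        exact hb
      · intro h; exact absurd (mem_univ _) h
    rw [h1]
    have h2 : (if (none : Stt k).join = some a then wN k σ p none else 0) = 0 := by
      rw [if_neg (by simp)]
    have h3 : (if (some none : Stt k).join = some a then wN k σ p (some none) else 0) = 0 := by
      rw [if_neg (by simp)]
    rw [h2, h3, zero_add, zero_add]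
    simp only [Option.isSome_some, if_true, wN]
    have h4 : 0 ≤ (1 + (k : ℝ) / p) / (2 * (p : ℝ) ^ (1 + σ)) := by positivity
    have h5 : 0 ≤ 2 * (k:ℝ) / (p:ℝ) ^ 2 := by positivity
    nlinarith

open Classical in
theorem sum_good (hw : F.Big w) : ∃ C : ℝ, 0 < C ∧ ∀ (T z : ℕ), w < z → z ^ 24 ≤ T →
    ∑ x ∈ (F.box T).filter (fun x => F.Good T z x.1 x.2), ((F.SelZ w z x.1 x.2).card : ℝ) ≤
      C * (T : ℝ) ^ 2 * (Real.log T / Real.log z) ^ k := by
  obtain ⟨C1, hC1, hcnt⟩ := cnt_phi hw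
  obtain ⟨C2, hC2, hsel⟩ := sel_avg hw
  have h12 := hw.h12
  refine ⟨C1 * Real.exp (2 * k) * C2, by positivity, fun T z hz hT => ?_⟩
  have hz12 : 12 < z := lt_of_le_of_lt h12 hz
  have hT8 : 8 ≤ T := by
    have : 8 ≤ z ^ 24 := by
      calc 8 ≤ z := by omega
        _ = z ^ 1 := (pow_one z).symm
        _ ≤ z ^ 24 := Nat.pow_le_pow_right (by omega) (by norm_num)
    exact this.trans hT
  have hlz : 0 < Real.log z := Real.log_pos (by exact_mod_cast (by omega : 1 < z))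
  have hlT : 2 ≤ Real.log T := by
    have h1 : Real.log 8 ≤ Real.log T := Real.log_le_log (by norm_num) (by exact_mod_cast hT8)
    have h2 : Real.log 8 = 3 * Real.log 2 := by
      rw [show (8:ℝ) = 2 ^ 3 by norm_num, Real.log_pow]; norm_num
    have := Real.log_two_gt_d9
    linarith
  set σ : ℝ := 1 / Real.log T with hσ
  have hσ0 : 0 < σ := by positivity
  have hσ1 : σ ≤ 1 / 2 := by
    rw [hσ]; exact one_div_le_one_div_of_le (by norm_num) hlT
  set g : (Pr w z → Option (Fin k × ZMod 2)) → ℝ :=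
    fun ψ => ((Sel F.ty F.N (Pr w z) ψ).card : ℝ) with hg
  have hg0 : ∀ ψ, 0 ≤ g ψ := fun ψ => Nat.cast_nonneg _
  set A := (F.box T).filter (fun x => F.Good T z x.1 x.2) with hA
  -- group by states
  have h1 : ∑ x ∈ A, ((F.SelZ w z x.1 x.2).card : ℝ) =
      ∑ φ : Pr w z → Stt k, ∑ x ∈ A.filter (fun x => (fun p : Pr w z => F.st x.1 x.2 p) = φ),
        ((F.SelZ w z x.1 x.2).card : ℝ) := by
    rw [sum_fiberwise]
  have h2 : ∀ φ : Pr w z → Stt k,
      ∑ x ∈ A.filter (fun x => (fun p : Pr w z => F.st x.1 x.2 p) = φ),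
        ((F.SelZ w z x.1 x.2).card : ℝ) ≤
      C1 * (T : ℝ) ^ 2 / Real.log z ^ k *
        ((∏ p : Pr w z, wN k σ p (φ p)) * g (fun p => (φ p).join)) := by
    intro φ
    have h3 : ∑ x ∈ A.filter (fun x => (fun p : Pr w z => F.st x.1 x.2 p) = φ),
        ((F.SelZ w z x.1 x.2).card : ℝ) =
        ((A.filter (fun x => (fun p : Pr w z => F.st x.1 x.2 p) = φ)).card : ℝ) *
          g (fun p => (φ p).join) := by
      rw [← nsmul_eq_mul]
      refine sum_eq_card_nsmul fun x hx => ?_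
      rw [mem_filter] at hx
      rw [hg]
      dsimp only
      unfold Fam.SelZ
      rw [← hx.2]
    have h4 : (A.filter (fun x => (fun p : Pr w z => F.st x.1 x.2 p) = φ)).card =
        ((F.box T).filter fun x => F.Good T z x.1 x.2 ∧
          ∀ p : Pr w z, F.st x.1 x.2 p = φ p).card := by
      congr 1
      rw [hA, filter_filter]
      refine filter_congr fun x _ => ?_
      rw [funext_iff]
    rw [h3, h4, ← mul_assoc]
    exact mul_le_mul_of_nonneg_right (hcnt T z hz hT φ) (hg0 _)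
  rw [h1]
  refine (sum_le_sum fun φ _ => h2 φ).trans ?_
  rw [← mul_sum]
  -- group by joins
  have h5 : ∑ φ : Pr w z → Stt k, (∏ p : Pr w z, wN k σ p (φ p)) * g (fun p => (φ p).join) =
      ∑ ψ : Pr w z → Option (Fin k × ZMod 2),
        (∏ p : Pr w z, ∑ s : Stt k, (if s.join = ψ p then wN k σ p s else 0)) * g ψ := by
    have h6 : ∀ φ : Pr w z → Stt k, (∏ p : Pr w z, wN k σ p (φ p)) * g (fun p => (φ p).join) =
        ∑ ψ : Pr w z → Option (Fin k × ZMod 2),
          (∏ p : Pr w z, (if (φ p).join = ψ p then wN k σ p (φ p) else 0)) * g ψ := by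
      intro φ
      rw [sum_eq_single (fun p => (φ p).join)]
      · congr 1
        refine prod_congr rfl fun p _ => ?_
        rw [if_pos rfl]
      · intro ψ _ hψ
        have : ∃ p, (φ p).join ≠ ψ p := by
          by_contra hc
          push Not at hc
          exact hψ (funext fun p => (hc p).symm)
        obtain ⟨p, hp⟩ := this
        rw [prod_eq_zero (mem_univ p) (if_neg hp), zero_mul]
      · intro h; exact absurd (mem_univ _) h
    rw [sum_congr rfl fun φ _ => h6 φ, sum_comm]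
    refine sum_congr rfl fun ψ _ => ?_
    rw [← sum_mul]
    congr 1
    rw [Finset.prod_univ_sum, Fintype.piFinset_univ]
  have h7 : ∀ ψ : Pr w z → Option (Fin k × ZMod 2),
      (∏ p : Pr w z, ∑ s : Stt k, (if s.join = ψ p then wN k σ p s else 0)) * g ψ ≤
      (∏ p : Pr w z, (1 + 2 * k / ((p : ℕ):ℝ) ^ 2)) * ((∏ p : Pr w z,
        (if (ψ p).isSome then (1 + (k : ℝ) / p) / (2 * (p : ℝ) ^ (1 + σ)) else 1)) * g ψ) := by
    intro ψ
    rw [← mul_assoc, ← prod_mul_distrib]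
    refine mul_le_mul_of_nonneg_right (prod_le_prod (fun p _ => ?_) (fun p _ => ?_)) (hg0 _)
    · refine sum_nonneg fun s _ => ?_
      split_ifs
      · exact wN_nonneg σ p s
      · exact le_rfl
    · exact local_sum σ p (ψ p)
  have h8 : ∏ p : Pr w z, (1 + 2 * k / ((p : ℕ):ℝ) ^ 2) ≤ Real.exp (2 * k) := by
    rw [Finset.prod_coe_sort (Pr w z) (fun p : ℕ => (1 + 2 * (k:ℝ) / (p:ℝ) ^ 2))]
    have h9 : ∏ p ∈ Pr w z, (1 + 2 * (k:ℝ) / (p:ℝ) ^ 2) ≤
        ∏ p ∈ Pr w z, Real.exp (2 * (k:ℝ) / (p:ℝ) ^ 2) :=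
      prod_le_prod (fun p _ => by positivity) (fun p _ => by
        have := Real.add_one_le_exp (2 * (k:ℝ) / (p:ℝ) ^ 2)
        linarith)
    refine h9.trans ?_
    rw [← Real.exp_sum]
    refine Real.exp_le_exp.2 ?_
    have h10 : ∑ p ∈ Pr w z, 2 * (k:ℝ) / (p:ℝ) ^ 2 ≤ ∑ p ∈ Ioc w z, 2 * (k:ℝ) / (p:ℝ) ^ 2 :=
      sum_le_sum_of_subset_of_nonneg (filter_subset _ _) (fun p _ _ => by positivity)
    have h11 : ∑ p ∈ Ioc w z, 2 * (k:ℝ) / (p:ℝ) ^ 2 =
        2 * k * ∑ p ∈ Ioc w z, (((p:ℕ):ℝ) ^ 2)⁻¹ := by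
      rw [mul_sum]; exact sum_congr rfl fun p _ => div_eq_mul_inv _ _
    have h12' : ∑ p ∈ Ioc w z, (((p:ℕ):ℝ) ^ 2)⁻¹ ≤ (w:ℝ)⁻¹ - (z:ℝ)⁻¹ :=
      sum_Ioc_inv_sq_le_sub (by omega) hz.le
    have h13 : (w:ℝ)⁻¹ - (z:ℝ)⁻¹ ≤ 1 := by
      have : (w:ℝ)⁻¹ ≤ 1 := inv_le_one_of_one_le₀ (by exact_mod_cast (by omega : 1 ≤ w))
      have : (0:ℝ) ≤ (z:ℝ)⁻¹ := by positivity
      linarith
    have h14 : 2 * (k:ℝ) * ∑ p ∈ Ioc w z, (((p:ℕ):ℝ) ^ 2)⁻¹ ≤ 2 * k * 1 :=
      mul_le_mul_of_nonneg_left (h12'.trans h13) (by positivity)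
    linarith
  have h15 : ∑ φ : Pr w z → Stt k, (∏ p : Pr w z, wN k σ p (φ p)) * g (fun p => (φ p).join) ≤
      Real.exp (2 * k) * (C2 * σ ^ (-(k:ℝ))) := by
    rw [h5]
    refine (sum_le_sum fun ψ _ => h7 ψ).trans ?_
    rw [← mul_sum]
    refine mul_le_mul h8 (hsel σ hσ0 hσ1 z) ?_ (Real.exp_pos _).le
    refine sum_nonneg fun ψ _ => mul_nonneg (prod_nonneg fun p _ => ?_) (hg0 _)
    split_ifs
    · positivity
    · exact zero_le_one
  have h16 : σ ^ (-(k:ℝ)) = Real.log T ^ k := by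
    rw [hσ, Real.rpow_neg (by positivity), Real.rpow_natCast, one_div, inv_pow, inv_inv]
  rw [h16] at h15
  calc C1 * (T : ℝ) ^ 2 / Real.log z ^ k *
        ∑ φ : Pr w z → Stt k, (∏ p : Pr w z, wN k σ p (φ p)) * g (fun p => (φ p).join)
      ≤ C1 * (T : ℝ) ^ 2 / Real.log z ^ k * (Real.exp (2 * k) * (C2 * Real.log T ^ k)) :=
        mul_le_mul_of_nonneg_left h15 (by positivity)
    _ = _ := by rw [div_pow]; field_simp

end Pool.Agent.H77.SV
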