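import Pool.Agent.H77.SV.Defs

/-!
# Module Theta (about 220 lines): sums of real characters over primes, upper bounds.

`RChar θ M` (Pool.Agent.H24.UM): completely multiplicative, values `0, 1, -1`, `θ 0 = 0`, all sums over
intervals bounded by `M ≥ 1`. `s = 1 + σ > 1`.
(1) `exp_sum_le`: for every finite set `Q` of primes `exp (sum_{p ∈ Q} θ p p^(-s)) ≤` ... Let
`L = ∑' n, θ n / n^s` (absolutely convergent). Euler product
(`EulerProduct.eulerProduct_completely_multiplicative_hasProd` with the monoid with zero homomorphism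
`n ↦ θ n * n^(-s)`, or `eulerProduct_completely_multiplicative_tprod`): `L = ∏' p, (1 - θ p p^(-s))⁻¹`; since
`(1 - x)⁻¹ ≥ exp x` for `|x| < 1` (`Real.one_sub_le_exp_neg` / `1 - x ≤ exp (-x)`), for every `N`
`exp (sum_{p ≤ N} θ p p^(-s)) ≤ prod_{p ≤ N} (1 - θ p p^(-s))⁻¹`, and the right side tends to `L`
(`eulerProduct_completely_multiplicative`: the product over `primesBelow N` tends to the sum), the left
side tends to `exp (∑' p prime)`. Hence `∑'_{p} θ p p^(-s) ≤ log L` (in particular `L > 0`).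
(2) `L ≤ log M + 3`: with `m = ⌊M⌋`: `|sum_{n ≤ m} θ n n^(-s)| ≤ sum_{n ≤ m} 1/n ≤ 1 + log m`; for `N > m`
`|sum_{m < n < N} θ n n^(-s)| ≤ M (m+1)^(-s) ≤ 1` by Abel summation (`Pool.Agent.H24.UM.abel_bound`, with
`b n = n^(-s)` decreasing), pass to the limit.
(3) Truncation, `exp (1/σ^2) ≤ X`: `∑_{p ∈ (w, X]} = ∑'_p - ∑_{p ≤ w} - ∑'_{p > X}`, and
`|∑_{p ≤ w}| ≤ w`, `|∑'_{p > X}| ≤ ∑'_{n > X} n^(-1-σ) ≤ X^(-σ)/σ ≤ exp (-1/σ)/σ ≤ 1`.
`sum_prin`: for the constant `1`: `∑_{p ∈ (w,X]} p^(-s) ≤ ∑'_p p^(-s) ≤ log ζ(s)`, and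
`ζ(s) = ∑' n^(-s) ≤ 1 + 1/σ ≤ 2/σ` (integral comparison; or `ZetaAsymp` in Mathlib), so
`≤ log (1/σ) + log 2`. (Same argument as (1) with `θ = 1`; finite product version suffices:
`exp (∑_{p ∈ Q} p^(-s)) ≤ ∏_{p ∈ Q} (1 - p^(-s))⁻¹ ≤ ∑' n^(-s)`.)
-/

set_option autoImplicit false

namespace Pool.Agent.H77.SV

open Finset Pool.Agent.H24.UM

private lemma theta_euler {F : ℕ →*₀ ℝ} (hs : Summable fun n => ‖F n‖)
    (hlt : ∀ p : ℕ, p.Prime → F p < 1) {c : ℝ} {n₀ : ℕ}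
    (hc : ∀ n, n₀ ≤ n → c ≤ ∑ p ∈ Nat.primesBelow n, F p) : Real.exp c ≤ ∑' n, F n := by
  have h := EulerProduct.eulerProduct_completely_multiplicative hs
  refine ge_of_tendsto h ?_
  filter_upwards [Filter.eventually_ge_atTop n₀] with n hn
  calc Real.exp c ≤ Real.exp (∑ p ∈ Nat.primesBelow n, F p) := Real.exp_le_exp.2 (hc n hn)
    _ = ∏ p ∈ Nat.primesBelow n, Real.exp (F p) := Real.exp_sum _ _
    _ ≤ ∏ p ∈ Nat.primesBelow n, (1 - F p)⁻¹ := by
        refine Finset.prod_le_prod (fun _ _ => (Real.exp_pos _).le) fun p hp => ?_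
        have hpp : p.Prime := (Nat.mem_primesBelow.1 hp).2
        have h1 : (0 : ℝ) < 1 - F p := by linarith [hlt p hpp]
        have h2 : 1 - F p ≤ Real.exp (-F p) := Real.one_sub_le_exp_neg _
        have h3 : Real.exp (F p) = (Real.exp (-F p))⁻¹ := by rw [Real.exp_neg, inv_inv]
        rw [h3]
        exact inv_anti₀ h1 h2

private lemma theta_step {σ x : ℝ} (hσ : 0 < σ) (hx : 1 ≤ x) :
    (x + 1) ^ (-(1 + σ)) ≤ (x ^ (-σ) - (x + 1) ^ (-σ)) / σ := by
  have hx0 : 0 < x := by linarith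
  have hx1 : 0 < x + 1 := by linarith
  rw [le_div_iff₀ hσ]
  set u := Real.log x with hu
  set v := Real.log (x + 1) with hv
  have huv : 1 / (x + 1) ≤ v - u := by
    have h1 : Real.log (x / (x + 1)) ≤ x / (x + 1) - 1 :=
      Real.log_le_sub_one_of_pos (by positivity)
    rw [Real.log_div hx0.ne' hx1.ne'] at h1
    have h2 : x / (x + 1) - 1 = -(1 / (x + 1)) := by field_simp; ring
    rw [h2] at h1
    linarith
  have h1 : x ^ (-σ) = Real.exp (-(σ * v)) * Real.exp (σ * (v - u)) := by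
    rw [Real.rpow_def_of_pos hx0, ← Real.exp_add]
    congr 1
    ring
  have h2 : (x + 1) ^ (-σ) = Real.exp (-(σ * v)) := by
    rw [Real.rpow_def_of_pos hx1]
    congr 1
    ring
  have h3 : (x + 1) ^ (-(1 + σ)) = Real.exp (-(σ * v)) * (1 / (x + 1)) := by
    rw [neg_add, Real.rpow_add hx1, h2, Real.rpow_neg_one]
    ring
  have h4 : 1 + σ * (v - u) ≤ Real.exp (σ * (v - u)) := by
    have := Real.add_one_le_exp (σ * (v - u))
    linarith
  have h5 : σ * (1 / (x + 1)) ≤ σ * (v - u) := mul_le_mul_of_nonneg_left huv hσ.le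
  rw [h1, h2, h3]
  have he := (Real.exp_pos (-(σ * v))).le
  nlinarith [mul_le_mul_of_nonneg_left (h5.trans (by linarith : σ * (v - u) ≤
    Real.exp (σ * (v - u)) - 1)) he]

private lemma theta_tail {σ : ℝ} (hσ : 0 < σ) {a : ℕ} (ha : 1 ≤ a) (m : ℕ) :
    ∑ k ∈ Ico (a + 1) (a + 1 + m), (k : ℝ) ^ (-(1 + σ)) ≤
      ((a : ℝ) ^ (-σ) - ((a + m : ℕ) : ℝ) ^ (-σ)) / σ := by
  induction m with
  | zero => simp
  | succ m ih =>
    rw [← add_assoc, Finset.sum_Ico_succ_top (by omega)]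
    have h1 := theta_step (σ := σ) (x := ((a + m : ℕ) : ℝ)) hσ
      (by exact_mod_cast (by omega : 1 ≤ a + m))
    have e1 : ((a + 1 + m : ℕ) : ℝ) = ((a + m : ℕ) : ℝ) + 1 := by push_cast; ring
    have e2 : ((a + m + 1 : ℕ) : ℝ) = ((a + m : ℕ) : ℝ) + 1 := by push_cast; ring
    rw [e1, ← add_assoc, e2]
    calc _ ≤ ((a : ℝ) ^ (-σ) - ((a + m : ℕ) : ℝ) ^ (-σ)) / σ +
          (((a + m : ℕ) : ℝ) ^ (-σ) - (((a + m : ℕ) : ℝ) + 1) ^ (-σ)) / σ := add_le_add ih h1
      _ = _ := by ring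

private lemma theta_tail' {σ : ℝ} (hσ : 0 < σ) {a : ℕ} (ha : 1 ≤ a) (n : ℕ) :
    ∑ k ∈ Ico (a + 1) n, (k : ℝ) ^ (-(1 + σ)) ≤ (a : ℝ) ^ (-σ) / σ := by
  rcases le_or_gt n (a + 1) with h | h
  · rw [Finset.Ico_eq_empty_of_le h, Finset.sum_empty]
    positivity
  · obtain ⟨m, hm⟩ := Nat.exists_eq_add_of_le h.le
    rw [hm]
    refine (theta_tail hσ ha m).trans ?_
    have h1 : (0 : ℝ) ≤ ((a + m : ℕ) : ℝ) ^ (-σ) := by positivity
    exact div_le_div_of_nonneg_right (by linarith) hσ.le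

private lemma theta_pow_le {σ : ℝ} (hσ : 0 < σ) {p : ℕ} (hp : 2 ≤ p) :
    (p : ℝ) ^ (-(1 + σ)) < 1 :=
  Real.rpow_lt_one_of_one_lt_of_neg (by exact_mod_cast hp) (by linarith)

/-- the character as a homomorphism -/
private noncomputable def thetaF {θ : ℕ → ℝ} {M : ℝ} (h : RChar θ M) (σ : ℝ) : ℕ →*₀ ℝ where
  toFun n := θ n * (n : ℝ) ^ (-(1 + σ))
  map_zero' := by rw [h.zero, zero_mul]
  map_one' := by rw [h.one, Nat.cast_one, Real.one_rpow, one_mul]
  map_mul' m n := by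
    rw [h.mul, Nat.cast_mul, Real.mul_rpow (Nat.cast_nonneg m) (Nat.cast_nonneg n)]
    ring

/-- the trivial character as a homomorphism -/
private noncomputable def thetaO {σ : ℝ} (hσ : 0 < σ) : ℕ →*₀ ℝ where
  toFun n := (n : ℝ) ^ (-(1 + σ))
  map_zero' := by rw [Nat.cast_zero, Real.zero_rpow (by linarith)]
  map_one' := by rw [Nat.cast_one, Real.one_rpow]
  map_mul' m n := by
    rw [Nat.cast_mul, Real.mul_rpow (Nat.cast_nonneg m) (Nat.cast_nonneg n)]

private lemma theta_summ {σ : ℝ} (hσ : 0 < σ) : Summable fun n : ℕ => (n : ℝ) ^ (-(1 + σ)) :=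
  Real.summable_nat_rpow.2 (by linarith)

private lemma thetaF_abs {θ : ℕ → ℝ} {M : ℝ} (h : RChar θ M) (σ : ℝ) (n : ℕ) :
    |thetaF h σ n| ≤ (n : ℝ) ^ (-(1 + σ)) := by
  show |θ n * (n : ℝ) ^ (-(1 + σ))| ≤ _
  have h1 : (0 : ℝ) ≤ (n : ℝ) ^ (-(1 + σ)) := by positivity
  rw [abs_mul, abs_of_nonneg h1]
  exact mul_le_of_le_one_left h1 (h.abs_le n)

private lemma theta_L {θ : ℕ → ℝ} {M : ℝ} (h : RChar θ M) {σ : ℝ} (hσ : 0 < σ) :
    ∑' n, thetaF h σ n ≤ Real.log M + 3 := by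
  have hM := h.M1
  have hs : Summable fun n => thetaF h σ n :=
    Summable.of_norm_bounded (theta_summ hσ) fun n => thetaF_abs h σ n
  refine le_of_tendsto hs.hasSum.tendsto_sum_nat ?_
  set m := ⌊M⌋₊ with hm
  have hm1 : 1 ≤ m := Nat.le_floor (by exact_mod_cast hM)
  have hmM : (m : ℝ) ≤ M := Nat.floor_le (by linarith)
  have hMm : M < m + 1 := Nat.lt_floor_add_one M
  filter_upwards [Filter.eventually_ge_atTop (m + 1)] with N hN
  have hsplit : ∑ n ∈ range N, thetaF h σ n =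
      ∑ n ∈ range (m + 1), thetaF h σ n + ∑ n ∈ Ico (m + 1) N, thetaF h σ n := by
    rw [Finset.sum_range_add_sum_Ico _ hN]
  have h1 : ∑ n ∈ range (m + 1), thetaF h σ n ≤ 1 + Real.log M := by
    have h2 : ∑ n ∈ range (m + 1), thetaF h σ n ≤ HH m := by
      have e1 : ∑ n ∈ range (m + 1), thetaF h σ n = ∑ n ∈ Ioc 0 m, thetaF h σ n := by
        rw [Finset.range_eq_Ico, Finset.sum_eq_sum_Ico_succ_bot (by omega : 0 < m + 1),
          map_zero, zero_add]
        rfl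
      rw [e1]
      unfold HH
      refine Finset.sum_le_sum fun n hn => ?_
      have hn1 : 1 ≤ n := by
        have := (Finset.mem_Ioc.1 hn).1
        omega
      refine (le_abs_self _).trans ((thetaF_abs h σ n).trans ?_)
      have hn1' : (1 : ℝ) ≤ n := by exact_mod_cast hn1
      have : (n : ℝ) ^ (-(1 + σ)) ≤ (n : ℝ) ^ (-1 : ℝ) :=
        Real.rpow_le_rpow_of_exponent_le hn1' (by linarith)
      rw [Real.rpow_neg_one] at this
      rw [one_div]
      exact this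
    have h3 := HH_le (n := m)
    have h4 : Real.log m ≤ Real.log M :=
      Real.log_le_log (by exact_mod_cast hm1) hmM
    linarith
  have h2 : ∑ n ∈ Ico (m + 1) N, thetaF h σ n ≤ 1 := by
    have h3 := abel_bound θ (fun n => (n : ℝ) ^ (-(1 + σ))) (m + 1) N M hN
      (fun n hn _ => by
        have hn0 : (0 : ℝ) < n := by exact_mod_cast (by omega : 0 < n)
        refine Real.rpow_le_rpow_of_nonpos hn0 ?_ (by linarith)
        push_cast
        linarith) (by positivity) (fun k => h.sum _ _)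
    have h4 : ∑ i ∈ Ico (m + 1) N, (i : ℝ) ^ (-(1 + σ)) * θ i =
        ∑ n ∈ Ico (m + 1) N, thetaF h σ n := by
      refine Finset.sum_congr rfl fun n _ => ?_
      show _ = θ n * (n : ℝ) ^ (-(1 + σ))
      ring
    rw [h4] at h3
    refine (le_abs_self _).trans (h3.trans ?_)
    have hm1' : (1 : ℝ) ≤ ((m + 1 : ℕ) : ℝ) := by exact_mod_cast (by omega : 1 ≤ m + 1)
    have h5 : ((m + 1 : ℕ) : ℝ) ^ (-(1 + σ)) ≤ ((m + 1 : ℕ) : ℝ) ^ (-1 : ℝ) :=
      Real.rpow_le_rpow_of_exponent_le hm1' (by linarith)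
    rw [Real.rpow_neg_one] at h5
    have h6 : M * ((m + 1 : ℕ) : ℝ)⁻¹ ≤ 1 := by
      rw [← div_eq_mul_inv, div_le_one (by linarith)]
      push_cast
      linarith
    calc M * ((m + 1 : ℕ) : ℝ) ^ (-(1 + σ)) ≤ M * ((m + 1 : ℕ) : ℝ)⁻¹ :=
          mul_le_mul_of_nonneg_left h5 (by linarith)
      _ ≤ 1 := h6
  rw [hsplit]
  linarith

private lemma theta_low {g : ℕ → ℝ} (h0 : g 0 = 0) (h1 : ∀ n, |g n| ≤ 1) (a : ℕ) :
    -(a : ℝ) ≤ ∑ k ∈ range (a + 1), g k := by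
  induction a with
  | zero => simp [h0]
  | succ a ih =>
    rw [Finset.sum_range_succ]
    have := (abs_le.1 (h1 (a + 1))).1
    push_cast
    linarith

private lemma theta_eq (w X n : ℕ) (F : ℕ → ℝ) :
    (∑ p ∈ Pr w X, F p = ∑ k ∈ Ico (w + 1) (X + 1), if k.Prime then F k else 0) ∧
    (∑ p ∈ Nat.primesBelow n, F p = ∑ k ∈ range n, if k.Prime then F k else 0) := by
  constructor
  · unfold Pr
    have h1 : Ioc w X = Ico (w + 1) (X + 1) := by
      ext k
      simp only [Finset.mem_Ioc, Finset.mem_Ico]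
      omega
    rw [Finset.sum_filter, h1]
  · unfold Nat.primesBelow
    rw [Finset.sum_filter]

theorem sum_theta {θ : ℕ → ℝ} {M : ℝ} (h : RChar θ M) {σ : ℝ} (hσ : 0 < σ) (hσ1 : σ ≤ 1 / 2)
    (w X : ℕ) (hX : Real.exp (1 / σ ^ 2) ≤ X) :
    ∑ p ∈ Pr w X, θ p / (p : ℝ) ^ (1 + σ) ≤ Real.log (Real.log M + 3) + (w + 1) := by
  have hM := h.M1
  have hXpos : (0 : ℝ) < X := lt_of_lt_of_le (Real.exp_pos _) hX
  have hX1 : 1 ≤ X := by
    have : 0 < X := by exact_mod_cast hXpos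
    exact this
  have hsum : ∑ p ∈ Pr w X, θ p / (p : ℝ) ^ (1 + σ) = ∑ p ∈ Pr w X, thetaF h σ p := by
    refine Finset.sum_congr rfl fun p _ => ?_
    show _ = θ p * (p : ℝ) ^ (-(1 + σ))
    rw [Real.rpow_neg (Nat.cast_nonneg p), div_eq_mul_inv]
  rw [hsum]
  have hs : Summable fun n => ‖thetaF h σ n‖ :=
    Summable.of_nonneg_of_le (fun _ => norm_nonneg _) (fun n => thetaF_abs h σ n)
      (theta_summ hσ)
  set g : ℕ → ℝ := fun k => if k.Prime then thetaF h σ k else 0 with hg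
  have hg0 : g 0 = 0 := by simp [hg]
  have hgabs : ∀ n, |g n| ≤ (n : ℝ) ^ (-(1 + σ)) := by
    intro n
    by_cases hn : n.Prime
    · simp only [hg, if_pos hn]
      exact thetaF_abs h σ n
    · simp only [hg, if_neg hn, abs_zero]
      positivity
  have hg1 : ∀ n, |g n| ≤ 1 := by
    intro n
    by_cases hn : n.Prime
    · exact (hgabs n).trans (theta_pow_le hσ hn.two_le).le
    · simp only [hg, if_neg hn, abs_zero]
      norm_num
  have htail : ∀ n, -1 ≤ ∑ k ∈ Ico (X + 1) n, g k := by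
    intro n
    have h1 : ∑ k ∈ Ico (X + 1) n, -((k : ℝ) ^ (-(1 + σ))) ≤ ∑ k ∈ Ico (X + 1) n, g k :=
      Finset.sum_le_sum fun k _ => (abs_le.1 (hgabs k)).1
    rw [Finset.sum_neg_distrib] at h1
    have h2 := theta_tail' hσ hX1 n
    have h3 : (X : ℝ) ^ (-σ) ≤ Real.exp (-(1 / σ)) := by
      have h4 : (X : ℝ) ^ (-σ) ≤ (Real.exp (1 / σ ^ 2)) ^ (-σ) :=
        Real.rpow_le_rpow_of_nonpos (Real.exp_pos _) hX (by linarith)
      refine h4.trans (le_of_eq ?_)
      rw [← Real.exp_mul]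
      congr 1
      field_simp
    have h5 : Real.exp (-(1 / σ)) ≤ σ := by
      have h6 := Real.add_one_le_exp (1 / σ)
      have h7 : 1 / σ ≤ Real.exp (1 / σ) := by linarith
      rw [Real.exp_neg]
      rw [inv_le_comm₀ (Real.exp_pos _) hσ, ← one_div]
      exact h7
    have h8 : (X : ℝ) ^ (-σ) / σ ≤ 1 := (div_le_one hσ).2 (h3.trans h5)
    linarith
  have hlow : ∀ n, X + 1 ≤ n → (∑ p ∈ Pr w X, thetaF h σ p) - (w + 1) ≤
      ∑ p ∈ Nat.primesBelow n, thetaF h σ p := by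
    intro n hn
    rw [(theta_eq w X n _).1, (theta_eq w X n _).2]
    have h1 : ∑ k ∈ range n, g k = ∑ k ∈ range (X + 1), g k + ∑ k ∈ Ico (X + 1) n, g k := by
      rw [Finset.sum_range_add_sum_Ico _ hn]
    have h2 := htail n
    change ∑ k ∈ Ico (w + 1) (X + 1), g k - (w + 1) ≤ ∑ k ∈ range n, g k
    rw [h1]
    rcases le_or_gt w X with hw | hw
    · have h3 : ∑ k ∈ range (X + 1), g k =
          ∑ k ∈ range (w + 1), g k + ∑ k ∈ Ico (w + 1) (X + 1), g k := by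
        rw [Finset.sum_range_add_sum_Ico _ (by omega)]
      have h4 := theta_low hg0 hg1 w
      rw [h3]
      linarith
    · rw [Finset.Ico_eq_empty_of_le (by omega), Finset.sum_empty]
      have h4 := theta_low hg0 hg1 X
      have h5 : (X : ℝ) ≤ w := by exact_mod_cast hw.le
      linarith
  have hlt : ∀ p : ℕ, p.Prime → thetaF h σ p < 1 := fun p hp =>
    lt_of_le_of_lt ((le_abs_self _).trans (thetaF_abs h σ p)) (theta_pow_le hσ hp.two_le)
  have h1 := theta_euler hs hlt hlow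
  have h2 := h1.trans (theta_L h hσ)
  have h3 := Real.log_le_log (Real.exp_pos _) h2
  rw [Real.log_exp] at h3
  linarith

theorem sum_prin {σ : ℝ} (hσ : 0 < σ) (hσ1 : σ ≤ 1 / 2) (w X : ℕ) :
    ∑ p ∈ Pr w X, 1 / (p : ℝ) ^ (1 + σ) ≤ Real.log (1 / σ) + 1 := by
  have hsum : ∑ p ∈ Pr w X, 1 / (p : ℝ) ^ (1 + σ) = ∑ p ∈ Pr w X, thetaO hσ p := by
    refine Finset.sum_congr rfl fun p _ => ?_
    show _ = (p : ℝ) ^ (-(1 + σ))
    rw [Real.rpow_neg (Nat.cast_nonneg p), one_div]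
  rw [hsum]
  have hnn : ∀ n, 0 ≤ thetaO hσ n := by
    intro n
    show (0 : ℝ) ≤ (n : ℝ) ^ (-(1 + σ))
    positivity
  have hs : Summable fun n => ‖thetaO hσ n‖ := by
    have : (fun n => ‖thetaO hσ n‖) = fun n : ℕ => (n : ℝ) ^ (-(1 + σ)) := by
      funext n
      rw [Real.norm_eq_abs, abs_of_nonneg (hnn n)]
      rfl
    rw [this]
    exact theta_summ hσ
  have hlt : ∀ p : ℕ, p.Prime → thetaO hσ p < 1 := fun p hp => theta_pow_le hσ hp.two_le
  have hlow : ∀ n, X + 1 ≤ n → (∑ p ∈ Pr w X, thetaO hσ p) ≤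
      ∑ p ∈ Nat.primesBelow n, thetaO hσ p := by
    intro n hn
    refine Finset.sum_le_sum_of_subset_of_nonneg ?_ fun p _ _ => hnn p
    intro p hp
    have h1 := Finset.mem_filter.1 hp
    have h2 := (Finset.mem_Ioc.1 h1.1).2
    exact Nat.mem_primesBelow.2 ⟨by omega, h1.2⟩
  have h1 := theta_euler hs hlt hlow
  have h2 : ∑' n, thetaO hσ n ≤ Real.exp 1 * (1 / σ) := by
    refine le_of_tendsto hs.of_norm.hasSum.tendsto_sum_nat ?_
    filter_upwards [Filter.eventually_ge_atTop 2] with N hN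
    have h3 : ∑ k ∈ range N, thetaO hσ k =
        ∑ k ∈ range 2, thetaO hσ k + ∑ k ∈ Ico 2 N, thetaO hσ k := by
      rw [Finset.sum_range_add_sum_Ico _ hN]
    have h4 : ∑ k ∈ range 2, thetaO hσ k = 1 := by
      rw [Finset.sum_range_succ, Finset.sum_range_one, map_zero, map_one, zero_add]
    have h5 : ∑ k ∈ Ico 2 N, thetaO hσ k ≤ 1 / σ := by
      have := theta_tail' hσ (le_refl 1) N
      rw [Nat.cast_one, Real.one_rpow] at this
      exact this
    rw [h3, h4]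
    have h6 : 2 ≤ 1 / σ := by
      rw [le_div_iff₀ hσ]
      linarith
    have h7 : (2 : ℝ) ≤ Real.exp 1 := by
      have := Real.add_one_le_exp (1 : ℝ)
      linarith
    nlinarith
  have h3 := Real.log_le_log (Real.exp_pos _) (h1.trans h2)
  rw [Real.log_exp, Real.log_mul (Real.exp_pos 1).ne' (by positivity), Real.log_exp] at h3
  linarith

end Pool.Agent.H77.SV
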