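import Pool.Agent.H77.SV.ZU
import Pool.Agent.H77.SV.Large

/-!
# Module ThmW (about 120 lines): Theorem W.

PROOF. `K` from `large_bound`, `Y = σ^(-K)`. For a tuple `n` let `U(n) = {i : Y < n i}`. Then
`W = sum_U S_U`, `S_U = sum_{n ∈ tup, U(n) = U} term`. If `U` is not unlinked `|S_U| ≤ C` by `large_bound`.
If `U` is unlinked: `[U(n) = U] = prod_{i ∈ U} (1 - [n i ≤ Y]) prod_{i ∉ U} [n i ≤ Y] =
sum_{U' ⊆ U} (-1)^(#(U ∖ U')) [n i ≤ Y for all i ∉ U']` (`Finset.prod_sub` / `Finset.prod_one_sub` ...), so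
`|S_U| ≤ sum_{U' ⊆ U} |Z_{U'}| ≤ 2^#I C σ^(-kappa)` by `ZU_bound` (subsets of unlinked sets are unlinked).
`1 ≤ σ^(-kappa)` because `kappa ≥ 0` (`D.hU` for the empty set) and `0 < σ ≤ 1`.
-/

set_option autoImplicit false

namespace Pool.Agent.H77.SV

open Finset Pool.Agent.H24.UM

variable {I : Type} [Fintype I] [DecidableEq I] (D : WD I)

open Classical in
private theorem thmW_key {s : Finset (I → ℕ)} {f : (I → ℕ) → ℝ} {Y B : ℝ} {R : Finset I → Prop}
    (hR : ∀ U V, U ⊆ V → R V → R U)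
    (hZ : ∀ V, R V → |∑ n ∈ s.filter (fun n => ∀ i, i ∉ V → (n i : ℝ) ≤ Y), f n| ≤ B)
    (U : Finset I) : ∀ V, U ⊆ V → R V →
      |∑ n ∈ s.filter (fun n => (∀ i ∈ U, Y < (n i : ℝ)) ∧ ∀ i, i ∉ V → (n i : ℝ) ≤ Y), f n|
        ≤ 2 ^ U.card * B := by
  induction U using Finset.induction_on with
  | empty =>
    intro V _ hV
    have h := hZ V hV
    simp only [notMem_empty, false_imp_iff, implies_true, true_and, card_empty, pow_zero, one_mul]
    exact h
  | insert a U ha ih =>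
    intro V hUV hV
    have haV : a ∈ V := hUV (mem_insert_self _ _)
    have hUV' : U ⊆ V := (subset_insert _ _).trans hUV
    have h1 := ih V hUV' hV
    have h2 := ih (V.erase a) (fun x hx => mem_erase.2 ⟨fun h => ha (h ▸ hx), hUV' hx⟩)
      (hR _ _ (erase_subset _ _) hV)
    have e := Finset.sum_filter_add_sum_filter_not
      (s.filter (fun n => (∀ i ∈ U, Y < (n i : ℝ)) ∧ ∀ i, i ∉ V → (n i : ℝ) ≤ Y))
      (fun n => Y < (n a : ℝ)) f
    have e1 : (s.filter (fun n => (∀ i ∈ U, Y < (n i : ℝ)) ∧ ∀ i, i ∉ V → (n i : ℝ) ≤ Y)).filter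
        (fun n => Y < (n a : ℝ)) =
        s.filter (fun n => (∀ i ∈ insert a U, Y < (n i : ℝ)) ∧ ∀ i, i ∉ V → (n i : ℝ) ≤ Y) := by
      ext n
      simp only [mem_filter, forall_mem_insert]
      tauto
    have e2 : (s.filter (fun n => (∀ i ∈ U, Y < (n i : ℝ)) ∧ ∀ i, i ∉ V → (n i : ℝ) ≤ Y)).filter
        (fun n => ¬ Y < (n a : ℝ)) =
        s.filter (fun n => (∀ i ∈ U, Y < (n i : ℝ)) ∧ ∀ i, i ∉ V.erase a → (n i : ℝ) ≤ Y) := by
      ext n
      simp only [mem_filter, not_lt, mem_erase]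
      constructor
      · rintro ⟨⟨h3, h4, h5⟩, h6⟩
        refine ⟨h3, h4, fun i hi => ?_⟩
        by_cases hia : i = a
        · rw [hia]; exact h6
        · exact h5 i fun h => hi ⟨hia, h⟩
      · rintro ⟨h3, h4, h5⟩
        exact ⟨⟨h3, h4, fun i hi => h5 i fun h => hi h.2⟩, h5 a fun h => h.1 rfl⟩
    rw [e1, e2] at e
    have e3 : ∑ n ∈ s.filter (fun n => (∀ i ∈ insert a U, Y < (n i : ℝ)) ∧
          ∀ i, i ∉ V → (n i : ℝ) ≤ Y), f n =
        ∑ n ∈ s.filter (fun n => (∀ i ∈ U, Y < (n i : ℝ)) ∧ ∀ i, i ∉ V → (n i : ℝ) ≤ Y), f n -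
        ∑ n ∈ s.filter (fun n => (∀ i ∈ U, Y < (n i : ℝ)) ∧
          ∀ i, i ∉ V.erase a → (n i : ℝ) ≤ Y), f n := by
      linarith
    rw [e3, card_insert_of_notMem ha, pow_succ]
    have h3 := abs_sub (∑ n ∈ s.filter (fun n => (∀ i ∈ U, Y < (n i : ℝ)) ∧
        ∀ i, i ∉ V → (n i : ℝ) ≤ Y), f n) (∑ n ∈ s.filter (fun n => (∀ i ∈ U, Y < (n i : ℝ)) ∧
          ∀ i, i ∉ V.erase a → (n i : ℝ) ≤ Y), f n)
    linarith

theorem WD.thmW : ∃ C : ℝ, ∀ σ : ℝ, 0 < σ → σ ≤ 1 / 2 → ∀ X : ℕ, Real.exp (1 / σ ^ 2) ≤ X →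
    |D.W σ X| ≤ C * σ ^ (-D.kappa) := by
  classical
  obtain ⟨K, C1, hC1⟩ := D.large_bound
  have hex : ∀ U : Finset I, ∃ C : ℝ, D.Unl U → ∀ σ : ℝ, 0 < σ → σ ≤ 1 / 2 → ∀ X : ℕ,
      Real.exp (1 / σ ^ 2) ≤ X →
      |∑ n ∈ (D.tup X).filter (fun n => ∀ i, i ∉ U → (n i : ℝ) ≤ σ ^ (-(K : ℝ))),
        D.term σ n| ≤ C * σ ^ (-D.kappa) := by
    intro U
    by_cases hU : D.Unl U
    · obtain ⟨C, hC⟩ := D.ZU_bound K U hU
      exact ⟨C, fun _ => hC⟩
    · exact ⟨0, fun h => absurd h hU⟩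
  choose CU hCU using hex
  have hk0 : 0 ≤ D.kappa := by
    have := D.hU ∅ (by simp)
    simpa using this
  refine ⟨(Fintype.card (Finset I) : ℝ) *
    (2 ^ Fintype.card I * (∑ U : Finset I, |CU U|) + |C1|), fun σ hσ hσ1 X hX => ?_⟩
  have hs1 : 1 ≤ σ ^ (-D.kappa) :=
    Real.one_le_rpow_of_pos_of_le_one_of_nonpos hσ (by linarith) (by linarith)
  have hs0 : 0 ≤ σ ^ (-D.kappa) := zero_le_one.trans hs1
  have hCs : 0 ≤ ∑ U : Finset I, |CU U| := sum_nonneg fun _ _ => abs_nonneg _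
  have hR : ∀ U V, U ⊆ V → D.Unl V → D.Unl U := fun U V h hV i hi j hj => hV i (h hi) j (h hj)
  have hZ : ∀ V, D.Unl V →
      |∑ n ∈ (D.tup X).filter (fun n => ∀ i, i ∉ V → (n i : ℝ) ≤ σ ^ (-(K : ℝ))), D.term σ n| ≤
        (∑ U : Finset I, |CU U|) * σ ^ (-D.kappa) := by
    intro V hV
    refine (hCU V hV σ hσ hσ1 X hX).trans (mul_le_mul_of_nonneg_right ?_ hs0)
    exact (le_abs_self _).trans
      (single_le_sum (f := fun U => |CU U|) (fun _ _ => abs_nonneg _) (mem_univ V))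
  have hbound : ∀ U : Finset I,
      |∑ n ∈ (D.tup X).filter (fun n => univ.filter (fun i => σ ^ (-(K : ℝ)) < (n i : ℝ)) = U),
        D.term σ n| ≤ (2 ^ Fintype.card I * (∑ U : Finset I, |CU U|) + |C1|) * σ ^ (-D.kappa) := by
    intro U
    by_cases hU : D.Unl U
    · have h := thmW_key hR hZ U U (Subset.refl _) hU
      have e : (D.tup X).filter
          (fun n => univ.filter (fun i => σ ^ (-(K : ℝ)) < (n i : ℝ)) = U) =
          (D.tup X).filter (fun n => (∀ i ∈ U, σ ^ (-(K : ℝ)) < (n i : ℝ)) ∧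
            ∀ i, i ∉ U → (n i : ℝ) ≤ σ ^ (-(K : ℝ))) := by
        ext n
        simp only [mem_filter, Finset.ext_iff, mem_univ, true_and]
        constructor
        · rintro ⟨h3, h4⟩
          exact ⟨h3, fun i hi => (h4 i).2 hi, fun i hi => not_lt.1 fun h5 => hi ((h4 i).1 h5)⟩
        · rintro ⟨h3, h4, h5⟩
          exact ⟨h3, fun i => ⟨fun h6 => by
            by_contra h7
            exact absurd h6 (not_lt.2 (h5 i h7)), h4 i⟩⟩
      rw [e]
      refine h.trans ?_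
      have h2 : (2 : ℝ) ^ U.card ≤ 2 ^ Fintype.card I :=
        pow_le_pow_right₀ (by norm_num) (card_le_univ U)
      have h3 := abs_nonneg C1
      calc (2 : ℝ) ^ U.card * ((∑ U : Finset I, |CU U|) * σ ^ (-D.kappa))
          ≤ 2 ^ Fintype.card I * ((∑ U : Finset I, |CU U|) * σ ^ (-D.kappa)) :=
            mul_le_mul_of_nonneg_right h2 (mul_nonneg hCs hs0)
        _ ≤ 2 ^ Fintype.card I * ((∑ U : Finset I, |CU U|) * σ ^ (-D.kappa)) +
            |C1| * σ ^ (-D.kappa) := le_add_of_nonneg_right (mul_nonneg h3 hs0)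
        _ = (2 ^ Fintype.card I * (∑ U : Finset I, |CU U|) + |C1|) * σ ^ (-D.kappa) := by ring
    · have h := hC1 U hU σ hσ hσ1 X
      have e : (D.tup X).filter
          (fun n => univ.filter (fun i => σ ^ (-(K : ℝ)) < (n i : ℝ)) = U) =
          (D.tup X).filter (fun n => ∀ i, (σ ^ (-(K : ℝ)) < (n i : ℝ) ↔ i ∈ U)) := by
        ext n
        simp only [mem_filter, Finset.ext_iff, mem_univ, true_and]
      rw [e]
      refine h.trans ?_
      have h3 := abs_nonneg C1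
      have h4 := le_abs_self C1
      have h5 : 0 ≤ 2 ^ Fintype.card I * (∑ U : Finset I, |CU U|) := by positivity
      nlinarith [mul_nonneg h5 hs0, mul_nonneg h3 (sub_nonneg.2 hs1)]
  have hW : D.W σ X = ∑ U : Finset I,
      ∑ n ∈ (D.tup X).filter (fun n => univ.filter (fun i => σ ^ (-(K : ℝ)) < (n i : ℝ)) = U),
        D.term σ n := by
    unfold WD.W
    rw [Finset.sum_fiberwise]
  rw [hW]
  calc |∑ U : Finset I,
      ∑ n ∈ (D.tup X).filter (fun n => univ.filter (fun i => σ ^ (-(K : ℝ)) < (n i : ℝ)) = U),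
        D.term σ n|
      ≤ ∑ U : Finset I, |∑ n ∈ (D.tup X).filter
          (fun n => univ.filter (fun i => σ ^ (-(K : ℝ)) < (n i : ℝ)) = U), D.term σ n| :=
        abs_sum_le_sum_abs _ _
    _ ≤ ∑ _U : Finset I, (2 ^ Fintype.card I * (∑ U : Finset I, |CU U|) + |C1|) *
          σ ^ (-D.kappa) := sum_le_sum fun U _ => hbound U
    _ = (Fintype.card (Finset I) : ℝ) *
        (2 ^ Fintype.card I * (∑ U : Finset I, |CU U|) + |C1|) * σ ^ (-D.kappa) := by
      rw [sum_const, card_univ, nsmul_eq_mul]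
      ring

end Pool.Agent.H77.SV
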