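import Pool.Agent.H77.SV.Comb
import Pool.Agent.H77.SV.Geo

/-!
# Module Wdf (about 90 lines): the data of Theorem W for a family.

PROOF of the fields. `hE`: the third condition in `Idx`. `hK`: `F.KI x` is a product of entries of
`F.K i` and `1`s; every entry of `F.K i` is `±1` or `±` a product of `al, be, ga` and powers of
`l_j(-s_i, r_i)`, `j ≠ i`, all prime to `p > w` (`coef_ndvd`, `l_P_ndvd`, `Prime.dvd_of_dvd_pow`,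
`Prime.exists_mem_finset_dvd`). `hw`: `8 (1 + 5k/2)(1 + k) ≤ 24 (k+1)^2 ≤ w`. `hU`: `unlinked_le`.
-/

set_option autoImplicit false

namespace Pool.Agent.H77.SV

open Finset

variable {k : ℕ} {F : Fam k} {w : ℕ}

theorem kc_ndvd (hw : F.Big w) {p : ℕ} (hp : p.Prime) (hpw : w < p) (i : Fin k) {g : ℤ}
    (hg : ¬ (p : ℤ) ∣ g) (e : Fin k → ℕ) : ¬ (p : ℤ) ∣ F.kc i g e := by
  have hpp : Prime (p : ℤ) := Nat.prime_iff_prime_int.mp hp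
  intro h
  unfold Fam.kc at h
  obtain ⟨j, hj, hj'⟩ := hpp.exists_mem_finset_dvd ((hpp.dvd_or_dvd h).resolve_left hg)
  exact l_P_ndvd hw hpw (Finset.ne_of_mem_erase hj) (hpp.dvd_of_dvd_pow hj')

theorem K_ndvd (hw : F.Big w) {p : ℕ} (hp : p.Prime) (hpw : w < p) (i : Fin k) :
    ¬ (p : ℤ) ∣ (F.K i).1.1 ∧ ¬ (p : ℤ) ∣ (F.K i).1.2 ∧ ¬ (p : ℤ) ∣ (F.K i).2.1 ∧
      ¬ (p : ℤ) ∣ (F.K i).2.2 := by
  have hpp : Prime (p : ℤ) := Nat.prime_iff_prime_int.mp hp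
  have h1 : ¬ (p : ℤ) ∣ 1 := hpp.not_dvd_one
  have hneg : ∀ x : ℤ, ¬ (p : ℤ) ∣ x → ¬ (p : ℤ) ∣ -x := fun x hx h => hx ((dvd_neg).1 h)
  have hmul : ∀ x y : ℤ, ¬ (p : ℤ) ∣ x → ¬ (p : ℤ) ∣ y → ¬ (p : ℤ) ∣ x * y := fun x y hx hy h =>
    (hpp.dvd_or_dvd h).elim hx hy
  obtain ⟨ha, hb, hg⟩ := coef_ndvd hw hpw
  have hkc := fun (g : ℤ) (e : Fin k → ℕ) (hg' : ¬ (p : ℤ) ∣ g) => kc_ndvd hw hp hpw i hg' e
  have kA := hkc F.al F.ea ha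
  have kB := hkc F.be F.eb hb
  have kC := hkc F.ga F.ec hg
  have kAC := hkc (F.al * F.ga) (fun j => F.ea j + F.ec j) (hmul _ _ ha hg)
  have kAB := hkc (F.al * F.be) (fun j => F.ea j + F.eb j) (hmul _ _ ha hb)
  have kABC := hkc (F.al * F.be * F.ga) (fun j => F.ea j + F.eb j + F.ec j)
    (hmul _ _ (hmul _ _ ha hb) hg)
  have hm1 : ¬ (p : ℤ) ∣ -1 := hneg _ h1
  unfold Fam.K
  split
  · split_ifs
    · exact ⟨kA, kA, hneg _ kA, kABC⟩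
    · exact ⟨h1, kB, kAC, hneg _ kAC⟩
    · exact ⟨kAB, kAB, hneg _ kC, hm1⟩
    · exact ⟨h1, kAB, kAC, hm1⟩
  · exact ⟨hneg _ kB, h1, h1, h1⟩
  · exact ⟨h1, h1, hneg _ kA, h1⟩
  · exact ⟨h1, kA, h1, h1⟩

theorem KI_ndvd (hw : F.Big w) {p : ℕ} (hp : p.Prime) (hpw : w < p) (x : Idx F.ty) :
    ¬ (p : ℤ) ∣ F.KI x := by
  have hpp : Prime (p : ℤ) := Nat.prime_iff_prime_int.mp hp
  have h1 : ¬ (p : ℤ) ∣ 1 := hpp.not_dvd_one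
  have hmul : ∀ x y : ℤ, ¬ (p : ℤ) ∣ x → ¬ (p : ℤ) ∣ y → ¬ (p : ℤ) ∣ x * y := fun x y hx hy h =>
    (hpp.dvd_or_dvd h).elim hx hy
  have hif : ∀ (c : Prop) [Decidable c] (y : ℤ), ¬ (p : ℤ) ∣ y →
      ¬ (p : ℤ) ∣ (if c then y else 1) := by
    intro c _ y hy
    split_ifs
    · exact hy
    · exact h1
  obtain ⟨a1, a2, a3, a4⟩ := K_ndvd hw hp hpw x.1.1
  unfold Fam.KI
  exact hmul _ _ (hmul _ _ (hif _ _ a1) (hif _ _ a2)) (hmul _ _ (hif _ _ a3) (hif _ _ a4))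

theorem big_ineq (hw : F.Big w) :
    8 * (1 + ∑ x : Idx F.ty, wtI F.ty x) * (1 + (k : ℝ)) ≤ w := by
  have h1 := sum_wtI_le F.ty
  have h2 : 24 * ((k : ℝ) + 1) ^ 2 ≤ w := by exact_mod_cast hw.hk
  have hk0 : (0 : ℝ) ≤ k := Nat.cast_nonneg k
  have h3 : 8 * (1 + ∑ x : Idx F.ty, wtI F.ty x) * (1 + (k : ℝ)) ≤
      8 * (1 + 5 / 2 * k) * (1 + (k : ℝ)) := by
    apply mul_le_mul_of_nonneg_right _ (by linarith)
    linarith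
  nlinarith

/-- the data of Theorem W -/
noncomputable def wdf (F : Fam k) (w : ℕ) (hw : F.Big w) : WD (Idx F.ty) where
  E := EI F.ty
  K := F.KI
  wt := wtI F.ty
  eta := k
  kappa := k
  w := w
  hE := fun x => x.2.2.2
  hK := fun x p hp hpw => KI_ndvd hw hp hpw x
  hwt0 := wtI_pos F.ty
  hwt1 := wtI_le F.ty
  heta := Nat.cast_nonneg k
  hw := big_ineq hw
  hU := unlinked_le F

end Pool.Agent.H77.SV
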