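import Pool.Agent.H77.SV.Inner

/-!
# Module ZU (about 250 lines): the contribution of an unlinked set `U` of unrestricted variables.

`Y = σ^(-K)`; `Z_U` = sum over `v` with all `v j ≤ Y` (`j ∉ U`) of the inner sums.
PROOF. Fix `U`. By `D.inner`,
`|Z_U| ≤ sum_v prod_j ff σ j (v j) sum_T Π(v, T)`, `Π(v,T) = prod_{p ∈ Qv} (1 + x_p)`,
`x_p = sum_{i ∈ U} f σ i p jr (N_i) p`, `|x_p| ≤ 1/8`. Then
(1) `Π(v, T) ≤ exp (sum_{p ∈ Qv} x_p) ≤ 2^ω(prod v) exp (sum_{p ∈ Pr w X} x_p)` (the omitted primes are the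
prime factors of `prod v`, `exp (1/8) ≤ 2`; `ω(prod v) = sum_j ω(v j)` by coprimality).
(2) In general `sum_p x_p ≤ sum_{i ∈ U} sum_p f σ i p ≤ (sum_U wt) log (1/σ) + 2 #I`, so
`Π ≤ C 2^ω σ^(-sum_U wt)`.
(3) If for some `i₀ ∈ U` the integer `N_{i₀}` is not a square: `jr_rchar` gives `RChar (jr N) (4 |N|)`,
so by `sum_f_theta` the term of `i₀` is `≤ wt log (log (4|N|) + 3) + w + 3` and
`Π ≤ C 2^ω σ^(-(sum_U wt - wt i₀)) (log (4 |N|) + 3)^(wt i₀)`, where `|N| ≤ |K i₀| prod_j (v j)^2 ≤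
|K i₀| Y^(2 #I)`, so `log (4|N|) + 3 ≤ C (1 + log Y)`.
(4) `sum_{v, v j ≤ Y} prod_j ff σ j (v j) 2^(ω (v j)) ≤ (1 + log Y)^(2 #I)` (`small_ff`, product of sums;
drop the coprimality condition, terms are nonnegative).
Case A: `sum_U wt < kappa`: put `g = kappa - sum_U wt > 0`: `|Z_U| ≤ C (1 + log Y)^(2#I) σ^(g - kappa)`.
Case B: `sum_U wt = kappa` (`≤` by `D.hU`). Then every `j ∉ U` is linked to some `i ∈ U`
(`E i j ≠ E j i`): otherwise `U ∪ {j}` is unlinked and has larger weight, contradiction to `D.hU`.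
`v = 1` contributes at most `2^#I C σ^(-kappa)`. For `v ≠ 1` choose `j` with `v j > 1` and `i₀ ∈ U` linked
with `j`; a prime `q | v j` divides `N_{i₀} = K (±1) prod_{j'} (v j')^(E i₀ j') (st4 (v j'))^(E j' i₀)` exactly once:
`q ∤ K` (`D.hK`, `q > w`), `q ∤ v j'` for `j' ≠ j` (coprime), `v j` is squarefree and exactly one of the two
exponents for `j` is `1`. So `N_{i₀}` is not a square, (3) applies with `g = wt i₀`.
Since `Y = σ^(-K)`, `1 + log Y = 1 + K log (1/σ)` and `(1 + K log (1/σ))^m σ^g ≤ C` for `0 < σ ≤ 1/2`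
(`g > 0` fixed). There are finitely many `U`; take the maximum of the constants.
-/

set_option autoImplicit false

namespace Pool.Agent.H77.SV

open Finset Pool.Agent.H24.UM

variable {I : Type} [Fintype I] [DecidableEq I] (D : WD I)

private lemma ZU_calc (K g : ℝ) (hK : 0 ≤ K) (hg : 0 < g) (m : ℕ) :
    ∃ C : ℝ, 0 ≤ C ∧ ∀ σ : ℝ, 0 < σ → σ ≤ 1 / 2 →
      (1 + K * Real.log (1 / σ)) ^ m * σ ^ g ≤ C := by
  set ε : ℝ := g / (m + 1) with hε
  have hm : (0:ℝ) < (m:ℝ) + 1 := by positivity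
  have hε0 : 0 < ε := div_pos hg hm
  refine ⟨(1 + K / ε) ^ m, by positivity, fun σ hσ hσ1 => ?_⟩
  have h11 : 1 ≤ 1 / σ := by rw [le_div_iff₀ hσ]; linarith
  have h1 : 1 ≤ (1 / σ) ^ ε := Real.one_le_rpow h11 hε0.le
  have h2 : Real.log (1 / σ) ≤ (1 / σ) ^ ε / ε := Real.log_le_rpow_div (by positivity) hε0
  have h3 : 1 + K * Real.log (1 / σ) ≤ (1 + K / ε) * (1 / σ) ^ ε := by
    have : K * Real.log (1 / σ) ≤ K * ((1 / σ) ^ ε / ε) := mul_le_mul_of_nonneg_left h2 hK
    calc _ ≤ (1 / σ) ^ ε + K * ((1 / σ) ^ ε / ε) := by linarith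
      _ = _ := by ring
  have h0 : 0 ≤ 1 + K * Real.log (1 / σ) := by
    have : 0 ≤ Real.log (1 / σ) := Real.log_nonneg h11
    positivity
  have h4 : ((1 / σ) ^ ε) ^ m * σ ^ g ≤ 1 := by
    have h5 : (1 / σ) ^ ε = σ ^ (-ε) := by
      rw [one_div, Real.inv_rpow hσ.le, Real.rpow_neg hσ.le]
    rw [h5, ← Real.rpow_mul_natCast hσ.le, ← Real.rpow_add hσ]
    refine Real.rpow_le_one hσ.le (by linarith) ?_
    have : g = ε * (m + 1) := by rw [hε]; field_simp
    rw [this]
    nlinarith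
  calc (1 + K * Real.log (1 / σ)) ^ m * σ ^ g
      ≤ ((1 + K / ε) * (1 / σ) ^ ε) ^ m * σ ^ g := by gcongr
    _ = (1 + K / ε) ^ m * (((1 / σ) ^ ε) ^ m * σ ^ g) := by rw [mul_pow]; ring
    _ ≤ (1 + K / ε) ^ m * 1 := by gcongr
    _ = _ := mul_one _

private lemma ZU_exp8 : Real.exp (1 / 8) ≤ 2 := by
  have h := Real.add_one_le_exp (-(1 / 8) : ℝ)
  rw [Real.exp_neg] at h
  have h1 : (0:ℝ) < Real.exp (1 / 8) := Real.exp_pos _
  have h2 : (7:ℝ) / 8 * Real.exp (1 / 8) ≤ 1 := by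
    have := mul_le_mul_of_nonneg_right h h1.le
    rw [inv_mul_cancel₀ h1.ne'] at this
    linarith
  linarith

private lemma ZU_jr (E : ℤ) (n : ℕ) : |jr E n| ≤ 1 := by
  unfold jr
  rcases jc_val E n with h | h | h <;> rw [h] <;> norm_num

private lemma ZU_prime {w X p : ℕ} (hp : p ∈ Pr w X) : p.Prime ∧ w < p := by
  rw [Pr, mem_filter, mem_Ioc] at hp
  exact ⟨hp.2, hp.1.1⟩

private lemma ZU_x {σ : ℝ} (hσ : 0 < σ) {p : ℕ} (hp : p.Prime) (hpw : D.w < p) (U : Finset I)
    (g : I → ℝ) (hg : ∀ i, |g i| ≤ 1) : |∑ i ∈ U, D.f σ i p * g i| ≤ 1 / 8 := by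
  calc |∑ i ∈ U, D.f σ i p * g i| ≤ ∑ i ∈ U, |D.f σ i p * g i| := abs_sum_le_sum_abs _ _
    _ ≤ ∑ i ∈ U, D.f σ i p := by
        refine sum_le_sum fun i _ => ?_
        rw [abs_mul, abs_of_nonneg (D.f_nonneg σ i p)]
        exact mul_le_of_le_one_right (D.f_nonneg σ i p) (hg i)
    _ ≤ ∑ i, D.f σ i p := sum_le_univ_sum_of_nonneg fun i => D.f_nonneg σ i p
    _ ≤ 1 / 8 := D.sum_f_le hσ hp hpw

private lemma ZU_prod {σ : ℝ} (hσ : 0 < σ) (X : ℕ) (U T : Finset I)
    (v : {i // i ∉ U} → ℕ) (hv : v ∈ tupQ {i // i ∉ U} (Pr D.w X)) :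
    ∏ p ∈ D.Qv X v, (1 + ∑ i ∈ U, D.f σ i p * jr (D.NN U T v i) p) ≤
      (∏ j, (2:ℝ) ^ (v j).primeFactors.card) *
        Real.exp (∑ i ∈ U, ∑ p ∈ Pr D.w X, D.f σ i p * jr (D.NN U T v i) p) := by
  have hQ : ∀ p ∈ Pr D.w X, p.Prime := fun p hp => (ZU_prime hp).1
  have hm := mem_tupQ hQ hv
  set x : ℕ → ℝ := fun p => ∑ i ∈ U, D.f σ i p * jr (D.NN U T v i) p with hx
  have hx8 : ∀ p ∈ Pr D.w X, |x p| ≤ 1 / 8 := fun p hp =>
    ZU_x D hσ (ZU_prime hp).1 (ZU_prime hp).2 U _ (fun i => ZU_jr _ _)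
  have hsub : D.Qv X v ⊆ Pr D.w X := filter_subset _ _
  have h1 : ∏ p ∈ D.Qv X v, (1 + x p) ≤ Real.exp (∑ p ∈ D.Qv X v, x p) := by
    rw [Real.exp_sum]
    refine prod_le_prod (fun p hp => ?_) (fun p hp => ?_)
    · have := (abs_le.mp (hx8 p (hsub hp))).1
      linarith
    · have := Real.add_one_le_exp (x p)
      linarith
  set bad : Finset ℕ := (Pr D.w X).filter fun p => ¬ ¬ p ∣ ∏ j, v j with hbad
  have h2 : ∑ p ∈ D.Qv X v, x p + ∑ p ∈ bad, x p = ∑ p ∈ Pr D.w X, x p :=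
    sum_filter_add_sum_filter_not _ _ _
  have h3 : -(∑ p ∈ bad, x p) ≤ (bad.card : ℝ) * (1 / 8) := by
    rw [← sum_neg_distrib]
    calc ∑ p ∈ bad, -x p ≤ ∑ p ∈ bad, (1 / 8 : ℝ) := by
          refine sum_le_sum fun p hp => ?_
          have := (abs_le.mp (hx8 p (mem_filter.mp hp).1)).1
          linarith
      _ = _ := by rw [sum_const, nsmul_eq_mul]
  have h4 : bad.card ≤ ∑ j, (v j).primeFactors.card := by
    calc bad.card ≤ (univ.biUnion fun j => (v j).primeFactors).card := by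
          refine card_le_card fun p hp => ?_
          rw [hbad, mem_filter, not_not] at hp
          obtain ⟨j, -, hj⟩ := (Prime.dvd_finsetProd_iff (ZU_prime hp.1).1.prime _).mp hp.2
          rw [mem_biUnion]
          exact ⟨j, mem_univ _, Nat.mem_primeFactors.mpr ⟨(ZU_prime hp.1).1, hj, (hm.1 j).1⟩⟩
      _ ≤ _ := card_biUnion_le
  have h5 : Real.exp ((bad.card : ℝ) * (1 / 8)) ≤ ∏ j, (2:ℝ) ^ (v j).primeFactors.card := by
    calc Real.exp ((bad.card : ℝ) * (1 / 8)) = Real.exp (1 / 8) ^ bad.card := by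
          rw [← Real.exp_nat_mul]
      _ ≤ 2 ^ bad.card := by
          gcongr
          exact ZU_exp8
      _ ≤ 2 ^ (∑ j, (v j).primeFactors.card) := pow_le_pow_right₀ (by norm_num) h4
      _ = _ := (prod_pow_eq_pow_sum _ _ _).symm
  have h6 : ∑ i ∈ U, ∑ p ∈ Pr D.w X, D.f σ i p * jr (D.NN U T v i) p = ∑ p ∈ Pr D.w X, x p :=
    sum_comm
  rw [h6]
  refine h1.trans ?_
  calc Real.exp (∑ p ∈ D.Qv X v, x p)
      ≤ Real.exp ((bad.card : ℝ) * (1 / 8) + ∑ p ∈ Pr D.w X, x p) := by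
        apply Real.exp_le_exp.mpr
        linarith
    _ = Real.exp ((bad.card : ℝ) * (1 / 8)) * Real.exp (∑ p ∈ Pr D.w X, x p) := Real.exp_add _ _
    _ ≤ _ := by gcongr

private lemma ZU_pow {σ : ℝ} (hσ : 0 < σ) (s : ℝ) :
    Real.exp (s * Real.log (1 / σ)) = σ ^ (-s) := by
  rw [Real.rpow_def_of_pos hσ, one_div, Real.log_inv]
  congr 1; ring

/-- general bound of the exponent -/
private lemma ZU_gen {σ : ℝ} (hσ : 0 < σ) (hσ1 : σ ≤ 1 / 2) (X : ℕ) (U : Finset I)
    (N : I → ℤ) :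
    ∑ i ∈ U, ∑ p ∈ Pr D.w X, D.f σ i p * jr (N i) p ≤
      (∑ i ∈ U, D.wt i) * Real.log (1 / σ) + 2 * U.card := by
  calc ∑ i ∈ U, ∑ p ∈ Pr D.w X, D.f σ i p * jr (N i) p
      ≤ ∑ i ∈ U, (D.wt i * Real.log (1 / σ) + 2) := by
        refine sum_le_sum fun i _ => ?_
        refine le_trans (sum_le_sum fun p _ => ?_) (D.sum_f_prin hσ hσ1 i X)
        exact mul_le_of_le_one_right (D.f_nonneg σ i p) (abs_le.mp (ZU_jr _ _)).2
    _ = _ := by rw [sum_add_distrib, ← sum_mul, sum_const, nsmul_eq_mul]; ring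

/-- better bound, one number not a square -/
private lemma ZU_spec {σ : ℝ} (hσ : 0 < σ) (hσ1 : σ ≤ 1 / 2) (X : ℕ)
    (hX : Real.exp (1 / σ ^ 2) ≤ X) (U : Finset I)
    (N : I → ℤ) (i₀ : I) (hi₀ : i₀ ∈ U) (hN : ¬ IsSquare (N i₀)) (B : ℝ)
    (hB : Real.log ((4 * (N i₀).natAbs : ℕ) : ℝ) + 3 ≤ B) :
    Real.exp (∑ i ∈ U, ∑ p ∈ Pr D.w X, D.f σ i p * jr (N i) p) ≤
      Real.exp (2 * U.card + D.w + 3) * σ ^ (-(∑ i ∈ U, D.wt i) + D.wt i₀) * B := by
  have h1 := jr_rchar (N i₀) hN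
  have h2 := D.sum_f_theta h1 hσ hσ1 i₀ X hX
  have h3 := ZU_gen D hσ hσ1 X (U.erase i₀) N
  have h4 : ∑ i ∈ U, ∑ p ∈ Pr D.w X, D.f σ i p * jr (N i) p =
      ∑ p ∈ Pr D.w X, D.f σ i₀ p * jr (N i₀) p +
      ∑ i ∈ U.erase i₀, ∑ p ∈ Pr D.w X, D.f σ i p * jr (N i) p :=
    (add_sum_erase U _ hi₀).symm
  have h5 : ∑ i ∈ U, D.wt i = D.wt i₀ + ∑ i ∈ U.erase i₀, D.wt i := (add_sum_erase U _ hi₀).symm
  have h6 : ((U.erase i₀).card : ℝ) ≤ U.card := by
    exact_mod_cast card_le_card (erase_subset _ _)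
  have hN0 : N i₀ ≠ 0 := by
    intro h; rw [h] at hN; exact hN ⟨0, rfl⟩
  have h7 : 0 ≤ Real.log ((4 * (N i₀).natAbs : ℕ) : ℝ) := by
    apply Real.log_nonneg
    have : 1 ≤ 4 * (N i₀).natAbs := by
      have := Int.natAbs_pos.mpr hN0; omega
    exact_mod_cast this
  set z : ℝ := Real.log ((4 * (N i₀).natAbs : ℕ) : ℝ) + 3 with hz
  have hz1 : 1 ≤ z := by linarith
  have h8 : D.wt i₀ * Real.log z ≤ Real.log z := by
    refine mul_le_of_le_one_left (Real.log_nonneg hz1) ?_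
    linarith [D.hwt1 i₀]
  have h9 : ∑ i ∈ U, ∑ p ∈ Pr D.w X, D.f σ i p * jr (N i) p ≤
      (2 * U.card + D.w + 3) + (∑ i ∈ U, D.wt i - D.wt i₀) * Real.log (1 / σ) + Real.log z := by
    rw [h4, h5]
    have : (D.wt i₀ + ∑ i ∈ U.erase i₀, D.wt i - D.wt i₀) = ∑ i ∈ U.erase i₀, D.wt i := by ring
    rw [this]
    linarith
  have h10 : -(∑ i ∈ U, D.wt i) + D.wt i₀ = -(∑ i ∈ U, D.wt i - D.wt i₀) := by ring
  calc Real.exp (∑ i ∈ U, ∑ p ∈ Pr D.w X, D.f σ i p * jr (N i) p)
      ≤ Real.exp ((2 * U.card + D.w + 3) + (∑ i ∈ U, D.wt i - D.wt i₀) * Real.log (1 / σ)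
          + Real.log z) := Real.exp_le_exp.mpr h9
    _ = Real.exp (2 * U.card + D.w + 3) * σ ^ (-(∑ i ∈ U, D.wt i) + D.wt i₀) * z := by
        rw [Real.exp_add, Real.exp_add, ZU_pow hσ, Real.exp_log (by linarith), h10]
    _ ≤ _ := by gcongr

/-- the size of the conductor -/
private lemma ZU_size {Y : ℝ} (U T : Finset I) (v : {i // i ∉ U} → ℕ)
    (hvY : ∀ j, (v j : ℝ) ≤ Y) (hY : 1 ≤ Y) (i : I) (hN : D.NN U T v i ≠ 0) :
    Real.log ((4 * (D.NN U T v i).natAbs : ℕ) : ℝ) ≤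
      Real.log (4 * (1 + ∑ i, |(D.K i : ℝ)|)) + 2 * Fintype.card I * Real.log Y := by
  have h1 : ((D.NN U T v i).natAbs : ℝ) ≤ (1 + ∑ i, |(D.K i : ℝ)|) * Y ^ (2 * Fintype.card I) := by
    have h2 : ((D.NN U T v i).natAbs : ℝ) = |(D.NN U T v i : ℝ)| := by
      rw [Nat.cast_natAbs, Int.cast_abs]
    rw [h2]
    unfold WD.NN
    push_cast
    rw [abs_mul, abs_mul, abs_prod]
    have h3 : |(D.K i : ℝ)| ≤ 1 + ∑ i, |(D.K i : ℝ)| := by
      have := single_le_sum (f := fun i => |(D.K i : ℝ)|) (fun i _ => abs_nonneg _) (mem_univ i)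
      have h' : |(D.K i : ℝ)| ≤ ∑ i, |(D.K i : ℝ)| := this
      linarith
    have h4 : |(if i ∈ T then (-1:ℝ) else 1)| ≤ 1 := by split_ifs <;> norm_num
    have h5 : ∏ j : {j // j ∉ U}, |((if D.E i j = 1 then (v j : ℝ) else 1) *
        (if D.E j i = 1 then (st4 (v j) : ℝ) else 1))| ≤ Y ^ (2 * Fintype.card I) := by
      calc _ ≤ ∏ j : {j // j ∉ U}, Y ^ 2 := by
            refine prod_le_prod (fun j _ => abs_nonneg _) (fun j _ => ?_)
            have h6 : |(if D.E i j = 1 then (v j : ℝ) else 1)| ≤ Y := by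
              split_ifs
              · rw [abs_of_nonneg (by positivity)]; exact hvY j
              · rw [abs_one]; exact hY
            have h7 : |(if D.E j i = 1 then (st4 (v j) : ℝ) else 1)| ≤ Y := by
              split_ifs
              · unfold st4
                split_ifs
                · push_cast
                  rw [abs_neg, abs_of_nonneg (by positivity)]; exact hvY j
                · push_cast
                  rw [abs_of_nonneg (by positivity)]; exact hvY j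
              · rw [abs_one]; exact hY
            rw [abs_mul, pow_two]
            exact mul_le_mul h6 h7 (abs_nonneg _) (by linarith)
        _ = Y ^ (2 * Fintype.card {j // j ∉ U}) := by
            rw [prod_const, ← pow_mul, card_univ]
        _ ≤ _ := by
            refine pow_le_pow_right₀ hY ?_
            have := Fintype.card_subtype_le (fun j => j ∉ U)
            omega
    have h8 : 0 ≤ 1 + ∑ i, |(D.K i : ℝ)| := by positivity
    calc |(D.K i : ℝ)| * |(if i ∈ T then (-1:ℝ) else 1)| * _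
        ≤ (1 + ∑ i, |(D.K i : ℝ)|) * 1 * Y ^ (2 * Fintype.card I) := by
          refine mul_le_mul (mul_le_mul h3 h4 (abs_nonneg _) h8) h5 (prod_nonneg fun _ _ => abs_nonneg _) (by positivity)
      _ = _ := by ring
  have h9 : (0:ℝ) < ((4 * (D.NN U T v i).natAbs : ℕ) : ℝ) := by
    have : 0 < 4 * (D.NN U T v i).natAbs := by
      have := Int.natAbs_pos.mpr hN; omega
    exact_mod_cast this
  have h10 : (0:ℝ) < 1 + ∑ i, |(D.K i : ℝ)| := by positivity
  calc Real.log ((4 * (D.NN U T v i).natAbs : ℕ) : ℝ)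
      ≤ Real.log (4 * (1 + ∑ i, |(D.K i : ℝ)|) * Y ^ (2 * Fintype.card I)) := by
        apply Real.log_le_log h9
        push_cast
        linarith
    _ = _ := by
        rw [Real.log_mul (by positivity) (by positivity), Real.log_pow]
        push_cast; ring

/-- an unrestricted variable linked with a fixed variable which is not `1` has a nonsquare conductor -/
private lemma ZU_nonsq (X : ℕ) (U T : Finset I) (v : {i // i ∉ U} → ℕ)
    (hv : v ∈ tupQ {i // i ∉ U} (Pr D.w X)) (j : {i // i ∉ U}) (hj : v j ≠ 1) (i : I)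
    (hij : D.E i j ≠ D.E j i) : ¬ IsSquare (D.NN U T v i) := by
  have hQ : ∀ p ∈ Pr D.w X, p.Prime := fun p hp => (ZU_prime hp).1
  have hm := mem_tupQ hQ hv
  obtain ⟨q, hq, hqj⟩ := Nat.exists_prime_and_dvd hj
  have hqP : q ∈ Pr D.w X :=
    (hm.1 j).2.2 q (Nat.mem_primeFactors.mpr ⟨hq, hqj, (hm.1 j).1⟩)
  have hqw := (ZU_prime hqP).2
  have hqZ : Prime (q : ℤ) := Nat.prime_iff_prime_int.mp hq
  have hdv : ∀ j', j' ≠ j → ¬ (q : ℤ) ∣ (v j' : ℤ) := by
    intro j' hj' h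
    have h1 : q ∣ v j' := by exact_mod_cast h
    have h2 := hm.2 j' j hj'
    exact hq.one_lt.ne' (Nat.eq_one_of_dvd_coprimes h2 h1 hqj)
  have hst : ∀ x : ℕ, (q : ℤ) ∣ st4 x ↔ (q : ℤ) ∣ (x : ℤ) := by
    intro x
    unfold st4
    split_ifs
    · exact dvd_neg
    · rfl
  -- the factor of `j`
  set F : {j // j ∉ U} → ℤ := fun j => ((if D.E i j = 1 then (v j : ℤ) else 1) *
      (if D.E j i = 1 then st4 (v j) else 1)) with hF
  have hFj : F j = v j ∨ F j = -(v j : ℤ) := by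
    have h01 : ∀ x : ZMod 2, x = 0 ∨ x = 1 := by decide
    rw [hF]
    rcases h01 (D.E i j) with h1 | h1 <;> rcases h01 (D.E j i) with h2 | h2
    · exact absurd (h1.trans h2.symm) hij
    · simp only [h1, h2]
      unfold st4
      split_ifs <;> simp_all
    · simp only [h1, h2]
      left; simp
    · exact absurd (h1.trans h2.symm) hij
  have hFo : ∀ j' ∈ univ.erase j, ¬ (q : ℤ) ∣ F j' := by
    intro j' hj' h
    have hne := (mem_erase.mp hj').1
    have h1q : ¬ (q : ℤ) ∣ 1 := hqZ.not_dvd_one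
    rcases hqZ.dvd_or_dvd h with h | h
    · split_ifs at h
      · exact hdv j' hne h
      · exact h1q h
    · split_ifs at h
      · exact hdv j' hne ((hst _).mp h)
      · exact h1q h
  have hN : D.NN U T v i = (D.K i * (if i ∈ T then -1 else 1) * ∏ j' ∈ univ.erase j, F j') * F j := by
    unfold WD.NN
    rw [mul_assoc (D.K i * _), prod_erase_mul _ _ (mem_univ j)]
  set c : ℤ := D.K i * (if i ∈ T then -1 else 1) * ∏ j' ∈ univ.erase j, F j' with hc
  have hqc : ¬ (q : ℤ) ∣ c := by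
    intro h
    rcases hqZ.dvd_or_dvd h with h | h
    · rcases hqZ.dvd_or_dvd h with h | h
      · exact D.hK i q hq hqw h
      · split_ifs at h
        · exact hqZ.not_dvd_one (by simpa using h)
        · exact hqZ.not_dvd_one h
    · obtain ⟨j', hj', h⟩ := (Prime.dvd_finsetProd_iff hqZ _).mp h
      exact hFo j' hj' h
  rintro ⟨a, ha⟩
  have h1 : (q : ℤ) ∣ F j := by
    have : (q : ℤ) ∣ (v j : ℤ) := by exact_mod_cast hqj
    rcases hFj with h | h <;> rw [h]
    · exact this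
    · exact this.neg_right
  have h2 : (q : ℤ) ∣ a * a := by
    rw [← ha, hN]; exact h1.mul_left _
  have h3 : (q : ℤ) ∣ a := by
    rcases hqZ.dvd_or_dvd h2 with h | h <;> exact h
  have h4 : (q : ℤ) * q ∣ c * F j := by
    rw [← hN, ha]; exact mul_dvd_mul h3 h3
  have h5 : IsCoprime ((q : ℤ) * q) c := by
    have : IsCoprime (q : ℤ) c := (Prime.coprime_iff_not_dvd hqZ).mpr hqc
    exact this.mul_left this
  have h6 : (q : ℤ) * q ∣ F j := h5.dvd_of_dvd_mul_left h4
  have h7 : (q : ℤ) * q ∣ (v j : ℤ) := by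
    rcases hFj with h | h <;> rw [h] at h6
    · exact h6
    · exact (dvd_neg.mp h6)
  have h8 : q * q ∣ v j := by exact_mod_cast h7
  have h9 := (hm.1 j).2.1 q h8
  exact hq.one_lt.ne' (Nat.isUnit_iff.mp h9)

/-- the sum over the small fixed variables -/
private lemma ZU_small {σ : ℝ} (hσ : 0 < σ) (X : ℕ) {Y : ℝ} (hY : 1 ≤ Y) (U : Finset I) :
    ∑ v ∈ (tupQ {i // i ∉ U} (Pr D.w X)).filter (fun v => ∀ j, (v j : ℝ) ≤ Y),
      ((∏ j : {i // i ∉ U}, D.ff σ j (v j)) * ∏ j, (2:ℝ) ^ (v j).primeFactors.card) ≤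
      (1 + Real.log Y) ^ (2 * Fintype.card I) := by
  have h0 : 0 ≤ Real.log Y := Real.log_nonneg hY
  calc _ ≤ ∑ v ∈ Fintype.piFinset (fun _ : {i // i ∉ U} =>
        (∏ p ∈ Pr D.w X, p).divisors.filter (fun n : ℕ => (n : ℝ) ≤ Y)),
        ∏ j : {i // i ∉ U}, (D.ff σ j (v j) * (2:ℝ) ^ (v j).primeFactors.card) := by
        simp_rw [← prod_mul_distrib]
        refine sum_le_sum_of_subset_of_nonneg ?_ ?_
        · intro v hv
          rw [mem_filter, tupQ, mem_filter, Fintype.mem_piFinset] at hv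
          rw [Fintype.mem_piFinset]
          intro j
          rw [mem_filter]
          exact ⟨hv.1.1 j, hv.2 j⟩
        · intro v _ _
          exact prod_nonneg fun j _ => mul_nonneg (D.ff_nonneg σ j _) (by positivity)
    _ = ∏ j : {i // i ∉ U}, ∑ n ∈ (∏ p ∈ Pr D.w X, p).divisors.filter (fun n : ℕ => (n : ℝ) ≤ Y),
          D.ff σ j n * (2:ℝ) ^ n.primeFactors.card :=
        (prod_univ_sum (fun _ : {i // i ∉ U} =>
          (∏ p ∈ Pr D.w X, p).divisors.filter (fun n : ℕ => (n : ℝ) ≤ Y))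
          (fun j n => D.ff σ j n * (2:ℝ) ^ n.primeFactors.card)).symm
    _ ≤ ∏ j : {i // i ∉ U}, (1 + Real.log Y) ^ 2 := by
        refine prod_le_prod (fun j _ => sum_nonneg fun n _ =>
          mul_nonneg (D.ff_nonneg σ j _) (by positivity)) (fun j _ => D.small_ff hσ j X hY)
    _ = (1 + Real.log Y) ^ (2 * Fintype.card {i // i ∉ U}) := by
        rw [prod_const, ← pow_mul, card_univ]
    _ ≤ _ := by
        refine pow_le_pow_right₀ (by linarith) ?_
        have := Fintype.card_subtype_le (fun j => j ∉ U)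
        omega

/-- reduction to sums over the fixed variables -/
private lemma ZU_fub {σ : ℝ} (hσ : 0 < σ) (X : ℕ) (Y : ℝ) (U : Finset I) (hU : D.Unl U) :
    |∑ n ∈ (D.tup X).filter (fun n => ∀ i, i ∉ U → (n i : ℝ) ≤ Y), D.term σ n| ≤
      ∑ v ∈ (tupQ {i // i ∉ U} (Pr D.w X)).filter (fun v => ∀ j, (v j : ℝ) ≤ Y),
        (∏ j : {i // i ∉ U}, D.ff σ j (v j)) * ∑ T ∈ U.powerset,
          ∏ p ∈ D.Qv X v, (1 + ∑ i ∈ U, D.f σ i p * jr (D.NN U T v i) p) := by
  have hQ : ∀ p ∈ Pr D.w X, p.Prime := fun p hp => (ZU_prime hp).1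
  rw [sum_filter, WD.tup, fubini _ hQ U]
  have h1 : ∀ v ∈ tupQ {i // i ∉ U} (Pr D.w X),
      ∑ u ∈ tupQ U ((Pr D.w X).filter fun p => ¬ p ∣ ∏ j, v j),
        (if (∀ i, i ∉ U → ((glue U u v i : ℕ) : ℝ) ≤ Y) then D.term σ (glue U u v) else 0) =
      if (∀ j, (v j : ℝ) ≤ Y) then ∑ u ∈ tupQ U (D.Qv X v), D.term σ (glue U u v) else 0 := by
    intro v _
    have h2 : ∀ u : U → ℕ, (∀ i, i ∉ U → ((glue U u v i : ℕ) : ℝ) ≤ Y) ↔ ∀ j, (v j : ℝ) ≤ Y := by
      intro u
      constructor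
      · intro h j
        have := h j.1 j.2
        unfold glue at this
        rw [dif_neg j.2] at this
        exact this
      · intro h i hi
        unfold glue
        rw [dif_neg hi]
        exact h ⟨i, hi⟩
    split_ifs with h
    · exact sum_congr rfl fun u _ => if_pos ((h2 u).mpr h)
    · exact sum_eq_zero fun u _ => if_neg (fun h' => h ((h2 u).mp h'))
  rw [sum_congr rfl h1, ← sum_filter]
  refine (abs_sum_le_sum_abs _ _).trans (sum_le_sum fun v hv => ?_)
  exact D.inner hσ X U hU v (mem_filter.mp hv).1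

theorem WD.ZU_bound (K : ℕ) (U : Finset I) (hU : D.Unl U) :
    ∃ C : ℝ, ∀ σ : ℝ, 0 < σ → σ ≤ 1 / 2 → ∀ X : ℕ, Real.exp (1 / σ ^ 2) ≤ X →
      |∑ n ∈ (D.tup X).filter (fun n => ∀ i, i ∉ U → (n i : ℝ) ≤ σ ^ (-(K : ℝ))),
        D.term σ n| ≤ C * σ ^ (-D.kappa) := by
  have hQ : ∀ X, ∀ p ∈ Pr D.w X, p.Prime := fun X p hp => (ZU_prime hp).1
  set s : ℝ := ∑ i ∈ U, D.wt i with hs
  have hsk : s ≤ D.kappa := D.hU U hU
  have hT : ∀ z : ℝ, ∑ T ∈ U.powerset, z = 2 ^ U.card * z := by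
    intro z; rw [sum_const, card_powerset, nsmul_eq_mul]; push_cast; ring
  have hK0 : (0:ℝ) ≤ K := Nat.cast_nonneg _
  -- facts about sigma
  have hlog : ∀ σ : ℝ, 0 < σ → σ ≤ 1 / 2 → 0 ≤ Real.log (1 / σ) := fun σ h h' =>
    Real.log_nonneg (by rw [le_div_iff₀ h]; linarith)
  have hY : ∀ σ : ℝ, 0 < σ → σ ≤ 1 / 2 → 1 ≤ σ ^ (-(K : ℝ)) := by
    intro σ h h'
    rw [Real.rpow_neg h.le]
    exact (one_le_inv₀ (by positivity)).mpr (Real.rpow_le_one h.le (by linarith) hK0)
  have hlY : ∀ σ : ℝ, 0 < σ → Real.log (σ ^ (-(K : ℝ))) = K * Real.log (1 / σ) := by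
    intro σ h
    rw [Real.log_rpow h, one_div, Real.log_inv]; ring
  rcases hsk.lt_or_eq with hlt | heq
  · -- case A
    obtain ⟨C, hC0, hC⟩ := ZU_calc K (D.kappa - s) hK0 (by linarith) (2 * Fintype.card I)
    refine ⟨2 ^ U.card * Real.exp (2 * U.card) * C, fun σ hσ hσ1 X hX => ?_⟩
    refine (ZU_fub D hσ X _ U hU).trans ?_
    set Y := σ ^ (-(K : ℝ)) with hYd
    have hL := hlog σ hσ hσ1
    calc _ ≤ ∑ v ∈ (tupQ {i // i ∉ U} (Pr D.w X)).filter (fun v => ∀ j, (v j : ℝ) ≤ Y),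
          ((∏ j : {i // i ∉ U}, D.ff σ j (v j)) * ∏ j, (2:ℝ) ^ (v j).primeFactors.card) *
            (2 ^ U.card * (Real.exp (2 * U.card) * σ ^ (-s))) := by
          refine sum_le_sum fun v hv => ?_
          rw [mul_assoc]
          refine mul_le_mul_of_nonneg_left ?_ (prod_nonneg fun j _ => D.ff_nonneg σ j _)
          calc _ ≤ ∑ T ∈ U.powerset, (∏ j, (2:ℝ) ^ (v j).primeFactors.card) *
                (Real.exp (2 * U.card) * σ ^ (-s)) := by
                refine sum_le_sum fun T _ => ?_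
                refine (ZU_prod D hσ X U T v (mem_filter.mp hv).1).trans ?_
                refine mul_le_mul_of_nonneg_left ?_ (by positivity)
                rw [← ZU_pow hσ, ← Real.exp_add, Real.exp_le_exp]
                have := ZU_gen D hσ hσ1 X U (fun i => D.NN U T v i)
                linarith
            _ = _ := by rw [hT]; ring
      _ = (∑ v ∈ (tupQ {i // i ∉ U} (Pr D.w X)).filter (fun v => ∀ j, (v j : ℝ) ≤ Y),
          ((∏ j : {i // i ∉ U}, D.ff σ j (v j)) * ∏ j, (2:ℝ) ^ (v j).primeFactors.card)) *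
            (2 ^ U.card * (Real.exp (2 * U.card) * σ ^ (-s))) := (sum_mul _ _ _).symm
      _ ≤ (1 + Real.log Y) ^ (2 * Fintype.card I) *
            (2 ^ U.card * (Real.exp (2 * U.card) * σ ^ (-s))) := by
          refine mul_le_mul_of_nonneg_right (ZU_small D hσ X (hY σ hσ hσ1) U) (by positivity)
      _ = 2 ^ U.card * Real.exp (2 * U.card) *
            ((1 + K * Real.log (1 / σ)) ^ (2 * Fintype.card I) * σ ^ (D.kappa - s)) *
            σ ^ (-D.kappa) := by
          rw [hYd, hlY σ hσ]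
          have : σ ^ (-s) = σ ^ (D.kappa - s) * σ ^ (-D.kappa) := by
            rw [← Real.rpow_add hσ]; congr 1; ring
          rw [this]; ring
      _ ≤ 2 ^ U.card * Real.exp (2 * U.card) * C * σ ^ (-D.kappa) := by
          have := hC σ hσ hσ1
          gcongr
  · -- case B
    set KM : ℝ := 1 + ∑ i, |(D.K i : ℝ)| with hKM
    have hKM1 : 1 ≤ KM := by
      have : 0 ≤ ∑ i, |(D.K i : ℝ)| := sum_nonneg fun i _ => abs_nonneg _
      linarith
    set B1 : ℝ := Real.log (4 * KM) + 3 with hB1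
    have hB10 : 0 ≤ Real.log (4 * KM) := Real.log_nonneg (by linarith)
    set m : ℕ := 2 * Fintype.card I with hm
    have hex : ∀ i : I, ∃ C : ℝ, 0 ≤ C ∧ ∀ σ : ℝ, 0 < σ → σ ≤ 1 / 2 →
        (1 + K * Real.log (1 / σ)) ^ (m + 1) * σ ^ (D.wt i) ≤ C := fun i =>
      ZU_calc K (D.wt i) hK0 (D.hwt0 i) (m + 1)
    choose C hC0 hC using hex
    set E1 : ℝ := Real.exp (2 * U.card + D.w + 3) with hE1
    -- B ≤ (B1 + m) (1 + K L)
    refine ⟨2 ^ U.card * (Real.exp (2 * U.card) + ∑ i, E1 * (B1 + m) * C i),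
      fun σ hσ hσ1 X hX => ?_⟩
    refine (ZU_fub D hσ X _ U hU).trans ?_
    set Y := σ ^ (-(K : ℝ)) with hYd
    have hL := hlog σ hσ hσ1
    set L := Real.log (1 / σ) with hLd
    have hYL : Real.log Y = K * L := hlY σ hσ
    have hKL : 0 ≤ K * L := mul_nonneg hK0 hL
    set V := (tupQ {i // i ∉ U} (Pr D.w X)).filter (fun v => ∀ j, (v j : ℝ) ≤ Y) with hV
    set G : ℝ := ∑ i, E1 * (B1 + m) * (1 + K * L) * σ ^ (-s + D.wt i) with hG
    have hG0 : ∀ i, 0 ≤ E1 * (B1 + m) * (1 + K * L) * σ ^ (-s + D.wt i) := fun i => by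
      have : 0 ≤ B1 := by linarith
      positivity
    have key : ∀ v ∈ V, (∏ j : {i // i ∉ U}, D.ff σ j (v j)) * ∑ T ∈ U.powerset,
          ∏ p ∈ D.Qv X v, (1 + ∑ i ∈ U, D.f σ i p * jr (D.NN U T v i) p) ≤
        (if v = 1 then 2 ^ U.card * (Real.exp (2 * U.card) * σ ^ (-s)) else 0) +
        ((∏ j : {i // i ∉ U}, D.ff σ j (v j)) * ∏ j, (2:ℝ) ^ (v j).primeFactors.card) *
          (2 ^ U.card * G) := by
      intro v hv
      have hv1 := (mem_filter.mp hv).1
      have hv2 := (mem_filter.mp hv).2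
      have hff : 0 ≤ ∏ j : {i // i ∉ U}, D.ff σ j (v j) :=
        prod_nonneg fun j _ => D.ff_nonneg σ j _
      have hGn : 0 ≤ G := sum_nonneg fun i _ => hG0 i
      split_ifs with h1
      · -- v = 1
        have hp : ∏ j : {i // i ∉ U}, D.ff σ j (v j) = 1 := by
          refine prod_eq_one fun j _ => ?_
          rw [h1]; simp [WD.ff]
        have hp2 : ∏ j : {i // i ∉ U}, (2:ℝ) ^ (v j).primeFactors.card = 1 := by
          refine prod_eq_one fun j _ => ?_
          rw [h1]; simp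
        rw [hp, hp2, one_mul, one_mul, one_mul]
        have : ∑ T ∈ U.powerset, ∏ p ∈ D.Qv X v, (1 + ∑ i ∈ U, D.f σ i p * jr (D.NN U T v i) p) ≤
            2 ^ U.card * (Real.exp (2 * U.card) * σ ^ (-s)) := by
          rw [← hT]
          refine sum_le_sum fun T _ => ?_
          refine (ZU_prod D hσ X U T v hv1).trans ?_
          rw [hp2, one_mul, ← ZU_pow hσ, ← Real.exp_add, Real.exp_le_exp]
          have := ZU_gen D hσ hσ1 X U (fun i => D.NN U T v i)
          linarith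
        have h0 : 0 ≤ 2 ^ U.card * G := by positivity
        linarith
      · -- v ≠ 1
        rw [zero_add, mul_assoc]
        refine mul_le_mul_of_nonneg_left ?_ hff
        obtain ⟨j, hj⟩ : ∃ j, v j ≠ 1 := by
          by_contra hcon
          push Not at hcon
          exact h1 (funext hcon)
        -- a linked unrestricted variable
        obtain ⟨i₀, hi₀, hlink⟩ : ∃ i ∈ U, D.E i j ≠ D.E j i := by
          by_contra hcon
          push Not at hcon
          have hU' : ∀ i ∈ insert j.1 U, ∀ i' ∈ insert j.1 U, D.E i i' = D.E i' i := by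
            intro i hi i' hi'
            rw [mem_insert] at hi hi'
            rcases hi with rfl | hi <;> rcases hi' with rfl | hi'
            · rfl
            · exact (hcon i' hi').symm
            · exact hcon i hi
            · exact hU i hi i' hi'
          have h2 := D.hU _ hU'
          rw [sum_insert j.2] at h2
          have := D.hwt0 j.1
          linarith
        calc _ ≤ ∑ T ∈ U.powerset, (∏ j, (2:ℝ) ^ (v j).primeFactors.card) * G := by
              refine sum_le_sum fun T _ => ?_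
              refine (ZU_prod D hσ X U T v hv1).trans ?_
              refine mul_le_mul_of_nonneg_left ?_ (by positivity)
              have hns := ZU_nonsq D X U T v hv1 j hj i₀ hlink
              have hN0 : D.NN U T v i₀ ≠ 0 := by
                intro h; rw [h] at hns; exact hns ⟨0, rfl⟩
              have hsz := ZU_size D U T v hv2 (hY σ hσ hσ1) i₀ hN0
              have hB : Real.log ((4 * (D.NN U T v i₀).natAbs : ℕ) : ℝ) + 3 ≤
                  (B1 + m) * (1 + K * L) := by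
                rw [hYL] at hsz
                have hm' : (m : ℝ) = 2 * Fintype.card I := by rw [hm]; push_cast; ring
                have : 0 ≤ B1 * (K * L) := mul_nonneg (by linarith) hKL
                have : (0:ℝ) ≤ m := Nat.cast_nonneg _
                rw [hm'] at this ⊢
                nlinarith
              have hsp := ZU_spec D hσ hσ1 X hX U (fun i => D.NN U T v i) i₀ hi₀ hns _ hB
              refine hsp.trans ?_
              have hle := single_le_sum (f := fun i => E1 * (B1 + m) * (1 + K * L) *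
                σ ^ (-s + D.wt i)) (fun i _ => hG0 i) (mem_univ i₀)
              refine le_trans (le_of_eq ?_) hle
              ring
          _ = _ := by rw [hT]; ring
    calc _ ≤ ∑ v ∈ V, ((if v = 1 then 2 ^ U.card * (Real.exp (2 * U.card) * σ ^ (-s)) else 0) +
        ((∏ j : {i // i ∉ U}, D.ff σ j (v j)) * ∏ j, (2:ℝ) ^ (v j).primeFactors.card) *
          (2 ^ U.card * G)) := sum_le_sum key
      _ = (∑ v ∈ V, if v = 1 then 2 ^ U.card * (Real.exp (2 * U.card) * σ ^ (-s)) else 0) +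
          (∑ v ∈ V, ((∏ j : {i // i ∉ U}, D.ff σ j (v j)) *
            ∏ j, (2:ℝ) ^ (v j).primeFactors.card)) * (2 ^ U.card * G) := by
          rw [sum_add_distrib, sum_mul]
      _ ≤ 2 ^ U.card * (Real.exp (2 * U.card) * σ ^ (-s)) +
          (1 + K * L) ^ m * (2 ^ U.card * G) := by
          have hGn : 0 ≤ G := sum_nonneg fun i _ => hG0 i
          have h1 : (∑ v ∈ V, if v = 1 then 2 ^ U.card * (Real.exp (2 * U.card) * σ ^ (-s)) else 0)
              ≤ 2 ^ U.card * (Real.exp (2 * U.card) * σ ^ (-s)) := by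
            rw [sum_ite_eq']
            split_ifs
            · exact le_rfl
            · positivity
          have h2 := ZU_small D hσ X (hY σ hσ hσ1) U
          rw [← hYd, hYL] at h2
          exact add_le_add h1 (mul_le_mul_of_nonneg_right h2 (by positivity))
      _ = 2 ^ U.card * (Real.exp (2 * U.card) + ∑ i, E1 * (B1 + m) *
            ((1 + K * L) ^ (m + 1) * σ ^ (D.wt i))) * σ ^ (-D.kappa) := by
          have h3 : G = (∑ i, E1 * (B1 + m) * (1 + K * L) * σ ^ (D.wt i)) * σ ^ (-s) := by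
            rw [hG, sum_mul]
            refine sum_congr rfl fun i _ => ?_
            rw [Real.rpow_add hσ]; ring
          have h4 : (1 + K * L) ^ m * (2 ^ U.card * G) = 2 ^ U.card * (∑ i, E1 * (B1 + m) *
            ((1 + K * L) ^ (m + 1) * σ ^ (D.wt i))) * σ ^ (-s) := by
            rw [h3]
            have : ∑ i, E1 * (B1 + m) * ((1 + K * L) ^ (m + 1) * σ ^ (D.wt i)) =
                (1 + K * L) ^ m * ∑ i, E1 * (B1 + m) * (1 + K * L) * σ ^ (D.wt i) := by
              rw [mul_sum]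
              refine sum_congr rfl fun i _ => ?_
              ring
            rw [this]; ring
          rw [h4, ← heq]; ring
      _ ≤ _ := by
          have hB : 0 ≤ B1 := by linarith
          have hC' : ∑ i, E1 * (B1 + m) * ((1 + K * L) ^ (m + 1) * σ ^ (D.wt i)) ≤
              ∑ i, E1 * (B1 + m) * C i := by
            refine sum_le_sum fun i _ => ?_
            exact mul_le_mul_of_nonneg_left (hC i σ hσ hσ1) (by positivity)
          gcongr

end Pool.Agent.H77.SV
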